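import Pool.Agent.Lib.SG.SpecA
import Pool.Agent.Lib.MP_9f2731_nt.BT.Mert

/-!
MP_9a4459_nt, module Mrt: Mertens' second theorem.
-/

namespace Pool.Agent.Lib.SG

open Finset Pool.Agent.Lib.BV
open Pool.Agent.Lib.MP_aa9ae4_nt (mertensA mertensS mertensA_le mertens_step)
open Pool.Agent.Lib.MP_9f2731_nt.BT (mert_A_ge mert_upper mert_diff)

private lemma Mrt_lower (c : ℝ) (hc : ∀ n : ℕ, 1 ≤ n → Real.log n - c ≤ mertensA n) (M : ℕ)
    (hM : 2 ≤ M) (N : ℕ) (hN : M ≤ N) :
    (Real.log (Real.log N) - Real.log (Real.log M)) - 4 * (1 / (M : ℝ) - 1 / N) -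
        c * (1 / Real.log M - 1 / Real.log N) ≤
      (mertensS N - mertensA N / Real.log N) - (mertensS M - mertensA M / Real.log M) := by
  induction N, hN using Nat.le_induction with
  | base => simp
  | succ x hx ih =>
    have hx2 : (2 : ℝ) ≤ x := by exact_mod_cast hM.trans hx
    have hx0 : (0 : ℝ) < x := by linarith
    have hl : 0 < Real.log x := Real.log_pos (by linarith)
    have hl1 : 0 < Real.log ((x + 1 : ℕ) : ℝ) := Real.log_pos (by push_cast; linarith)
    have hmono : Real.log x ≤ Real.log ((x + 1 : ℕ) : ℝ) :=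
      Real.log_le_log (by linarith) (by push_cast; linarith)
    rw [mertens_step x (hM.trans hx)]
    have hA := hc x (by omega)
    have hd : 0 ≤ 1 / Real.log x - 1 / Real.log ((x + 1 : ℕ) : ℝ) := by
      rw [sub_nonneg]
      exact one_div_le_one_div_of_le hl hmono
    have h1 : (Real.log x - c) * (1 / Real.log x - 1 / Real.log ((x + 1 : ℕ) : ℝ)) ≤
        mertensA x * (1 / Real.log x - 1 / Real.log ((x + 1 : ℕ) : ℝ)) :=
      mul_le_mul_of_nonneg_right hA hd
    set u : ℝ := Real.log (Real.log ((x + 1 : ℕ) : ℝ)) - Real.log (Real.log x) with hu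
    set r : ℝ := Real.log x / Real.log ((x + 1 : ℕ) : ℝ) with hr
    have hr0 : 0 < r := div_pos hl hl1
    have hr1 : r ≤ 1 := by
      rw [hr, div_le_one hl1]
      exact hmono
    have h2 : u ≤ 1 / r - 1 := by
      have h3 := Real.log_le_sub_one_of_pos (div_pos hl1 hl)
      rw [Real.log_div hl1.ne' hl.ne'] at h3
      have h4 : 1 / r = Real.log ((x + 1 : ℕ) : ℝ) / Real.log x := by
        rw [hr, one_div_div]
      rw [h4]
      exact h3
    have h3 : 1 - r ≤ 1 / x := by
      have h4 : Real.log ((x + 1 : ℕ) : ℝ) - Real.log x ≤ 1 / x := by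
        have h5 : Real.log ((x + 1 : ℕ) : ℝ) - Real.log x = Real.log (1 + 1 / x) := by
          rw [← Real.log_div (by positivity) (by positivity)]
          congr 1
          push_cast
          field_simp
        rw [h5]
        have h6 := Real.log_le_sub_one_of_pos (show 0 < 1 + 1 / (x : ℝ) by positivity)
        linarith
      have h7 : 1 ≤ Real.log ((x + 1 : ℕ) : ℝ) := by
        rw [Real.le_log_iff_exp_le (by positivity)]
        have := Real.exp_one_lt_d9
        push_cast
        linarith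
      have h8 : (1 - r) * Real.log ((x + 1 : ℕ) : ℝ) = Real.log ((x + 1 : ℕ) : ℝ) - Real.log x := by
        rw [hr]
        field_simp
      have h9 : (1 - r) * 1 ≤ (1 - r) * Real.log ((x + 1 : ℕ) : ℝ) :=
        mul_le_mul_of_nonneg_left h7 (by linarith)
      linarith
    have hxh : 1 / (x : ℝ) ≤ 1 / 2 := one_div_le_one_div_of_le (by norm_num) hx2
    have hr2 : 1 / 2 ≤ r := by linarith
    -- (1 - r)^2 / r ≤ 2 / x^2
    have h4 : 1 / r - 1 ≤ (1 - r) + 2 * (1 / (x : ℝ)) ^ 2 := by
      have h5 : 1 / r - 1 = (1 - r) + (1 - r) ^ 2 / r := by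
        field_simp
        ring
      rw [h5]
      have h6 : (1 - r) ^ 2 / r ≤ (1 - r) ^ 2 / (1 / 2) :=
        div_le_div_of_nonneg_left (sq_nonneg _) (by norm_num) hr2
      have h7 : (1 - r) ^ 2 ≤ (1 / (x : ℝ)) ^ 2 := by
        apply pow_le_pow_left₀ (by linarith) h3
      have h8 : (1 - r) ^ 2 / (1 / 2) = 2 * (1 - r) ^ 2 := by ring
      linarith
    have h5 : 2 * (1 / (x : ℝ)) ^ 2 ≤ 4 * (1 / (x : ℝ) - 1 / ((x + 1 : ℕ) : ℝ)) := by
      push_cast
      have h6 : 1 / (x : ℝ) - 1 / ((x : ℝ) + 1) = 1 / (x * (x + 1)) := by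
        field_simp
        ring
      have h7 : 2 * (1 / (x : ℝ)) ^ 2 = 2 / (x : ℝ) ^ 2 := by
        rw [one_div_pow, mul_one_div]
      rw [h6, h7, mul_one_div, div_le_div_iff₀ (by positivity) (by positivity)]
      nlinarith
    have h6 : Real.log x * (1 / Real.log x - 1 / Real.log ((x + 1 : ℕ) : ℝ)) = 1 - r := by
      rw [hr]
      field_simp
    have h7 : mertensS x - mertensA x / Real.log ((x + 1 : ℕ) : ℝ) =
        (mertensS x - mertensA x / Real.log x) +
          mertensA x * (1 / Real.log x - 1 / Real.log ((x + 1 : ℕ) : ℝ)) := by ring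
    rw [h7]
    have h8 : (Real.log x - c) * (1 / Real.log x - 1 / Real.log ((x + 1 : ℕ) : ℝ)) =
        Real.log x * (1 / Real.log x - 1 / Real.log ((x + 1 : ℕ) : ℝ)) -
          c * (1 / Real.log x - 1 / Real.log ((x + 1 : ℕ) : ℝ)) := by ring
    rw [h8, h6] at h1
    linarith

/-- the natural number version -/
private lemma Mrt_nat : ∃ C : ℝ, 0 < C ∧ ∀ M N : ℕ, 2 ≤ M → M ≤ N →
    |∑ p ∈ (Ioc M N).filter Nat.Prime, 1 / (p : ℝ) -
      (Real.log (Real.log N) - Real.log (Real.log M))| ≤ C / Real.log M := by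
  obtain ⟨c₁, hc₁, hA⟩ := mert_A_ge
  have hl4 : 0 ≤ Real.log 4 := Real.log_nonneg (by norm_num)
  refine ⟨2 * c₁ + 2 * Real.log 4 + 4, by positivity, fun M N hM hN => ?_⟩
  have hM2 : (2 : ℝ) ≤ M := by exact_mod_cast hM
  have hMN : (M : ℝ) ≤ N := by exact_mod_cast hN
  have hlM : 0 < Real.log M := Real.log_pos (by linarith)
  have hlN : 0 < Real.log N := Real.log_pos (by linarith)
  have hmono : Real.log M ≤ Real.log N := Real.log_le_log (by linarith) hMN
  have hinv : 1 / Real.log N ≤ 1 / Real.log M := one_div_le_one_div_of_le hlM hmono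
  have hinv0 : 0 < 1 / Real.log N := by positivity
  have hlow := Mrt_lower c₁ hA M hM N hN
  have hup := mert_upper (Real.log 4) (fun n hn => mertensA_le n hn) M hM N hN
  rw [mert_diff M N hN]
  have a1 : mertensA N / Real.log N ≤ 1 + Real.log 4 * (1 / Real.log N) := by
    have h := mertensA_le N (by omega)
    calc mertensA N / Real.log N ≤ (Real.log N + Real.log 4) / Real.log N := by gcongr
      _ = 1 + Real.log 4 * (1 / Real.log N) := by field_simp
  have a2 : 1 - c₁ * (1 / Real.log N) ≤ mertensA N / Real.log N := by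
    have h := hA N (by omega)
    calc 1 - c₁ * (1 / Real.log N) = (Real.log N - c₁) / Real.log N := by field_simp
      _ ≤ mertensA N / Real.log N := by gcongr
  have a3 : mertensA M / Real.log M ≤ 1 + Real.log 4 * (1 / Real.log M) := by
    have h := mertensA_le M (by omega)
    calc mertensA M / Real.log M ≤ (Real.log M + Real.log 4) / Real.log M := by gcongr
      _ = 1 + Real.log 4 * (1 / Real.log M) := by field_simp
  have a4 : 1 - c₁ * (1 / Real.log M) ≤ mertensA M / Real.log M := by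
    have h := hA M (by omega)
    calc 1 - c₁ * (1 / Real.log M) = (Real.log M - c₁) / Real.log M := by field_simp
      _ ≤ mertensA M / Real.log M := by gcongr
  have hm : 4 * (1 / (M : ℝ) - 1 / N) ≤ 4 * (1 / Real.log M) := by
    have h1 : Real.log M ≤ M := by
      have := Real.log_le_sub_one_of_pos (show (0 : ℝ) < M by linarith)
      linarith
    have h2 : 1 / (M : ℝ) ≤ 1 / Real.log M := one_div_le_one_div_of_le hlM h1
    have h3 : 0 < 1 / (N : ℝ) := by
      have : (0 : ℝ) < N := by linarith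
      positivity
    linarith
  have e1 : (2 * c₁ + 2 * Real.log 4 + 4) / Real.log M =
      2 * (c₁ * (1 / Real.log M)) + 2 * (Real.log 4 * (1 / Real.log M)) + 4 * (1 / Real.log M) := by
    ring
  rw [e1]
  have b1 : c₁ * (1 / Real.log N) ≤ c₁ * (1 / Real.log M) := mul_le_mul_of_nonneg_left hinv hc₁
  have b2 : Real.log 4 * (1 / Real.log N) ≤ Real.log 4 * (1 / Real.log M) :=
    mul_le_mul_of_nonneg_left hinv hl4
  have b3 : 0 ≤ c₁ * (1 / Real.log N) := by positivity
  have b4 : 0 ≤ Real.log 4 * (1 / Real.log N) := by positivity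
  have b5 : 0 < 1 / Real.log M := by positivity
  rw [mul_sub c₁] at hlow
  rw [mul_sub (Real.log 4)] at hup
  rw [abs_le]
  constructor
  · linarith
  · linarith

private lemma Mrt_floor (x : ℝ) (hx : 2 ≤ x) :
    2 ≤ ⌊x⌋₊ ∧ Real.log (⌊x⌋₊ : ℝ) ≤ Real.log x ∧ Real.log x ≤ 2 * Real.log (⌊x⌋₊ : ℝ) ∧
      0 ≤ Real.log (Real.log x) - Real.log (Real.log (⌊x⌋₊ : ℝ)) ∧
      Real.log (Real.log x) - Real.log (Real.log (⌊x⌋₊ : ℝ)) ≤ 1 / Real.log x := by
  have hM : 2 ≤ ⌊x⌋₊ := Nat.le_floor (by exact_mod_cast hx)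
  have hM2 : (2 : ℝ) ≤ (⌊x⌋₊ : ℝ) := by exact_mod_cast hM
  have hle : (⌊x⌋₊ : ℝ) ≤ x := Nat.floor_le (by linarith)
  have hlt : x < (⌊x⌋₊ : ℝ) + 1 := Nat.lt_floor_add_one x
  set m : ℝ := (⌊x⌋₊ : ℝ) with hm
  have hm0 : 0 < m := by linarith
  have hlm : 0 < Real.log m := Real.log_pos (by linarith)
  have hlx : 0 < Real.log x := Real.log_pos (by linarith)
  have h1 : Real.log m ≤ Real.log x := Real.log_le_log hm0 hle
  have h2 : Real.log x ≤ 2 * Real.log m := by
    have h3 : Real.log x ≤ Real.log (m ^ 2) := Real.log_le_log (by linarith) (by nlinarith)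
    rw [Real.log_pow] at h3
    exact_mod_cast h3
  have h3 : Real.log x - Real.log m ≤ 1 / m := by
    rw [← Real.log_div (by linarith) hm0.ne']
    have h4 := Real.log_le_sub_one_of_pos (div_pos (show 0 < x by linarith) hm0)
    have h5 : x / m - 1 ≤ 1 / m := by
      rw [div_sub_one hm0.ne', div_le_div_iff_of_pos_right hm0]
      linarith
    linarith
  have h4 : Real.log (Real.log x) - Real.log (Real.log m) ≤ 1 / (m * Real.log m) := by
    rw [← Real.log_div hlx.ne' hlm.ne']
    have h5 := Real.log_le_sub_one_of_pos (div_pos hlx hlm)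
    have h6 : Real.log x / Real.log m - 1 = (Real.log x - Real.log m) / Real.log m := by
      field_simp
    have h7 : (Real.log x - Real.log m) / Real.log m ≤ (1 / m) / Real.log m := by gcongr
    have h8 : (1 / m) / Real.log m = 1 / (m * Real.log m) := by rw [div_div]
    linarith
  refine ⟨hM, h1, h2, ?_, ?_⟩
  · rw [sub_nonneg]
    exact Real.log_le_log hlm h1
  · refine h4.trans ?_
    apply one_div_le_one_div_of_le hlx
    nlinarith

theorem tMrt : MrtStmt := by
  obtain ⟨C, hC, h⟩ := Mrt_nat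
  refine ⟨2 * C + 2, by positivity, fun x y hx hxy => ?_⟩
  obtain ⟨x1, x2, x3, x4, x5⟩ := Mrt_floor x hx
  obtain ⟨y1, y2, y3, y4, y5⟩ := Mrt_floor y (hx.trans hxy)
  have hlx : 0 < Real.log x := Real.log_pos (by linarith)
  have hly : 0 < Real.log y := Real.log_pos (by linarith)
  have hmono : Real.log x ≤ Real.log y := Real.log_le_log (by linarith) hxy
  have h1 := h ⌊x⌋₊ ⌊y⌋₊ x1 (Nat.floor_le_floor hxy)
  have hlm : 0 < Real.log (⌊x⌋₊ : ℝ) := Real.log_pos (by
    have : (2 : ℝ) ≤ (⌊x⌋₊ : ℝ) := by exact_mod_cast x1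
    linarith)
  have h2 : C / Real.log (⌊x⌋₊ : ℝ) ≤ 2 * C / Real.log x := by
    rw [div_le_div_iff₀ hlm hlx]
    nlinarith
  have h3 : 1 / Real.log y ≤ 1 / Real.log x := one_div_le_one_div_of_le hlx hmono
  rw [Real.log_div hly.ne' hlx.ne']
  have h4 : (2 * C + 2) / Real.log x = 2 * C / Real.log x + 2 * (1 / Real.log x) := by ring
  rw [h4]
  have h5 := abs_le.1 h1
  rw [abs_le]
  constructor
  · linarith [h5.1, h5.2]
  · linarith [h5.1, h5.2]

end Pool.Agent.Lib.SG
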