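import Pool.Agent.Lib.SG.Defs

/-!
MP_9a4459_nt, directory Lib/SG (architect helper96), part A: lower bound for the number of primes in
the classes mod q when log q is a small multiple of log x and the real characters mod q behave
(`Good`). Elementary: fundamental lemma of the sieve, Selberg's formula, real s > 0 only.

RULES. Module Xyz: file Pool/Agent/Lib/SG/Xyz.lean, first line `import Pool.Agent.Lib.SG.SpecA` (or the Spec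
file which contains XyzStmt), then `namespace Pool.Agent.Lib.SG`,
`open Finset Pool.Agent.Lib.BV`, private lemmas with names starting with Xyz_, final theorem
`theorem tXyz (h1 : AStmt) ... : XyzStmt`; the statements listed under Uses are hypotheses of your
theorem, in this order (FlStmt, UbStmt, RouStmt, SwStmt, PntStmt, FinStmt are those of Lib/BV). The
docstring contains a complete proof. Never use congr!. Every module below 60 s.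

Notation: φ = q.totient, L = Real.log D. All D are ≥ D0 and q^4 ≤ D.
-/

namespace Pool.Agent.Lib.SG

open Finset Pool.Agent.Lib.BV

/-! ### Sums of n^(-1-s) -/

/-- Module Smz (theorem tSmz). Uses: nothing.
Proof. n = 0: the term is 0 (0 to a negative power is 0, Real.zero_rpow). n ≥ 1: y^k/k! ≤ exp y
(Real.pow_div_factorial_le_exp) with y = (s/2)(1 + log n) gives (1 + log n)^k ≤ k! (2/s)^k e^(s/2) n^(s/2), so the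
term is ≤ k! (2/s)^k e^(s/2) n^(-(1+s/2)), summable (Real.summable_nat_rpow). For t > 0: ∑_{n ≥ 1} n^(-(1+t)) ≤ 1 + 1/t, because
n^(-(1+t)) ≤ (1/t) ((n-1)^(-t) - n^(-t)) for n ≥ 2 (mean value theorem; telescoping). With t = s/2, s ≤ 1:
total ≤ k! 2^k e^(1/2) s^(-k) (1 + 2/s) ≤ 6 k! 2^k s^(-k-1). -/
def SmzStmt : Prop :=
  ∀ k : ℕ, ∃ C : ℝ, 0 < C ∧
    (∀ s : ℝ, 0 < s → Summable (fun n : ℕ => (1 + Real.log n) ^ k * (n : ℝ) ^ (-(1 + s)))) ∧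
    ∀ s : ℝ, 0 < s → s ≤ 1 →
      ∑' n : ℕ, (1 + Real.log n) ^ k * (n : ℝ) ^ (-(1 + s)) ≤ C * s⁻¹ ^ (k + 1)

/-- Module Abl (theorem tAbl; summation by parts). Uses: Smz.
Proof. S(n) = ∑_{i ≤ n} u i. By induction on N ≥ 1: ∑_{n ≤ N} u n f n = S(N) f(N) - ∑_{n < N, n ≥ 1} S(n) (f(n+1) - f(n)).
The second sum is ≤ B K ∑_{n ≥ 1} n^(1-δ) (1 + log n)^m n^(-2) = B K ∑ (1 + log n)^m n^(-(1+δ)) ≤ B K C_m δ^(-m-1) (Smz; a finite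
sum of nonnegative terms is ≤ the tsum). |S(N) f(N)| ≤ B K (1 + log N)^m N^(-δ), and
(1 + log N)^m ≤ m! δ^(-m) exp(δ (1 + log N)) = m! δ^(-m) e^δ N^δ (as in Smz), so this is ≤ B K m! e δ^(-m) ≤ B K m! e δ^(-m-1).
N = 0: empty sum. -/
def AblStmt : Prop :=
  ∀ m : ℕ, ∃ C : ℝ, 0 < C ∧ ∀ (u f : ℕ → ℝ) (B K δ : ℝ), 0 ≤ B → 0 ≤ K → 0 < δ → δ ≤ 1 →
    (∀ N : ℕ, |∑ n ∈ Icc 1 N, u n| ≤ B * (N : ℝ) ^ (1 - δ)) →
    (∀ n : ℕ, 1 ≤ n → |f n| ≤ K * (1 + Real.log n) ^ m / n) →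
    (∀ n : ℕ, 1 ≤ n → |f (n + 1) - f n| ≤ K * (1 + Real.log n) ^ m / (n : ℝ) ^ 2) →
    ∀ N : ℕ, |∑ n ∈ Icc 1 N, u n * f n| ≤ C * (B * K * δ⁻¹ ^ (m + 1))

/-! ### The rough numbers in the classes mod q -/

/-- Module Cdf (theorem tCdf; class differences of the rough numbers). Uses: Fl, Ub.
Proof. L = log D. A rough n ≥ 2 (rr D n = 1) is > D (its prime factors are > D), so for N ≤ D the sum is 0. Let N > D. The sum is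
the difference of the sums of rr D n over n ∈ Ioc 1 N in the two classes.
(1) D < N < D^80. z = ⌊D^(1/32)⌋ ≥ 2, rr D n ≤ rr z n (Rough D n implies Rough z n as z ≤ D). Ub on Ioc 0 N: each class sum is
≤ C N/(φ log z) + z^16, log z ≥ L/64 (z ≥ D^(1/64) for D ≥ D0), z^16 ≤ D^(1/2) ≤ D/(φ L) ≤ N/(φ L) because
φ L ≤ D^(1/4) L ≤ D^(1/2) for D ≥ D0. So the difference is ≤ C' N/(φ L), and N^(-1/(80 L)) = exp(-log N/(80 L)) ≥ e^(-1).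
(2) N ≥ D^80. v = log N/L ≥ 80, b = ⌊v/40⌋₊ ≥ 2. Fl with z = D on Ioc 1 N: the difference is ≤ C (N/φ) e^(-b)/L + D^(16 b).
e^(-b) ≤ e e^(-v/40) ≤ e e^(-v/80) = e N^(-1/(80 L)). D^(16b) ≤ D^(16 v/40) = N^(2/5). It remains: N^(2/5) ≤ (N/(φ L)) N^(-1/(80L)),
i.e. φ L N^(1/(80 L)) ≤ N^(3/5): φ L ≤ D^(1/2) ≤ N^(1/160), N^(1/(80L)) ≤ N^(1/80) (L ≥ 1). -/
def CdfStmt : Prop :=
  ∃ C D0 : ℝ, 0 < C ∧ 3 ≤ D0 ∧ ∀ q D a a' N : ℕ, 1 ≤ q → D0 ≤ D → q ^ 4 ≤ D →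
    a.Coprime q → a'.Coprime q →
    |∑ n ∈ Icc 1 N, (if n = 1 then 0 else rr D n *
        ((if n ≡ a [MOD q] then 1 else 0) - (if n ≡ a' [MOD q] then 1 else 0)))| ≤
      C / ((q.totient : ℝ) * Real.log D) * (N : ℝ) ^ (1 - 1 / (80 * Real.log D))

/-- Module Dif (theorem tDif). Uses: Smz, Abl, Cdf.
Proof. (n : ZMod q) = a iff n ≡ a.val.val mod q (ZMod.natCast_eq_natCast_iff, ZMod.natCast_zmod_val), and
a.val.val is coprime to q (ZMod.val_coe_unit_coprime). All series converge absolutely (Smz; |wt D s (gm m) n| ≤ (1 + log n)^m n^(-(1+s))), so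
the left side is the limit for N → ∞ of |∑_{n ≤ N} u n f n|, u n = the summand of Cdf, f n = (log n)^m n^(-(1+s))
(n = 0 and n = 1 contribute 0). Abl with B = C/(φ L), δ = 1/(80 L) ≤ 1, K = 16: |f n| ≤ (1 + log n)^m/n; f' (t) =
(m (log t)^(m-1) - (1+s)(log t)^m) t^(-2-s), |f'(t)| ≤ (m+2)(1 + log t)^m t^(-2) ≤ (m+2) 2^m (1 + log n)^m n^(-2) on [n, n+1]
(log(n+1) ≤ 1 + log n ... 1 + log(n+1) ≤ 2 (1 + log n)), mean value theorem. The bound is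
C_m (C/(φ L)) 16 (80 L)^(m+1) = C' L^m/φ. Second part: f n = n^(-(1+s)) - n^(-(1+s')), m = 1 in Abl, K = 12 (s' - s):
t^(-1-s) - t^(-1-s') = t^(-1-s)(1 - t^(-(s'-s))) is between 0 and (s'-s) log t/t, and its derivative is
-(1+s)(t^(-2-s) - t^(-2-s')) + (s'-s) t^(-2-s'), of absolute value ≤ 3 (s'-s)(1 + log t) t^(-2). -/
def DifStmt : Prop :=
  ∃ C D0 : ℝ, 0 < C ∧ 3 ≤ D0 ∧ ∀ (q : ℕ) [NeZero q] (D : ℕ) (a a' : (ZMod q)ˣ) (s : ℝ),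
    D0 ≤ D → q ^ 4 ≤ D → 0 < s → s ≤ 1 →
    (∀ m : ℕ, m ≤ 2 → |cU q (wt D s (gm m)) a - cU q (wt D s (gm m)) a'| ≤
      C * ((Real.log D) ^ m / (q.totient : ℝ))) ∧
    ∀ s' : ℝ, s ≤ s' → s' ≤ 1 →
      |(cU q (wt D s (gm 0)) a - cU q (wt D s' (gm 0)) a) -
        (cU q (wt D s (gm 0)) a' - cU q (wt D s' (gm 0)) a')| ≤
      C * ((s' - s) * Real.log D / (q.totient : ℝ))

/-- Module Cxu (theorem tCxu). Uses: nothing.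
Proof. χ(n) = 0 if (n : ZMod q) is not a unit; otherwise it is exactly one a. So χ(n) f(n) = ∑_a [n = a] χ(a) f(n), and
the finite sum over a may be exchanged with the tsum (each of the series is absolutely convergent: f is summable in ℝ, hence
|f| is summable; Summable.tsum_finsetSum). -/
def CxuStmt : Prop :=
  ∀ (q : ℕ) [NeZero q] (χ : DirichletCharacter ℂ q) (f : ℕ → ℝ), Summable f →
    cX χ f = ∑ a : (ZMod q)ˣ, χ (a : ZMod q) * (cU q f a : ℂ)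

/-- Module Lbd (theorem tLbd; bounds for nonprincipal characters). Uses: Smz, Dif, Cxu.
Proof. one n = gm 0 n + [n = 1], lgn = gm 1 (log 1 = 0). So cX χ (wt D s one) = 1 + cX χ (wt D s (gm 0)) (the term n = 1: rr D 1 = 1,
1^(..) = 1, χ 1 = 1). Cxu and ∑_a χ(a) = 0 (χ ≠ 1; MulChar.sum_eq_zero_of_ne_one, non-units contribute 0): for a fixed unit a0
cX χ f = ∑_a χ(a) (cU f a - cU f a0), |..| ≤ φ max|difference| (Fintype.card = φ: ZMod.card_units_eq_totient; ‖χ a‖ ≤ 1: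
DirichletCharacter.norm_le_one). Dif with m = 0, m = 1 and the second part. -/
def LbdStmt : Prop :=
  ∃ C D0 : ℝ, 0 < C ∧ 3 ≤ D0 ∧ ∀ (q : ℕ) [NeZero q] (D : ℕ) (χ : DirichletCharacter ℂ q) (s : ℝ),
    D0 ≤ D → q ^ 4 ≤ D → χ ≠ 1 → 0 < s → s ≤ 1 →
    ‖cX χ (wt D s one)‖ ≤ C ∧ ‖cX χ (wt D s lgn)‖ ≤ C * Real.log D ∧
    ∀ s' : ℝ, s ≤ s' → s' ≤ 1 →
      ‖cX χ (wt D s one) - cX χ (wt D s' one)‖ ≤ C * ((s' - s) * Real.log D)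

/-- Module L0 (theorem tL0). Uses: Smz, Rou.
Proof. The term n = 1 is 1. Let u n = rr D n for n ≥ 2, 0 otherwise; it is 0 for n ≤ D, and S(N) = ∑_{n ≤ N} u n ≤ C N/L for all
N (Rou for N ≥ D, 0 below). With f n = n^(-(1+s)) (decreasing), f n - f(n+1) ≤ (1+s) n^(-(2+s)) ≤ 2 n^(-(2+s)) (mean value theorem):
∑_{n ≤ N} u n f n = S(N) f(N) + ∑_{n<N} S(n)(f n - f(n+1)) ≤ C/L + (2C/L) ∑ n^(-(1+s)) ≤ C'/(s L) (Smz, k = 0). And 1 ≤ 1/(s L). Let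
N → ∞. -/
def L0Stmt : Prop :=
  ∃ C D0 : ℝ, 0 < C ∧ 3 ≤ D0 ∧ ∀ (D : ℕ) (s : ℝ), D0 ≤ D → 0 < s → s ≤ 1 / Real.log D →
    ∑' n : ℕ, wt D s one n ≤ C / (s * Real.log D)

/-! ### The values of the L-series -/

/-- Module Lch (theorem tLch; rough numbers and imprimitive characters). Uses: nothing.
Proof. Let Π = ∏ of the primes ≤ D (primorial D), χ' = DirichletCharacter.changeLevel (dvd_mul_right q Π) χ, mod q Π. For n ≥ 1: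
n is coprime to Π iff Rough D n. If n is coprime to q Π then χ'(n) = χ(n) (changeLevel_eq_cast_of_dvd); if not, χ'(n) = 0, and
either χ(n) = 0 or rr D n = 0. So χ'(n) = χ(n) rr D n for n ≥ 1, and LSeries χ' (1+s) is the sum of χ'(n)/n^(1+s) =
χ(n) rr D n n^(-(1+s)) (LSeries.term; the term n = 0 is 0 on both sides). changeLevel is a homomorphism. -/
def LchStmt : Prop :=
  ∀ (q D : ℕ) [NeZero q], ∃ (M : ℕ) (_ : NeZero M) (Φ : DirichletCharacter ℂ q →* DirichletCharacter ℂ M),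
    (∀ (χ : DirichletCharacter ℂ q) (n : ℕ), 1 ≤ n →
      Φ χ (n : ZMod M) = χ (n : ZMod q) * ((rr D n : ℝ) : ℂ)) ∧
    ∀ (χ : DirichletCharacter ℂ q) (s : ℝ), 0 < s →
      cX χ (wt D s one) = LSeries (fun n => Φ χ (n : ZMod M)) (1 + (s : ℂ))

/-- Module Zid (theorem tZid). Uses: Smz, Lch.
Proof. With χ' = Φ χ of Lch: Mathlib DirichletCharacter.convolution_twist_vonMangoldt: (χ' Λ) ⍟ χ' = χ' log, and
LSeries_convolution' gives L(χ' Λ) L(χ') = L(χ' log) at 1 + s (summability: DirichletCharacter.LSeriesSummable_twist_vonMangoldt,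
LSeriesSummable_of_one_lt_re; re(1+s) > 1). The three series are cX χ (wt D s Lam), cX χ (wt D s one), cX χ (wt D s lgn)
by the first part of Lch (terms n ≥ 1; LSeries.term at 0 is 0, and (0:ℝ)^(-(1+s)) = 0). -/
def ZidStmt : Prop :=
  ∀ (q : ℕ) [NeZero q] (χ : DirichletCharacter ℂ q) (D : ℕ) (s : ℝ), 0 < s →
    cX χ (wt D s Lam) * cX χ (wt D s one) = cX χ (wt D s lgn)

/-- Module Tfo (theorem tTfo; 3-4-1). Uses: Lch.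
Proof. Mathlib DirichletCharacter.norm_LSeries_product_ge_one for Φ χ, x = s, y = 0 (Φ 1 = 1, Φ (χ^2) = (Φ χ)^2). -/
def TfoStmt : Prop :=
  ∀ (q : ℕ) [NeZero q] (χ : DirichletCharacter ℂ q) (D : ℕ) (s : ℝ), 0 < s →
    1 ≤ ‖cX (1 : DirichletCharacter ℂ q) (wt D s one)‖ ^ 3 * ‖cX χ (wt D s one)‖ ^ 4 *
      ‖cX (χ ^ 2) (wt D s one)‖

/-- Module Fou (theorem tFou; two real characters). Uses: Lch.
Proof. As norm_LSeries_product_ge_one in Mathlib (NumberTheory/LSeries/Nonvanishing.lean): by LSeries_eulerProduct_exp_log the product of the four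
norms is exp of the real part of the sum over the primes p of ∑_ψ -log(1 - ψ(p) x), x = p^(-(1+s)) ∈ (0,1), ψ = Φ 1, Φ χ1, Φ χ2, Φ χ1 Φ χ2. If
p is not a unit mod M all ψ(p) = 0. Otherwise ε1 = Φ χ1 (p), ε2 = Φ χ2 (p) satisfy ε^2 = 1, so they are 1 or -1, and the real part is
-4 log(1 - x) ≥ 0 if ε1 = ε2 = 1 and -2 log(1-x) - 2 log(1+x) = -2 log(1 - x^2) ≥ 0 in the other three cases. -/
def FouStmt : Prop :=
  ∀ (q : ℕ) [NeZero q] (χ₁ χ₂ : DirichletCharacter ℂ q) (D : ℕ) (s : ℝ), χ₁ ^ 2 = 1 → χ₂ ^ 2 = 1 →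
    0 < s →
    1 ≤ ‖cX (1 : DirichletCharacter ℂ q) (wt D s one)‖ * ‖cX χ₁ (wt D s one)‖ *
      ‖cX χ₂ (wt D s one)‖ * ‖cX (χ₁ * χ₂) (wt D s one)‖

/-- Module Lw1 (theorem tLw1; lower bound for non-real characters). Uses: Smz, Lbd, L0, Tfo.
Proof. C1 ≥ 1 from Lbd, C2 ≥ 1 from L0 (increase them), log D ≥ 1. ‖cX 1 (wt D s one)‖ ≤ ∑' wt D s one n ≤ C2/t, t = s log D ∈ (0,1]
(norm_tsum_le_tsum_norm, ‖1(n)‖ ≤ 1, wt ≥ 0). χ² ≠ 1, χ ≠ 1, so by Tfo and Lbd: 1 ≤ (C2/t)^3 ‖cX χ‖^4 C1, hence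
‖cX χ (wt D s one)‖ ≥ c3 t^(3/4), c3 = (C2^3 C1)^(-1/4). Let κ = min(1, (c3/(2 C1))^4), s0 = κ/log D ≤ 1/log D ≤ 1. If s ≥ s0: ≥ c3 κ^(3/4). If
s < s0: by the third part of Lbd ≥ c3 κ^(3/4) - C1 κ = κ^(3/4)(c3 - C1 κ^(1/4)) ≥ κ^(3/4) c3/2. -/
def Lw1Stmt : Prop :=
  ∃ c D0 : ℝ, 0 < c ∧ 3 ≤ D0 ∧ ∀ (q : ℕ) [NeZero q] (D : ℕ) (χ : DirichletCharacter ℂ q) (s : ℝ),
    D0 ≤ D → q ^ 4 ≤ D → χ ^ 2 ≠ 1 → 0 < s → s ≤ 1 / Real.log D → c ≤ ‖cX χ (wt D s one)‖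

/-- Module Exc (theorem tExc; at most one exceptional real character). Uses: Smz, Lbd, L0, Fou.
Proof. C1, C2 ≥ 1 as in Lw1, ‖cX 1 (wt D s one)‖ ≤ C2/(s log D). κ = 1/(2 C1 (1 + C1 C2)^2). Suppose both fail: s1, s2 ∈ (0, 1/log D] with
‖cX χᵢ (wt D sᵢ one)‖ < κ. Fou with χ₁ = χᵢ, χ₂ = 1 at sᵢ: 1 ≤ (‖cX 1‖ ‖cX χᵢ‖)^2, so sᵢ log D/C2 ≤ ‖cX χᵢ‖ < κ, sᵢ < s0 := C2 κ/log D
(≤ 1/log D since C2 κ ≤ 1). Lbd (third part): ‖cX χᵢ (wt D s0 one)‖ ≤ κ + C1 C2 κ. χ₁ χ₂ ≠ 1 (otherwise χ₁ = χ₂⁻¹ = χ₂). Fou at s0: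
1 ≤ (C2/(C2 κ)) (1 + C1 C2)^2 κ^2 C1 = C1 (1 + C1 C2)^2 κ = 1/2, a contradiction. -/
def ExcStmt : Prop :=
  ∃ κ D0 : ℝ, 0 < κ ∧ 3 ≤ D0 ∧ ∀ (q : ℕ) [NeZero q] (D : ℕ) (χ₁ χ₂ : DirichletCharacter ℂ q),
    D0 ≤ D → q ^ 4 ≤ D → χ₁ ≠ 1 → χ₂ ≠ 1 → χ₁ ≠ χ₂ → χ₁ ^ 2 = 1 → χ₂ ^ 2 = 1 →
    (∀ s : ℝ, 0 < s → s ≤ 1 / Real.log D → κ ≤ ‖cX χ₁ (wt D s one)‖) ∨
    (∀ s : ℝ, 0 < s → s ≤ 1 / Real.log D → κ ≤ ‖cX χ₂ (wt D s one)‖)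

/-- Module Zbd (theorem tZbd). Uses: Lbd, Zid, Lw1.
Proof. If χ² = 1 use Good, otherwise Lw1: ‖cX χ (wt D s one)‖ ≥ min(κ, c) > 0. Zid and Lbd: ‖cX χ (wt D s Lam)‖ ≤ C log D/min(κ, c). -/
def ZbdStmt : Prop :=
  ∀ κ : ℝ, 0 < κ → ∃ C D0 : ℝ, 0 < C ∧ 3 ≤ D0 ∧
    ∀ (q : ℕ) [NeZero q] (D : ℕ) (χ : DirichletCharacter ℂ q) (s : ℝ),
    D0 ≤ D → q ^ 4 ≤ D → Good κ q D → χ ≠ 1 → 0 < s → s ≤ 1 / Real.log D →
    ‖cX χ (wt D s Lam)‖ ≤ C * Real.log D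

/-! ### Upper bounds for primes in a class -/

/-- Module Btp (theorem tBtp; Brun-Titchmarsh). Uses: Ub.
Proof. z = ⌊N^(1/64)⌋ ≥ 2, log z ≥ (log N)/128 for N ≥ N0. A prime p > z satisfies Rough z p, so the number is
≤ z + ∑ rr z n over n ∈ Ioc 0 N, n ≡ a, ≤ z + C N/(φ log z) + z^16, z + z^16 ≤ 2 N^(1/4) ≤ N/(φ log N) (φ ≤ q ≤ N^(1/4), N ≥ N0). -/
def BtpStmt : Prop :=
  ∃ C N0 : ℝ, 0 < C ∧ 3 ≤ N0 ∧ ∀ q a N : ℕ, 1 ≤ q → N0 ≤ N → q ^ 4 ≤ N → a.Coprime q →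
    (((Icc 1 N).filter (fun p => p.Prime ∧ p ≡ a [MOD q])).card : ℝ) ≤
      C * ((N : ℝ) / ((q.totient : ℝ) * Real.log N))

/-- Module Abt (theorem tAbt). Uses: Smz, Btp.
Proof. u n = 1 if n is prime, n ≡ a mod q, n > D, otherwise 0; S(n) = ∑_{i ≤ n} u i ≤ C n/(φ log n) for n > D and S(n) = 0 for n ≤ D
(n ≥ D ≥ D0 ≥ N0). f n = (log n)^m n^(-(1+s)), |f(n+1) - f n| ≤ K (log n)^m n^(-(2+s)) for n ≥ 3 (as in Dif, keeping the factor n^(-s)).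
∑_{n ≤ N} u n f n = S(N) f(N) - ∑_{n<N} S(n)(f(n+1) - f n) ≤ (C/φ) (log N)^(m-1) N^(-s) + (C K/φ) ∑ (1 + log n)^(m-1) n^(-(1+s)) ≤
(C'/φ) s^(-m) (Smz with k = m-1; (log N)^(m-1) N^(-s) ≤ (m-1)! s^(-(m-1)) ≤ s^(-m)). Second part: for p > X, p^(-(1+s)) ≤ X^(-s/2) p^(-(1+s/2)) and
X^(-s/2) ≤ exp(-K/2); the first part with s/2 (m = 2). -/
def AbtStmt : Prop :=
  ∃ C D0 : ℝ, 0 < C ∧ 3 ≤ D0 ∧ ∀ (q D a N : ℕ) (s : ℝ), 1 ≤ q → D0 ≤ D → q ^ 4 ≤ D →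
    a.Coprime q → 0 < s → s ≤ 1 →
    (∀ m : ℕ, 1 ≤ m → m ≤ 2 →
      ∑ p ∈ (Ioc D N).filter (fun p => p.Prime ∧ p ≡ a [MOD q]),
        (Real.log p) ^ m * (p : ℝ) ^ (-(1 + s)) ≤ C / ((q.totient : ℝ) * s ^ m)) ∧
    ∀ (X : ℕ) (K : ℝ), D ≤ X → 0 ≤ K → Real.exp (K / s) ≤ X →
      ∑ p ∈ (Ioc X N).filter (fun p => p.Prime ∧ p ≡ a [MOD q]),
        (Real.log p) ^ 2 * (p : ℝ) ^ (-(1 + s)) ≤
          C / ((q.totient : ℝ) * s ^ 2) * Real.exp (-(K / 2))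

/-- Module Ppw (theorem tPpw; higher prime powers). Uses: Smz.
Proof. Lam n ≠ 0 and n not prime: n = p^k, k ≥ 2; rr D n = 1: p > D. Lam1 n = k (log p)^2, n^(-(1+s)) ≤ p^(-k), and Lam n ≤ 2 Lam1 n
(log n ≥ 1/2). The map (p, k) ↦ p^k is injective on primes × {k ≥ 2} (Nat.Primes.prodNatEquiv), so the sum is
≤ ∑_{p > D} (log p)^2 ∑_{k ≥ 2} k p^(-k) ≤ ∑_{m > D} 6 (log m)^2/m^2 (p ≥ 2: ∑_{k ≥ 2} k p^(-k) = p^(-1)(2p-1)/(p-1)^2 ≤ 6/p^2), and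
∑_{m > D} (log m)^2 m^(-2) ≤ C (log D)^2/D (e.g. (log m)^2 ≤ (log D)^2 (m/D)^(1/2) for m ≥ D ≥ e^4, ∑_{m>D} m^(-3/2) ≤ 2 D^(-1/2)). -/
def PpwStmt : Prop :=
  ∃ C D0 : ℝ, 0 < C ∧ 3 ≤ D0 ∧ ∀ (D : ℕ) (s : ℝ), D0 ≤ D → 0 < s →
    Summable (wt D s Lam) ∧ Summable (wt D s Lam1) ∧
    ∑' n : ℕ, (if n.Prime then 0 else wt D s Lam n) ≤ C * ((Real.log D) ^ 2 / D) ∧
    ∑' n : ℕ, (if n.Prime then 0 else wt D s Lam1 n) ≤ C * ((Real.log D) ^ 2 / D)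

/-- Module Ptb (theorem tPtb). Uses: Smz, Abt, Ppw.
Proof. The primes: every finite sum of the terms of cU q (wt D s Lam) a over primes n (n > D because rr D n = 1; the value is
log p p^(-(1+s))) is ≤ C/(φ s) by Abt (m = 1); the other terms by Ppw: C (log D)^2/D ≤ C'/φ ≤ C'/(φ s) because φ ≤ q ≤ D^(1/4). -/
def PtbStmt : Prop :=
  ∃ C D0 : ℝ, 0 < C ∧ 3 ≤ D0 ∧ ∀ (q : ℕ) [NeZero q] (D : ℕ) (a : (ZMod q)ˣ) (s : ℝ),
    D0 ≤ D → q ^ 4 ≤ D → 0 < s → s ≤ 1 →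
    0 ≤ cU q (wt D s Lam) a ∧ cU q (wt D s Lam) a ≤ C / ((q.totient : ℝ) * s)

/-! ### Selberg's formula -/

/-- Module Cnv (theorem tCnv; multiplicative convolution and classes). Uses: nothing.
Proof. |F|, |H| are summable, so the double sum of F(m) H(n) over (m, n) converges absolutely (Summable.mul_of_nonneg or
summable_mul_of_summable_norm). Group by the product m n = k: the pairs with m n = k ≥ 1 are k.divisorsAntidiagonal, those with m n = 0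
contribute 0 (see LSeries.term_convolution and LSeriesHasSum.convolution in Mathlib). For pairs with F(m) H(n) ≠ 0 both m, n are coprime to q, and
m n = a in ZMod q iff m = b and n = b⁻¹ a for the unit b of m. So cU of the convolution is ∑_b (∑_{m = b} F(m)) (∑_{n = b⁻¹ a} H(n)). -/
def CnvStmt : Prop :=
  ∀ (q : ℕ) [NeZero q] (F H : ℕ → ℝ), Summable F → Summable H → F 0 = 0 → H 0 = 0 →
    (∀ n : ℕ, ¬ n.Coprime q → F n = 0) → (∀ n : ℕ, ¬ n.Coprime q → H n = 0) →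
    Summable (fun n : ℕ => ∑ w ∈ n.divisorsAntidiagonal, F w.1 * H w.2) ∧
    ∀ a : (ZMod q)ˣ, cU q (fun n => ∑ w ∈ n.divisorsAntidiagonal, F w.1 * H w.2) a =
      ∑ b : (ZMod q)ˣ, cU q F b * cU q H (b⁻¹ * a)

/-- Module Sid (theorem tSid; Selberg's identity). Uses: nothing.
Proof. Arithmetic functions over ℝ: Λ * ζ = log (ArithmeticFunction.vonMangoldt_mul_zeta). f ↦ f log is a derivation of the Dirichlet
convolution, so log² = log (Λ * ζ) = (Λ log) * ζ + Λ * log = (Λ log) * ζ + Λ * Λ * ζ = Lam2 * ζ, and μ * ζ = 1 gives Lam2 = μ * log². Pointwise: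
(log n)^2 = ∑_{d | n} (Λ(d) log d + Λ(d) log(n/d)), and so on. -/
def SidStmt : Prop :=
  ∀ n : ℕ, 1 ≤ n → Lam2 n =
    ∑ w ∈ n.divisorsAntidiagonal, ((ArithmeticFunction.moebius w.1 : ℤ) : ℝ) * (Real.log w.2) ^ 2

/-- Module Gid (theorem tGid). Uses: Smz, Cnv.
Proof. F = H = wt D s Lam (F 0 = 0; if n is not coprime to q then some prime p | q divides n, p ≤ q ≤ D, so rr D n = 0; summable by Smz, Λ ≤ log:
ArithmeticFunction.vonMangoldt_le_log). rr D (m n) = rr D m rr D n for m, n ≥ 1 (Nat.Prime.dvd_mul) and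
(m n)^(-(1+s)) = m^(-(1+s)) n^(-(1+s)), so the convolution of F and H at n ≥ 1 is rr D n (∑ Λ Λ) n^(-(1+s)); add wt D s Lam1 (summable; tsum_add). -/
def GidStmt : Prop :=
  ∀ (q : ℕ) [NeZero q] (D : ℕ) (a : (ZMod q)ˣ) (s : ℝ), q ≤ D → 2 ≤ D → 0 < s →
    Summable (wt D s Lam2) ∧
    cU q (wt D s Lam2) a = cU q (wt D s Lam1) a +
      ∑ b : (ZMod q)ˣ, cU q (wt D s Lam) b * cU q (wt D s Lam) (b⁻¹ * a)

/-- Module Gdf (theorem tGdf). Uses: Smz, Dif, L0, Cnv, Sid.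
Proof. By Sid and multiplicativity of rr D and of the power wt D s Lam2 n is the convolution of F = wt D s μ and H = wt D s (log²) for n ≥ 1, and
log² = gm 2. Cnv: cU q (wt D s Lam2) a - cU .. a' = ∑_b cU q F b (cU q H (b⁻¹ a) - cU q H (b⁻¹ a')), and by Dif (m = 2) this is
≤ (∑_b |cU q F b|) C L²/φ ≤ (∑' wt D s one n) C L²/φ ≤ (C/(s L)) (C L²/φ) (|μ| ≤ 1; L0). -/
def GdfStmt : Prop :=
  ∃ C D0 : ℝ, 0 < C ∧ 3 ≤ D0 ∧ ∀ (q : ℕ) [NeZero q] (D : ℕ) (a a' : (ZMod q)ˣ) (s : ℝ),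
    D0 ≤ D → q ^ 4 ≤ D → 0 < s → s ≤ 1 / Real.log D →
    |cU q (wt D s Lam2) a - cU q (wt D s Lam2) a'| ≤ C * (Real.log D / ((q.totient : ℝ) * s))

/-- Module Dpq (theorem tDpq). Uses: Smz.
Proof. Term by term: the derivative of n^(-(1+s)) in s is -log n n^(-(1+s)) (n ≥ 1; the term n = 0 is constant 0 near s > 0). For t in the interval
(s/2, 2s) the derivatives of the terms are bounded by Λ(n) log n n^(-(1+s/2)) ≤ (1 + log n)^2 n^(-(1+s/2)), summable (Smz):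
hasDerivAt_tsum_of_isPreconnected (or hasDerivAt_tsum). -/
def DpqStmt : Prop :=
  ∀ (q : ℕ) [NeZero q] (D : ℕ) (a : (ZMod q)ˣ) (s : ℝ), 0 < s →
    HasDerivAt (fun t : ℝ => cU q (wt D t Lam) a) (-cU q (wt D s Lam1) a) s

/-- Module Or3 (theorem tOr3; triple convolution). Uses: nothing.
Proof. Ê(χ) = ∑_a χ(a) E(a), T(a) = the triple sum. For every χ: ∑_a χ(a) T(a) = Ê(χ)^3. Orthogonality
(DirichletCharacter.sum_char_inv_mul_char_eq, or ∑_χ χ(c) = φ [c = 1] for units c): φ T(a) = ∑_χ χ(a⁻¹) Ê(χ)^3 and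
∑_χ |Ê(χ)|^2 = φ ∑ E^2. Ê(1) = ∑ E = 0. So φ |T(a)| ≤ ∑_{χ ≠ 1} |Ê(χ)|^3 ≤ Z ∑_χ |Ê(χ)|^2 = Z φ ∑ E^2. -/
def Or3Stmt : Prop :=
  ∀ (q : ℕ) [NeZero q] (E : (ZMod q)ˣ → ℝ) (Z : ℝ), ∑ a, E a = 0 → 0 ≤ Z →
    (∀ χ : DirichletCharacter ℂ q, χ ≠ 1 →
      ‖∑ a : (ZMod q)ˣ, χ (a : ZMod q) * (E a : ℂ)‖ ≤ Z) →
    ∀ a : (ZMod q)ˣ, |∑ b : (ZMod q)ˣ, E b * ∑ c : (ZMod q)ˣ, E c * E (c⁻¹ * (b⁻¹ * a))| ≤
      Z * ∑ b : (ZMod q)ˣ, (E b) ^ 2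

/-- Module Ode (theorem tOde). Uses: Or3.
Proof. φ = number of units (ZMod.card_units_eq_totient). P̄, Q̄, Ḡ = means over a; E = P - P̄, δ = G - Ḡ, |δ| ≤ K ℓ/(φ s) (mean of differences).
F s a = ∑_b E b E(b⁻¹ a). ∑ E = 0 gives ∑_b P b P(b⁻¹ a) = F a + φ P̄², and the mean of F over a is 0; so Q a - Q̄ = δ a - F a (*).
E has the derivative -(Q a - Q̄) = F a - δ a, so F has the derivative 2 ∑_b E b (F(b⁻¹ a) - δ(b⁻¹ a)) (substitution b ↦ b⁻¹ a).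
∑ E² ≤ ∑ P² ≤ K²/(φ s²). For χ ≠ 1: ∑ χ E = ∑ χ P (∑ χ = 0), so by Or3 |∑_b E b F(b⁻¹ a)| ≤ K ℓ K²/(φ s²); |E| ≤ 2K/(φ s), so
|∑_b E b δ(b⁻¹ a)| ≤ 2K² ℓ/(φ s²). Hence |F'| ≤ B/s², B = (2K³ + 4K²) ℓ/φ, on (0, 1/ℓ]. With s1 = 1/ℓ: F(s) - B/s is nondecreasing
and F(s) + B/s is nonincreasing in s, so |F(s)| ≤ |F(s1)| + B/s, |F(s1)| ≤ ∑ E(s1)² ≤ K² ℓ²/φ ≤ K² ℓ/(φ s). By (*) the claim holds with
C = K + 5K² + 2K³. -/
def OdeStmt : Prop :=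
  ∀ K : ℝ, 0 < K → ∃ C : ℝ, 0 < C ∧ ∀ (q : ℕ) [NeZero q] (ℓ : ℝ) (P Q G : ℝ → (ZMod q)ˣ → ℝ), 1 ≤ ℓ →
    (∀ (s : ℝ) (a : (ZMod q)ˣ), 0 < s → HasDerivAt (fun t => P t a) (-Q s a) s) →
    (∀ (s : ℝ) (a : (ZMod q)ˣ), 0 < s → s ≤ 1 / ℓ → |P s a| ≤ K / ((q.totient : ℝ) * s)) →
    (∀ (s : ℝ) (a : (ZMod q)ˣ), 0 < s → s ≤ 1 / ℓ → G s a = Q s a + ∑ b, P s b * P s (b⁻¹ * a)) →
    (∀ (s : ℝ) (a a' : (ZMod q)ˣ), 0 < s → s ≤ 1 / ℓ →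
      |G s a - G s a'| ≤ K * ℓ / ((q.totient : ℝ) * s)) →
    (∀ (s : ℝ) (χ : DirichletCharacter ℂ q), 0 < s → s ≤ 1 / ℓ → χ ≠ 1 →
      ‖∑ a : (ZMod q)ˣ, χ (a : ZMod q) * (P s a : ℂ)‖ ≤ K * ℓ) →
    ∀ (s : ℝ) (a : (ZMod q)ˣ), 0 < s → s ≤ 1 / ℓ →
      |Q s a - (1 / (q.totient : ℝ)) * ∑ b, Q s b| ≤ C * ℓ / ((q.totient : ℝ) * s)

/-! ### Lower bound for primes in a class -/

/-- Mertens' second theorem. Module Mrt (theorem tMrt). Imports also Pool.Agent.Lib.MP_9f2731_nt.BT.Mert (which imports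
Pool.Agent.Lib.MP_aa9ae4_nt.Mertens). Uses: nothing.
Proof. A(n) = ∑_{p ≤ n} log p/p satisfies |A(n) - log n| ≤ c for n ≥ 1 (mertensA_le in MP_aa9ae4_nt/Mertens.lean, mert_A_ge in BT/Mert.lean).
Summation by parts with 1/log: for naturals X ≤ Y, X ≥ 2: ∑_{X<p≤Y} 1/p = A(Y)/log Y - A(X)/log X + ∑_{X ≤ n < Y} A(n) (1/log n - 1/log(n+1))
up to boundary terms; replacing A(n) by log n changes this by ≤ 3c/log X, and with log n in place of A(n) it is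
∑_{X ≤ n<Y} (log(n+1) - log n)/log(n+1) = loglog Y - loglog X + O(1/log X) (compare with the integral of 1/(t log t)). For real x, y pass
to the floors: log log x - log log ⌊x⌋ = O(1/log x) (x ≥ 2). See mert_upper, mert_lower in BT/Mert.lean for the case y = x^2. -/
def MrtStmt : Prop :=
  ∃ C : ℝ, 0 < C ∧ ∀ x y : ℝ, 2 ≤ x → x ≤ y →
    |∑ p ∈ (Ioc ⌊x⌋₊ ⌊y⌋₊).filter Nat.Prime, 1 / (p : ℝ) - Real.log (Real.log y / Real.log x)| ≤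
      C / Real.log x

/-- Module Qlo (theorem tQlo). Uses: Smz, Mrt.
Proof. The sum over the units of cU is the sum over the n coprime to q. Y = exp(1/s), x = exp(1/(2s)) ≥ D if c1 ≤ 1/2. A prime p in (x, Y] is
> D ≥ q, so it is rough and coprime to q, and Lam1 p p^(-(1+s)) = (log p)^2 p^(-1) p^(-s) ≥ (1/(4 s²)) e^(-1)/p. So the sum (all terms ≥ 0,
summable by Smz) is ≥ (1/(4 e s²)) ∑_{⌊x⌋ < p ≤ ⌊Y⌋} 1/p ≥ (1/(4 e s²)) (log 2 - C/log x) ≥ 1/(20 e s²) for D ≥ D0 (log x = 1/(2s) ≥ log D). -/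
def QloStmt : Prop :=
  ∃ c c1 D0 : ℝ, 0 < c ∧ 0 < c1 ∧ 3 ≤ D0 ∧ ∀ (q : ℕ) [NeZero q] (D : ℕ) (s : ℝ), D0 ≤ D → q ≤ D →
    0 < s → s ≤ c1 / Real.log D → c / s ^ 2 ≤ ∑ a : (ZMod q)ˣ, cU q (wt D s Lam1) a

/-- Module Pna (theorem tPna). Uses: Smz, Cxu, Zbd, Ptb, Gid, Gdf, Dpq, Ode, Qlo.
Proof. P, Q, G = cU of wt D s Lam, Lam1, Lam2, ℓ = log D, K = the maximum of the constants of Ptb, Gdf, Zbd (for κ). The character sum of P is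
cX χ (wt D s Lam) by Cxu (summable by Smz, Λ ≤ log). Ode: |Q a - (1/φ) ∑ Q| ≤ C log D/(φ s). With Qlo: Q a ≥ (1/(φ s²)) (c - C s log D) ≥ (c/2)/(φ s²) for
s ≤ c1/log D, c1 small. -/
def PnaStmt : Prop :=
  ∀ κ : ℝ, 0 < κ → ∃ c c1 D0 : ℝ, 0 < c ∧ 0 < c1 ∧ 3 ≤ D0 ∧
    ∀ (q : ℕ) [NeZero q] (D : ℕ) (a : (ZMod q)ˣ) (s : ℝ), D0 ≤ D → q ^ 4 ≤ D → Good κ q D →
    0 < s → s ≤ c1 / Real.log D → c / ((q.totient : ℝ) * s ^ 2) ≤ cU q (wt D s Lam1) a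

/-- THE THEOREM OF PART A. Module Pnf (theorem tPnf). Uses: Smz, Abt, Ppw, Pna.
Proof. Let a be the unit of the class. cU q (wt D s Lam1) a = (primes) + (non-primes); the non-primes contribute ≤ C (log D)²/D ≤ a quarter of
c/(φ s²) (s ≤ 1/log D, φ ≤ D^(1/4), D ≥ D0). The primes in the class with rr D p = 1 are the p > D (p ≤ D gives rr D p = 0), the value is
(log p)^2 p^(-(1+s)). The primes > X: every finite partial sum is ≤ (C/(φ s²)) e^(-K/2) by the second part of Abt; choose K with C e^(-K/2) ≤ c/4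
(and X ≥ D: exp(K/s) ≥ exp(log D) if K ≥ c1). So the sum over D < p ≤ X is ≥ (c/2)/(φ s²). -/
def PnfStmt : Prop :=
  ∀ κ : ℝ, 0 < κ → ∃ c c1 K D0 : ℝ, 0 < c ∧ 0 < c1 ∧ 0 < K ∧ 3 ≤ D0 ∧
    ∀ (q D a X : ℕ) (s : ℝ), 1 ≤ q → D0 ≤ D → q ^ 4 ≤ D → Good κ q D → a.Coprime q →
    0 < s → s ≤ c1 / Real.log D → Real.exp (K / s) ≤ X →
    c / ((q.totient : ℝ) * s ^ 2) ≤
      ∑ p ∈ (Ioc D X).filter (fun p => p.Prime ∧ p ≡ a [MOD q]),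
        (Real.log p) ^ 2 * (p : ℝ) ^ (-(1 + s))

/-! ### Good moduli -/

/-- Module Swl (theorem tSwl). Uses: Smz, Sw, Lch.
Proof. L(s) := cX χ (wt D s one). With Lch and LSeries_eulerProduct_exp_log: ‖L(s)‖ = exp(Re ∑_p -log(1 - Φχ(p) p^(-(1+s)))), where Φχ(p) = χ(p) for
p > D and 0 for p ≤ D (rr). |-log(1-w) - w| ≤ |w|² for |w| ≤ 1/2, so ‖L(s)‖ ≥ exp(-|∑_{p>D} χ(p) p^(-(1+s))| - ∑_{p>D} p^(-2)). The last sum is
≤ 1/D. First sum: T(n) = ∑_{p ≤ n} χ(p), |T(n)| ≤ C n/(log n)^2 for n ≥ D (Sw with A = 2, B = 2: (log n)^2 ≥ (log D)^2 ≥ r);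
summation by parts from D: |∑_{D<p≤N} χ(p) p^(-(1+s))| ≤ |T(N)| N^(-1) + |T(D)| D^(-1) + ∑_{n ≥ D} |T(n)| 2 n^(-2) ≤ C'/(log D)^2 + 2C ∑_{n ≥ D} 1/(n (log n)^2) ≤
C''/log D. For D ≥ D0 the exponent is ≥ -log 2. -/
def SwlStmt : Prop :=
  ∃ D0 : ℝ, 3 ≤ D0 ∧ ∀ (r : ℕ) [NeZero r] (D : ℕ) (χ : DirichletCharacter ℂ r) (s : ℝ), D0 ≤ D → 2 ≤ r →
    (r : ℝ) ≤ (Real.log D) ^ 2 → χ.IsPrimitive → 0 < s → s ≤ 1 → 1 / 2 ≤ ‖cX χ (wt D s one)‖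

/-- Module Gdw (theorem tGdw; good moduli exist). Uses: Exc, Swl.
Proof. q0 = WW z 1 = product of the primes ≤ z (squarefree, ≤ 4^z: primorial_le_4_pow), q0^4 ≤ 4^(4z) ≤ D, log D ≥ 4 z log 4 ≥ z. κ = min(κ_Exc, 1/2).
If Good κ q0 D take e = 1. Otherwise there is χ* ≠ 1 mod q0, χ*² = 1, with a value < κ somewhere. Let r = conductor of χ*; r | q0, r > 1. Some prime
e | r satisfies e > p0: otherwise r | ∏_{p ≤ p0} p ≤ 4^(p0) ≤ 4^(log z) ≤ z^(3/2) ≤ (log D)^2 (p0 ≤ log z), and for the primitive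
character χ1 mod r of χ*: cX χ* (wt D s one) = cX χ1 (wt D s one) (χ*(n) = χ1(n) for n coprime to q0, and rr D n = 0 if n is not coprime to q0 as all primes of
q0 are ≤ z ≤ D), contradiction to Swl. Take such an e; e | q0 so e ≤ z, q0 = e WW z e. Let χ be a real character ≠ 1 mod WW z e and χ' its
changeLevel to q0. For rough n both agree, so cX χ (wt D s one) = cX χ' (wt D s one), χ' ≠ 1, χ'² = 1. If χ' has a value < κ somewhere then χ' = χ* by Exc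
(D ≥ q0^4), so χ* factors through WW z e, its conductor r divides WW z e, but e | r and e does not divide WW z e (squarefree): contradiction. -/
def GdwStmt : Prop :=
  ∃ κ z0 : ℝ, 0 < κ ∧ 3 ≤ z0 ∧ ∀ z D p0 : ℕ, z0 ≤ z → 4 ^ (4 * z) ≤ D → (p0 : ℝ) ≤ Real.log z →
    ∃ e : ℕ, (e = 1 ∨ (e.Prime ∧ p0 < e ∧ e ≤ z)) ∧ Good κ (WW z e) D

end Pool.Agent.Lib.SG
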