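import Pool.Agent.Lib.SG.SpecB

/-!
MP_9a4459_nt, module Gad: weights of the admissible sets.
-/

namespace Pool.Agent.Lib.SG

open Finset Pool.Agent.Lib.BV

private lemma Gad_one (S : Finset ℕ) (m : ℕ) (K : ℝ) (hK : 0 ≤ K) :
    ∑ B ∈ S.powerset, (if B.card ≤ m then K ^ B.card else 0) ≤ (1 + K * (S.card : ℝ)) ^ m := by
  have h1 := Finset.sum_powerset_apply_card (fun j : ℕ => if j ≤ m then K ^ j else (0 : ℝ)) (x := S)
  rw [h1]
  have h2 : ∑ j ∈ range (S.card + 1), S.card.choose j • (if j ≤ m then K ^ j else (0 : ℝ)) ≤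
      ∑ j ∈ range (m + 1), ((S.card.choose j : ℕ) : ℝ) * K ^ j := by
    have h3 : ∀ j ∈ range (S.card + 1), S.card.choose j • (if j ≤ m then K ^ j else (0 : ℝ)) =
        if j ≤ m then ((S.card.choose j : ℕ) : ℝ) * K ^ j else 0 := by
      intro j _
      rw [nsmul_eq_mul]
      split_ifs
      · rfl
      · rw [mul_zero]
    rw [Finset.sum_congr rfl h3, ← Finset.sum_filter]
    apply Finset.sum_le_sum_of_subset_of_nonneg
    · intro j hj
      rw [Finset.mem_filter] at hj
      rw [Finset.mem_range]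
      omega
    · intro j _ _
      positivity
  refine h2.trans ?_
  rw [add_comm 1 (K * (S.card : ℝ)), add_pow]
  refine Finset.sum_le_sum fun j hj => ?_
  rw [one_pow, mul_one, mul_pow]
  have h4 : ((S.card.choose j : ℕ) : ℝ) ≤ (S.card : ℝ) ^ j := by
    exact_mod_cast Nat.choose_le_pow S.card j
  have h5 : (1 : ℝ) ≤ ((m.choose j : ℕ) : ℝ) := by
    rw [Finset.mem_range] at hj
    exact_mod_cast Nat.choose_pos (by omega)
  calc ((S.card.choose j : ℕ) : ℝ) * K ^ j ≤ (S.card : ℝ) ^ j * K ^ j := by gcongr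
    _ = K ^ j * (S.card : ℝ) ^ j * 1 := by ring
    _ ≤ K ^ j * (S.card : ℝ) ^ j * ((m.choose j : ℕ) : ℝ) := by gcongr

theorem tGad : GadStmt := by
  classical
  intro PP r t u K hK hr
  have h1 := Pool.Agent.MP0a1886.sum_powerset_fiber r
    (fun i B => if B.card ≤ 2 * u i + 1 then K ^ B.card else (0 : ℝ)) t PP hr
  have h2 : ∀ B ∈ PP.powerset, (if Pool.Agent.MP0a1886.Adm r t u B then K ^ B.card else 0) =
      ∏ i ∈ range t, (if (B.filter fun P => r P = i).card ≤ 2 * u i + 1 then
        K ^ (B.filter fun P => r P = i).card else (0 : ℝ)) := by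
    intro B hB
    rw [Finset.mem_powerset] at hB
    by_cases h : Pool.Agent.MP0a1886.Adm r t u B
    · rw [if_pos h]
      have h3 : ∀ i ∈ range t, (if (B.filter fun P => r P = i).card ≤ 2 * u i + 1 then
          K ^ (B.filter fun P => r P = i).card else (0 : ℝ)) =
          K ^ (B.filter fun P => r P = i).card := by
        intro i hi
        rw [if_pos (h i (Finset.mem_range.1 hi))]
      rw [Finset.prod_congr rfl h3, Finset.prod_pow_eq_pow_sum]
      congr 1
      exact Finset.card_eq_sum_card_fiberwise (fun P hP => Finset.mem_coe.2 (Finset.mem_range.2 (hr P (hB hP))))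
    · rw [if_neg h]
      unfold Pool.Agent.MP0a1886.Adm at h
      push Not at h
      obtain ⟨i, hi, hi2⟩ := h
      symm
      apply Finset.prod_eq_zero (Finset.mem_range.2 hi)
      rw [if_neg (by omega)]
  rw [Finset.sum_congr rfl h2, h1]
  apply Finset.prod_le_prod
  · intro i _
    apply Finset.sum_nonneg
    intro B _
    split_ifs
    · positivity
    · exact le_rfl
  · intro i _
    exact Gad_one _ _ K hK

end Pool.Agent.Lib.SG
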