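import Pool.Agent.Lib.SG.SpecA
import Pool.Agent.MP0a1886.Sieve

/-!
MP_9a4459_nt, directory Lib/SG (architect helper96), part B: sieve bounds. The rules are those of SpecA.lean
(module Xyz: file Pool/Agent/Lib/SG/Xyz.lean, first line `import Pool.Agent.Lib.SG.SpecB`).

The sieve is the Brun-Hooley sieve of Pool/Agent/MP0a1886/Sieve.lean (namespace Pool.Agent.MP0a1886: Adm, hit, altSum,
sieveVal, eta, sieve_upper, sieve_lower, prod_altSum_le, sieveVal_ge, sum_powerset_fiber, ...; do not open this namespace, it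
contains short names). Everywhere the blocks are r = rb y and u i = i + 3.
-/

namespace Pool.Agent.Lib.SG

open Finset Pool.Agent.Lib.BV

/-! ### Mertens products -/

/-- Module Vbd (theorem tVbd). Uses: Mrt.
Proof. Mrt with x = p0, y = p1: the sum S of 1/p over p0 < p ≤ p1, p prime, differs from log (log p1/log p0) by at most C/log 2.
1 - t ≤ exp (-t), so VV ≤ exp (-S). 1 - t ≥ exp (-t - t^2) for 0 ≤ t ≤ 1/2, and the sum of 1/p^2 over p ≥ 2 is ≤ 1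
(1/n^2 ≤ 1/(n-1) - 1/n), so VV ≥ exp (-S - 1). -/
def VbdStmt : Prop :=
  ∃ c C : ℝ, 0 < c ∧ 0 < C ∧ ∀ p0 p1 : ℕ, 2 ≤ p0 → p0 ≤ p1 →
    c * (Real.log p0 / Real.log p1) ≤ VV p0 p1 ∧ VV p0 p1 ≤ C * (Real.log p0 / Real.log p1)

/-- Module Phw (theorem tPhw). Uses: Mpr (MprStmt of Lib/BV).
Proof. W = WW z e is squarefree, φ(W) = ∏ (p - 1) = W ∏ (1 - 1/p) over the primes p ≤ z, p ≠ e (Nat.totient_mul of coprime factors, induction;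
or Nat.totient_eq_mul_prod_factors with primeFactors of a product of distinct primes). If e is a prime ≤ z the product over all primes p ≤ z has
the additional factor 1 - 1/e ≥ 1/2, otherwise it is the same product. Mpr with d = 1: the product over all p ≤ z is ≤ 1/log z. -/
def PhwStmt : Prop :=
  ∀ z e : ℕ, 2 ≤ z → ((WW z e).totient : ℝ) ≤ 2 * ((WW z e : ℝ) / Real.log z)

/-! ### The general upper bound sieve -/

/-- Module Gcr (theorem tGcr; counting by the Chinese remainder theorem). Uses: nothing.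
Proof. M = ∏_{p ∈ B} p. The condition depends only on n mod M. The number of the residues c < M with c % p ∈ R p for all p ∈ B is
∏ |R p|: induction on B (B = insert p B', the map c ↦ (c % p, c % M') is a bijection range (p M') → range p × range M':
Nat.chineseRemainder, Nat.modEq_and_modEq_iff_modEq_mul; p and M' are coprime). For each c the number of n ∈ Ioc N N2 with
n ≡ c mod M is (N2 - N)/M up to an error of absolute value ≤ 1 (Nat.Ioc_filter_modEq_card: difference of two floors). Sum over the c. -/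
def GcrStmt : Prop :=
  ∀ (B : Finset ℕ) (R : ℕ → Finset ℕ) (N N2 : ℕ), N ≤ N2 → (∀ p ∈ B, p.Prime ∧ R p ⊆ range p) →
    |(((Ioc N N2).filter (fun n => ∀ p ∈ B, n % p ∈ R p)).card : ℝ) -
      ((N2 : ℝ) - N) * ∏ p ∈ B, ((R p).card : ℝ) / p| ≤ ∏ p ∈ B, ((R p).card : ℝ)

open Classical in
/-- Module Gad (theorem tGad; the admissible sets). Uses: nothing.
Proof. MP0a1886.sum_powerset_fiber with g i B = K^|B| if |B| ≤ 2 u i + 1, otherwise 0: the left side is ∏_i of the sum over the B ⊆ PP_i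
with |B| ≤ 2 u i + 1 of K^|B| (K^|B| is the product of the K^|B_i|; Adm says |B_i| ≤ 2 u i + 1 for i < t). For a set S with n elements and m ≥ 0 the
sum over B ⊆ S, |B| ≤ m, of K^|B| is ∑_{k ≤ m} choose n k K^k ≤ ∑_{k ≤ m} choose m k (n K)^k = (1 + n K)^m, as choose n k ≤ n^k (Nat.choose_le_pow) and
choose m k ≥ 1 for k ≤ m. -/
def GadStmt : Prop :=
  ∀ (PP : Finset ℕ) (r : ℕ → ℕ) (t : ℕ) (u : ℕ → ℕ) (K : ℝ), 0 ≤ K → (∀ P ∈ PP, r P < t) →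
    ∑ B ∈ PP.powerset, (if Pool.Agent.MP0a1886.Adm r t u B then K ^ B.card else 0) ≤
      ∏ i ∈ range t, (1 + K * ((PP.filter (fun P => r P = i)).card : ℝ)) ^ (2 * u i + 1)

/-- the number of the block of p: i with y^(exp (-(i+1)/8)) < p ≤ y^(exp (-i/8)) -/
noncomputable def rb (y p : ℕ) : ℕ := ⌊8 * Real.log (Real.log y / Real.log p)⌋₊

/-- Module Gbl (theorem tGbl; the blocks). Uses: Mrt.
Proof. θ = exp (-1/8), x_i = y^(θ^i) (real). For ps < p ≤ y: v = 8 log (log y/log p) ≥ 0, and rb y p = i means i ≤ v < i + 1, i.e.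
x_{i+1} < p ≤ x_i. t = ⌊8 log (log y/log ps)⌋ + 1: v ≤ 8 log (log y/log ps), so rb y p < t; log ps ≥ 1 gives t ≤ 8 log log y + 1.
(2) The primes of the block lie in (x, x_i], x = max (x_{i+1}, ps). If x < x_i then by Mrt the sum of 1/p is ≤ log (log x_i/log x) + C/log x ≤ 1/8 + C/log ps
≤ 1/4 if log ps ≥ 8 C; otherwise there is no such p.
(3) If the block i is empty the factor is 1. Otherwise ps < x_i and the block has at most x_i elements, 1 + 4 x_i ≤ x_i^2 (x_i ≥ 16), so the factor is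
≤ x_i^(2 (2i+7)) = exp (2 (2i+7) θ^i log y). ∑_i 2 (2i+7) θ^i converges (summable_pow_mul_geometric_of_norm_lt_one, or 2i + 7 ≤ 400 exp (i/16)); E ≥ its
sum.
(4) B_i = the elements of B in block i: all are ≤ x_i and |B_i| ≤ 2 (i+3) + 1 = 2i + 7, x_i ≥ 1, so ∏_{p ∈ B} p ≤ ∏_{i<t} x_i^(2i+7) ≤ y^E. -/
def GblStmt : Prop :=
  ∃ ps E : ℕ, 16 ≤ ps ∧ 1 ≤ E ∧ ∀ y : ℕ, ps < y → ∃ t : ℕ,
    (t : ℝ) ≤ 8 * Real.log (Real.log y) + 1 ∧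
    (∀ p : ℕ, ps < p → p ≤ y → rb y p < t) ∧
    (∀ i : ℕ, ∑ p ∈ (Ioc ps y).filter (fun p => p.Prime ∧ rb y p = i), 4 / (p : ℝ) ≤ 1) ∧
    (∏ i ∈ range t, (1 + 4 * (((Ioc ps y).filter (fun p => rb y p = i)).card : ℝ)) ^ (2 * (i + 3) + 1) ≤
      (y : ℝ) ^ E) ∧
    ∀ B : Finset ℕ, (∀ p ∈ B, ps < p ∧ p ≤ y) → Pool.Agent.MP0a1886.Adm (rb y) t (fun i => i + 3) B →
      ∏ p ∈ B, (p : ℝ) ≤ (y : ℝ) ^ E

/-- Module Gsv (theorem tGsv; the upper bound sieve). Uses: Gcr, Gad, Gbl.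
Proof. N = N2 or y ≤ ps (T empty): trivial (C ≥ 1). Let X = N2 - N > 0, Ω = the elements of Ioc N N2 (a Fintype), W = 1/X constant,
A n = the p ∈ T with n % p ∈ R p, x p = |R p|/p ≤ 4/17 ≤ 1/2, PP = T, r = rb y, t from Gbl, u i = i + 3. MP0a1886.sieve_upper:
(1/X) (number) ≤ ∏_{i<t} altSum + E1, and by prod_altSum_le (the sum of x p over a block is ≤ 1 by Gbl (2)) the product is ≤ ∏_T (1 - x p) exp (∑ eta), and
∑_i eta u i = ∑_i 8/(2i+7)! ≤ 1. hit W A B for B ⊆ T is (1/X) times the number of the n ∈ Ioc N N2 with n % p ∈ R p for all p ∈ B, so by Gcr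
|hit W A B - ∏_B x p| ≤ 4^|B|/X. So E1 ≤ (1/X) ∑_{B adm} 4^|B| ≤ (1/X) y^E by Gad (K = 4) and Gbl (3) (the blocks of T are subsets of those of Ioc ps y).
Multiply by X. -/
def GsvStmt : Prop :=
  ∃ (C : ℝ) (ps E : ℕ), 1 ≤ C ∧ 16 ≤ ps ∧ 1 ≤ E ∧ ∀ (y : ℕ) (T : Finset ℕ) (R : ℕ → Finset ℕ) (N N2 : ℕ),
    N ≤ N2 → (∀ p ∈ T, p.Prime ∧ ps < p ∧ p ≤ y ∧ R p ⊆ range p ∧ (R p).card ≤ 4) →
    (((Ioc N N2).filter (fun n => ∀ p ∈ T, n % p ∉ R p)).card : ℝ) ≤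
      C * (((N2 : ℝ) - N) * ∏ p ∈ T, (1 - ((R p).card : ℝ) / p)) + (y : ℝ) ^ E

/-! ### Primes in the classes mod W, upper bounds -/

/-- Module Ppa (theorem tPpa). Uses: Vbd, Gsv.
Proof. ps, E, C1 from Gsv, y = ⌊N^(1/(4E+4))⌋, so y^E ≤ N^(1/4). From 4^z ≤ N: z ≤ log N, hence y ≥ z^2 and log y ≥ log N/(8E+8) for z ≥ z0 ≥ ps.
b0 = b % W. n ≡ b mod W: n = W m + b0 with m = n/W; N < n ≤ 2N gives N/W - 1 < m ≤ 2N/W (natural divisions, N/W ≥ 1), so m runs through a subset of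
Ioc (N/W - 1) (2N/W), an interval of length ≤ N/W + 2 ≤ 3 N/W. T = the primes in (z, y]; no p ∈ T divides W.
First part: R p = the c < p with p | W c + b0 + j: exactly one element. If n + j is prime: n + j > N ≥ y ≥ p, so p does not divide n + j and m % p ∉ R p. Gsv: the number is
≤ 3 C1 (N/W) ∏_T (1 - 1/p) + N^(1/4), and ∏_T (1 - 1/p) = VV z y ≤ C log z/log y (Vbd). N^(1/4) ≤ (N/W) N^(-1/2) ≤ (N/W)(log z/log N)^2 for N ≥ 4^z0.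
Second part: R p = the c < p with p | W c + b0 + j or p | W c + b0 + j + g: two elements if p does not divide g, otherwise one. At most one prime p > z divides g (1 ≤ g < z^2). With
1 - 2/p ≤ (1 - 1/p)^2 and 1 - 1/p ≤ 2 (1 - 1/p)^2: ∏_T (1 - |R p|/p) ≤ 2 (VV z y)^2. -/
def PpaStmt : Prop :=
  ∃ C z0 : ℝ, 0 < C ∧ 3 ≤ z0 ∧ ∀ z W b N : ℕ, z0 ≤ z → 1 ≤ W →
    (∀ p : ℕ, p.Prime → p ∣ W → p ≤ z) → W ^ 4 ≤ N → 4 ^ z ≤ N →
    (∀ j : ℕ, (((Ioc N (2 * N)).filter (fun n => n ≡ b [MOD W] ∧ (n + j).Prime)).card : ℝ) ≤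
      C * ((N : ℝ) / W * (Real.log z / Real.log N))) ∧
    ∀ j g : ℕ, 1 ≤ g → g < z ^ 2 →
      (((Ioc N (2 * N)).filter
        (fun n => n ≡ b [MOD W] ∧ (n + j).Prime ∧ (n + (j + g)).Prime)).card : ℝ) ≤
        C * ((N : ℝ) / W * (Real.log z / Real.log N) ^ 2)

/-- Module Dya (theorem tDya; dyadic summation). Uses: nothing.
Proof. Ioc N0 X is contained in the union of the Ioc N (2N), N = 2^i N0, i < I (I = X). On such a block (log n)^2 ≤ (log (2N))^2 ≤ 4 (log N)^2 and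
n^(-(1+s)) ≤ N^(-1) N^(-s), so it contributes ≤ 4 Q (log N)^(2-m) N^(-s). With a = 2 - m: t^a ≤ a! exp t (t = s log N/2) gives
(log N)^a N^(-s) ≤ 2 (2/s)^a N^(-s/2), and N^(-s/2) ≤ 2^(-i s/2). The sum over i of 2^(-i s/2) is ≤ 1/(1 - 2^(-s/2)) ≤ 4/s
(2^(-s/2) = exp (-x), x = s log 2/2 ≤ 1/2, 1 - exp (-x) ≥ x - x^2/2 ≥ 3x/4 ≥ s/4). So C = 128 suffices. -/
def DyaStmt : Prop :=
  ∃ C : ℝ, 0 < C ∧ ∀ (m N0 : ℕ) (P : ℕ → Prop) [DecidablePred P] (Q s : ℝ), m ≤ 2 → 3 ≤ N0 → 0 ≤ Q →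
    0 < s → s ≤ 1 →
    (∀ N : ℕ, N0 ≤ N → (((Ioc N (2 * N)).filter P).card : ℝ) ≤ Q * (N / (Real.log N) ^ m)) →
    ∀ X : ℕ, ∑ n ∈ (Ioc N0 X).filter P, (Real.log n) ^ 2 * (n : ℝ) ^ (-(1 + s)) ≤
      C * (Q * s⁻¹ ^ (3 - m))

/-- Module Wtu (theorem tWtu; weighted upper bounds). Uses: Ppa, Dya.
Proof. For N ≥ N0: the number of n ∈ Ioc N (2N), n ≡ b mod W, is ≤ N/W + 1 ≤ 2 N/W. Dya with m = 0, Q = 2/W; Ppa and Dya with m = 1, Q = C log z/W, and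
with m = 2, Q = C (log z)^2/W. -/
def WtuStmt : Prop :=
  ∃ C z0 : ℝ, 0 < C ∧ 3 ≤ z0 ∧ ∀ (z W b N0 X : ℕ) (s : ℝ), z0 ≤ z → 1 ≤ W →
    (∀ p : ℕ, p.Prime → p ∣ W → p ≤ z) → W ^ 4 ≤ N0 → 4 ^ z ≤ N0 → 0 < s → s ≤ 1 →
    (∑ n ∈ (Ioc N0 X).filter (fun n => n ≡ b [MOD W]), (Real.log n) ^ 2 * (n : ℝ) ^ (-(1 + s)) ≤
      C / (W * s ^ 3)) ∧
    (∀ j : ℕ, ∑ n ∈ (Ioc N0 X).filter (fun n => n ≡ b [MOD W] ∧ (n + j).Prime),
      (Real.log n) ^ 2 * (n : ℝ) ^ (-(1 + s)) ≤ C * Real.log z / (W * s ^ 2)) ∧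
    ∀ j g : ℕ, 1 ≤ g → g < z ^ 2 →
      ∑ n ∈ (Ioc N0 X).filter (fun n => n ≡ b [MOD W] ∧ (n + j).Prime ∧ (n + (j + g)).Prime),
        (Real.log n) ^ 2 * (n : ℝ) ^ (-(1 + s)) ≤ C * (Real.log z) ^ 2 / (W * s)

/-! ### Primes with conditions modulo the primes of smp -/

/-- the singular series -/
noncomputable def Sg (g : ℕ) : ℝ := ∏ p ∈ (g * (g - 2) * (g + 2)).primeFactors, (1 + 1 / (p : ℝ)) ^ 4

/-- Module Apr (theorem tApr; pairs of primes at distance g). Uses: Vbd, Gsv.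
Proof. ps', E, C1 from Gsv, y = ⌊L^(1/(4E+4))⌋, δ = 1/(8E+8), so p1 ≤ y, y^E ≤ L^(1/4) and log y ≥ log L/(8E+8) (L ≥ L0). ps ≥ ps'. The j ≤ y number at most
L^(1/4). Let j > y be counted. T = the primes in (ps', y] (it contains smp p0 p1 e), and for p ∈ T let R p = the c < p with p | c or p | c + g or
(p ∈ smp p0 p1 e and (c ≡ 2 or c + g ≡ 2 mod p)). |R p| ≤ 4, and j % p ∉ R p because j, j + g are primes > y ≥ p and p divides neither j - 2 nor j + g - 2 if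
p ∈ smp (j ≥ 2). Gsv on Ioc 0 L: the number is ≤ C1 L ∏_T (1 - |R p|/p) + y^E.
Let ν = 4 if p ∈ smp and ν = 2 otherwise, G = g (g-2) (g+2), x = 1/p ≤ 1/17. If p does not divide G then |R p| = ν (0, -g, 2, 2-g are distinct mod p) and
1 - ν x ≤ (1-x)^ν (Bernoulli, one_add_mul_le_pow). If p | G, ν = 2: |R p| ≥ 1 and 1 - x ≤ (1-x)^2 (1+x)^4, as (1-x)(1+x)^4 ≥ (1-x)(1+4x) ≥ 1. If p | G, ν = 4:
|R p| ≥ 2 (0 and 2) and 1 - 2x ≤ 1 - 4x^2 ≤ (1-x^2)^4 = (1-x)^4 (1+x)^4. So ∏_T (1 - |R p|/p) ≤ ∏_T (1-x)^2 ∏_{smp} (1-x)^2 Sg g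
(all factors of Sg are ≥ 1), ∏_T (1-x) = VV ps' y ≤ C/log L (Vbd), ∏_{smp} (1-x) ≤ 2 VV p0 p1 (e removes at most the factor 1 - 1/e ≥ 1/2).
The remaining terms 2 L^(1/4) are ≤ L (VV p0 p1/log L)^2 Sg g, as VV p0 p1 ≥ c log p0/log p1 ≥ c/log L (Vbd), Sg g ≥ 1, L ≥ L0. -/
def AprStmt : Prop :=
  ∃ C δ ps L0 : ℝ, 0 < C ∧ 0 < δ ∧ 3 ≤ ps ∧ ∀ L p0 p1 e g : ℕ, L0 ≤ L → ps ≤ p0 → p0 ≤ p1 →
    (p1 : ℝ) ≤ (L : ℝ) ^ δ → 3 ≤ g → g ≤ L →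
    (((Icc 1 L).filter (fun j => j.Prime ∧ (j + g).Prime ∧
      ∀ p ∈ smp p0 p1 e, ¬ p ∣ j - 2 ∧ ¬ p ∣ j + g - 2)).card : ℝ) ≤
      C * (L * (VV p0 p1 / Real.log L) ^ 2 * Sg g)

/-- Module Sgf (theorem tSgf). Uses: nothing.
Proof. f(p) = (1 + 1/p)^K - 1 ≤ K 2^K/p ((1+x)^K - 1 ≤ K x (1+x)^(K-1), x ≤ 1). ∏_{p | n} (1 + f p) = ∑ over the subsets S of n.primeFactors of
∏_{p ∈ S} f p (Finset.prod_one_add). Exchange: the sum over the subsets S of the primes ≤ N of ∏_S f p times the number of the n ∈ Icc 1 N divisible by all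
p ∈ S, i.e. by ∏ S, which is ≤ N/∏ S. So the total is ≤ N ∏_{p ≤ N} (1 + f p/p) ≤ N exp (∑_{p ≤ N} K 2^K/p^2) ≤ N exp (2 K 2^K). -/
def SgfStmt : Prop :=
  ∀ K : ℕ, ∃ C : ℝ, 0 < C ∧ ∀ N : ℕ,
    ∑ n ∈ Icc 1 N, ∏ p ∈ n.primeFactors, (1 + 1 / (p : ℝ)) ^ K ≤ C * N

/-- Module Sgm (theorem tSgm). Uses: Sgf.
Proof. g ≥ 3, so g - 2 ≥ 1 and the prime factors of g (g-2) (g+2) are the union of those of the three factors. With t(n) = ∏_{p | n} (1 + 1/p)^8 ≥ 1: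
(Sg g)^2 ≤ t(g) t(g-2) t(g+2) ≤ t(g)^3 + t(g-2)^3 + t(g+2)^3, and t(n)^3 is the function of Sgf with K = 24. The arguments are in Icc 1 (L+2) and each is taken
once; L + 2 ≤ 3 L (if L = 0 the sum is empty). -/
def SgmStmt : Prop :=
  ∃ C : ℝ, 0 < C ∧ ∀ L : ℕ, ∑ g ∈ Icc 3 L, (Sg g) ^ 2 ≤ C * L

/-- Module Zon (theorem tZon; upper bound for single primes). Uses: Vbd, Gsv.
Proof. As Apr: y = ⌊L^(1/(4E+4))⌋, δ = 1/(8E+8); at most y ≤ L^(1/4) of the j are ≤ y. For j > y: T = the primes in (ps', y], R p = the c < p with p | c or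
(p ∈ smp and c ≡ 2 mod p): |R p| = 2 if p ∈ smp, otherwise 1; 1 - 2x ≤ (1-x)^2. Gsv: the number is ≤ C1 (N2 - N) VV ps' y 2 VV p0 p1 + y^E, VV ps' y ≤ C/log L.
2 L^(1/4) ≤ L^(1/2). -/
def ZonStmt : Prop :=
  ∃ C δ ps L0 : ℝ, 0 < C ∧ 0 < δ ∧ 3 ≤ ps ∧ ∀ L N N2 p0 p1 e : ℕ, L0 ≤ L → ps ≤ p0 → p0 ≤ p1 →
    (p1 : ℝ) ≤ (L : ℝ) ^ δ → N ≤ N2 →
    (((Ioc N N2).filter (fun j => j.Prime ∧ ∀ p ∈ smp p0 p1 e, ¬ p ∣ j - 2)).card : ℝ) ≤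
      C * (((N2 : ℝ) - N) * (VV p0 p1 / Real.log L)) + (L : ℝ) ^ ((1 : ℝ) / 2)

/-- Module Win (theorem tWin; lower bound for single primes, the fundamental lemma with the Bombieri-Vinogradov theorem as level of
distribution). Uses: Vbd, Gad, Gbl, Fin (FinStmt of Lib/BV).
Proof. ps, E from Gbl (take the ps of the statement ≥ it and ≥ 3), δ1 = 1/(3E+3). X = li N2 - li N ≥ (N2 - N)/log L ≥ δ L/log L (li is the integral of 1/log).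
Ω = the primes j ∈ Ioc N N2 (a Fintype; j ≥ 3), W = 1/X, PP = smp p0 p1 e, A j = the p ∈ PP with p | j - 2, x p = 1/(p-1) ≤ 1/2, blocks r = rb p1 (Gbl with
y = p1; if PP is empty p1 may be p0, use p1 ≥ ps + 1), u i = i + 3, t ≤ 8 loglog p1 + 1. MP0a1886.sieve_lower with Q = ∅ and sieveVal_ge (block sums of 1/(p-1) ≤ 4/p
are ≤ 1; ∑ eta = ∑ 8/(2i+7)! ≤ 1/100): (1/X) (number) ≥ (1/2) ∏_{PP} (1 - x p) - (t+1) E1. ∏_{PP} (1 - 1/(p-1)) ≥ (1/2) VV p0 p1, because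
1 - 1/(p-1) = (1 - 1/p)(1 - 1/(p-1)^2) and ∏_{n=3}^{M} (1 - 1/(n-1)^2) = M/(2(M-1)) ≥ 1/2.
E1 = the sum over the admissible B ⊆ PP of |hit - ∏_B x p|. q = ∏ B (odd, squarefree, q ≤ p1^E ≤ L^(1/3) by Gbl (4)), ∏_B x p = 1/φ(q), and hit =
(1/X)(primeCount N2 q 2 - primeCount N q 2) (j ≡ 2 mod q iff q | j - 2 iff all p ∈ B divide j - 2; for B = ∅, q = 1, the class of 1 is that of 2). So
|hit - ∏ x p| = (1/X) |err N2 q 2 - err N q 2| ≤ (1/X)(maxErr N2 q + maxErr N q) (EH.le_maxErr in Lib/EH/Basic.lean; q ≥ 3 or q = 1 with l = 1, err does not depend on the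
representative). B ↦ q is injective, so E1 ≤ (1/X) ∑_{d ≤ D} (maxErr N2 d + maxErr N d), D = ⌊L^(1/3)⌋, and Fin (x = L, A = 5, y constant = N2 and = N; 2 ≤ N) bounds this by
(1/X) 2C (L/(log L)^5 + L^(1/2) L^(1/3) (log L)^2) ≤ (1/X) C' L/(log L)^5 (Kf ≤ 16 + L). So (t+1) E1 ≤ C''/(δ (log L)^3) for L ≥ L0 (t + 1 ≤ log L), and this is
≤ VV p0 p1/8, because VV p0 p1 ≥ c/log L (Vbd). Total: number ≥ X VV/8 ≥ (N2 - N) VV/(8 log L). -/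
def WinStmt : Prop :=
  ∃ c δ1 ps : ℝ, 0 < c ∧ 0 < δ1 ∧ 3 ≤ ps ∧ ∀ δ : ℝ, 0 < δ → ∃ L0 : ℝ, 16 ≤ L0 ∧
    ∀ L N N2 p0 p1 e : ℕ, L0 ≤ L → ps ≤ p0 → p0 ≤ p1 → (p1 : ℝ) ≤ (L : ℝ) ^ δ1 → 2 ≤ N → N2 ≤ L →
    δ * L ≤ (N2 : ℝ) - N →
    c * (((N2 : ℝ) - N) * (VV p0 p1 / Real.log L)) ≤
      (((Ioc N N2).filter (fun j => j.Prime ∧ ∀ p ∈ smp p0 p1 e, ¬ p ∣ j - 2)).card : ℝ)

open Classical in
/-- Module Rnk (theorem tRnk; Rankin). Uses: Mrt.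
Proof. L large, l = log L, η = 8 log l/l ≤ 1/4, σ = 1 - η, F = the primes ≤ p1 and e. Every j counted is in Nat.factoredNumbers F (j ≥ 1), and
1 ≤ (L/j)^σ. With EulerProduct.summable_and_hasSum_factoredNumbers_prod_filter_prime_geometric (or the prod over primes of s; f n = n^(-σ) as a monoid
with zero hom): number ≤ L^σ ∑ j^(-σ) = L^σ ∏_{p ∈ F prime} (1 - p^(-σ))⁻¹. L^σ = L exp (-η l) = L l^(-8). The factor of e (if e is prime) is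
≤ 1/(1 - 2^(-3/4)) ≤ 3. For x = p^(-σ) ≤ 2^(-3/4) ≤ 3/5: -log (1-x) ≤ x + 2x^2 (or 1/(1-x) ≤ exp (x + 2x^2)), and the sum of 2 p^(-2σ) ≤ 2 p^(-3/2) is ≤ 6. Main sum:
p^(-σ) = (1/p) p^η ≤ 1/p + η log p p^(η-1) (exp t ≤ 1 + t exp t). ∑_{p ≤ p1} 1/p ≤ log l + C (Mrt with x = 2). Let Y = p1, θ(n) = ∑_{p ≤ n} log p ≤
n log 4 (Chebyshev.theta_le_log4_mul_x): summation by parts, ∑_{p ≤ Y} log p p^(η-1) = θ(Y) Y^(η-1) + ∑_{n<Y} θ(n)(n^(η-1) - (n+1)^(η-1)) ≤ log 4 ∑_{n ≤ Y} n^(η-1)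
≤ log 4 (1 + Y^η/η) (n^(η-1) ≤ (n^η - (n-1)^η)/η for n ≥ 2). Y^η ≤ exp (η log p1) ≤ exp (log (log l)) = log l by the hypothesis. So
∑_{p ≤ p1} p^(-σ) ≤ log l + C + log 4 + 1.4 log l ≤ 2.5 log l + C (log 4 < 1.3863). Total: number ≤ C' L l^(-8) l^(2.5) ≤ L/l^5 for L ≥ L0. -/
def RnkStmt : Prop :=
  ∃ L0 : ℝ, 16 ≤ L0 ∧ ∀ L p1 e : ℕ, L0 ≤ L →
    Real.log p1 ≤ Real.log L * Real.log (Real.log (Real.log L)) / (8 * Real.log (Real.log L)) →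
    (((Icc 1 L).filter (fun j => ∀ p : ℕ, p.Prime → p ∣ j → p ≤ p1 ∨ p = e)).card : ℝ) ≤
      L / (Real.log L) ^ 5

/-- the primes in (z/2, z], ≠ e -/
def topp (z e : ℕ) : Finset ℕ := (Icc 1 z).filter (fun p => p.Prime ∧ z < 2 * p ∧ p ≠ e)

/-- Module Qpr (theorem tQpr). Uses: Pnt (PntStmt of Lib/BV).
Proof. Pnt with A = 2 at x = z and x = z/2: the number of the primes in (z/2, z] is npr z - npr (z/2) ≥ li z - li (z/2) - 2C z/(log (z/2))^2, and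
li z - li (z/2) = the integral of 1/log over [z/2, z] ≥ z/(2 log z). So it is ≥ z/(2 log z) - C' z/(log z)^2; minus 1 for e; ≥ z/(4 log z) for z ≥ z0. -/
def QprStmt : Prop :=
  ∃ z0 : ℝ, 3 ≤ z0 ∧ ∀ z e : ℕ, z0 ≤ z → (z : ℝ) / (4 * Real.log z) ≤ ((topp z e).card : ℝ)

end Pool.Agent.Lib.SG
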