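import Pool.Agent.Lib.SG.SpecA

namespace Pool.Agent.Lib.SG

open Finset Pool.Agent.Lib.BV

private lemma Abl_id (u f : ℕ → ℝ) (N : ℕ) (hN : 1 ≤ N) :
    ∑ n ∈ Icc 1 N, u n * f n = (∑ n ∈ Icc 1 N, u n) * f N -
      ∑ n ∈ Ico 1 N, (∑ i ∈ Icc 1 n, u i) * (f (n + 1) - f n) := by
  induction N, hN using Nat.le_induction with
  | base => simp
  | succ N hN ih =>
    rw [sum_Icc_succ_top (by omega), sum_Icc_succ_top (by omega), sum_Ico_succ_top hN, ih]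
    ring

private lemma Abl_pow (m : ℕ) (δ : ℝ) (hδ : 0 < δ) (hδ1 : δ ≤ 1) (n : ℕ) (hn : 1 ≤ n) :
    (1 + Real.log n) ^ m * (n : ℝ) ^ (-δ) ≤ 3 * m.factorial * δ⁻¹ ^ (m + 1) := by
  have hn0 : (0 : ℝ) < n := by exact_mod_cast hn
  have hl : 0 ≤ Real.log (n : ℝ) := Real.log_natCast_nonneg n
  have h1 := Real.pow_div_factorial_le_exp (δ * (1 + Real.log n)) (by positivity) m
  rw [div_le_iff₀ (by positivity)] at h1
  have h2 : Real.exp (δ * (1 + Real.log n)) = Real.exp δ * (n : ℝ) ^ δ := by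
    rw [Real.rpow_def_of_pos hn0, ← Real.exp_add]
    congr 1
    ring
  rw [h2] at h1
  have h3 : (1 + Real.log n) ^ m = δ⁻¹ ^ m * (δ * (1 + Real.log n)) ^ m := by
    rw [← mul_pow]
    congr 1
    field_simp
  have h4 : (n : ℝ) ^ δ * (n : ℝ) ^ (-δ) = 1 := by
    rw [← Real.rpow_add hn0]
    simp
  have hinv : 1 ≤ δ⁻¹ := (one_le_inv₀ hδ).2 hδ1
  have h5 : Real.exp δ ≤ 3 := by
    have h6 : Real.exp δ ≤ Real.exp 1 := Real.exp_le_exp.2 hδ1
    have h7 := Real.exp_one_lt_d9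
    linarith
  rw [h3]
  calc δ⁻¹ ^ m * (δ * (1 + Real.log n)) ^ m * (n : ℝ) ^ (-δ) ≤
      δ⁻¹ ^ m * (Real.exp δ * (n : ℝ) ^ δ * m.factorial) * (n : ℝ) ^ (-δ) := by gcongr
    _ = Real.exp δ * m.factorial * δ⁻¹ ^ m * ((n : ℝ) ^ δ * (n : ℝ) ^ (-δ)) := by ring
    _ = Real.exp δ * m.factorial * δ⁻¹ ^ m := by rw [h4, mul_one]
    _ ≤ 3 * m.factorial * δ⁻¹ ^ (m + 1) := by
      have h6 : δ⁻¹ ^ m ≤ δ⁻¹ ^ (m + 1) := pow_le_pow_right₀ hinv (by omega)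
      gcongr

theorem tAbl (h1 : SmzStmt) : AblStmt := by
  intro m
  obtain ⟨C, hC, hsum, hb⟩ := h1 m
  refine ⟨C + 3 * m.factorial, by positivity, fun u f B K δ hB hK hδ hδ1 hu hf hf' N => ?_⟩
  have hinv : 1 ≤ δ⁻¹ := (one_le_inv₀ hδ).2 hδ1
  rcases Nat.eq_zero_or_pos N with rfl | hN
  · simp
    positivity
  rw [Abl_id u f N hN]
  have hN0 : (0 : ℝ) < N := by exact_mod_cast hN
  have hlN : 0 ≤ Real.log (N : ℝ) := Real.log_natCast_nonneg N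
  have e1 : |(∑ n ∈ Icc 1 N, u n) * f N| ≤ B * K * (3 * m.factorial * δ⁻¹ ^ (m + 1)) := by
    rw [abs_mul]
    have h2 : (N : ℝ) ^ (1 - δ) / N = (N : ℝ) ^ (-δ) := by
      rw [← Real.rpow_sub_one hN0.ne']
      congr 1
      ring
    calc _ ≤ (B * (N : ℝ) ^ (1 - δ)) * (K * (1 + Real.log N) ^ m / N) :=
          mul_le_mul (hu N) (hf N hN) (abs_nonneg _) (by positivity)
      _ = B * K * ((1 + Real.log N) ^ m * ((N : ℝ) ^ (1 - δ) / N)) := by ring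
      _ = B * K * ((1 + Real.log N) ^ m * (N : ℝ) ^ (-δ)) := by rw [h2]
      _ ≤ _ := mul_le_mul_of_nonneg_left (Abl_pow m δ hδ hδ1 N hN) (by positivity)
  have e2 : |∑ n ∈ Ico 1 N, (∑ i ∈ Icc 1 n, u i) * (f (n + 1) - f n)| ≤
      B * K * (C * δ⁻¹ ^ (m + 1)) := by
    refine (abs_sum_le_sum_abs _ _).trans ?_
    calc ∑ n ∈ Ico 1 N, |(∑ i ∈ Icc 1 n, u i) * (f (n + 1) - f n)| ≤
        ∑ n ∈ Ico 1 N, B * K * ((1 + Real.log n) ^ m * (n : ℝ) ^ (-(1 + δ))) := by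
          refine sum_le_sum fun n hn => ?_
          have hn1 := (mem_Ico.1 hn).1
          have hn0 : (0 : ℝ) < n := by exact_mod_cast hn1
          have hl : 0 ≤ Real.log (n : ℝ) := Real.log_natCast_nonneg n
          rw [abs_mul]
          have h2 : (n : ℝ) ^ (1 - δ) / (n : ℝ) ^ 2 = (n : ℝ) ^ (-(1 + δ)) := by
            rw [← Real.rpow_natCast, ← Real.rpow_sub hn0]
            congr 1
            push_cast
            ring
          calc _ ≤ (B * (n : ℝ) ^ (1 - δ)) * (K * (1 + Real.log n) ^ m / (n : ℝ) ^ 2) :=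
                mul_le_mul (hu n) (hf' n hn1) (abs_nonneg _) (by positivity)
            _ = B * K * ((1 + Real.log n) ^ m * ((n : ℝ) ^ (1 - δ) / (n : ℝ) ^ 2)) := by ring
            _ = _ := by rw [h2]
      _ = B * K * ∑ n ∈ Ico 1 N, (1 + Real.log n) ^ m * (n : ℝ) ^ (-(1 + δ)) := by
          rw [mul_sum]
      _ ≤ B * K * (C * δ⁻¹ ^ (m + 1)) := by
          refine mul_le_mul_of_nonneg_left ?_ (by positivity)
          refine le_trans ?_ (hb δ hδ hδ1)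
          refine (hsum δ hδ).sum_le_tsum _ fun n _ => ?_
          have hl : 0 ≤ Real.log (n : ℝ) := Real.log_natCast_nonneg n
          positivity
  calc _ ≤ |(∑ n ∈ Icc 1 N, u n) * f N| +
        |∑ n ∈ Ico 1 N, (∑ i ∈ Icc 1 n, u i) * (f (n + 1) - f n)| := abs_sub _ _
    _ ≤ B * K * (3 * m.factorial * δ⁻¹ ^ (m + 1)) + B * K * (C * δ⁻¹ ^ (m + 1)) :=
        add_le_add e1 e2
    _ = _ := by ring

end Pool.Agent.Lib.SG
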