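import Pool.Agent.Lib.SG.SpecA

/-!
MP_9a4459_nt, Lib/SG, module Abt: weighted sums over the primes of a class (dyadic blocks).
-/

set_option autoImplicit false

namespace Pool.Agent.Lib.SG

open Finset Pool.Agent.Lib.BV

private theorem Abt_geo (r : ℝ) (h0 : 0 ≤ r) (h1 : r < 1) (n : ℕ) :
    ∑ k ∈ range n, r ^ k ≤ 1 / (1 - r) := by
  have h2 : (∑ k ∈ range n, r ^ k) * (1 - r) = 1 - r ^ n := by
    induction n with
    | zero => simp
    | succ n ih =>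
      rw [Finset.sum_range_succ, add_mul, ih]
      ring
  rw [le_div_iff₀ (by linarith), h2]
  have := pow_nonneg h0 n
  linarith

private theorem Abt_geo2 (r : ℝ) (h0 : 0 ≤ r) (h1 : r < 1) (n : ℕ) :
    ∑ k ∈ range n, ((k : ℝ) + 1) * r ^ k ≤ 1 / (1 - r) ^ 2 := by
  have h2 : (∑ k ∈ range n, ((k : ℝ) + 1) * r ^ k) * (1 - r) ^ 2 =
      1 - ((n : ℝ) + 1) * r ^ n + n * r ^ (n + 1) := by
    induction n with
    | zero => simp
    | succ n ih =>
      rw [Finset.sum_range_succ, add_mul, ih]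
      push_cast
      ring
  have h3 : 0 < (1 - r) ^ 2 := by
    have : 0 < 1 - r := by linarith
    positivity
  rw [le_div_iff₀ h3, h2]
  have h4 := pow_nonneg h0 n
  have h5 : (n : ℝ) * r ^ (n + 1) ≤ n * r ^ n := by
    refine mul_le_mul_of_nonneg_left ?_ (Nat.cast_nonneg n)
    rw [pow_succ]
    nlinarith
  nlinarith

private theorem Abt_two (s : ℝ) (hs : 0 < s) (hs1 : s ≤ 1) :
    0 ≤ (2 : ℝ) ^ (-s) ∧ (2 : ℝ) ^ (-s) < 1 ∧ 1 / (1 - (2 : ℝ) ^ (-s)) ≤ 2 / s := by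
  have h1 : (2 : ℝ) ^ (-s) ≤ 1 - s / 2 := by
    have h2 := rpow_one_add_le_one_add_mul_self (s := -(1 / 2)) (by norm_num) hs.le hs1
    have h3 : (1 + -(1 / 2) : ℝ) = 2⁻¹ := by norm_num
    rw [h3, Real.inv_rpow (by norm_num : (0 : ℝ) ≤ 2), ← Real.rpow_neg (by norm_num : (0 : ℝ) ≤ 2)]
      at h2
    linarith
  refine ⟨by positivity, by linarith, ?_⟩
  rw [div_le_div_iff₀ (by linarith) hs]
  linarith

private theorem Abt_blk (C N0 : ℝ) (hC : 0 < C)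
    (hB : ∀ q a N : ℕ, 1 ≤ q → N0 ≤ N → q ^ 4 ≤ N → a.Coprime q →
      (((Icc 1 N).filter (fun p => p.Prime ∧ p ≡ a [MOD q])).card : ℝ) ≤
        C * ((N : ℝ) / ((q.totient : ℝ) * Real.log N)))
    (q D a N : ℕ) (s : ℝ) (hq : 1 ≤ q) (hD : N0 ≤ D) (hqD : q ^ 4 ≤ D) (ha : a.Coprime q)
    (hs : 0 < s) (m k : ℕ) :
    ∑ p ∈ ((Ioc D N).filter (fun p => p.Prime ∧ p ≡ a [MOD q])).filter
        (fun p => Nat.log 2 p = k), (Real.log p) ^ (m + 1) * (p : ℝ) ^ (-(1 + s)) ≤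
      2 * C / (q.totient : ℝ) * (((k : ℝ) + 1) ^ m * ((2 : ℝ) ^ (-s)) ^ k) := by
  have hφ : (0 : ℝ) < q.totient := by
    exact_mod_cast Nat.totient_pos.2 hq
  set S := ((Ioc D N).filter (fun p => p.Prime ∧ p ≡ a [MOD q])).filter
    (fun p => Nat.log 2 p = k) with hS
  have hmem : ∀ p ∈ S, D < p ∧ p.Prime ∧ p ≡ a [MOD q] ∧ 2 ^ k ≤ p ∧ p < 2 ^ (k + 1) := by
    intro p hp
    rw [hS, mem_filter, mem_filter, mem_Ioc] at hp
    obtain ⟨⟨⟨h1, h2⟩, h3, h4⟩, h5⟩ := hp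
    refine ⟨h1, h3, h4, ?_, ?_⟩
    · rw [← h5]
      exact Nat.pow_log_le_self 2 h3.ne_zero
    · rw [← h5]
      exact Nat.lt_pow_succ_log_self one_lt_two p
  rcases S.eq_empty_or_nonempty with he | ⟨p0, hp0⟩
  · rw [he, Finset.sum_empty]
    positivity
  obtain ⟨h1, -, -, -, h2⟩ := hmem p0 hp0
  have hDM : D ≤ 2 ^ (k + 1) := by omega
  have hcard := hB q a (2 ^ (k + 1)) hq (hD.trans (by exact_mod_cast hDM)) (hqD.trans hDM) ha
  have hsub : S ⊆ (Icc 1 (2 ^ (k + 1))).filter (fun p => p.Prime ∧ p ≡ a [MOD q]) := by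
    intro p hp
    obtain ⟨g1, g2, g3, g4, g5⟩ := hmem p hp
    rw [mem_filter, mem_Icc]
    exact ⟨⟨g2.one_lt.le, g5.le⟩, g2, g3⟩
  have hcard2 : (S.card : ℝ) ≤ C * ((2 : ℝ) ^ (k + 1) / ((q.totient : ℝ) *
      (((k : ℝ) + 1) * Real.log 2))) := by
    have h3 : (S.card : ℝ) ≤
        (((Icc 1 (2 ^ (k + 1))).filter (fun p => p.Prime ∧ p ≡ a [MOD q])).card : ℝ) := by
      exact_mod_cast Finset.card_le_card hsub
    refine (h3.trans hcard).trans (le_of_eq ?_)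
    have h4 : Real.log ((2 ^ (k + 1) : ℕ) : ℝ) = ((k : ℝ) + 1) * Real.log 2 := by
      push_cast
      rw [Real.log_pow]
      push_cast
      ring
    rw [h4]
    push_cast
    ring
  have hl2 : 0 < Real.log 2 := Real.log_pos (by norm_num)
  have hl21 : Real.log 2 ≤ 1 := by
    have := Real.log_two_lt_d9
    linarith
  have hk0 : (0 : ℝ) < (k : ℝ) + 1 := by positivity
  have hterm : ∀ p ∈ S, (Real.log p) ^ (m + 1) * (p : ℝ) ^ (-(1 + s)) ≤
      (((k : ℝ) + 1) * Real.log 2) ^ (m + 1) * ((2 : ℝ) ^ k) ^ (-(1 + s)) := by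
    intro p hp
    obtain ⟨g1, g2, g3, g4, g5⟩ := hmem p hp
    have hp1 : (1 : ℝ) ≤ p := by exact_mod_cast g2.one_lt.le
    have e1 : Real.log p ≤ ((k : ℝ) + 1) * Real.log 2 := by
      have : Real.log p ≤ Real.log ((2 : ℝ) ^ (k + 1)) :=
        Real.log_le_log (by linarith) (by exact_mod_cast g5.le)
      rw [Real.log_pow] at this
      push_cast at this
      exact this
    have e2 : (p : ℝ) ^ (-(1 + s)) ≤ ((2 : ℝ) ^ k) ^ (-(1 + s)) :=
      Real.rpow_le_rpow_of_nonpos (by positivity) (by exact_mod_cast g4) (by linarith)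
    have e3 : 0 ≤ Real.log p := Real.log_nonneg hp1
    exact mul_le_mul (pow_le_pow_left₀ e3 e1 _) e2 (by positivity) (by positivity)
  have hsum := Finset.sum_le_card_nsmul S _ _ hterm
  refine hsum.trans ?_
  rw [nsmul_eq_mul]
  refine (mul_le_mul_of_nonneg_right hcard2 (by positivity)).trans ?_
  have hpw : ((2 : ℝ) ^ k) ^ (-(1 + s)) = ((2 : ℝ) ^ k)⁻¹ * ((2 : ℝ) ^ (-s)) ^ k := by
    have h2k : (0 : ℝ) < 2 ^ k := by positivity
    rw [show -(1 + s) = -1 + -s by ring, Real.rpow_add h2k, Real.rpow_neg_one]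
    congr 1
    rw [← Real.rpow_natCast, ← Real.rpow_natCast, ← Real.rpow_mul (by norm_num),
      ← Real.rpow_mul (by norm_num)]
    congr 1
    ring
  have hkey : C * ((2 : ℝ) ^ (k + 1) / ((q.totient : ℝ) * (((k : ℝ) + 1) * Real.log 2))) *
      ((((k : ℝ) + 1) * Real.log 2) ^ (m + 1) * ((2 : ℝ) ^ k) ^ (-(1 + s))) =
      2 * C / (q.totient : ℝ) * ((((k : ℝ) + 1) * Real.log 2) ^ m * ((2 : ℝ) ^ (-s)) ^ k) := by
    rw [hpw]
    have h2k : (0 : ℝ) < 2 ^ k := by positivity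
    field_simp
    ring
  rw [hkey]
  have hlast : (((k : ℝ) + 1) * Real.log 2) ^ m ≤ ((k : ℝ) + 1) ^ m := by
    refine pow_le_pow_left₀ (by positivity) ?_ m
    nlinarith
  have h5 : (0 : ℝ) ≤ ((2 : ℝ) ^ (-s)) ^ k := by positivity
  exact mul_le_mul_of_nonneg_left (mul_le_mul_of_nonneg_right hlast h5) (by positivity)

private theorem Abt_one (C N0 : ℝ) (hC : 0 < C)
    (hB : ∀ q a N : ℕ, 1 ≤ q → N0 ≤ N → q ^ 4 ≤ N → a.Coprime q →
      (((Icc 1 N).filter (fun p => p.Prime ∧ p ≡ a [MOD q])).card : ℝ) ≤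
        C * ((N : ℝ) / ((q.totient : ℝ) * Real.log N)))
    (q D a N : ℕ) (s : ℝ) (hq : 1 ≤ q) (hD : N0 ≤ D) (hqD : q ^ 4 ≤ D) (ha : a.Coprime q)
    (hs : 0 < s) (hs1 : s ≤ 1) (m : ℕ) (hm1 : 1 ≤ m) (hm2 : m ≤ 2) :
    ∑ p ∈ (Ioc D N).filter (fun p => p.Prime ∧ p ≡ a [MOD q]),
        (Real.log p) ^ m * (p : ℝ) ^ (-(1 + s)) ≤ 8 * C / ((q.totient : ℝ) * s ^ m) := by
  have hφ : (0 : ℝ) < q.totient := by
    exact_mod_cast Nat.totient_pos.2 hq
  obtain ⟨m, rfl⟩ : ∃ m', m = m' + 1 := ⟨m - 1, by omega⟩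
  obtain ⟨r0, r1, r2⟩ := Abt_two s hs hs1
  have hmap : ∀ p ∈ (Ioc D N).filter (fun p => p.Prime ∧ p ≡ a [MOD q]),
      Nat.log 2 p ∈ range (N + 1) := by
    intro p hp
    rw [mem_filter, mem_Ioc] at hp
    rw [mem_range]
    have := Nat.log_le_self 2 p
    omega
  rw [← Finset.sum_fiberwise_of_maps_to hmap]
  have h1 : ∑ k ∈ range (N + 1), ∑ p ∈ ((Ioc D N).filter
      (fun p => p.Prime ∧ p ≡ a [MOD q])).filter (fun p => Nat.log 2 p = k),
      (Real.log p) ^ (m + 1) * (p : ℝ) ^ (-(1 + s)) ≤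
      ∑ k ∈ range (N + 1), 2 * C / (q.totient : ℝ) * (((k : ℝ) + 1) ^ m * ((2 : ℝ) ^ (-s)) ^ k) :=
    Finset.sum_le_sum fun k _ => Abt_blk C N0 hC hB q D a N s hq hD hqD ha hs m k
  refine h1.trans ?_
  rw [← Finset.mul_sum]
  have h2s : 0 < 2 / s := by positivity
  have hgeo : ∑ k ∈ range (N + 1), (((k : ℝ) + 1) ^ m * ((2 : ℝ) ^ (-s)) ^ k) ≤ 4 / s ^ (m + 1) := by
    have hm : m = 0 ∨ m = 1 := by omega
    rcases hm with rfl | rfl
    · simp only [pow_zero, one_mul, zero_add, pow_one]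
      refine (Abt_geo _ r0 r1 _).trans (r2.trans ?_)
      rw [div_le_div_iff_of_pos_right hs]
      norm_num
    · simp only [pow_one]
      refine (Abt_geo2 _ r0 r1 _).trans ?_
      have h3 : 1 / (1 - (2 : ℝ) ^ (-s)) ^ 2 = (1 / (1 - (2 : ℝ) ^ (-s))) ^ 2 := by
        rw [one_div_pow]
      rw [h3]
      have h4 : 0 ≤ 1 / (1 - (2 : ℝ) ^ (-s)) := by
        apply div_nonneg zero_le_one
        linarith
      refine (pow_le_pow_left₀ h4 r2 2).trans (le_of_eq ?_)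
      rw [div_pow]
      norm_num
  refine (mul_le_mul_of_nonneg_left hgeo (by positivity)).trans (le_of_eq ?_)
  field_simp
  ring

theorem tAbt (_h1 : SmzStmt) (h2 : BtpStmt) : AbtStmt := by
  obtain ⟨C, N0, hC, hN0, hB⟩ := h2
  refine ⟨32 * C, N0, by positivity, hN0, ?_⟩
  intro q D a N s hq hD hqD ha hs hs1
  have hφ : (0 : ℝ) < q.totient := by
    exact_mod_cast Nat.totient_pos.2 hq
  refine ⟨?_, ?_⟩
  · intro m hm1 hm2
    refine (Abt_one C N0 hC hB q D a N s hq hD hqD ha hs hs1 m hm1 hm2).trans ?_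
    rw [div_le_div_iff_of_pos_right (by positivity)]
    linarith
  · intro X K hX hK hexp
    have h1 := Abt_one C N0 hC hB q D a N (s / 2) hq hD hqD ha (by positivity) (by linarith) 2
      (by norm_num) le_rfl
    have hterm : ∀ p ∈ (Ioc X N).filter (fun p => p.Prime ∧ p ≡ a [MOD q]),
        (Real.log p) ^ 2 * (p : ℝ) ^ (-(1 + s)) ≤
        Real.exp (-(K / 2)) * ((Real.log p) ^ 2 * (p : ℝ) ^ (-(1 + s / 2))) := by
      intro p hp
      rw [mem_filter, mem_Ioc] at hp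
      obtain ⟨⟨g1, g2⟩, g3, g4⟩ := hp
      have hp0 : (0 : ℝ) < p := by exact_mod_cast g3.pos
      have hX0 : (0 : ℝ) < X := lt_of_lt_of_le (Real.exp_pos _) hexp
      have e1 : (p : ℝ) ^ (-(1 + s)) = (p : ℝ) ^ (-(s / 2)) * (p : ℝ) ^ (-(1 + s / 2)) := by
        rw [← Real.rpow_add hp0]
        congr 1
        ring
      have e2 : (p : ℝ) ^ (-(s / 2)) ≤ Real.exp (-(K / 2)) := by
        have e3 : (p : ℝ) ^ (-(s / 2)) ≤ (Real.exp (K / s)) ^ (-(s / 2)) := by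
          refine Real.rpow_le_rpow_of_nonpos (Real.exp_pos _) ?_ (by linarith)
          refine hexp.trans ?_
          exact_mod_cast g1.le
        refine e3.trans (le_of_eq ?_)
        rw [← Real.exp_mul]
        congr 1
        field_simp
      rw [e1]
      have e4 : 0 ≤ (Real.log p) ^ 2 * (p : ℝ) ^ (-(1 + s / 2)) := by positivity
      nlinarith [mul_le_mul_of_nonneg_right e2 e4]
    refine (Finset.sum_le_sum hterm).trans ?_
    rw [← Finset.mul_sum]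
    have hsub : ∑ p ∈ (Ioc X N).filter (fun p => p.Prime ∧ p ≡ a [MOD q]),
        (Real.log p) ^ 2 * (p : ℝ) ^ (-(1 + s / 2)) ≤
        ∑ p ∈ (Ioc D N).filter (fun p => p.Prime ∧ p ≡ a [MOD q]),
        (Real.log p) ^ 2 * (p : ℝ) ^ (-(1 + s / 2)) := by
      refine Finset.sum_le_sum_of_subset_of_nonneg ?_ fun p _ _ => by positivity
      intro p hp
      rw [mem_filter, mem_Ioc] at hp ⊢
      exact ⟨⟨by omega, hp.1.2⟩, hp.2⟩
    rw [mul_comm]
    refine mul_le_mul_of_nonneg_right ((hsub.trans h1).trans (le_of_eq ?_)) (Real.exp_pos _).le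
    field_simp
    ring

end Pool.Agent.Lib.SG
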