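import Pool.Agent.Lib.SG.SpecC

/-!
MP_9a4459_nt, auxiliary: the iterated logarithms for large arguments.
-/

namespace Pool.Agent.Lib.SG

open Finset Pool.Agent.Lib.BV

lemma Lg_ev (M : ℝ) : ∃ x0 : ℝ, 16 ≤ x0 ∧ ∀ x : ℝ, x0 ≤ x →
    1 ≤ Real.log x ∧ 1 ≤ Real.log (Real.log x) ∧ 1 ≤ Real.log (Real.log (Real.log x)) ∧
    M ≤ Real.log (Real.log (Real.log x)) ∧
    M * Real.log (Real.log (Real.log x)) ≤ Real.log (Real.log x) ∧
    M * (Real.log (Real.log x)) ^ 2 ≤ Real.log x ∧ M * (Real.log x) ^ 8 ≤ x := by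
  set N : ℝ := max M 1 with hN
  have hN0 : 0 < N := lt_of_lt_of_le one_pos (le_max_right _ _)
  have t1 := Real.tendsto_log_atTop
  have t2 := t1.comp t1
  have t3 := t1.comp t2
  have a1 : ∀ᶠ x : ℝ in Filter.atTop, N ≤ Real.log (Real.log (Real.log x)) := t3.eventually_ge_atTop _
  have a2 : ∀ᶠ x : ℝ in Filter.atTop, 1 ≤ Real.log (Real.log x) := t2.eventually_ge_atTop _
  have a3 : ∀ᶠ x : ℝ in Filter.atTop, 1 ≤ Real.log x := t1.eventually_ge_atTop _
  have b1 := (Real.isLittleO_log_id_atTop.comp_tendsto t2).bound (c := 1 / N) (by positivity)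
  have b2 := ((Real.isLittleO_pow_log_id_atTop (n := 2)).comp_tendsto t1).bound (c := 1 / N) (by positivity)
  have b3 := (Real.isLittleO_pow_log_id_atTop (n := 8)).bound (c := 1 / N) (by positivity)
  obtain ⟨x0, hx0⟩ := Filter.eventually_atTop.1 ((a1.and (a2.and a3)).and (b1.and (b2.and b3)))
  refine ⟨max x0 16, le_max_right _ _, fun x hx => ?_⟩
  obtain ⟨⟨c1, c2, c3⟩, d1, d2, d3⟩ := hx0 x ((le_max_left _ _).trans hx)
  have hx16 : 16 ≤ x := (le_max_right _ _).trans hx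
  simp only [Function.comp_apply, id_eq] at d1 d2 d3
  set l := Real.log x with hl
  set l2 := Real.log l with hl2
  set l3 := Real.log l2 with hl3
  have e1 : 1 ≤ l3 := (le_max_right _ _).trans c1
  rw [Real.norm_of_nonneg (by linarith : 0 ≤ l3), Real.norm_of_nonneg (by linarith : 0 ≤ l2)] at d1
  rw [Real.norm_of_nonneg (sq_nonneg l2), Real.norm_of_nonneg (by linarith : 0 ≤ l)] at d2
  rw [Real.norm_of_nonneg (by positivity : 0 ≤ l ^ 8), Real.norm_of_nonneg (by linarith : 0 ≤ x)] at d3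
  have f : ∀ u v : ℝ, 0 ≤ u → u ≤ 1 / N * v → M * u ≤ v := by
    intro u v hu huv
    have h1 : M * u ≤ N * u := mul_le_mul_of_nonneg_right (le_max_left _ _) hu
    have h2 : N * u ≤ N * (1 / N * v) := mul_le_mul_of_nonneg_left huv hN0.le
    have h3 : N * (1 / N * v) = v := by field_simp
    linarith
  exact ⟨c3, c2, e1, (le_max_left _ _).trans c1, f _ _ (by linarith) d1, f _ _ (sq_nonneg _) d2,
    f _ _ (by positivity) d3⟩

end Pool.Agent.Lib.SG
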