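import Pool.Agent.Lib.SG.Defs

/-!
MP_9a4459_nt, auxiliary: facts about WW z e.
-/

namespace Pool.Agent.Lib.SG

open Finset Pool.Agent.Lib.BV

lemma WW_mem {z e p : ℕ} (hp : p ∈ (Icc 1 z).filter (fun p => p.Prime ∧ p ≠ e)) :
    p.Prime ∧ p ≤ z ∧ p ≠ e := by
  rw [Finset.mem_filter, Finset.mem_Icc] at hp
  exact ⟨hp.2.1, hp.1.2, hp.2.2⟩

lemma WW_pos (z e : ℕ) : 1 ≤ WW z e := by
  unfold WW
  exact Finset.prod_pos fun p hp => (WW_mem hp).1.pos

lemma WW_le (z e : ℕ) : WW z e ≤ 4 ^ z := by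
  refine le_trans ?_ (primorial_le_four_pow z)
  unfold WW primorial
  apply Nat.le_of_dvd
  · apply Finset.prod_pos
    intro p hp
    exact (Finset.mem_filter.1 hp).2.pos
  · apply Finset.prod_dvd_prod_of_subset
    intro p hp
    obtain ⟨h1, h2, h3⟩ := WW_mem hp
    rw [Finset.mem_filter, Finset.mem_range]
    exact ⟨by omega, h1⟩

lemma WW_dvd_iff {z e p : ℕ} (hp : p.Prime) : p ∣ WW z e ↔ p ≤ z ∧ p ≠ e := by
  constructor
  · intro h
    unfold WW at h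
    rw [hp.prime.dvd_finsetProd_iff] at h
    obtain ⟨q, hq, hpq⟩ := h
    obtain ⟨h1, h2, h3⟩ := WW_mem hq
    have := (Nat.prime_dvd_prime_iff_eq hp h1).1 hpq
    subst this
    exact ⟨h2, h3⟩
  · rintro ⟨h1, h2⟩
    unfold WW
    apply Finset.dvd_prod_of_mem (fun p : ℕ => p)
    rw [Finset.mem_filter, Finset.mem_Icc]
    exact ⟨⟨hp.one_lt.le, h1⟩, hp, h2⟩

lemma WW_coprime_of_prime {z e m : ℕ} (hm : m.Prime) (hz : z < m) : m.Coprime (WW z e) := by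
  rw [Nat.Prime.coprime_iff_not_dvd hm, WW_dvd_iff hm]
  omega

end Pool.Agent.Lib.SG
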