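import Pool.Agent.Lib.SG.SpecC
import Pool.Agent.Lib.SG.Wwf
import Pool.Agent.Lib.SG.Lg

/-!
MP_9a4459_nt, module Occ: two occupied windows.
-/

namespace Pool.Agent.Lib.SG

open Finset Pool.Agent.Lib.BV

lemma Vz_nonneg (z : ℕ) : 0 ≤ Vz z := by
  unfold Vz VV
  apply Finset.prod_nonneg
  intro p hp
  rw [Finset.mem_filter] at hp
  have h1 : (2 : ℝ) ≤ p := by exact_mod_cast hp.2.two_le
  have h2 : 1 / (p : ℝ) ≤ 1 / 2 := one_div_le_one_div_of_le (by norm_num) h1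
  linarith

lemma yy_le (A c3 : ℝ) (z : ℕ) (hc3 : 0 < c3) (hc31 : c3 ≤ 1) (hA : 1 ≤ A) :
    (yy c3 z : ℝ) ≤ c3 * z / Vz z ∧ (yy c3 z : ℝ) ≤ A * z / Vz z := by
  have hV0 := Vz_nonneg z
  have h1 : (yy c3 z : ℝ) ≤ c3 * z / Vz z := by
    unfold yy
    exact Nat.floor_le (by positivity)
  exact ⟨h1, h1.trans (div_le_div_of_nonneg_right
    (mul_le_mul_of_nonneg_right (hc31.trans hA) (Nat.cast_nonneg _)) hV0)⟩

/-- the powers of 4 -/
lemma N0_facts (z e : ℕ) (hz : 1 ≤ z) : (WW z e) ^ 4 ≤ 4 ^ (5 * z) / 2 ∧ 4 ^ z ≤ 4 ^ (5 * z) / 2 ∧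
    z ≤ 4 ^ (5 * z) / 2 := by
  have hW4 : WW z e ≤ 4 ^ z := WW_le z e
  have h5 : 4 ^ (5 * z) = 4 ^ z * (4 ^ z) ^ 4 := by
    rw [← pow_mul, ← pow_add]
    congr 1
    ring
  have h2 : 2 ≤ 4 ^ z := by
    calc 2 ≤ 4 ^ 1 := by norm_num
      _ ≤ 4 ^ z := Nat.pow_le_pow_right (by norm_num) hz
  have h1 : (4 ^ z) ^ 4 ≤ 4 ^ (5 * z) / 2 := by
    rw [Nat.le_div_iff_mul_le (by norm_num), h5, mul_comm]
    exact Nat.mul_le_mul_right _ h2
  have h3 : 4 ^ z ≤ (4 ^ z) ^ 4 := Nat.le_self_pow (by norm_num) _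
  have h4 : z < 4 ^ z := Nat.lt_pow_self (by norm_num)
  exact ⟨(Nat.pow_le_pow_left hW4 4).trans h1, h3.trans h1, by omega⟩

theorem tOcc (h1 : GdwStmt) (h2 : WtuStmt) (h3 : PrlStmt) (h4 : WndStmt) (h5 : SmtStmt)
    (h6 : FeStmt) (h7 : FsqStmt) : OccStmt := by
  classical
  obtain ⟨κ, zg, hκ, hzg, hG⟩ := h1
  obtain ⟨cF, c_1, K, zf, hcF, hc_1, hK, hzf, hF⟩ := h6 κ hκ
  obtain ⟨C2, zs, hC2, hzs, hS2⟩ := h7
  obtain ⟨C5, zw, hC5, hzw, hW⟩ := h2
  obtain ⟨k, hk⟩ := exists_nat_ge (max 1 (4 * C2 * C5 / cF ^ 2))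
  have hk1 : (1 : ℝ) ≤ k := (le_max_left _ _).trans hk
  have hk1' : 1 ≤ k := by exact_mod_cast hk1
  have hk2 : 4 * C2 * C5 ≤ k * cF ^ 2 := by
    have := (le_max_right _ _).trans hk
    rwa [div_le_iff₀ (by positivity)] at this
  have hlog4 : 0 < Real.log 4 := Real.log_pos (by norm_num)
  set c1 : ℝ := c_1 / (5 * Real.log 4) with hc1
  have hc1p : 0 < c1 := by rw [hc1]; positivity
  obtain ⟨A, c3, zW, hA, hc3, hc31, hzW, hWnd⟩ := h4 k (1 / c1) hk1' (by positivity)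
  obtain ⟨zl, hzl, hl⟩ := h3 k A hk1' hA
  refine ⟨k, A, c3, cF ^ 2 / (4 * C2), c1, K, max (max (max zg zf) (max zs zw)) (max (max zW zl) c1),
    hk1', hA, hc3, hc31, by positivity, hc1p, hK,
    hzf.trans ((le_max_right _ _).trans ((le_max_left _ _).trans (le_max_left _ _))), ?_⟩
  intro z hz
  have hz1 : zg ≤ z := ((le_max_left _ _).trans ((le_max_left _ _).trans (le_max_left _ _))).trans hz
  have hz2 : zf ≤ z := ((le_max_right _ _).trans ((le_max_left _ _).trans (le_max_left _ _))).trans hz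
  have hz3 : zs ≤ z := ((le_max_left _ _).trans ((le_max_right _ _).trans (le_max_left _ _))).trans hz
  have hz4 : zw ≤ z := ((le_max_right _ _).trans ((le_max_right _ _).trans (le_max_left _ _))).trans hz
  have hz5 : zW ≤ z := ((le_max_left _ _).trans ((le_max_left _ _).trans (le_max_right _ _))).trans hz
  have hz6 : zl ≤ z := ((le_max_right _ _).trans ((le_max_left _ _).trans (le_max_right _ _))).trans hz
  have hz7 : c1 ≤ z := ((le_max_right _ _).trans (le_max_right _ _)).trans hz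
  have hz16 : (16 : ℝ) ≤ z := hzf.trans hz2
  have hz16' : 16 ≤ z := by exact_mod_cast hz16
  have hz0 : (0 : ℝ) < z := by linarith
  have hlz : 0 < Real.log z := Real.log_pos (by linarith)
  obtain ⟨e, he, hgood⟩ := hG z (4 ^ (5 * z)) (P0 z) hz1 (Nat.pow_le_pow_right (by norm_num) (by omega))
    (Nat.floor_le hlz.le)
  obtain ⟨b, hb1, hb2, hb3⟩ := hWnd z e hz5 he
  refine ⟨e, b, he, hb1, hb3, ?_⟩
  intro s X hs hX
  obtain ⟨n1, n2, n3⟩ := N0_facts z e (by omega)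
  have hs0 : 0 < s := by rw [hs]; positivity
  have hs1 : s ≤ 1 := by
    rw [hs, div_le_one hz0]
    exact hz7
  set w : ℕ := ww A z with hw
  set y : ℕ := yy c3 z with hy
  obtain ⟨y1, y2⟩ := yy_le A c3 z hc3 hc31 hA
  obtain ⟨l1, l2, l3, l4, l5⟩ := hl z y (z + k * (w + y)) hz6 y2 rfl
  set W : ℕ := WW z e with hWdef
  have hW1 : 1 ≤ W := WW_pos z e
  have hWR : (0 : ℝ) < W := by exact_mod_cast hW1
  have hWz : ∀ p : ℕ, p.Prime → p ∣ W → p ≤ z := fun p hp hd => ((WW_dvd_iff hp).1 hd).1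
  obtain ⟨w1, w2, w3⟩ := hW z W b (4 ^ (5 * z) / 2) X s hz4 hW1 hWz n1 n2 hs0 hs1
  set J : ℕ → Finset ℕ := fun i => (win z w y i).filter (fun j => (b + j).Coprime W) with hJ
  have hJm : ∀ i < k, ∀ j ∈ J i, j ∈ win z w y i ∧ (b + j).Coprime W ∧ z < j ∧ j ≤ z + k * (w + y) := by
    intro i hi j hj
    rw [hJ] at hj
    simp only at hj
    rw [Finset.mem_filter] at hj
    have h8 := hj.1
    unfold win at h8
    rw [Finset.mem_Ioc] at h8
    have e1 : (i + 1) * (w + y) ≤ k * (w + y) := Nat.mul_le_mul_right _ hi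
    have e2 : (i + 1) * (w + y) = i * (w + y) + (w + y) := by ring
    exact ⟨hj.1, hj.2, by omega, by omega⟩
  set S : Finset ℕ := (Ioc (4 ^ (5 * z) / 2) X).filter (fun n => n ≡ b [MOD W]) with hS
  set Nn : ℕ → ℕ → ℕ := fun i n => ((J i).filter (fun j => (n + j).Prime)).card with hNn
  set h : ℕ → ℝ := fun i => ((J i).card : ℝ) * s * Real.log z with hh
  set M : ℝ := 1 / (W * s ^ 3) with hM
  have hMp : 0 < M := by rw [hM]; positivity
  have hmu0 : ∀ n, 0 ≤ mu s n := fun n => by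
    unfold mu
    exact mul_nonneg (sq_nonneg _) (Real.rpow_nonneg (Nat.cast_nonneg _) _)
  have hres := h5 S (mu s) k Nn h M cF C2 C5 hMp hcF hC2 hC5 (fun n _ => hmu0 n) (by
    have e1 : C5 * M = C5 / (W * s ^ 3) := by rw [hM]; ring
    rw [e1]
    exact w1) (by
    intro i hi
    refine ⟨?_, ?_, ?_⟩
    · have e1 := hb2 i hi
      have e2 : 1 / c1 * (z / Real.log z) ≤ ((J i).card : ℝ) := e1
      have e3 : (1 : ℝ) = 1 / c1 * (z / Real.log z) * s * Real.log z := by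
        rw [hs]
        field_simp
      rw [hh]
      simp only
      rw [e3]
      exact mul_le_mul_of_nonneg_right (mul_le_mul_of_nonneg_right e2 hs0.le) hlz.le
    · have e1 : ∑ n ∈ S, mu s n * (Nn i n : ℝ) = ∑ j ∈ J i,
          ∑ n ∈ (Ioc (4 ^ (5 * z) / 2) X).filter (fun n => n ≡ b [MOD W] ∧ (n + j).Prime), mu s n := by
        have e2 : ∀ n, (Nn i n : ℝ) = ∑ j ∈ J i, (if (n + j).Prime then (1 : ℝ) else 0) := by
          intro n
          rw [← Finset.sum_filter, Finset.sum_const, nsmul_eq_mul, mul_one]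
        simp only [e2, Finset.mul_sum]
        rw [Finset.sum_comm]
        refine Finset.sum_congr rfl fun j _ => ?_
        rw [hS, Finset.sum_filter, Finset.sum_filter]
        refine Finset.sum_congr rfl fun n _ => ?_
        by_cases q1 : n ≡ b [MOD W] <;> by_cases q2 : (n + j).Prime <;> simp [q1, q2]
      rw [e1]
      have e3 : ∀ j ∈ J i, cF * (Real.log z / (W * s ^ 2)) ≤
          ∑ n ∈ (Ioc (4 ^ (5 * z) / 2) X).filter (fun n => n ≡ b [MOD W] ∧ (n + j).Prime), mu s n := by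
        intro j hj
        obtain ⟨j1, j2, j3, j4⟩ := hJm i hi j hj
        have e4 : s ≤ c_1 / Real.log ((4 ^ (5 * z) : ℕ) : ℝ) := by
          have e5 : Real.log ((4 ^ (5 * z) : ℕ) : ℝ) = 5 * Real.log 4 * z := by
            push_cast
            rw [Real.log_pow]
            push_cast
            ring
          rw [e5, hs, hc1, div_div]
        exact hF z e b (4 ^ (5 * z)) X j s hz2 le_rfl hgood j2 (by omega) hs0 e4 hX
      have e4 := Finset.sum_le_sum e3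
      rw [Finset.sum_const, nsmul_eq_mul] at e4
      refine le_trans (le_of_eq ?_) e4
      rw [hh, hM]
      simp only
      field_simp
    · have e1 := hS2 z W b (4 ^ (5 * z) / 2) X s (J i) hz3 hW1 hWz n1 n2 hs0 hs1 (by
        intro j hj j' hj'
        have := (hJm i hi j' hj').2.2.2
        omega)
      refine e1.trans (le_of_eq ?_)
      rw [hh, hM]
      simp only
      ring) hk2
  have e1 : cF ^ 2 / (4 * C2) / (W * s ^ 3) = cF ^ 2 / (4 * C2) * M := by rw [hM]; ring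
  rw [e1]
  refine hres.trans ?_
  apply Finset.sum_le_sum_of_subset_of_nonneg
  · intro n hn
    rw [Finset.mem_filter] at hn ⊢
    obtain ⟨hnS, i, hi, i', hi', hii, hN1, hN2⟩ := hn
    rw [hS, Finset.mem_filter] at hnS
    obtain ⟨j, hj⟩ := Finset.card_pos.1 hN1
    obtain ⟨j', hj'⟩ := Finset.card_pos.1 hN2
    rw [Finset.mem_filter] at hj hj'
    exact ⟨hnS.1, hnS.2, i, hi, i', hi', hii, ⟨j, (hJm i hi j hj.1).1, hj.2⟩,
      ⟨j', (hJm i' hi' j' hj'.1).1, hj'.2⟩⟩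
  · intro n _ _
    exact hmu0 n

end Pool.Agent.Lib.SG
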