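import Pool.Agent.Lib.SG.SpecC
import Pool.Agent.Lib.SG.Wwf
import Pool.Agent.Lib.SG.Occ

/-!
MP_9a4459_nt, module Agb: from the occupied windows to the gaps.
-/

namespace Pool.Agent.Lib.SG

open Finset Pool.Agent.Lib.BV

theorem tAgb (h1 : WtuStmt) (h2 : GapStmt) : AgbStmt := by
  classical
  obtain ⟨C, z0, hC, hz0, hW⟩ := h1
  refine ⟨C, max z0 16, hC, le_max_right _ _, ?_⟩
  intro z e b k w y X s hz hL hzon hs hs1
  have hz1 : z0 ≤ z := (le_max_left _ _).trans hz
  have hz16 : (16 : ℝ) ≤ z := (le_max_right _ _).trans hz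
  have hz16' : 16 ≤ z := by exact_mod_cast hz16
  obtain ⟨n1, n2, n3⟩ := N0_facts z e (by omega)
  set W : ℕ := WW z e with hWdef
  have hW1 : 1 ≤ W := WW_pos z e
  have hWR : (0 : ℝ) < W := by exact_mod_cast hW1
  have hWz : ∀ p : ℕ, p.Prime → p ∣ W → p ≤ z := fun p hp hd => ((WW_dvd_iff hp).1 hd).1
  obtain ⟨w1, w2, w3⟩ := hW z W b (4 ^ (5 * z) / 2) X s hz1 hW1 hWz n1 n2 hs hs1
  set N0 : ℕ := 4 ^ (5 * z) / 2 with hN0
  set Sv : Finset ℕ := svs z w y k b e with hSv
  set G : Finset ℕ := gps z w y k X with hG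
  have hmu0 : ∀ n, 0 ≤ mu s n := fun n => by
    unfold mu
    exact mul_nonneg (sq_nonneg _) (Real.rpow_nonneg (Nat.cast_nonneg _) _)
  set S : Finset ℕ := (Ioc N0 X).filter (fun n => n ≡ b [MOD W]) with hS
  set F : Finset ℕ := (Ioc N0 X).filter (fun n => n ≡ b [MOD W] ∧
        ∃ i < k, ∃ i' < k, i < i' ∧ (∃ j ∈ win z w y i, (n + j).Prime) ∧
          ∃ j ∈ win z w y i', (n + j).Prime) with hF
  have hFS : F ⊆ S := by
    intro n hn
    rw [hF, Finset.mem_filter] at hn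
    rw [hS, Finset.mem_filter]
    exact ⟨hn.1, hn.2.1⟩
  have hpt : ∀ n ∈ F, mu s n ≤ ∑ g ∈ G, ∑ j ∈ Sv.filter (fun j => j + g ∈ Sv),
      (if (n + j).Prime ∧ (n + (j + g)).Prime then mu s n else 0) := by
    intro n hn
    rw [hF, Finset.mem_filter, Finset.mem_Ioc] at hn
    obtain ⟨⟨hn1, hn2⟩, hnb, hocc⟩ := hn
    obtain ⟨j, g, ⟨i, hi, hji⟩, ⟨i', hi', hji'⟩, g1, g2, g3, hgap⟩ := h2 z e b k w y n hnb (by omega) hzon hocc
    obtain ⟨q1, q2, q3, q4, q5⟩ := hgap
    have e0 : n + (j + g) - g = n + j := by omega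
    rw [e0] at q3
    have hwin : ∀ m < k, ∀ x ∈ win z w y m, z < x ∧ x ≤ z + k * (w + y) := by
      intro m hm x hx
      unfold win at hx
      rw [Finset.mem_Ioc] at hx
      have e1 : (m + 1) * (w + y) ≤ k * (w + y) := Nat.mul_le_mul_right _ hm
      have e2 : (m + 1) * (w + y) = m * (w + y) + (w + y) := by ring
      exact ⟨by omega, by omega⟩
    have hsv : ∀ m < k, ∀ x ∈ win z w y m, (n + x).Prime → x ∈ Sv := by
      intro m hm x hx hxp
      rw [hSv]
      unfold svs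
      rw [Finset.mem_filter, Finset.mem_biUnion]
      refine ⟨⟨m, Finset.mem_range.2 hm, hx⟩, ?_⟩
      have e1 : (n + x).Coprime W := WW_coprime_of_prime hxp (by have := (hwin m hm x hx).1; omega)
      have e2 : n + x ≡ b + x [MOD W] := hnb.add_right x
      unfold Nat.Coprime at e1 ⊢
      rw [← e2.gcd_eq]
      exact e1
    have hjSv := hsv i hi j hji q3
    have hjgSv := hsv i' hi' (j + g) hji' q1
    have hgG : g ∈ G := by
      rw [hG]
      unfold gps
      rw [Finset.mem_filter, Finset.mem_Icc]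
      refine ⟨⟨g2, g3⟩, g1, n + (j + g), ?_, q1, q2, by rw [e0]; exact q3, q4, q5⟩
      have := (hwin i' hi' (j + g) hji').2
      omega
    calc mu s n = (if (n + j).Prime ∧ (n + (j + g)).Prime then mu s n else 0) := by
          rw [if_pos ⟨q3, q1⟩]
      _ ≤ ∑ j ∈ Sv.filter (fun j => j + g ∈ Sv),
            (if (n + j).Prime ∧ (n + (j + g)).Prime then mu s n else 0) :=
          Finset.single_le_sum (f := fun j => if (n + j).Prime ∧ (n + (j + g)).Prime then mu s n else 0)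
            (fun x _ => by split_ifs; exacts [hmu0 n, le_rfl]) (Finset.mem_filter.2 ⟨hjSv, hjgSv⟩)
      _ ≤ _ :=
          Finset.single_le_sum (f := fun g => ∑ j ∈ Sv.filter (fun j => j + g ∈ Sv),
            (if (n + j).Prime ∧ (n + (j + g)).Prime then mu s n else 0))
            (fun x _ => Finset.sum_nonneg fun x' _ => by split_ifs; exacts [hmu0 n, le_rfl]) hgG
  have hsum : ∑ n ∈ F, mu s n ≤ ∑ g ∈ G, ∑ j ∈ Sv.filter (fun j => j + g ∈ Sv),
      ∑ n ∈ S, (if (n + j).Prime ∧ (n + (j + g)).Prime then mu s n else 0) := by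
    refine (Finset.sum_le_sum hpt).trans ?_
    have e1 : ∑ n ∈ F, ∑ g ∈ G, ∑ j ∈ Sv.filter (fun j => j + g ∈ Sv),
        (if (n + j).Prime ∧ (n + (j + g)).Prime then mu s n else 0) ≤
        ∑ n ∈ S, ∑ g ∈ G, ∑ j ∈ Sv.filter (fun j => j + g ∈ Sv),
        (if (n + j).Prime ∧ (n + (j + g)).Prime then mu s n else 0) := by
      apply Finset.sum_le_sum_of_subset_of_nonneg hFS
      intro n _ _
      apply Finset.sum_nonneg
      intro g _
      apply Finset.sum_nonneg
      intro j _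
      split_ifs
      exacts [hmu0 n, le_rfl]
    refine e1.trans (le_of_eq ?_)
    rw [Finset.sum_comm]
    refine Finset.sum_congr rfl fun g _ => ?_
    rw [Finset.sum_comm]
  have hfin : ∑ g ∈ G, ∑ j ∈ Sv.filter (fun j => j + g ∈ Sv),
      ∑ n ∈ S, (if (n + j).Prime ∧ (n + (j + g)).Prime then mu s n else 0) ≤
      ∑ g ∈ G, ∑ _j ∈ Sv.filter (fun j => j + g ∈ Sv), C * (Real.log z) ^ 2 / ((W : ℝ) * s) := by
    refine Finset.sum_le_sum fun g hg => Finset.sum_le_sum fun j _ => ?_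
    have hg' : 1 ≤ g ∧ g < z ^ 2 := by
      rw [hG] at hg
      unfold gps at hg
      rw [Finset.mem_filter, Finset.mem_Icc] at hg
      exact ⟨hg.1.1, by omega⟩
    have e1 := w3 j g hg'.1 hg'.2
    refine le_trans (le_of_eq ?_) e1
    rw [hS, Finset.sum_filter, Finset.sum_filter]
    refine Finset.sum_congr rfl fun n _ => ?_
    unfold mu
    by_cases q1 : n ≡ b [MOD W] <;> by_cases q2 : (n + j).Prime <;> by_cases q3 : (n + (j + g)).Prime <;>
      simp [q1, q2, q3]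
  have hlast : ∑ g ∈ G, ∑ _j ∈ Sv.filter (fun j => j + g ∈ Sv), C * (Real.log z) ^ 2 / ((W : ℝ) * s) =
      C * (Real.log z) ^ 2 / ((W : ℝ) * s) * ∑ g ∈ G, ((Sv.filter (fun j => j + g ∈ Sv)).card : ℝ) := by
    rw [Finset.mul_sum]
    refine Finset.sum_congr rfl fun g _ => ?_
    rw [Finset.sum_const, nsmul_eq_mul, mul_comm]
  rw [← hlast]
  exact hsum.trans hfin

end Pool.Agent.Lib.SG
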