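import Pool.Agent.Lib.SG.SpecB

/-!
MP_9a4459_nt, auxiliary lemmas for the modules Apr, Zon, Ppa.
-/

namespace Pool.Agent.Lib.SG

open Finset Pool.Agent.Lib.BV

/-- the parameter y -/
lemma Sv_par (E : ℕ) (M : ℝ) : ∃ L0 : ℝ, 16 ≤ L0 ∧ ∀ L : ℝ, L0 ≤ L →
    M ≤ (⌊L ^ (1 / (4 * (E : ℝ) + 4))⌋₊ : ℝ) ∧
    L ^ (1 / (8 * (E : ℝ) + 8)) ≤ (⌊L ^ (1 / (4 * (E : ℝ) + 4))⌋₊ : ℝ) ∧
    ((⌊L ^ (1 / (4 * (E : ℝ) + 4))⌋₊ : ℝ)) ^ E ≤ L ^ ((1 : ℝ) / 4) ∧
    (⌊L ^ (1 / (4 * (E : ℝ) + 4))⌋₊ : ℝ) ≤ L ^ ((1 : ℝ) / 4) ∧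
    Real.log L / (8 * (E : ℝ) + 8) ≤ Real.log (⌊L ^ (1 / (4 * (E : ℝ) + 4))⌋₊ : ℝ) := by
  have hE : (0 : ℝ) ≤ E := Nat.cast_nonneg _
  set a : ℝ := 1 / (8 * (E : ℝ) + 8) with ha
  have ha0 : 0 < a := by rw [ha]; positivity
  have h1 : ∀ᶠ x : ℝ in Filter.atTop, max M 2 ≤ x ^ a :=
    (tendsto_rpow_atTop ha0).eventually_ge_atTop _
  obtain ⟨L0, hL0⟩ := Filter.eventually_atTop.1 h1
  refine ⟨max L0 16, le_max_right _ _, fun L hL => ?_⟩
  have hL16 : 16 ≤ L := (le_max_right _ _).trans hL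
  have hLp : 0 < L := by linarith
  have h2 := hL0 L ((le_max_left _ _).trans hL)
  have h3 : M ≤ L ^ a := (le_max_left _ _).trans h2
  have h4 : 2 ≤ L ^ a := (le_max_right _ _).trans h2
  set b : ℝ := 1 / (4 * (E : ℝ) + 4) with hb
  have hb2 : b = a + a := by
    rw [hb, ha]
    field_simp
    ring
  have h5 : L ^ b = L ^ a * L ^ a := by rw [hb2, Real.rpow_add hLp]
  set y : ℕ := ⌊L ^ b⌋₊ with hy
  have h6 : L ^ b < y + 1 := Nat.lt_floor_add_one _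
  have h7 : (y : ℝ) ≤ L ^ b := Nat.floor_le (Real.rpow_nonneg hLp.le _)
  have h8 : 2 * L ^ a ≤ L ^ a * L ^ a := mul_le_mul_of_nonneg_right h4 (by linarith)
  have h9 : L ^ a ≤ y := by linarith
  have hb4 : b ≤ 1 / 4 := by
    rw [hb]
    exact one_div_le_one_div_of_le (by norm_num) (by linarith)
  refine ⟨h3.trans h9, h9, ?_, ?_, ?_⟩
  · calc (y : ℝ) ^ E ≤ (L ^ b) ^ E := pow_le_pow_left₀ (Nat.cast_nonneg _) h7 E
      _ = L ^ (b * (E : ℕ)) := by rw [Real.rpow_mul hLp.le, Real.rpow_natCast]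
      _ ≤ L ^ ((1 : ℝ) / 4) := by
        apply Real.rpow_le_rpow_of_exponent_le (by linarith)
        rw [hb, one_div, inv_mul_le_iff₀ (by linarith)]
        linarith
  · refine h7.trans (Real.rpow_le_rpow_of_exponent_le (by linarith) hb4)
  · have h10 := Real.log_le_log (by linarith) h9
    rw [Real.log_rpow hLp] at h10
    have h11 : Real.log L / (8 * (E : ℝ) + 8) = a * Real.log L := by
      rw [ha]
      ring
    rw [h11]
    exact h10

/-- removing e costs at most a factor 2 -/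
lemma Sv_smp (p0 p1 e : ℕ) :
    ∏ p ∈ smp p0 p1 e, (1 - 1 / (p : ℝ)) ≤ 2 * VV p0 p1 := by
  classical
  unfold VV
  have hf : ∀ p ∈ (Ioc p0 p1).filter Nat.Prime, (1 : ℝ) / 2 ≤ 1 - 1 / (p : ℝ) ∧ 1 - 1 / (p : ℝ) ≤ 1 := by
    intro p hp
    rw [Finset.mem_filter, Finset.mem_Ioc] at hp
    have h1 : (2 : ℝ) ≤ p := by exact_mod_cast hp.2.two_le
    have h2 : 1 / (p : ℝ) ≤ 1 / 2 := one_div_le_one_div_of_le (by norm_num) h1
    have h3 : 0 < 1 / (p : ℝ) := by positivity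
    constructor <;> linarith
  have hs : smp p0 p1 e = ((Ioc p0 p1).filter Nat.Prime).erase e := by
    unfold smp
    ext p
    simp only [Finset.mem_filter, Finset.mem_erase]
    tauto
  rw [hs]
  by_cases he : e ∈ (Ioc p0 p1).filter Nat.Prime
  · rw [← Finset.mul_prod_erase _ _ he]
    have h1 : 0 ≤ ∏ p ∈ ((Ioc p0 p1).filter Nat.Prime).erase e, (1 - 1 / (p : ℝ)) :=
      Finset.prod_nonneg fun p hp => by linarith [(hf p (Finset.mem_of_mem_erase hp)).1]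
    have h2 := mul_le_mul_of_nonneg_right (hf e he).1 h1
    linarith
  · rw [Finset.erase_eq_of_notMem he]
    have h1 : 0 ≤ ∏ p ∈ (Ioc p0 p1).filter Nat.Prime, (1 - 1 / (p : ℝ)) :=
      Finset.prod_nonneg fun p hp => by linarith [(hf p hp).1]
    linarith

lemma Sv_smp_nonneg (p0 p1 e : ℕ) : 0 ≤ ∏ p ∈ smp p0 p1 e, (1 - 1 / (p : ℝ)) := by
  apply Finset.prod_nonneg
  intro p hp
  unfold smp at hp
  rw [Finset.mem_filter, Finset.mem_Ioc] at hp
  have h1 : (2 : ℝ) ≤ p := by exact_mod_cast hp.2.1.two_le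
  have h2 : 1 / (p : ℝ) ≤ 1 / 2 := one_div_le_one_div_of_le (by norm_num) h1
  linarith

lemma Sv_VV_nonneg (p0 p1 : ℕ) : 0 ≤ VV p0 p1 := by
  unfold VV
  apply Finset.prod_nonneg
  intro p hp
  rw [Finset.mem_filter, Finset.mem_Ioc] at hp
  have h1 : (2 : ℝ) ≤ p := by exact_mod_cast hp.2.two_le
  have h2 : 1 / (p : ℝ) ≤ 1 / 2 := one_div_le_one_div_of_le (by norm_num) h1
  linarith

lemma Sv_sub (ps y p0 p1 e : ℕ) (h0 : ps ≤ p0) (h1 : p1 ≤ y) :
    smp p0 p1 e ⊆ (Ioc ps y).filter Nat.Prime := by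
  intro p hp
  unfold smp at hp
  rw [Finset.mem_filter, Finset.mem_Ioc] at hp ⊢
  exact ⟨⟨by omega, by omega⟩, hp.2.1⟩

lemma Sv_split (T S : Finset ℕ) (hS : S ⊆ T) (f : ℕ → ℝ) :
    ∏ p ∈ T, (if p ∈ S then f p else 1) = ∏ p ∈ S, f p := by
  classical
  rw [← Finset.prod_filter]
  congr 1
  ext p
  rw [Finset.mem_filter]
  exact ⟨fun h => h.2, fun h => ⟨hS h, h⟩⟩

/-- the primes ≤ y number at most y -/
lemma Sv_small (N N2 y : ℕ) (P : ℕ → Prop) [DecidablePred P] :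
    (((Ioc N N2).filter P).card : ℝ) ≤
      (((Ioc N N2).filter (fun j => y < j ∧ P j)).card : ℝ) + y := by
  classical
  have h1 : (Ioc N N2).filter P ⊆ (Ioc N N2).filter (fun j => y < j ∧ P j) ∪ Ioc 0 y := by
    intro j hj
    rw [Finset.mem_filter, Finset.mem_Ioc] at hj
    rw [Finset.mem_union, Finset.mem_filter, Finset.mem_Ioc, Finset.mem_Ioc]
    by_cases h : y < j
    · exact Or.inl ⟨hj.1, h, hj.2⟩
    · exact Or.inr ⟨by omega, by omega⟩
  have h2 := (Finset.card_le_card h1).trans (Finset.card_union_le _ _)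
  rw [Nat.card_Ioc, Nat.sub_zero] at h2
  exact_mod_cast h2

lemma Ppa_map (W b N : ℕ) (hW : 1 ≤ W) (hWN : W ≤ N) (P : ℕ → Prop) [DecidablePred P] :
    (((Ioc N (2 * N)).filter (fun n => n ≡ b [MOD W] ∧ P n)).card : ℝ) ≤
      (((Ioc (N / W - 1) (2 * N / W)).filter (fun m => N < W * m + b % W ∧ P (W * m + b % W))).card : ℝ) := by
  have h : ((Ioc N (2 * N)).filter (fun n => n ≡ b [MOD W] ∧ P n)).card ≤
      ((Ioc (N / W - 1) (2 * N / W)).filter (fun m => N < W * m + b % W ∧ P (W * m + b % W))).card := by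
    apply Finset.card_le_card_of_injOn (fun n => n / W)
    · intro n hn
      simp only [Finset.coe_filter, Finset.mem_Ioc, Set.mem_ofPred_eq] at hn ⊢
      obtain ⟨⟨h1, h2⟩, h3, h4⟩ := hn
      have h5 : W * (n / W) + b % W = n := by
        have h6 : n % W = b % W := h3
        rw [← h6]
        exact Nat.div_add_mod n W
      have h7 : 1 ≤ N / W := (Nat.one_le_div_iff (by omega)).2 hWN
      have h8 : N / W ≤ n / W := Nat.div_le_div_right h1.le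
      have h9 : n / W ≤ 2 * N / W := Nat.div_le_div_right h2
      refine ⟨⟨by omega, h9⟩, ?_⟩
      rw [h5]
      exact ⟨h1, h4⟩
    · intro n hn n' hn' hnn
      simp only [Finset.coe_filter, Finset.mem_Ioc, Set.mem_ofPred_eq] at hn hn'
      simp only at hnn
      have h5 : n % W = n' % W := hn.2.1.trans hn'.2.1.symm
      have e1 := Nat.div_add_mod n W
      have e2 := Nat.div_add_mod n' W
      rw [hnn, h5] at e1
      omega
  exact_mod_cast h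

lemma Ppa_len (W N : ℕ) (hW : 1 ≤ W) (hWN : W ≤ N) :
    N / W - 1 ≤ 2 * N / W ∧ ((2 * N / W : ℕ) : ℝ) - ((N / W - 1 : ℕ) : ℝ) ≤ 3 * ((N : ℝ) / W) := by
  have h7 : 1 ≤ N / W := (Nat.one_le_div_iff (by omega)).2 hWN
  have h8 : N / W ≤ 2 * N / W := Nat.div_le_div_right (by omega)
  refine ⟨by omega, ?_⟩
  have hW0 : (0 : ℝ) < W := by exact_mod_cast hW
  rw [Nat.cast_sub h7, Nat.cast_one]
  have e1 : ((2 * N / W : ℕ) : ℝ) ≤ 2 * N / W := by
    have := @Nat.cast_div_le ℝ _ _ _ (2 * N) W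
    push_cast at this
    exact this
  have e2 : (N : ℝ) / W < ((N / W : ℕ) : ℝ) + 1 := by
    rw [div_lt_iff₀ hW0]
    have h9 : N < (N / W + 1) * W := by
      have := Nat.lt_div_mul_add (a := N) (b := W) (by omega)
      rw [add_mul, one_mul]
      exact this
    exact_mod_cast h9
  have e3 : (1 : ℝ) ≤ (N : ℝ) / W := by
    rw [one_le_div hW0]
    exact_mod_cast hWN
  have e4 : (2 : ℝ) * N / W = 2 * ((N : ℝ) / W) := by ring
  rw [e4] at e1
  linarith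

end Pool.Agent.Lib.SG
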