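import Pool.Agent.Lib.SG.SpecB
import Pool.Agent.Lib.SG.Sv2

/-!
MP_9a4459_nt, module Apr: upper bound for the pairs of primes at distance g with conditions modulo the primes
of smp.
-/

namespace Pool.Agent.Lib.SG

open Finset Pool.Agent.Lib.BV

/-- the class of -g mod p -/
private def aneg (p g : ℕ) : ℕ := if g % p = 0 then 0 else p - g % p

/-- the class of 2 - g mod p -/
private def atwo (p g : ℕ) : ℕ := if g % p ≤ 2 then 2 - g % p else p + 2 - g % p

private noncomputable def RA (S : Finset ℕ) (g p : ℕ) : Finset ℕ :=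
  if p ∈ S then {0, aneg p g, 2, atwo p g} else {0, aneg p g}

private lemma RA_sub (S : Finset ℕ) (g p : ℕ) (hp : 16 ≤ p) : RA S g p ⊆ range p ∧ (RA S g p).card ≤ 4 := by
  have hr : g % p < p := Nat.mod_lt _ (by omega)
  have h1 : aneg p g < p := by
    unfold aneg
    split_ifs <;> omega
  have h2 : atwo p g < p := by
    unfold atwo
    split_ifs <;> omega
  unfold RA
  constructor
  · intro c hc
    rw [Finset.mem_range]
    split_ifs at hc
    · simp only [Finset.mem_insert, Finset.mem_singleton] at hc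
      omega
    · simp only [Finset.mem_insert, Finset.mem_singleton] at hc
      omega
  · split_ifs
    · exact Finset.card_le_four
    · exact (Finset.card_le_two).trans (by norm_num)

private lemma RA_not (S : Finset ℕ) (g p y j : ℕ) (hp : p.Prime) (hp16 : 16 ≤ p) (hpy : p ≤ y) (hj : y < j)
    (hj1 : j.Prime) (hj2 : (j + g).Prime) (hS : p ∈ S → ¬ p ∣ j - 2 ∧ ¬ p ∣ j + g - 2) :
    j % p ∉ RA S g p := by
  have hr : g % p < p := Nat.mod_lt _ (by omega)
  have hs : j % p < p := Nat.mod_lt _ (by omega)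
  have e1 := Nat.div_add_mod j p
  have e2 := Nat.div_add_mod g p
  have c1 : j % p ≠ 0 := by
    intro h
    have := (Nat.prime_dvd_prime_iff_eq hp hj1).1 (Nat.dvd_of_mod_eq_zero h)
    omega
  have c2 : j % p ≠ aneg p g := by
    intro h
    have h3 : p ∣ j + g := by
      unfold aneg at h
      split_ifs at h with h4
      · exact absurd h c1
      · refine ⟨j / p + g / p + 1, ?_⟩
        rw [mul_add, mul_add, mul_one]
        omega
    have := (Nat.prime_dvd_prime_iff_eq hp hj2).1 h3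
    omega
  intro hc
  unfold RA at hc
  split_ifs at hc with hm
  · simp only [Finset.mem_insert, Finset.mem_singleton] at hc
    obtain ⟨d1, d2⟩ := hS hm
    rcases hc with h | h | h | h
    · exact c1 h
    · exact c2 h
    · exact d1 ⟨j / p, by omega⟩
    · apply d2
      unfold atwo at h
      split_ifs at h with h4
      · refine ⟨j / p + g / p, ?_⟩
        rw [mul_add]
        omega
      · refine ⟨j / p + g / p + 1, ?_⟩
        rw [mul_add, mul_add, mul_one]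
        omega
  · simp only [Finset.mem_insert, Finset.mem_singleton] at hc
    rcases hc with h | h
    · exact c1 h
    · exact c2 h

private lemma Apr_one_le (S : Finset ℕ) (f : ℕ → ℝ) (hf : ∀ p, 1 ≤ f p) : 1 ≤ ∏ p ∈ S, f p := by
  calc (1 : ℝ) = ∏ _p ∈ S, (1 : ℝ) := by rw [Finset.prod_const_one]
    _ ≤ ∏ p ∈ S, f p := Finset.prod_le_prod (fun _ _ => zero_le_one) (fun p _ => hf p)

/-- the number of the classes -/
private lemma RA_card (S : Finset ℕ) (g p : ℕ) (hp16 : 16 ≤ p) (hg : 3 ≤ g) :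
    (p ∉ S → 1 ≤ (RA S g p).card) ∧ (p ∈ S → 2 ≤ (RA S g p).card) ∧
    (¬ p ∣ g * (g - 2) * (g + 2) → (p ∉ S → 2 ≤ (RA S g p).card) ∧ (p ∈ S → 4 ≤ (RA S g p).card)) := by
  have hr : g % p < p := Nat.mod_lt _ (by omega)
  have e2 := Nat.div_add_mod g p
  refine ⟨?_, ?_, ?_⟩
  · intro h
    unfold RA
    rw [if_neg h]
    exact Finset.card_pos.2 ⟨0, by simp⟩
  · intro h
    unfold RA
    rw [if_pos h]
    have h1 : ({0, 2} : Finset ℕ) ⊆ {0, aneg p g, 2, atwo p g} := by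
      intro c hc
      simp only [Finset.mem_insert, Finset.mem_singleton] at hc ⊢
      tauto
    have h2 := Finset.card_le_card h1
    rw [Finset.card_pair (by norm_num)] at h2
    exact h2
  · intro hG
    have g0 : g % p ≠ 0 := by
      intro h
      exact hG (((Nat.dvd_of_mod_eq_zero h).mul_right _).mul_right _)
    have g1 : g % p ≠ 2 := by
      intro h
      apply hG
      have h3 : p ∣ g - 2 := ⟨g / p, by omega⟩
      exact (h3.mul_left _).mul_right _
    have g2 : g % p ≠ p - 2 := by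
      intro h
      apply hG
      have h3 : p ∣ g + 2 := by
        refine ⟨g / p + 1, ?_⟩
        rw [mul_add, mul_one]
        omega
      exact h3.mul_left _
    constructor
    · intro h
      unfold RA
      rw [if_neg h, Finset.card_pair]
      unfold aneg
      rw [if_neg g0]
      omega
    · intro h
      unfold RA
      rw [if_pos h]
      have a1 : aneg p g = p - g % p := by
        unfold aneg
        rw [if_neg g0]
      have b1 : (2 : ℕ) ∉ ({atwo p g} : Finset ℕ) := by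
        rw [Finset.mem_singleton]
        unfold atwo
        split_ifs <;> omega
      have b2 : aneg p g ∉ ({2, atwo p g} : Finset ℕ) := by
        simp only [Finset.mem_insert, Finset.mem_singleton]
        rw [a1]
        unfold atwo
        split_ifs <;> omega
      have b3 : (0 : ℕ) ∉ ({aneg p g, 2, atwo p g} : Finset ℕ) := by
        intro hc
        rw [Finset.mem_insert, Finset.mem_insert, Finset.mem_singleton, a1] at hc
        unfold atwo at hc
        rcases hc with hc | hc | hc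
        · omega
        · omega
        · split_ifs at hc <;> omega
      rw [Finset.card_insert_of_notMem b3, Finset.card_insert_of_notMem b2,
        Finset.card_insert_of_notMem b1, Finset.card_singleton]

/-- the factor of one prime -/
private lemma RA_fac (S : Finset ℕ) (g p : ℕ) (hp16 : 16 ≤ p) (hg : 3 ≤ g) :
    1 - ((RA S g p).card : ℝ) / p ≤ (1 - 1 / (p : ℝ)) ^ 2 *
      ((if p ∈ S then (1 - 1 / (p : ℝ)) ^ 2 else 1) *
      (if p ∣ g * (g - 2) * (g + 2) then (1 + 1 / (p : ℝ)) ^ 4 else 1)) := by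
  obtain ⟨h1, h2, h3⟩ := RA_card S g p hp16 hg
  have hpR : (16 : ℝ) ≤ p := by exact_mod_cast hp16
  have hp0 : (0 : ℝ) < p := by linarith
  set x : ℝ := 1 / (p : ℝ) with hx
  have hx0 : 0 < x := by rw [hx]; positivity
  have hx1 : x ≤ 1 / 16 := by rw [hx]; exact one_div_le_one_div_of_le (by norm_num) hpR
  have hc : ((RA S g p).card : ℝ) / p = ((RA S g p).card : ℝ) * x := by rw [hx]; ring
  rw [hc]
  have hlow : ∀ k : ℕ, k ≤ (RA S g p).card → 1 - ((RA S g p).card : ℝ) * x ≤ 1 - k * x := by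
    intro k hk
    have hk' : (k : ℝ) ≤ ((RA S g p).card : ℝ) := by exact_mod_cast hk
    have := mul_le_mul_of_nonneg_right hk' hx0.le
    linarith
  have hx2 : x ^ 2 ≤ 1 / 16 * x := by
    rw [sq]
    exact mul_le_mul_of_nonneg_right hx1 hx0.le
  have hx3 : 0 ≤ x ^ 3 := by positivity
  have hx4 : 0 ≤ x ^ 4 := by positivity
  have hx2' : 0 ≤ x ^ 2 := by positivity
  have hb4 : 1 + 4 * x ≤ (1 + x) ^ 4 := by
    have e : (1 + x) ^ 4 = 1 + 4 * x + 6 * x ^ 2 + 4 * x ^ 3 + x ^ 4 := by ring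
    rw [e]
    linarith
  by_cases hS : p ∈ S
  · rw [if_pos hS]
    by_cases hG : p ∣ g * (g - 2) * (g + 2)
    · rw [if_pos hG]
      refine (hlow 2 (h2 hS)).trans ?_
      have e : (1 - x) ^ 2 * ((1 - x) ^ 2 * (1 + x) ^ 4) = (1 - x ^ 2) ^ 4 := by ring
      rw [e]
      have hb := one_add_mul_le_pow (show (-2 : ℝ) ≤ -x ^ 2 by linarith) 4
      have e2 : (1 + -x ^ 2) = 1 - x ^ 2 := by ring
      rw [e2] at hb
      push_cast at hb ⊢
      linarith
    · rw [if_neg hG, mul_one]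
      refine (hlow 4 ((h3 hG).2 hS)).trans ?_
      have hb := one_add_mul_le_pow (show (-2 : ℝ) ≤ -x by linarith) 4
      have e2 : (1 + -x) ^ 4 = (1 - x) ^ 2 * (1 - x) ^ 2 := by ring
      rw [e2] at hb
      push_cast at hb ⊢
      linarith
  · rw [if_neg hS, one_mul]
    by_cases hG : p ∣ g * (g - 2) * (g + 2)
    · rw [if_pos hG]
      refine (hlow 1 (h1 hS)).trans ?_
      have e : 1 - x ≤ (1 - x) * ((1 - x) * (1 + 4 * x)) := by
        have e1 : (1 : ℝ) ≤ (1 - x) * (1 + 4 * x) := by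
          have e3 : (1 - x) * (1 + 4 * x) = 1 + 3 * x - 4 * x ^ 2 := by ring
          rw [e3]
          linarith
        have := mul_le_mul_of_nonneg_left e1 (by linarith : 0 ≤ 1 - x)
        linarith
      push_cast
      rw [one_mul]
      refine e.trans ?_
      have e4 : (1 - x) * ((1 - x) * (1 + 4 * x)) = (1 - x) ^ 2 * (1 + 4 * x) := by ring
      rw [e4]
      exact mul_le_mul_of_nonneg_left hb4 (sq_nonneg _)
    · rw [if_neg hG, mul_one]
      refine (hlow 2 ((h3 hG).1 hS)).trans ?_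
      push_cast
      have e : (1 - x) ^ 2 = 1 - 2 * x + x ^ 2 := by ring
      rw [e]
      linarith

private lemma RA_prod (ps y p0 p1 e g : ℕ) (hps : 16 ≤ ps) (h0 : ps ≤ p0) (h1 : p1 ≤ y) (hg : 3 ≤ g) :
    ∏ p ∈ (Ioc ps y).filter Nat.Prime, (1 - ((RA (smp p0 p1 e) g p).card : ℝ) / p) ≤
      (VV ps y) ^ 2 * ((2 * VV p0 p1) ^ 2 * Sg g) := by
  set T : Finset ℕ := (Ioc ps y).filter Nat.Prime with hT
  set S := smp p0 p1 e with hS
  have hTm : ∀ p ∈ T, p.Prime ∧ 16 ≤ p := by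
    intro p hp
    rw [hT, Finset.mem_filter, Finset.mem_Ioc] at hp
    exact ⟨hp.2, by omega⟩
  have hG0 : g * (g - 2) * (g + 2) ≠ 0 := by
    have : g - 2 ≠ 0 := by omega
    have : g ≠ 0 := by omega
    positivity
  have e1 : ∏ p ∈ T, (1 - ((RA S g p).card : ℝ) / p) ≤
      ∏ p ∈ T, ((1 - 1 / (p : ℝ)) ^ 2 *
      ((if p ∈ S then (1 - 1 / (p : ℝ)) ^ 2 else 1) *
      (if p ∣ g * (g - 2) * (g + 2) then (1 + 1 / (p : ℝ)) ^ 4 else 1))) := by
    apply Finset.prod_le_prod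
    · intro p hp
      obtain ⟨a1, a2⟩ := hTm p hp
      have a3 : (16 : ℝ) ≤ p := by exact_mod_cast a2
      have a4 : ((RA S g p).card : ℝ) ≤ 4 := by exact_mod_cast (RA_sub S g p a2).2
      have a5 : ((RA S g p).card : ℝ) / p ≤ 1 := by
        rw [div_le_one (by linarith)]
        linarith
      linarith
    · intro p hp
      obtain ⟨a1, a2⟩ := hTm p hp
      exact RA_fac S g p a2 hg
  refine e1.trans ?_
  rw [Finset.prod_mul_distrib, Finset.prod_mul_distrib, Finset.prod_pow]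
  have e2 : ∏ p ∈ T, (if p ∈ S then (1 - 1 / (p : ℝ)) ^ 2 else 1) = (∏ p ∈ S, (1 - 1 / (p : ℝ))) ^ 2 := by
    rw [← Finset.prod_pow]
    exact Sv_split T S (Sv_sub ps y p0 p1 e h0 h1) (fun p => (1 - 1 / (p : ℝ)) ^ 2)
  have e3 : ∏ p ∈ T, (if p ∣ g * (g - 2) * (g + 2) then (1 + 1 / (p : ℝ)) ^ 4 else 1) ≤ Sg g := by
    rw [← Finset.prod_filter]
    unfold Sg
    have hsub : T.filter (fun p => p ∣ g * (g - 2) * (g + 2)) ⊆ (g * (g - 2) * (g + 2)).primeFactors := by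
      intro p hp
      rw [Finset.mem_filter] at hp
      rw [Nat.mem_primeFactors]
      exact ⟨(hTm p hp.1).1, hp.2, hG0⟩
    rw [← Finset.prod_sdiff hsub]
    have q1 : 1 ≤ ∏ p ∈ (g * (g - 2) * (g + 2)).primeFactors \ T.filter
        (fun p => p ∣ g * (g - 2) * (g + 2)), (1 + 1 / (p : ℝ)) ^ 4 := by
      apply Apr_one_le
      intro p
      have : 0 ≤ 1 / (p : ℝ) := by positivity
      exact one_le_pow₀ (by linarith)
    have q2 : 0 ≤ ∏ p ∈ T.filter (fun p => p ∣ g * (g - 2) * (g + 2)), (1 + 1 / (p : ℝ)) ^ 4 :=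
      Finset.prod_nonneg fun p _ => by positivity
    calc _ = 1 * ∏ p ∈ T.filter (fun p => p ∣ g * (g - 2) * (g + 2)), (1 + 1 / (p : ℝ)) ^ 4 := (one_mul _).symm
      _ ≤ _ := mul_le_mul_of_nonneg_right q1 q2
  have e4 : ∏ p ∈ T, (1 - 1 / (p : ℝ)) = VV ps y := rfl
  rw [e2, e4]
  have hSg : 0 ≤ Sg g := Finset.prod_nonneg fun p _ => by positivity
  have e5 : (∏ p ∈ S, (1 - 1 / (p : ℝ))) ^ 2 ≤ (2 * VV p0 p1) ^ 2 :=
    pow_le_pow_left₀ (Sv_smp_nonneg p0 p1 e) (Sv_smp p0 p1 e) 2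
  apply mul_le_mul_of_nonneg_left _ (sq_nonneg _)
  apply mul_le_mul e5 e3 _ (sq_nonneg _)
  apply Finset.prod_nonneg
  intro p _
  split_ifs
  · positivity
  · exact zero_le_one

private lemma Apr_ev (c0 : ℝ) (hc0 : 0 < c0) : ∃ L0 : ℝ, 16 ≤ L0 ∧ ∀ x : ℝ, L0 ≤ x →
    2 * x ^ ((1 : ℝ) / 4) * (Real.log x) ^ 4 ≤ x * c0 ^ 2 := by
  have a1 := (isLittleO_log_rpow_atTop (r := 1 / 16) (by norm_num)).bound (c := 1) one_pos
  have a3 : ∀ᶠ x : ℝ in Filter.atTop, 2 / c0 ^ 2 ≤ x ^ ((1 : ℝ) / 2) :=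
    (tendsto_rpow_atTop (by norm_num)).eventually_ge_atTop _
  obtain ⟨L0, hL0⟩ := Filter.eventually_atTop.1 (a1.and a3)
  refine ⟨max L0 16, le_max_right _ _, fun x hx => ?_⟩
  obtain ⟨b1, b3⟩ := hL0 x ((le_max_left _ _).trans hx)
  have hx16 : 16 ≤ x := (le_max_right _ _).trans hx
  have hx0 : 0 < x := by linarith
  have hl0 : 0 ≤ Real.log x := Real.log_nonneg (by linarith)
  rw [Real.norm_of_nonneg hl0, Real.norm_of_nonneg (Real.rpow_nonneg hx0.le _), one_mul] at b1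
  have c1 : (Real.log x) ^ 4 ≤ x ^ ((1 : ℝ) / 4) := by
    calc (Real.log x) ^ 4 ≤ (x ^ ((1 : ℝ) / 16)) ^ 4 := pow_le_pow_left₀ hl0 b1 4
      _ = x ^ ((1 : ℝ) / 16 * (4 : ℕ)) := by rw [Real.rpow_mul hx0.le, Real.rpow_natCast]
      _ = x ^ ((1 : ℝ) / 4) := by norm_num
  rw [div_le_iff₀ (by positivity)] at b3
  have hr : 0 ≤ x ^ ((1 : ℝ) / 4) := Real.rpow_nonneg hx0.le _
  calc 2 * x ^ ((1 : ℝ) / 4) * (Real.log x) ^ 4 ≤ 2 * x ^ ((1 : ℝ) / 4) * x ^ ((1 : ℝ) / 4) :=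
        mul_le_mul_of_nonneg_left c1 (by positivity)
    _ = 2 * x ^ ((1 : ℝ) / 2) := by
        rw [mul_assoc, ← Real.rpow_add hx0]
        norm_num
    _ ≤ x ^ ((1 : ℝ) / 2) * c0 ^ 2 * x ^ ((1 : ℝ) / 2) :=
        mul_le_mul_of_nonneg_right b3 (Real.rpow_nonneg hx0.le _)
    _ = x * c0 ^ 2 := by
        have : x ^ ((1 : ℝ) / 2) * x ^ ((1 : ℝ) / 2) = x := by
          rw [← Real.rpow_add hx0]
          norm_num
        calc x ^ ((1 : ℝ) / 2) * c0 ^ 2 * x ^ ((1 : ℝ) / 2) =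
            (x ^ ((1 : ℝ) / 2) * x ^ ((1 : ℝ) / 2)) * c0 ^ 2 := by ring
          _ = x * c0 ^ 2 := by rw [this]

theorem tApr (h1 : VbdStmt) (h2 : GsvStmt) : AprStmt := by
  classical
  obtain ⟨c0, C0, hc0, hC0, hV⟩ := h1
  obtain ⟨C1, ps, E, hC1, hps, hE, hS⟩ := h2
  have hER : (1 : ℝ) ≤ E := by exact_mod_cast hE
  have hpsR : (16 : ℝ) ≤ ps := by exact_mod_cast hps
  obtain ⟨L1, hL1, hy⟩ := Sv_par E (ps + 1)
  obtain ⟨L2, hL2, hz⟩ := Apr_ev c0 hc0
  have hlps : 0 < Real.log ps := Real.log_pos (by linarith)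
  set K : ℝ := C0 * (Real.log ps * (8 * E + 8)) with hK
  have hKp : 0 < K := by rw [hK]; positivity
  refine ⟨C1 * (4 * K ^ 2) + 1, 1 / (8 * E + 8), ps, max L1 L2, by positivity, by positivity,
    by linarith, ?_⟩
  intro L p0 p1 e g hL hp0 h01 hp1 hg hgL
  obtain ⟨y1, y2, y3, y4, y5⟩ := hy L ((le_max_left _ _).trans hL)
  have hz' := hz L ((le_max_right _ _).trans hL)
  have hLR : (16 : ℝ) ≤ L := hL1.trans ((le_max_left _ _).trans hL)
  have hLp : (0 : ℝ) < L := by linarith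
  set y : ℕ := ⌊(L : ℝ) ^ (1 / (4 * (E : ℝ) + 4))⌋₊ with hydef
  have hp0' : ps ≤ p0 := by exact_mod_cast hp0
  have hp1' : p1 ≤ y := by
    have : (p1 : ℝ) ≤ y := hp1.trans y2
    exact_mod_cast this
  have hpsy : ps ≤ y := by omega
  set T : Finset ℕ := (Ioc ps y).filter Nat.Prime with hT
  have hTm : ∀ p ∈ T, p.Prime ∧ ps < p ∧ p ≤ y := by
    intro p hp
    rw [hT, Finset.mem_filter, Finset.mem_Ioc] at hp
    exact ⟨hp.2, hp.1.1, hp.1.2⟩
  have hmain := hS y T (fun p => RA (smp p0 p1 e) g p) 0 L (Nat.zero_le _) (by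
    intro p hp
    obtain ⟨a1, a2, a3⟩ := hTm p hp
    have := RA_sub (smp p0 p1 e) g p (by omega)
    exact ⟨a1, a2, a3, this.1, this.2⟩)
  have hprod := RA_prod ps y p0 p1 e g hps hp0' hp1' hg
  have hIcc : Icc 1 L = Ioc 0 L := by
    ext k
    simp only [Finset.mem_Icc, Finset.mem_Ioc]
    omega
  rw [hIcc]
  have hcnt : (((Ioc 0 L).filter (fun j => y < j ∧ (j.Prime ∧ (j + g).Prime ∧
      ∀ p ∈ smp p0 p1 e, ¬ p ∣ j - 2 ∧ ¬ p ∣ j + g - 2))).card : ℝ) ≤
      (((Ioc 0 L).filter (fun n => ∀ p ∈ T, n % p ∉ RA (smp p0 p1 e) g p)).card : ℝ) := by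
    have e1 : (Ioc 0 L).filter (fun j => y < j ∧ (j.Prime ∧ (j + g).Prime ∧
        ∀ p ∈ smp p0 p1 e, ¬ p ∣ j - 2 ∧ ¬ p ∣ j + g - 2)) ⊆
        (Ioc 0 L).filter (fun n => ∀ p ∈ T, n % p ∉ RA (smp p0 p1 e) g p) := by
      intro j hj
      rw [Finset.mem_filter] at hj ⊢
      obtain ⟨b1, b2, b3, b4, b5⟩ := hj
      refine ⟨b1, fun p hp => ?_⟩
      obtain ⟨a1, a2, a3⟩ := hTm p hp
      exact RA_not _ g p y j a1 (by omega) a3 b2 b3 b4 (b5 p)
    exact_mod_cast Finset.card_le_card e1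
  have hsm' : (((Ioc 0 L).filter (fun j => j.Prime ∧ (j + g).Prime ∧
      ∀ p ∈ smp p0 p1 e, ¬ p ∣ j - 2 ∧ ¬ p ∣ j + g - 2)).card : ℝ) ≤
      (((Ioc 0 L).filter (fun j => y < j ∧ (j.Prime ∧ (j + g).Prime ∧
      ∀ p ∈ smp p0 p1 e, ¬ p ∣ j - 2 ∧ ¬ p ∣ j + g - 2))).card : ℝ) + y := by
    have hsm := Sv_small 0 L y (fun j => j.Prime ∧ (j + g).Prime ∧
      ∀ p ∈ smp p0 p1 e, ¬ p ∣ j - 2 ∧ ¬ p ∣ j + g - 2)
    convert hsm
  have hlL : 0 < Real.log L := Real.log_pos (by linarith)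
  have hly : 0 < Real.log y := lt_of_lt_of_le (by positivity) y5
  have hVy : VV ps y ≤ K / Real.log L := by
    refine (hV ps y (by omega) hpsy).2.trans ?_
    rw [hK, mul_div_assoc]
    apply mul_le_mul_of_nonneg_left _ hC0.le
    rw [div_le_div_iff₀ hly hlL]
    have q1 := mul_le_mul_of_nonneg_left y5 (by positivity : 0 ≤ Real.log ps * (8 * E + 8))
    have q2 : Real.log ps * (8 * E + 8) * (Real.log L / (8 * (E : ℝ) + 8)) = Real.log ps * Real.log L := by
      field_simp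
    rw [q2] at q1
    exact q1
  have hSg1 : 1 ≤ Sg g := by
    unfold Sg
    apply Apr_one_le
    intro p
    have : 0 ≤ 1 / (p : ℝ) := by positivity
    exact one_le_pow₀ (by linarith)
  have hVV0 := Sv_VV_nonneg p0 p1
  have hbig : C1 * (((L : ℝ) - (0 : ℕ)) * ∏ p ∈ T, (1 - ((RA (smp p0 p1 e) g p).card : ℝ) / p)) ≤
      C1 * (4 * K ^ 2) * (L * (VV p0 p1 / Real.log L) ^ 2 * Sg g) := by
    have q0 : (VV ps y) ^ 2 ≤ (K / Real.log L) ^ 2 := pow_le_pow_left₀ (Sv_VV_nonneg _ _) hVy 2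
    have q1 : ∏ p ∈ T, (1 - ((RA (smp p0 p1 e) g p).card : ℝ) / p) ≤
        (K / Real.log L) ^ 2 * ((2 * VV p0 p1) ^ 2 * Sg g) :=
      hprod.trans (mul_le_mul_of_nonneg_right q0 (mul_nonneg (sq_nonneg _) (by linarith)))
    have q2 : ((L : ℝ) - (0 : ℕ)) = L := by push_cast; ring
    rw [q2]
    calc C1 * ((L : ℝ) * ∏ p ∈ T, (1 - ((RA (smp p0 p1 e) g p).card : ℝ) / p)) ≤
        C1 * ((L : ℝ) * ((K / Real.log L) ^ 2 * ((2 * VV p0 p1) ^ 2 * Sg g))) :=
          mul_le_mul_of_nonneg_left (mul_le_mul_of_nonneg_left q1 hLp.le) (by linarith)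
      _ = _ := by ring
  have hp1L : (p1 : ℝ) ≤ L := by
    refine hp1.trans ?_
    calc (L : ℝ) ^ (1 / (8 * (E : ℝ) + 8)) ≤ (L : ℝ) ^ (1 : ℝ) := by
          apply Real.rpow_le_rpow_of_exponent_le (by linarith)
          rw [div_le_one (by linarith)]
          linarith
      _ = L := Real.rpow_one _
  have hVlow : c0 / Real.log L ≤ VV p0 p1 := by
    refine le_trans ?_ (hV p0 p1 (by omega) h01).1
    rw [div_eq_mul_one_div]
    apply mul_le_mul_of_nonneg_left _ hc0.le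
    have hp0R : (16 : ℝ) ≤ p0 := hpsR.trans hp0
    have h01R : (p0 : ℝ) ≤ p1 := by exact_mod_cast h01
    have hlp1 : Real.log p1 ≤ Real.log L := Real.log_le_log (by linarith) hp1L
    have hlp0 : 1 ≤ Real.log p0 := by
      rw [Real.le_log_iff_exp_le (by linarith)]
      have := Real.exp_one_lt_d9
      linarith
    have hlp1' : 0 < Real.log p1 := Real.log_pos (by linarith)
    rw [div_le_div_iff₀ hlL hlp1']
    exact mul_le_mul hlp0 hlp1 hlp1'.le (by linarith)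
  have hsmall : 2 * (L : ℝ) ^ ((1 : ℝ) / 4) ≤ L * (VV p0 p1 / Real.log L) ^ 2 * Sg g := by
    have q1 : (c0 / Real.log L / Real.log L) ^ 2 ≤ (VV p0 p1 / Real.log L) ^ 2 :=
      pow_le_pow_left₀ (by positivity) (div_le_div_of_nonneg_right hVlow hlL.le) 2
    have q2 : 2 * (L : ℝ) ^ ((1 : ℝ) / 4) ≤ L * (c0 / Real.log L / Real.log L) ^ 2 := by
      have q3 : (L : ℝ) * (c0 / Real.log L / Real.log L) ^ 2 = L * c0 ^ 2 / (Real.log L) ^ 4 := by
        field_simp
      rw [q3, le_div_iff₀ (pow_pos hlL 4)]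
      exact hz'
    have q4 : (L : ℝ) * (c0 / Real.log L / Real.log L) ^ 2 ≤ L * (VV p0 p1 / Real.log L) ^ 2 :=
      mul_le_mul_of_nonneg_left q1 hLp.le
    have q5 : L * (VV p0 p1 / Real.log L) ^ 2 * 1 ≤ L * (VV p0 p1 / Real.log L) ^ 2 * Sg g :=
      mul_le_mul_of_nonneg_left hSg1 (mul_nonneg hLp.le (sq_nonneg _))
    linarith
  have hring : (C1 * (4 * K ^ 2) + 1) * (L * (VV p0 p1 / Real.log L) ^ 2 * Sg g) =
      C1 * (4 * K ^ 2) * (L * (VV p0 p1 / Real.log L) ^ 2 * Sg g) +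
      L * (VV p0 p1 / Real.log L) ^ 2 * Sg g := by ring
  rw [hring]
  linarith

end Pool.Agent.Lib.SG
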