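import Pool.Agent.Lib.SG.SpecA

namespace Pool.Agent.Lib.SG

open Finset Pool.Agent.Lib.BV

private lemma Cdf_rr_nonneg (z n : ℕ) : 0 ≤ rr z n := by
  unfold rr
  split_ifs <;> norm_num

private lemma Cdf_rr_mono (z D n : ℕ) (h : z ≤ D) : rr D n ≤ rr z n := by
  unfold rr
  by_cases h1 : Rough D n
  · have h2 : Rough z n := fun p hp hpn => lt_of_le_of_lt h (h1 p hp hpn)
    rw [if_pos h1, if_pos h2]
  · rw [if_neg h1]
    split_ifs <;> norm_num

private lemma Cdf_rr_zero (D n : ℕ) (h1 : 1 < n) (h2 : n ≤ D) : rr D n = 0 := by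
  unfold rr
  rw [if_neg]
  intro h
  have h3 := h n.minFac (Nat.minFac_prime (by omega)) (Nat.minFac_dvd n)
  have h4 := Nat.minFac_le (by omega : 0 < n)
  omega

private lemma Cdf_split (q D a a' N : ℕ) :
    ∑ n ∈ Icc 1 N, (if n = 1 then 0 else rr D n *
        ((if n ≡ a [MOD q] then (1 : ℝ) else 0) - (if n ≡ a' [MOD q] then 1 else 0))) =
      ∑ n ∈ (Ioc 1 N).filter (fun n => n ≡ a [MOD q]), rr D n -
      ∑ n ∈ (Ioc 1 N).filter (fun n => n ≡ a' [MOD q]), rr D n := by
  rw [sum_filter, sum_filter, ← sum_sub_distrib]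
  have hsub : Ioc 1 N ⊆ Icc 1 N := by
    intro n hn
    rw [mem_Ioc] at hn
    rw [mem_Icc]
    omega
  rw [← sum_subset hsub]
  · refine sum_congr rfl fun n hn => ?_
    have hn1 := (mem_Ioc.1 hn).1
    rw [if_neg (by omega : ¬ n = 1)]
    split_ifs <;> ring
  · intro n hn hn'
    have : n = 1 := by
      rw [mem_Icc] at hn
      by_contra h0
      exact hn' (mem_Ioc.2 ⟨by omega, by omega⟩)
    rw [if_pos this]

theorem tCdf (h1 : FlStmt) (h2 : UbStmt) : CdfStmt := by
  obtain ⟨C1, hC1, hFl⟩ := h1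
  obtain ⟨C2, hC2, hUb⟩ := h2
  refine ⟨3 * (64 * C2 + 1) + (3 * C1 + 1), 2 ^ 64, by positivity, by norm_num,
    fun q D a a' N hq hD hqD ha ha' => ?_⟩
  set φ : ℝ := (q.totient : ℝ) with hφ
  have hφ0 : 0 < φ := by
    rw [hφ]
    exact_mod_cast Nat.totient_pos.2 hq
  have hD0 : (0 : ℝ) < D := lt_of_lt_of_le (by norm_num) hD
  set L : ℝ := Real.log D with hL
  have hL64 : 64 * Real.log 2 ≤ L := by
    have h3 := Real.log_le_log (by norm_num) hD
    rw [Real.log_pow] at h3
    push_cast at h3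
    exact h3
  have hlog2 := Real.log_two_gt_d9
  have hL40 : 40 ≤ L := by linarith
  have hDexp : (D : ℝ) = Real.exp L := (Real.exp_log hD0).symm
  have hLexp : L ≤ Real.exp (L / 4) := by
    have h3 := Real.add_one_le_exp (L / 8)
    have h4 : 8 ≤ Real.exp (L / 8) := by
      have h5 : Real.exp (8 * Real.log 2) ≤ Real.exp (L / 8) := Real.exp_le_exp.2 (by linarith)
      have h6 : Real.exp (8 * Real.log 2) = 2 ^ 8 := by
        rw [show (8 : ℝ) * Real.log 2 = Real.log (2 ^ 8) by rw [Real.log_pow]; norm_num,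
          Real.exp_log (by norm_num)]
      rw [h6] at h5
      linarith
    have h5 : Real.exp (L / 4) = Real.exp (L / 8) * Real.exp (L / 8) := by
      rw [← Real.exp_add]
      congr 1
      ring
    rw [h5]
    nlinarith
  have hφexp : φ ≤ Real.exp (L / 4) := by
    have h3 : φ ≤ q := by
      rw [hφ]
      exact_mod_cast Nat.totient_le q
    have h4 : (q : ℝ) ^ 4 ≤ Real.exp (L / 4) ^ 4 := by
      rw [← Real.exp_nat_mul]
      have h5 : ((4 : ℕ) : ℝ) * (L / 4) = L := by push_cast; ring
      rw [h5, ← hDexp]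
      exact_mod_cast hqD
    exact h3.trans ((pow_le_pow_iff_left₀ (Nat.cast_nonneg q) (Real.exp_pos _).le
      (by norm_num)).1 h4)
  have hφL : φ * L ≤ Real.exp (L / 2) := by
    have h3 : Real.exp (L / 2) = Real.exp (L / 4) * Real.exp (L / 4) := by
      rw [← Real.exp_add]
      congr 1
      ring
    rw [h3]
    exact mul_le_mul hφexp hLexp (by linarith) (Real.exp_pos _).le
  have hφL0 : 0 < φ * L := by positivity
  rw [Cdf_split]
  set S : ℕ → ℝ := fun c => ∑ n ∈ (Ioc 1 N).filter (fun n => n ≡ c [MOD q]), rr D n with hS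
  have hS0 : ∀ c, 0 ≤ S c := fun c => sum_nonneg fun n _ => Cdf_rr_nonneg D n
  change |S a - S a'| ≤ _
  rcases le_or_gt N D with hND | hND
  · have hz : ∀ c, S c = 0 := by
      intro c
      refine sum_eq_zero fun n hn => ?_
      have h3 := mem_Ioc.1 (mem_filter.1 hn).1
      exact Cdf_rr_zero D n h3.1 (h3.2.trans hND)
    rw [hz, hz, sub_zero, abs_zero]
    positivity
  have hNr : (D : ℝ) < N := by exact_mod_cast hND
  have hN0 : (0 : ℝ) < N := by linarith
  set ℓ : ℝ := Real.log N with hℓ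
  have hNexp : (N : ℝ) = Real.exp ℓ := (Real.exp_log hN0).symm
  have hLℓ : L ≤ ℓ := Real.log_le_log hD0 hNr.le
  set X : ℝ := (N : ℝ) ^ (1 - 1 / (80 * L)) with hX
  have hXexp : X = Real.exp (ℓ - ℓ / (80 * L)) := by
    rw [hX, Real.rpow_def_of_pos hN0]
    congr 1
    ring
  have hX0 : 0 < X := by rw [hXexp]; exact Real.exp_pos _
  have hgoal : ∀ K : ℝ, K / (φ * L) * X = K * (X / (φ * L)) := fun K => by ring
  have hXφ : 0 < X / (φ * L) := by positivity
  have he3 : Real.exp 1 ≤ 3 := by
    have := Real.exp_one_lt_d9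
    linarith
  rcases lt_or_ge ℓ (80 * L) with hcase | hcase
  · -- middle range
    set x : ℝ := Real.exp (L / 32) with hx
    set z : ℕ := ⌊x⌋₊ with hz
    have hx4 : 4 ≤ x := by
      have h5 : Real.exp (2 * Real.log 2) ≤ x := Real.exp_le_exp.2 (by linarith)
      have h6 : Real.exp (2 * Real.log 2) = 4 := by
        rw [show (2 : ℝ) * Real.log 2 = Real.log (2 ^ 2) by rw [Real.log_pow]; norm_num,
          Real.exp_log (by norm_num)]
        norm_num
      linarith
    have hz2 : 2 ≤ z := Nat.le_floor (by push_cast; linarith)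
    have hzx : (z : ℝ) ≤ x := Nat.floor_le (by linarith)
    have hxz : x < z + 1 := Nat.lt_floor_add_one x
    have hz0 : (0 : ℝ) < z := by linarith
    have hlz : L / 64 ≤ Real.log z := by
      have h5 : x / 2 ≤ z := by linarith
      have h6 : Real.log (x / 2) ≤ Real.log z := Real.log_le_log (by positivity) h5
      rw [Real.log_div (by positivity) (by norm_num), hx, Real.log_exp] at h6
      linarith
    have hz16 : (z : ℝ) ^ 16 ≤ Real.exp (L / 2) := by
      calc (z : ℝ) ^ 16 ≤ x ^ 16 := pow_le_pow_left₀ hz0.le hzx 16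
        _ = Real.exp (L / 2) := by
          rw [hx, ← Real.exp_nat_mul]
          congr 1
          push_cast
          ring
    have hzD : z ≤ D := by
      have h5 : (z : ℝ) ≤ D := by
        rw [hDexp]
        refine hzx.trans (Real.exp_le_exp.2 ?_)
        linarith
      exact_mod_cast h5
    have hb : ∀ c : ℕ, c.Coprime q → S c ≤ (64 * C2 + 1) * (N / (φ * L)) := by
      intro c hc
      have h5 := hUb z q c 0 N hz2 hq hc (Nat.zero_le N)
      have h6 : S c ≤ ∑ n ∈ (Ioc 0 N).filter (fun n => n ≡ c [MOD q]), rr z n := by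
        calc S c ≤ ∑ n ∈ (Ioc 1 N).filter (fun n => n ≡ c [MOD q]), rr z n :=
              sum_le_sum fun n _ => Cdf_rr_mono z D n hzD
          _ ≤ _ := by
              refine sum_le_sum_of_subset_of_nonneg (filter_subset_filter _ ?_)
                fun n _ _ => Cdf_rr_nonneg z n
              exact Ioc_subset_Ioc_left (by norm_num)
      refine h6.trans (h5.trans ?_)
      rw [← hφ, Nat.cast_zero, sub_zero]
      have h7 : (N : ℝ) / (φ * Real.log z) ≤ 64 * (N / (φ * L)) := by
        have h8 : 64 * ((N : ℝ) / (φ * L)) = N / (φ * (L / 64)) := by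
          field_simp
        rw [h8]
        gcongr
      have h8 : Real.exp (L / 2) ≤ N / (φ * L) := by
        rw [le_div_iff₀ hφL0]
        calc Real.exp (L / 2) * (φ * L) ≤ Real.exp (L / 2) * Real.exp (L / 2) := by gcongr
          _ = Real.exp L := by
            rw [← Real.exp_add]
            congr 1
            ring
          _ ≤ N := by rw [← hDexp]; exact hNr.le
      calc C2 * ((N : ℝ) / (φ * Real.log z)) + (z : ℝ) ^ 16 ≤
          C2 * (64 * (N / (φ * L))) + N / (φ * L) := by
            have := hz16.trans h8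
            gcongr
        _ = _ := by ring
    have hNX : (N : ℝ) ≤ 3 * X := by
      rw [hNexp, hXexp]
      have h5 : ℓ / (80 * L) ≤ 1 := by
        rw [div_le_one (by positivity)]
        exact hcase.le
      calc Real.exp ℓ ≤ Real.exp (1 + (ℓ - ℓ / (80 * L))) := Real.exp_le_exp.2 (by linarith)
        _ = Real.exp 1 * Real.exp (ℓ - ℓ / (80 * L)) := Real.exp_add _ _
        _ ≤ _ := by gcongr
    have h5 : |S a - S a'| ≤ (64 * C2 + 1) * (N / (φ * L)) := by
      have h6 := hb a ha
      have h7 := hb a' ha'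
      have h8 := hS0 a
      have h9 := hS0 a'
      rw [abs_le]
      constructor <;> linarith
    rw [hgoal]
    calc |S a - S a'| ≤ (64 * C2 + 1) * (N / (φ * L)) := h5
      _ ≤ (64 * C2 + 1) * (3 * X / (φ * L)) := by gcongr
      _ = 3 * (64 * C2 + 1) * (X / (φ * L)) := by ring
      _ ≤ _ := by
        have : 0 ≤ (3 * C1 + 1) * (X / (φ * L)) := by positivity
        linarith
  · -- large range
    have hL0 : 0 < L := by linarith
    set b : ℕ := ⌊ℓ / L / 40⌋₊ with hb
    have hv : 80 ≤ ℓ / L := by rw [le_div_iff₀ hL0]; exact hcase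
    have hb1 : 1 ≤ b := Nat.le_floor (by push_cast; linarith)
    have hbl : (b : ℝ) ≤ ℓ / L / 40 := Nat.floor_le (by linarith)
    have hbu : ℓ / L / 40 < b + 1 := Nat.lt_floor_add_one _
    have hD2 : 2 ≤ D := by
      have h5 : (2 : ℝ) ≤ D := le_trans (by norm_num) hD
      exact_mod_cast h5
    have hN1 : 1 ≤ N := by omega
    have h5 := hFl D b q a a' 1 N hD2 hb1 hq ha ha' hN1
    have h6 : Real.exp (-(b : ℝ)) ≤ 3 * Real.exp (-(ℓ / (80 * L))) := by
      have h7 : ℓ / (80 * L) = ℓ / L / 80 := by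
        field_simp
      rw [h7]
      calc Real.exp (-(b : ℝ)) ≤ Real.exp (1 + -(ℓ / L / 80)) := by
            refine Real.exp_le_exp.2 ?_
            linarith
        _ = Real.exp 1 * Real.exp (-(ℓ / L / 80)) := Real.exp_add _ _
        _ ≤ _ := by gcongr
    have h7 : (N : ℝ) * Real.exp (-(ℓ / (80 * L))) = X := by
      rw [hNexp, hXexp, ← Real.exp_add]
      congr 1
    have h8 : (D : ℝ) ^ (16 * b) ≤ X / (φ * L) := by
      rw [le_div_iff₀ hφL0, hXexp, hDexp, ← Real.exp_nat_mul]
      calc Real.exp (((16 * b : ℕ) : ℝ) * L) * (φ * L) ≤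
          Real.exp (((16 * b : ℕ) : ℝ) * L) * Real.exp (L / 2) := by gcongr
        _ = Real.exp (((16 * b : ℕ) : ℝ) * L + L / 2) := by rw [← Real.exp_add]
        _ ≤ _ := by
          refine Real.exp_le_exp.2 ?_
          have h9 : (b : ℝ) * L ≤ ℓ / 40 := by
            have h10 := mul_le_mul_of_nonneg_right hbl hL0.le
            have h11 : ℓ / L / 40 * L = ℓ / 40 := by field_simp
            linarith
          have h10 : ℓ / (80 * L) ≤ ℓ / 80 := by
            apply div_le_div_of_nonneg_left (by linarith) (by norm_num)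
            linarith
          push_cast
          have h11 : 16 * (b : ℝ) * L = 16 * ((b : ℝ) * L) := by ring
          rw [h11]
          linarith
    rw [hgoal]
    have h9 : ((N : ℝ) - ((1 : ℕ) : ℝ)) / φ * (Real.exp (-(b : ℝ)) / L) ≤
        3 * (X / (φ * L)) := by
      calc ((N : ℝ) - ((1 : ℕ) : ℝ)) / φ * (Real.exp (-(b : ℝ)) / L) ≤
          (N : ℝ) / φ * ((3 * Real.exp (-(ℓ / (80 * L)))) / L) := by
            have h10 : (N : ℝ) - ((1 : ℕ) : ℝ) ≤ N := by push_cast; linarith
            gcongr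
        _ = 3 * (((N : ℝ) * Real.exp (-(ℓ / (80 * L)))) / (φ * L)) := by
            field_simp
        _ = _ := by rw [h7]
    calc |S a - S a'| ≤ C1 * (((N : ℝ) - ((1 : ℕ) : ℝ)) / φ * (Real.exp (-(b : ℝ)) / L)) +
          (D : ℝ) ^ (16 * b) := h5
      _ ≤ C1 * (3 * (X / (φ * L))) + X / (φ * L) := by gcongr
      _ = (3 * C1 + 1) * (X / (φ * L)) := by ring
      _ ≤ _ := by
        have : 0 ≤ 3 * (64 * C2 + 1) * (X / (φ * L)) := by positivity
        linarith

end Pool.Agent.Lib.SG
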