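import Pool.Agent.Lib.SG.SpecC

/-!
MP_9a4459_nt, module Cls: the survivors are primes or composed of small primes and e.
-/

namespace Pool.Agent.Lib.SG

open Finset Pool.Agent.Lib.BV

theorem tCls : ClsStmt := by
  intro z p0 p1 e L j hj hjL h2L hS
  by_contra hcon
  push Not at hcon
  obtain ⟨hnp, q, hq, hqj, hq1, hqe⟩ := hcon
  obtain ⟨h1, h2, _⟩ := hS
  have hz : z < 2 * q := by
    by_contra h
    exact h2 q hq hq1 (by omega) hqe hqj
  obtain ⟨m, rfl⟩ := hqj
  have hm0 : m ≠ 0 := by
    rintro rfl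
    simp at hj
  have hm1 : m ≠ 1 := by
    rintro rfl
    rw [mul_one] at hnp
    exact hnp hq
  have hp0 : 0 < p0 := by
    rcases Nat.eq_zero_or_pos p0 with h | h
    · subst h
      omega
    · exact h
  have hmp : m < p0 := by
    have e1 : p0 * z < p0 * (2 * q) := Nat.mul_lt_mul_of_pos_left hz hp0
    have e2 : 2 * (q * m) < p0 * (2 * q) := by omega
    have e3 : m * (2 * q) < p0 * (2 * q) := by
      calc m * (2 * q) = 2 * (q * m) := by ring
        _ < p0 * (2 * q) := e2
    exact Nat.lt_of_mul_lt_mul_right e3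
  have hmf := Nat.minFac_prime hm1
  have hml : m.minFac ≤ m := Nat.minFac_le (Nat.pos_of_ne_zero hm0)
  exact h1 m.minFac hmf (by omega) ((Nat.minFac_dvd m).mul_left q)

end Pool.Agent.Lib.SG
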