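import Pool.Agent.Lib.SG.SpecA

/-!
MP_9a4459_nt, directory Lib/SG, module Cnv: multiplicative convolution and classes (helper82).
-/

namespace Pool.Agent.Lib.SG

open Finset Pool.Agent.Lib.BV

private lemma Cnv_conv (P : ℕ × ℕ → ℝ) (hP : ∀ w : ℕ × ℕ, w.1 * w.2 = 0 → P w = 0) (n : ℕ) :
    ∑' (b : (fun p : ℕ × ℕ => p.1 * p.2) ⁻¹' {n}), P b.val = ∑ w ∈ n.divisorsAntidiagonal, P w := by
  rcases eq_or_ne n 0 with rfl | hn
  · have h0 : ∀ b : (fun p : ℕ × ℕ => p.1 * p.2) ⁻¹' {0}, P b.val = 0 := fun b => hP _ b.2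
    simp [h0]
  · rw [show (fun p : ℕ × ℕ => p.1 * p.2) ⁻¹' {n} = n.divisorsAntidiagonal by ext; simp [hn],
      Finset.tsum_subtype' n.divisorsAntidiagonal P]

private lemma Cnv_hasSum (P : ℕ × ℕ → ℝ) (hP : ∀ w : ℕ × ℕ, w.1 * w.2 = 0 → P w = 0)
    (hs : Summable P) :
    HasSum (fun n : ℕ => ∑ w ∈ n.divisorsAntidiagonal, P w) (∑' w, P w) := by
  have h := hs.hasSum.tsum_fiberwise (fun p : ℕ × ℕ => p.1 * p.2)
  simpa only [Cnv_conv P hP] using h

private lemma Cnv_cls (f : ℕ → ℝ) (hf : Summable f) (p : ℕ → Prop) [DecidablePred p] :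
    Summable (fun n => if p n then f n else 0) := by
  refine Summable.of_norm_bounded hf.norm (fun n => ?_)
  split_ifs
  · exact le_rfl
  · rw [norm_zero]
    exact norm_nonneg _

/-- **Cnv.** -/
theorem tCnv : CnvStmt := by
  classical
  intro q _ F H hF hH hF0 hH0 hFc hHc
  have hPs : Summable (fun w : ℕ × ℕ => F w.1 * H w.2) :=
    summable_mul_of_summable_norm hF.norm hH.norm
  have hP0 : ∀ w : ℕ × ℕ, w.1 * w.2 = 0 → F w.1 * H w.2 = 0 := by
    intro w hw
    rcases Nat.mul_eq_zero.1 hw with h | h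
    · rw [h, hF0, zero_mul]
    · rw [h, hH0, mul_zero]
  refine ⟨(Cnv_hasSum _ hP0 hPs).summable, ?_⟩
  intro a
  -- the restricted double sum
  have hA : Summable (fun w : ℕ × ℕ => if ((w.1 * w.2 : ℕ) : ZMod q) = (a : ZMod q) then
      F w.1 * H w.2 else 0) := by
    refine Summable.of_norm_bounded hPs.norm (fun w => ?_)
    split_ifs
    · exact le_rfl
    · rw [norm_zero]
      exact norm_nonneg _
  have hA0 : ∀ w : ℕ × ℕ, w.1 * w.2 = 0 → (if ((w.1 * w.2 : ℕ) : ZMod q) = (a : ZMod q) then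
      F w.1 * H w.2 else 0) = 0 := by
    intro w hw
    rw [hP0 w hw, ite_self]
  have h1 := (Cnv_hasSum _ hA0 hA).tsum_eq
  have h2 : cU q (fun n => ∑ w ∈ n.divisorsAntidiagonal, F w.1 * H w.2) a =
      ∑' n : ℕ, ∑ w ∈ n.divisorsAntidiagonal,
        (if ((w.1 * w.2 : ℕ) : ZMod q) = (a : ZMod q) then F w.1 * H w.2 else 0) := by
    unfold cU
    refine tsum_congr (fun n => ?_)
    have h3 : ∀ w ∈ n.divisorsAntidiagonal,
        (if ((w.1 * w.2 : ℕ) : ZMod q) = (a : ZMod q) then F w.1 * H w.2 else 0) =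
        if (n : ZMod q) = (a : ZMod q) then F w.1 * H w.2 else 0 := by
      intro w hw
      rw [(Nat.mem_divisorsAntidiagonal.1 hw).1]
    rw [sum_congr rfl h3]
    by_cases h : (n : ZMod q) = (a : ZMod q)
    · simp only [if_pos h]
    · simp only [if_neg h, sum_const_zero]
  rw [h2, h1]
  -- the summand as a sum over the units
  have h4 : ∀ w : ℕ × ℕ, (if ((w.1 * w.2 : ℕ) : ZMod q) = (a : ZMod q) then
      F w.1 * H w.2 else 0) = ∑ b : (ZMod q)ˣ,
        (if (w.1 : ZMod q) = (b : ZMod q) then F w.1 else 0) *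
        (if (w.2 : ZMod q) = ((b⁻¹ * a : (ZMod q)ˣ) : ZMod q) then H w.2 else 0) := by
    rintro ⟨m, n⟩
    dsimp only
    by_cases hm : m.Coprime q
    · by_cases hn : n.Coprime q
      · rw [Finset.sum_eq_single (ZMod.unitOfCoprime m hm)]
        · rw [ZMod.coe_unitOfCoprime, if_pos rfl]
          have h5 : ((m * n : ℕ) : ZMod q) = (a : ZMod q) ↔
              (n : ZMod q) = (((ZMod.unitOfCoprime m hm)⁻¹ * a : (ZMod q)ˣ) : ZMod q) := by
            rw [← ZMod.coe_unitOfCoprime n hn, Units.val_inj, eq_inv_mul_iff_mul_eq,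
              ← Units.val_inj, Units.val_mul, ZMod.coe_unitOfCoprime, ZMod.coe_unitOfCoprime,
              Nat.cast_mul]
          by_cases h : ((m * n : ℕ) : ZMod q) = (a : ZMod q)
          · rw [if_pos h, if_pos (h5.1 h)]
          · rw [if_neg h, if_neg (fun h' => h (h5.2 h')), mul_zero]
        · intro b _ hb
          rw [if_neg, zero_mul]
          intro h
          apply hb
          rw [← Units.val_inj, ← h, ZMod.coe_unitOfCoprime]
        · intro h
          exact absurd (mem_univ _) h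
      · rw [hHc n hn, mul_zero, ite_self]
        symm
        apply sum_eq_zero
        intro b _
        rw [ite_self, mul_zero]
    · rw [hFc m hm, zero_mul, ite_self]
      symm
      apply sum_eq_zero
      intro b _
      rw [ite_self, zero_mul]
  rw [tsum_congr h4]
  have h6 : ∀ b : (ZMod q)ˣ, Summable (fun w : ℕ × ℕ =>
      (if (w.1 : ZMod q) = (b : ZMod q) then F w.1 else 0) *
        (if (w.2 : ZMod q) = ((b⁻¹ * a : (ZMod q)ˣ) : ZMod q) then H w.2 else 0)) := by
    intro b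
    exact summable_mul_of_summable_norm
      (f := fun m : ℕ => if (m : ZMod q) = (b : ZMod q) then F m else 0)
      (g := fun n : ℕ => if (n : ZMod q) = ((b⁻¹ * a : (ZMod q)ˣ) : ZMod q) then H n else 0)
      (Cnv_cls F hF _).norm (Cnv_cls H hH _).norm
  rw [Summable.tsum_finsetSum (fun b _ => h6 b)]
  refine sum_congr rfl (fun b _ => ?_)
  unfold cU
  rw [tsum_mul_tsum_of_summable_norm (Cnv_cls F hF _).norm (Cnv_cls H hH _).norm]

end Pool.Agent.Lib.SG
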