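import Pool.Agent.Lib.SG.SpecC

/-!
MP_9a4459_nt, module Cov: the choice of the class b.
-/

namespace Pool.Agent.Lib.SG

open Finset Pool.Agent.Lib.BV

private lemma Cov_crt (S : Finset ℕ) (hS : ∀ p ∈ S, p.Prime) (a : ℕ → ℕ) :
    ∃ b : ℕ, ∀ p ∈ S, b ≡ a p [MOD p] := by
  have h := Nat.chineseRemainderOfFinset a (fun p : ℕ => p) S (fun p hp => (hS p hp).ne_zero) (by
    intro p hp q hq hpq
    exact (Nat.coprime_primes (hS p hp) (hS q hq)).2 hpq)
  exact ⟨h.1, h.2⟩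

private lemma Cov_mem (z e : ℕ) {p : ℕ} (hp : p.Prime) (h1 : p ≤ z) (h2 : p ≠ e) : p ∣ WW z e := by
  unfold WW
  apply Finset.dvd_prod_of_mem (fun p : ℕ => p)
  rw [Finset.mem_filter, Finset.mem_Icc]
  exact ⟨⟨hp.one_lt.le, h1⟩, hp, h2⟩

private lemma Cov_not (z e m : ℕ) {p : ℕ} (hp : p.Prime) (h1 : p ≤ z) (h2 : p ≠ e) (h : p ∣ m) :
    ¬ m.Coprime (WW z e) :=
  Nat.not_coprime_of_dvd_of_dvd hp.one_lt h (Cov_mem z e hp h1 h2)

private lemma Cov_cop (z e m : ℕ) (h : ∀ p : ℕ, p.Prime → p ≤ z → p ≠ e → ¬ p ∣ m) :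
    m.Coprime (WW z e) := by
  unfold WW
  apply Nat.Coprime.prod_right
  intro p hp
  rw [Finset.mem_filter, Finset.mem_Icc] at hp
  exact ((hp.2.1.coprime_iff_not_dvd).2 (h p hp.2.1 hp.1.2 hp.2.2)).symm

theorem tCov (hMat : MatStmt) : CovStmt := by
  classical
  intro z p0 p1 e k L J Zn hz hk h01 hp1 he hL hJ hZn hdis hcard
  set Z : Finset ℕ := Zn.filter (fun r => Srv z p0 p1 e r) with hZ
  set T : Finset ℕ := topp z e with hT
  have hTm : ∀ q ∈ T, q.Prime ∧ q ≤ z ∧ z < 2 * q ∧ q ≠ e := by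
    intro q hq
    rw [hT] at hq
    unfold topp at hq
    rw [Finset.mem_filter, Finset.mem_Icc] at hq
    exact ⟨hq.2.1, hq.1.2, hq.2.2.1, hq.2.2.2⟩
  obtain ⟨σ, hσ1, hσ2, hσ3⟩ := hMat k T Z J (fun q j r => (q : ℤ) ∣ (j : ℤ) - r) hk hcard (by
    intro i hi j hj r hr q hq q' hq' h1 h2
    by_contra hne
    obtain ⟨a1, a2, a3, a4⟩ := hJ i hi j hj
    have hrZ : r ∈ Zn := (Finset.mem_filter.1 hr).1
    obtain ⟨b1, b2⟩ := hZn r hrZ
    have hjr : j ≠ r := by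
      rintro rfl
      exact Finset.disjoint_left.1 (hdis i hi) hj hrZ
    obtain ⟨c1, c2, c3, c4⟩ := hTm q hq
    obtain ⟨d1, d2, d3, d4⟩ := hTm q' hq'
    have hco : IsCoprime (q : ℤ) (q' : ℤ) := by
      rw [Nat.isCoprime_iff_coprime]
      exact (Nat.coprime_primes c1 d1).2 hne
    have h3 : (q : ℤ) * q' ∣ (j : ℤ) - r := hco.mul_dvd h1 h2
    have h4 : (j : ℤ) - r ≠ 0 := by omega
    have h5 := Int.le_of_dvd (abs_pos.2 h4) ((dvd_abs _ _).2 h3)
    have h6 : |(j : ℤ) - r| ≤ L := by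
      rw [abs_le]
      constructor <;> omega
    have h7 : (q : ℤ) * q' ≤ L := h5.trans h6
    have h8 : q * q' ≤ L := by exact_mod_cast h7
    have h9 : z * z ≤ (2 * q) * (2 * q') := Nat.mul_le_mul c3.le d3.le
    have h10 : (2 * q) * (2 * q') = 4 * (q * q') := by ring
    rw [sq] at hL
    omega)
  set S : Finset ℕ := (Icc 1 z).filter (fun p => p.Prime ∧ p ≠ e) with hS
  have hSm : ∀ p ∈ S, p.Prime ∧ p ≤ z ∧ p ≠ e := by
    intro p hp
    rw [hS, Finset.mem_filter, Finset.mem_Icc] at hp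
    exact ⟨hp.2.1, hp.1.2, hp.2.2⟩
  obtain ⟨b, hb⟩ := Cov_crt S (fun p hp => (hSm p hp).1) (fun p => if p ∈ smp p0 p1 e then p - 2 else
    if h : ∃ r ∈ Z, σ r = p then (p - 1) * h.choose else 0)
  have hSmem : ∀ p : ℕ, p.Prime → p ≤ z → p ≠ e → p ∈ S := by
    intro p hp h1 h2
    rw [hS, Finset.mem_filter, Finset.mem_Icc]
    exact ⟨⟨hp.one_lt.le, h1⟩, hp, h2⟩
  have hsmpm : ∀ p ∈ smp p0 p1 e, p.Prime ∧ p0 < p ∧ p ≤ p1 ∧ p ≠ e := by
    intro p hp
    unfold smp at hp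
    rw [Finset.mem_filter, Finset.mem_Ioc] at hp
    exact ⟨hp.2.1, hp.1.1, hp.1.2, hp.2.2⟩
  have hF1 : ∀ p ∈ smp p0 p1 e, p ∣ b + 2 := by
    intro p hp
    obtain ⟨a1, a2, a3, a4⟩ := hsmpm p hp
    have h1 := hb p (hSmem p a1 (by omega) a4)
    simp only [if_pos hp] at h1
    have h2 : b + 2 ≡ (p - 2) + 2 [MOD p] := h1.add_right 2
    have h3 : (p - 2) + 2 = p := Nat.sub_add_cancel a1.two_le
    rw [h3] at h2
    exact (Nat.modEq_zero_iff_dvd.1 (h2.trans (Nat.modEq_zero_iff_dvd.2 dvd_rfl)))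
  have hF2 : ∀ r ∈ Z, σ r ∣ b + r := by
    intro r hr
    obtain ⟨a1, a2, a3, a4⟩ := hTm (σ r) (hσ1 r hr)
    have h1 := hb (σ r) (hSmem _ a1 a2 a4)
    have h2 : σ r ∉ smp p0 p1 e := by
      intro h
      have := (hsmpm _ h).2.2.1
      omega
    have h3 : ∃ r' ∈ Z, σ r' = σ r := ⟨r, hr, rfl⟩
    simp only [if_neg h2, dif_pos h3] at h1
    have h4 : h3.choose = r := hσ2 _ h3.choose_spec.1 r hr h3.choose_spec.2
    rw [h4] at h1
    have h5 : b + r ≡ (σ r - 1) * r + r [MOD σ r] := h1.add_right r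
    have h6 : (σ r - 1) * r + r = σ r * r := by
      obtain ⟨m, hm⟩ : ∃ m, σ r = m + 1 := ⟨σ r - 1, by have := a1.pos; omega⟩
      rw [hm]
      simp only [Nat.add_sub_cancel]
      ring
    rw [h6] at h5
    exact Nat.modEq_zero_iff_dvd.1 (h5.trans (Nat.modEq_zero_iff_dvd.2 (Dvd.intro _ rfl)))
  have hF0 : ∀ p : ℕ, p.Prime → p ≤ z → p ≠ e → p ∉ smp p0 p1 e → (¬ ∃ r ∈ Z, σ r = p) → p ∣ b := by
    intro p hp h1 h2 h3 h4
    have h5 := hb p (hSmem p hp h1 h2)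
    simp only [if_neg h3, dif_neg h4] at h5
    exact Nat.modEq_zero_iff_dvd.1 h5
  have hG1 : ∀ p : ℕ, p.Prime → p ≤ p0 → p ≠ e ∧ p ≤ z ∧ p ∣ b := by
    intro p hp h1
    have h2 : p ≠ e := by
      rcases he with h | h
      · rw [h]
        exact hp.one_lt.ne'
      · omega
    refine ⟨h2, by omega, hF0 p hp (by omega) h2 ?_ ?_⟩
    · intro h
      have := (hsmpm _ h).2.1
      omega
    · rintro ⟨r, hr, h⟩
      have := (hTm _ (hσ1 r hr)).2.2.1
      omega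
  have hG2 : ∀ p : ℕ, p.Prime → p1 < p → 2 * p ≤ z → p ≠ e → p ∣ b := by
    intro p hp h1 h2 h3
    refine hF0 p hp (by omega) h3 ?_ ?_
    · intro h
      have := (hsmpm _ h).2.2.1
      omega
    · rintro ⟨r, hr, h⟩
      have := (hTm _ (hσ1 r hr)).2.2.1
      omega
  refine ⟨b, ?_, ?_, ?_⟩
  · intro r hr
    obtain ⟨b1, b2⟩ := hZn r hr
    by_cases hrs : Srv z p0 p1 e r
    · have hrZ : r ∈ Z := Finset.mem_filter.2 ⟨hr, hrs⟩
      obtain ⟨a1, a2, a3, a4⟩ := hTm (σ r) (hσ1 r hrZ)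
      exact Cov_not z e _ a1 a2 a4 (hF2 r hrZ)
    · unfold Srv at hrs
      by_cases c1 : ∀ p : ℕ, p.Prime → p ≤ p0 → ¬ p ∣ r
      · by_cases c2 : ∀ p : ℕ, p.Prime → p1 < p → 2 * p ≤ z → p ≠ e → ¬ p ∣ r
        · have c3 : ¬ ∀ p ∈ smp p0 p1 e, ¬ p ∣ r - 2 := fun h => hrs ⟨c1, c2, h⟩
          push Not at c3
          obtain ⟨p, hp, hpr⟩ := c3
          obtain ⟨a1, a2, a3, a4⟩ := hsmpm p hp
          have h3 : b + r = (b + 2) + (r - 2) := by omega
          rw [h3]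
          exact Cov_not z e _ a1 (by omega) a4 (dvd_add (hF1 p hp) hpr)
        · push Not at c2
          obtain ⟨p, hp, h1, h2, h3, h4⟩ := c2
          exact Cov_not z e _ hp (by omega) h3 (dvd_add (hG2 p hp h1 h2 h3) h4)
      · push Not at c1
        obtain ⟨p, hp, h1, h2⟩ := c1
        obtain ⟨g1, g2, g3⟩ := hG1 p hp h1
        exact Cov_not z e _ hp g2 g1 (dvd_add g3 h2)
  · intro i hi
    have h1 := hσ3 i hi
    have h2 : (J i).card ≤ ((J i).filter (fun j => (b + j).Coprime (WW z e))).card +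
        ((J i).filter (fun j : ℕ => ∃ r ∈ Z, ((σ r : ℕ) : ℤ) ∣ (j : ℤ) - r)).card := by
      have h3 : J i ⊆ (J i).filter (fun j => (b + j).Coprime (WW z e)) ∪
          (J i).filter (fun j : ℕ => ∃ r ∈ Z, ((σ r : ℕ) : ℤ) ∣ (j : ℤ) - r) := by
        intro j hj
        rw [Finset.mem_union, Finset.mem_filter, Finset.mem_filter]
        by_cases hbad : ∃ r ∈ Z, ((σ r : ℕ) : ℤ) ∣ (j : ℤ) - r
        · exact Or.inr ⟨hj, hbad⟩
        · refine Or.inl ⟨hj, ?_⟩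
          obtain ⟨a1, a2, a3, a4⟩ := hJ i hi j hj
          apply Cov_cop
          intro p hp hpz hpe hpd
          by_cases c1 : p ∈ smp p0 p1 e
          · have h4 : b + j = (b + 2) + (j - 2) := by omega
            rw [h4] at hpd
            exact a4 p c1 ((Nat.dvd_add_right (hF1 p c1)).1 hpd)
          · by_cases c2 : ∃ r ∈ Z, σ r = p
            · obtain ⟨r, hr, rfl⟩ := c2
              apply hbad
              refine ⟨r, hr, ?_⟩
              have h4 : (j : ℤ) - r = ((b + j : ℕ) : ℤ) - ((b + r : ℕ) : ℤ) := by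
                push_cast
                ring
              rw [h4]
              exact dvd_sub (Int.natCast_dvd_natCast.2 hpd) (Int.natCast_dvd_natCast.2 (hF2 r hr))
            · have h4 := hF0 p hp hpz hpe c1 c2
              have h5 := (Nat.dvd_add_right h4).1 hpd
              have h6 := (Nat.prime_dvd_prime_iff_eq hp a3).1 h5
              omega
      exact (Finset.card_le_card h3).trans (Finset.card_union_le _ _)
    have h4 : 8 * ((J i).filter (fun j : ℕ => ∃ r ∈ Z, ((σ r : ℕ) : ℤ) ∣ (j : ℤ) - r)).card ≤ (J i).card := by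
      convert h1
    omega
  · intro j hj hcop
    have hnd : ∀ p : ℕ, p.Prime → p ≤ z → p ≠ e → ¬ p ∣ b + j := by
      intro p hp h1 h2 h3
      exact Cov_not z e _ hp h1 h2 h3 hcop
    refine ⟨?_, ?_, ?_⟩
    · intro p hp h1 h2
      obtain ⟨g1, g2, g3⟩ := hG1 p hp h1
      exact hnd p hp g2 g1 (dvd_add g3 h2)
    · intro p hp h1 h2 h3 h4
      exact hnd p hp (by omega) h3 (dvd_add (hG2 p hp h1 h2 h3) h4)
    · intro p hp h1
      obtain ⟨a1, a2, a3, a4⟩ := hsmpm p hp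
      have h3 : b + j = (b + 2) + (j - 2) := by omega
      apply hnd p a1 (by omega) a4
      rw [h3]
      exact dvd_add (hF1 p hp) h1

end Pool.Agent.Lib.SG
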