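import Pool.Agent.Lib.SG.SpecA

namespace Pool.Agent.Lib.SG

open Finset Pool.Agent.Lib.BV

private lemma Cxu_sum {q : ℕ} [NeZero q] {f : ℕ → ℝ} (hf : Summable f) (a : (ZMod q)ˣ) :
    Summable (fun n : ℕ => if (n : ZMod q) = (a : ZMod q) then f n else 0) := by
  refine Summable.of_norm_bounded (g := fun n => |f n|) hf.abs ?_
  intro n
  split_ifs with h
  · exact le_of_eq (Real.norm_eq_abs _)
  · rw [norm_zero]
    exact abs_nonneg _

private lemma Cxu_pt {q : ℕ} [NeZero q] (χ : DirichletCharacter ℂ q) (f : ℕ → ℝ) (n : ℕ) :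
    χ (n : ZMod q) * (f n : ℂ) = ∑ a : (ZMod q)ˣ, χ (a : ZMod q) *
      (((if (n : ZMod q) = (a : ZMod q) then f n else 0 : ℝ)) : ℂ) := by
  by_cases hu : IsUnit (n : ZMod q)
  · obtain ⟨u, hu⟩ := hu
    rw [Finset.sum_eq_single u]
    · rw [if_pos hu.symm, hu]
    · intro b _ hb
      rw [if_neg, Complex.ofReal_zero, mul_zero]
      intro h
      exact hb (Units.ext (h.symm.trans hu.symm))
    · intro h
      exact absurd (Finset.mem_univ u) h
  · rw [MulChar.map_nonunit χ hu, zero_mul]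
    symm
    refine Finset.sum_eq_zero ?_
    intro a _
    rw [if_neg, Complex.ofReal_zero, mul_zero]
    intro h
    exact hu (h ▸ a.isUnit)

theorem tCxu : CxuStmt := by
  intro q _ χ f hf
  unfold cX cU
  have h1 : ∀ a : (ZMod q)ˣ, Summable (fun n : ℕ => χ (a : ZMod q) *
      (((if (n : ZMod q) = (a : ZMod q) then f n else 0 : ℝ)) : ℂ)) := by
    intro a
    exact (Complex.ofRealCLM.summable (Cxu_sum hf a)).mul_left _
  calc ∑' n : ℕ, χ (n : ZMod q) * (f n : ℂ)
      = ∑' n : ℕ, ∑ a : (ZMod q)ˣ, χ (a : ZMod q) *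
        (((if (n : ZMod q) = (a : ZMod q) then f n else 0 : ℝ)) : ℂ) :=
        tsum_congr (fun n => Cxu_pt χ f n)
    _ = ∑ a : (ZMod q)ˣ, ∑' n : ℕ, χ (a : ZMod q) *
        (((if (n : ZMod q) = (a : ZMod q) then f n else 0 : ℝ)) : ℂ) :=
        Summable.tsum_finsetSum (fun a _ => h1 a)
    _ = _ := by
        refine Finset.sum_congr rfl ?_
        intro a _
        rw [tsum_mul_left, Complex.ofReal_tsum]

end Pool.Agent.Lib.SG
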