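import Pool.Agent.Lib.SG.SpecA

namespace Pool.Agent.Lib.SG

open Finset Pool.Agent.Lib.BV

private lemma Dif_rr (z n : ℕ) : 0 ≤ rr z n ∧ rr z n ≤ 1 := by
  unfold rr
  split_ifs <;> norm_num

/-- the summand without the term n = 1 -/
private noncomputable def Dif_G (D : ℕ) (F : ℕ → ℝ) (n : ℕ) : ℝ :=
  if n = 1 then 0 else rr D n * F n

private noncomputable def Dif_u (q D a a' n : ℕ) : ℝ :=
  if n = 1 then 0 else rr D n *
    ((if n ≡ a [MOD q] then (1 : ℝ) else 0) - (if n ≡ a' [MOD q] then 1 else 0))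

private lemma Dif_G_le (D : ℕ) (F : ℕ → ℝ) (n : ℕ) : |Dif_G D F n| ≤ |F n| := by
  unfold Dif_G
  split_ifs
  · rw [abs_zero]
    exact abs_nonneg _
  · obtain ⟨h1, h2⟩ := Dif_rr D n
    rw [abs_mul, abs_of_nonneg h1]
    nlinarith [abs_nonneg (F n)]

private lemma Dif_ind (q : ℕ) (a : (ZMod q)ˣ) (G : ℕ → ℝ) (hG : Summable fun n => |G n|) :
    Summable fun n : ℕ => if (n : ZMod q) = (a : ZMod q) then G n else 0 := by
  refine Summable.of_norm_bounded hG fun n => ?_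
  split_ifs
  · exact le_of_eq rfl
  · rw [norm_zero]
    exact abs_nonneg _

private lemma Dif_core (q : ℕ) [NeZero q] (D : ℕ) (a a' : (ZMod q)ˣ) (F : ℕ → ℝ) (B : ℝ)
    (hF0 : F 0 = 0) (hF : Summable fun n => |F n|)
    (hb : ∀ N : ℕ, |∑ n ∈ Icc 1 N, Dif_u q D (a : ZMod q).val (a' : ZMod q).val n * F n| ≤ B) :
    |cU q (Dif_G D F) a - cU q (Dif_G D F) a'| ≤ B := by
  have hG : Summable fun n => |Dif_G D F n| :=
    Summable.of_nonneg_of_le (fun n => abs_nonneg _) (Dif_G_le D F) hF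
  have h1 := Dif_ind q a _ hG
  have h2 := Dif_ind q a' _ hG
  unfold cU
  rw [← h1.tsum_sub h2]
  have h3 := (h1.sub h2).hasSum.tendsto_sum_nat.comp (Filter.tendsto_add_atTop_nat 1)
  refine le_of_tendsto' h3.abs fun N => ?_
  have hmod : ∀ (c : (ZMod q)ˣ) (n : ℕ),
      (n : ZMod q) = (c : ZMod q) ↔ n ≡ (c : ZMod q).val [MOD q] := by
    intro c n
    rw [← ZMod.natCast_eq_natCast_iff, ZMod.natCast_zmod_val]
  have e : ∑ n ∈ range (N + 1), ((if (n : ZMod q) = (a : ZMod q) then Dif_G D F n else 0) -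
      (if (n : ZMod q) = (a' : ZMod q) then Dif_G D F n else 0)) =
      ∑ n ∈ Icc 1 N, Dif_u q D (a : ZMod q).val (a' : ZMod q).val n * F n := by
    have hsub : Icc 1 N ⊆ range (N + 1) := by
      intro n hn
      rw [mem_Icc] at hn
      rw [mem_range]
      omega
    rw [← sum_subset hsub]
    · refine sum_congr rfl fun n _ => ?_
      simp only [hmod]
      unfold Dif_G Dif_u
      split_ifs <;> ring
    · intro n hn hn'
      have h0 : n = 0 := by
        rw [mem_range] at hn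
        by_contra h0
        exact hn' (mem_Icc.2 ⟨by omega, by omega⟩)
      subst h0
      unfold Dif_G
      rw [hF0]
      simp
  show |∑ n ∈ range (N + 1), _| ≤ B
  rw [e]
  exact hb N

private lemma Dif_log (n : ℕ) (hn : 1 ≤ n) (t : ℝ) (h1 : (n : ℝ) ≤ t) (h2 : t ≤ n + 1) :
    0 ≤ Real.log t ∧ 1 + Real.log t ≤ 2 * (1 + Real.log n) := by
  have hn0 : (0 : ℝ) < n := by exact_mod_cast hn
  have hn1 : (1 : ℝ) ≤ n := by exact_mod_cast hn
  have hl : 0 ≤ Real.log (n : ℝ) := Real.log_natCast_nonneg n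
  refine ⟨Real.log_nonneg (by linarith), ?_⟩
  have h3 : Real.log t ≤ Real.log (2 * n) := Real.log_le_log (by linarith) (by linarith)
  rw [Real.log_mul (by norm_num) hn0.ne'] at h3
  have := Real.log_two_lt_d9
  linarith

private lemma Dif_pow (t s : ℝ) (ht : 1 ≤ t) (hs : 0 < s) : t ^ (-(2 + s)) ≤ (t ^ 2)⁻¹ := by
  have ht0 : 0 < t := by linarith
  have h1 : t ^ (-(2 + s)) ≤ t ^ (-(2 : ℝ)) :=
    Real.rpow_le_rpow_of_exponent_le ht (by linarith)
  have h2 : t ^ (-(2 : ℝ)) = (t ^ 2)⁻¹ := by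
    rw [Real.rpow_neg ht0.le]
    norm_cast
  rwa [h2] at h1

private lemma Dif_inv (n : ℕ) (hn : 1 ≤ n) (t : ℝ) (h1 : (n : ℝ) ≤ t) :
    (t ^ 2)⁻¹ ≤ ((n : ℝ) ^ 2)⁻¹ := by
  have hn0 : (0 : ℝ) < n := by exact_mod_cast hn
  exact inv_anti₀ (by positivity) (pow_le_pow_left₀ hn0.le h1 2)

private lemma Dif_step (m : ℕ) (s : ℝ) (hs : 0 < s) (hs1 : s ≤ 1) (n : ℕ) (hn : 1 ≤ n) :
    |(Real.log ((n + 1 : ℕ) : ℝ)) ^ m * ((n + 1 : ℕ) : ℝ) ^ (-(1 + s)) -
      (Real.log n) ^ m * (n : ℝ) ^ (-(1 + s))| ≤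
      ((m + 2) * 2 ^ m) * (1 + Real.log n) ^ m / (n : ℝ) ^ 2 := by
  have hn0 : (0 : ℝ) < n := by exact_mod_cast hn
  have hn1 : (1 : ℝ) ≤ n := by exact_mod_cast hn
  have hl : 0 ≤ Real.log (n : ℝ) := Real.log_natCast_nonneg n
  have hder : ∀ t ∈ Set.Icc (n : ℝ) (n + 1), HasDerivWithinAt
      (fun t : ℝ => (Real.log t) ^ m * t ^ (-(1 + s)))
      (m * (Real.log t) ^ (m - 1) * t⁻¹ * t ^ (-(1 + s)) +
        (Real.log t) ^ m * (-(1 + s) * t ^ (-(1 + s) - 1))) (Set.Icc (n : ℝ) (n + 1)) t := by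
    intro t ht
    have ht0 : 0 < t := by linarith [ht.1]
    exact (((Real.hasDerivAt_log ht0.ne').pow m).mul
      (Real.hasDerivAt_rpow_const (Or.inl ht0.ne'))).hasDerivWithinAt
  have hbound : ∀ t ∈ Set.Icc (n : ℝ) (n + 1),
      ‖m * (Real.log t) ^ (m - 1) * t⁻¹ * t ^ (-(1 + s)) +
        (Real.log t) ^ m * (-(1 + s) * t ^ (-(1 + s) - 1))‖ ≤
      ((m + 2) * 2 ^ m) * (1 + Real.log n) ^ m / (n : ℝ) ^ 2 := by
    intro t ht
    have ht1 : 1 ≤ t := by linarith [ht.1]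
    have ht0 : 0 < t := by linarith
    obtain ⟨hlt, hlt2⟩ := Dif_log n hn t ht.1 ht.2
    have e1 : t⁻¹ * t ^ (-(1 + s)) = t ^ (-(2 + s)) := by
      rw [← Real.rpow_neg_one, ← Real.rpow_add ht0]
      congr 1
      ring
    have e2 : t ^ (-(1 + s) - 1) = t ^ (-(2 + s)) := by
      congr 1
      ring
    have e3 : (t ^ (-(2 + s)) : ℝ) ≤ ((n : ℝ) ^ 2)⁻¹ :=
      (Dif_pow t s ht1 hs).trans (Dif_inv n hn t ht.1)
    have e0 : 0 ≤ t ^ (-(2 + s)) := by positivity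
    have e4 : (Real.log t) ^ m ≤ 2 ^ m * (1 + Real.log n) ^ m := by
      rw [← mul_pow]
      exact pow_le_pow_left₀ hlt (by linarith) m
    have e5 : (Real.log t) ^ (m - 1) ≤ 2 ^ m * (1 + Real.log n) ^ m := by
      rw [← mul_pow]
      calc (Real.log t) ^ (m - 1) ≤ (2 * (1 + Real.log n)) ^ (m - 1) :=
            pow_le_pow_left₀ hlt (by linarith) _
        _ ≤ _ := pow_le_pow_right₀ (by linarith) (by omega)
    set P : ℝ := 2 ^ m * (1 + Real.log n) ^ m with hP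
    have hP0 : 0 ≤ P := by positivity
    have hlp : 0 ≤ (Real.log t) ^ m := by positivity
    have hlp1 : 0 ≤ (Real.log t) ^ (m - 1) := by positivity
    rw [mul_assoc (m * (Real.log t) ^ (m - 1)), e1, e2]
    refine (norm_add_le _ _).trans ?_
    rw [Real.norm_of_nonneg (by positivity), norm_mul, norm_mul, Real.norm_of_nonneg hlp,
      Real.norm_of_nonneg e0, Real.norm_eq_abs, abs_neg, abs_of_pos (by linarith : 0 < 1 + s)]
    calc m * (Real.log t) ^ (m - 1) * t ^ (-(2 + s)) +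
          (Real.log t) ^ m * ((1 + s) * t ^ (-(2 + s))) ≤
        m * P * ((n : ℝ) ^ 2)⁻¹ + P * (2 * ((n : ℝ) ^ 2)⁻¹) := by
          have h6 : 1 + s ≤ 2 := by linarith
          gcongr
      _ = _ := by rw [hP]; ring
  have h := Convex.norm_image_sub_le_of_norm_hasDerivWithin_le hder hbound
    (convex_Icc (n : ℝ) (n + 1)) (x := (n : ℝ)) (y := (n : ℝ) + 1)
    ⟨le_rfl, by linarith⟩ ⟨by linarith, le_rfl⟩
  have e : ((n : ℝ) + 1) - n = 1 := by ring
  rw [e, norm_one, mul_one] at h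
  push_cast
  exact h

private lemma Dif_val (m : ℕ) (s : ℝ) (hs : 0 < s) (n : ℕ) :
    0 ≤ (Real.log n) ^ m * (n : ℝ) ^ (-(1 + s)) ∧
      (Real.log n) ^ m * (n : ℝ) ^ (-(1 + s)) ≤ (1 + Real.log n) ^ m * (n : ℝ) ^ (-(1 + s)) := by
  have hl : 0 ≤ Real.log (n : ℝ) := Real.log_natCast_nonneg n
  refine ⟨by positivity, ?_⟩
  refine mul_le_mul_of_nonneg_right ?_ (by positivity)
  exact pow_le_pow_left₀ hl (by linarith) m

private lemma Dif_inv1 (s : ℝ) (hs : 0 < s) (n : ℕ) (hn : 1 ≤ n) :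
    (n : ℝ) ^ (-(1 + s)) ≤ (n : ℝ)⁻¹ := by
  have hn1 : (1 : ℝ) ≤ n := by exact_mod_cast hn
  rw [← Real.rpow_neg_one]
  exact Real.rpow_le_rpow_of_exponent_le hn1 (by linarith)

/-- the difference of two powers -/
private lemma Dif_diff (s s' t c : ℝ) (hs : 0 < s) (hss : s ≤ s') (ht : 1 ≤ t) :
    0 ≤ t ^ (-(c + s)) - t ^ (-(c + s')) ∧
      t ^ (-(c + s)) - t ^ (-(c + s')) ≤ (s' - s) * Real.log t * t ^ (-(c + s)) := by
  have ht0 : 0 < t := by linarith
  have hl : 0 ≤ Real.log t := Real.log_nonneg ht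
  have h1 : t ^ (-(c + s')) = t ^ (-(c + s)) * t ^ (-(s' - s)) := by
    rw [← Real.rpow_add ht0]
    congr 1
    ring
  have h2 : t ^ (-(s' - s)) ≤ 1 :=
    Real.rpow_le_one_of_one_le_of_nonpos ht (by linarith)
  have h3 : 1 - (s' - s) * Real.log t ≤ t ^ (-(s' - s)) := by
    rw [Real.rpow_def_of_pos ht0]
    have := Real.add_one_le_exp (Real.log t * -(s' - s))
    linarith
  have h4 : 0 < t ^ (-(c + s)) := Real.rpow_pos_of_pos ht0 _
  rw [h1]
  constructor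
  · nlinarith
  · nlinarith

private lemma Dif_step2 (s s' : ℝ) (hs : 0 < s) (hss : s ≤ s') (hs1 : s' ≤ 1) (n : ℕ)
    (hn : 1 ≤ n) :
    |(((n + 1 : ℕ) : ℝ) ^ (-(1 + s)) - ((n + 1 : ℕ) : ℝ) ^ (-(1 + s'))) -
      ((n : ℝ) ^ (-(1 + s)) - (n : ℝ) ^ (-(1 + s')))| ≤
      12 * (s' - s) * (1 + Real.log n) ^ 1 / (n : ℝ) ^ 2 := by
  have hn0 : (0 : ℝ) < n := by exact_mod_cast hn
  have hn1 : (1 : ℝ) ≤ n := by exact_mod_cast hn
  have hl : 0 ≤ Real.log (n : ℝ) := Real.log_natCast_nonneg n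
  have hd0 : 0 ≤ s' - s := by linarith
  have hder : ∀ t ∈ Set.Icc (n : ℝ) (n + 1), HasDerivWithinAt
      (fun t : ℝ => t ^ (-(1 + s)) - t ^ (-(1 + s')))
      (-(1 + s) * t ^ (-(1 + s) - 1) - -(1 + s') * t ^ (-(1 + s') - 1))
        (Set.Icc (n : ℝ) (n + 1)) t := by
    intro t ht
    have ht0 : 0 < t := by linarith [ht.1]
    exact ((Real.hasDerivAt_rpow_const (Or.inl ht0.ne')).sub
      (Real.hasDerivAt_rpow_const (Or.inl ht0.ne'))).hasDerivWithinAt
  have hbound : ∀ t ∈ Set.Icc (n : ℝ) (n + 1),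
      ‖-(1 + s) * t ^ (-(1 + s) - 1) - -(1 + s') * t ^ (-(1 + s') - 1)‖ ≤
      12 * (s' - s) * (1 + Real.log n) ^ 1 / (n : ℝ) ^ 2 := by
    intro t ht
    have ht1 : 1 ≤ t := by linarith [ht.1]
    have ht0 : 0 < t := by linarith
    obtain ⟨hlt, hlt2⟩ := Dif_log n hn t ht.1 ht.2
    have e1 : t ^ (-(1 + s) - 1) = t ^ (-(2 + s)) := by
      congr 1
      ring
    have e2 : t ^ (-(1 + s') - 1) = t ^ (-(2 + s')) := by
      congr 1
      ring
    have e3 : (t ^ (-(2 + s)) : ℝ) ≤ ((n : ℝ) ^ 2)⁻¹ :=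
      (Dif_pow t s ht1 hs).trans (Dif_inv n hn t ht.1)
    have e4 : (t ^ (-(2 + s')) : ℝ) ≤ ((n : ℝ) ^ 2)⁻¹ :=
      (Dif_pow t s' ht1 (by linarith)).trans (Dif_inv n hn t ht.1)
    obtain ⟨d1, d2⟩ := Dif_diff s s' t 2 hs hss ht1
    have p1 : 0 ≤ t ^ (-(2 + s')) := by positivity
    have p2 : 0 ≤ ((n : ℝ) ^ 2)⁻¹ := by positivity
    rw [e1, e2]
    have e5 : -(1 + s) * t ^ (-(2 + s)) - -(1 + s') * t ^ (-(2 + s')) =
        -((1 + s) * (t ^ (-(2 + s)) - t ^ (-(2 + s')))) + (s' - s) * t ^ (-(2 + s')) := by ring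
    rw [e5]
    refine (norm_add_le _ _).trans ?_
    rw [norm_neg, Real.norm_of_nonneg (by positivity), Real.norm_of_nonneg (by positivity)]
    calc (1 + s) * (t ^ (-(2 + s)) - t ^ (-(2 + s'))) + (s' - s) * t ^ (-(2 + s')) ≤
        2 * ((s' - s) * Real.log t * t ^ (-(2 + s))) + (s' - s) * t ^ (-(2 + s')) := by
          have h6 : 1 + s ≤ 2 := by linarith
          gcongr
      _ ≤ 2 * ((s' - s) * (2 * (1 + Real.log n)) * ((n : ℝ) ^ 2)⁻¹) +
          (s' - s) * ((n : ℝ) ^ 2)⁻¹ := by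
          have h6 : Real.log t ≤ 2 * (1 + Real.log n) := by linarith
          gcongr
      _ ≤ 12 * (s' - s) * (1 + Real.log n) ^ 1 / (n : ℝ) ^ 2 := by
          rw [pow_one, div_eq_mul_inv]
          have h6 : 0 ≤ (s' - s) * ((n : ℝ) ^ 2)⁻¹ := by positivity
          have h7 : 0 ≤ (s' - s) * ((n : ℝ) ^ 2)⁻¹ * Real.log n := by positivity
          have h8 : 12 * (s' - s) * (1 + Real.log n) * ((n : ℝ) ^ 2)⁻¹ -
              (2 * ((s' - s) * (2 * (1 + Real.log n)) * ((n : ℝ) ^ 2)⁻¹) +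
                (s' - s) * ((n : ℝ) ^ 2)⁻¹) =
              7 * ((s' - s) * ((n : ℝ) ^ 2)⁻¹) +
                8 * ((s' - s) * ((n : ℝ) ^ 2)⁻¹ * Real.log n) := by ring
          linarith
  have h := Convex.norm_image_sub_le_of_norm_hasDerivWithin_le hder hbound
    (convex_Icc (n : ℝ) (n + 1)) (x := (n : ℝ)) (y := (n : ℝ) + 1)
    ⟨le_rfl, by linarith⟩ ⟨by linarith, le_rfl⟩
  have e : ((n : ℝ) + 1) - n = 1 := by ring
  rw [e, norm_one, mul_one] at h
  push_cast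
  exact h

theorem tDif (h1 : SmzStmt) (h2 : AblStmt) (h3 : CdfStmt) : DifStmt := by
  obtain ⟨A0, hA0, hAbl0⟩ := h2 0
  obtain ⟨A1, hA1, hAbl1⟩ := h2 1
  obtain ⟨A2, hA2, hAbl2⟩ := h2 2
  obtain ⟨Cc, D0, hCc, hD0, hCdf⟩ := h3
  set A : ℝ := A0 + A1 + A2 with hA
  have hApos : 0 < A := by positivity
  refine ⟨A * Cc * 16 * 80 ^ 3, D0, by positivity, hD0, fun q hq D a a' s hD hqD hs hs1 => ?_⟩
  have hq1 : 1 ≤ q := Nat.one_le_iff_ne_zero.2 (NeZero.ne q)
  have hD3 : (3 : ℝ) ≤ D := hD0.trans hD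
  have hDpos : (0 : ℝ) < D := by linarith
  set L : ℝ := Real.log D with hL
  have hL1 : 1 ≤ L := by
    have h4 : Real.exp 1 ≤ D := by
      have := Real.exp_one_lt_d9
      linarith
    have h5 := Real.log_le_log (Real.exp_pos 1) h4
    rwa [Real.log_exp] at h5
  set φ : ℝ := (q.totient : ℝ) with hφ
  have hφ0 : 0 < φ := by
    rw [hφ]
    exact_mod_cast Nat.totient_pos.2 hq1
  set δ : ℝ := 1 / (80 * L) with hδ
  have hδ0 : 0 < δ := by positivity
  have hδ1 : δ ≤ 1 := by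
    rw [hδ, div_le_one (by positivity)]
    linarith
  have hδinv : δ⁻¹ = 80 * L := by rw [hδ, one_div, inv_inv]
  have hcop : ∀ c : (ZMod q)ˣ, ((c : ZMod q).val).Coprime q := fun c => ZMod.val_coe_unit_coprime c
  have hu := fun N : ℕ => hCdf q D (a : ZMod q).val (a' : ZMod q).val N hq1 hD hqD (hcop a)
    (hcop a')
  set u : ℕ → ℝ := Dif_u q D (a : ZMod q).val (a' : ZMod q).val with hudef
  set B : ℝ := Cc / (φ * L) with hB
  have hB0 : 0 ≤ B := by positivity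
  have hu' : ∀ N : ℕ, |∑ n ∈ Icc 1 N, u n| ≤ B * (N : ℝ) ^ (1 - δ) := hu
  have hAbl : ∀ m : ℕ, m ≤ 2 → ∀ (f : ℕ → ℝ) (K : ℝ), 0 ≤ K →
      (∀ n : ℕ, 1 ≤ n → |f n| ≤ K * (1 + Real.log n) ^ m / n) →
      (∀ n : ℕ, 1 ≤ n → |f (n + 1) - f n| ≤ K * (1 + Real.log n) ^ m / (n : ℝ) ^ 2) →
      ∀ N : ℕ, |∑ n ∈ Icc 1 N, u n * f n| ≤ A * (B * K * (80 * L) ^ (m + 1)) := by
    intro m hm f K hK hf hf' N
    have hpos : 0 ≤ B * K * (80 * L) ^ (m + 1) := by positivity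
    interval_cases m
    · have := hAbl0 u f B K δ hB0 hK hδ0 hδ1 hu' hf hf' N
      rw [hδinv] at this
      refine this.trans (mul_le_mul_of_nonneg_right ?_ hpos)
      rw [hA]
      linarith
    · have := hAbl1 u f B K δ hB0 hK hδ0 hδ1 hu' hf hf' N
      rw [hδinv] at this
      refine this.trans (mul_le_mul_of_nonneg_right ?_ hpos)
      rw [hA]
      linarith
    · have := hAbl2 u f B K δ hB0 hK hδ0 hδ1 hu' hf hf' N
      rw [hδinv] at this
      refine this.trans (mul_le_mul_of_nonneg_right ?_ hpos)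
      rw [hA]
      linarith
  have hwt : ∀ (m : ℕ) (s : ℝ), wt D s (gm m) =
      Dif_G D (fun n => (Real.log n) ^ m * (n : ℝ) ^ (-(1 + s))) := by
    intro m s
    funext n
    unfold wt gm Dif_G
    split_ifs <;> ring
  have hzero : ∀ (m : ℕ) (s : ℝ), 0 < s →
      (Real.log ((0 : ℕ) : ℝ)) ^ m * (((0 : ℕ) : ℝ)) ^ (-(1 + s)) = 0 := by
    intro m s hs
    rw [Nat.cast_zero, Real.zero_rpow (by linarith), mul_zero]
  have hsm : ∀ (m : ℕ) (s : ℝ), 0 < s →
      Summable fun n : ℕ => |(Real.log n) ^ m * (n : ℝ) ^ (-(1 + s))| := by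
    intro m s hs
    obtain ⟨_, _, hsum, _⟩ := h1 m
    refine Summable.of_nonneg_of_le (fun n => abs_nonneg _) (fun n => ?_) (hsum s hs)
    obtain ⟨h4, h5⟩ := Dif_val m s hs n
    rw [abs_of_nonneg h4]
    exact h5
  have h80 : ∀ m : ℕ, m ≤ 2 → (80 : ℝ) ^ (m + 1) ≤ 80 ^ 3 := fun m hm =>
    pow_le_pow_right₀ (by norm_num) (by omega)
  constructor
  · intro m hm
    rw [hwt m s]
    refine (Dif_core q D a a' _ _ (hzero m s hs) (hsm m s hs)
      (hAbl m hm _ 16 (by norm_num) ?_ ?_)).trans ?_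
    · intro n hn
      obtain ⟨h4, h5⟩ := Dif_val m s hs n
      have hl : 0 ≤ Real.log (n : ℝ) := Real.log_natCast_nonneg n
      rw [abs_of_nonneg h4, div_eq_mul_inv]
      refine h5.trans ?_
      have h6 := Dif_inv1 s hs n hn
      have h7 : 0 ≤ (1 + Real.log (n : ℝ)) ^ m := by positivity
      have h8 : (0 : ℝ) ≤ (n : ℝ)⁻¹ := by positivity
      calc (1 + Real.log n) ^ m * (n : ℝ) ^ (-(1 + s)) ≤ (1 + Real.log n) ^ m * (n : ℝ)⁻¹ :=
            mul_le_mul_of_nonneg_left h6 h7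
        _ ≤ 16 * (1 + Real.log n) ^ m * (n : ℝ)⁻¹ := by
            have h9 : 0 ≤ (1 + Real.log (n : ℝ)) ^ m * (n : ℝ)⁻¹ := by positivity
            have h10 : 16 * (1 + Real.log (n : ℝ)) ^ m * (n : ℝ)⁻¹ =
              16 * ((1 + Real.log (n : ℝ)) ^ m * (n : ℝ)⁻¹) := by ring
            rw [h10]
            linarith
    · intro n hn
      refine (Dif_step m s hs hs1 n hn).trans ?_
      have hl : 0 ≤ Real.log (n : ℝ) := Real.log_natCast_nonneg n
      have h4 : ((m : ℝ) + 2) * 2 ^ m ≤ 16 := by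
        interval_cases m <;> norm_num
      gcongr
    · have e : A * (B * 16 * (80 * L) ^ (m + 1)) =
          A * Cc * 16 * 80 ^ (m + 1) * (L ^ m / φ) := by
        have hphi : (φ : ℝ) ≠ 0 := by positivity
        have hLne : L ≠ 0 := by positivity
        rw [hB, mul_pow, pow_succ L m, div_mul_eq_mul_div, div_mul_eq_mul_div,
          mul_div_assoc', mul_div_assoc', div_eq_div_iff (mul_ne_zero hphi hLne) hphi]
        ring
      rw [e]
      have := h80 m hm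
      gcongr
  · intro s' hss hs'1
    have hs'0 : 0 < s' := by linarith
    set F : ℕ → ℝ := fun n => (n : ℝ) ^ (-(1 + s)) - (n : ℝ) ^ (-(1 + s')) with hF
    have hsm0 : ∀ s : ℝ, 0 < s → Summable fun n => |wt D s (gm 0) n| := by
      intro s hs
      rw [hwt 0 s]
      exact Summable.of_nonneg_of_le (fun n => abs_nonneg _) (Dif_G_le D _) (hsm 0 s hs)
    have hcU : ∀ c : (ZMod q)ˣ, cU q (wt D s (gm 0)) c - cU q (wt D s' (gm 0)) c =
        cU q (Dif_G D F) c := by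
      intro c
      unfold cU
      rw [← (Dif_ind q c _ (hsm0 s hs)).tsum_sub (Dif_ind q c _ (hsm0 s' hs'0))]
      congr 1
      funext n
      rw [hwt 0 s, hwt 0 s']
      unfold Dif_G
      simp only [hF, pow_zero, one_mul]
      split_ifs <;> ring
    rw [hcU a, hcU a']
    have hF0 : F 0 = 0 := by
      simp only [hF]
      rw [Nat.cast_zero, Real.zero_rpow (by linarith), Real.zero_rpow (by linarith), sub_zero]
    have hFs : Summable fun n => |F n| := by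
      have h4 := (hsm 0 s hs).add (hsm 0 s' hs'0)
      refine Summable.of_nonneg_of_le (fun n => abs_nonneg _) (fun n => ?_) h4
      simp only [hF, pow_zero, one_mul]
      exact abs_sub _ _
    refine (Dif_core q D a a' F _ hF0 hFs
      (hAbl 1 (by norm_num) F (12 * (s' - s)) (by linarith) ?_ ?_)).trans ?_
    · intro n hn
      have hn1 : (1 : ℝ) ≤ n := by exact_mod_cast hn
      have hl : 0 ≤ Real.log (n : ℝ) := Real.log_natCast_nonneg n
      obtain ⟨d1, d2⟩ := Dif_diff s s' n 1 hs hss hn1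
      simp only [hF]
      rw [abs_of_nonneg d1, pow_one, div_eq_mul_inv]
      have h6 := Dif_inv1 s hs n hn
      have h5 : 0 ≤ s' - s := by linarith
      calc _ ≤ (s' - s) * Real.log n * (n : ℝ) ^ (-(1 + s)) := d2
        _ ≤ (s' - s) * Real.log n * (n : ℝ)⁻¹ := by gcongr
        _ ≤ 12 * (s' - s) * (1 + Real.log n) * (n : ℝ)⁻¹ := by
            have h7 : 0 ≤ (s' - s) * (n : ℝ)⁻¹ := by positivity
            have h8 : 0 ≤ (s' - s) * (n : ℝ)⁻¹ * Real.log n := by positivity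
            have h9 : 12 * (s' - s) * (1 + Real.log n) * (n : ℝ)⁻¹ -
                (s' - s) * Real.log n * (n : ℝ)⁻¹ = 12 * ((s' - s) * (n : ℝ)⁻¹) +
                11 * ((s' - s) * (n : ℝ)⁻¹ * Real.log n) := by ring
            linarith
    · intro n hn
      simp only [hF]
      exact Dif_step2 s s' hs hss hs'1 n hn
    · have e : A * (B * (12 * (s' - s)) * (80 * L) ^ (1 + 1)) =
          A * Cc * 12 * 80 ^ 2 * ((s' - s) * L / φ) := by
        have hphi : (φ : ℝ) ≠ 0 := by positivity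
        have hLne : L ≠ 0 := by positivity
        rw [hB, div_mul_eq_mul_div, div_mul_eq_mul_div,
          mul_div_assoc', mul_div_assoc', div_eq_div_iff (mul_ne_zero hphi hLne) hphi]
        ring
      rw [e]
      have h5 : 0 ≤ s' - s := by linarith
      have h4 : 0 ≤ (s' - s) * L / φ := by positivity
      have h6 : A * Cc * 12 * 80 ^ 2 ≤ A * Cc * 16 * 80 ^ 3 := by
        have : 0 ≤ A * Cc := by positivity
        nlinarith
      exact mul_le_mul_of_nonneg_right h6 h4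

end Pool.Agent.Lib.SG
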