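import Pool.Agent.Lib.SG.SpecA

/-!
MP_9a4459_nt, SG/Dpq: the derivative of the sums over residue classes (helper25, task 11272)
-/

namespace Pool.Agent.Lib.SG

open Finset Pool.Agent.Lib.BV

private theorem Dpq_rr (D n : ℕ) : |rr D n| ≤ 1 := by
  unfold rr
  split_ifs <;> simp

private theorem Dpq_term (n : ℕ) (w t : ℝ) :
    HasDerivAt (fun t : ℝ => w * Lam n * (n : ℝ) ^ (-(1 + t)))
      (-(w * Lam1 n * (n : ℝ) ^ (-(1 + t)))) t := by
  rcases Nat.eq_zero_or_pos n with rfl | hn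
  · have h : Lam 0 = 0 := by simp [Lam]
    simp only [h, Lam1, mul_zero, zero_mul, neg_zero]
    exact hasDerivAt_const _ _
  · have hn' : (0 : ℝ) < n := by exact_mod_cast hn
    have h1 : HasDerivAt (fun t : ℝ => -(1 + t)) (-1) t := by
      exact ((hasDerivAt_id t).const_add 1).fun_neg
    have h2 := (Real.hasStrictDerivAt_const_rpow hn' (-(1 + t))).hasDerivAt.comp t h1
    have h3 := h2.const_mul (w * Lam n)
    have e : w * Lam n * ((n : ℝ) ^ (-(1 + t)) * Real.log n * -1) =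
        -(w * Lam1 n * (n : ℝ) ^ (-(1 + t))) := by
      unfold Lam1
      ring
    rw [e] at h3
    exact h3

private theorem Dpq_bd (n : ℕ) (w s t : ℝ) (hw : |w| ≤ 1) (hst : s ≤ t) :
    |w * Lam1 n * (n : ℝ) ^ (-(1 + t))| ≤ (1 + Real.log n) ^ 2 * (n : ℝ) ^ (-(1 + s)) ∧
    |w * Lam n * (n : ℝ) ^ (-(1 + t))| ≤ (1 + Real.log n) ^ 2 * (n : ℝ) ^ (-(1 + s)) := by
  rcases Nat.eq_zero_or_pos n with rfl | hn
  · have h : Lam 0 = 0 := by simp [Lam]
    have h0 : (0 : ℝ) ≤ (1 + Real.log ((0 : ℕ) : ℝ)) ^ 2 * ((0 : ℕ) : ℝ) ^ (-(1 + s)) := by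
      simp only [Nat.cast_zero]
      positivity
    simp only [h, Lam1, mul_zero, zero_mul, abs_zero]
    exact ⟨h0, h0⟩
  · have hn' : (1 : ℝ) ≤ n := by exact_mod_cast hn
    have hl : 0 ≤ Real.log n := Real.log_nonneg hn'
    have h1 : (n : ℝ) ^ (-(1 + t)) ≤ (n : ℝ) ^ (-(1 + s)) :=
      Real.rpow_le_rpow_of_exponent_le hn' (by linarith)
    have h2 : 0 ≤ (n : ℝ) ^ (-(1 + t)) := Real.rpow_nonneg (by linarith) _
    have h3 : 0 ≤ Lam n := ArithmeticFunction.vonMangoldt_nonneg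
    have h4 : Lam n ≤ Real.log n := ArithmeticFunction.vonMangoldt_le_log
    have h5 : |Lam1 n| ≤ (1 + Real.log n) ^ 2 := by
      unfold Lam1
      rw [abs_of_nonneg (mul_nonneg h3 hl)]
      calc Lam n * Real.log n ≤ Real.log n * Real.log n := mul_le_mul_of_nonneg_right h4 hl
        _ ≤ (1 + Real.log n) ^ 2 := by linarith [mul_self_nonneg (Real.log n), sq (1 + Real.log n)]
    have h6 : |Lam n| ≤ (1 + Real.log n) ^ 2 := by
      rw [abs_of_nonneg h3]
      refine h4.trans ?_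
      have := sq_nonneg (Real.log (n : ℝ))
      linarith [this, add_sq 1 (Real.log (n : ℝ))]
    have key : ∀ x : ℝ, |x| ≤ (1 + Real.log n) ^ 2 →
        |w * x * (n : ℝ) ^ (-(1 + t))| ≤ (1 + Real.log n) ^ 2 * (n : ℝ) ^ (-(1 + s)) := by
      intro x hx
      rw [abs_mul, abs_mul, abs_of_nonneg h2]
      refine mul_le_mul ?_ h1 h2 (by positivity)
      calc |w| * |x| ≤ 1 * |x| := mul_le_mul_of_nonneg_right hw (abs_nonneg _)
        _ ≤ _ := by rw [one_mul]; exact hx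
    exact ⟨key _ h5, key _ h6⟩

theorem tDpq (h1 : SmzStmt) : DpqStmt := by
  intro q _ D a s hs
  obtain ⟨C, -, hsum, -⟩ := h1 2
  classical
  let w : ℕ → ℝ := fun n => if (n : ZMod q) = (a : ZMod q) then rr D n else 0
  have hw : ∀ n, |w n| ≤ 1 := by
    intro n
    simp only [w]
    split_ifs
    · exact Dpq_rr D n
    · simp
  have e1 : ∀ t, cU q (wt D t Lam) a = ∑' n : ℕ, w n * Lam n * (n : ℝ) ^ (-(1 + t)) := by
    intro t
    unfold cU wt
    refine tsum_congr fun n => ?_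
    simp only [w]
    split_ifs <;> simp
  have e2 : -cU q (wt D s Lam1) a = ∑' n : ℕ, -(w n * Lam1 n * (n : ℝ) ^ (-(1 + s))) := by
    unfold cU wt
    rw [tsum_neg]
    congr 1
    refine tsum_congr fun n => ?_
    simp only [w]
    split_ifs <;> simp
  simp_rw [e1]
  rw [e2]
  refine hasDerivAt_tsum_of_isPreconnected (t := Set.Ioi (s / 2)) (y₀ := s) (hsum (s / 2) (by linarith))
    isOpen_Ioi isPreconnected_Ioi (fun n y _ => Dpq_term n (w n) y) (fun n y hy => ?_)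
    (by simp only [Set.mem_Ioi]; linarith) ?_ (by simp only [Set.mem_Ioi]; linarith)
  · rw [norm_neg, Real.norm_eq_abs]
    exact (Dpq_bd n (w n) (s / 2) y (hw n) (le_of_lt hy)).1
  · refine Summable.of_norm_bounded (hsum s hs) fun n => ?_
    rw [Real.norm_eq_abs]
    exact (Dpq_bd n (w n) s s (hw n) le_rfl).2

end Pool.Agent.Lib.SG
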