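import Pool.Agent.Lib.SG.SpecB

/-!
MP_9a4459_nt, module Dya: dyadic summation.
-/

namespace Pool.Agent.Lib.SG

open Finset Pool.Agent.Lib.BV

private lemma Dya_pow (a : ℕ) (ha : a ≤ 2) (l s : ℝ) (hl : 0 ≤ l) (hs : 0 < s) :
    l ^ a ≤ 8 * s⁻¹ ^ a * Real.exp (s * l / 2) := by
  set t := s * l / 2 with ht
  have ht0 : 0 ≤ t := by rw [ht]; positivity
  have h1 := Real.quadratic_le_exp_of_nonneg ht0
  have hl2 : l = 2 * s⁻¹ * t := by
    rw [ht]
    field_simp
  have h2 : t ^ a ≤ 2 * Real.exp t := by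
    have hsq := sq_nonneg t
    interval_cases a
    · rw [pow_zero]; linarith
    · rw [pow_one]; linarith
    · linarith
  have h3 : (2 : ℝ) ^ a ≤ 4 := by
    interval_cases a <;> norm_num
  calc l ^ a = 2 ^ a * s⁻¹ ^ a * t ^ a := by
        rw [hl2, mul_pow, mul_pow]
    _ ≤ 4 * s⁻¹ ^ a * (2 * Real.exp t) := by
        apply mul_le_mul (mul_le_mul_of_nonneg_right h3 (by positivity)) h2 (by positivity) (by positivity)
    _ = 8 * s⁻¹ ^ a * Real.exp t := by ring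

private lemma Dya_block (m N : ℕ) (P : ℕ → Prop) [DecidablePred P] (Q s : ℝ) (hm : m ≤ 2) (hN : 3 ≤ N)
    (hQ : 0 ≤ Q) (hs : 0 < s)
    (hP : (((Ioc N (2 * N)).filter P).card : ℝ) ≤ Q * (N / (Real.log N) ^ m)) :
    ∑ n ∈ (Ioc N (2 * N)).filter P, (Real.log n) ^ 2 * (n : ℝ) ^ (-(1 + s)) ≤
      32 * (Q * s⁻¹ ^ (2 - m)) * (N : ℝ) ^ (-(s / 2)) := by
  have hNR : (3 : ℝ) ≤ N := by exact_mod_cast hN
  have hN0 : (0 : ℝ) < N := by linarith
  set l := Real.log N with hl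
  have hl0 : 0 < l := Real.log_pos (by linarith)
  have h1 : ∀ n ∈ (Ioc N (2 * N)).filter P, (Real.log n) ^ 2 * (n : ℝ) ^ (-(1 + s)) ≤
      4 * l ^ 2 * (N : ℝ) ^ (-(1 + s)) := by
    intro n hn
    rw [Finset.mem_filter, Finset.mem_Ioc] at hn
    have hn1 : (N : ℝ) ≤ n := by exact_mod_cast hn.1.1.le
    have hn2 : (n : ℝ) ≤ 2 * N := by exact_mod_cast hn.1.2
    have hn0 : (0 : ℝ) < n := by linarith
    have e1 : Real.log n ≤ 2 * l := by
      calc Real.log n ≤ Real.log (N * N) := Real.log_le_log hn0 (by nlinarith)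
        _ = 2 * l := by rw [Real.log_mul hN0.ne' hN0.ne']; ring
    have e2 : 0 ≤ Real.log n := Real.log_nonneg (by linarith)
    have e3 : (Real.log n) ^ 2 ≤ (2 * l) ^ 2 := pow_le_pow_left₀ e2 e1 2
    have e4 : (n : ℝ) ^ (-(1 + s)) ≤ (N : ℝ) ^ (-(1 + s)) :=
      Real.rpow_le_rpow_of_nonpos hN0 hn1 (by linarith)
    calc _ ≤ (2 * l) ^ 2 * (N : ℝ) ^ (-(1 + s)) :=
          mul_le_mul e3 e4 (Real.rpow_nonneg hn0.le _) (sq_nonneg _)
      _ = _ := by ring
  have h2 := Finset.sum_le_sum h1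
  rw [Finset.sum_const, nsmul_eq_mul] at h2
  refine h2.trans ?_
  have hr0 : 0 ≤ (N : ℝ) ^ (-(1 + s)) := Real.rpow_nonneg hN0.le _
  have h3 := mul_le_mul_of_nonneg_right hP (mul_nonneg (by positivity : 0 ≤ 4 * l ^ 2) hr0)
  refine h3.trans ?_
  have h4 : (N : ℝ) ^ (-(1 + s)) = (N : ℝ)⁻¹ * Real.exp (-(s * l)) := by
    have : -(1 + s) = -1 + -s := by ring
    rw [this, Real.rpow_add hN0, Real.rpow_neg_one, Real.rpow_def_of_pos hN0, ← hl]
    congr 2
    ring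
  have h5 : (N : ℝ) ^ (-(s / 2)) = Real.exp (-(s * l / 2)) := by
    rw [Real.rpow_def_of_pos hN0, ← hl]
    congr 1
    ring
  rw [h4, h5]
  have h6 : l ^ (2 - m) ≤ 8 * s⁻¹ ^ (2 - m) * Real.exp (s * l / 2) :=
    Dya_pow (2 - m) (by omega) l s hl0.le hs
  have h7 : l ^ 2 = l ^ (2 - m) * l ^ m := by
    rw [← pow_add]
    congr 1
    omega
  have h8 : Q * (N / l ^ m) * (4 * l ^ 2 * ((N : ℝ)⁻¹ * Real.exp (-(s * l)))) =
      4 * Q * l ^ (2 - m) * Real.exp (-(s * l)) := by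
    rw [h7]
    have : l ^ m ≠ 0 := (pow_pos hl0 m).ne'
    field_simp
  rw [h8]
  have h9 : 8 * s⁻¹ ^ (2 - m) * Real.exp (s * l / 2) * Real.exp (-(s * l)) =
      8 * s⁻¹ ^ (2 - m) * Real.exp (-(s * l / 2)) := by
    rw [mul_assoc, ← Real.exp_add]
    congr 2
    ring
  calc 4 * Q * l ^ (2 - m) * Real.exp (-(s * l)) =
        4 * Q * (l ^ (2 - m) * Real.exp (-(s * l))) := by ring
    _ ≤ 4 * Q * (8 * s⁻¹ ^ (2 - m) * Real.exp (s * l / 2) * Real.exp (-(s * l))) :=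
        mul_le_mul_of_nonneg_left (mul_le_mul_of_nonneg_right h6 (Real.exp_pos _).le) (by positivity)
    _ = 4 * Q * (8 * s⁻¹ ^ (2 - m) * Real.exp (-(s * l / 2))) := by rw [h9]
    _ = _ := by ring

theorem tDya : DyaStmt := by
  refine ⟨128, by norm_num, ?_⟩
  intro m N0 P _ Q s hm hN0 hQ hs hs1 hP X
  set f : ℕ → ℝ := fun n => (Real.log n) ^ 2 * (n : ℝ) ^ (-(1 + s)) with hf
  have hf0 : ∀ n, 0 ≤ f n := fun n => mul_nonneg (sq_nonneg _) (Real.rpow_nonneg (Nat.cast_nonneg _) _)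
  set K : ℝ := 32 * (Q * s⁻¹ ^ (2 - m)) with hK
  have hK0 : 0 ≤ K := by rw [hK]; positivity
  set r : ℝ := (1 / 2 : ℝ) ^ (s / 2) with hr
  have hr0 : 0 < r := by rw [hr]; positivity
  have hr1 : r ≤ 1 - s / 4 := by
    have h1 := rpow_one_add_le_one_add_mul_self (show (-1 : ℝ) ≤ -(1 / 2) by norm_num)
      (show 0 ≤ s / 2 by linarith) (show s / 2 ≤ 1 by linarith)
    have h2 : (1 : ℝ) + -(1 / 2) = 1 / 2 := by norm_num
    rw [h2] at h1
    rw [hr]
    linarith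
  have hind : ∀ I : ℕ, ∑ n ∈ (Ioc N0 (2 ^ I * N0)).filter P, f n ≤ K * ∑ i ∈ range I, r ^ i := by
    intro I
    induction I with
    | zero => simp
    | succ I ih =>
      rw [Finset.sum_range_succ, mul_add]
      have h1 : N0 ≤ 2 ^ I * N0 := Nat.le_mul_of_pos_left _ (by positivity)
      have h2 : (Ioc N0 (2 ^ (I + 1) * N0)).filter P =
          (Ioc N0 (2 ^ I * N0)).filter P ∪ (Ioc (2 ^ I * N0) (2 * (2 ^ I * N0))).filter P := by
        rw [← Finset.filter_union]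
        congr 1
        ext k
        simp only [Finset.mem_union, Finset.mem_Ioc]
        have : 2 ^ (I + 1) * N0 = 2 * (2 ^ I * N0) := by ring
        rw [this]
        omega
      rw [h2, Finset.sum_union]
      · have h3 := Dya_block m (2 ^ I * N0) P Q s hm (by omega) hQ hs (hP _ h1)
        have h4 : ((2 ^ I * N0 : ℕ) : ℝ) ^ (-(s / 2)) ≤ r ^ I := by
          have e1 : ((2 ^ I * N0 : ℕ) : ℝ) ^ (-(s / 2)) ≤ ((2 : ℝ) ^ I) ^ (-(s / 2)) := by
            apply Real.rpow_le_rpow_of_nonpos (by positivity) _ (by linarith)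
            push_cast
            have : (1 : ℝ) ≤ N0 := by exact_mod_cast (by omega : 1 ≤ N0)
            exact le_mul_of_one_le_right (by positivity) this
          refine e1.trans (le_of_eq ?_)
          rw [hr, ← Real.rpow_natCast, ← Real.rpow_natCast, ← Real.rpow_mul (by norm_num),
            ← Real.rpow_mul (by norm_num), one_div, Real.inv_rpow (by norm_num), ← Real.rpow_neg (by norm_num)]
          congr 1
          ring
        have h5 := mul_le_mul_of_nonneg_left h4 hK0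
        linarith
      · rw [Finset.disjoint_left]
        intro k hk hk'
        simp only [Finset.mem_filter, Finset.mem_Ioc] at hk hk'
        omega
  have hXle : X ≤ 2 ^ X * N0 := by
    have h1 : X < 2 ^ X := Nat.lt_two_pow_self
    have h2 : 2 ^ X ≤ 2 ^ X * N0 := Nat.le_mul_of_pos_right _ (by omega)
    omega
  have h1 : ∑ n ∈ (Ioc N0 X).filter P, f n ≤ ∑ n ∈ (Ioc N0 (2 ^ X * N0)).filter P, f n := by
    apply Finset.sum_le_sum_of_subset_of_nonneg
    · intro k hk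
      simp only [Finset.mem_filter, Finset.mem_Ioc] at hk ⊢
      exact ⟨⟨hk.1.1, by omega⟩, hk.2⟩
    · intro k _ _
      exact hf0 k
  refine (h1.trans (hind X)).trans ?_
  have h2 : ∑ i ∈ range X, r ^ i ≤ 4 * s⁻¹ := by
    have hne : r ≠ 1 := by linarith
    rw [geom_sum_eq hne, div_le_iff_of_neg (by linarith)]
    have h3 : 0 < r ^ X := pow_pos hr0 X
    have h4 : 4 * s⁻¹ * (r - 1) ≤ 4 * s⁻¹ * (-(s / 4)) :=
      mul_le_mul_of_nonneg_left (by linarith) (by positivity)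
    have h5 : 4 * s⁻¹ * (-(s / 4)) = -1 := by
      field_simp
    linarith
  have h3 := mul_le_mul_of_nonneg_left h2 hK0
  refine h3.trans (le_of_eq ?_)
  have h4 : s⁻¹ ^ (3 - m) = s⁻¹ ^ (2 - m) * s⁻¹ := by
    rw [← pow_succ]
    congr 1
    omega
  rw [h4, hK]
  ring

end Pool.Agent.Lib.SG
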