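import Pool.Agent.Lib.SG.SpecA

/-!
# SG/Exc: at most one exceptional real character (helper27)
-/

namespace Pool.Agent.Lib.SG

open Finset Pool.Agent.Lib.BV

private lemma Exc_wt_nonneg (D : ℕ) (s : ℝ) (n : ℕ) : 0 ≤ wt D s one n := by
  unfold wt one rr
  rw [mul_one]
  split_ifs <;> positivity

private lemma Exc_wt_le (D : ℕ) (s : ℝ) (n : ℕ) : wt D s one n ≤ (n : ℝ) ^ (-(1 + s)) := by
  unfold wt one rr
  rw [mul_one]
  split_ifs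
  · rw [one_mul]
  · rw [zero_mul]
    positivity

/-- bound for the principal character -/
private lemma Exc_one (h1 : SmzStmt) (q : ℕ) [NeZero q] (χ : DirichletCharacter ℂ q) (D : ℕ)
    (s : ℝ) (hs : 0 < s) : ‖cX χ (wt D s one)‖ ≤ ∑' n : ℕ, wt D s one n := by
  have hsum : Summable (wt D s one) := by
    obtain ⟨-, -, h2, -⟩ := h1 0
    refine Summable.of_nonneg_of_le (Exc_wt_nonneg D s) (Exc_wt_le D s) ?_
    have h3 := h2 s hs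
    simpa using h3
  have hle : ∀ n : ℕ, ‖χ (n : ZMod q) * (wt D s one n : ℂ)‖ ≤ wt D s one n := by
    intro n
    rw [norm_mul, Complex.norm_real, Real.norm_of_nonneg (Exc_wt_nonneg D s n)]
    exact mul_le_of_le_one_left (Exc_wt_nonneg D s n) (DirichletCharacter.norm_le_one χ _)
  have hs2 : Summable fun n : ℕ => ‖χ (n : ZMod q) * (wt D s one n : ℂ)‖ :=
    Summable.of_nonneg_of_le (fun _ => norm_nonneg _) hle hsum
  unfold cX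
  exact (norm_tsum_le_tsum_norm hs2).trans (hs2.tsum_le_tsum hle hsum)

/-- the final numerical contradiction -/
private lemma Exc_num (C1 C2 κ x a b c d : ℝ) (h1 : 1 ≤ C1) (h2 : 1 ≤ C2)
    (hκ : κ = 1 / (2 * C1 * (1 + C1 * C2) ^ 2)) (ha0 : 0 ≤ a) (hb0 : 0 ≤ b) (hc0 : 0 ≤ c)
    (hd0 : 0 ≤ d) (hx : x = C2 * κ) (ha : a ≤ C2 / x) (hb : b ≤ κ * (1 + C1 * C2))
    (hc : c ≤ κ * (1 + C1 * C2)) (hd : d ≤ C1) : a * b * c * d ≤ 1 / 2 := by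
  have hC1 : 0 < C1 := by linarith
  have hC2 : 0 < C2 := by linarith
  have hκ0 : 0 < κ := by
    rw [hκ]
    positivity
  have e1 : C2 / x = 1 / κ := by
    rw [hx]
    field_simp
  rw [e1] at ha
  calc a * b * c * d ≤ (1 / κ) * (κ * (1 + C1 * C2)) * (κ * (1 + C1 * C2)) * C1 := by gcongr
    _ = κ * (C1 * (1 + C1 * C2) ^ 2) := by
        field_simp
    _ = 1 / 2 := by
        rw [hκ]
        field_simp

private lemma Exc_sq (a b : ℝ) (ha : 0 ≤ a) (hb : 0 ≤ b) (h : 1 ≤ a * b * a * b) :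
    1 ≤ a * b := by
  have h1 : 1 ≤ (a * b) ^ 2 := by
    calc 1 ≤ a * b * a * b := h
      _ = (a * b) ^ 2 := by ring
  by_contra hc
  push Not at hc
  have h2 : (a * b) ^ 2 < 1 := by
    have h3 : 0 ≤ a * b := mul_nonneg ha hb
    exact pow_lt_one₀ h3 hc two_ne_zero
  linarith

/-- **Exc.** At most one exceptional real character. -/
theorem tExc (h1 : SmzStmt) (h2 : LbdStmt) (h3 : L0Stmt) (h4 : FouStmt) : ExcStmt := by
  obtain ⟨c1, d1, hc1, hd1, hL⟩ := h2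
  obtain ⟨c2, d2, hc2, hd2, hO⟩ := h3
  obtain ⟨C1, hC1⟩ : ∃ C1, C1 = max 1 c1 := ⟨_, rfl⟩
  obtain ⟨C2, hC2⟩ : ∃ C2, C2 = max 1 c2 := ⟨_, rfl⟩
  have hC11 : 1 ≤ C1 := hC1 ▸ le_max_left _ _
  have hC21 : 1 ≤ C2 := hC2 ▸ le_max_left _ _
  have hC1c : c1 ≤ C1 := hC1 ▸ le_max_right _ _
  have hC2c : c2 ≤ C2 := hC2 ▸ le_max_right _ _
  have hC10 : 0 < C1 := by linarith
  have hC20 : 0 < C2 := by linarith
  obtain ⟨κ, hκ⟩ : ∃ κ, κ = 1 / (2 * C1 * (1 + C1 * C2) ^ 2) := ⟨_, rfl⟩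
  have hκ0 : 0 < κ := by
    rw [hκ]
    positivity
  have hC2κ : C2 * κ ≤ 1 := by
    rw [hκ, mul_one_div, div_le_one (by positivity)]
    have e1 : C2 ≤ C1 * C2 := le_mul_of_one_le_left hC20.le hC11
    have e2 : 1 + C1 * C2 ≤ (1 + C1 * C2) ^ 2 := by
      have e3 : 1 ≤ 1 + C1 * C2 := by
        have := mul_pos hC10 hC20
        linarith
      calc 1 + C1 * C2 = (1 + C1 * C2) * 1 := (mul_one _).symm
        _ ≤ (1 + C1 * C2) * (1 + C1 * C2) := by gcongr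
        _ = (1 + C1 * C2) ^ 2 := by ring
    have e4 : (1 + C1 * C2) ^ 2 ≤ 2 * C1 * (1 + C1 * C2) ^ 2 :=
      le_mul_of_one_le_left (by positivity) (by linarith)
    linarith
  refine ⟨κ, max d1 d2, hκ0, le_max_of_le_left hd1, ?_⟩
  intro q _ D χ₁ χ₂ hD hqD hχ₁ hχ₂ hne hs₁ hs₂
  have hDd1 : d1 ≤ D := (le_max_left _ _).trans hD
  have hDd2 : d2 ≤ D := (le_max_right _ _).trans hD
  have hD3 : (3 : ℝ) ≤ D := hd1.trans hDd1
  have hlog : 1 ≤ Real.log D := by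
    rw [Real.le_log_iff_exp_le (by linarith)]
    have := Real.exp_one_lt_d9
    linarith
  have hlog0 : 0 < Real.log D := by linarith
  obtain ⟨ℓ, hℓ⟩ : ∃ ℓ, ℓ = Real.log D := ⟨_, rfl⟩
  rw [← hℓ] at hlog hlog0
  have hone : ∀ s : ℝ, 0 < s → s ≤ 1 / ℓ →
      ‖cX (1 : DirichletCharacter ℂ q) (wt D s one)‖ ≤ C2 / (s * ℓ) := by
    intro s hs hsl
    refine (Exc_one h1 q 1 D s hs).trans ((hO D s hDd2 hs (by rw [← hℓ]; exact hsl)).trans ?_)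
    rw [← hℓ]
    gcongr
  have h1l : 1 / ℓ ≤ 1 := by
    rw [div_le_one hlog0]
    exact hlog
  -- the value s₀
  obtain ⟨s₀, hs₀⟩ : ∃ s₀, s₀ = C2 * κ / ℓ := ⟨_, rfl⟩
  have hs₀0 : 0 < s₀ := by
    rw [hs₀]
    positivity
  have hs₀l : s₀ ≤ 1 / ℓ := by
    rw [hs₀]
    gcongr
  have hs₀1 : s₀ ≤ 1 := hs₀l.trans h1l
  have hs₀ℓ : s₀ * ℓ = C2 * κ := by
    rw [hs₀]
    field_simp
  -- the bound at s₀
  have key : ∀ χ : DirichletCharacter ℂ q, χ ≠ 1 → χ ^ 2 = 1 → ∀ s : ℝ, 0 < s → s ≤ 1 / ℓ →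
      ‖cX χ (wt D s one)‖ < κ → ‖cX χ (wt D s₀ one)‖ ≤ κ * (1 + C1 * C2) := by
    intro χ hχ hχ2 s hs hsl hlt
    have f1 := h4 q χ 1 D s hχ2 (one_pow 2) hs
    rw [mul_one] at f1
    have f2 := Exc_sq _ _ (norm_nonneg _) (norm_nonneg _) f1
    have f3 : 1 ≤ C2 / (s * ℓ) * κ := by
      refine f2.trans ?_
      exact mul_le_mul (hone s hs hsl) hlt.le (norm_nonneg _) (by positivity)
    have hss : s ≤ s₀ := by
      rw [hs₀, le_div_iff₀ hlog0]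
      rw [div_mul_eq_mul_div, le_div_iff₀ (by positivity), one_mul] at f3
      exact f3
    have f4 := (hL q D χ s hDd1 hqD hχ hs (hss.trans hs₀1)).2.2 s₀ hss hs₀1
    rw [← hℓ] at f4
    have f5 : c1 * ((s₀ - s) * ℓ) ≤ C1 * (C2 * κ) := by
      rw [← hs₀ℓ]
      have : (s₀ - s) * ℓ ≤ s₀ * ℓ := by
        apply mul_le_mul_of_nonneg_right _ hlog0.le
        linarith
      have h0 : 0 ≤ (s₀ - s) * ℓ := mul_nonneg (by linarith) hlog0.le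
      exact mul_le_mul hC1c this h0 hC10.le
    have f6 : ‖cX χ (wt D s₀ one)‖ ≤ ‖cX χ (wt D s one)‖ +
        ‖cX χ (wt D s one) - cX χ (wt D s₀ one)‖ := by
      have := norm_sub_le (cX χ (wt D s one)) (cX χ (wt D s one) - cX χ (wt D s₀ one))
      rwa [sub_sub_cancel] at this
    calc ‖cX χ (wt D s₀ one)‖ ≤ κ + C1 * (C2 * κ) := by linarith
      _ = κ * (1 + C1 * C2) := by ring
  by_contra hcon
  push Not at hcon
  obtain ⟨⟨s₁, hs₁0, hs₁l, hs₁κ⟩, ⟨s₂, hs₂0, hs₂l, hs₂κ⟩⟩ := hcon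
  rw [← hℓ] at hs₁l hs₂l
  have k1 := key χ₁ hχ₁ hs₁ s₁ hs₁0 hs₁l hs₁κ
  have k2 := key χ₂ hχ₂ hs₂ s₂ hs₂0 hs₂l hs₂κ
  have hprod : χ₁ * χ₂ ≠ 1 := by
    intro h
    apply hne
    calc χ₁ = χ₁ * χ₂ ^ 2 := by rw [hs₂, mul_one]
      _ = χ₁ * χ₂ * χ₂ := by rw [pow_two, mul_assoc]
      _ = χ₂ := by rw [h, one_mul]
  have k3 := (hL q D (χ₁ * χ₂) s₀ hDd1 hqD hprod hs₀0 hs₀1).1
  have k4 := hone s₀ hs₀0 hs₀l
  have k5 := h4 q χ₁ χ₂ D s₀ hs₁ hs₂ hs₀0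
  have k6 := Exc_num C1 C2 κ (s₀ * ℓ) _ _ _ _ hC11 hC21 hκ (norm_nonneg _) (norm_nonneg _)
    (norm_nonneg _) (norm_nonneg _) hs₀ℓ k4 k1 k2 (k3.trans hC1c)
  linarith

end Pool.Agent.Lib.SG
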