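import Pool.Agent.Lib.SG.SpecC
import Pool.Agent.Lib.SG.Wwf
import Pool.Agent.Lib.SG.Lg

/-!
MP_9a4459_nt, module Fe: the first moment.
-/

namespace Pool.Agent.Lib.SG

open Finset Pool.Agent.Lib.BV

/-- pointwise comparison -/
private lemma Fe_pt (s : ℝ) (hs : 0 < s) (p j : ℕ) (hj : 2 * j ≤ p) (hp : 4 ≤ p) :
    1 / 4 * ((Real.log p) ^ 2 * (p : ℝ) ^ (-(1 + s))) ≤ mu s (p - j) := by
  unfold mu
  have hpR : (4 : ℝ) ≤ p := by exact_mod_cast hp
  have hjp : j ≤ p := by omega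
  have hn2 : (p : ℝ) / 2 ≤ ((p - j : ℕ) : ℝ) := by
    have : p ≤ 2 * (p - j) := by omega
    have h : (p : ℝ) ≤ 2 * ((p - j : ℕ) : ℝ) := by exact_mod_cast this
    linarith
  have hnp : ((p - j : ℕ) : ℝ) ≤ p := by exact_mod_cast Nat.sub_le _ _
  set n : ℝ := ((p - j : ℕ) : ℝ) with hn
  have hn0 : 0 < n := by linarith
  have h1 : (p : ℝ) ^ (-(1 + s)) ≤ n ^ (-(1 + s)) := Real.rpow_le_rpow_of_nonpos hn0 hnp (by linarith)
  have hlp : 0 ≤ Real.log p := Real.log_nonneg (by linarith)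
  have h2 : Real.log p / 2 ≤ Real.log n := by
    have h3 : Real.sqrt p ≤ n := by
      refine le_trans ?_ hn2
      apply Real.sqrt_le_iff.2
      refine ⟨by linarith, ?_⟩
      have : (p : ℝ) * 4 ≤ p * p := mul_le_mul_of_nonneg_left hpR (by linarith)
      have h4 : ((p : ℝ) / 2) ^ 2 = p * p / 4 := by ring
      rw [h4]
      linarith
    have h4 := Real.log_le_log (Real.sqrt_pos.2 (by linarith)) h3
    rwa [Real.log_sqrt (by linarith)] at h4
  have h3 : (Real.log p / 2) ^ 2 ≤ (Real.log n) ^ 2 := pow_le_pow_left₀ (by linarith) h2 2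
  have h4 : 0 ≤ (p : ℝ) ^ (-(1 + s)) := Real.rpow_nonneg (by linarith) _
  calc 1 / 4 * ((Real.log p) ^ 2 * (p : ℝ) ^ (-(1 + s))) = (Real.log p / 2) ^ 2 * (p : ℝ) ^ (-(1 + s)) := by ring
    _ ≤ (Real.log n) ^ 2 * n ^ (-(1 + s)) := mul_le_mul h3 h1 h4 (sq_nonneg _)

theorem tFe (h1 : PhwStmt) (h2 : PnfStmt) : FeStmt := by
  intro κ hκ
  obtain ⟨c, c1, K, D0, hc, hc1, hK, hD0, hP⟩ := h2 κ hκ
  refine ⟨c / 8, c1, K, max D0 16, by positivity, hc1, hK, le_max_right _ _, ?_⟩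
  intro z e b D X j s hz h4z hgood hcop hj hs hsD hX
  have hz16 : (16 : ℝ) ≤ z := (le_max_right _ _).trans hz
  have hz16' : 16 ≤ z := by exact_mod_cast hz16
  set W := WW z e with hW
  have hW1 : 1 ≤ W := WW_pos z e
  have hW4 : W ≤ 4 ^ z := WW_le z e
  have hz4 : z < 4 ^ z := Nat.lt_pow_self (by norm_num)
  have h45 : (4 ^ z) ^ 5 ≤ D := by
    rw [← pow_mul, mul_comm z 5]
    exact h4z
  have hzD : z ≤ D := by
    have : 4 ^ z ≤ (4 ^ z) ^ 5 := Nat.le_self_pow (by norm_num) _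
    omega
  have hWD : W ^ 4 ≤ D := by
    calc W ^ 4 ≤ (4 ^ z) ^ 4 := Nat.pow_le_pow_left hW4 4
      _ ≤ (4 ^ z) ^ 5 := Nat.pow_le_pow_right (by positivity) (by norm_num)
      _ ≤ D := h45
  have hjD : 2 * j ≤ D := by
    have e1 : z ^ 2 ≤ (4 ^ z) ^ 2 := Nat.pow_le_pow_left hz4.le 2
    have e2 : 2 * (4 ^ z) ^ 2 ≤ (4 ^ z) ^ 5 := by
      have e3 : (4 ^ z) ^ 5 = (4 ^ z) ^ 3 * (4 ^ z) ^ 2 := by ring
      rw [e3]
      apply Nat.mul_le_mul_right
      calc 2 ≤ 4 ^ z := by omega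
        _ ≤ (4 ^ z) ^ 3 := Nat.le_self_pow (by norm_num) _
    omega
  have hD0D : D0 ≤ D := ((le_max_left _ _).trans hz).trans (by exact_mod_cast hzD)
  have hmain := hP W D (b + j) X s hW1 hD0D hWD hgood hcop hs hsD hX
  have hph : (W.totient : ℝ) ≤ 2 * ((W : ℝ) / Real.log z) := h1 z e (by omega)
  have hWR : (0 : ℝ) < W := by exact_mod_cast hW1
  have hphp : (0 : ℝ) < (W.totient : ℝ) := by exact_mod_cast Nat.totient_pos.2 hW1
  have hlz : 0 < Real.log z := Real.log_pos (by linarith)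
  set A : Finset ℕ := (Ioc D X).filter (fun p => p.Prime ∧ p ≡ b + j [MOD W]) with hA
  set B : Finset ℕ := (Ioc (D / 2) X).filter (fun n => n ≡ b [MOD W] ∧ (n + j).Prime) with hB
  have hAm : ∀ p ∈ A, p.Prime ∧ D < p ∧ p ≤ X ∧ p ≡ b + j [MOD W] := by
    intro p hp
    rw [hA, Finset.mem_filter, Finset.mem_Ioc] at hp
    exact ⟨hp.2.1, hp.1.1, hp.1.2, hp.2.2⟩
  have hsum1 : 1 / 4 * ∑ p ∈ A, (Real.log p) ^ 2 * (p : ℝ) ^ (-(1 + s)) ≤ ∑ p ∈ A, mu s (p - j) := by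
    rw [Finset.mul_sum]
    refine Finset.sum_le_sum fun p hp => ?_
    obtain ⟨a1, a2, a3, a4⟩ := hAm p hp
    exact Fe_pt s hs p j (by omega) (by omega)
  have hsum2 : ∑ p ∈ A, mu s (p - j) ≤ ∑ n ∈ B, mu s n := by
    rw [← Finset.sum_image (s := A) (g := fun p => p - j) (f := fun n => mu s n)]
    · apply Finset.sum_le_sum_of_subset_of_nonneg
      · intro n hn
        rw [Finset.mem_image] at hn
        obtain ⟨p, hp, rfl⟩ := hn
        obtain ⟨a1, a2, a3, a4⟩ := hAm p hp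
        rw [hB, Finset.mem_filter, Finset.mem_Ioc]
        have e1 : p - j + j = p := by omega
        refine ⟨⟨by omega, by omega⟩, ?_, by rw [e1]; exact a1⟩
        apply Nat.ModEq.add_right_cancel' j
        rw [e1]
        exact a4
      · intro n _ _
        unfold mu
        exact mul_nonneg (sq_nonneg _) (Real.rpow_nonneg (Nat.cast_nonneg _) _)
    · intro p hp p' hp' h
      simp only at h
      have a2 := (hAm p hp).2.1
      have b2 := (hAm p' hp').2.1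
      omega
  have hlow : c / 2 * (Real.log z / (W * s ^ 2)) ≤ c / ((W.totient : ℝ) * s ^ 2) := by
    have e1 : c / 2 * (Real.log z / (W * s ^ 2)) = c / (2 * ((W : ℝ) / Real.log z) * s ^ 2) := by
      field_simp
    rw [e1]
    apply div_le_div_of_nonneg_left hc.le (by positivity)
    exact mul_le_mul_of_nonneg_right hph (by positivity)
  have e1 : c / 8 * (Real.log z / ((W : ℝ) * s ^ 2)) = 1 / 4 * (c / 2 * (Real.log z / (W * s ^ 2))) := by ring
  rw [e1]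
  linarith

end Pool.Agent.Lib.SG
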