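import Pool.Agent.Lib.SG.SpecC

namespace Pool.Agent.Lib.SG

open Finset Pool.Agent.Lib.BV

open Classical in
theorem tFnl (h1 : PrpStmt) (h2 : RhoStmt) : FnlStmt := by
  obtain ⟨c₀, C₀, z0, hc₀, hC₀, hz0, hP⟩ := h1
  obtain ⟨c, hc, hc1, hcc⟩ : ∃ c : ℝ, 0 < c ∧ c ≤ 1 ∧ c ≤ c₀ :=
    ⟨min c₀ 1, lt_min hc₀ one_pos, min_le_right _ _, min_le_left _ _⟩
  obtain ⟨C, hC1, hCC⟩ : ∃ C : ℝ, 1 ≤ C ∧ C₀ ≤ C := ⟨max C₀ 1, le_max_right _ _, le_max_left _ _⟩
  have hC : 0 < C := by linarith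
  obtain ⟨x0, hx0, hR⟩ := h2 c hc
  obtain ⟨ε, hε⟩ : ∃ ε : ℝ, ε = 1 / (4 * C) := ⟨_, rfl⟩
  have hε0 : 0 < ε := by rw [hε]; positivity
  have hε1 : ε ≤ 1 / 4 := by
    rw [hε, div_le_div_iff₀ (by positivity) (by norm_num)]
    linarith
  have hCε : 4 * C * ε = 1 := by rw [hε]; field_simp
  obtain ⟨M, hMe, hMz, hMx⟩ : ∃ M : ℝ, 8 / ε ≤ M ∧ z0 ≤ M ∧ x0 ≤ M :=
    ⟨max (8 / ε) (max z0 x0), le_max_left _ _, (le_max_left _ _).trans (le_max_right _ _),
      (le_max_right _ _).trans (le_max_right _ _)⟩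
  have hM0 : 16 ≤ M := hz0.trans hMz
  refine ⟨c ^ 2 * ε / 8, 4 * C / c, by positivity, by positivity, ⌈M ^ 4⌉₊, ?_⟩
  intro G hG
  have hGM : M ^ 4 ≤ G := (Nat.le_ceil _).trans (by exact_mod_cast hG)
  -- the fourth root
  obtain ⟨w, hw0, hw4⟩ : ∃ w : ℝ, 0 ≤ w ∧ w ^ 4 = G := by
    refine ⟨Real.sqrt (Real.sqrt G), Real.sqrt_nonneg _, ?_⟩
    have : (Real.sqrt (Real.sqrt (G : ℝ))) ^ 4 = ((Real.sqrt (Real.sqrt (G : ℝ))) ^ 2) ^ 2 := by
      ring
    rw [this, Real.sq_sqrt (Real.sqrt_nonneg _), Real.sq_sqrt (Nat.cast_nonneg _)]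
  have hwM : M ≤ w := by
    apply le_of_pow_le_pow_left₀ (n := 4) (by norm_num) hw0
    rw [hw4]
    exact hGM
  have hw16 : 16 ≤ w := hM0.trans hwM
  have hwpos : 0 < w := by linarith
  have hww : w ≤ w ^ 2 := by nlinarith
  have hw24 : w ^ 2 ≤ w ^ 4 := by
    have : (1 : ℝ) ≤ w ^ 2 := by nlinarith
    nlinarith
  have hGpos : (0 : ℝ) < G := by rw [← hw4]; positivity
  have hGw : w ≤ G := by rw [← hw4]; linarith
  have hlogG : Real.log G ≤ 4 * w := by
    rw [← hw4, Real.log_pow]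
    have := Real.log_le_sub_one_of_pos hwpos
    push_cast
    linarith
  have hlogGpos : 0 < Real.log G := Real.log_pos (by linarith)
  obtain ⟨hρG, hρG1, hρGl, -⟩ := hR G (hMx.trans (hwM.trans hGw))
  -- lower bound for ε G rho G
  have hlow : w ^ 2 ≤ ε / 2 * (G * rho G) := by
    have e1 : 1 / (4 * w) ≤ rho G := by
      refine le_trans ?_ hρGl
      apply div_le_div_of_nonneg_left (by norm_num) hlogGpos hlogG
    have e2 : ε / 2 * (G * (1 / (4 * w))) ≤ ε / 2 * (G * rho G) := by gcongr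
    refine le_trans ?_ e2
    have e3 : ε / 2 * (G * (1 / (4 * w))) = ε / 8 * w * w ^ 2 := by
      rw [← hw4]; field_simp; ring
    rw [e3]
    have e4 : 1 ≤ ε / 8 * w := by
      have : 8 / ε ≤ w := hMe.trans hwM
      rw [div_le_iff₀ hε0] at this
      linarith
    nlinarith [sq_nonneg w]
  set z : ℕ := ⌊ε * (G * rho G)⌋₊ with hz
  have hzle : (z : ℝ) ≤ ε * (G * rho G) := Nat.floor_le (by positivity)
  have hzge : ε / 2 * (G * rho G) ≤ z := by
    have e1 : ε * (G * rho G) - 1 < z := Nat.sub_one_lt_floor _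
    have e2 : (1 : ℝ) ≤ w ^ 2 := by nlinarith
    linarith
  have hzw : w ^ 2 ≤ z := hlow.trans hzge
  have hzM : M ≤ z := hwM.trans (hww.trans hzw)
  have hzpos : (0 : ℝ) < z := by linarith
  have hzG : (z : ℝ) ≤ G := by
    calc (z : ℝ) ≤ ε * (G * rho G) := hzle
      _ ≤ 1 * (G * 1) := by
          have : rho G ≤ 1 := hρG1.trans hc1
          gcongr
          linarith
      _ = G := by ring
  have hGz : (G : ℝ) ≤ (z : ℝ) ^ 2 := by
    rw [← hw4]
    calc w ^ 4 = (w ^ 2) ^ 2 := by ring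
      _ ≤ (z : ℝ) ^ 2 := by gcongr
  obtain ⟨hρz, hρz1, hρzl, hρzc⟩ := hR z (hMx.trans hzM)
  obtain ⟨hc1', hc2'⟩ := hρzc G hzG hGz
  obtain ⟨y, L, hy, hyL, hL, hcard⟩ := hP z (hMz.trans hzM)
  have hzr : 0 < (z : ℝ) / rho z := by positivity
  have hy' : c * (z / rho z) ≤ y := le_trans (by gcongr) hy
  have hL' : (L : ℝ) ≤ C * (z / rho z) := hL.trans (by gcongr)
  have hyLr : (y : ℝ) ≤ L := by exact_mod_cast hyL
  -- L ≤ G
  have hLG : (L : ℝ) ≤ G := by
    have e1 : (z : ℝ) / rho z ≤ 4 * ε * G := by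
      rw [div_le_iff₀ hρz]
      calc (z : ℝ) ≤ ε * (G * rho G) := hzle
        _ ≤ ε * (G * (4 * rho z)) := by gcongr
        _ = 4 * ε * G * rho z := by ring
    calc (L : ℝ) ≤ C * (z / rho z) := hL'
      _ ≤ C * (4 * ε * G) := by gcongr
      _ = (4 * C * ε) * G := by ring
      _ = G := by rw [hCε, one_mul]
  -- y ≥ c ε G / 8
  have hyG : c * ε / 8 * G ≤ y := by
    refine le_trans ?_ hy'
    have e1 : ε / 8 * G ≤ z / rho z := by
      rw [le_div_iff₀ hρz]
      calc ε / 8 * G * rho z ≤ ε / 8 * G * (4 * rho G) := by gcongr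
        _ = ε / 2 * (G * rho G) := by ring
        _ ≤ z := hzge
    calc c * ε / 8 * G = c * (ε / 8 * G) := by ring
      _ ≤ _ := by gcongr
  have hzy : (z : ℝ) ≤ y := by
    refine le_trans ?_ hy'
    rw [mul_div_assoc', le_div_iff₀ hρz]
    calc (z : ℝ) * rho z ≤ z * c := by gcongr
      _ = c * z := mul_comm _ _
  have hLz : (L : ℝ) ≤ (z : ℝ) ^ 2 := by
    have e1 : 1 / rho z ≤ Real.log z := by
      have e0 : 0 < Real.log z := Real.log_pos (by linarith)
      rw [div_le_iff₀ hρz]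
      rw [div_le_iff₀ e0] at hρzl
      linarith
    have e2 : C * Real.log z ≤ z := by
      set v := Real.sqrt z with hv
      have hv2 : v ^ 2 = z := Real.sq_sqrt hzpos.le
      have hv0 : 0 ≤ v := Real.sqrt_nonneg _
      have hvw : w ≤ v := by
        apply le_of_pow_le_pow_left₀ (n := 2) (by norm_num) hv0
        rw [hv2]; exact hzw
      have hvp : 0 < v := by linarith
      have e3 : Real.log z ≤ 2 * v := by
        rw [← hv2, Real.log_pow]
        have := Real.log_le_sub_one_of_pos hvp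
        push_cast
        linarith
      have e4 : 2 * C ≤ v := by
        have e5 : 8 / ε ≤ v := hMe.trans (hwM.trans hvw)
        have e6 : 8 / ε = 32 * C := by rw [hε]; field_simp; norm_num
        linarith
      calc C * Real.log z ≤ C * (2 * v) := by gcongr
        _ = 2 * C * v := by ring
        _ ≤ v * v := by gcongr
        _ = z := by rw [← hv2]; ring
    calc (L : ℝ) ≤ C * (z / rho z) := hL'
      _ = C * (1 / rho z) * z := by ring
      _ ≤ C * Real.log z * z := by gcongr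
      _ ≤ z * z := by gcongr
      _ = (z : ℝ) ^ 2 := by ring
  -- the count
  have hcnt : c * L ≤ (((Icc y L).filter (fun g => ∃ q : ℕ, GapAt g q ∧
      Real.log q ≤ C₀ * z)).card : ℝ) := le_trans (by gcongr) hcard
  calc c ^ 2 * ε / 8 * G = c * (c * ε / 8 * G) := by ring
    _ ≤ c * L := by
        have := hyG.trans hyLr
        gcongr
    _ ≤ _ := hcnt
    _ ≤ _ := by
        have hsub : ((Icc y L).filter (fun g => ∃ q : ℕ, GapAt g q ∧ Real.log q ≤ C₀ * z)) ⊆
            ((Icc 1 G).filter (fun g => ∃ q : ℕ, IsLeast {q' : ℕ | GapAt g q'} q ∧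
              Real.log q ≤ 4 * C / c * (g * rho g))) := by
          intro g hg
          rw [mem_filter, mem_Icc] at hg ⊢
          obtain ⟨⟨hyg, hgL⟩, q', hq', hlq'⟩ := hg
          have hex : ∃ q, GapAt g q := ⟨q', hq'⟩
          have hgLr : (g : ℝ) ≤ L := by exact_mod_cast hgL
          have hygr : (y : ℝ) ≤ g := by exact_mod_cast hyg
          refine ⟨⟨hq'.2.2.2.1, ?_⟩, Nat.find hex, ⟨Nat.find_spec hex, fun r hr =>
            Nat.find_min' hex hr⟩, ?_⟩
          · exact_mod_cast hgLr.trans hLG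
          · have e1 : Real.log (Nat.find hex : ℕ) ≤ Real.log q' := by
              apply Real.log_le_log
              · exact_mod_cast (Nat.find_spec hex).1.pos
              · exact_mod_cast Nat.find_min' hex hq'
            have e2 : rho z ≤ 4 * rho g :=
              (hρzc g (hzy.trans hygr) (hgLr.trans hLz)).1
            have e3 : (z : ℝ) ≤ g / c * rho z := by
              have e4 : c * (z / rho z) ≤ g := hy'.trans hygr
              have e5 : (z : ℝ) / rho z ≤ g / c := by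
                rw [le_div_iff₀ hc]; linarith
              rwa [div_le_iff₀ hρz] at e5
            calc Real.log (Nat.find hex : ℕ) ≤ Real.log q' := e1
              _ ≤ C₀ * z := hlq'
              _ ≤ C * z := by gcongr
              _ ≤ C * (g / c * rho z) := by gcongr
              _ ≤ C * (g / c * (4 * rho g)) := by gcongr
              _ = 4 * C / c * (g * rho g) := by ring
        exact_mod_cast Finset.card_le_card hsub

end Pool.Agent.Lib.SG
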