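import Pool.Agent.Lib.SG.SpecA

/-!
# SG/Fou: two real characters (helper27)
-/

namespace Pool.Agent.Lib.SG

open Finset Pool.Agent.Lib.BV

private lemma Fou_re (x : ℝ) : (-Complex.log (1 - 1 * (x : ℂ))).re = -Real.log |1 - x| := by
  rw [Complex.neg_re, Complex.log_re, one_mul, ← Complex.ofReal_one, ← Complex.ofReal_sub,
    Complex.norm_real, Real.norm_eq_abs]

private lemma Fou_re' (x : ℝ) : (-Complex.log (1 - (-1) * (x : ℂ))).re = -Real.log |1 + x| := by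
  rw [Complex.neg_re, Complex.log_re, neg_one_mul, sub_neg_eq_add, ← Complex.ofReal_one,
    ← Complex.ofReal_add, Complex.norm_real, Real.norm_eq_abs]

/-- the local factor -/
private lemma Fou_loc (x : ℝ) (h0 : 0 ≤ x) (h1 : x < 1) (e₁ e₂ : ℂ) (he₁ : e₁ = 1 ∨ e₁ = -1)
    (he₂ : e₂ = 1 ∨ e₂ = -1) :
    0 ≤ (-Complex.log (1 - 1 * (x : ℂ))).re + (-Complex.log (1 - e₁ * (x : ℂ))).re +
      (-Complex.log (1 - e₂ * (x : ℂ))).re + (-Complex.log (1 - e₁ * e₂ * (x : ℂ))).re := by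
  have hA : 0 ≤ -Real.log |1 - x| := by
    rw [abs_of_pos (by linarith)]
    have := Real.log_nonpos (by linarith : (0 : ℝ) ≤ 1 - x) (by linarith)
    linarith
  have hAB : 0 ≤ -Real.log |1 - x| + -Real.log |1 + x| := by
    rw [abs_of_pos (by linarith), abs_of_pos (by linarith)]
    have e : Real.log (1 - x) + Real.log (1 + x) = Real.log (1 - x ^ 2) := by
      rw [← Real.log_mul (by linarith) (by linarith)]
      congr 1
      ring
    have h2 : 0 ≤ 1 - x ^ 2 := by nlinarith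
    have := Real.log_nonpos h2 (by nlinarith)
    linarith
  rcases he₁ with rfl | rfl <;> rcases he₂ with rfl | rfl
  · rw [one_mul (1 : ℂ), Fou_re]
    linarith
  · rw [one_mul (-1 : ℂ), Fou_re, Fou_re']
    linarith
  · rw [mul_one (-1 : ℂ), Fou_re, Fou_re']
    linarith
  · rw [neg_mul_neg, one_mul (1 : ℂ), Fou_re, Fou_re']
    linarith

/-- the product of the four values -/
private lemma Fou_main (M : ℕ) (ψ₁ ψ₂ : DirichletCharacter ℂ M) (s : ℝ) (hs : 0 < s)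
    (h₁ : ψ₁ ^ 2 = 1) (h₂ : ψ₂ ^ 2 = 1) :
    1 ≤ ‖LSeries (fun n => (1 : DirichletCharacter ℂ M) (n : ZMod M)) (1 + (s : ℂ))‖ *
      ‖LSeries (fun n => ψ₁ (n : ZMod M)) (1 + (s : ℂ))‖ *
      ‖LSeries (fun n => ψ₂ (n : ZMod M)) (1 + (s : ℂ))‖ *
      ‖LSeries (fun n => (ψ₁ * ψ₂) (n : ZMod M)) (1 + (s : ℂ))‖ := by
  have hre : 1 < (1 + (s : ℂ)).re := by
    rw [Complex.add_re, Complex.one_re, Complex.ofReal_re]
    linarith
  have S := fun ψ : DirichletCharacter ℂ M =>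
    DirichletCharacter.summable_neg_log_one_sub_mul_prime_cpow ψ hre
  have E := fun ψ : DirichletCharacter ℂ M =>
    DirichletCharacter.LSeries_eulerProduct_exp_log ψ hre
  rw [← E 1, ← E ψ₁, ← E ψ₂, ← E (ψ₁ * ψ₂), Complex.norm_exp, Complex.norm_exp,
    Complex.norm_exp, Complex.norm_exp, ← Real.exp_add, ← Real.exp_add, ← Real.exp_add,
    Real.one_le_exp_iff, Complex.re_tsum (S 1), Complex.re_tsum (S ψ₁), Complex.re_tsum (S ψ₂),
    Complex.re_tsum (S (ψ₁ * ψ₂))]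
  have R := fun ψ : DirichletCharacter ℂ M => (Complex.hasSum_re (S ψ).hasSum).summable
  rw [← (R 1).tsum_add (R ψ₁), ← ((R 1).add (R ψ₁)).tsum_add (R ψ₂),
    ← (((R 1).add (R ψ₁)).add (R ψ₂)).tsum_add (R (ψ₁ * ψ₂))]
  refine tsum_nonneg fun p => ?_
  have hx : ((p : ℕ) : ℂ) ^ (-(1 + (s : ℂ))) = (((p : ℕ) : ℝ) ^ (-(1 + s)) : ℝ) := by
    rw [Complex.ofReal_cpow (Nat.cast_nonneg _)]
    push_cast
    rfl
  by_cases hu : IsUnit ((p : ℕ) : ZMod M)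
  · have hsq : ∀ ψ : DirichletCharacter ℂ M, ψ ^ 2 = 1 →
        ψ ((p : ℕ) : ZMod M) = 1 ∨ ψ ((p : ℕ) : ZMod M) = -1 := by
      intro ψ hψ
      have e : (ψ ^ 2) ((p : ℕ) : ZMod M) = (1 : DirichletCharacter ℂ M) ((p : ℕ) : ZMod M) := by
        rw [hψ]
      rw [MulChar.pow_apply' ψ two_ne_zero, MulChar.one_apply hu, ← one_pow 2] at e
      exact sq_eq_sq_iff_eq_or_eq_neg.mp e
    have hlt : ((p : ℕ) : ℝ) ^ (-(1 + s)) < 1 := by
      rw [Real.rpow_neg (Nat.cast_nonneg _), inv_lt_one_iff₀]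
      exact Or.inr (Real.one_lt_rpow (by exact_mod_cast p.2.one_lt) (by linarith))
    have key := Fou_loc (((p : ℕ) : ℝ) ^ (-(1 + s))) (by positivity) hlt
      (ψ₁ ((p : ℕ) : ZMod M)) (ψ₂ ((p : ℕ) : ZMod M)) (hsq ψ₁ h₁) (hsq ψ₂ h₂)
    rw [hx, MulChar.one_apply hu, MulChar.mul_apply]
    exact key
  · rw [MulChar.map_nonunit _ hu, MulChar.map_nonunit _ hu, MulChar.map_nonunit _ hu,
      MulChar.map_nonunit _ hu]
    simp

/-- **Fou.** Two real characters. -/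
theorem tFou (h1 : LchStmt) : FouStmt := by
  intro q _ χ₁ χ₂ D s hχ₁ hχ₂ hs
  obtain ⟨M, _, Φ, -, hΦ⟩ := h1 q D
  rw [hΦ 1 s hs, hΦ χ₁ s hs, hΦ χ₂ s hs, hΦ (χ₁ * χ₂) s hs, map_one, map_mul]
  exact Fou_main M (Φ χ₁) (Φ χ₂) s hs (by rw [← map_pow, hχ₁, map_one])
    (by rw [← map_pow, hχ₂, map_one])

end Pool.Agent.Lib.SG
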