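import Pool.Agent.Lib.SG.SpecC

/-!
MP_9a4459_nt, module Fsq: the second moment.
-/

namespace Pool.Agent.Lib.SG

open Finset Pool.Agent.Lib.BV

theorem tFsq (h : WtuStmt) : FsqStmt := by
  classical
  obtain ⟨C, z0, hC, hz0, hW⟩ := h
  refine ⟨C, max z0 16, hC, le_max_right _ _, ?_⟩
  intro z W b N0 X s J hz hW1 hWz hWN h4z hs hs1 hJ
  obtain ⟨_, w2, w3⟩ := hW z W b N0 X s ((le_max_left _ _).trans hz) hW1 hWz hWN h4z hs hs1
  have hWR : (0 : ℝ) < W := by exact_mod_cast hW1
  have hz16 : (16 : ℝ) ≤ z := (le_max_right _ _).trans hz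
  have hlz : 0 < Real.log z := Real.log_pos (by linarith)
  set S : Finset ℕ := (Ioc N0 X).filter (fun n => n ≡ b [MOD W]) with hS
  set a1 : ℝ := C * Real.log z / (W * s ^ 2) with ha1
  set a2 : ℝ := C * (Real.log z) ^ 2 / (W * s) with ha2
  have ha1p : 0 ≤ a1 := by rw [ha1]; positivity
  have ha2p : 0 ≤ a2 := by rw [ha2]; positivity
  have hsq : ∀ n : ℕ, (((J.filter (fun j => (n + j).Prime)).card : ℝ)) ^ 2 =
      ∑ j ∈ J, ∑ j' ∈ J, (if (n + j).Prime ∧ (n + j').Prime then 1 else 0) := by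
    intro n
    have e1 : ((J.filter (fun j => (n + j).Prime)).card : ℝ) =
        ∑ j ∈ J, (if (n + j).Prime then (1 : ℝ) else 0) := by
      rw [← Finset.sum_filter, Finset.sum_const, nsmul_eq_mul, mul_one]
    rw [e1, sq, Finset.sum_mul_sum]
    refine Finset.sum_congr rfl fun j _ => Finset.sum_congr rfl fun j' _ => ?_
    by_cases h1 : (n + j).Prime <;> by_cases h2 : (n + j').Prime <;> simp [h1, h2]
  have hpair : ∀ j ∈ J, ∀ j' ∈ J, ∑ n ∈ S, mu s n * (if (n + j).Prime ∧ (n + j').Prime then 1 else 0) ≤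
      (if j = j' then a1 else 0) + a2 := by
    intro j hj j' hj'
    have e1 : ∑ n ∈ S, mu s n * (if (n + j).Prime ∧ (n + j').Prime then 1 else 0) =
        ∑ n ∈ (Ioc N0 X).filter (fun n => n ≡ b [MOD W] ∧ (n + j).Prime ∧ (n + j').Prime), mu s n := by
      rw [hS, Finset.sum_filter, Finset.sum_filter]
      refine Finset.sum_congr rfl fun n _ => ?_
      by_cases h1 : n ≡ b [MOD W] <;> by_cases h2 : (n + j).Prime <;> by_cases h3 : (n + j').Prime <;>
        simp [h1, h2, h3]
    rw [e1]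
    rcases lt_trichotomy j j' with h | h | h
    · rw [if_neg (by omega), zero_add]
      have e2 := w3 j (j' - j) (by omega) (by have := hJ j hj j' hj'; omega)
      have e3 : ∀ n, n + (j + (j' - j)) = n + j' := fun n => by omega
      simp only [e3] at e2
      exact e2
    · subst h
      rw [if_pos rfl]
      have e2 := w2 j
      have e3 : ∑ n ∈ (Ioc N0 X).filter (fun n => n ≡ b [MOD W] ∧ (n + j).Prime ∧ (n + j).Prime), mu s n =
          ∑ n ∈ (Ioc N0 X).filter (fun n => n ≡ b [MOD W] ∧ (n + j).Prime), mu s n := by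
        congr 1
        ext n
        simp only [Finset.mem_filter, and_self]
      rw [e3]
      unfold mu
      linarith
    · rw [if_neg (by omega), zero_add]
      have e2 := w3 j' (j - j') (by omega) (by have := hJ j' hj' j hj; omega)
      have e3 : ∀ n, n + (j' + (j - j')) = n + j := fun n => by omega
      simp only [e3] at e2
      have e4 : (Ioc N0 X).filter (fun n => n ≡ b [MOD W] ∧ (n + j).Prime ∧ (n + j').Prime) =
          (Ioc N0 X).filter (fun n => n ≡ b [MOD W] ∧ (n + j').Prime ∧ (n + j).Prime) := by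
        ext n
        simp only [Finset.mem_filter]
        tauto
      rw [e4]
      exact e2
  have hexp : ∑ n ∈ S, mu s n * (((J.filter (fun j => (n + j).Prime)).card : ℝ)) ^ 2 =
      ∑ j ∈ J, ∑ j' ∈ J, ∑ n ∈ S, mu s n * (if (n + j).Prime ∧ (n + j').Prime then 1 else 0) := by
    simp only [hsq, Finset.mul_sum]
    rw [Finset.sum_comm]
    refine Finset.sum_congr rfl fun j _ => ?_
    rw [Finset.sum_comm]
  rw [hexp]
  have hbd := Finset.sum_le_sum fun j hj => Finset.sum_le_sum fun j' hj' => hpair j hj j' hj'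
  refine hbd.trans (le_of_eq ?_)
  have e1 : ∑ j ∈ J, ∑ j' ∈ J, ((if j = j' then a1 else 0) + a2) =
      (J.card : ℝ) * a1 + (J.card : ℝ) ^ 2 * a2 := by
    simp only [Finset.sum_add_distrib, Finset.sum_ite_eq, Finset.sum_const, nsmul_eq_mul]
    rw [← Finset.sum_filter, Finset.filter_mem_eq_inter, Finset.inter_self, Finset.sum_const, nsmul_eq_mul]
    ring
  rw [e1, ha1, ha2]
  field_simp

end Pool.Agent.Lib.SG
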