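import Pool.Agent.Lib.SG.SpecC

/-!
MP_9a4459_nt, module Gap: consecutive primes from two occupied windows.
-/

namespace Pool.Agent.Lib.SG

open Finset Pool.Agent.Lib.BV

theorem tGap : GapStmt := by
  classical
  intro z e b k w y n hnb hzn hzon hocc
  obtain ⟨i, hi, i', hi', hii, ⟨j1, hj1, hp1⟩, j2, hj2, hp2⟩ := hocc
  have hnot : ∀ m < k, ∀ r ∈ zon z w y m, ¬ (n + r).Prime := by
    intro m hm r hr hpr
    obtain ⟨p, hp, h1, h2⟩ := Nat.Prime.not_coprime_iff_dvd.1 (hzon m hm r hr)
    have hpz : p ≤ z := by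
      unfold WW at h2
      rw [hp.prime.dvd_finsetProd_iff] at h2
      obtain ⟨q, hq, hpq⟩ := h2
      rw [Finset.mem_filter, Finset.mem_Icc] at hq
      have := (Nat.prime_dvd_prime_iff_eq hp hq.2.1).1 hpq
      omega
    have h3 : n ≡ b [MOD p] := hnb.of_dvd h2
    have h4 : n + r ≡ b + r [MOD p] := h3.add_right r
    have h5 : p ∣ n + r := (Nat.modEq_zero_iff_dvd.1 (h4.trans (Nat.modEq_zero_iff_dvd.2 h1)))
    have h6 := (Nat.prime_dvd_prime_iff_eq hp hpr).1 h5
    unfold zon at hr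
    rw [Finset.mem_Ioc] at hr
    omega
  set a : ℕ := z + i * (w + y) + w with ha
  set S : Finset ℕ := (Ioc z a).filter (fun j => (n + j).Prime) with hS
  have hj1S : j1 ∈ S := by
    unfold win at hj1
    rw [Finset.mem_Ioc] at hj1
    rw [hS, Finset.mem_filter, Finset.mem_Ioc]
    have : 0 ≤ i * (w + y) := Nat.zero_le _
    exact ⟨⟨by omega, hj1.2⟩, hp1⟩
  set j : ℕ := S.max' ⟨j1, hj1S⟩ with hj
  have hjS : j ∈ S := Finset.max'_mem _ _
  have hjmax : ∀ x ∈ S, x ≤ j := fun x hx => Finset.le_max' _ _ hx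
  rw [hS, Finset.mem_filter, Finset.mem_Ioc] at hjS
  obtain ⟨⟨hjz, hja⟩, hjp⟩ := hjS
  have hjlow : z + i * (w + y) < j := by
    have := hjmax j1 hj1S
    unfold win at hj1
    rw [Finset.mem_Ioc] at hj1
    omega
  have hmul : (i + 1) * (w + y) ≤ i' * (w + y) := Nat.mul_le_mul_right _ hii
  have hmul' : (i + 1) * (w + y) = i * (w + y) + (w + y) := by ring
  have hex : ∃ x, a < x ∧ (n + x).Prime := by
    refine ⟨j2, ?_, hp2⟩
    unfold win at hj2
    rw [Finset.mem_Ioc] at hj2
    omega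
  set j' : ℕ := Nat.find hex with hj'
  obtain ⟨hj'a, hj'p⟩ := Nat.find_spec hex
  rw [← hj'] at hj'a hj'p
  have hj'min : ∀ x, a < x → (n + x).Prime → j' ≤ x := fun x h1 h2 => Nat.find_min' hex ⟨h1, h2⟩
  have hj'2 : j' ≤ j2 := by
    apply hj'min j2 _ hp2
    unfold win at hj2
    rw [Finset.mem_Ioc] at hj2
    omega
  have hmulk : (i' + 1) * (w + y) ≤ k * (w + y) := Nat.mul_le_mul_right _ hi'
  have hmulk' : (i' + 1) * (w + y) = i' * (w + y) + (w + y) := by ring
  have hj2k : j2 ≤ z + k * (w + y) := by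
    unfold win at hj2
    rw [Finset.mem_Ioc] at hj2
    omega
  have hwy : 0 < w + y := by
    rcases Nat.eq_zero_or_pos (w + y) with h | h
    · rw [h, mul_zero] at hj2k
      omega
    · exact h
  -- the index of j'
  set m : ℕ := (j' - z - 1) / (w + y) with hm
  have hm1 : m * (w + y) ≤ j' - z - 1 := Nat.div_mul_le_self _ _
  have hm2 : j' - z - 1 < (m + 1) * (w + y) := by
    rw [add_mul, one_mul]
    exact Nat.lt_div_mul_add hwy
  have hm2' : (m + 1) * (w + y) = m * (w + y) + (w + y) := by ring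
  have hmk : m < k := by
    have h1 : m * (w + y) < k * (w + y) := by omega
    exact Nat.lt_of_mul_lt_mul_right h1
  have hmi : i ≤ m := by
    have h1 : i * (w + y) < (m + 1) * (w + y) := by omega
    have := Nat.lt_of_mul_lt_mul_right h1
    omega
  have hwin : j' ∈ win z w y m := by
    unfold win
    rw [Finset.mem_Ioc]
    refine ⟨by omega, ?_⟩
    by_contra h
    push Not at h
    apply hnot m hmk j' _ hj'p
    unfold zon
    rw [Finset.mem_Ioc]
    exact ⟨h, by omega⟩
  have hmi2 : i + 1 ≤ m := by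
    rcases Nat.lt_or_ge i m with h | h
    · exact h
    · exfalso
      have : m = i := by omega
      rw [this] at hwin
      unfold win at hwin
      rw [Finset.mem_Ioc] at hwin
      omega
  have hmul3 : (i + 1) * (w + y) ≤ m * (w + y) := Nat.mul_le_mul_right _ hmi2
  have hjj : j + y < j' := by omega
  have hsum : j + (j' - j) = j' := by omega
  refine ⟨j, j' - j, ⟨i, hi, ?_⟩, ⟨m, hmk, by rw [hsum]; exact hwin⟩, by omega, by omega, by omega, ?_⟩
  · unfold win
    rw [Finset.mem_Ioc]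
    exact ⟨hjlow, hja⟩
  · rw [hsum]
    have hq : n + j' - (j' - j) = n + j := by omega
    refine ⟨hj'p, by omega, by rw [hq]; exact hjp, by omega, ?_⟩
    intro r hr1 hr2 hrp
    rw [hq] at hr1
    obtain ⟨x, rfl⟩ : ∃ x, r = n + x := ⟨r - n, by omega⟩
    rcases Nat.lt_or_ge a x with h | h
    · have := hj'min x h hrp
      omega
    · have hxS : x ∈ S := by
        rw [hS, Finset.mem_filter, Finset.mem_Ioc]
        exact ⟨⟨by omega, h⟩, hrp⟩
      have := hjmax x hxS
      omega

end Pool.Agent.Lib.SG
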