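import Pool.Agent.Lib.SG.SpecB

/-!
MP_9a4459_nt, module Gcr: counting by the Chinese remainder theorem.
-/

namespace Pool.Agent.Lib.SG

open Finset Pool.Agent.Lib.BV

private lemma Gcr_count (B : Finset ℕ) (R : ℕ → Finset ℕ) (hB : ∀ p ∈ B, p.Prime ∧ R p ⊆ range p) :
    ((range (∏ p ∈ B, p)).filter (fun c => ∀ p ∈ B, c % p ∈ R p)).card = ∏ p ∈ B, (R p).card := by
  classical
  induction B using Finset.induction_on with
  | empty => simp
  | insert q B hq ih =>
    have ih' := ih (fun p hp => hB p (Finset.mem_insert_of_mem hp))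
    have hqp : q.Prime := (hB q (Finset.mem_insert_self q B)).1
    have hqR : R q ⊆ range q := (hB q (Finset.mem_insert_self q B)).2
    rw [Finset.prod_insert hq, Finset.prod_insert hq, ← ih', ← Finset.card_product]
    set M : ℕ := ∏ p ∈ B, p with hM
    have hM0 : 0 < M := Finset.prod_pos fun p hp => (hB p (Finset.mem_insert_of_mem hp)).1.pos
    have hco : Nat.Coprime q M := by
      apply Nat.Coprime.prod_right
      intro p hp
      exact (Nat.coprime_primes hqp (hB p (Finset.mem_insert_of_mem hp)).1).2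
        (fun h => hq (h ▸ hp))
    have hdvd : ∀ p ∈ B, p ∣ M := fun p hp => Finset.dvd_prod_of_mem _ hp
    have hmod : ∀ c p, p ∈ B → (c % M) % p = c % p := fun c p hp => Nat.mod_mod_of_dvd c (hdvd p hp)
    refine Finset.card_nbij' (fun c => (c % q, c % M))
      (fun w => ((Nat.chineseRemainder hco w.1 w.2 : ℕ))) ?_ ?_ ?_ ?_
    · intro c hc
      simp only [Finset.coe_filter, Finset.mem_range, Set.mem_ofPred_eq] at hc
      simp only [Finset.coe_product, Set.mem_prod, Finset.mem_coe, Finset.mem_filter,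
        Finset.mem_range]
      refine ⟨hc.2 q (Finset.mem_insert_self q B), Nat.mod_lt _ hM0, fun p hp => ?_⟩
      rw [hmod c p hp]
      exact hc.2 p (Finset.mem_insert_of_mem hp)
    · rintro ⟨a, b⟩ hw
      simp only [Finset.coe_product, Set.mem_prod, Finset.mem_coe, Finset.mem_filter,
        Finset.mem_range] at hw
      obtain ⟨ha, hb, hb2⟩ := hw
      simp only [Finset.coe_filter, Finset.mem_range, Set.mem_ofPred_eq]
      refine ⟨Nat.chineseRemainder_lt_mul hco a b hqp.ne_zero hM0.ne', ?_⟩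
      intro p hp
      rw [Finset.mem_insert] at hp
      have h1 : (Nat.chineseRemainder hco a b : ℕ) ≡ a [MOD q] := (Nat.chineseRemainder hco a b).2.1
      have h2 : (Nat.chineseRemainder hco a b : ℕ) ≡ b [MOD M] := (Nat.chineseRemainder hco a b).2.2
      rcases hp with hp | hp
      · subst hp
        have h3 : (Nat.chineseRemainder hco a b : ℕ) % p = a := by
          rw [h1, Nat.mod_eq_of_lt (Finset.mem_range.1 (hqR ha))]
        rw [h3]
        exact ha
      · have h3 : (Nat.chineseRemainder hco a b : ℕ) % p = b % p := h2.of_dvd (hdvd p hp)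
        rw [h3]
        exact hb2 p hp
    · intro c hc
      simp only [Finset.coe_filter, Finset.mem_range, Set.mem_ofPred_eq] at hc
      simp only
      have h1 : (Nat.chineseRemainder hco (c % q) (c % M) : ℕ) ≡ c % q [MOD q] :=
        (Nat.chineseRemainder hco (c % q) (c % M)).2.1
      have h2 : (Nat.chineseRemainder hco (c % q) (c % M) : ℕ) ≡ c % M [MOD M] :=
        (Nat.chineseRemainder hco (c % q) (c % M)).2.2
      have h3 : (Nat.chineseRemainder hco (c % q) (c % M) : ℕ) ≡ c [MOD q * M] := by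
        rw [← Nat.modEq_and_modEq_iff_modEq_mul hco]
        exact ⟨h1.trans (Nat.mod_modEq c q), h2.trans (Nat.mod_modEq c M)⟩
      have h4 : (Nat.chineseRemainder hco (c % q) (c % M) : ℕ) < q * M :=
        Nat.chineseRemainder_lt_mul hco _ _ hqp.ne_zero hM0.ne'
      exact Nat.ModEq.eq_of_lt_of_lt h3 h4 hc.1
    · rintro ⟨a, b⟩ hw
      simp only [Finset.coe_product, Set.mem_prod, Finset.mem_coe, Finset.mem_filter,
        Finset.mem_range] at hw
      obtain ⟨ha, hb, hb2⟩ := hw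
      have h1 : (Nat.chineseRemainder hco a b : ℕ) ≡ a [MOD q] := (Nat.chineseRemainder hco a b).2.1
      have h2 : (Nat.chineseRemainder hco a b : ℕ) ≡ b [MOD M] := (Nat.chineseRemainder hco a b).2.2
      have h3 : (Nat.chineseRemainder hco a b : ℕ) % q = a := by
        rw [h1, Nat.mod_eq_of_lt (Finset.mem_range.1 (hqR ha))]
      have h4 : (Nat.chineseRemainder hco a b : ℕ) % M = b := by
        rw [h2, Nat.mod_eq_of_lt hb]
      simp only [h3, h4]

private lemma Gcr_class (M c N N2 : ℕ) (hM : 0 < M) (hN : N ≤ N2) :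
    |(((Ioc N N2).filter (fun n => n % M = c % M)).card : ℝ) - ((N2 : ℝ) - N) / M| ≤ 1 := by
  have h1 := Nat.Ioc_filter_modEq_card N N2 hM c
  have h2 : ((Ioc N N2).filter (fun n => n % M = c % M)).card =
      ((Ioc N N2).filter (fun n => n ≡ c [MOD M])).card := rfl
  have hM0 : (0 : ℚ) < M := by exact_mod_cast hM
  have hNQ : (N : ℚ) ≤ N2 := by exact_mod_cast hN
  have h3 : |(((Ioc N N2).filter (fun n => n ≡ c [MOD M])).card : ℚ) - ((N2 : ℚ) - N) / M| ≤ 1 := by
    have h4 : (((Ioc N N2).filter (fun n => n ≡ c [MOD M])).card : ℚ) =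
        ((max (⌊((N2 : ℚ) - c) / (M : ℚ)⌋ - ⌊((N : ℚ) - c) / (M : ℚ)⌋) 0 : ℤ) : ℚ) := by
      exact_mod_cast h1
    have h5 : ⌊((N : ℚ) - c) / (M : ℚ)⌋ ≤ ⌊((N2 : ℚ) - c) / (M : ℚ)⌋ := by
      apply Int.floor_le_floor
      exact div_le_div_of_nonneg_right (by linarith) hM0.le
    rw [h4, max_eq_left (by omega)]
    push_cast
    have a1 := Int.floor_le (((N2 : ℚ) - c) / (M : ℚ))
    have a2 := Int.lt_floor_add_one (((N2 : ℚ) - c) / (M : ℚ))
    have a3 := Int.floor_le (((N : ℚ) - c) / (M : ℚ))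
    have a4 := Int.lt_floor_add_one (((N : ℚ) - c) / (M : ℚ))
    have a5 : ((N2 : ℚ) - N) / M = ((N2 : ℚ) - c) / (M : ℚ) - ((N : ℚ) - c) / (M : ℚ) := by
      rw [← sub_div]
      congr 1
      ring
    rw [a5, abs_le]
    constructor
    · linarith
    · linarith
  rw [h2]
  have h6 : ((|(((Ioc N N2).filter (fun n => n ≡ c [MOD M])).card : ℚ) - ((N2 : ℚ) - N) / M| : ℚ) : ℝ) ≤
      ((1 : ℚ) : ℝ) := Rat.cast_le.2 h3
  simp only [Rat.cast_abs, Rat.cast_sub, Rat.cast_div, Rat.cast_natCast, Rat.cast_one] at h6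
  exact h6

theorem tGcr : GcrStmt := by
  classical
  intro B R N N2 hN hB
  set M : ℕ := ∏ p ∈ B, p with hM
  have hM0 : 0 < M := Finset.prod_pos fun p hp => (hB p hp).1.pos
  have hdvd : ∀ p ∈ B, p ∣ M := fun p hp => Finset.dvd_prod_of_mem _ hp
  set Cs : Finset ℕ := (range M).filter (fun c => ∀ p ∈ B, c % p ∈ R p) with hCs
  have hCcard : Cs.card = ∏ p ∈ B, (R p).card := Gcr_count B R hB
  have hmap : ∀ n ∈ (Ioc N N2).filter (fun n => ∀ p ∈ B, n % p ∈ R p), n % M ∈ Cs := by
    intro n hn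
    rw [Finset.mem_filter] at hn
    rw [hCs, Finset.mem_filter, Finset.mem_range]
    refine ⟨Nat.mod_lt _ hM0, fun p hp => ?_⟩
    rw [Nat.mod_mod_of_dvd n (hdvd p hp)]
    exact hn.2 p hp
  have h1 : ((Ioc N N2).filter (fun n => ∀ p ∈ B, n % p ∈ R p)).card =
      ∑ c ∈ Cs, ((Ioc N N2).filter (fun n => n % M = c % M)).card := by
    rw [Finset.card_eq_sum_card_fiberwise hmap]
    refine Finset.sum_congr rfl fun c hc => ?_
    rw [hCs, Finset.mem_filter, Finset.mem_range] at hc
    congr 1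
    ext n
    simp only [Finset.mem_filter, Nat.mod_eq_of_lt hc.1]
    constructor
    · rintro ⟨⟨a1, a2⟩, a3⟩
      exact ⟨a1, a3⟩
    · rintro ⟨a1, a3⟩
      refine ⟨⟨a1, fun p hp => ?_⟩, a3⟩
      have a4 := hc.2 p hp
      rw [← a3, Nat.mod_mod_of_dvd n (hdvd p hp)] at a4
      exact a4
  have h2 : ((N2 : ℝ) - N) * ∏ p ∈ B, ((R p).card : ℝ) / p = ∑ c ∈ Cs, ((N2 : ℝ) - N) / M := by
    have hMR : (M : ℝ) = ∏ p ∈ B, (p : ℝ) := by
      rw [hM]
      push_cast
      rfl
    rw [Finset.sum_const, nsmul_eq_mul, hCcard, Finset.prod_div_distrib, hMR]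
    push_cast
    ring
  have h3 : ∏ p ∈ B, ((R p).card : ℝ) = ∑ c ∈ Cs, (1 : ℝ) := by
    rw [Finset.sum_const, nsmul_eq_mul, mul_one, hCcard]
    push_cast
    rfl
  rw [h1, h2, h3]
  push_cast
  rw [← Finset.sum_sub_distrib]
  refine (Finset.abs_sum_le_sum_abs _ _).trans (Finset.sum_le_sum fun c _ => ?_)
  exact Gcr_class M c N N2 hM0 hN

end Pool.Agent.Lib.SG
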