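import Pool.Agent.Lib.SG.SpecA

/-!
MP_9a4459_nt, directory Lib/SG, module Gdf: the Selberg sums are equidistributed (helper82).
-/

namespace Pool.Agent.Lib.SG

open Finset Pool.Agent.Lib.BV

private lemma Gdf_rr_le (D n : ℕ) : 0 ≤ rr D n ∧ rr D n ≤ 1 := by
  classical
  unfold rr
  split_ifs <;> norm_num

private lemma Gdf_rr_mul (D m n : ℕ) : rr D (m * n) = rr D m * rr D n := by
  classical
  have h : Rough D (m * n) ↔ Rough D m ∧ Rough D n := by
    constructor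
    · intro h
      exact ⟨fun p hp hd => h p hp (hd.mul_right n), fun p hp hd => h p hp (hd.mul_left m)⟩
    · rintro ⟨h1, h2⟩ p hp hd
      rcases (Nat.Prime.dvd_mul hp).1 hd with h3 | h3
      · exact h1 p hp h3
      · exact h2 p hp h3
  unfold rr
  by_cases h1 : Rough D m
  · by_cases h2 : Rough D n
    · rw [if_pos (h.2 ⟨h1, h2⟩), if_pos h1, if_pos h2, one_mul]
    · rw [if_neg (fun h3 => h2 (h.1 h3).2), if_neg h2, mul_zero]
  · rw [if_neg (fun h3 => h1 (h.1 h3).1), if_neg h1, zero_mul]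

private lemma Gdf_wt_zero (D : ℕ) (s : ℝ) (hs : 0 < s) (g : ℕ → ℝ) : wt D s g 0 = 0 := by
  unfold wt
  rw [Nat.cast_zero, Real.zero_rpow (by linarith), mul_zero]

private lemma Gdf_wt_cop (q D : ℕ) [NeZero q] (hq : q ≤ D) (s : ℝ) (g : ℕ → ℝ) (n : ℕ)
    (hn : ¬ n.Coprime q) : wt D s g n = 0 := by
  classical
  obtain ⟨p, hp, hp1, hp2⟩ := Nat.Prime.not_coprime_iff_dvd.1 hn
  unfold wt rr
  rw [if_neg, zero_mul, zero_mul]
  intro h
  have h1 := h p hp hp1
  have h2 := Nat.le_of_dvd (Nat.pos_of_ne_zero (NeZero.ne q)) hp2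
  omega

private lemma Gdf_bd (D : ℕ) (s : ℝ) (hs : 0 < s) (g : ℕ → ℝ) (k : ℕ)
    (hg : ∀ n : ℕ, 1 ≤ n → |g n| ≤ (1 + Real.log n) ^ k) (n : ℕ) :
    ‖wt D s g n‖ ≤ (1 + Real.log n) ^ k * (n : ℝ) ^ (-(1 + s)) := by
  rcases Nat.eq_zero_or_pos n with rfl | hn
  · rw [Gdf_wt_zero D s hs, norm_zero, Nat.cast_zero, Real.zero_rpow (by linarith), mul_zero]
  · unfold wt
    have h1 := Gdf_rr_le D n
    have h2 : (0 : ℝ) ≤ (n : ℝ) ^ (-(1 + s)) := Real.rpow_nonneg (Nat.cast_nonneg _) _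
    rw [norm_mul, norm_mul, Real.norm_of_nonneg h1.1, Real.norm_of_nonneg h2, Real.norm_eq_abs]
    apply mul_le_mul_of_nonneg_right _ h2
    calc rr D n * |g n| ≤ 1 * |g n| := mul_le_mul_of_nonneg_right h1.2 (abs_nonneg _)
      _ = |g n| := one_mul _
      _ ≤ _ := hg n hn

private lemma Gdf_summ (h1 : SmzStmt) (D : ℕ) (s : ℝ) (hs : 0 < s) (g : ℕ → ℝ) (k : ℕ)
    (hg : ∀ n : ℕ, 1 ≤ n → |g n| ≤ (1 + Real.log n) ^ k) : Summable (wt D s g) := by
  obtain ⟨C, _, h, _⟩ := h1 k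
  exact Summable.of_norm_bounded (h s hs) (Gdf_bd D s hs g k hg)

private lemma Gdf_conv (D : ℕ) (s : ℝ) (hs : 0 < s) (f g h : ℕ → ℝ)
    (hfg : ∀ n : ℕ, 1 ≤ n → h n = ∑ w ∈ n.divisorsAntidiagonal, f w.1 * g w.2) (n : ℕ) :
    ∑ w ∈ n.divisorsAntidiagonal, wt D s f w.1 * wt D s g w.2 = wt D s h n := by
  rcases Nat.eq_zero_or_pos n with rfl | hn
  · rw [Gdf_wt_zero D s hs]
    simp
  · have h1 : ∀ w ∈ n.divisorsAntidiagonal, wt D s f w.1 * wt D s g w.2 =
        rr D n * (n : ℝ) ^ (-(1 + s)) * (f w.1 * g w.2) := by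
      intro w hw
      have h2 := (Nat.mem_divisorsAntidiagonal.1 hw).1
      unfold wt
      rw [← h2, Gdf_rr_mul, Nat.cast_mul, Real.mul_rpow (Nat.cast_nonneg _) (Nat.cast_nonneg _)]
      ring
    rw [sum_congr rfl h1, ← mul_sum, ← hfg n hn]
    unfold wt
    ring

private lemma Gdf_total (q : ℕ) [NeZero q] (G : ℕ → ℝ) (hG : Summable G) (h0 : ∀ n, 0 ≤ G n) :
    ∑ b : (ZMod q)ˣ, cU q G b ≤ ∑' n, G n := by
  classical
  have hs : ∀ b : (ZMod q)ˣ, Summable (fun n : ℕ => if (n : ZMod q) = (b : ZMod q) then G n else 0) := by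
    intro b
    refine Summable.of_norm_bounded hG (fun n => ?_)
    split_ifs
    · rw [Real.norm_of_nonneg (h0 n)]
    · rw [norm_zero]
      exact h0 n
  have h1 : ∑ b : (ZMod q)ˣ, cU q G b =
      ∑' n : ℕ, ∑ b : (ZMod q)ˣ, if (n : ZMod q) = (b : ZMod q) then G n else 0 := by
    unfold cU
    exact (Summable.tsum_finsetSum (fun b _ => hs b)).symm
  rw [h1]
  refine Summable.tsum_le_tsum (fun n => ?_) (summable_sum (fun b _ => hs b)) hG
  by_cases hn : ∃ b : (ZMod q)ˣ, (n : ZMod q) = (b : ZMod q)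
  · obtain ⟨b, hb⟩ := hn
    rw [Finset.sum_eq_single b]
    · rw [if_pos hb]
    · intro c _ hc
      rw [if_neg]
      intro h
      exact hc (Units.ext (h.symm.trans hb))
    · intro h
      exact absurd (mem_univ _) h
  · rw [Finset.sum_eq_zero]
    · exact h0 n
    · intro b _
      rw [if_neg (fun h => hn ⟨b, h⟩)]

private lemma Gdf_abs (q : ℕ) [NeZero q] (F G : ℕ → ℝ) (hG : Summable G) (hFG : ∀ n, |F n| ≤ G n)
    (b : (ZMod q)ˣ) : |cU q F b| ≤ cU q G b := by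
  classical
  have h0 : ∀ n, 0 ≤ G n := fun n => (abs_nonneg _).trans (hFG n)
  have hs : Summable (fun n : ℕ => if (n : ZMod q) = (b : ZMod q) then G n else 0) := by
    refine Summable.of_norm_bounded hG (fun n => ?_)
    split_ifs
    · rw [Real.norm_of_nonneg (h0 n)]
    · rw [norm_zero]
      exact h0 n
  unfold cU
  rw [← Real.norm_eq_abs]
  refine tsum_of_norm_bounded hs.hasSum (fun n => ?_)
  split_ifs
  · exact hFG n
  · rw [norm_zero]

/-- **Gdf.** -/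
theorem tGdf (h1 : SmzStmt) (h2 : DifStmt) (h3 : L0Stmt) (h4 : CnvStmt) (h5 : SidStmt) :
    GdfStmt := by
  classical
  obtain ⟨C1, D1, hC1, hD1, hdif⟩ := h2
  obtain ⟨C2, D2, hC2, hD2, hl0⟩ := h3
  refine ⟨C1 * C2, max D1 D2, mul_pos hC1 hC2, le_trans hD1 (le_max_left _ _), ?_⟩
  intro q _ D a a' s hD hq hs hsL
  have hD3 : (3 : ℝ) ≤ D := hD1.trans ((le_max_left _ _).trans hD)
  have hlog : 1 < Real.log D := by
    rw [Real.lt_log_iff_exp_lt (by linarith)]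
    have := Real.exp_one_lt_d9
    linarith
  have hs1 : s ≤ 1 := by
    refine hsL.trans ?_
    rw [div_le_one (by linarith)]
    exact hlog.le
  have hq1 : 1 ≤ q := Nat.pos_of_ne_zero (NeZero.ne q)
  have hqD : q ≤ D := by
    have : q ≤ q ^ 4 := Nat.le_self_pow (by norm_num) q
    omega
  have hφ : (0 : ℝ) < (q.totient : ℝ) := by exact_mod_cast Nat.totient_pos.2 hq1
  -- the functions
  obtain ⟨μ, hμ⟩ : ∃ μ : ℕ → ℝ, ∀ n, μ n = ((ArithmeticFunction.moebius n : ℤ) : ℝ) :=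
    ⟨_, fun _ => rfl⟩
  have hμ1 : ∀ n, |μ n| ≤ 1 := by
    intro n
    rw [hμ, ← Int.cast_abs]
    exact_mod_cast ArithmeticFunction.abs_moebius_le_one
  have hgm : ∀ n : ℕ, gm 2 n = (Real.log n) ^ 2 := by
    intro n
    unfold gm
    split_ifs with h
    · rw [h, Nat.cast_one, Real.log_one]
      norm_num
    · rfl
  have hF : Summable (wt D s μ) := Gdf_summ h1 D s hs μ 0 (fun n _ => by
    rw [pow_zero]
    exact hμ1 n)
  have hO : Summable (wt D s one) := Gdf_summ h1 D s hs one 0 (fun n _ => by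
    rw [pow_zero]
    unfold one
    norm_num)
  have hH : Summable (wt D s (gm 2)) := Gdf_summ h1 D s hs (gm 2) 2 (fun n hn => by
    have h0 : 0 ≤ Real.log n := Real.log_natCast_nonneg n
    rw [hgm, abs_of_nonneg (sq_nonneg _)]
    exact pow_le_pow_left₀ h0 (by linarith) 2)
  have hconv : ∀ n : ℕ, ∑ w ∈ n.divisorsAntidiagonal, wt D s μ w.1 * wt D s (gm 2) w.2 =
      wt D s Lam2 n := by
    apply Gdf_conv D s hs
    intro n hn
    rw [h5 n hn]
    refine sum_congr rfl (fun w _ => ?_)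
    rw [hμ, hgm]
  have hcnv := (h4 q (wt D s μ) (wt D s (gm 2)) hF hH (Gdf_wt_zero D s hs _) (Gdf_wt_zero D s hs _)
    (fun n hn => Gdf_wt_cop q D hqD s _ n hn) (fun n hn => Gdf_wt_cop q D hqD s _ n hn)).2
  have hfun : (fun n : ℕ => ∑ w ∈ n.divisorsAntidiagonal, wt D s μ w.1 * wt D s (gm 2) w.2) =
      wt D s Lam2 := funext hconv
  rw [hfun] at hcnv
  rw [hcnv a, hcnv a', ← sum_sub_distrib]
  have hdb : ∀ b ∈ (univ : Finset (ZMod q)ˣ),
      |cU q (wt D s μ) b * cU q (wt D s (gm 2)) (b⁻¹ * a) -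
        cU q (wt D s μ) b * cU q (wt D s (gm 2)) (b⁻¹ * a')| ≤
      cU q (wt D s one) b * (C1 * ((Real.log D) ^ 2 / (q.totient : ℝ))) := by
    intro b _
    rw [← mul_sub, abs_mul]
    have e1 := (hdif q D (b⁻¹ * a) (b⁻¹ * a') s ((le_max_left _ _).trans hD) hq hs hs1).1 2 le_rfl
    have e2 := Gdf_abs q (wt D s μ) (wt D s one) hO (by
      intro n
      unfold wt one
      have h1 := Gdf_rr_le D n
      have h2 : (0 : ℝ) ≤ (n : ℝ) ^ (-(1 + s)) := Real.rpow_nonneg (Nat.cast_nonneg _) _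
      rw [abs_mul, abs_mul, abs_of_nonneg h1.1, abs_of_nonneg h2]
      exact mul_le_mul_of_nonneg_right (mul_le_mul_of_nonneg_left (hμ1 n) h1.1) h2) b
    exact mul_le_mul e2 e1 (abs_nonneg _) ((abs_nonneg _).trans e2)
  have hO0 : ∀ n, 0 ≤ wt D s one n := by
    intro n
    unfold wt one
    have h1 := Gdf_rr_le D n
    have h2 : (0 : ℝ) ≤ (n : ℝ) ^ (-(1 + s)) := Real.rpow_nonneg (Nat.cast_nonneg _) _
    exact mul_nonneg (mul_nonneg h1.1 zero_le_one) h2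
  have e3 := (abs_sum_le_sum_abs _ _).trans (sum_le_sum hdb)
  rw [← sum_mul] at e3
  have e4 := (Gdf_total q (wt D s one) hO hO0).trans (hl0 D s ((le_max_right _ _).trans hD) hs hsL)
  have e5 : 0 ≤ C1 * ((Real.log D) ^ 2 / (q.totient : ℝ)) := by positivity
  refine e3.trans ((mul_le_mul_of_nonneg_right e4 e5).trans (le_of_eq ?_))
  have hL0 : Real.log D ≠ 0 := by linarith
  have hs0 : s ≠ 0 := hs.ne'
  have hφ0 : (q.totient : ℝ) ≠ 0 := hφ.ne'
  field_simp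

end Pool.Agent.Lib.SG
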