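import Pool.Agent.Lib.SG.SpecA

namespace Pool.Agent.Lib.SG

open Finset Pool.Agent.Lib.BV

private theorem Gid_rr0 (D n : ℕ) : 0 ≤ rr D n := by
  unfold rr
  split_ifs <;> norm_num

private theorem Gid_rr1 (D n : ℕ) : rr D n ≤ 1 := by
  unfold rr
  split_ifs <;> norm_num

private theorem Gid_rrmul (D m n : ℕ) : rr D (m * n) = rr D m * rr D n := by
  have h : Rough D (m * n) ↔ Rough D m ∧ Rough D n := by
    constructor
    · intro h
      exact ⟨fun p hp hpm => h p hp (dvd_mul_of_dvd_left hpm n),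
        fun p hp hpn => h p hp (dvd_mul_of_dvd_right hpn m)⟩
    · rintro ⟨h1, h2⟩ p hp hpmn
      rcases (Nat.Prime.dvd_mul hp).1 hpmn with h | h
      · exact h1 p hp h
      · exact h2 p hp h
  unfold rr
  by_cases h1 : Rough D m <;> by_cases h2 : Rough D n
  · rw [if_pos (h.2 ⟨h1, h2⟩), if_pos h1, if_pos h2, mul_one]
  · rw [if_neg (fun h' => h2 (h.1 h').2), if_neg h2, mul_zero]
  · rw [if_neg (fun h' => h1 (h.1 h').1), if_neg h1, zero_mul]
  · rw [if_neg (fun h' => h1 (h.1 h').1), if_neg h1, zero_mul]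

private theorem Gid_Lam0 (n : ℕ) : 0 ≤ Lam n := ArithmeticFunction.vonMangoldt_nonneg

private theorem Gid_LamL (n : ℕ) : Lam n ≤ Real.log n := ArithmeticFunction.vonMangoldt_le_log

private theorem Gid_sum (hSmz : SmzStmt) {D : ℕ} {s : ℝ} (hs : 0 < s) (k : ℕ) {g : ℕ → ℝ}
    (h0 : ∀ n, 0 ≤ g n) (hg : ∀ n, g n ≤ (1 + Real.log n) ^ k) : Summable (wt D s g) := by
  obtain ⟨_, _, hsm, _⟩ := hSmz k
  have hr : ∀ n : ℕ, 0 ≤ (n : ℝ) ^ (-(1 + s)) := fun n => Real.rpow_nonneg (Nat.cast_nonneg n) _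
  refine Summable.of_nonneg_of_le (fun n => ?_) (fun n => ?_) (hsm s hs)
  · unfold wt
    exact mul_nonneg (mul_nonneg (Gid_rr0 D n) (h0 n)) (hr n)
  · unfold wt
    apply mul_le_mul_of_nonneg_right _ (hr n)
    calc rr D n * g n ≤ g n := mul_le_of_le_one_left (h0 n) (Gid_rr1 D n)
      _ ≤ _ := hg n

theorem tGid (h1 : SmzStmt) (h2 : CnvStmt) : GidStmt := by
  intro q _ D a s hqD hD hs
  have hS : Summable (wt D s Lam) := by
    refine Gid_sum h1 hs 1 Gid_Lam0 fun n => ?_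
    rw [pow_one]
    have := Gid_LamL n
    linarith
  have hS1 : Summable (wt D s Lam1) := by
    refine Gid_sum h1 hs 2 (fun n => ?_) fun n => ?_
    · exact mul_nonneg (Gid_Lam0 n) (Real.log_natCast_nonneg n)
    · have e1 := Gid_LamL n
      have e2 := Gid_Lam0 n
      have e3 := Real.log_natCast_nonneg n
      unfold Lam1
      nlinarith
  have hF0 : wt D s Lam 0 = 0 := by
    unfold wt Lam
    simp
  have hFc : ∀ n : ℕ, ¬ n.Coprime q → wt D s Lam n = 0 := by
    intro n hn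
    obtain ⟨p, hp, hpn, hpq⟩ := Nat.Prime.not_coprime_iff_dvd.1 hn
    have hpD : p ≤ D := (Nat.le_of_dvd (Nat.pos_of_ne_zero (NeZero.ne q)) hpq).trans hqD
    unfold wt rr
    rw [if_neg, zero_mul, zero_mul]
    intro h
    have := h p hp hpn
    omega
  obtain ⟨hC, hCa⟩ := h2 q (wt D s Lam) (wt D s Lam) hS hS hF0 hF0 hFc hFc
  have hconv : ∀ n : ℕ, wt D s Lam2 n = wt D s Lam1 n +
      ∑ w ∈ n.divisorsAntidiagonal, wt D s Lam w.1 * wt D s Lam w.2 := by
    intro n
    have e1 : ∑ w ∈ n.divisorsAntidiagonal, wt D s Lam w.1 * wt D s Lam w.2 =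
        rr D n * (∑ w ∈ n.divisorsAntidiagonal, Lam w.1 * Lam w.2) * (n : ℝ) ^ (-(1 + s)) := by
      rw [Finset.mul_sum, Finset.sum_mul]
      refine Finset.sum_congr rfl fun w hw => ?_
      rw [Nat.mem_divisorsAntidiagonal] at hw
      have e2 : rr D n = rr D w.1 * rr D w.2 := by rw [← hw.1, Gid_rrmul]
      have e3 : (n : ℝ) ^ (-(1 + s)) = (w.1 : ℝ) ^ (-(1 + s)) * (w.2 : ℝ) ^ (-(1 + s)) := by
        rw [← hw.1, Nat.cast_mul, Real.mul_rpow (Nat.cast_nonneg _) (Nat.cast_nonneg _)]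
      unfold wt
      rw [e2, e3]; ring
    rw [e1]
    unfold wt Lam2
    ring
  have hfe : wt D s Lam2 = fun n => wt D s Lam1 n +
      ∑ w ∈ n.divisorsAntidiagonal, wt D s Lam w.1 * wt D s Lam w.2 := funext hconv
  refine ⟨?_, ?_⟩
  · rw [hfe]
    exact hS1.add hC
  · rw [← hCa a]
    unfold cU
    have e1 : Summable fun n : ℕ => (if (n : ZMod q) = (a : ZMod q) then wt D s Lam1 n else 0) := by
      refine Summable.of_norm_bounded hS1.norm fun n => ?_
      split_ifs
      · exact le_refl _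
      · simp
    have e2 : Summable fun n : ℕ => (if (n : ZMod q) = (a : ZMod q) then
        ∑ w ∈ n.divisorsAntidiagonal, wt D s Lam w.1 * wt D s Lam w.2 else 0) := by
      refine Summable.of_norm_bounded hC.norm fun n => ?_
      split_ifs
      · exact le_refl _
      · simp
    rw [← e1.tsum_add e2]
    refine tsum_congr fun n => ?_
    rw [hconv n]
    split_ifs
    · rfl
    · simp

end Pool.Agent.Lib.SG
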