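import Pool.Agent.Lib.SG.SpecB

/-!
MP_9a4459_nt, module Gsv: the upper bound sieve.
-/

namespace Pool.Agent.Lib.SG

open Finset Pool.Agent.Lib.BV

private lemma Gsv_fact (i : ℕ) : 5040 * 2 ^ i ≤ (2 * (i + 3) + 1).factorial := by
  induction i with
  | zero => decide
  | succ i ih =>
    have h1 : 2 * (i + 1 + 3) + 1 = (2 * (i + 3) + 1) + 1 + 1 := by ring
    rw [h1, Nat.factorial_succ, Nat.factorial_succ]
    have h2 : 2 * (5040 * 2 ^ i) ≤ (2 * (i + 3) + 1 + 1 + 1) *
        ((2 * (i + 3) + 1 + 1) * (2 * (i + 3) + 1).factorial) := by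
      have h3 : (2 * (i + 3) + 1).factorial ≤ (2 * (i + 3) + 1 + 1) * (2 * (i + 3) + 1).factorial :=
        Nat.le_mul_of_pos_left _ (by omega)
      exact Nat.mul_le_mul (by omega) (ih.trans h3)
    calc 5040 * 2 ^ (i + 1) = 2 * (5040 * 2 ^ i) := by ring
      _ ≤ _ := h2

private lemma Gsv_eta (t : ℕ) :
    ∑ i ∈ range t, Pool.Agent.MP0a1886.eta (fun i => i + 3) i ≤ 1 := by
  have h1 : ∀ i ∈ range t, Pool.Agent.MP0a1886.eta (fun i => i + 3) i ≤ (1 / 630) * (1 / 2 : ℝ) ^ i := by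
    intro i _
    unfold Pool.Agent.MP0a1886.eta
    have h2 : ((5040 * 2 ^ i : ℕ) : ℝ) ≤ ((2 * (i + 3) + 1).factorial : ℝ) := by
      exact_mod_cast Gsv_fact i
    have h3 : (1 / 630) * (1 / 2 : ℝ) ^ i = 8 / ((5040 * 2 ^ i : ℕ) : ℝ) := by
      push_cast
      rw [one_div_pow]
      field_simp
      norm_num
    rw [h3]
    apply div_le_div_of_nonneg_left (by norm_num) (by positivity) h2
  refine (Finset.sum_le_sum h1).trans ?_
  rw [← Finset.mul_sum]
  have h4 : ∑ i ∈ range t, (1 / 2 : ℝ) ^ i ≤ 2 := by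
    rw [geom_sum_eq (by norm_num)]
    have : (0 : ℝ) < (1 / 2 : ℝ) ^ t := by positivity
    rw [div_le_iff_of_neg (by norm_num)]
    linarith
  linarith

theorem tGsv (h1 : GcrStmt) (h2 : GadStmt) (h3 : GblStmt) : GsvStmt := by
  classical
  obtain ⟨ps, E, hps, hE, hB⟩ := h3
  refine ⟨3, ps, E, by norm_num, hps, hE, ?_⟩
  intro y T R N N2 hN hT
  have hcardle : (((Ioc N N2).filter (fun n => ∀ p ∈ T, n % p ∉ R p)).card : ℝ) ≤ (N2 : ℝ) - N := by
    have h := Finset.card_filter_le (Ioc N N2) (fun n => ∀ p ∈ T, n % p ∉ R p)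
    rw [Nat.card_Ioc] at h
    have h' : (((Ioc N N2).filter (fun n => ∀ p ∈ T, n % p ∉ R p)).card : ℝ) ≤ ((N2 - N : ℕ) : ℝ) := by
      exact_mod_cast h
    rwa [Nat.cast_sub hN] at h'
  have hNR : (N : ℝ) ≤ N2 := by exact_mod_cast hN
  by_cases hy : ps < y
  swap
  · have hTe : T = ∅ := by
      apply Finset.eq_empty_of_forall_notMem
      intro p hp
      obtain ⟨_, q1, q2, _⟩ := hT p hp
      omega
    subst hTe
    have hyE : (0 : ℝ) ≤ (y : ℝ) ^ E := by positivity
    rw [Finset.prod_empty]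
    linarith
  rcases hN.eq_or_lt with heq | hlt
  · subst heq
    simp
  have hX : (0 : ℝ) < (N2 : ℝ) - N := by
    have : (N : ℝ) < N2 := by exact_mod_cast hlt
    linarith
  set X : ℝ := (N2 : ℝ) - N with hXdef
  obtain ⟨t, _, hr, hκ, hprod, _⟩ := hB y hy
  set x : ℕ → ℝ := fun p => ((R p).card : ℝ) / p with hx
  have hxb : ∀ p ∈ T, 0 ≤ x p ∧ x p ≤ 1 / 2 ∧ x p ≤ 4 / p := by
    intro p hp
    obtain ⟨hpp, q1, q2, q3, q4⟩ := hT p hp
    have hp0 : (0 : ℝ) < p := by exact_mod_cast hpp.pos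
    have hp16 : (16 : ℝ) ≤ p := by exact_mod_cast (by omega : 16 ≤ p)
    have hc : ((R p).card : ℝ) ≤ 4 := by exact_mod_cast q4
    have hc0 : (0 : ℝ) ≤ ((R p).card : ℝ) := Nat.cast_nonneg _
    refine ⟨by positivity, ?_, ?_⟩
    · rw [hx]
      simp only
      rw [div_le_iff₀ hp0]
      linarith
    · exact div_le_div_of_nonneg_right hc hp0.le
  have hr' : ∀ p ∈ T, rb y p < t := fun p hp => hr p (hT p hp).2.1 (hT p hp).2.2.1
  -- the sieve
  have hs := Pool.Agent.MP0a1886.sieve_upper (Ω := ↥(Ioc N N2)) (fun _ => 1 / X)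
    (fun ω => T.filter (fun p => ω.1 % p ∈ R p)) (fun _ => by positivity) T
    (fun ω => Finset.filter_subset _ _) (rb y) t (fun i => i + 3) x hr'
  have hκ' : ∀ i < t, ∑ P ∈ T.filter (fun P => rb y P = i), x P ≤ 1 := by
    intro i _
    refine le_trans ?_ (hκ i)
    refine (Finset.sum_le_sum (g := fun P : ℕ => 4 / (P : ℝ)) fun p hp => ?_).trans ?_
    · exact (hxb p (Finset.mem_filter.1 hp).1).2.2
    · apply Finset.sum_le_sum_of_subset_of_nonneg
      · intro p hp
        rw [Finset.mem_filter] at hp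
        obtain ⟨hpp, q1, q2, q3, q4⟩ := hT p hp.1
        rw [Finset.mem_filter, Finset.mem_Ioc]
        exact ⟨⟨q1, q2⟩, hpp, hp.2⟩
      · intro p _ _
        positivity
  have hmain := Pool.Agent.MP0a1886.prod_altSum_le (rb y) t (fun i => i + 3) x T hr'
    (fun p hp => (hxb p hp).1) (fun p hp => (hxb p hp).2.1) hκ'
  -- left side
  have hleft : (∑ ω : ↥(Ioc N N2), if T.filter (fun p => ω.1 % p ∈ R p) = ∅ then 1 / X else 0) =
      (1 / X) * (((Ioc N N2).filter (fun n => ∀ p ∈ T, n % p ∉ R p)).card : ℝ) := by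
    rw [Finset.sum_coe_sort (Ioc N N2)
      (fun n => if T.filter (fun p => n % p ∈ R p) = ∅ then 1 / X else 0)]
    rw [← Finset.sum_filter, Finset.sum_const, nsmul_eq_mul, mul_comm]
    congr 3
    ext n
    simp only [Finset.mem_filter, Finset.filter_eq_empty_iff]
  -- the error
  have hhit : ∀ B ∈ T.powerset, |Pool.Agent.MP0a1886.hit (fun _ : ↥(Ioc N N2) => 1 / X)
      (fun ω => T.filter (fun p => ω.1 % p ∈ R p)) B - ∏ P ∈ B, x P| ≤ (1 / X) * 4 ^ B.card := by
    intro B hBT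
    rw [Finset.mem_powerset] at hBT
    have e1 : Pool.Agent.MP0a1886.hit (fun _ : ↥(Ioc N N2) => 1 / X)
        (fun ω => T.filter (fun p => ω.1 % p ∈ R p)) B =
        (1 / X) * (((Ioc N N2).filter (fun n => ∀ p ∈ B, n % p ∈ R p)).card : ℝ) := by
      unfold Pool.Agent.MP0a1886.hit
      rw [Finset.sum_coe_sort (Ioc N N2)
        (fun n => if B ⊆ T.filter (fun p => n % p ∈ R p) then 1 / X else 0)]
      rw [← Finset.sum_filter, Finset.sum_const, nsmul_eq_mul, mul_comm]
      congr 3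
      ext n
      simp only [Finset.mem_filter, and_congr_right_iff]
      intro _
      constructor
      · intro h p hp
        exact (Finset.mem_filter.1 (h hp)).2
      · intro h p hp
        exact Finset.mem_filter.2 ⟨hBT hp, h p hp⟩
    have e2 := h1 B R N N2 hN (fun p hp => ⟨(hT p (hBT hp)).1, (hT p (hBT hp)).2.2.2.1⟩)
    rw [← hXdef] at e2
    have e3 : (1 / X) * (((Ioc N N2).filter (fun n => ∀ p ∈ B, n % p ∈ R p)).card : ℝ) -
        ∏ P ∈ B, x P = (1 / X) * ((((Ioc N N2).filter (fun n => ∀ p ∈ B, n % p ∈ R p)).card : ℝ) -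
        X * ∏ p ∈ B, ((R p).card : ℝ) / p) := by
      rw [hx]
      field_simp
    have e4 : ∏ p ∈ B, ((R p).card : ℝ) ≤ 4 ^ B.card := by
      rw [← Finset.prod_const]
      apply Finset.prod_le_prod
      · intro p _
        exact Nat.cast_nonneg _
      · intro p hp
        exact_mod_cast (hT p (hBT hp)).2.2.2.2
    rw [e1, e3, abs_mul, abs_of_pos (by positivity : 0 < 1 / X)]
    exact mul_le_mul_of_nonneg_left (e2.trans e4) (by positivity)
  have herr : ∑ B ∈ T.powerset, (if Pool.Agent.MP0a1886.Adm (rb y) t (fun i => i + 3) B then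
      |Pool.Agent.MP0a1886.hit (fun _ : ↥(Ioc N N2) => 1 / X)
      (fun ω => T.filter (fun p => ω.1 % p ∈ R p)) B - ∏ P ∈ B, x P| else 0) ≤
      (1 / X) * (y : ℝ) ^ E := by
    have e1 := h2 T (rb y) t (fun i => i + 3) 4 (by norm_num) hr'
    have e2 : ∏ i ∈ range t, (1 + 4 * ((T.filter (fun P => rb y P = i)).card : ℝ)) ^ (2 * (i + 3) + 1) ≤
        ∏ i ∈ range t, (1 + 4 * (((Ioc ps y).filter (fun p => rb y p = i)).card : ℝ)) ^
          (2 * (i + 3) + 1) := by
      apply Finset.prod_le_prod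
      · intro i _
        positivity
      · intro i _
        apply pow_le_pow_left₀ (by positivity)
        have e3 : (T.filter (fun P => rb y P = i)).card ≤
            ((Ioc ps y).filter (fun p => rb y p = i)).card := by
          apply Finset.card_le_card
          intro p hp
          rw [Finset.mem_filter] at hp
          rw [Finset.mem_filter, Finset.mem_Ioc]
          exact ⟨⟨(hT p hp.1).2.1, (hT p hp.1).2.2.1⟩, hp.2⟩
        have e4 : ((T.filter (fun P => rb y P = i)).card : ℝ) ≤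
            (((Ioc ps y).filter (fun p => rb y p = i)).card : ℝ) := by exact_mod_cast e3
        linarith
    have e5 : ∑ B ∈ T.powerset, (if Pool.Agent.MP0a1886.Adm (rb y) t (fun i => i + 3) B then
        (4 : ℝ) ^ B.card else 0) ≤ (y : ℝ) ^ E := e1.trans (e2.trans hprod)
    have e6 : ∑ B ∈ T.powerset, (if Pool.Agent.MP0a1886.Adm (rb y) t (fun i => i + 3) B then
        |Pool.Agent.MP0a1886.hit (fun _ : ↥(Ioc N N2) => 1 / X)
        (fun ω => T.filter (fun p => ω.1 % p ∈ R p)) B - ∏ P ∈ B, x P| else 0) ≤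
        (1 / X) * ∑ B ∈ T.powerset, (if Pool.Agent.MP0a1886.Adm (rb y) t (fun i => i + 3) B then
        (4 : ℝ) ^ B.card else 0) := by
      rw [Finset.mul_sum]
      refine Finset.sum_le_sum fun B hBT => ?_
      split_ifs
      · exact hhit B hBT
      · simp
    exact e6.trans (mul_le_mul_of_nonneg_left e5 (by positivity))
  rw [hleft] at hs
  have hexp : Real.exp (∑ i ∈ range t, Pool.Agent.MP0a1886.eta (fun i => i + 3) i) ≤ 3 := by
    have e1 := Real.exp_le_exp.2 (Gsv_eta t)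
    have e2 := Real.exp_one_lt_d9
    linarith
  have hV0 : 0 ≤ ∏ p ∈ T, (1 - x p) :=
    Finset.prod_nonneg fun p hp => by linarith [(hxb p hp).2.1]
  have hfin : (1 / X) * (((Ioc N N2).filter (fun n => ∀ p ∈ T, n % p ∉ R p)).card : ℝ) ≤
      3 * ∏ p ∈ T, (1 - x p) + (1 / X) * (y : ℝ) ^ E := by
    have e1 : (∏ p ∈ T, (1 - x p)) *
        Real.exp (∑ i ∈ range t, Pool.Agent.MP0a1886.eta (fun i => i + 3) i) ≤
        (∏ p ∈ T, (1 - x p)) * 3 := mul_le_mul_of_nonneg_left hexp hV0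
    linarith
  have h4 := mul_le_mul_of_nonneg_left hfin hX.le
  have e1 : X * ((1 / X) * (((Ioc N N2).filter (fun n => ∀ p ∈ T, n % p ∉ R p)).card : ℝ)) =
      (((Ioc N N2).filter (fun n => ∀ p ∈ T, n % p ∉ R p)).card : ℝ) := by
    field_simp
  have e2 : X * (3 * ∏ p ∈ T, (1 - x p) + (1 / X) * (y : ℝ) ^ E) =
      3 * (X * ∏ p ∈ T, (1 - x p)) + (y : ℝ) ^ E := by
    field_simp
  rw [e1, e2] at h4
  exact h4

end Pool.Agent.Lib.SG
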