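import Pool.Agent.Lib.SG.SpecA

namespace Pool.Agent.Lib.SG

open Finset Pool.Agent.Lib.BV

private theorem L0_rr0 (D n : ℕ) : 0 ≤ rr D n := by
  unfold rr
  split_ifs <;> norm_num

private theorem L0_rr1 (D n : ℕ) : rr D n ≤ 1 := by
  unfold rr
  split_ifs <;> norm_num

/-- a rough number is 1 or larger than D -/
private theorem L0_small {D n : ℕ} (h2 : 2 ≤ n) (hn : n ≤ D) : rr D n = 0 := by
  unfold rr
  rw [if_neg]
  intro h
  have h1 := h n.minFac (Nat.minFac_prime (by omega)) (Nat.minFac_dvd n)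
  have h3 := Nat.minFac_le (n := n) (by omega)
  omega

/-- summation by parts -/
private theorem L0_abel (u f : ℕ → ℝ) (N : ℕ) : ∑ n ∈ range (N + 1), u n * f n =
    (∑ n ∈ range (N + 1), u n) * f (N + 1) +
      ∑ m ∈ range (N + 1), (∑ n ∈ range (m + 1), u n) * (f m - f (m + 1)) := by
  induction N with
  | zero => simp; ring
  | succ N ih =>
    rw [Finset.sum_range_succ (n := N + 1), ih, Finset.sum_range_succ (n := N + 1) (f := fun m =>
      (∑ n ∈ range (m + 1), u n) * (f m - f (m + 1))), Finset.sum_range_succ (f := u) (n := N + 1)]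
    ring

/-- the differences of n^(-(1+s)) -/
private theorem L0_dif {s : ℝ} (hs : 0 < s) (hs1 : s ≤ 1) {m : ℕ} (hm : 1 ≤ m) :
    (m : ℝ) * ((m : ℝ) ^ (-(1 + s)) - ((m + 1 : ℕ) : ℝ) ^ (-(1 + s))) ≤
      2 * (m : ℝ) ^ (-(1 + s)) := by
  have hm0 : (0 : ℝ) < m := by exact_mod_cast hm
  have hm1 : (0 : ℝ) < (m : ℝ) + 1 := by linarith
  have hf0 : 0 ≤ (m : ℝ) ^ (-(1 + s)) := Real.rpow_nonneg hm0.le _
  have h1 : ((m + 1 : ℕ) : ℝ) ^ (-(1 + s)) =
      (m : ℝ) ^ (-(1 + s)) * (1 + (-(1 / ((m : ℝ) + 1)))) ^ (1 + s) := by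
    have h2 : 1 + (-(1 / ((m : ℝ) + 1))) = m / (m + 1) := by field_simp; ring
    rw [h2, Real.div_rpow hm0.le hm1.le, Real.rpow_neg hm0.le, Real.rpow_neg (by positivity)]
    push_cast
    have h3 : (m : ℝ) ^ (1 + s) ≠ 0 := (Real.rpow_pos_of_pos hm0 _).ne'
    field_simp
  have h4 : 1 + (1 + s) * (-(1 / ((m : ℝ) + 1))) ≤ (1 + (-(1 / ((m : ℝ) + 1)))) ^ (1 + s) := by
    apply one_add_mul_self_le_rpow_one_add
    · rw [neg_le_neg_iff, div_le_one hm1]
      linarith
    · linarith
  have h5 : (m : ℝ) ^ (-(1 + s)) - ((m + 1 : ℕ) : ℝ) ^ (-(1 + s)) ≤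
      (m : ℝ) ^ (-(1 + s)) * ((1 + s) / ((m : ℝ) + 1)) := by
    rw [h1]
    have h6 := mul_le_mul_of_nonneg_left h4 hf0
    have h7 : (m : ℝ) ^ (-(1 + s)) * (1 + (1 + s) * (-(1 / ((m : ℝ) + 1)))) =
        (m : ℝ) ^ (-(1 + s)) - (m : ℝ) ^ (-(1 + s)) * ((1 + s) / ((m : ℝ) + 1)) := by
      field_simp; ring
    rw [h7] at h6
    linarith
  have h8 : (m : ℝ) * ((1 + s) / ((m : ℝ) + 1)) ≤ 2 := by
    rw [← mul_div_assoc, div_le_iff₀ hm1]
    nlinarith
  calc (m : ℝ) * ((m : ℝ) ^ (-(1 + s)) - ((m + 1 : ℕ) : ℝ) ^ (-(1 + s))) ≤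
      m * ((m : ℝ) ^ (-(1 + s)) * ((1 + s) / ((m : ℝ) + 1))) := by gcongr
    _ = (m : ℝ) * ((1 + s) / ((m : ℝ) + 1)) * (m : ℝ) ^ (-(1 + s)) := by ring
    _ ≤ 2 * (m : ℝ) ^ (-(1 + s)) := by gcongr

theorem tL0 (h1 : SmzStmt) (h2 : RouStmt) : L0Stmt := by
  obtain ⟨C0, hC0, hsm, hsb⟩ := h1 0
  obtain ⟨C, hC, hR⟩ := h2
  refine ⟨1 + C + 2 * C * C0, 3, by positivity, le_rfl, ?_⟩
  intro D s hD hs hsL
  have hD3 : 3 ≤ D := by exact_mod_cast hD
  have hDr : (3 : ℝ) ≤ D := hD
  have hL1 : 1 ≤ Real.log D := by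
    rw [Real.le_log_iff_exp_le (by linarith)]
    have := Real.exp_one_lt_d9
    linarith
  set L := Real.log D with hL
  have hLp : 0 < L := by linarith
  have hs1 : s ≤ 1 := hsL.trans (by rw [div_le_one hLp]; exact hL1)
  have hsL' : s * L ≤ 1 := by rwa [le_div_iff₀ hLp] at hsL
  set f : ℕ → ℝ := fun n => (n : ℝ) ^ (-(1 + s)) with hf
  set u : ℕ → ℝ := fun n => if n ≤ 1 then 0 else rr D n with hu
  have hf0 : ∀ n, 0 ≤ f n := fun n => Real.rpow_nonneg (Nat.cast_nonneg n) _
  have hu0 : ∀ n, 0 ≤ u n := by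
    intro n
    simp only [hu]
    split_ifs
    · exact le_refl _
    · exact L0_rr0 D n
  have hS : ∀ m : ℕ, ∑ n ∈ range (m + 1), u n ≤ C / L * m := by
    intro m
    rcases lt_or_ge m D with hm | hm
    · have e1 : ∑ n ∈ range (m + 1), u n = 0 := by
        apply Finset.sum_eq_zero
        intro n hn
        rw [mem_range] at hn
        simp only [hu]
        split_ifs with h
        · rfl
        · exact L0_small (by omega) (by omega)
      rw [e1]
      positivity
    · have e1 := hR D m (by omega) hm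
      have e2 : ∑ n ∈ range (m + 1), u n ≤ ∑ n ∈ Icc 1 m, rr D n := by
        calc ∑ n ∈ range (m + 1), u n = ∑ n ∈ (range (m + 1)).filter (fun n => 1 ≤ n), u n := by
              symm
              apply Finset.sum_filter_of_ne
              intro n _ hne
              by_contra h
              apply hne
              simp only [hu]
              rw [if_pos (by omega)]
          _ ≤ ∑ n ∈ (range (m + 1)).filter (fun n => 1 ≤ n), rr D n := by
              refine Finset.sum_le_sum fun n _ => ?_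
              simp only [hu]
              split_ifs
              · exact L0_rr0 D n
              · exact le_refl _
          _ = ∑ n ∈ Icc 1 m, rr D n := by
              congr 1
              ext n
              simp only [mem_filter, mem_range, mem_Icc]
              omega
      calc ∑ n ∈ range (m + 1), u n ≤ C * ((m : ℝ) / L) := e2.trans e1
        _ = C / L * m := by ring
  have hfsum : ∀ N : ℕ, ∑ n ∈ range N, f n ≤ C0 * s⁻¹ := by
    intro N
    have e1 := hsb s hs hs1
    have e2 := hsm s hs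
    simp only [pow_zero, one_mul, zero_add, pow_one] at e1 e2
    exact (e2.sum_le_tsum (range N) (fun n _ => hf0 n)).trans e1
  have hf1 : ∀ n : ℕ, (n : ℝ) * f (n + 1) ≤ 1 := by
    intro n
    have hn1 : (0 : ℝ) < (n : ℝ) + 1 := by positivity
    have e1 : f (n + 1) ≤ ((n : ℝ) + 1)⁻¹ := by
      simp only [hf]
      push_cast
      rw [Real.rpow_neg hn1.le]
      apply inv_anti₀ hn1
      calc (n : ℝ) + 1 = ((n : ℝ) + 1) ^ (1 : ℝ) := (Real.rpow_one _).symm
        _ ≤ ((n : ℝ) + 1) ^ (1 + s) := Real.rpow_le_rpow_of_exponent_le (by linarith [Nat.cast_nonneg (α := ℝ) n]) (by linarith)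
    calc (n : ℝ) * f (n + 1) ≤ n * ((n : ℝ) + 1)⁻¹ := by gcongr
      _ ≤ 1 := by
        rw [← div_eq_mul_inv, div_le_one hn1]
        linarith
  have hmain : ∀ N : ℕ, ∑ n ∈ range (N + 1), u n * f n ≤ C / L + 2 * (C / L) * (C0 * s⁻¹) := by
    intro N
    rw [L0_abel u f N]
    have hCL : 0 < C / L := by positivity
    have e1 : (∑ n ∈ range (N + 1), u n) * f (N + 1) ≤ C / L := by
      calc (∑ n ∈ range (N + 1), u n) * f (N + 1) ≤ C / L * N * f (N + 1) := by
            exact mul_le_mul_of_nonneg_right (hS N) (hf0 _)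
        _ = C / L * (N * f (N + 1)) := by ring
        _ ≤ C / L * 1 := by gcongr; exact hf1 N
        _ = C / L := mul_one _
    have e2 : ∑ m ∈ range (N + 1), (∑ n ∈ range (m + 1), u n) * (f m - f (m + 1)) ≤
        ∑ m ∈ range (N + 1), 2 * (C / L) * f m := by
      refine Finset.sum_le_sum fun m _ => ?_
      rcases Nat.eq_zero_or_pos m with rfl | hm
      · have e3 : ∑ n ∈ range (0 + 1), u n = 0 := by simp [hu]
        rw [e3, zero_mul]
        exact mul_nonneg (by positivity) (hf0 0)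
      · have hm0 : (0 : ℝ) < m := by exact_mod_cast hm
        have e4 : 0 ≤ f m - f (m + 1) := by
          simp only [hf]
          rw [sub_nonneg]
          apply Real.rpow_le_rpow_of_nonpos hm0
          · push_cast; linarith
          · linarith
        have e5 := L0_dif hs hs1 hm
        calc (∑ n ∈ range (m + 1), u n) * (f m - f (m + 1)) ≤
            C / L * m * (f m - f (m + 1)) := by
              gcongr
              exact hS m
          _ = C / L * (m * (f m - f (m + 1))) := by ring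
          _ ≤ C / L * (2 * f m) := mul_le_mul_of_nonneg_left e5 hCL.le
          _ = 2 * (C / L) * f m := by ring
    calc _ ≤ C / L + ∑ m ∈ range (N + 1), 2 * (C / L) * f m := add_le_add e1 e2
      _ = C / L + 2 * (C / L) * ∑ m ∈ range (N + 1), f m := by rw [Finset.mul_sum]
      _ ≤ _ := by
        gcongr
        exact hfsum (N + 1)
  have hwle : ∀ n : ℕ, wt D s one n ≤ (if n = 1 then (1 : ℝ) else 0) + u n * f n := by
    intro n
    have h0 : 0 ≤ u n * f n := mul_nonneg (hu0 n) (hf0 n)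
    rcases Nat.lt_or_ge n 2 with hn | hn
    · interval_cases n
      · have e1 : wt D s one 0 = 0 := by
          unfold wt
          rw [Nat.cast_zero, Real.zero_rpow (by linarith), mul_zero]
        rw [e1]
        simpa using h0
      · have e1 : wt D s one 1 ≤ 1 := by
          unfold wt one
          rw [Nat.cast_one, Real.one_rpow, mul_one, mul_one]
          exact L0_rr1 D 1
        rw [if_pos rfl]
        linarith
    · rw [if_neg (by omega), zero_add]
      have e1 : u n = rr D n := by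
        simp only [hu]
        rw [if_neg (by omega)]
      rw [e1]
      unfold wt one
      rw [mul_one]
  have hw0 : ∀ n : ℕ, 0 ≤ wt D s one n := by
    intro n
    unfold wt one
    rw [mul_one]
    exact mul_nonneg (L0_rr0 D n) (hf0 n)
  refine Real.tsum_le_of_sum_range_le hw0 fun N => ?_
  have e1 : ∑ n ∈ range N, wt D s one n ≤ ∑ n ∈ range (N + 1), wt D s one n := by
    rw [Finset.sum_range_succ]
    have := hw0 N
    linarith
  have e2 : ∑ n ∈ range (N + 1), (if n = 1 then (1 : ℝ) else 0) ≤ 1 := by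
    rw [Finset.sum_ite_eq']
    split_ifs <;> norm_num
  have e3 : 1 ≤ 1 / (s * L) := by
    rw [le_div_iff₀ (by positivity)]
    linarith
  have e4 : C / L ≤ C / (s * L) := by
    apply div_le_div_of_nonneg_left hC.le (by positivity)
    calc s * L ≤ 1 * L := by gcongr
      _ = L := one_mul L
  calc ∑ n ∈ range N, wt D s one n ≤ ∑ n ∈ range (N + 1), wt D s one n := e1
    _ ≤ ∑ n ∈ range (N + 1), ((if n = 1 then (1 : ℝ) else 0) + u n * f n) :=
        Finset.sum_le_sum fun n _ => hwle n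
    _ = ∑ n ∈ range (N + 1), (if n = 1 then (1 : ℝ) else 0) + ∑ n ∈ range (N + 1), u n * f n :=
        Finset.sum_add_distrib
    _ ≤ 1 + (C / L + 2 * (C / L) * (C0 * s⁻¹)) := add_le_add e2 (hmain N)
    _ ≤ 1 / (s * L) + (C / (s * L) + 2 * (C / L) * (C0 * s⁻¹)) := by linarith
    _ = (1 + C + 2 * C * C0) / (s * L) := by field_simp; ring

end Pool.Agent.Lib.SG
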