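import Pool.Agent.Lib.SG.SpecA

namespace Pool.Agent.Lib.SG

open Finset Pool.Agent.Lib.BV

private lemma Lbd_units {q : ℕ} [NeZero q] {χ : DirichletCharacter ℂ q} (hχ : χ ≠ 1) :
    ∑ a : (ZMod q)ˣ, χ (a : ZMod q) = 0 := by
  obtain ⟨b, hb⟩ := MulChar.ne_one_iff.1 hχ
  have h1 : χ (b : ZMod q) * ∑ a : (ZMod q)ˣ, χ (a : ZMod q) =
      ∑ a : (ZMod q)ˣ, χ (a : ZMod q) := by
    rw [Finset.mul_sum]
    refine Fintype.sum_equiv (Equiv.mulLeft b) _ _ ?_
    intro a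
    rw [Equiv.coe_mulLeft, Units.val_mul, map_mul]
  have h2 : (χ (b : ZMod q) - 1) * ∑ a : (ZMod q)ˣ, χ (a : ZMod q) = 0 := by
    rw [sub_mul, h1, one_mul, sub_self]
  rcases mul_eq_zero.1 h2 with h | h
  · exact absurd (sub_eq_zero.1 h) hb
  · exact h

private lemma Lbd_diff {q : ℕ} [NeZero q] {χ : DirichletCharacter ℂ q} (hχ : χ ≠ 1)
    (F : (ZMod q)ˣ → ℝ) (B : ℝ) (hF : ∀ a a', |F a - F a'| ≤ B) :
    ‖∑ a : (ZMod q)ˣ, χ (a : ZMod q) * (F a : ℂ)‖ ≤ q.totient * B := by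
  have h1 : ∑ a : (ZMod q)ˣ, χ (a : ZMod q) * (F a : ℂ) =
      ∑ a : (ZMod q)ˣ, χ (a : ZMod q) * ((F a - F 1 : ℝ) : ℂ) := by
    have : ∑ a : (ZMod q)ˣ, χ (a : ZMod q) * ((F a - F 1 : ℝ) : ℂ) =
        ∑ a : (ZMod q)ˣ, χ (a : ZMod q) * (F a : ℂ) -
          (∑ a : (ZMod q)ˣ, χ (a : ZMod q)) * (F 1 : ℂ) := by
      rw [Finset.sum_mul, ← Finset.sum_sub_distrib]
      refine Finset.sum_congr rfl fun a _ => ?_
      push_cast
      ring
    rw [this, Lbd_units hχ, zero_mul, sub_zero]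
  rw [h1]
  calc ‖∑ a : (ZMod q)ˣ, χ (a : ZMod q) * ((F a - F 1 : ℝ) : ℂ)‖ ≤
      ∑ a : (ZMod q)ˣ, ‖χ (a : ZMod q) * ((F a - F 1 : ℝ) : ℂ)‖ := norm_sum_le _ _
    _ ≤ ∑ _a : (ZMod q)ˣ, B := by
        refine Finset.sum_le_sum fun a _ => ?_
        rw [norm_mul, Complex.norm_real, Real.norm_eq_abs]
        calc ‖χ (a : ZMod q)‖ * |F a - F 1| ≤ 1 * |F a - F 1| :=
              mul_le_mul_of_nonneg_right (DirichletCharacter.norm_le_one χ _) (abs_nonneg _)
          _ ≤ B := by rw [one_mul]; exact hF a 1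
    _ = q.totient * B := by
        rw [Finset.sum_const, Finset.card_univ, ZMod.card_units_eq_totient, nsmul_eq_mul]

private lemma Lbd_rr1 (D : ℕ) : rr D 1 = 1 := by
  unfold rr
  rw [if_pos]
  intro p hp hd
  exact absurd (Nat.dvd_one.1 hd) hp.one_lt.ne'

private lemma Lbd_rrle (D n : ℕ) : 0 ≤ rr D n ∧ rr D n ≤ 1 := by
  unfold rr
  split_ifs
  · exact ⟨zero_le_one, le_rfl⟩
  · exact ⟨le_rfl, zero_le_one⟩

private lemma Lbd_summ (h1 : SmzStmt) (D m : ℕ) (s : ℝ) (hs : 0 < s) :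
    Summable (wt D s (gm m)) := by
  obtain ⟨C, -, hsm, -⟩ := h1 m
  refine Summable.of_norm_bounded (hsm s hs) ?_
  intro n
  have hl : 0 ≤ Real.log n := Real.log_natCast_nonneg n
  have hp : 0 ≤ (n : ℝ) ^ (-(1 + s)) := Real.rpow_nonneg (Nat.cast_nonneg n) _
  have hg0 : 0 ≤ gm m n := by
    unfold gm
    split_ifs
    · exact le_rfl
    · exact pow_nonneg hl m
  have hg1 : gm m n ≤ (1 + Real.log n) ^ m := by
    unfold gm
    split_ifs
    · exact pow_nonneg (by linarith) m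
    · exact pow_le_pow_left₀ hl (by linarith) m
  obtain ⟨r0, r1⟩ := Lbd_rrle D n
  unfold wt
  rw [Real.norm_eq_abs, abs_of_nonneg (mul_nonneg (mul_nonneg r0 hg0) hp)]
  refine mul_le_mul_of_nonneg_right ?_ hp
  calc rr D n * gm m n ≤ 1 * gm m n := mul_le_mul_of_nonneg_right r1 hg0
    _ ≤ _ := by rw [one_mul]; exact hg1

private lemma Lbd_cs {q : ℕ} (χ : DirichletCharacter ℂ q) {f : ℕ → ℝ} (hf : Summable f) :
    Summable (fun n : ℕ => χ (n : ZMod q) * (f n : ℂ)) := by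
  refine Summable.of_norm_bounded (g := fun n => |f n|) hf.abs ?_
  intro n
  rw [norm_mul, Complex.norm_real, Real.norm_eq_abs]
  calc ‖χ (n : ZMod q)‖ * |f n| ≤ 1 * |f n| :=
        mul_le_mul_of_nonneg_right (DirichletCharacter.norm_le_one χ _) (abs_nonneg _)
    _ = |f n| := one_mul _

private lemma Lbd_one (h1 : SmzStmt) {q : ℕ} (χ : DirichletCharacter ℂ q) (D : ℕ) (s : ℝ)
    (hs : 0 < s) : cX χ (wt D s one) = 1 + cX χ (wt D s (gm 0)) := by
  unfold cX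
  have e1 : ∀ n : ℕ, χ (n : ZMod q) * (wt D s one n : ℂ) =
      (if n = 1 then (1 : ℂ) else 0) + χ (n : ZMod q) * (wt D s (gm 0) n : ℂ) := by
    intro n
    by_cases hn : n = 1
    · subst hn
      have ea : wt D s one 1 = 1 := by
        unfold wt one
        rw [Lbd_rr1]
        simp
      have eb : wt D s (gm 0) 1 = 0 := by
        unfold wt gm
        simp
      rw [ea, eb, if_pos rfl]
      simp
    · have ea : wt D s one n = wt D s (gm 0) n := by
        unfold wt one gm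
        rw [if_neg hn, pow_zero]
      rw [ea, if_neg hn, zero_add]
  rw [tsum_congr e1, Summable.tsum_add ?_ (Lbd_cs χ (Lbd_summ h1 D 0 s hs))]
  · rw [tsum_ite_eq]
  · exact (hasSum_ite_eq (1 : ℕ) (1 : ℂ)).summable

private lemma Lbd_lgn {q : ℕ} (χ : DirichletCharacter ℂ q) (D : ℕ) (s : ℝ) :
    cX χ (wt D s lgn) = cX χ (wt D s (gm 1)) := by
  have : wt D s lgn = wt D s (gm 1) := by
    funext n
    unfold wt lgn gm
    split_ifs with h
    · rw [h, Nat.cast_one, Real.log_one]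
    · rw [pow_one]
  rw [this]

theorem tLbd (h1 : SmzStmt) (h2 : DifStmt) (h3 : CxuStmt) : LbdStmt := by
  obtain ⟨C, D0, hC, hD0, hdif⟩ := h2
  refine ⟨1 + C, D0, by linarith, hD0, ?_⟩
  intro q _ D χ s hD hq hχ hs hs1
  have hφ : (0 : ℝ) < q.totient := by
    exact_mod_cast Nat.totient_pos.2 (NeZero.pos q)
  have hL : 0 ≤ Real.log D := Real.log_natCast_nonneg D
  have key : ∀ m : ℕ, m ≤ 2 → ‖cX χ (wt D s (gm m))‖ ≤ C * (Real.log D) ^ m := by
    intro m hm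
    rw [h3 q χ _ (Lbd_summ h1 D m s hs)]
    refine (Lbd_diff hχ _ (C * ((Real.log D) ^ m / (q.totient : ℝ))) ?_).trans ?_
    · intro a a'
      exact (hdif q D a a' s hD hq hs hs1).1 m hm
    · rw [mul_div_assoc'] at *
      rw [mul_div_cancel₀]
      exact hφ.ne'
  refine ⟨?_, ?_, ?_⟩
  · rw [Lbd_one h1 χ D s hs]
    refine (norm_add_le _ _).trans ?_
    have := key 0 (by norm_num)
    rw [pow_zero, mul_one] at this
    rw [norm_one]
    linarith
  · rw [Lbd_lgn]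
    have := key 1 (by norm_num)
    rw [pow_one] at this
    nlinarith
  · intro s' hss' hs'1
    have hs' : 0 < s' := lt_of_lt_of_le hs hss'
    rw [Lbd_one h1 χ D s hs, Lbd_one h1 χ D s' hs', add_sub_add_left_eq_sub,
      h3 q χ _ (Lbd_summ h1 D 0 s hs), h3 q χ _ (Lbd_summ h1 D 0 s' hs'),
      ← Finset.sum_sub_distrib]
    have e1 : ∑ a : (ZMod q)ˣ, (χ (a : ZMod q) * (cU q (wt D s (gm 0)) a : ℂ) -
        χ (a : ZMod q) * (cU q (wt D s' (gm 0)) a : ℂ)) =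
        ∑ a : (ZMod q)ˣ, χ (a : ZMod q) *
          ((cU q (wt D s (gm 0)) a - cU q (wt D s' (gm 0)) a : ℝ) : ℂ) := by
      refine Finset.sum_congr rfl fun a _ => ?_
      push_cast
      ring
    rw [e1]
    refine (Lbd_diff hχ _ (C * ((s' - s) * Real.log D / (q.totient : ℝ))) ?_).trans ?_
    · intro a a'
      exact (hdif q D a a' s hD hq hs hs1).2 s' hss' hs'1
    · have h0 : 0 ≤ (s' - s) * Real.log D := mul_nonneg (by linarith) hL
      calc (q.totient : ℝ) * (C * ((s' - s) * Real.log D / (q.totient : ℝ))) =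
          C * ((s' - s) * Real.log D) := by field_simp
        _ ≤ (1 + C) * ((s' - s) * Real.log D) := by nlinarith

end Pool.Agent.Lib.SG
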