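import Pool.Agent.Lib.SG.Cxl

/-!
MP_9a4459_nt, directory Lib/SG, module Lch (helper71).
-/

namespace Pool.Agent.Lib.SG

open Finset Pool.Agent.Lib.BV

private theorem Lch_cop {D n : ℕ} (h : n.Coprime (primorial D)) : Rough D n := by
  intro p hp hpn
  by_contra hle
  have hdvd : p ∣ primorial D := hp.dvd_primorial_iff.2 (not_lt.1 hle)
  have h1 : p ∣ 1 := by
    rw [← h]
    exact Nat.dvd_gcd hpn hdvd
  exact hp.one_lt.ne' (Nat.dvd_one.1 h1)

private theorem Lch_ncop {D n : ℕ} (h : ¬ n.Coprime (primorial D)) : ¬ Rough D n := by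
  intro hr
  obtain ⟨p, hp, h1, h2⟩ := Nat.Prime.not_coprime_iff_dvd.1 h
  have := hr p hp h1
  rw [hp.dvd_primorial_iff] at h2
  omega

theorem tLch : LchStmt := by
  intro q D _
  have hM : NeZero (q * primorial D) := ⟨mul_ne_zero (NeZero.ne q) (primorial_pos D).ne'⟩
  have hdvd : q ∣ q * primorial D := dvd_mul_right _ _
  have key : ∀ (χ : DirichletCharacter ℂ q) (n : ℕ), 1 ≤ n →
      DirichletCharacter.changeLevel hdvd χ (n : ZMod (q * primorial D)) =
        χ (n : ZMod q) * ((rr D n : ℝ) : ℂ) := by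
    intro χ n hn
    by_cases hc : n.Coprime (q * primorial D)
    · have h1 := DirichletCharacter.changeLevel_eq_cast_of_dvd χ hdvd (ZMod.unitOfCoprime n hc)
      rw [ZMod.coe_unitOfCoprime] at h1
      rw [h1, ZMod.cast_natCast hdvd, rr, if_pos (Lch_cop (Nat.Coprime.coprime_mul_left_right hc)),
        Complex.ofReal_one, mul_one]
    · rw [MulChar.map_nonunit _ (by rwa [ZMod.isUnit_iff_coprime])]
      by_cases hq : n.Coprime q
      · have : ¬ n.Coprime (primorial D) := fun h => hc (Nat.Coprime.mul_right hq h)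
        rw [rr, if_neg (Lch_ncop this), Complex.ofReal_zero, mul_zero]
      · rw [MulChar.map_nonunit χ (by rwa [ZMod.isUnit_iff_coprime]), zero_mul]
  refine ⟨q * primorial D, hM, DirichletCharacter.changeLevel hdvd, key, fun χ s hs => ?_⟩
  rw [Cxl_main χ D (fun n => DirichletCharacter.changeLevel hdvd χ (n : ZMod (q * primorial D)))
    (key χ) one s hs]
  simp only [one, Complex.ofReal_one, mul_one]

end Pool.Agent.Lib.SG
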