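import Pool.Agent.Lib.SG.SpecA

/-!
MP_9a4459_nt, directory Lib/SG, module Lw1 (helper71).
-/

namespace Pool.Agent.Lib.SG

open Finset Pool.Agent.Lib.BV

private theorem Lw1_rr0 (D n : ℕ) : 0 ≤ rr D n := by
  unfold rr
  split_ifs <;> norm_num

private theorem Lw1_rr1 (D n : ℕ) : rr D n ≤ 1 := by
  unfold rr
  split_ifs <;> norm_num

private theorem Lw1_wt0 (D n : ℕ) (s : ℝ) : 0 ≤ wt D s one n := by
  unfold wt one
  rw [mul_one]
  exact mul_nonneg (Lw1_rr0 D n) (Real.rpow_nonneg (Nat.cast_nonneg n) _)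

private theorem Lw1_wt1 (D n : ℕ) (s : ℝ) : wt D s one n ≤ (n : ℝ) ^ (-(1 + s)) := by
  unfold wt one
  rw [mul_one]
  exact mul_le_of_le_one_left (Real.rpow_nonneg (Nat.cast_nonneg n) _) (Lw1_rr1 D n)

/-- the principal character sum is at most the sum of the weights -/
private theorem Lw1_prin (hSmz : SmzStmt) (q D : ℕ) (χ : DirichletCharacter ℂ q) (s : ℝ)
    (hs : 0 < s) : ‖cX χ (wt D s one)‖ ≤ ∑' n : ℕ, wt D s one n := by
  obtain ⟨_, _, hsm, _⟩ := hSmz 0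
  have h1 : Summable fun n : ℕ => wt D s one n := by
    refine Summable.of_nonneg_of_le (fun n => Lw1_wt0 D n s) (fun n => Lw1_wt1 D n s) ?_
    simpa using hsm s hs
  have h2 : ∀ n : ℕ, ‖χ (n : ZMod q) * (wt D s one n : ℂ)‖ ≤ wt D s one n := by
    intro n
    rw [norm_mul, Complex.norm_real, Real.norm_of_nonneg (Lw1_wt0 D n s)]
    exact mul_le_of_le_one_left (Lw1_wt0 D n s) (DirichletCharacter.norm_le_one χ _)
  exact tsum_of_norm_bounded h1.hasSum h2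

theorem tLw1 (hSmz : SmzStmt) (hLbd : LbdStmt) (hL0 : L0Stmt) (hTfo : TfoStmt) : Lw1Stmt := by
  obtain ⟨C, D1, hC, hD1, h1⟩ := hLbd
  obtain ⟨C', D2, hC', hD2, h2⟩ := hL0
  obtain ⟨C1, hC1, hCC1⟩ : ∃ C1 : ℝ, 1 ≤ C1 ∧ C ≤ C1 := ⟨max C 1, le_max_right _ _, le_max_left _ _⟩
  obtain ⟨C2, hC2, hCC2⟩ : ∃ C2 : ℝ, 1 ≤ C2 ∧ C' ≤ C2 :=
    ⟨max C' 1, le_max_right _ _, le_max_left _ _⟩
  have hC1p : 0 < C1 := by linarith
  have hC2p : 0 < C2 := by linarith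
  obtain ⟨K, hK⟩ : ∃ K : ℝ, K = C2 ^ 3 * C1 := ⟨_, rfl⟩
  have hK1 : 1 ≤ K := by
    rw [hK]
    exact one_le_mul_of_one_le_of_one_le (one_le_pow₀ hC2) hC1
  have hKp : 0 < K := by linarith
  obtain ⟨t0, ht0⟩ : ∃ t0 : ℝ, t0 = 1 / (16 * C1 ^ 4 * K) := ⟨_, rfl⟩
  have ht0p : 0 < t0 := by rw [ht0]; positivity
  have ht01 : t0 ≤ 1 := by
    rw [ht0, div_le_one (by positivity)]
    have : 1 ≤ C1 ^ 4 * K := one_le_mul_of_one_le_of_one_le (one_le_pow₀ hC1) hK1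
    nlinarith
  have ht0e : t0 ^ 3 / K = (2 * C1 * t0) ^ 4 := by
    have : t0 * (16 * C1 ^ 4 * K) = 1 := by rw [ht0]; field_simp
    rw [div_eq_iff hKp.ne']
    calc t0 ^ 3 = t0 ^ 3 * (t0 * (16 * C1 ^ 4 * K)) := by rw [this, mul_one]
      _ = (2 * C1 * t0) ^ 4 * K := by ring
  refine ⟨C1 * t0, max D1 D2, by positivity, hD1.trans (le_max_left _ _), ?_⟩
  intro q _ D χ s hD hq hχ hs hs1
  have hD1' : D1 ≤ D := (le_max_left _ _).trans hD
  have hD2' : D2 ≤ D := (le_max_right _ _).trans hD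
  have hD3 : (3 : ℝ) ≤ D := hD1.trans hD1'
  have hlog : 1 ≤ Real.log D := by
    rw [Real.le_log_iff_exp_le (by linarith)]
    exact (Real.exp_one_lt_three.le).trans hD3
  obtain ⟨L, hL⟩ : ∃ L : ℝ, L = Real.log D := ⟨_, rfl⟩
  rw [← hL] at hlog hs1
  have hLp : 0 < L := by linarith
  have hLi : 1 / L ≤ 1 := by rw [div_le_one hLp]; exact hlog
  have hχ1 : χ ≠ 1 := by
    rintro rfl
    exact hχ (one_pow 2)
  -- lower bound for the fourth power
  have hB : ∀ u : ℝ, 0 < u → u ≤ 1 / L → (u * L) ^ 3 / K ≤ ‖cX χ (wt D u one)‖ ^ 4 := by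
    intro u hu hu1
    have huL : 0 < u * L := mul_pos hu hLp
    have e1 : ‖cX (1 : DirichletCharacter ℂ q) (wt D u one)‖ ≤ C2 / (u * L) := by
      refine (Lw1_prin hSmz q D 1 u hu).trans ?_
      refine (h2 D u hD2' hu (by rw [← hL]; exact hu1)).trans ?_
      rw [← hL]
      exact div_le_div_of_nonneg_right hCC2 huL.le
    have e2 : ‖cX (χ ^ 2) (wt D u one)‖ ≤ C1 :=
      ((h1 q D (χ ^ 2) u hD1' hq hχ hu (hu1.trans hLi)).1).trans hCC1
    have e3 := hTfo q χ D u hu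
    have e4 : 1 ≤ (C2 / (u * L)) ^ 3 * ‖cX χ (wt D u one)‖ ^ 4 * C1 := by
      refine e3.trans ?_
      gcongr
    rw [div_le_iff₀ hKp, hK]
    have e5 : (u * L) ^ 3 * ((C2 / (u * L)) ^ 3 * ‖cX χ (wt D u one)‖ ^ 4 * C1) =
        ‖cX χ (wt D u one)‖ ^ 4 * (C2 ^ 3 * C1) := by
      rw [div_pow]
      field_simp
    rw [← e5]
    exact le_mul_of_one_le_right (by positivity) e4
  have hA : ∀ u : ℝ, 0 < u → u ≤ 1 / L → t0 ≤ u * L → 2 * C1 * t0 ≤ ‖cX χ (wt D u one)‖ := by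
    intro u hu hu1 hut
    have e1 : (2 * C1 * t0) ^ 4 ≤ ‖cX χ (wt D u one)‖ ^ 4 := by
      rw [← ht0e]
      refine le_trans ?_ (hB u hu hu1)
      gcongr
    exact le_of_pow_le_pow_left₀ (by norm_num) (norm_nonneg _) e1
  rcases le_or_gt t0 (s * L) with h | h
  · refine le_trans ?_ (hA s hs hs1 h)
    nlinarith [mul_pos hC1p ht0p]
  · have hs0 : s ≤ t0 / L := by
      rw [le_div_iff₀ hLp]
      exact h.le
    have hs0p : 0 < t0 / L := div_pos ht0p hLp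
    have hs01 : t0 / L ≤ 1 / L := div_le_div_of_nonneg_right ht01 hLp.le
    have e1 := hA (t0 / L) hs0p hs01 (by rw [div_mul_cancel₀ _ hLp.ne'])
    have e2 := (h1 q D χ s hD1' hq hχ1 hs (hs1.trans hLi)).2.2 (t0 / L) hs0 (hs01.trans hLi)
    rw [← hL] at e2
    have e3 : C * ((t0 / L - s) * L) ≤ C1 * t0 := by
      have : (t0 / L - s) * L = t0 - s * L := by
        rw [sub_mul, div_mul_cancel₀ _ hLp.ne']
      rw [this]
      have h3 : 0 ≤ t0 - s * L := by linarith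
      have h4 : t0 - s * L ≤ t0 := by nlinarith
      exact mul_le_mul hCC1 h4 h3 hC1p.le
    have e4 : ‖cX χ (wt D (t0 / L) one)‖ ≤
        ‖cX χ (wt D s one)‖ + ‖cX χ (wt D s one) - cX χ (wt D (t0 / L) one)‖ := by
      have := norm_sub_le (cX χ (wt D s one)) (cX χ (wt D s one) - cX χ (wt D (t0 / L) one))
      rwa [sub_sub_cancel] at this
    linarith

end Pool.Agent.Lib.SG
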