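import Pool.Agent.Lib.SG.SpecC

/-!
MP_9a4459_nt, module Mat: the matching by cyclic shifts.
-/

namespace Pool.Agent.Lib.SG

open Finset Pool.Agent.Lib.BV

private lemma Mat_enum (T : Finset ℕ) : ∃ t : ℕ → ℕ, (∀ i < T.card, t i ∈ T) ∧
    ∀ i < T.card, ∀ i' < T.card, t i = t i' → i = i' := by
  refine ⟨fun i => if h : i < T.card then (T.equivFin.symm ⟨i, h⟩ : ℕ) else 0, ?_, ?_⟩
  · intro i hi
    simp only [dif_pos hi]
    exact (T.equivFin.symm ⟨i, hi⟩).2
  · intro i hi i' hi' h
    simp only [dif_pos hi, dif_pos hi'] at h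
    have h1 := T.equivFin.symm.injective (Subtype.ext h)
    exact congrArg Fin.val h1

private lemma Mat_index (Z : Finset ℕ) : ∃ ι : ℕ → ℕ, (∀ r ∈ Z, ι r < Z.card) ∧
    ∀ r ∈ Z, ∀ r' ∈ Z, ι r = ι r' → r = r' := by
  refine ⟨fun r => if h : r ∈ Z then (Z.equivFin ⟨r, h⟩ : ℕ) else 0, ?_, ?_⟩
  · intro r hr
    simp only [dif_pos hr]
    exact (Z.equivFin ⟨r, hr⟩).2
  · intro r hr r' hr' h
    simp only [dif_pos hr, dif_pos hr'] at h
    have h1 := Z.equivFin.injective (Fin.ext h)
    exact congrArg Subtype.val h1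

theorem tMat : MatStmt := by
  classical
  intro k T Z J rel hk hT hrel
  rcases Z.eq_empty_or_nonempty with hZ | hZ
  · subst hZ
    refine ⟨fun r => r, by simp, by simp, fun i _ => ?_⟩
    simp
  have hZ1 : 1 ≤ Z.card := Finset.card_pos.2 hZ
  set n := T.card with hn
  have hZn : Z.card ≤ n := by
    have : 1 * Z.card ≤ 8 * k * Z.card := Nat.mul_le_mul_right _ (by omega)
    omega
  have hn1 : 1 ≤ n := hZ1.trans hZn
  obtain ⟨t, ht1, ht2⟩ := Mat_enum T
  obtain ⟨ι, hι1, hι2⟩ := Mat_index Z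
  set σ : ℕ → ℕ → ℕ := fun c r => t ((ι r + c) % n) with hσ
  have hσT : ∀ c r, σ c r ∈ T := fun c r => ht1 _ (Nat.mod_lt _ (by omega))
  have hσinj : ∀ c, ∀ r ∈ Z, ∀ r' ∈ Z, σ c r = σ c r' → r = r' := by
    intro c r hr r' hr' h
    have h1 := ht2 _ (Nat.mod_lt _ (by omega)) _ (Nat.mod_lt _ (by omega)) h
    have h2 : ι r + c ≡ ι r' + c [MOD n] := h1
    have h3 : ι r ≡ ι r' [MOD n] := Nat.ModEq.add_right_cancel' c h2
    exact hι2 r hr r' hr' (h3.eq_of_lt_of_lt ((hι1 r hr).trans_le hZn) ((hι1 r' hr').trans_le hZn))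
  have hcinj : ∀ r, ∀ c < n, ∀ c' < n, σ c r = σ c' r → c = c' := by
    intro r c hc c' hc' h
    have h1 := ht2 _ (Nat.mod_lt _ (by omega)) _ (Nat.mod_lt _ (by omega)) h
    have h2 : ι r + c ≡ ι r + c' [MOD n] := h1
    have h3 : c ≡ c' [MOD n] := Nat.ModEq.add_left_cancel' (ι r) h2
    exact h3.eq_of_lt_of_lt hc hc'
  by_contra hcon
  push Not at hcon
  have hbad : ∀ c, ∃ i < k, (J i).card <
      8 * ((J i).filter (fun j => ∃ r ∈ Z, rel (σ c r) j r)).card := by
    intro c
    obtain ⟨i, hi, h⟩ := hcon (σ c) (fun r _ => hσT c r) (hσinj c)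
    exact ⟨i, hi, h⟩
  set B : ℕ → ℕ → ℕ := fun i c => ((J i).filter (fun j => ∃ r ∈ Z, rel (σ c r) j r)).card with hB
  have hsum : ∀ i < k, ∑ c ∈ range n, B i c ≤ (J i).card * Z.card := by
    intro i hi
    have h1 : ∀ c ∈ range n, B i c ≤ ∑ j ∈ J i, ∑ r ∈ Z, (if rel (σ c r) j r then 1 else 0) := by
      intro c _
      rw [hB]
      simp only
      rw [Finset.card_filter]
      refine Finset.sum_le_sum fun j _ => ?_
      split_ifs with h
      · obtain ⟨r, hr, h2⟩ := h
        calc 1 = (if rel (σ c r) j r then 1 else 0) := by rw [if_pos h2]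
          _ ≤ ∑ r ∈ Z, (if rel (σ c r) j r then 1 else 0) :=
            Finset.single_le_sum (f := fun r => if rel (σ c r) j r then 1 else 0)
              (fun _ _ => Nat.zero_le _) hr
      · exact Nat.zero_le _
    refine (Finset.sum_le_sum h1).trans ?_
    rw [Finset.sum_comm]
    have h2 : ∀ j ∈ J i, ∑ c ∈ range n, ∑ r ∈ Z, (if rel (σ c r) j r then 1 else 0) ≤ Z.card := by
      intro j hj
      rw [Finset.sum_comm]
      have h3 : ∀ r ∈ Z, ∑ c ∈ range n, (if rel (σ c r) j r then 1 else 0) ≤ 1 := by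
        intro r hr
        rw [← Finset.card_filter, Finset.card_le_one]
        intro c hc c' hc'
        rw [Finset.mem_filter, Finset.mem_range] at hc hc'
        exact hcinj r c hc.1 c' hc'.1 (hrel i hi j hj r hr _ (hσT c r) _ (hσT c' r) hc.2 hc'.2)
      refine (Finset.sum_le_sum h3).trans ?_
      simp
    refine (Finset.sum_le_sum h2).trans ?_
    rw [Finset.sum_const, smul_eq_mul]
  have hlt : ∀ i ∈ range k, ((range n).filter (fun c => (J i).card < 8 * B i c)).card < 8 * Z.card := by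
    intro i hi
    rw [Finset.mem_range] at hi
    have h1 : ((range n).filter (fun c => (J i).card < 8 * B i c)).card * ((J i).card + 1) ≤
        ∑ c ∈ range n, 8 * B i c := by
      have h2 : ∑ _c ∈ (range n).filter (fun c => (J i).card < 8 * B i c), ((J i).card + 1) ≤
          ∑ c ∈ (range n).filter (fun c => (J i).card < 8 * B i c), 8 * B i c := by
        refine Finset.sum_le_sum fun c hc => ?_
        exact (Finset.mem_filter.1 hc).2
      rw [Finset.sum_const, smul_eq_mul] at h2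
      exact h2.trans (Finset.sum_le_sum_of_subset (Finset.filter_subset _ _))
    rw [← Finset.mul_sum] at h1
    have h3 := hsum i hi
    have h4 : 8 * ∑ c ∈ range n, B i c ≤ 8 * ((J i).card * Z.card) := Nat.mul_le_mul_left _ h3
    have h5 : 8 * ((J i).card * Z.card) < 8 * Z.card * ((J i).card + 1) := by
      have : 8 * Z.card * ((J i).card + 1) = 8 * ((J i).card * Z.card) + 8 * Z.card := by ring
      omega
    exact Nat.lt_of_mul_lt_mul_right (lt_of_le_of_lt (h1.trans h4) h5)
  have hcov : n ≤ ∑ i ∈ range k, ((range n).filter (fun c => (J i).card < 8 * B i c)).card := by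
    have h1 : range n ⊆ (range k).biUnion (fun i => (range n).filter (fun c => (J i).card < 8 * B i c)) := by
      intro c hc
      obtain ⟨i, hi, h⟩ := hbad c
      rw [Finset.mem_biUnion]
      exact ⟨i, Finset.mem_range.2 hi, Finset.mem_filter.2 ⟨hc, h⟩⟩
    have h2 := (Finset.card_le_card h1).trans Finset.card_biUnion_le
    rwa [Finset.card_range] at h2
  have hlt2 : ∑ i ∈ range k, ((range n).filter (fun c => (J i).card < 8 * B i c)).card <
      ∑ _i ∈ range k, 8 * Z.card :=
    Finset.sum_lt_sum_of_nonempty (Finset.nonempty_range_iff.2 (by omega)) hlt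
  rw [Finset.sum_const, Finset.card_range, smul_eq_mul] at hlt2
  have : k * (8 * Z.card) = 8 * k * Z.card := by ring
  omega

end Pool.Agent.Lib.SG
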