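import Pool.Agent.Lib.SG.SpecA

/-!
MP_9a4459_nt, module Ode: the differential inequality argument.
-/

namespace Pool.Agent.Lib.SG

open Finset Pool.Agent.Lib.BV

section grp

variable {H : Type*} [CommGroup H] [Fintype H]

private lemma Ode_shift (X : H → ℝ) (b : H) : ∑ a, X (b⁻¹ * a) = ∑ a, X a :=
  Equiv.sum_comp (Equiv.mulLeft b⁻¹) X

private lemma Ode_inv (X : H → ℝ) (a : H) : ∑ b, X (b⁻¹ * a) = ∑ b, X b :=
  Equiv.sum_comp ((Equiv.inv H).trans (Equiv.mulRight a)) X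

private lemma Ode_comm (X Y : H → ℝ) (a : H) :
    ∑ b, X b * Y (b⁻¹ * a) = ∑ b, Y b * X (b⁻¹ * a) := by
  have h := Ode_inv (fun b => X b * Y (b⁻¹ * a)) a
  rw [← h]
  refine Finset.sum_congr rfl fun b _ => ?_
  have h1 : (b⁻¹ * a)⁻¹ * a = b := by
    rw [mul_inv, inv_inv, mul_assoc, inv_mul_cancel, mul_one]
  rw [h1]
  ring

private lemma Ode_cs (E : H → ℝ) (a : H) :
    |∑ b, E b * E (b⁻¹ * a)| ≤ ∑ b, (E b) ^ 2 := by
  have h1 : ∑ b, (E (b⁻¹ * a)) ^ 2 = ∑ b, (E b) ^ 2 := Ode_inv (fun b => (E b) ^ 2) a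
  have h2 : |∑ b, E b * E (b⁻¹ * a)| ≤ ∑ b, ((E b) ^ 2 + (E (b⁻¹ * a)) ^ 2) / 2 := by
    refine (Finset.abs_sum_le_sum_abs _ _).trans (Finset.sum_le_sum fun b _ => ?_)
    rw [abs_le]
    constructor
    · nlinarith [sq_nonneg (E b + E (b⁻¹ * a))]
    · nlinarith [sq_nonneg (E b - E (b⁻¹ * a))]
  have h3 : ∑ b, ((E b) ^ 2 + (E (b⁻¹ * a)) ^ 2) / 2 = ∑ b, (E b) ^ 2 := by
    rw [← Finset.sum_div, Finset.sum_add_distrib, h1]
    ring
  rw [← h3]
  exact h2

private lemma Ode_mean (n : ℝ) (hn : n = Fintype.card H) (hn0 : 0 < n) (P : H → ℝ) :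
    ∑ a, (P a - (1 / n) * ∑ b, P b) = 0 := by
  rw [Finset.sum_sub_distrib, Finset.sum_const, Finset.card_univ, nsmul_eq_mul, ← hn]
  field_simp
  ring

/-- expansion of the convolution square -/
private lemma Ode_expand (n : ℝ) (hn : n = Fintype.card H) (P E : H → ℝ) (m : ℝ)
    (hE : ∀ a, E a = P a - m) (h0 : ∑ a, E a = 0) (a : H) :
    ∑ b, P b * P (b⁻¹ * a) = (∑ b, E b * E (b⁻¹ * a)) + n * m ^ 2 := by
  have h1 : ∀ b, P b * P (b⁻¹ * a) = E b * E (b⁻¹ * a) + m * E b + m * E (b⁻¹ * a) + m ^ 2 := by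
    intro b
    rw [hE b, hE (b⁻¹ * a)]
    ring
  rw [Finset.sum_congr rfl fun b _ => h1 b, Finset.sum_add_distrib, Finset.sum_add_distrib,
    Finset.sum_add_distrib, ← Finset.mul_sum, ← Finset.mul_sum, Ode_inv E a, h0, Finset.sum_const,
    Finset.card_univ, nsmul_eq_mul, ← hn]
  ring

/-- the identity (*) -/
private lemma Ode_star (n : ℝ) (hn : n = Fintype.card H) (hn0 : 0 < n) (P Q G E : H → ℝ) (m : ℝ)
    (hE : ∀ a, E a = P a - m) (h0 : ∑ a, E a = 0)
    (hG : ∀ a, G a = Q a + ∑ b, P b * P (b⁻¹ * a)) (a : H) :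
    Q a - (1 / n) * ∑ b, Q b = (G a - (1 / n) * ∑ b, G b) - ∑ b, E b * E (b⁻¹ * a) := by
  have h1 : ∀ c, G c = Q c + ((∑ b, E b * E (b⁻¹ * c)) + n * m ^ 2) := by
    intro c
    rw [hG c, Ode_expand n hn P E m hE h0 c]
  have h2 : ∑ c, ∑ b, E b * E (b⁻¹ * c) = 0 := by
    rw [Finset.sum_comm]
    refine Finset.sum_eq_zero fun b _ => ?_
    rw [← Finset.mul_sum, Ode_shift E b, h0, mul_zero]
  have h3 : ∑ c, G c = (∑ c, Q c) + n * (n * m ^ 2) := by
    rw [Finset.sum_congr rfl fun c _ => h1 c, Finset.sum_add_distrib, Finset.sum_add_distrib, h2,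
      Finset.sum_const, Finset.card_univ, nsmul_eq_mul, ← hn]
    ring
  rw [h3, h1 a]
  field_simp
  ring

private lemma Ode_dev (n : ℝ) (hn : n = Fintype.card H) (hn0 : 0 < n) (G : H → ℝ) (κ : ℝ)
    (h : ∀ a a', |G a - G a'| ≤ κ) (a : H) : |G a - (1 / n) * ∑ b, G b| ≤ κ := by
  have h1 : G a - (1 / n) * ∑ b, G b = (1 / n) * ∑ b, (G a - G b) := by
    rw [Finset.sum_sub_distrib, Finset.sum_const, Finset.card_univ, nsmul_eq_mul, ← hn]
    field_simp
  rw [h1, abs_mul, abs_of_pos (by positivity : 0 < 1 / n)]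
  have h2 : |∑ b, (G a - G b)| ≤ n * κ := by
    refine (Finset.abs_sum_le_sum_abs _ _).trans ?_
    refine (Finset.sum_le_sum fun b _ => h a b).trans ?_
    rw [Finset.sum_const, Finset.card_univ, nsmul_eq_mul, ← hn]
  calc 1 / n * |∑ b, (G a - G b)| ≤ 1 / n * (n * κ) := by gcongr
    _ = κ := by field_simp

private lemma Ode_sq (n : ℝ) (hn : n = Fintype.card H) (hn0 : 0 < n) (P E : H → ℝ) (m : ℝ)
    (hE : ∀ a, E a = P a - m) (h0 : ∑ a, E a = 0) (κ : ℝ)
    (hP : ∀ a, |P a| ≤ κ) : ∑ a, (E a) ^ 2 ≤ n * κ ^ 2 := by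
  have h1 : ∀ a, (P a) ^ 2 = (E a) ^ 2 + 2 * m * E a + m ^ 2 := by
    intro a
    rw [hE a]
    ring
  have h2 : ∑ a, (P a) ^ 2 = ∑ a, (E a) ^ 2 + n * m ^ 2 := by
    rw [Finset.sum_congr rfl fun a _ => h1 a, Finset.sum_add_distrib, Finset.sum_add_distrib,
      ← Finset.mul_sum, h0, Finset.sum_const, Finset.card_univ, nsmul_eq_mul, ← hn]
    ring
  have h3 : ∑ a, (P a) ^ 2 ≤ n * κ ^ 2 := by
    have h4 : ∀ a ∈ (Finset.univ : Finset H), (P a) ^ 2 ≤ κ ^ 2 := by
      intro a _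
      exact sq_le_sq' (by linarith [(abs_le.1 (hP a)).1]) (abs_le.1 (hP a)).2
    refine (Finset.sum_le_sum h4).trans ?_
    rw [Finset.sum_const, Finset.card_univ, nsmul_eq_mul, ← hn]
  have h5 : 0 ≤ n * m ^ 2 := by positivity
  linarith

end grp

private lemma Ode_int (f f' : ℝ → ℝ) (B s s1 : ℝ) (hs : 0 < s) (hs1 : s ≤ s1) (hB : 0 ≤ B)
    (hf : ∀ t, 0 < t → HasDerivAt f (f' t) t)
    (hb : ∀ t, 0 < t → t ≤ s1 → |f' t| ≤ B / t ^ 2) : |f s| ≤ |f s1| + B / s := by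
  have hpos : ∀ t ∈ Set.Icc s s1, 0 < t := fun t ht => lt_of_lt_of_le hs ht.1
  have hd : ∀ t, 0 < t → HasDerivAt (fun t => B / t) (-(B / t ^ 2)) t := by
    intro t ht
    have h := (hasDerivAt_inv ht.ne').const_mul B
    have h2 : (fun t => B / t) = fun t => B * t⁻¹ := by
      funext t
      rw [div_eq_mul_inv]
    rw [h2]
    refine h.congr_deriv ?_
    field_simp
  have hmono : MonotoneOn (fun t => f t - B / t) (Set.Icc s s1) := by
    refine monotoneOn_of_deriv_nonneg (convex_Icc s s1) ?_ ?_ ?_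
    · intro t ht
      exact ((hf t (hpos t ht)).sub (hd t (hpos t ht))).continuousAt.continuousWithinAt
    · intro t ht
      rw [interior_Icc] at ht
      have ht0 : 0 < t := lt_trans hs ht.1
      exact ((hf t ht0).sub (hd t ht0)).differentiableAt.differentiableWithinAt
    · intro t ht
      rw [interior_Icc] at ht
      have ht0 : 0 < t := lt_trans hs ht.1
      have h1 : deriv (fun t => f t - B / t) t = f' t - -(B / t ^ 2) :=
        ((hf t ht0).sub (hd t ht0)).deriv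
      rw [h1]
      have := (abs_le.1 (hb t ht0 ht.2.le)).1
      linarith
  have hanti : AntitoneOn (fun t => f t + B / t) (Set.Icc s s1) := by
    refine antitoneOn_of_deriv_nonpos (convex_Icc s s1) ?_ ?_ ?_
    · intro t ht
      exact ((hf t (hpos t ht)).add (hd t (hpos t ht))).continuousAt.continuousWithinAt
    · intro t ht
      rw [interior_Icc] at ht
      have ht0 : 0 < t := lt_trans hs ht.1
      exact ((hf t ht0).add (hd t ht0)).differentiableAt.differentiableWithinAt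
    · intro t ht
      rw [interior_Icc] at ht
      have ht0 : 0 < t := lt_trans hs ht.1
      have h1 : deriv (fun t => f t + B / t) t = f' t + -(B / t ^ 2) :=
        ((hf t ht0).add (hd t ht0)).deriv
      rw [h1]
      have := (abs_le.1 (hb t ht0 ht.2.le)).2
      linarith
  have hs' : s ∈ Set.Icc s s1 := ⟨le_rfl, hs1⟩
  have hs1' : s1 ∈ Set.Icc s s1 := ⟨hs1, le_rfl⟩
  have h1 : f s - B / s ≤ f s1 - B / s1 := hmono hs' hs1' hs1
  have h2 : f s1 + B / s1 ≤ f s + B / s := hanti hs' hs1' hs1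
  have h3 : 0 ≤ B / s1 := div_nonneg hB (le_trans hs.le hs1)
  have h4 := abs_le.1 (le_refl |f s1|)
  rw [abs_le]
  constructor
  · linarith [h4.1]
  · linarith [h4.2]

theorem tOde (h1 : Or3Stmt) : OdeStmt := by
  intro K hK
  refine ⟨K + 5 * K ^ 2 + 2 * K ^ 3, by positivity, ?_⟩
  intro q _ ℓ P Q G hℓ hD hP hG hGd hχ s a hs hs1
  set n : ℝ := (q.totient : ℝ) with hn_def
  have hn0 : 0 < n := by
    rw [hn_def]
    exact_mod_cast Nat.totient_pos.2 (NeZero.pos q)
  have hn : n = Fintype.card (ZMod q)ˣ := by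
    rw [hn_def, ZMod.card_units_eq_totient]
  have hℓ0 : 0 < ℓ := by linarith
  set s1 : ℝ := 1 / ℓ with hs1_def
  have hs10 : 0 < s1 := by positivity
  -- the functions
  set m : ℝ → ℝ := fun t => (1 / n) * ∑ b, P t b with hm
  set E : ℝ → (ZMod q)ˣ → ℝ := fun t b => P t b - m t with hE
  set F : ℝ → (ZMod q)ˣ → ℝ := fun t c => ∑ b, E t b * E t (b⁻¹ * c) with hF
  set Qd : ℝ → (ZMod q)ˣ → ℝ := fun t b => Q t b - (1 / n) * ∑ c, Q t c with hQd
  set δ : ℝ → (ZMod q)ˣ → ℝ := fun t b => G t b - (1 / n) * ∑ c, G t c with hδ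
  have hE0 : ∀ t, ∑ b, E t b = 0 := fun t => Ode_mean n hn hn0 (P t)
  have hstar : ∀ t, 0 < t → t ≤ s1 → ∀ c, Qd t c = δ t c - F t c := by
    intro t ht ht1 c
    exact Ode_star n hn hn0 (P t) (Q t) (G t) (E t) (m t) (fun b => rfl) (hE0 t)
      (fun b => hG t b ht ht1) c
  have hδb : ∀ t, 0 < t → t ≤ s1 → ∀ c, |δ t c| ≤ K * ℓ / (n * t) := by
    intro t ht ht1 c
    exact Ode_dev n hn hn0 (G t) _ (fun b b' => hGd t b b' ht ht1) c
  have hEsq : ∀ t, 0 < t → t ≤ s1 → ∑ b, (E t b) ^ 2 ≤ K ^ 2 / (n * t ^ 2) := by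
    intro t ht ht1
    have h := Ode_sq n hn hn0 (P t) (E t) (m t) (fun b => rfl) (hE0 t) (K / (n * t))
      (fun b => hP t b ht ht1)
    refine h.trans (le_of_eq ?_)
    field_simp
  have hmb : ∀ t, 0 < t → t ≤ s1 → |m t| ≤ K / (n * t) := by
    intro t ht ht1
    have h2 : |∑ b, P t b| ≤ n * (K / (n * t)) := by
      refine (Finset.abs_sum_le_sum_abs _ _).trans ?_
      refine (Finset.sum_le_sum fun b _ => hP t b ht ht1).trans ?_
      rw [Finset.sum_const, Finset.card_univ, nsmul_eq_mul, ← hn]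
    rw [hm]
    simp only
    rw [abs_mul, abs_of_pos (by positivity : 0 < 1 / n)]
    calc 1 / n * |∑ b, P t b| ≤ 1 / n * (n * (K / (n * t))) := by gcongr
      _ = K / (n * t) := by field_simp
  have hEb : ∀ t, 0 < t → t ≤ s1 → ∀ b, |E t b| ≤ 2 * K / (n * t) := by
    intro t ht ht1 b
    have h1 := hP t b ht ht1
    have h2 := hmb t ht ht1
    have h3 : |E t b| ≤ |P t b| + |m t| := abs_sub (P t b) (m t)
    have h4 : 2 * K / (n * t) = K / (n * t) + K / (n * t) := by ring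
    linarith
  have hdE : ∀ t, 0 < t → ∀ b, HasDerivAt (fun t => E t b) (-Qd t b) t := by
    intro t ht b
    have h2 : HasDerivAt (fun t => ∑ c, P t c) (∑ c, -Q t c) t :=
      HasDerivAt.fun_sum fun c _ => hD t c ht
    have h3 := (hD t b ht).sub (h2.const_mul (1 / n))
    refine h3.congr_deriv ?_
    simp only [hQd, Finset.sum_neg_distrib]
    ring
  set F' : ℝ → (ZMod q)ˣ → ℝ := fun t c =>
    ∑ b, (-Qd t b * E t (b⁻¹ * c) + E t b * -Qd t (b⁻¹ * c)) with hF'
  have hdF : ∀ t, 0 < t → ∀ c, HasDerivAt (fun t => F t c) (F' t c) t := by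
    intro t ht c
    exact HasDerivAt.fun_sum fun b _ => (hdE t ht b).mul (hdE t ht (b⁻¹ * c))
  set B : ℝ := (2 * K ^ 3 + 4 * K ^ 2) * ℓ / n with hB
  have hB0 : 0 ≤ B := by positivity
  have hbF : ∀ t, 0 < t → t ≤ s1 → ∀ c, |F' t c| ≤ B / t ^ 2 := by
    intro t ht ht1 c
    have e1 : F' t c = 2 * (∑ b, E t b * F t (b⁻¹ * c) - ∑ b, E t b * δ t (b⁻¹ * c)) := by
      have e2 : ∑ b, -Qd t b * E t (b⁻¹ * c) = ∑ b, E t b * -Qd t (b⁻¹ * c) :=
        Ode_comm (fun b => -Qd t b) (E t) c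
      rw [hF']
      simp only
      rw [Finset.sum_add_distrib, e2, ← two_mul, ← Finset.sum_sub_distrib]
      congr 1
      refine Finset.sum_congr rfl fun b _ => ?_
      rw [hstar t ht ht1 (b⁻¹ * c)]
      ring
    have e3 : |∑ b, E t b * F t (b⁻¹ * c)| ≤ K * ℓ * (K ^ 2 / (n * t ^ 2)) := by
      have h := h1 q (E t) (K * ℓ) (hE0 t) (by positivity) ?_ c
      · exact h.trans (mul_le_mul_of_nonneg_left (hEsq t ht ht1) (by positivity))
      · intro χ hχ1
        have h4 : ∑ b : (ZMod q)ˣ, χ (b : ZMod q) * (E t b : ℂ) =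
            ∑ b : (ZMod q)ˣ, χ (b : ZMod q) * (P t b : ℂ) := by
          have h5 : ∑ b : (ZMod q)ˣ, χ (b : ZMod q) = 0 := by
            have h6 := MulChar.sum_eq_zero_of_ne_one hχ1
            rw [← h6]
            rw [← Finset.sum_subset (Finset.subset_univ
              (Finset.univ.image (fun b : (ZMod q)ˣ => (b : ZMod q))))]
            · rw [Finset.sum_image (fun x _ y _ h => Units.ext h)]
            · intro x _ hx
              apply χ.map_nonunit
              intro hu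
              apply hx
              rw [Finset.mem_image]
              exact ⟨hu.unit, Finset.mem_univ _, rfl⟩
          have h7 : ∀ b : (ZMod q)ˣ, χ (b : ZMod q) * (E t b : ℂ) =
              χ (b : ZMod q) * (P t b : ℂ) - χ (b : ZMod q) * (m t : ℂ) := by
            intro b
            rw [hE]
            simp only
            push_cast
            ring
          rw [Finset.sum_congr rfl fun b _ => h7 b, Finset.sum_sub_distrib, ← Finset.sum_mul, h5,
            zero_mul, sub_zero]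
        rw [h4]
        exact hχ t χ ht ht1 hχ1
    have e4 : |∑ b, E t b * δ t (b⁻¹ * c)| ≤ 2 * K ^ 2 * ℓ / (n * t ^ 2) := by
      refine (Finset.abs_sum_le_sum_abs _ _).trans ?_
      have e5 : ∀ b ∈ (Finset.univ : Finset (ZMod q)ˣ), |E t b * δ t (b⁻¹ * c)| ≤
          2 * K / (n * t) * (K * ℓ / (n * t)) := by
        intro b _
        rw [abs_mul]
        exact mul_le_mul (hEb t ht ht1 b) (hδb t ht ht1 _) (abs_nonneg _) (by positivity)
      refine (Finset.sum_le_sum e5).trans (le_of_eq ?_)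
      rw [Finset.sum_const, Finset.card_univ, nsmul_eq_mul, ← hn]
      field_simp
    rw [e1, abs_mul, abs_two]
    have e6 := abs_sub (∑ b, E t b * F t (b⁻¹ * c)) (∑ b, E t b * δ t (b⁻¹ * c))
    have e7 : B / t ^ 2 = 2 * (K * ℓ * (K ^ 2 / (n * t ^ 2)) + 2 * K ^ 2 * ℓ / (n * t ^ 2)) := by
      rw [hB]
      field_simp
      ring
    rw [e7]
    linarith
  -- the conclusion
  have k1 : |F s a| ≤ |F s1 a| + B / s :=
    Ode_int (fun t => F t a) (fun t => F' t a) B s s1 hs hs1 hB0 (fun t ht => hdF t ht a)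
      (fun t ht ht1 => hbF t ht ht1 a)
  have k2 : |F s1 a| ≤ K ^ 2 * ℓ / (n * s) := by
    have h := (Ode_cs (E s1) a).trans (hEsq s1 hs10 le_rfl)
    refine h.trans ?_
    have h3 : K ^ 2 / (n * s1 ^ 2) = K ^ 2 * ℓ * ℓ / n := by
      rw [hs1_def]
      field_simp
    have h4 : ℓ ≤ 1 / s := by
      rw [le_div_iff₀ hs]
      rw [hs1_def, le_div_iff₀ hℓ0] at hs1
      linarith
    have h5 : K ^ 2 * ℓ / (n * s) = K ^ 2 * ℓ * (1 / s) / n := by
      field_simp
    rw [h3, h5]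
    gcongr
  have k3 := hδb s hs hs1 a
  have k4 := hstar s hs hs1 a
  have k5 : |Qd s a| ≤ |δ s a| + |F s a| := by
    rw [k4]
    exact abs_sub _ _
  have k6 : (K + 5 * K ^ 2 + 2 * K ^ 3) * ℓ / (n * s) =
      K * ℓ / (n * s) + (K ^ 2 * ℓ / (n * s) + B / s) := by
    rw [hB]
    field_simp
    ring
  rw [k6]
  have k7 : |Q s a - 1 / n * ∑ b, Q s b| = |Qd s a| := rfl
  rw [k7]
  linarith

end Pool.Agent.Lib.SG
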