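import Pool.Agent.Lib.SG.SpecA

/-!
MP_9a4459_nt, module Or3: the triple convolution by orthogonality of characters.
-/

namespace Pool.Agent.Lib.SG

open Finset Pool.Agent.Lib.BV

private lemma Or3_unit {q : ℕ} [NeZero q] (u : (ZMod q)ˣ) :
    ∑ χ : DirichletCharacter ℂ q, χ (u : ZMod q) = if u = 1 then (q.totient : ℂ) else 0 := by
  rw [DirichletCharacter.sum_characters_eq ℂ (u : ZMod q)]
  by_cases h : u = 1
  · rw [if_pos h, if_pos (by rw [h]; simp)]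
  · rw [if_neg h, if_neg (fun h' => h (Units.ext (by simpa using h')))]

private lemma Or3_three {q : ℕ} [NeZero q] (E : (ZMod q)ˣ → ℝ) (a : (ZMod q)ˣ) :
    ∑ χ : DirichletCharacter ℂ q, χ ((a⁻¹ : (ZMod q)ˣ) : ZMod q) *
      (∑ b : (ZMod q)ˣ, χ (b : ZMod q) * (E b : ℂ)) ^ 3 =
    (q.totient : ℂ) * ((∑ b : (ZMod q)ˣ, E b * ∑ c : (ZMod q)ˣ, E c * E (c⁻¹ * (b⁻¹ * a)) : ℝ) : ℂ) := by
  have h1 : ∀ χ : DirichletCharacter ℂ q, χ ((a⁻¹ : (ZMod q)ˣ) : ZMod q) *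
      (∑ b : (ZMod q)ˣ, χ (b : ZMod q) * (E b : ℂ)) ^ 3 =
      ∑ b : (ZMod q)ˣ, ∑ c : (ZMod q)ˣ, ∑ d : (ZMod q)ˣ,
        ((E b : ℂ) * (E c : ℂ) * (E d : ℂ)) * χ ((a⁻¹ * (b * c * d) : (ZMod q)ˣ) : ZMod q) := by
    intro χ
    rw [pow_succ, pow_two, Finset.sum_mul_sum, Finset.sum_mul, Finset.mul_sum]
    refine Finset.sum_congr rfl fun b _ => ?_
    rw [Finset.sum_mul, Finset.mul_sum]
    refine Finset.sum_congr rfl fun c _ => ?_
    rw [Finset.mul_sum, Finset.mul_sum]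
    refine Finset.sum_congr rfl fun d _ => ?_
    simp only [Units.val_mul, map_mul]
    ring
  rw [Finset.sum_congr rfl fun χ _ => h1 χ, Finset.sum_comm]
  simp only [Complex.ofReal_sum, Complex.ofReal_mul]
  rw [Finset.mul_sum]
  refine Finset.sum_congr rfl fun b _ => ?_
  rw [Finset.sum_comm, Finset.mul_sum, Finset.mul_sum]
  refine Finset.sum_congr rfl fun c _ => ?_
  rw [Finset.sum_comm]
  have h2 : ∀ d : (ZMod q)ˣ, ∑ χ : DirichletCharacter ℂ q,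
      ((E b : ℂ) * (E c : ℂ) * (E d : ℂ)) * χ ((a⁻¹ * (b * c * d) : (ZMod q)ˣ) : ZMod q) =
      if d = c⁻¹ * (b⁻¹ * a) then (E b : ℂ) * (E c : ℂ) * (E d : ℂ) * (q.totient : ℂ) else 0 := by
    intro d
    rw [← Finset.mul_sum, Or3_unit]
    by_cases h : d = c⁻¹ * (b⁻¹ * a)
    · rw [if_pos h, if_pos]
      rw [h]
      group
    · rw [if_neg h, if_neg, mul_zero]
      intro h'
      apply h
      have h3 : b * c * d = a := by
        rw [inv_mul_eq_one] at h'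
        exact h'.symm
      rw [← h3]
      group
  rw [Finset.sum_congr rfl fun d _ => h2 d, Finset.sum_ite_eq' Finset.univ]
  rw [if_pos (Finset.mem_univ _)]
  ring

private lemma Or3_two {q : ℕ} [NeZero q] (E : (ZMod q)ˣ → ℝ) :
    ∑ χ : DirichletCharacter ℂ q, ‖∑ b : (ZMod q)ˣ, χ (b : ZMod q) * (E b : ℂ)‖ ^ 2 =
    (q.totient : ℝ) * ∑ b : (ZMod q)ˣ, (E b) ^ 2 := by
  have h1 : ∀ χ : DirichletCharacter ℂ q,
      ((‖∑ b : (ZMod q)ˣ, χ (b : ZMod q) * (E b : ℂ)‖ ^ 2 : ℝ) : ℂ) =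
      ∑ b : (ZMod q)ˣ, ∑ c : (ZMod q)ˣ,
        ((E b : ℂ) * (E c : ℂ)) * χ ((b * c⁻¹ : (ZMod q)ˣ) : ZMod q) := by
    intro χ
    rw [Complex.ofReal_pow, ← Complex.mul_conj', map_sum, Finset.sum_mul_sum]
    refine Finset.sum_congr rfl fun b _ => ?_
    refine Finset.sum_congr rfl fun c _ => ?_
    have h2 : (starRingEnd ℂ) (χ (c : ZMod q) * (E c : ℂ)) =
        χ ((c⁻¹ : (ZMod q)ˣ) : ZMod q) * (E c : ℂ) := by
      rw [map_mul, Complex.conj_ofReal]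
      congr 1
      have h3 := MulChar.star_apply' χ (c : ZMod q)
      rw [← RCLike.star_def, h3]
      rw [MulChar.inv_apply, Ring.inverse_unit]
    rw [h2, Units.val_mul, map_mul]
    ring
  have h4 : ((∑ χ : DirichletCharacter ℂ q,
      ‖∑ b : (ZMod q)ˣ, χ (b : ZMod q) * (E b : ℂ)‖ ^ 2 : ℝ) : ℂ) =
      (((q.totient : ℝ) * ∑ b : (ZMod q)ˣ, (E b) ^ 2 : ℝ) : ℂ) := by
    rw [Complex.ofReal_sum, Finset.sum_congr rfl fun χ _ => h1 χ, Finset.sum_comm]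
    simp only [Complex.ofReal_sum, Complex.ofReal_mul, Complex.ofReal_pow, Complex.ofReal_natCast]
    rw [Finset.mul_sum]
    refine Finset.sum_congr rfl fun b _ => ?_
    rw [Finset.sum_comm]
    have h5 : ∀ c : (ZMod q)ˣ, ∑ χ : DirichletCharacter ℂ q,
        ((E b : ℂ) * (E c : ℂ)) * χ ((b * c⁻¹ : (ZMod q)ˣ) : ZMod q) =
        if c = b then (E b : ℂ) * (E c : ℂ) * (q.totient : ℂ) else 0 := by
      intro c
      rw [← Finset.mul_sum, Or3_unit]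
      by_cases h : c = b
      · rw [if_pos h, if_pos (by rw [h]; group)]
      · rw [if_neg h, if_neg (fun h' => h (mul_inv_eq_one.1 h').symm), mul_zero]
    rw [Finset.sum_congr rfl fun c _ => h5 c, Finset.sum_ite_eq' Finset.univ,
      if_pos (Finset.mem_univ _)]
    ring
  exact_mod_cast h4

theorem tOr3 : Or3Stmt := by
  intro q _ E Z hE hZ hχ a
  set T : ℝ := ∑ b : (ZMod q)ˣ, E b * ∑ c : (ZMod q)ˣ, E c * E (c⁻¹ * (b⁻¹ * a)) with hT
  have hφ : (0 : ℝ) < q.totient := by exact_mod_cast Nat.totient_pos.2 (NeZero.pos q)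
  have h3 := Or3_three E a
  rw [← hT] at h3
  have h2 := Or3_two E
  have hn : ‖(q.totient : ℂ) * ((T : ℝ) : ℂ)‖ = (q.totient : ℝ) * |T| := by
    rw [norm_mul, Complex.norm_real, Real.norm_eq_abs, Complex.norm_natCast]
  have h4 : (q.totient : ℝ) * |T| ≤ Z * ((q.totient : ℝ) * ∑ b : (ZMod q)ˣ, (E b) ^ 2) := by
    rw [← hn, ← h3, ← h2, Finset.mul_sum]
    refine (norm_sum_le _ _).trans (Finset.sum_le_sum fun χ _ => ?_)
    set S : ℂ := ∑ b : (ZMod q)ˣ, χ (b : ZMod q) * (E b : ℂ) with hS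
    rw [norm_mul, norm_pow]
    have h5 : ‖χ ((a⁻¹ : (ZMod q)ˣ) : ZMod q)‖ ≤ 1 := DirichletCharacter.norm_le_one χ _
    have h6 : ‖S‖ ≤ Z := by
      by_cases h7 : χ = 1
      · have h8 : S = 0 := by
          rw [hS, h7]
          have h9 : ∀ b : (ZMod q)ˣ, (1 : DirichletCharacter ℂ q) (b : ZMod q) * (E b : ℂ) = (E b : ℂ) := by
            intro b
            rw [MulChar.one_apply_coe, one_mul]
          rw [Finset.sum_congr rfl fun b _ => h9 b, ← Complex.ofReal_sum, hE]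
          simp
        rw [h8]
        simpa using hZ
      · exact hχ χ h7
    have h10 : 0 ≤ ‖S‖ := norm_nonneg _
    calc ‖χ ((a⁻¹ : (ZMod q)ˣ) : ZMod q)‖ * ‖S‖ ^ 3 ≤ 1 * ‖S‖ ^ 3 :=
          mul_le_mul_of_nonneg_right h5 (by positivity)
      _ = ‖S‖ * ‖S‖ ^ 2 := by ring
      _ ≤ Z * ‖S‖ ^ 2 := mul_le_mul_of_nonneg_right h6 (by positivity)
  have h5 : (q.totient : ℝ) * |T| ≤ (q.totient : ℝ) * (Z * ∑ b : (ZMod q)ˣ, (E b) ^ 2) := by
    linarith [h4, mul_left_comm Z (q.totient : ℝ) (∑ b : (ZMod q)ˣ, (E b) ^ 2)]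
  exact le_of_mul_le_mul_left h5 hφ

end Pool.Agent.Lib.SG
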