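import Pool.Agent.Lib.SG.SpecB
import Pool.Agent.Lib.SG.Sv2
import Pool.Agent.Lib.BV.SpecF

/-!
MP_9a4459_nt, module Phw: the totient of the primorial WW z e.
-/

namespace Pool.Agent.Lib.SG

open Finset Pool.Agent.Lib.BV

lemma Sv_tot (B : Finset ℕ) (hB : ∀ p ∈ B, p.Prime) :
    ((∏ p ∈ B, p).totient : ℝ) = ((∏ p ∈ B, p : ℕ) : ℝ) * ∏ p ∈ B, (1 - 1 / (p : ℝ)) := by
  classical
  induction B using Finset.induction_on with
  | empty => simp
  | insert q B hq ih =>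
    have ih' := ih (fun p hp => hB p (Finset.mem_insert_of_mem hp))
    have hqp : q.Prime := hB q (Finset.mem_insert_self q B)
    have hco : Nat.Coprime q (∏ p ∈ B, p) := by
      apply Nat.Coprime.prod_right
      intro p hp
      exact (Nat.coprime_primes hqp (hB p (Finset.mem_insert_of_mem hp))).2 (fun h => hq (h ▸ hp))
    have hq0 : (q : ℝ) ≠ 0 := by exact_mod_cast hqp.pos.ne'
    rw [Finset.prod_insert hq, Finset.prod_insert hq, Nat.totient_mul hco, Nat.totient_prime hqp,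
      Nat.cast_mul, ih', Nat.cast_sub hqp.one_lt.le, Nat.cast_one, Nat.cast_mul]
    field_simp

theorem tPhw (h : MprStmt) : PhwStmt := by
  intro z e hz
  have h1 := h z 1 hz le_rfl
  have h2 : ((1 : ℕ) : ℝ) / ((Nat.totient 1 : ℕ) : ℝ) / Real.log z = 1 / Real.log z := by
    simp
  rw [h2] at h1
  have h3 : (Icc 1 z).filter (fun p => p.Prime ∧ ¬ p ∣ 1) = (Ioc 0 z).filter Nat.Prime := by
    ext p
    simp only [Finset.mem_filter, Finset.mem_Icc, Finset.mem_Ioc, Nat.dvd_one]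
    constructor
    · rintro ⟨⟨a, b⟩, c, _⟩
      exact ⟨⟨by omega, b⟩, c⟩
    · rintro ⟨⟨a, b⟩, c⟩
      exact ⟨⟨by omega, b⟩, c, c.one_lt.ne'⟩
  rw [h3] at h1
  have h4 : WW z e = ∏ p ∈ smp 0 z e, p := by
    unfold WW smp
    congr 1
  have h5 := Sv_tot (smp 0 z e) (by
    intro p hp
    unfold smp at hp
    exact (Finset.mem_filter.1 hp).2.1)
  rw [h4, h5]
  have h6 := Sv_smp 0 z e
  unfold VV at h6
  have h7 : ∏ p ∈ smp 0 z e, (1 - 1 / (p : ℝ)) ≤ 2 * (1 / Real.log z) := by linarith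
  have h8 : (0 : ℝ) ≤ ((∏ p ∈ smp 0 z e, p : ℕ) : ℝ) := Nat.cast_nonneg _
  calc _ ≤ ((∏ p ∈ smp 0 z e, p : ℕ) : ℝ) * (2 * (1 / Real.log z)) := mul_le_mul_of_nonneg_left h7 h8
    _ = _ := by ring

end Pool.Agent.Lib.SG
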