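import Pool.Agent.Lib.SG.SpecA

/-!
# SG/Pna: lower bound for the weighted number of primes in the classes (helper27)
-/

namespace Pool.Agent.Lib.SG

open Finset Pool.Agent.Lib.BV

private lemma Pna_summable (h1 : SmzStmt) (D : ℕ) (s : ℝ) (hs : 0 < s) :
    Summable (wt D s Lam) := by
  obtain ⟨-, -, h2, -⟩ := h1 1
  have h3 := h2 s hs
  have h0 : ∀ n : ℕ, 0 ≤ Real.log n := fun n => Real.log_natCast_nonneg n
  refine Summable.of_nonneg_of_le (fun n => ?_) (fun n => ?_) h3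
  · unfold wt rr Lam
    have := ArithmeticFunction.vonMangoldt_nonneg (n := n)
    split_ifs <;> positivity
  · unfold wt rr Lam
    have hp : 0 ≤ (n : ℝ) ^ (-(1 + s)) := by positivity
    have hl : ArithmeticFunction.vonMangoldt n ≤ Real.log n :=
      ArithmeticFunction.vonMangoldt_le_log
    split_ifs
    · rw [one_mul, pow_one]
      exact mul_le_mul_of_nonneg_right (by linarith) hp
    · rw [zero_mul, zero_mul]
      exact mul_nonneg (pow_nonneg (by linarith [h0 n]) _) hp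

/-- **Pna.** -/
theorem tPna (h1 : SmzStmt) (h2 : CxuStmt) (h3 : ZbdStmt) (h4 : PtbStmt) (h5 : GidStmt)
    (h6 : GdfStmt) (h7 : DpqStmt) (h8 : OdeStmt) (h9 : QloStmt) : PnaStmt := by
  intro κ hκ
  obtain ⟨CZ, dZ, hCZ, hdZ, hZ⟩ := h3 κ hκ
  obtain ⟨CP, dP, hCP, hdP, hP⟩ := h4
  obtain ⟨CG, dG, hCG, hdG, hG⟩ := h6
  obtain ⟨cQ, c1, dQ, hcQ, hc1, hdQ, hQ⟩ := h9
  obtain ⟨K, hK⟩ : ∃ K, K = CZ + CP + CG := ⟨_, rfl⟩
  have hK0 : 0 < K := by rw [hK]; positivity
  have hKZ : CZ ≤ K := by rw [hK]; linarith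
  have hKP : CP ≤ K := by rw [hK]; linarith
  have hKG : CG ≤ K := by rw [hK]; linarith
  obtain ⟨C, hC, hO⟩ := h8 K hK0
  refine ⟨cQ / 2, min 1 (min c1 (cQ / (2 * C))), max (max dZ dP) (max dG dQ), by positivity,
    by positivity, le_max_of_le_left (le_max_of_le_left hdZ), ?_⟩
  intro q _ D a s hD hqD hgood hs hsl
  have hDZ : dZ ≤ D := ((le_max_left _ _).trans (le_max_left _ _)).trans hD
  have hDP : dP ≤ D := ((le_max_right _ _).trans (le_max_left _ _)).trans hD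
  have hDG : dG ≤ D := ((le_max_left _ _).trans (le_max_right _ _)).trans hD
  have hDQ : dQ ≤ D := ((le_max_right _ _).trans (le_max_right _ _)).trans hD
  have hD3 : (3 : ℝ) ≤ D := hdZ.trans hDZ
  have hlog : 1 ≤ Real.log D := by
    rw [Real.le_log_iff_exp_le (by linarith)]
    have := Real.exp_one_lt_d9
    linarith
  obtain ⟨ℓ, hℓ⟩ : ∃ ℓ, ℓ = Real.log D := ⟨_, rfl⟩
  rw [← hℓ] at hlog hsl
  have hℓ0 : 0 < ℓ := by linarith
  have h1l : 1 / ℓ ≤ 1 := by
    rw [div_le_one hℓ0]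
    exact hlog
  have hq0 : 0 < q := Nat.pos_of_ne_zero (NeZero.ne q)
  have hqD' : q ≤ D := by
    have : q ^ 1 ≤ q ^ 4 := Nat.pow_le_pow_right hq0 (by norm_num)
    rw [pow_one] at this
    exact this.trans hqD
  have hD2 : 2 ≤ D := by
    have : (2 : ℝ) ≤ D := by linarith
    exact_mod_cast this
  have hφ : (0 : ℝ) < q.totient := by exact_mod_cast Nat.totient_pos.mpr hq0
  have hs1 : s ≤ 1 / ℓ := hsl.trans (by gcongr; exact min_le_left _ _)
  have hsc1 : s ≤ c1 / ℓ :=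
    hsl.trans (by gcongr; exact (min_le_right _ _).trans (min_le_left _ _))
  have hsc2 : s ≤ cQ / (2 * C) / ℓ :=
    hsl.trans (by gcongr; exact (min_le_right _ _).trans (min_le_right _ _))
  have hOde := hO q ℓ (fun s a => cU q (wt D s Lam) a) (fun s a => cU q (wt D s Lam1) a)
    (fun s a => cU q (wt D s Lam2) a) hlog (fun s a hs => h7 q D a s hs)
    (fun s a hs hsl => by
      obtain ⟨p1, p2⟩ := hP q D a s hDP hqD hs (hsl.trans h1l)
      rw [abs_of_nonneg p1]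
      refine p2.trans ?_
      gcongr)
    (fun s a hs _ => (h5 q D a s hqD' hD2 hs).2)
    (fun s a a' hs hsl => by
      refine (hG q D a a' s hDG hqD hs (by rw [← hℓ]; exact hsl)).trans ?_
      rw [← hℓ, mul_div_assoc]
      gcongr)
    (fun s χ hs hsl hχ => by
      rw [← h2 q χ (wt D s Lam) (Pna_summable h1 D s hs)]
      refine (hZ q D χ s hDZ hqD hgood hχ hs (by rw [← hℓ]; exact hsl)).trans ?_
      rw [← hℓ]
      gcongr) s a hs hs1
  have hQ1 := hQ q D s hDQ hqD' hs (by rw [← hℓ]; exact hsc1)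
  have e1 := (abs_le.mp hOde).1
  have e2 : 1 / (q.totient : ℝ) * (cQ / s ^ 2) ≤
      1 / (q.totient : ℝ) * ∑ b, cU q (wt D s Lam1) b := by gcongr
  have e3 : C * ℓ / ((q.totient : ℝ) * s) ≤ cQ / 2 / ((q.totient : ℝ) * s ^ 2) := by
    rw [div_le_div_iff₀ (by positivity) (by positivity)]
    have e4 : s * ℓ ≤ cQ / (2 * C) := by
      rw [le_div_iff₀ hℓ0] at hsc2
      exact hsc2
    have e5 : C * (s * ℓ) ≤ cQ / 2 := by
      calc C * (s * ℓ) ≤ C * (cQ / (2 * C)) := by gcongr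
        _ = cQ / 2 := by field_simp
    calc C * ℓ * ((q.totient : ℝ) * s ^ 2) = C * (s * ℓ) * ((q.totient : ℝ) * s) := by ring
      _ ≤ cQ / 2 * ((q.totient : ℝ) * s) := by gcongr
  have e6 : 1 / (q.totient : ℝ) * (cQ / s ^ 2) =
      cQ / 2 / ((q.totient : ℝ) * s ^ 2) + cQ / 2 / ((q.totient : ℝ) * s ^ 2) := by
    field_simp
    ring
  linarith

end Pool.Agent.Lib.SG
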