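import Pool.Agent.Lib.SG.SpecA

/-!
MP_9a4459_nt, directory Lib/SG, module Pnf (helper71).
-/

namespace Pool.Agent.Lib.SG

open Finset Pool.Agent.Lib.BV

private theorem Pnf_rr {D n : ℕ} (hn : n.Prime) : rr D n = if D < n then 1 else 0 := by
  unfold rr
  have : Rough D n ↔ D < n := by
    constructor
    · exact fun h => h n hn dvd_rfl
    · intro h p hp hpn
      rw [(Nat.prime_dvd_prime_iff_eq hp hn).1 hpn]
      exact h
  by_cases h : D < n
  · rw [if_pos (this.2 h), if_pos h]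
  · rw [if_neg (fun h' => h (this.1 h')), if_neg h]

private theorem Pnf_wt {D n : ℕ} (hn : n.Prime) (s : ℝ) :
    wt D s Lam1 n = if D < n then (Real.log n) ^ 2 * (n : ℝ) ^ (-(1 + s)) else 0 := by
  unfold wt Lam1 Lam
  rw [Pnf_rr hn, ArithmeticFunction.vonMangoldt_apply_prime hn]
  split_ifs <;> ring

private theorem Pnf_wt0 (D n : ℕ) (s : ℝ) : 0 ≤ wt D s Lam1 n := by
  unfold wt Lam1 Lam rr
  have h1 : (0 : ℝ) ≤ ArithmeticFunction.vonMangoldt n := ArithmeticFunction.vonMangoldt_nonneg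
  have h2 : 0 ≤ Real.log n := Real.log_natCast_nonneg n
  have h3 : (0 : ℝ) ≤ (n : ℝ) ^ (-(1 + s)) := Real.rpow_nonneg (Nat.cast_nonneg n) _
  split_ifs
  · positivity
  · simp

/-- the primes of the class -/
private theorem Pnf_sum (q D a X N : ℕ) (s : ℝ) :
    ∑ n ∈ range N, (if n.Prime ∧ (n : ZMod q) = (a : ZMod q) then wt D s Lam1 n else 0) ≤
      ∑ p ∈ (Ioc D X).filter (fun p => p.Prime ∧ p ≡ a [MOD q]),
        (Real.log p) ^ 2 * (p : ℝ) ^ (-(1 + s)) +
      ∑ p ∈ (Ioc X N).filter (fun p => p.Prime ∧ p ≡ a [MOD q]),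
        (Real.log p) ^ 2 * (p : ℝ) ^ (-(1 + s)) := by
  have hdis : Disjoint ((Ioc D X).filter (fun p => p.Prime ∧ p ≡ a [MOD q]))
      ((Ioc X N).filter (fun p => p.Prime ∧ p ≡ a [MOD q])) := by
    rw [Finset.disjoint_left]
    intro x hx hx'
    rw [mem_filter, mem_Ioc] at hx hx'
    omega
  rw [← sum_union hdis]
  have e : ∑ n ∈ range N, (if n.Prime ∧ (n : ZMod q) = (a : ZMod q) then wt D s Lam1 n else 0) =
      ∑ n ∈ (range N).filter (fun n => (n.Prime ∧ n ≡ a [MOD q]) ∧ D < n),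
        (Real.log n) ^ 2 * (n : ℝ) ^ (-(1 + s)) := by
    rw [sum_filter]
    refine sum_congr rfl fun n _ => ?_
    by_cases h1 : n.Prime
    · by_cases h2 : n ≡ a [MOD q]
      · rw [if_pos ⟨h1, (ZMod.natCast_eq_natCast_iff n a q).2 h2⟩, Pnf_wt h1]
        by_cases h3 : D < n
        · rw [if_pos h3, if_pos ⟨⟨h1, h2⟩, h3⟩]
        · rw [if_neg h3, if_neg (fun h => h3 h.2)]
      · rw [if_neg (fun h => h2 ((ZMod.natCast_eq_natCast_iff n a q).1 h.2)),
          if_neg (fun h => h2 h.1.2)]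
    · rw [if_neg (fun h => h1 h.1), if_neg (fun h => h1 h.1.1)]
  rw [e]
  refine sum_le_sum_of_subset_of_nonneg ?_ (fun n _ _ => ?_)
  · intro n hn
    rw [mem_filter, mem_range] at hn
    rw [mem_union, mem_filter, mem_filter, mem_Ioc, mem_Ioc]
    by_cases h : n ≤ X
    · exact Or.inl ⟨⟨hn.2.2, h⟩, hn.2.1⟩
    · exact Or.inr ⟨⟨not_le.1 h, hn.1.le⟩, hn.2.1⟩
  · have h3 : (0 : ℝ) ≤ (n : ℝ) ^ (-(1 + s)) := Real.rpow_nonneg (Nat.cast_nonneg n) _
    positivity

theorem tPnf (_hSmz : SmzStmt) (hAbt : AbtStmt) (hPpw : PpwStmt) (hPna : PnaStmt) : PnfStmt := by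
  intro κ hκ
  obtain ⟨c0, c1', D1, hc0, hc1', hD1, h1⟩ := hPna κ hκ
  obtain ⟨C2, D2, hC2, hD2, h2⟩ := hPpw
  obtain ⟨C3, D3, hC3, hD3, h3⟩ := hAbt
  obtain ⟨m, hm⟩ : ∃ m : ℝ, m = 4 * C2 / c0 := ⟨_, rfl⟩
  obtain ⟨K, hK1, hK2, hK3⟩ : ∃ K : ℝ, 1 ≤ K ∧ c1' ≤ K ∧ 2 * Real.log (4 * C3 / c0) ≤ K :=
    ⟨max (max 1 c1') (2 * Real.log (4 * C3 / c0)), (le_max_left _ _).trans (le_max_left _ _),
      (le_max_right _ _).trans (le_max_left _ _), le_max_right _ _⟩
  have hKe : C3 * Real.exp (-(K / 2)) ≤ c0 / 4 := by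
    have e1 : Real.exp (-(K / 2)) ≤ c0 / (4 * C3) := by
      have e2 : -(K / 2) ≤ -Real.log (4 * C3 / c0) := by linarith
      refine (Real.exp_le_exp.2 e2).trans ?_
      rw [Real.exp_neg, Real.exp_log (by positivity), inv_div]
    calc C3 * Real.exp (-(K / 2)) ≤ C3 * (c0 / (4 * C3)) := by gcongr
      _ = c0 / 4 := by field_simp
  refine ⟨c0 / 2, min c1' 1, K, max (max D1 D2) (max D3 (m ^ 2)), by positivity, by positivity,
    by linarith, (hD1.trans (le_max_left _ _)).trans (le_max_left _ _), ?_⟩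
  intro q D a X s hq hD hqD hg ha hs hs1 hX
  have hD1' : D1 ≤ D := ((le_max_left _ _).trans (le_max_left _ _)).trans hD
  have hD2' : D2 ≤ D := ((le_max_right _ _).trans (le_max_left _ _)).trans hD
  have hD3' : D3 ≤ D := ((le_max_left _ _).trans (le_max_right _ _)).trans hD
  have hDm : m ^ 2 ≤ D := ((le_max_right _ _).trans (le_max_right _ _)).trans hD
  have hD3 : (3 : ℝ) ≤ D := hD1.trans hD1'
  have hDp : (0 : ℝ) < D := by linarith
  have hlog : 1 ≤ Real.log D := by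
    rw [Real.le_log_iff_exp_le (by linarith)]
    exact (Real.exp_one_lt_three.le).trans hD3
  have hlogp : 0 < Real.log D := by linarith
  have : NeZero q := ⟨by omega⟩
  have hs2 : s ≤ c1' / Real.log D :=
    hs1.trans (div_le_div_of_nonneg_right (min_le_left _ _) hlogp.le)
  have hs3 : s ≤ 1 / Real.log D :=
    hs1.trans (div_le_div_of_nonneg_right (min_le_right _ _) hlogp.le)
  have hs4 : s ≤ 1 := hs3.trans (by rw [div_le_one hlogp]; exact hlog)
  have hDX : D ≤ X := by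
    have e1 : Real.log D ≤ K / s := by
      rw [le_div_iff₀ hs]
      rw [le_div_iff₀ hlogp] at hs2
      linarith
    have e2 : (D : ℝ) ≤ X := by
      calc (D : ℝ) = Real.exp (Real.log D) := (Real.exp_log hDp).symm
        _ ≤ Real.exp (K / s) := Real.exp_le_exp.2 e1
        _ ≤ X := hX
    exact_mod_cast e2
  have hφ : 0 < (q.totient : ℝ) := by exact_mod_cast Nat.totient_pos.2 hq
  have hs2p : 0 < s ^ 2 := by positivity
  have e1 := h1 q D (ZMod.unitOfCoprime a ha) s hD1' hqD hg hs hs2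
  obtain ⟨-, hsum, -, e2⟩ := h2 D s hD2' hs
  -- the terms
  have hsum1 : Summable fun n : ℕ => if n.Prime then 0 else wt D s Lam1 n := by
    refine Summable.of_nonneg_of_le (fun n => ?_) (fun n => ?_) hsum
    · split_ifs
      · exact le_rfl
      · exact Pnf_wt0 D n s
    · split_ifs
      · exact Pnf_wt0 D n s
      · exact le_rfl
  have hg0 : ∀ n : ℕ, 0 ≤
      (if n.Prime ∧ (n : ZMod q) = (a : ZMod q) then wt D s Lam1 n else 0) := by
    intro n
    split_ifs
    · exact Pnf_wt0 D n s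
    · exact le_rfl
  have hsum2 : Summable fun n : ℕ =>
      if n.Prime ∧ (n : ZMod q) = (a : ZMod q) then wt D s Lam1 n else 0 := by
    refine Summable.of_nonneg_of_le hg0 (fun n => ?_) hsum
    split_ifs
    · exact le_rfl
    · exact Pnf_wt0 D n s
  have hsum3 : Summable fun n : ℕ =>
      if (n : ZMod q) = ((ZMod.unitOfCoprime a ha : (ZMod q)ˣ) : ZMod q) then
        wt D s Lam1 n else 0 := by
    refine Summable.of_nonneg_of_le (fun n => ?_) (fun n => ?_) hsum
    · split_ifs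
      · exact Pnf_wt0 D n s
      · exact le_rfl
    · split_ifs
      · exact le_rfl
      · exact Pnf_wt0 D n s
  have e3 : cU q (wt D s Lam1) (ZMod.unitOfCoprime a ha) ≤
      ∑' n : ℕ, (if n.Prime then 0 else wt D s Lam1 n) +
      ∑' n : ℕ, (if n.Prime ∧ (n : ZMod q) = (a : ZMod q) then wt D s Lam1 n else 0) := by
    unfold cU
    rw [← hsum1.tsum_add hsum2]
    refine hsum3.tsum_le_tsum (fun n => ?_) (hsum1.add hsum2)
    rw [ZMod.coe_unitOfCoprime]
    by_cases h1 : n.Prime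
    · rw [if_pos h1, zero_add]
      by_cases h2 : (n : ZMod q) = (a : ZMod q)
      · rw [if_pos h2, if_pos ⟨h1, h2⟩]
      · rw [if_neg h2, if_neg (fun h => h2 h.2)]
    · have h4 : ¬ (n.Prime ∧ (n : ZMod q) = (a : ZMod q)) := fun h => h1 h.1
      rw [if_neg h1, if_neg h4, add_zero]
      split_ifs
      · exact le_rfl
      · exact Pnf_wt0 D n s
  have e4 : ∑' n : ℕ, (if n.Prime ∧ (n : ZMod q) = (a : ZMod q) then wt D s Lam1 n else 0) ≤
      ∑ p ∈ (Ioc D X).filter (fun p => p.Prime ∧ p ≡ a [MOD q]),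
        (Real.log p) ^ 2 * (p : ℝ) ^ (-(1 + s)) +
      C3 / ((q.totient : ℝ) * s ^ 2) * Real.exp (-(K / 2)) := by
    refine Real.tsum_le_of_sum_range_le hg0 fun N => ?_
    refine (Pnf_sum q D a X N s).trans (add_le_add le_rfl ?_)
    exact (h3 q D a N s hq hD3' hqD ha hs hs4).2 X K hDX (by linarith) hX
  have e5 : C3 / ((q.totient : ℝ) * s ^ 2) * Real.exp (-(K / 2)) ≤
      c0 / 4 / ((q.totient : ℝ) * s ^ 2) := by
    rw [div_mul_eq_mul_div]
    exact div_le_div_of_nonneg_right hKe (by positivity)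
  have e6 : C2 * ((Real.log D) ^ 2 / D) ≤ c0 / 4 / ((q.totient : ℝ) * s ^ 2) := by
    have f1 : (s * Real.log D) ^ 2 ≤ 1 := by
      rw [le_div_iff₀ hlogp] at hs3
      exact pow_le_one₀ (by positivity) hs3
    have f2 : (q.totient : ℝ) ^ 2 ≤ D := by
      have g1 : q.totient ^ 4 ≤ D := (Nat.pow_le_pow_left (Nat.totient_le q) 4).trans hqD
      have g2 : q.totient ^ 2 ≤ q.totient ^ 4 :=
        Nat.pow_le_pow_right (Nat.totient_pos.2 hq) (by norm_num)
      exact_mod_cast g2.trans g1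
    have f3 : (q.totient : ℝ) * m ≤ D := by
      nlinarith [sq_nonneg ((q.totient : ℝ) - m)]
    have f4 : (q.totient : ℝ) * (4 * C2) ≤ c0 * D := by
      rw [hm] at f3
      have : (q.totient : ℝ) * (4 * C2) = c0 * ((q.totient : ℝ) * (4 * C2 / c0)) := by
        field_simp
      rw [this]
      exact mul_le_mul_of_nonneg_left f3 hc0.le
    rw [le_div_iff₀ (by positivity)]
    have f5 : C2 * ((Real.log D) ^ 2 / D) * ((q.totient : ℝ) * s ^ 2) =
        ((q.totient : ℝ) * (4 * C2)) * (s * Real.log D) ^ 2 / (4 * D) := by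
      field_simp
    rw [f5, div_le_iff₀ (by positivity)]
    calc (q.totient : ℝ) * (4 * C2) * (s * Real.log D) ^ 2
        ≤ (q.totient : ℝ) * (4 * C2) * 1 := by
          exact mul_le_mul_of_nonneg_left f1 (by positivity)
      _ ≤ c0 / 4 * (4 * D) := by linarith
  have e7 : c0 / ((q.totient : ℝ) * s ^ 2) = c0 / 2 / ((q.totient : ℝ) * s ^ 2) +
      c0 / 4 / ((q.totient : ℝ) * s ^ 2) + c0 / 4 / ((q.totient : ℝ) * s ^ 2) := by
    ring
  linarith

end Pool.Agent.Lib.SG
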