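import Pool.Agent.Lib.SG.SpecB
import Pool.Agent.Lib.SG.Sv2

/-!
MP_9a4459_nt, module Ppa: upper bounds for primes and pairs of primes in classes mod W.
-/

namespace Pool.Agent.Lib.SG

open Finset Pool.Agent.Lib.BV

/-- the class c mod p with W c + t ≡ 0 -/
private def pc (W p t : ℕ) : ℕ := (-(t : ZMod p) * (W : ZMod p)⁻¹).val

private lemma pc_lt (W p t : ℕ) (hp : p.Prime) : pc W p t < p := by
  have : NeZero p := ⟨hp.pos.ne'⟩
  exact ZMod.val_lt _

private lemma pc_dvd (W p t m : ℕ) (hp : p.Prime) (hW : ¬ p ∣ W) (h : m % p = pc W p t) : p ∣ W * m + t := by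
  have : Fact p.Prime := ⟨hp⟩
  have hW0 : (W : ZMod p) ≠ 0 := fun h0 => hW ((ZMod.natCast_eq_zero_iff W p).1 h0)
  have h1 : (m : ZMod p) = -(t : ZMod p) * (W : ZMod p)⁻¹ := by
    have h2 : ((m % p : ℕ) : ZMod p) = ((pc W p t : ℕ) : ZMod p) := by rw [h]
    unfold pc at h2
    rw [ZMod.natCast_mod, ZMod.natCast_zmod_val] at h2
    exact h2
  rw [← ZMod.natCast_eq_zero_iff]
  push_cast
  rw [h1]
  field_simp
  ring

private lemma pc_ne (W p t g : ℕ) (hp : p.Prime) (hW : ¬ p ∣ W) (hg : ¬ p ∣ g) :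
    pc W p t ≠ pc W p (t + g) := by
  have : Fact p.Prime := ⟨hp⟩
  have hW0 : (W : ZMod p) ≠ 0 := fun h0 => hW ((ZMod.natCast_eq_zero_iff W p).1 h0)
  intro h
  unfold pc at h
  have h1 := ZMod.val_injective p h
  have h2 : (W : ZMod p)⁻¹ ≠ 0 := inv_ne_zero hW0
  have h3 := mul_right_cancel₀ h2 h1
  apply hg
  rw [← ZMod.natCast_eq_zero_iff]
  push_cast at h3
  have h4 : (t : ZMod p) = (t : ZMod p) + (g : ZMod p) := by
    have := neg_injective h3
    exact this
  have h5 : (t : ZMod p) + 0 = (t : ZMod p) + (g : ZMod p) := by rw [add_zero]; exact h4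
  exact (add_left_cancel h5).symm

private lemma Ppa_ev (a : ℝ) (ha : 0 < a) : ∃ L0 : ℝ, 16 ≤ L0 ∧ ∀ x : ℝ, L0 ≤ x →
    Real.log x ≤ x ^ a ∧ (Real.log x) ^ 2 ≤ x ^ ((1 : ℝ) / 2) := by
  have a1 := (isLittleO_log_rpow_atTop ha).bound (c := 1) one_pos
  have a2 := (isLittleO_log_rpow_atTop (r := 1 / 4) (by norm_num)).bound (c := 1) one_pos
  obtain ⟨L0, hL0⟩ := Filter.eventually_atTop.1 (a1.and a2)
  refine ⟨max L0 16, le_max_right _ _, fun x hx => ?_⟩
  obtain ⟨b1, b2⟩ := hL0 x ((le_max_left _ _).trans hx)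
  have hx16 : 16 ≤ x := (le_max_right _ _).trans hx
  have hx0 : 0 < x := by linarith
  have hl0 : 0 ≤ Real.log x := Real.log_nonneg (by linarith)
  rw [Real.norm_of_nonneg hl0, Real.norm_of_nonneg (Real.rpow_nonneg hx0.le _), one_mul] at b1 b2
  refine ⟨b1, ?_⟩
  calc (Real.log x) ^ 2 ≤ (x ^ ((1 : ℝ) / 4)) ^ 2 := pow_le_pow_left₀ hl0 b2 2
    _ = x ^ ((1 : ℝ) / 4 * (2 : ℕ)) := by rw [Real.rpow_mul hx0.le, Real.rpow_natCast]
    _ = x ^ ((1 : ℝ) / 2) := by norm_num

/-- the product with two classes -/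
private lemma Ppa_prod (z y g : ℕ) (hz : 2 ≤ z) (hg1 : 1 ≤ g) (hg : g < z ^ 2) (k : ℕ → ℕ)
    (hk1 : ∀ p ∈ (Ioc z y).filter Nat.Prime, 1 ≤ k p ∧ k p ≤ 2)
    (hk2 : ∀ p ∈ (Ioc z y).filter Nat.Prime, ¬ p ∣ g → k p = 2) :
    ∏ p ∈ (Ioc z y).filter Nat.Prime, (1 - (k p : ℝ) / p) ≤ 2 * (VV z y) ^ 2 := by
  set T : Finset ℕ := (Ioc z y).filter Nat.Prime with hT
  have hTm : ∀ p ∈ T, p.Prime ∧ z < p := by
    intro p hp
    rw [hT, Finset.mem_filter, Finset.mem_Ioc] at hp
    exact ⟨hp.2, hp.1.1⟩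
  have hTR : ∀ p ∈ T, (3 : ℝ) ≤ p := by
    intro p hp
    have := (hTm p hp).2
    exact_mod_cast (by omega : 3 ≤ p)
  have h1 : ∏ p ∈ T, (1 - (k p : ℝ) / p) ≤
      ∏ p ∈ T, ((1 - 1 / (p : ℝ)) ^ 2 * (if p ∣ g then 2 else 1)) := by
    apply Finset.prod_le_prod
    · intro p hp
      have h2 := hTR p hp
      have h3 : (k p : ℝ) ≤ 2 := by exact_mod_cast (hk1 p hp).2
      have h4 : (k p : ℝ) / p ≤ 1 := by
        rw [div_le_one (by linarith)]
        linarith
      linarith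
    · intro p hp
      have h2 := hTR p hp
      have hp0 : (0 : ℝ) < p := by linarith
      have hx1 : 1 / (p : ℝ) ≤ 1 / 3 := one_div_le_one_div_of_le (by norm_num) h2
      have hx0 : 0 < 1 / (p : ℝ) := by positivity
      have he : (1 - 1 / (p : ℝ)) ^ 2 = 1 - 2 / p + (1 / (p : ℝ)) ^ 2 := by ring
      split_ifs with hpg
      · have h3 : (1 : ℝ) ≤ k p := by exact_mod_cast (hk1 p hp).1
        have h4 : 1 / (p : ℝ) ≤ (k p : ℝ) / p := div_le_div_of_nonneg_right h3 hp0.le
        have h5 : (1 - 1 / (p : ℝ)) * 1 ≤ (1 - 1 / (p : ℝ)) * (2 * (1 - 1 / (p : ℝ))) :=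
          mul_le_mul_of_nonneg_left (by linarith) (by linarith)
        have h6 : (1 - 1 / (p : ℝ)) * (2 * (1 - 1 / (p : ℝ))) = (1 - 1 / (p : ℝ)) ^ 2 * 2 := by ring
        linarith
      · rw [hk2 p hp hpg, mul_one, he]
        push_cast
        have := sq_nonneg (1 / (p : ℝ))
        linarith
  refine h1.trans ?_
  rw [Finset.prod_mul_distrib, Finset.prod_pow]
  have h2 : ∏ p ∈ T, (if p ∣ g then (2 : ℝ) else 1) ≤ 2 := by
    rw [← Finset.prod_filter, Finset.prod_const]
    have hcard : (T.filter (fun p => p ∣ g)).card ≤ 1 := by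
      rw [Finset.card_le_one]
      intro p hp p' hp'
      rw [Finset.mem_filter] at hp hp'
      by_contra hne
      have c1 := hTm p hp.1
      have c2 := hTm p' hp'.1
      have c3 : Nat.Coprime p p' := (Nat.coprime_primes c1.1 c2.1).2 hne
      have c4 : p * p' ∣ g := c3.mul_dvd_of_dvd_of_dvd hp.2 hp'.2
      have c5 := Nat.le_of_dvd hg1 c4
      have c6 : z * z ≤ p * p' := Nat.mul_le_mul c1.2.le c2.2.le
      rw [sq] at hg
      omega
    calc (2 : ℝ) ^ (T.filter (fun p => p ∣ g)).card ≤ 2 ^ 1 :=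
          pow_le_pow_right₀ (by norm_num) hcard
      _ = 2 := by norm_num
  have h3 : (∏ p ∈ T, (1 - 1 / (p : ℝ))) ^ 2 = (VV z y) ^ 2 := rfl
  rw [h3]
  have h4 := mul_le_mul_of_nonneg_left h2 (sq_nonneg (VV z y))
  linarith

theorem tPpa (h1 : VbdStmt) (h2 : GsvStmt) : PpaStmt := by
  classical
  obtain ⟨c0, C0, hc0, hC0, hV⟩ := h1
  obtain ⟨C1, ps, E, hC1, hps, hE, hS⟩ := h2
  have hER : (1 : ℝ) ≤ E := by exact_mod_cast hE
  have hpsR : (16 : ℝ) ≤ ps := by exact_mod_cast hps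
  obtain ⟨L1, hL1, hy⟩ := Sv_par E 1
  obtain ⟨L2, hL2, he⟩ := Ppa_ev (1 / (8 * E + 8)) (by positivity)
  set K : ℝ := C0 * (8 * E + 8) with hK
  have hKp : 0 < K := by rw [hK]; positivity
  refine ⟨C1 * (3 * (K + 2 * K ^ 2)) + 1, max (max L1 L2) (ps + 3), by positivity,
    by linarith [le_max_right (max L1 L2) ((ps : ℝ) + 3)], ?_⟩
  intro z W b N hz hW hWz hWN h4z
  have hz1 : L1 ≤ z := ((le_max_left _ _).trans (le_max_left _ _)).trans hz
  have hz2 : L2 ≤ z := ((le_max_right _ _).trans (le_max_left _ _)).trans hz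
  have hz3 : (ps : ℝ) + 3 ≤ z := (le_max_right _ _).trans hz
  have hzN : z ≤ N := (Nat.lt_pow_self (by norm_num : 1 < 4)).le.trans h4z
  have hzNR : (z : ℝ) ≤ N := by exact_mod_cast hzN
  obtain ⟨y1, y2, y3, y4, y5⟩ := hy N (hz1.trans hzNR)
  obtain ⟨v1, v2⟩ := he N (hz2.trans hzNR)
  set y : ℕ := ⌊(N : ℝ) ^ (1 / (4 * (E : ℝ) + 4))⌋₊ with hydef
  have hz0 : (19 : ℝ) ≤ z := by linarith
  have hN0 : (0 : ℝ) < N := by linarith
  have hlN : 0 < Real.log N := Real.log_pos (by linarith)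
  have hlz : 1 ≤ Real.log z := by
    rw [Real.le_log_iff_exp_le (by linarith)]
    have := Real.exp_one_lt_d9
    linarith
  have hpsz : ps ≤ z := by
    have : (ps : ℝ) ≤ z := by linarith
    exact_mod_cast this
  have hzlog : (z : ℝ) ≤ Real.log N := by
    have e1 : ((4 ^ z : ℕ) : ℝ) ≤ N := by exact_mod_cast h4z
    have e2 := Real.log_le_log (by positivity) e1
    push_cast at e2
    rw [Real.log_pow] at e2
    have e3 : 1 ≤ Real.log 4 := by
      rw [Real.le_log_iff_exp_le (by norm_num)]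
      have := Real.exp_one_lt_d9
      linarith
    have e4 := mul_le_mul_of_nonneg_left e3 (Nat.cast_nonneg z : (0 : ℝ) ≤ z)
    linarith
  have hzy : z ≤ y := by
    have : (z : ℝ) ≤ y := hzlog.trans (v1.trans y2)
    exact_mod_cast this
  have hyN : y ≤ N := by
    have e1 : (y : ℝ) ≤ N := by
      refine y4.trans ?_
      calc (N : ℝ) ^ ((1 : ℝ) / 4) ≤ (N : ℝ) ^ (1 : ℝ) :=
            Real.rpow_le_rpow_of_exponent_le (by linarith) (by norm_num)
        _ = N := Real.rpow_one _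
    exact_mod_cast e1
  have hWN' : W ≤ N := (Nat.le_self_pow (by norm_num) W).trans hWN
  obtain ⟨l1, l2⟩ := Ppa_len W N hW hWN'
  have hW0 : (0 : ℝ) < W := by exact_mod_cast hW
  have hWN4 : (W : ℝ) ≤ (N : ℝ) ^ ((1 : ℝ) / 4) := by
    have e1 : ((W ^ 4 : ℕ) : ℝ) ≤ N := by exact_mod_cast hWN
    push_cast at e1
    calc (W : ℝ) = ((W : ℝ) ^ 4) ^ ((1 : ℝ) / 4) := by
          rw [← Real.rpow_natCast, ← Real.rpow_mul hW0.le]
          norm_num
      _ ≤ (N : ℝ) ^ ((1 : ℝ) / 4) := Real.rpow_le_rpow (by positivity) e1 (by norm_num)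
  -- the error
  have herr2 : (y : ℝ) ^ E ≤ (N : ℝ) / W * (Real.log z / Real.log N) ^ 2 := by
    refine y3.trans ?_
    rw [div_pow, div_mul_div_comm, le_div_iff₀ (mul_pos hW0 (pow_pos hlN 2))]
    have hr : 0 ≤ (N : ℝ) ^ ((1 : ℝ) / 4) := Real.rpow_nonneg hN0.le _
    calc (N : ℝ) ^ ((1 : ℝ) / 4) * (W * (Real.log N) ^ 2) ≤
        (N : ℝ) ^ ((1 : ℝ) / 4) * ((N : ℝ) ^ ((1 : ℝ) / 4) * (N : ℝ) ^ ((1 : ℝ) / 2)) :=
          mul_le_mul_of_nonneg_left (mul_le_mul hWN4 v2 (sq_nonneg _) hr) hr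
      _ = N * 1 := by
          rw [← Real.rpow_add hN0, ← Real.rpow_add hN0]
          norm_num
      _ ≤ N * (Real.log z) ^ 2 := mul_le_mul_of_nonneg_left (one_le_pow₀ hlz) hN0.le
  have hratio : Real.log z / Real.log N ≤ 1 := by
    rw [div_le_one hlN]
    exact Real.log_le_log (by linarith) hzNR
  have hratio0 : 0 ≤ Real.log z / Real.log N := by positivity
  have herr1 : (y : ℝ) ^ E ≤ (N : ℝ) / W * (Real.log z / Real.log N) := by
    refine herr2.trans (mul_le_mul_of_nonneg_left ?_ (by positivity))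
    rw [sq]
    exact mul_le_of_le_one_left hratio0 hratio
  have hly : 0 < Real.log y := lt_of_lt_of_le (by positivity) y5
  have hVy : VV z y ≤ K * (Real.log z / Real.log N) := by
    refine (hV z y (by omega) hzy).2.trans ?_
    rw [hK, mul_assoc]
    apply mul_le_mul_of_nonneg_left _ hC0.le
    rw [div_le_iff₀ hly]
    have q1 := mul_le_mul_of_nonneg_left y5
      (by positivity : 0 ≤ (8 * (E : ℝ) + 8) * (Real.log z / Real.log N))
    have q2 : (8 * (E : ℝ) + 8) * (Real.log z / Real.log N) * (Real.log N / (8 * (E : ℝ) + 8)) =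
        Real.log z := by
      field_simp
    rw [q2] at q1
    exact q1
  set T : Finset ℕ := (Ioc z y).filter Nat.Prime with hT
  have hTm : ∀ p ∈ T, p.Prime ∧ z < p ∧ p ≤ y := by
    intro p hp
    rw [hT, Finset.mem_filter, Finset.mem_Ioc] at hp
    exact ⟨hp.2, hp.1.1, hp.1.2⟩
  have hTW : ∀ p ∈ T, ¬ p ∣ W := by
    intro p hp hd
    have a1 := hTm p hp
    have a2 := hWz p a1.1 hd
    omega
  have hNW : 0 ≤ (N : ℝ) / W := by positivity
  constructor
  · intro j
    have e1 := Ppa_map W b N hW hWN' (fun n => (n + j).Prime)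
    have e2 := hS y T (fun p => {pc W p (b % W + j)}) (N / W - 1) (2 * N / W) l1 (by
      intro p hp
      obtain ⟨a1, a2, a3⟩ := hTm p hp
      refine ⟨a1, by omega, a3, ?_, by simp⟩
      intro c hc
      rw [Finset.mem_singleton] at hc
      rw [Finset.mem_range, hc]
      exact pc_lt W p _ a1)
    have e3 : (((Ioc (N / W - 1) (2 * N / W)).filter
        (fun m => N < W * m + b % W ∧ (W * m + b % W + j).Prime)).card : ℝ) ≤
        (((Ioc (N / W - 1) (2 * N / W)).filter
          (fun n => ∀ p ∈ T, n % p ∉ ({pc W p (b % W + j)} : Finset ℕ))).card : ℝ) := by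
      have e4 : (Ioc (N / W - 1) (2 * N / W)).filter
          (fun m => N < W * m + b % W ∧ (W * m + b % W + j).Prime) ⊆
          (Ioc (N / W - 1) (2 * N / W)).filter
          (fun n => ∀ p ∈ T, n % p ∉ ({pc W p (b % W + j)} : Finset ℕ)) := by
        intro m hm
        rw [Finset.mem_filter] at hm ⊢
        obtain ⟨m1, m2, m3⟩ := hm
        refine ⟨m1, fun p hp hmp => ?_⟩
        rw [Finset.mem_singleton] at hmp
        obtain ⟨a1, a2, a3⟩ := hTm p hp
        have a4 := pc_dvd W p _ m a1 (hTW p hp) hmp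
        rw [← add_assoc] at a4
        have a5 := (Nat.prime_dvd_prime_iff_eq a1 m3).1 a4
        omega
      exact_mod_cast Finset.card_le_card e4
    have e5 : ∏ p ∈ T, (1 - ((({pc W p (b % W + j)} : Finset ℕ).card : ℕ) : ℝ) / p) = VV z y := by
      unfold VV
      refine Finset.prod_congr rfl fun p _ => ?_
      rw [Finset.card_singleton, Nat.cast_one]
    rw [e5] at e2
    have e6 : C1 * ((((2 * N / W : ℕ) : ℝ) - ((N / W - 1 : ℕ) : ℝ)) * VV z y) ≤
        C1 * (3 * ((N : ℝ) / W) * (K * (Real.log z / Real.log N))) := by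
      apply mul_le_mul_of_nonneg_left _ (by linarith)
      exact mul_le_mul l2 hVy (Sv_VV_nonneg _ _) (by positivity)
    have e7 : C1 * (3 * ((N : ℝ) / W) * (K * (Real.log z / Real.log N))) +
        (N : ℝ) / W * (Real.log z / Real.log N) ≤
        (C1 * (3 * (K + 2 * K ^ 2)) + 1) * ((N : ℝ) / W * (Real.log z / Real.log N)) := by
      have e8 : 0 ≤ C1 * (3 * (2 * K ^ 2)) * ((N : ℝ) / W * (Real.log z / Real.log N)) := by
        apply mul_nonneg _ (mul_nonneg hNW hratio0)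
        positivity
      have e9 : (C1 * (3 * (K + 2 * K ^ 2)) + 1) * ((N : ℝ) / W * (Real.log z / Real.log N)) =
        C1 * (3 * ((N : ℝ) / W) * (K * (Real.log z / Real.log N))) +
        (N : ℝ) / W * (Real.log z / Real.log N) +
        C1 * (3 * (2 * K ^ 2)) * ((N : ℝ) / W * (Real.log z / Real.log N)) := by ring
      rw [e9]
      linarith
    have e10 : (((Ioc N (2 * N)).filter (fun n => n ≡ b [MOD W] ∧ (n + j).Prime)).card : ℝ) ≤
      (((Ioc (N / W - 1) (2 * N / W)).filter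
        (fun m => N < W * m + b % W ∧ (W * m + b % W + j).Prime)).card : ℝ) := by
      convert e1
    have e11 : (((Ioc (N / W - 1) (2 * N / W)).filter
          (fun n => ∀ p ∈ T, n % p ∉ ({pc W p (b % W + j)} : Finset ℕ))).card : ℝ) ≤
        C1 * ((((2 * N / W : ℕ) : ℝ) - ((N / W - 1 : ℕ) : ℝ)) * VV z y) + (y : ℝ) ^ E := by
      convert e2
    linarith
  · intro j g hg1 hg
    have e1 := Ppa_map W b N hW hWN' (fun n => (n + j).Prime ∧ (n + (j + g)).Prime)
    have e2 := hS y T (fun p => {pc W p (b % W + j), pc W p (b % W + j + g)}) (N / W - 1) (2 * N / W) l1 (by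
      intro p hp
      obtain ⟨a1, a2, a3⟩ := hTm p hp
      refine ⟨a1, by omega, a3, ?_, (Finset.card_le_two).trans (by norm_num)⟩
      intro c hc
      rw [Finset.mem_insert, Finset.mem_singleton] at hc
      rw [Finset.mem_range]
      rcases hc with hc | hc
      · rw [hc]
        exact pc_lt W p _ a1
      · rw [hc]
        exact pc_lt W p _ a1)
    have e3 : (((Ioc (N / W - 1) (2 * N / W)).filter
        (fun m => N < W * m + b % W ∧ ((W * m + b % W + j).Prime ∧ (W * m + b % W + (j + g)).Prime))).card : ℝ) ≤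
        (((Ioc (N / W - 1) (2 * N / W)).filter
          (fun n => ∀ p ∈ T, n % p ∉
            ({pc W p (b % W + j), pc W p (b % W + j + g)} : Finset ℕ))).card : ℝ) := by
      have e4 : (Ioc (N / W - 1) (2 * N / W)).filter
          (fun m => N < W * m + b % W ∧ ((W * m + b % W + j).Prime ∧ (W * m + b % W + (j + g)).Prime)) ⊆
          (Ioc (N / W - 1) (2 * N / W)).filter
          (fun n => ∀ p ∈ T, n % p ∉ ({pc W p (b % W + j), pc W p (b % W + j + g)} : Finset ℕ)) := by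
        intro m hm
        rw [Finset.mem_filter] at hm ⊢
        obtain ⟨m1, m2, m3, m4⟩ := hm
        refine ⟨m1, fun p hp hmp => ?_⟩
        rw [Finset.mem_insert, Finset.mem_singleton] at hmp
        obtain ⟨a1, a2, a3⟩ := hTm p hp
        rcases hmp with hmp | hmp
        · have a4 := pc_dvd W p _ m a1 (hTW p hp) hmp
          rw [← add_assoc] at a4
          have a5 := (Nat.prime_dvd_prime_iff_eq a1 m3).1 a4
          omega
        · have a4 := pc_dvd W p _ m a1 (hTW p hp) hmp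
          have a6 : W * m + (b % W + j + g) = W * m + b % W + (j + g) := by ring
          rw [a6] at a4
          have a5 := (Nat.prime_dvd_prime_iff_eq a1 m4).1 a4
          omega
      exact_mod_cast Finset.card_le_card e4
    have e5 : ∏ p ∈ T, (1 - ((({pc W p (b % W + j), pc W p (b % W + j + g)} : Finset ℕ).card : ℕ) : ℝ) / p) ≤
        2 * (VV z y) ^ 2 := by
      apply Ppa_prod z y g (by omega) hg1 hg
        (fun p => (({pc W p (b % W + j), pc W p (b % W + j + g)} : Finset ℕ).card))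
      · intro p _
        exact ⟨Finset.card_pos.2 ⟨_, Finset.mem_insert_self _ _⟩, Finset.card_le_two⟩
      · intro p hp hpg
        exact Finset.card_pair (pc_ne W p _ g (hTm p hp).1 (hTW p hp) hpg)
    have e6 : C1 * ((((2 * N / W : ℕ) : ℝ) - ((N / W - 1 : ℕ) : ℝ)) *
        ∏ p ∈ T, (1 - ((({pc W p (b % W + j), pc W p (b % W + j + g)} : Finset ℕ).card : ℕ) : ℝ) / p)) ≤
        C1 * (3 * ((N : ℝ) / W) * (2 * (K * (Real.log z / Real.log N)) ^ 2)) := by
      apply mul_le_mul_of_nonneg_left _ (by linarith)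
      have e7 : (VV z y) ^ 2 ≤ (K * (Real.log z / Real.log N)) ^ 2 :=
        pow_le_pow_left₀ (Sv_VV_nonneg _ _) hVy 2
      have e8 : 0 ≤ ∏ p ∈ T, (1 - ((({pc W p (b % W + j), pc W p (b % W + j + g)} : Finset ℕ).card : ℕ) : ℝ) / p) := by
        apply Finset.prod_nonneg
        intro p hp
        have a2 := (hTm p hp).2.1
        have a3 : (2 : ℝ) ≤ p := by exact_mod_cast (by omega : 2 ≤ p)
        have a4 : ((({pc W p (b % W + j), pc W p (b % W + j + g)} : Finset ℕ).card : ℕ) : ℝ) ≤ 2 := by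
          exact_mod_cast Finset.card_le_two
        have a5 : ((({pc W p (b % W + j), pc W p (b % W + j + g)} : Finset ℕ).card : ℕ) : ℝ) / p ≤ 1 := by
          rw [div_le_one (by linarith)]
          linarith
        linarith
      exact mul_le_mul l2 (by linarith) e8 (by positivity)
    have e7 : C1 * (3 * ((N : ℝ) / W) * (2 * (K * (Real.log z / Real.log N)) ^ 2)) +
        (N : ℝ) / W * (Real.log z / Real.log N) ^ 2 ≤
        (C1 * (3 * (K + 2 * K ^ 2)) + 1) * ((N : ℝ) / W * (Real.log z / Real.log N) ^ 2) := by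
      have e8 : 0 ≤ C1 * (3 * K) * ((N : ℝ) / W * (Real.log z / Real.log N) ^ 2) := by
        apply mul_nonneg _ (mul_nonneg hNW (sq_nonneg _))
        positivity
      have e9 : (C1 * (3 * (K + 2 * K ^ 2)) + 1) * ((N : ℝ) / W * (Real.log z / Real.log N) ^ 2) =
        C1 * (3 * ((N : ℝ) / W) * (2 * (K * (Real.log z / Real.log N)) ^ 2)) +
        (N : ℝ) / W * (Real.log z / Real.log N) ^ 2 +
        C1 * (3 * K) * ((N : ℝ) / W * (Real.log z / Real.log N) ^ 2) := by ring
      rw [e9]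
      linarith
    have e10 : (((Ioc N (2 * N)).filter
        (fun n => n ≡ b [MOD W] ∧ (n + j).Prime ∧ (n + (j + g)).Prime)).card : ℝ) ≤
      (((Ioc (N / W - 1) (2 * N / W)).filter
        (fun m => N < W * m + b % W ∧ ((W * m + b % W + j).Prime ∧ (W * m + b % W + (j + g)).Prime))).card : ℝ) := by
      convert e1
    have e11 : (((Ioc (N / W - 1) (2 * N / W)).filter
          (fun n => ∀ p ∈ T, n % p ∉
            ({pc W p (b % W + j), pc W p (b % W + j + g)} : Finset ℕ))).card : ℝ) ≤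
        C1 * ((((2 * N / W : ℕ) : ℝ) - ((N / W - 1 : ℕ) : ℝ)) *
        ∏ p ∈ T, (1 - ((({pc W p (b % W + j), pc W p (b % W + j + g)} : Finset ℕ).card : ℕ) : ℝ) / p)) +
          (y : ℝ) ^ E := by
      convert e2
    linarith

end Pool.Agent.Lib.SG
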