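import Pool.Agent.Lib.SG.SpecA

/-!
MP_9a4459_nt, Lib/SG, module Ppw: higher prime powers (helper16).
-/

set_option autoImplicit false

namespace Pool.Agent.Lib.SG

open Finset Pool.Agent.Lib.BV

theorem Ppw_rr (D n : ℕ) : 0 ≤ rr D n ∧ rr D n ≤ 1 := by
  unfold rr
  split_ifs <;> norm_num

theorem Ppw_log (n : ℕ) : 0 ≤ Real.log n := Real.log_natCast_nonneg n

theorem Ppw_summ (h1 : SmzStmt) (D m : ℕ) (s : ℝ) (hs : 0 < s) (g : ℕ → ℝ)
    (hg : ∀ n : ℕ, 0 ≤ g n ∧ g n ≤ (1 + Real.log n) ^ m) : Summable (wt D s g) := by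
  obtain ⟨C, _, h2, _⟩ := h1 m
  refine Summable.of_nonneg_of_le ?_ ?_ (h2 s hs)
  · intro n
    unfold wt
    exact mul_nonneg (mul_nonneg (Ppw_rr D n).1 (hg n).1) (Real.rpow_nonneg (Nat.cast_nonneg n) _)
  · intro n
    unfold wt
    refine mul_le_mul_of_nonneg_right ?_ (Real.rpow_nonneg (Nat.cast_nonneg n) _)
    calc rr D n * g n ≤ 1 * g n := mul_le_mul_of_nonneg_right (Ppw_rr D n).2 (hg n).1
      _ = g n := one_mul _
      _ ≤ _ := (hg n).2

theorem Ppw_Lam (n : ℕ) : 0 ≤ Lam n ∧ Lam n ≤ (1 + Real.log n) ^ 1 := by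
  unfold Lam
  refine ⟨ArithmeticFunction.vonMangoldt_nonneg, ?_⟩
  have h := ArithmeticFunction.vonMangoldt_le_log (n := n)
  rw [pow_one]
  linarith

theorem Ppw_Lam1 (n : ℕ) : 0 ≤ Lam1 n ∧ Lam1 n ≤ (1 + Real.log n) ^ 2 := by
  unfold Lam1
  have h := Ppw_Lam n
  have h2 := Ppw_log n
  refine ⟨mul_nonneg h.1 h2, ?_⟩
  rw [pow_one] at h
  calc Lam n * Real.log n ≤ (1 + Real.log n) * Real.log n := mul_le_mul_of_nonneg_right h.2 h2
    _ ≤ (1 + Real.log n) * (1 + Real.log n) :=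
        mul_le_mul_of_nonneg_left (by linarith) (by linarith)
    _ = _ := by ring

/-- comparison of `log m` with `log D` -/
theorem Ppw_cmp (D m : ℕ) (hD : 55 ≤ D) (hm : D < m) :
    (Real.log m) ^ 2 / (m : ℝ) ^ 2 ≤
      (Real.log D) ^ 2 / Real.sqrt D * (1 / ((m : ℝ) * Real.sqrt m)) := by
  have hD0 : (0 : ℝ) < D := by
    have : 0 < D := by omega
    exact_mod_cast this
  have hm0 : (0 : ℝ) < m := by
    have : 0 < m := by omega
    exact_mod_cast this
  have hDm : (D : ℝ) < m := by exact_mod_cast hm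
  have hlD : 4 ≤ Real.log D := by
    rw [Real.le_log_iff_exp_le hD0]
    have h2 : Real.exp 4 = Real.exp 1 ^ 4 := by
      rw [← Real.exp_nat_mul]; norm_num
    have h3 : Real.exp 1 < 2.7182818286 := Real.exp_one_lt_d9
    have h4 : Real.exp 1 ^ 4 ≤ 2.7182818286 ^ 4 :=
      pow_le_pow_left₀ (Real.exp_pos 1).le h3.le 4
    have h5 : (55 : ℝ) ≤ D := by exact_mod_cast hD
    rw [h2]
    refine h4.trans (le_trans ?_ h5)
    norm_num
  -- `log m ≤ log D * (m/D)^(1/4)`
  have hx : Real.log m = Real.log D + Real.log ((m : ℝ) / D) := by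
    rw [Real.log_div hm0.ne' hD0.ne']; ring
  have ht0 : 0 ≤ Real.log ((m : ℝ) / D) := Real.log_nonneg (by rw [le_div_iff₀ hD0]; linarith)
  have h6 : Real.log m ≤ Real.log D * Real.exp (Real.log ((m : ℝ) / D) / 4) := by
    have h7 := Real.add_one_le_exp (Real.log ((m : ℝ) / D) / 4)
    have h8 : Real.log m ≤ Real.log D * (Real.log ((m : ℝ) / D) / 4 + 1) := by
      rw [hx]
      nlinarith
    exact h8.trans (mul_le_mul_of_nonneg_left h7 (by linarith))
  have h9 : Real.exp (Real.log ((m : ℝ) / D) / 4) ^ 2 = Real.sqrt ((m : ℝ) / D) := by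
    rw [← Real.exp_nat_mul, Real.sqrt_eq_rpow, Real.rpow_def_of_pos (by positivity)]
    congr 1
    push_cast
    ring
  have h10 : (Real.log m) ^ 2 ≤ (Real.log D) ^ 2 * Real.sqrt ((m : ℝ) / D) := by
    rw [← h9, ← mul_pow]
    exact pow_le_pow_left₀ (Ppw_log m) h6 2
  have h11 : Real.sqrt ((m : ℝ) / D) = Real.sqrt m / Real.sqrt D := Real.sqrt_div hm0.le _
  have hsm : 0 < Real.sqrt m := Real.sqrt_pos.2 hm0
  have hsD : 0 < Real.sqrt D := Real.sqrt_pos.2 hD0
  have hss : Real.sqrt m * Real.sqrt m = m := Real.mul_self_sqrt hm0.le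
  rw [h11] at h10
  have h12 : (Real.log D) ^ 2 / Real.sqrt D * (1 / ((m : ℝ) * Real.sqrt m)) =
      ((Real.log D) ^ 2 * (Real.sqrt m / Real.sqrt D)) / (m : ℝ) ^ 2 := by
    have h13 : (m : ℝ) ^ 2 = (m : ℝ) * (Real.sqrt m * Real.sqrt m) := by rw [hss]; ring
    rw [h13]
    field_simp
  rw [h12]
  exact div_le_div_of_nonneg_right h10 (by positivity)

theorem Ppw_tel (m : ℕ) (hm : 1 < m) : 1 / ((m : ℝ) * Real.sqrt m) ≤
    2 / Real.sqrt ((m - 1 : ℕ) : ℝ) - 2 / Real.sqrt m := by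
  obtain ⟨k, rfl⟩ : ∃ k, m = k + 1 := ⟨m - 1, by omega⟩
  have hk : 0 < k := by omega
  have hk0 : (0 : ℝ) < k := by exact_mod_cast hk
  rw [Nat.add_sub_cancel]
  have ha : 0 < Real.sqrt k := Real.sqrt_pos.2 hk0
  have hb : 0 < Real.sqrt ((k + 1 : ℕ) : ℝ) := Real.sqrt_pos.2 (by positivity)
  have haa : Real.sqrt k * Real.sqrt k = k := Real.mul_self_sqrt hk0.le
  have hbb : Real.sqrt ((k + 1 : ℕ) : ℝ) * Real.sqrt ((k + 1 : ℕ) : ℝ) = ((k + 1 : ℕ) : ℝ) :=
    Real.mul_self_sqrt (by positivity)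
  have hab : Real.sqrt k ≤ Real.sqrt ((k + 1 : ℕ) : ℝ) := Real.sqrt_le_sqrt (by push_cast; linarith)
  generalize Real.sqrt k = a at *
  generalize Real.sqrt ((k + 1 : ℕ) : ℝ) = b at *
  rw [← hbb]
  have h1 : b * b - a * a = 1 := by rw [haa, hbb]; push_cast; ring
  rw [div_sub_div _ _ ha.ne' hb.ne', div_le_div_iff₀ (by positivity) (by positivity)]
  -- `a b ≤ (2 b - 2 a) b^3`
  have h2 : (b - a) * (b + a) = 1 := by linarith [h1, mul_comm a b, (by ring : (b - a) * (b + a) = b * b - a * a)]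
  have h3 : 0 ≤ b - a := by linarith
  have h4 : 1 ≤ (b - a) * (2 * b) := by
    rw [← h2]
    exact mul_le_mul_of_nonneg_left (by linarith) h3
  have h5 : a * b ≤ b * b := mul_le_mul_of_nonneg_right hab hb.le
  calc 1 * (a * b) ≤ ((b - a) * (2 * b)) * (b * b) :=
        mul_le_mul h4 h5 (by positivity) (by positivity)
    _ = (2 * b - a * 2) * (b * b * b) := by ring

/-- the tail sum -/
theorem Ppw_sum (D N : ℕ) (hD : 55 ≤ D) :
    ∑ m ∈ range N, (if D < m then (Real.log m) ^ 2 / (m : ℝ) ^ 2 else 0) ≤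
      2 * ((Real.log D) ^ 2 / D) := by
  have hD0 : (0 : ℝ) < D := by
    have : 0 < D := by omega
    exact_mod_cast this
  have hsD : 0 < Real.sqrt D := Real.sqrt_pos.2 hD0
  have hc : 0 ≤ (Real.log D) ^ 2 / Real.sqrt D := by positivity
  have key : ∀ N : ℕ, D ≤ N → ∑ m ∈ range (N + 1),
      (if D < m then (Real.log m) ^ 2 / (m : ℝ) ^ 2 else 0) ≤
      (Real.log D) ^ 2 / Real.sqrt D * (2 / Real.sqrt D - 2 / Real.sqrt N) := by
    intro N hN
    induction N, hN using Nat.le_induction with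
    | base =>
      rw [sub_self, mul_zero]
      apply le_of_eq
      apply Finset.sum_eq_zero
      intro m hm
      rw [mem_range] at hm
      rw [if_neg (by omega)]
    | succ N hN ih =>
      rw [Finset.sum_range_succ, if_pos (by omega : D < N + 1)]
      have h2 := Ppw_cmp D (N + 1) hD (by omega)
      have h3 := Ppw_tel (N + 1) (by omega)
      rw [Nat.add_sub_cancel] at h3
      have h4 := mul_le_mul_of_nonneg_left h3 hc
      have h5 : (Real.log D) ^ 2 / Real.sqrt D * (2 / Real.sqrt D - 2 / Real.sqrt N) +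
          (Real.log D) ^ 2 / Real.sqrt D * (2 / Real.sqrt N - 2 / Real.sqrt ((N + 1 : ℕ) : ℝ)) =
          (Real.log D) ^ 2 / Real.sqrt D * (2 / Real.sqrt D - 2 / Real.sqrt ((N + 1 : ℕ) : ℝ)) := by
        ring
      linarith
  have hmax : ∑ m ∈ range N, (if D < m then (Real.log m) ^ 2 / (m : ℝ) ^ 2 else 0) ≤
      ∑ m ∈ range (max N D + 1), (if D < m then (Real.log m) ^ 2 / (m : ℝ) ^ 2 else 0) := by
    apply Finset.sum_le_sum_of_subset_of_nonneg
    · intro m hm
      rw [mem_range] at hm ⊢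
      omega
    · intro m _ _
      split_ifs
      · positivity
      · exact le_rfl
  refine hmax.trans ((key (max N D) (le_max_right _ _)).trans ?_)
  have h6 : (Real.log D) ^ 2 / Real.sqrt D * (2 / Real.sqrt D) = 2 * ((Real.log D) ^ 2 / D) := by
    have : (D : ℝ) = Real.sqrt D * Real.sqrt D := (Real.mul_self_sqrt hD0.le).symm
    calc (Real.log D) ^ 2 / Real.sqrt D * (2 / Real.sqrt D) =
        2 * ((Real.log D) ^ 2 / (Real.sqrt D * Real.sqrt D)) := by field_simp
      _ = _ := by rw [← this]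
  rw [← h6]
  apply mul_le_mul_of_nonneg_left _ hc
  have : 0 ≤ 2 / Real.sqrt ((max N D : ℕ) : ℝ) := by positivity
  linarith

theorem Ppw_geo (j : ℕ) : ((j : ℝ) + 2) * (1 / 2) ^ j ≤ 2 * (3 / 4) ^ j := by
  induction j with
  | zero => norm_num
  | succ j ih =>
    have h1 : (((j + 1 : ℕ) : ℝ) + 2) ≤ 3 / 2 * ((j : ℝ) + 2) := by
      push_cast
      have : (0 : ℝ) ≤ j := Nat.cast_nonneg j
      linarith
    calc (((j + 1 : ℕ) : ℝ) + 2) * (1 / 2) ^ (j + 1) ≤
        (3 / 2 * ((j : ℝ) + 2)) * (1 / 2) ^ (j + 1) :=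
          mul_le_mul_of_nonneg_right h1 (by positivity)
      _ = 3 / 4 * (((j : ℝ) + 2) * (1 / 2) ^ j) := by ring
      _ ≤ 3 / 4 * (2 * (3 / 4) ^ j) := mul_le_mul_of_nonneg_left ih (by norm_num)
      _ = 2 * (3 / 4) ^ (j + 1) := by ring

/-- the value at a higher prime power -/
theorem Ppw_val (D : ℕ) (s : ℝ) (hs : 0 < s) (p : ℕ) (hp : p.Prime) (k : ℕ) :
    (if (p ^ (k + 1)).Prime then 0 else wt D s Lam1 (p ^ (k + 1))) ≤
      (if D < p then (Real.log p) ^ 2 / (p : ℝ) ^ 2 else 0) * (8 / 3 * (3 / 4) ^ k) := by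
  have hp0 : (0 : ℝ) < p := by exact_mod_cast hp.pos
  have hnn : 0 ≤ (if D < p then (Real.log p) ^ 2 / (p : ℝ) ^ 2 else 0) * (8 / 3 * (3 / 4) ^ k) := by
    apply mul_nonneg
    · split_ifs
      · positivity
      · exact le_rfl
    · positivity
  rcases Nat.eq_zero_or_pos k with hk | hk
  · subst hk
    rw [if_pos (by simpa using hp)]
    exact hnn
  obtain ⟨j, rfl⟩ : ∃ j, k = j + 1 := ⟨k - 1, by omega⟩
  rw [if_neg (Nat.Prime.not_prime_pow (by omega))]
  by_cases hD : D < p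
  · rw [if_pos hD]
    unfold wt
    have hΛ : Lam1 (p ^ (j + 1 + 1)) = ((j : ℝ) + 2) * (Real.log p) ^ 2 := by
      unfold Lam1 Lam
      rw [ArithmeticFunction.vonMangoldt_apply_pow (by omega),
        ArithmeticFunction.vonMangoldt_apply_prime hp]
      push_cast
      rw [Real.log_pow]
      push_cast
      ring
    rw [hΛ]
    have hpow : ((p ^ (j + 1 + 1) : ℕ) : ℝ) ^ (-(1 + s)) ≤ 1 / (p : ℝ) ^ 2 * (1 / 2) ^ j := by
      have h1 : (1 : ℝ) ≤ ((p ^ (j + 1 + 1) : ℕ) : ℝ) := by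
        exact_mod_cast Nat.one_le_pow _ _ hp.pos
      have h2 : ((p ^ (j + 1 + 1) : ℕ) : ℝ) ^ (-(1 + s)) ≤ ((p ^ (j + 1 + 1) : ℕ) : ℝ) ^ (-1 : ℝ) :=
        Real.rpow_le_rpow_of_exponent_le h1 (by linarith)
      refine h2.trans ?_
      rw [Real.rpow_neg_one]
      push_cast
      have h3 : (p : ℝ) ^ (j + 1 + 1) = (p : ℝ) ^ 2 * (p : ℝ) ^ j := by ring
      rw [h3, mul_inv, ← one_div]
      apply mul_le_mul_of_nonneg_left _ (by positivity)
      rw [← inv_pow]
      apply pow_le_pow_left₀ (by positivity)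
      rw [one_div]
      apply inv_anti₀ (by norm_num)
      exact_mod_cast hp.two_le
    calc rr D (p ^ (j + 1 + 1)) * (((j : ℝ) + 2) * (Real.log p) ^ 2) *
          ((p ^ (j + 1 + 1) : ℕ) : ℝ) ^ (-(1 + s))
        ≤ (1 * (((j : ℝ) + 2) * (Real.log p) ^ 2)) * (1 / (p : ℝ) ^ 2 * (1 / 2) ^ j) := by
          apply mul_le_mul _ hpow (Real.rpow_nonneg (by positivity) _) (by positivity)
          exact mul_le_mul_of_nonneg_right (Ppw_rr _ _).2 (by positivity)
      _ = ((Real.log p) ^ 2 / (p : ℝ) ^ 2) * (((j : ℝ) + 2) * (1 / 2) ^ j) := by ring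
      _ ≤ ((Real.log p) ^ 2 / (p : ℝ) ^ 2) * (2 * (3 / 4) ^ j) :=
          mul_le_mul_of_nonneg_left (Ppw_geo j) (by positivity)
      _ = _ := by ring
  · have h0 : rr D (p ^ (j + 1 + 1)) = 0 := by
      unfold rr
      rw [if_neg]
      intro h
      exact hD (h p hp (dvd_pow_self p (by omega)))
    unfold wt
    rw [h0, zero_mul, zero_mul]
    exact hnn

theorem tPpw (h1 : SmzStmt) : PpwStmt := by
  refine ⟨64, 55, by norm_num, by norm_num, ?_⟩
  intro D s hD hs
  have hD' : 55 ≤ D := by exact_mod_cast hD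
  have hD0 : (0 : ℝ) < D := by
    have : 0 < D := by omega
    exact_mod_cast this
  have hS := Ppw_summ h1 D 1 s hs Lam Ppw_Lam
  have hS1 := Ppw_summ h1 D 2 s hs Lam1 Ppw_Lam1
  have hnn : ∀ n, 0 ≤ wt D s Lam1 n := fun n => mul_nonneg (mul_nonneg (Ppw_rr D n).1
    (Ppw_Lam1 n).1) (Real.rpow_nonneg (Nat.cast_nonneg n) _)
  have hnnL : ∀ n, 0 ≤ wt D s Lam n := fun n => mul_nonneg (mul_nonneg (Ppw_rr D n).1
    (Ppw_Lam n).1) (Real.rpow_nonneg (Nat.cast_nonneg n) _)
  obtain ⟨f, hf⟩ : ∃ f : ℕ → ℝ, f = fun n => (if n.Prime then 0 else wt D s Lam1 n) := ⟨_, rfl⟩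
  obtain ⟨h, hh⟩ : ∃ h : ℕ → ℝ, h = fun m => (if D < m then (Real.log m) ^ 2 / (m : ℝ) ^ 2 else 0) :=
    ⟨_, rfl⟩
  have hf0 : ∀ n, 0 ≤ f n := by
    intro n
    rw [hf]
    beta_reduce
    split_ifs
    · exact le_rfl
    · exact hnn n
  have hh0 : ∀ n, 0 ≤ h n := by
    intro n
    rw [hh]
    beta_reduce
    split_ifs
    · positivity
    · exact le_rfl
  have hhs : Summable h := by
    apply summable_of_sum_range_le hh0 (c := 2 * ((Real.log D) ^ 2 / D))
    intro N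
    rw [hh]
    exact Ppw_sum D N hD'
  have hht : ∑' n, h n ≤ 2 * ((Real.log D) ^ 2 / D) := by
    apply Real.tsum_le_of_sum_range_le hh0
    intro N
    rw [hh]
    exact Ppw_sum D N hD'
  have hfs : Summable f := by
    refine Summable.of_nonneg_of_le hf0 ?_ hS1
    intro n
    rw [hf]
    beta_reduce
    split_ifs
    · exact hnn n
    · exact le_rfl
  -- the sum over the primes
  have hinj : Function.Injective (fun p : Nat.Primes => (p : ℕ)) := Subtype.val_injective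
  have hps : Summable (fun p : Nat.Primes => h p) := hhs.comp_injective hinj
  have hpt : ∑' p : Nat.Primes, h p ≤ 2 * ((Real.log D) ^ 2 / D) := by
    refine le_trans ?_ hht
    exact Summable.tsum_le_tsum_of_inj (fun p : Nat.Primes => (p : ℕ)) hinj (fun c _ => hh0 c)
      (fun _ => le_rfl) hps hhs
  have hws : Summable (fun k : ℕ => (8 / 3 : ℝ) * (3 / 4) ^ k) :=
    (summable_geometric_of_lt_one (by norm_num) (by norm_num)).mul_left _
  have hwt : ∑' k : ℕ, (8 / 3 : ℝ) * (3 / 4) ^ k = 32 / 3 := by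
    rw [tsum_mul_left, tsum_geometric_of_lt_one (by norm_num) (by norm_num)]
    norm_num
  have hsupp : ∀ n, f n ≠ 0 → IsPrimePow n := by
    intro n hn
    by_contra hnp
    apply hn
    rw [hf]
    beta_reduce
    split_ifs
    · rfl
    · unfold wt Lam1 Lam
      rw [ArithmeticFunction.vonMangoldt_eq_zero_iff.2 hnp]
      ring
  have hprod : Summable (fun x : Nat.Primes × ℕ => h x.1 * ((8 / 3 : ℝ) * (3 / 4) ^ x.2)) :=
    hps.mul_of_nonneg hws (fun p => hh0 p) (fun k => by positivity)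
  have hle : ∀ x : Nat.Primes × ℕ, f (Nat.Primes.prodNatEquiv x : ℕ) ≤
      h x.1 * ((8 / 3 : ℝ) * (3 / 4) ^ x.2) := by
    rintro ⟨p, k⟩
    rw [Nat.Primes.coe_prodNatEquiv_apply, hf, hh]
    exact Ppw_val D s hs p p.2 k
  have hmain : ∑' n, f n ≤ 32 * ((Real.log D) ^ 2 / D) := by
    have e1 : ∑' n : {n : ℕ // IsPrimePow n}, f n = ∑' n, f n :=
      tsum_subtype_eq_of_support_subset (s := {n : ℕ | IsPrimePow n}) (fun n hn => hsupp n hn)
    rw [← e1, ← Nat.Primes.prodNatEquiv.tsum_eq]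
    calc ∑' x : Nat.Primes × ℕ, f (Nat.Primes.prodNatEquiv x : ℕ)
        ≤ ∑' x : Nat.Primes × ℕ, h x.1 * ((8 / 3 : ℝ) * (3 / 4) ^ x.2) :=
          Summable.tsum_le_tsum hle
            (Summable.of_nonneg_of_le (fun x => hf0 _) hle hprod) hprod
      _ = (∑' p : Nat.Primes, h p) * ∑' k : ℕ, (8 / 3 : ℝ) * (3 / 4) ^ k :=
          (hps.tsum_mul_tsum hws hprod).symm
      _ ≤ (2 * ((Real.log D) ^ 2 / D)) * (32 / 3) := by
          rw [hwt]
          exact mul_le_mul_of_nonneg_right hpt (by norm_num)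
      _ ≤ 32 * ((Real.log D) ^ 2 / D) := by
          have : 0 ≤ (Real.log D) ^ 2 / D := by positivity
          linarith
  have hpos : 0 ≤ (Real.log D) ^ 2 / D := by positivity
  refine ⟨hS, hS1, ?_, ?_⟩
  · have hle2 : ∀ n : ℕ, (if n.Prime then 0 else wt D s Lam n) ≤ 2 * f n := by
      intro n
      rw [hf]
      beta_reduce
      by_cases hn : n.Prime
      · rw [if_pos hn, if_pos hn, mul_zero]
      rw [if_neg hn, if_neg hn]
      rcases Nat.lt_or_ge n 2 with h2 | h2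
      · have h3 : Lam n = 0 := by
          unfold Lam
          interval_cases n <;> simp
        unfold wt Lam1
        rw [h3]
        simp
      · have h4 : 1 / 2 ≤ Real.log n := by
          have h5 := Real.log_two_gt_d9
          have h6 : Real.log 2 ≤ Real.log n := Real.log_le_log (by norm_num) (by exact_mod_cast h2)
          linarith
        have h7 : Lam n ≤ 2 * Lam1 n := by
          unfold Lam1
          have h8 := (Ppw_Lam n).1
          nlinarith
        unfold wt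
        have h9 := mul_le_mul_of_nonneg_right (mul_le_mul_of_nonneg_left h7 (Ppw_rr D n).1)
          (Real.rpow_nonneg (Nat.cast_nonneg n) (-(1 + s)))
        linarith
    calc ∑' n : ℕ, (if n.Prime then 0 else wt D s Lam n) ≤ ∑' n : ℕ, 2 * f n := by
          apply Summable.tsum_le_tsum hle2 _ (hfs.mul_left 2)
          refine Summable.of_nonneg_of_le ?_ hle2 (hfs.mul_left 2)
          intro n
          split_ifs
          · exact le_rfl
          · exact hnnL n
      _ = 2 * ∑' n, f n := tsum_mul_left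
      _ ≤ 64 * ((Real.log D) ^ 2 / D) := by linarith
  · have e2 : ∑' n : ℕ, (if n.Prime then 0 else wt D s Lam1 n) = ∑' n, f n := by rw [hf]
    rw [e2]
    linarith

end Pool.Agent.Lib.SG
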