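import Pool.Agent.Lib.SG.SpecC
import Pool.Agent.Lib.SG.Lg

/-!
MP_9a4459_nt, module Prl: the size of L.
-/

namespace Pool.Agent.Lib.SG

open Finset Pool.Agent.Lib.BV

theorem tPrl (h1 : PrvStmt) : PrlStmt := by
  obtain ⟨c, C, z1, hc, hC, hz1, hv⟩ := h1
  intro k A hk hA
  obtain ⟨x0, hx0, hev⟩ := Lg_ev (max 16 (16 * k * A / c))
  refine ⟨max z1 x0, hz1.trans (le_max_left _ _), ?_⟩
  intro z y L hz hy hL
  obtain ⟨v1, v2, v3, v4, v5⟩ := hv z ((le_max_left _ _).trans hz)
  obtain ⟨a1, a2, a3, a4, a5, a6, a7⟩ := hev z ((le_max_right _ _).trans hz)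
  have hz16 : (16 : ℝ) ≤ z := hz1.trans ((le_max_left _ _).trans hz)
  have hz0 : (0 : ℝ) < z := by linarith
  have hkR : (1 : ℝ) ≤ k := by exact_mod_cast hk
  set M : ℝ := max 16 (16 * k * A / c) with hM
  have hM1 : 16 ≤ M := le_max_left _ _
  have hM2 : 16 * k * A / c ≤ M := le_max_right _ _
  set V := Vz z with hVdef
  set B : ℝ := A * z / V with hB
  have hlP0 : P0 z = ⌊Real.log (z : ℝ)⌋₊ := rfl
  have hP1def : (P1 z : ℝ) = ⌊Real.exp (Real.log z * Real.log (Real.log (Real.log z)) /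
    (16 * Real.log (Real.log z)))⌋₊ := rfl
  have hrho : rho z = (Real.log (Real.log z)) ^ 2 / (Real.log z * Real.log (Real.log (Real.log z))) := rfl
  set l := Real.log (z : ℝ) with hl
  set l2 := Real.log l with hl2
  set l3 := Real.log l2 with hl3
  have hl0 : 0 < l := by linarith
  have hl20 : 0 < l2 := by linarith
  have hl30 : 0 < l3 := by linarith
  have hzB : (z : ℝ) ≤ B := by
    rw [hB, le_div_iff₀ v4]
    have h2 : (z : ℝ) * V ≤ z * 1 := mul_le_mul_of_nonneg_left v5 hz0.le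
    have h3 : (1 : ℝ) * z ≤ A * z := mul_le_mul_of_nonneg_right hA hz0.le
    linarith
  have hB1 : 1 ≤ B := by linarith
  have hw : (ww A z : ℝ) ≤ B + 1 := by
    unfold ww
    have : A * z / Vz z = B := rfl
    rw [this]
    exact (Nat.ceil_lt_add_one (by linarith)).le
  have hLR : (L : ℝ) = z + k * ((ww A z : ℝ) + y) := by
    rw [hL]
    push_cast
    ring
  have i1 : (L : ℝ) ≤ 4 * k * B := by
    rw [hLR]
    have h2 : (k : ℝ) * ((ww A z : ℝ) + y) ≤ k * (B + 1 + B) :=
      mul_le_mul_of_nonneg_left (by linarith) (by linarith)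
    have h3 : B ≤ k * B := le_mul_of_one_le_left (by linarith) hkR
    have h4 : (k : ℝ) * 1 ≤ k * B := mul_le_mul_of_nonneg_left hB1 (by linarith)
    have h5 : (k : ℝ) * (B + 1 + B) = 2 * (k * B) + k * 1 := by ring
    have h6 : 4 * (k : ℝ) * B = 4 * (k * B) := by ring
    linarith
  have i2' : (L : ℝ) ≤ z * l / 4 := by
    refine i1.trans ?_
    have h2 : B ≤ A * z / (c * rho z) := by
      rw [hB]
      exact div_le_div_of_nonneg_left (by positivity) (by positivity) v2
    have h3 : 4 * (k : ℝ) * B ≤ 4 * k * (A * z / (c * rho z)) :=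
      mul_le_mul_of_nonneg_left h2 (by positivity)
    refine h3.trans ?_
    have h4 : 4 * (k : ℝ) * (A * z / (c * rho z)) = (16 * k * A / c * l3) / l2 ^ 2 * (z * l / 4) := by
      rw [hrho]
      field_simp
      ring
    rw [h4]
    have h5 : (16 * k * A / c * l3) / l2 ^ 2 ≤ 1 := by
      rw [div_le_one (by positivity)]
      have h6 : 16 * k * A / c * l3 ≤ M * l3 := mul_le_mul_of_nonneg_right hM2 hl30.le
      have h7 : l2 ≤ l2 ^ 2 := by
        rw [sq]
        exact le_mul_of_one_le_right hl20.le a2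
      linarith
    have h6 : 0 ≤ (z : ℝ) * l / 4 := by positivity
    have := mul_le_mul_of_nonneg_right h5 h6
    linarith
  have hzl : 0 ≤ (z : ℝ) * l := by positivity
  have h16l : 16 ≤ l := by
    have h2 : (16 : ℝ) * 1 ≤ M * l2 ^ 2 := mul_le_mul hM1 (one_le_pow₀ a2) (by norm_num) (by linarith)
    linarith
  have i3 : 2 * L ≤ P0 z * z := by
    have h2 : l < P0 z + 1 := by
      rw [hlP0]
      exact Nat.lt_floor_add_one _
    have h3 : l / 2 ≤ P0 z := by linarith
    have h4 : (z : ℝ) * (l / 2) ≤ z * P0 z := mul_le_mul_of_nonneg_left h3 hz0.le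
    have h5 : ((2 * L : ℕ) : ℝ) ≤ ((P0 z * z : ℕ) : ℝ) := by
      push_cast
      linarith
    exact_mod_cast h5
  have hlz : l < z := by
    have := Real.log_le_sub_one_of_pos hz0
    linarith
  have i4 : 4 * L < z ^ 2 := by
    have h2 : (z : ℝ) * l < z * z := mul_lt_mul_of_pos_left hlz hz0
    have h3 : ((4 * L : ℕ) : ℝ) < ((z ^ 2 : ℕ) : ℝ) := by
      push_cast
      rw [sq]
      linarith
    exact_mod_cast h3
  refine ⟨i1, by linarith, i3, i4, ?_⟩
  have hzL : (z : ℝ) ≤ L := by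
    rw [hLR]
    have : 0 ≤ (k : ℝ) * ((ww A z : ℝ) + y) := by positivity
    linarith
  have j1 : l ≤ Real.log L := Real.log_le_log hz0 hzL
  have j2 : l2 ≤ Real.log (Real.log L) := Real.log_le_log hl0 j1
  have j3 : l3 ≤ Real.log (Real.log (Real.log L)) := Real.log_le_log hl20 j2
  have hLz2 : (L : ℝ) ≤ z * z := by
    have h2 : (z : ℝ) * l ≤ z * z := mul_le_mul_of_nonneg_left hlz.le hz0.le
    linarith
  have j4 : Real.log L ≤ 2 * l := by
    calc Real.log L ≤ Real.log (z * z) := Real.log_le_log (by linarith) hLz2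
      _ = 2 * l := by rw [Real.log_mul hz0.ne' hz0.ne']; ring
  have j5 : Real.log (Real.log L) ≤ 2 * l2 := by
    calc Real.log (Real.log L) ≤ Real.log (2 * l) := Real.log_le_log (by linarith) j4
      _ = Real.log 2 + l2 := by rw [Real.log_mul (by norm_num) hl0.ne']
      _ ≤ 2 * l2 := by
        have := Real.log_two_lt_d9
        linarith
  have hP1 : Real.log (P1 z) ≤ l * l3 / (16 * l2) := by
    rw [hP1def]
    rcases Nat.eq_zero_or_pos ⌊Real.exp (l * l3 / (16 * l2))⌋₊ with h2 | h2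
    · rw [h2, Nat.cast_zero, Real.log_zero]
      positivity
    · calc Real.log (⌊Real.exp (l * l3 / (16 * l2))⌋₊ : ℝ) ≤ Real.log (Real.exp (l * l3 / (16 * l2))) :=
            Real.log_le_log (by exact_mod_cast h2) (Nat.floor_le (Real.exp_pos _).le)
        _ = _ := Real.log_exp _
  refine hP1.trans ?_
  rw [div_le_div_iff₀ (by positivity) (by linarith)]
  have k1 : l * l3 ≤ Real.log L * Real.log (Real.log (Real.log L)) :=
    mul_le_mul j1 j3 hl30.le (by linarith)
  have k2 : 8 * Real.log (Real.log L) ≤ 16 * l2 := by linarith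
  exact mul_le_mul k1 k2 (by linarith) (mul_nonneg (by linarith) (by linarith))

end Pool.Agent.Lib.SG
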