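import Pool.Agent.Lib.SG.SpecC
import Pool.Agent.Lib.SG.Occ

/-!
MP_9a4459_nt, module Prp: the main proposition.
-/

namespace Pool.Agent.Lib.SG

open Finset Pool.Agent.Lib.BV

private lemma Prp_log (K' : ℝ) (hK' : 0 < K') (z X : ℕ) (hz : 16 ≤ z) (hX : X = ⌈Real.exp (K' * z)⌉₊)
    (q : ℕ) (hq0 : 0 < q) (hq : q ≤ X + z ^ 2) : Real.log q ≤ (K' + 4) * z := by
  have hzR : (16 : ℝ) ≤ z := by exact_mod_cast hz
  have hz0 : (0 : ℝ) < z := by linarith
  have e1 : 1 ≤ Real.exp (K' * z) := Real.one_le_exp (by positivity)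
  have e2 : (X : ℝ) ≤ 2 * Real.exp (K' * z) := by
    rw [hX]
    have := (Nat.ceil_lt_add_one (Real.exp_pos (K' * z)).le).le
    linarith
  have hqR : (q : ℝ) ≤ X + (z : ℝ) ^ 2 := by exact_mod_cast hq
  have e3 : (z : ℝ) ≤ Real.exp z := by
    have := Real.add_one_le_exp (z : ℝ)
    linarith
  have e4 : (4 : ℝ) ≤ Real.exp z := by linarith
  have e5 : (q : ℝ) ≤ Real.exp ((K' + 4) * z) := by
    have h1 : Real.exp ((K' + 4) * z) = Real.exp (K' * z) * (Real.exp z * Real.exp z * Real.exp z * Real.exp z) := by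
      rw [← Real.exp_add, ← Real.exp_add, ← Real.exp_add, ← Real.exp_add]
      congr 1
      ring
    rw [h1]
    have h2 : (z : ℝ) ^ 2 ≤ Real.exp z * Real.exp z := by
      rw [sq]
      exact mul_le_mul e3 e3 hz0.le (Real.exp_pos _).le
    have h3 : (1 : ℝ) ≤ Real.exp z * Real.exp z := by
      have := mul_le_mul e4 e4 (by norm_num) (Real.exp_pos z).le
      linarith
    have h4 : (4 : ℝ) * 4 ≤ Real.exp z * Real.exp z := mul_le_mul e4 e4 (by norm_num) (Real.exp_pos z).le
    set a := Real.exp (K' * z) with ha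
    set t := Real.exp (z : ℝ) * Real.exp z with ht
    have h5 : Real.exp z * Real.exp z * Real.exp z * Real.exp z = t * t := by
      rw [ht]
      ring
    rw [h5]
    have h6 : 16 * t ≤ t * t := mul_le_mul_of_nonneg_right (by linarith) (by linarith)
    have h7 : 2 * a + t ≤ a * (2 + t) := by
      have : 1 * t ≤ a * t := mul_le_mul_of_nonneg_right e1 (by linarith)
      linarith
    have h8 : a * (2 + t) ≤ a * (t * t) := by
      apply mul_le_mul_of_nonneg_left _ (by linarith)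
      linarith
    linarith
  have hq0R : (0 : ℝ) < q := by exact_mod_cast hq0
  calc Real.log q ≤ Real.log (Real.exp ((K' + 4) * z)) := Real.log_le_log hq0R e5
    _ = (K' + 4) * z := Real.log_exp _

theorem tPrp (h1 : PrvStmt) (h2 : PrlStmt) (h3 : OccStmt) (h4 : AgbStmt) (h5 : CsaStmt) : PrpStmt := by
  classical
  obtain ⟨cv, Cv, zv, hcv, hCv, hzv, hv⟩ := h1
  obtain ⟨k, A, c3, c, c1, K, zo, hk, hA, hc3, hc31, hc, hc1, hK, hzo, hOcc⟩ := h3
  obtain ⟨C, za, hC, hza, hAgb⟩ := h4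
  obtain ⟨C2, zc, hC2, hzc, hCsa⟩ := h5 k A hk hA
  obtain ⟨zl, hzl, hl⟩ := h2 k A hk hA
  have hkR : (1 : ℝ) ≤ k := by exact_mod_cast hk
  set r0 : ℝ := c / (2 * (C * C2 * c1 ^ 2)) with hr0
  have hr0p : 0 < r0 := by rw [hr0]; positivity
  set cc : ℝ := min (c3 / (2 * Cv)) (r0 ^ 2 / (4 * k * A)) with hcc
  have hccp : 0 < cc := by
    rw [hcc]
    exact lt_min (by positivity) (by positivity)
  set CC : ℝ := max (4 * k * A / cv) (K / c1 + 4) with hCC
  have hCCp : 0 < CC := lt_of_lt_of_le (by positivity) (le_max_left _ _)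
  obtain ⟨ze, hze⟩ : ∃ ze : ℝ, ∀ x : ℝ, ze ≤ x → 4 * C * c1 ^ 2 / c ≤ Real.log x := by
    obtain ⟨ze, hze⟩ := Filter.eventually_atTop.1
      (Real.tendsto_log_atTop.eventually_ge_atTop (4 * C * c1 ^ 2 / c))
    exact ⟨ze, hze⟩
  refine ⟨cc, CC, max (max (max zv zo) (max za zc)) (max (max zl ze) (max (4 / c3) c1)), hccp, hCCp,
    hzv.trans ((le_max_left _ _).trans ((le_max_left _ _).trans (le_max_left _ _))), ?_⟩
  intro z hz
  have hz1 : zv ≤ z := ((le_max_left _ _).trans ((le_max_left _ _).trans (le_max_left _ _))).trans hz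
  have hz2 : zo ≤ z := ((le_max_right _ _).trans ((le_max_left _ _).trans (le_max_left _ _))).trans hz
  have hz3 : za ≤ z := ((le_max_left _ _).trans ((le_max_right _ _).trans (le_max_left _ _))).trans hz
  have hz4 : zc ≤ z := ((le_max_right _ _).trans ((le_max_right _ _).trans (le_max_left _ _))).trans hz
  have hz5 : zl ≤ z := ((le_max_left _ _).trans ((le_max_left _ _).trans (le_max_right _ _))).trans hz
  have hz6 : ze ≤ z := ((le_max_right _ _).trans ((le_max_left _ _).trans (le_max_right _ _))).trans hz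
  have hz7 : 4 / c3 ≤ z := ((le_max_left _ _).trans ((le_max_right _ _).trans (le_max_right _ _))).trans hz
  have hz8 : c1 ≤ z := ((le_max_right _ _).trans ((le_max_right _ _).trans (le_max_right _ _))).trans hz
  obtain ⟨v1, v2, v3, v4, v5⟩ := hv z hz1
  have hz16 : (16 : ℝ) ≤ z := hzv.trans hz1
  have hz16' : 16 ≤ z := by exact_mod_cast hz16
  have hz0 : (0 : ℝ) < z := by linarith
  set w : ℕ := ww A z with hw
  set y : ℕ := yy c3 z with hy
  obtain ⟨y1, y2⟩ := yy_le A c3 z hc3 hc31 hA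
  set L : ℕ := z + k * (w + y) with hL
  obtain ⟨l1, l2, l3, l4, l5⟩ := hl z y L hz5 y2 rfl
  obtain ⟨e, b, he, hb1, hb2, hb3⟩ := hOcc z hz2
  set s : ℝ := c1 / z with hs
  have hs0 : 0 < s := by rw [hs]; positivity
  have hs1 : s ≤ 1 := by
    rw [hs, div_le_one hz0]
    exact hz8
  have hKs : K / s = K / c1 * z := by
    rw [hs]
    field_simp
  set X : ℕ := ⌈Real.exp (K / c1 * z)⌉₊ with hX
  have hXle : Real.exp (K / s) ≤ X := by
    rw [hKs]
    exact Nat.le_ceil _
  have hocc := hb3 s X rfl hXle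
  have hagb := hAgb z e b k w y X s hz3 (by omega) hb1 hs0 hs1
  set G : Finset ℕ := gps z w y k X with hG
  set Sv : Finset ℕ := svs z w y k b e with hSv
  set V : ℝ := Vz z with hV
  set l : ℝ := Real.log z with hldef
  have hlz : 0 < l := Real.log_pos (by linarith)
  have hWR : (0 : ℝ) < (WW z e : ℝ) := by exact_mod_cast WW_pos z e
  -- y is at least 3
  have hyV : c3 * z / V - 1 ≤ y := by
    have : c3 * z / V < (yy c3 z : ℝ) + 1 := by
      unfold yy
      exact Nat.lt_floor_add_one _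
    linarith
  have hczV : 4 ≤ c3 * z / V := by
    rw [le_div_iff₀ v4]
    have e1 : 4 ≤ c3 * z := by
      rw [div_le_iff₀ hc3] at hz7
      linarith
    have e2 : 4 * V ≤ 4 * 1 := mul_le_mul_of_nonneg_left v5 (by norm_num)
    linarith
  have hy3 : 3 ≤ y := by
    have : (3 : ℝ) ≤ y := by linarith
    exact_mod_cast this
  have hmulk : ∀ i < k, (i + 1) * (w + y) ≤ k * (w + y) := fun i hi => Nat.mul_le_mul_right _ hi
  have hGL : G ⊆ Icc 3 L := by
    intro g hg
    rw [hG] at hg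
    unfold gps at hg
    rw [Finset.mem_filter, Finset.mem_Icc] at hg
    rw [Finset.mem_Icc]
    omega
  have hSvm : ∀ j ∈ Sv, 2 ≤ j ∧ j ≤ L ∧ Srv z (P0 z) (P1 z) e j := by
    intro j hj
    rw [hSv] at hj
    unfold svs at hj
    rw [Finset.mem_filter, Finset.mem_biUnion] at hj
    obtain ⟨⟨i, hi, hji⟩, hcop⟩ := hj
    rw [Finset.mem_range] at hi
    unfold win at hji
    rw [Finset.mem_Ioc] at hji
    have e1 := hmulk i hi
    have e2 : (i + 1) * (w + y) = i * (w + y) + (w + y) := by ring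
    exact ⟨by omega, by omega, hb2 j (by omega) hcop⟩
  have hcsa := hCsa z e y L Sv G hz4 y2 rfl hSvm hGL
  set Tot : ℝ := ∑ g ∈ G, ((Sv.filter (fun j => j + g ∈ Sv)).card : ℝ) with hTot
  have hocc' : c / ((WW z e : ℝ) * s ^ 3) ≤ C * l ^ 2 / ((WW z e : ℝ) * s) * Tot := by
    refine hocc.trans ?_
    convert hagb
  have hlow : c / (C * c1 ^ 2) * ((z : ℝ) ^ 2 / l ^ 2) ≤ Tot := by
    have e1 : c / ((WW z e : ℝ) * s ^ 3) = (C * l ^ 2 / ((WW z e : ℝ) * s)) *
        (c / (C * c1 ^ 2) * ((z : ℝ) ^ 2 / l ^ 2)) := by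
      have hs2 : c1 = s * z := by rw [hs]; field_simp
      rw [hs2]
      field_simp
    rw [e1] at hocc'
    exact le_of_mul_le_mul_left hocc' (by positivity)
  set R : ℝ := Real.sqrt (G.card * V / z) with hR
  have hcsa' : Tot ≤ C2 * ((z : ℝ) ^ 2 / l ^ 2 * R) + 2 * ((z : ℝ) ^ 2 / l ^ 3) := by
    convert hcsa
  have hR0 : r0 ≤ R := by
    have e1 : c / (C * c1 ^ 2) * ((z : ℝ) ^ 2 / l ^ 2) ≤
        (C2 * R + 2 / l) * ((z : ℝ) ^ 2 / l ^ 2) := by
      refine (hlow.trans hcsa').trans (le_of_eq ?_)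
      field_simp
    have e2 := le_of_mul_le_mul_right e1 (by positivity)
    have e3 : 2 / l ≤ c / (2 * (C * c1 ^ 2)) := by
      have e4 := hze z hz6
      rw [div_le_div_iff₀ hlz (by positivity)]
      rw [div_le_iff₀ hc] at e4
      linarith
    have e4 : c / (C * c1 ^ 2) = c / (2 * (C * c1 ^ 2)) + c / (2 * (C * c1 ^ 2)) := by
      field_simp
      ring
    have e5 : c / (2 * (C * c1 ^ 2)) ≤ C2 * R := by linarith
    rw [hr0]
    have e6 : c / (2 * (C * C2 * c1 ^ 2)) = c / (2 * (C * c1 ^ 2)) / C2 := by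
      field_simp
    rw [e6, div_le_iff₀ hC2]
    linarith
  have hGcard : r0 ^ 2 * (z / V) ≤ (G.card : ℝ) := by
    have e1 : r0 ^ 2 ≤ R ^ 2 := pow_le_pow_left₀ hr0p.le hR0 2
    have e2 : R ^ 2 = G.card * V / z := by
      rw [hR]
      exact Real.sq_sqrt (by positivity)
    rw [e2] at e1
    calc r0 ^ 2 * (z / V) ≤ (G.card * V / z) * (z / V) := mul_le_mul_of_nonneg_right e1 (by positivity)
      _ = G.card := by field_simp
  have hrho : 0 < rho z := v1
  refine ⟨y, L, ?_, ?_, ?_, ?_⟩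
  · have e1 : c3 / 2 * (z / V) ≤ y := by
      have e2 : c3 * z / V = c3 * (z / V) := by ring
      rw [e2] at hyV hczV
      linarith
    have e2 : 1 / (Cv * rho z) ≤ 1 / V := one_div_le_one_div_of_le v4 v3
    have e3 : cc * (z / rho z) ≤ c3 / (2 * Cv) * (z / rho z) :=
      mul_le_mul_of_nonneg_right (min_le_left _ _) (by positivity)
    have e4 : c3 / (2 * Cv) * (z / rho z) = c3 / 2 * z * (1 / (Cv * rho z)) := by
      field_simp
    have e5 : c3 / 2 * z * (1 / (Cv * rho z)) ≤ c3 / 2 * z * (1 / V) :=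
      mul_le_mul_of_nonneg_left e2 (by positivity)
    have e6 : c3 / 2 * z * (1 / V) = c3 / 2 * (z / V) := by ring
    linarith
  · rw [hL]
    have : 1 * (w + y) ≤ k * (w + y) := Nat.mul_le_mul_right _ hk
    omega
  · refine l1.trans ?_
    have e1 : A * z / V ≤ A * z / (cv * rho z) :=
      div_le_div_of_nonneg_left (by positivity) (by positivity) v2
    have e2 : 4 * (k : ℝ) * (A * z / V) ≤ 4 * k * (A * z / (cv * rho z)) :=
      mul_le_mul_of_nonneg_left e1 (by positivity)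
    refine e2.trans ?_
    have e3 : 4 * (k : ℝ) * (A * z / (cv * rho z)) = 4 * k * A / cv * (z / rho z) := by
      field_simp
    rw [e3]
    exact mul_le_mul_of_nonneg_right (le_max_left _ _) (by positivity)
  · have e1 : cc * L ≤ r0 ^ 2 / (4 * k * A) * (4 * k * (A * z / V)) :=
      mul_le_mul (min_le_right _ _) l1 (Nat.cast_nonneg _) (by positivity)
    have e2 : r0 ^ 2 / (4 * k * A) * (4 * k * (A * z / V)) = r0 ^ 2 * (z / V) := by
      field_simp
    have e3 : (G.card : ℝ) ≤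
        (((Icc y L).filter (fun g => ∃ q : ℕ, GapAt g q ∧ Real.log q ≤ CC * z)).card : ℝ) := by
      have e4 : G ⊆ (Icc y L).filter (fun g => ∃ q : ℕ, GapAt g q ∧ Real.log q ≤ CC * z) := by
        intro g hg
        have hg3 := hGL hg
        rw [hG] at hg
        unfold gps at hg
        rw [Finset.mem_filter, Finset.mem_Icc] at hg
        obtain ⟨⟨g1, g2⟩, g3, q, hq, hgap⟩ := hg
        rw [Finset.mem_filter, Finset.mem_Icc]
        rw [Finset.mem_Icc] at hg3
        refine ⟨⟨g3, hg3.2⟩, q, hgap, ?_⟩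
        have e5 := Prp_log (K / c1) (by positivity) z X hz16' rfl q hgap.1.pos hq
        exact e5.trans (mul_le_mul_of_nonneg_right (le_max_right _ _) hz0.le)
      exact_mod_cast Finset.card_le_card e4
    have e4 : cc * (L : ℝ) ≤
        (((Icc y L).filter (fun g => ∃ q : ℕ, GapAt g q ∧ Real.log q ≤ CC * z)).card : ℝ) := by linarith
    convert e4

end Pool.Agent.Lib.SG
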