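import Pool.Agent.Lib.SG.SpecC
import Pool.Agent.Lib.SG.Lg

/-!
MP_9a4459_nt, module Prs: asymptotics of the parameters P0, P1.
-/

namespace Pool.Agent.Lib.SG

open Finset Pool.Agent.Lib.BV

theorem tPrs : PrsStmt := by
  intro ps δ hδ
  obtain ⟨x0, hx0, hev⟩ := Lg_ev (max (max 16 (ps + 1)) (1 / δ))
  refine ⟨x0, hx0, fun z hz => ?_⟩
  obtain ⟨a1, a2, a3, a4, a5, a6, a7⟩ := hev z hz
  have hz16 : (16 : ℝ) ≤ z := hx0.trans hz
  have hz0 : (0 : ℝ) < z := by linarith
  unfold P0 P1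
  set l := Real.log (z : ℝ) with hl
  set l2 := Real.log l with hl2
  set l3 := Real.log l2 with hl3
  set M : ℝ := max (max 16 (ps + 1)) (1 / δ) with hM
  have hM1 : 16 ≤ M := (le_max_left _ _).trans (le_max_left _ _)
  have hM2 : ps + 1 ≤ M := (le_max_right _ _).trans (le_max_left _ _)
  have hM3 : 1 / δ ≤ M := le_max_right _ _
  have h32 : l3 ≤ l2 := by
    have := mul_le_mul_of_nonneg_right hM1 (by linarith : 0 ≤ l3)
    linarith
  have h21 : l2 ≤ l := by
    have h1 : M * l2 ^ 2 ≥ 16 * l2 ^ 2 := mul_le_mul_of_nonneg_right hM1 (sq_nonneg _)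
    have h2 : l2 ≤ l2 ^ 2 := by
      rw [sq]
      exact le_mul_of_one_le_right (by linarith) a2
    have h3 := sq_nonneg l2
    linarith
  refine ⟨?_, ?_, ?_, ?_⟩
  · have h1 : l < ⌊l⌋₊ + 1 := Nat.lt_floor_add_one _
    linarith
  · apply Nat.floor_le_floor
    have h1 : l2 ≤ l * l3 / (16 * l2) := by
      rw [le_div_iff₀ (by linarith)]
      have h2 : 16 * l2 ^ 2 ≤ M * l2 ^ 2 := mul_le_mul_of_nonneg_right hM1 (sq_nonneg _)
      have h3 : l * 1 ≤ l * l3 := mul_le_mul_of_nonneg_left a3 (by linarith)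
      have h4 : l2 * (16 * l2) = 16 * l2 ^ 2 := by ring
      linarith
    calc l = Real.exp l2 := (Real.exp_log (by linarith)).symm
      _ ≤ _ := Real.exp_le_exp.2 h1
  · have h1 : l * l3 / (16 * l2) ≤ l / 2 := by
      rw [div_le_div_iff₀ (by linarith) (by norm_num)]
      have h2 := mul_le_mul_of_nonneg_left h32 (by linarith : 0 ≤ l)
      have h3 : 0 ≤ l * l2 := mul_nonneg (by linarith) (by linarith)
      linarith
    have h2 : (⌊Real.exp (l * l3 / (16 * l2))⌋₊ : ℝ) ≤ Real.exp (l / 2) :=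
      (Nat.floor_le (Real.exp_pos _).le).trans (Real.exp_le_exp.2 h1)
    have h3 : Real.exp (l / 2) * Real.exp (l / 2) = z := by
      rw [← Real.exp_add, add_halves, hl, Real.exp_log hz0]
    have h4 : 2 ≤ Real.exp (l / 2) := by
      by_contra h
      push Not at h
      have h5 : Real.exp (l / 2) * Real.exp (l / 2) < 2 * 2 :=
        mul_lt_mul'' h h (Real.exp_pos _).le (Real.exp_pos _).le
      linarith
    have h5 : 2 * Real.exp (l / 2) ≤ z := by
      rw [← h3]
      exact mul_le_mul_of_nonneg_right h4 (Real.exp_pos _).le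
    have h6 : ((2 * ⌊Real.exp (l * l3 / (16 * l2))⌋₊ : ℕ) : ℝ) ≤ z := by
      push_cast
      linarith
    exact_mod_cast h6
  · have h1 : l * l3 / (16 * l2) ≤ δ * l := by
      rw [div_le_iff₀ (by linarith)]
      have h2 : 1 / δ * l3 ≤ l2 := (mul_le_mul_of_nonneg_right hM3 (by linarith)).trans a5
      have h3 : l3 ≤ δ * l2 := by
        have h4 := mul_le_mul_of_nonneg_left h2 hδ.le
        have h5 : δ * (1 / δ * l3) = l3 := by field_simp
        linarith
      have h4 := mul_le_mul_of_nonneg_left h3 (by linarith : 0 ≤ l)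
      have h5 : 0 ≤ δ * l * l2 := mul_nonneg (mul_nonneg hδ.le (by linarith)) (by linarith)
      have h6 : δ * l * (16 * l2) = l * (δ * l2) + 15 * (δ * l * l2) := by ring
      linarith
    calc (⌊Real.exp (l * l3 / (16 * l2))⌋₊ : ℝ) ≤ Real.exp (l * l3 / (16 * l2)) :=
          Nat.floor_le (Real.exp_pos _).le
      _ ≤ Real.exp (δ * l) := Real.exp_le_exp.2 h1
      _ = (z : ℝ) ^ δ := by
          rw [Real.rpow_def_of_pos hz0, mul_comm]

end Pool.Agent.Lib.SG
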