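import Pool.Agent.Lib.SG.SpecC
import Pool.Agent.Lib.SG.Lg
import Pool.Agent.Lib.SG.Sv2

/-!
MP_9a4459_nt, module Prv: the size of Vz.
-/

namespace Pool.Agent.Lib.SG

open Finset Pool.Agent.Lib.BV

theorem tPrv (h1 : VbdStmt) (h2 : PrsStmt) : PrvStmt := by
  obtain ⟨c0, C0, hc0, hC0, hV⟩ := h1
  obtain ⟨z1, hz1, hs⟩ := h2 2 1 one_pos
  obtain ⟨x0, hx0, hev⟩ := Lg_ev 32
  refine ⟨8 * c0, 32 * C0, max z1 x0, by positivity, by positivity, hz1.trans (le_max_left _ _), ?_⟩
  intro z hz
  obtain ⟨s1, s2, s3, _⟩ := hs z ((le_max_left _ _).trans hz)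
  obtain ⟨a1, a2, a3, a4, a5, a6, a7⟩ := hev z ((le_max_right _ _).trans hz)
  have hz16 : (16 : ℝ) ≤ z := hz1.trans ((le_max_left _ _).trans hz)
  have hz0 : (0 : ℝ) < z := by linarith
  have hP02 : 2 ≤ P0 z := by exact_mod_cast s1
  obtain ⟨v1, v2⟩ := hV (P0 z) (P1 z) hP02 s2
  have hVz : Vz z = VV (P0 z) (P1 z) := rfl
  rw [← hVz] at v1 v2
  have hlog2 : Real.log 2 ≤ 0.7 := by
    have := Real.log_two_lt_d9
    linarith
  set l := Real.log (z : ℝ) with hl
  set l2 := Real.log l with hl2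
  set l3 := Real.log l2 with hl3
  have hrho : rho z = l2 ^ 2 / (l * l3) := rfl
  have hl0 : 0 < l := by linarith
  have hl20 : 0 < l2 := by linarith
  have hl30 : 0 < l3 := by linarith
  have hrho0 : 0 < rho z := by rw [hrho]; positivity
  -- log P0
  have hP0R : (2 : ℝ) ≤ P0 z := by exact_mod_cast hP02
  have e1 : Real.log (P0 z) ≤ l2 := by
    apply Real.log_le_log (by linarith)
    exact Nat.floor_le hl0.le
  have hl2big : 2 ≤ l2 := by
    have : 32 * 1 ≤ 32 * l3 := by linarith
    linarith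
  have e2 : l2 / 2 ≤ Real.log (P0 z) := by
    have h3 : l < P0 z + 1 := Nat.lt_floor_add_one _
    have h32 : 32 ≤ l := by
      have : (32 : ℝ) * 1 ≤ 32 * l2 ^ 2 := mul_le_mul_of_nonneg_left (one_le_pow₀ a2) (by norm_num)
      linarith
    have h4 : l / 2 ≤ P0 z := by linarith
    have h5 := Real.log_le_log (by linarith) h4
    rw [Real.log_div hl0.ne' (by norm_num), ← hl2] at h5
    linarith
  -- log P1
  set u : ℝ := l * l3 / (16 * l2) with hu
  have hu0 : 0 < u := by rw [hu]; positivity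
  have hP1def : (P1 z : ℝ) = ⌊Real.exp u⌋₊ := rfl
  have hP1R : (2 : ℝ) ≤ P1 z := hP0R.trans (by exact_mod_cast s2)
  have e3 : Real.log (P1 z) ≤ u := by
    have h3 : (P1 z : ℝ) ≤ Real.exp u := by
      rw [hP1def]
      exact Nat.floor_le (Real.exp_pos _).le
    calc Real.log (P1 z) ≤ Real.log (Real.exp u) := Real.log_le_log (by linarith) h3
      _ = u := Real.log_exp _
  have hu2 : 2 ≤ u := by
    rw [hu, le_div_iff₀ (by positivity)]
    have h3 : 32 * l2 ≤ 32 * l2 ^ 2 := by
      rw [sq]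
      have := le_mul_of_one_le_right hl20.le a2
      linarith
    have h4 : l * 1 ≤ l * l3 := mul_le_mul_of_nonneg_left a3 hl0.le
    linarith
  have e4 : u / 2 ≤ Real.log (P1 z) := by
    have h3 : Real.exp u < P1 z + 1 := by
      rw [hP1def]
      exact Nat.lt_floor_add_one _
    have h4 : Real.exp u = Real.exp (u / 2) * Real.exp (u / 2) := by
      rw [← Real.exp_add, add_halves]
    have h5 : 2 ≤ Real.exp (u / 2) := by
      have := Real.add_one_le_exp (u / 2)
      linarith
    have h6 : 2 * Real.exp (u / 2) ≤ Real.exp (u / 2) * Real.exp (u / 2) :=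
      mul_le_mul_of_nonneg_right h5 (Real.exp_pos _).le
    have h7 : Real.exp (u / 2) ≤ P1 z := by linarith
    calc u / 2 = Real.log (Real.exp (u / 2)) := (Real.log_exp _).symm
      _ ≤ Real.log (P1 z) := Real.log_le_log (Real.exp_pos _) h7
  have hlP1 : 0 < Real.log (P1 z) := by linarith
  have e5 : 8 * rho z ≤ Real.log (P0 z) / Real.log (P1 z) := by
    rw [le_div_iff₀ hlP1]
    have h3 : 8 * rho z * Real.log (P1 z) ≤ 8 * rho z * u := mul_le_mul_of_nonneg_left e3 (by positivity)
    have h4 : 8 * rho z * u = l2 / 2 := by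
      rw [hrho, hu]
      field_simp
      ring
    linarith
  have e6 : Real.log (P0 z) / Real.log (P1 z) ≤ 32 * rho z := by
    rw [div_le_iff₀ hlP1]
    have h3 : 32 * rho z * (u / 2) ≤ 32 * rho z * Real.log (P1 z) :=
      mul_le_mul_of_nonneg_left e4 (by positivity)
    have h4 : 32 * rho z * (u / 2) = l2 := by
      rw [hrho, hu]
      field_simp
      ring
    linarith
  have e7 : 8 * c0 * rho z ≤ Vz z := by
    refine le_trans ?_ v1
    have := mul_le_mul_of_nonneg_left e5 hc0.le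
    linarith
  refine ⟨hrho0, e7, ?_, ?_, ?_⟩
  · refine v2.trans ?_
    have := mul_le_mul_of_nonneg_left e6 hC0.le
    linarith
  · exact lt_of_lt_of_le (by positivity) e7
  · rw [hVz]
    unfold VV
    apply Finset.prod_le_one
    · intro p hp
      rw [Finset.mem_filter] at hp
      have h1 : (2 : ℝ) ≤ p := by exact_mod_cast hp.2.two_le
      have h2 : 1 / (p : ℝ) ≤ 1 / 2 := one_div_le_one_div_of_le (by norm_num) h1
      linarith
    · intro p _
      have : 0 ≤ 1 / (p : ℝ) := by positivity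
      linarith

end Pool.Agent.Lib.SG
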