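import Pool.Agent.Lib.SG.SpecA

namespace Pool.Agent.Lib.SG

open Finset Pool.Agent.Lib.BV

private theorem Ptb_rr0 (D n : ℕ) : 0 ≤ rr D n := by
  unfold rr
  split_ifs <;> norm_num

private theorem Ptb_rr1 (D n : ℕ) : rr D n ≤ 1 := by
  unfold rr
  split_ifs <;> norm_num

private theorem Ptb_Lam0 (n : ℕ) : 0 ≤ Lam n := ArithmeticFunction.vonMangoldt_nonneg

private theorem Ptb_w0 (D n : ℕ) (s : ℝ) : 0 ≤ wt D s Lam n := by
  unfold wt
  exact mul_nonneg (mul_nonneg (Ptb_rr0 D n) (Ptb_Lam0 n)) (Real.rpow_nonneg (Nat.cast_nonneg n) _)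

private theorem Ptb_prime {D p : ℕ} (s : ℝ) (hp : p.Prime) (hpD : ¬ D < p) : wt D s Lam p = 0 := by
  unfold wt rr
  rw [if_neg, zero_mul, zero_mul]
  intro h
  exact hpD (h p hp dvd_rfl)

private theorem Ptb_prime' {D p : ℕ} (s : ℝ) (hp : p.Prime) :
    wt D s Lam p ≤ (Real.log p) ^ 1 * (p : ℝ) ^ (-(1 + s)) := by
  unfold wt
  have h1 : Lam p = Real.log p := ArithmeticFunction.vonMangoldt_apply_prime hp
  have h2 : 0 ≤ Real.log p := Real.log_natCast_nonneg p
  rw [h1, pow_one]
  apply mul_le_mul_of_nonneg_right _ (Real.rpow_nonneg (Nat.cast_nonneg p) _)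
  exact mul_le_of_le_one_left h2 (Ptb_rr1 D p)

/-- the numerical estimate for the prime powers -/
private theorem Ptb_num {q D : ℕ} {s : ℝ} (hq : 1 ≤ q) (hD : q ^ 4 ≤ D) (hs : 0 < s) (hs1 : s ≤ 1) :
    (Real.log D) ^ 2 / D ≤ 16 / ((q.totient : ℝ) * s) := by
  have hD1 : 1 ≤ D := le_trans (Nat.one_le_pow _ _ hq) hD
  have hDr : (1 : ℝ) ≤ D := by exact_mod_cast hD1
  set y : ℝ := Real.sqrt (Real.sqrt D) with hy
  have hy4 : y ^ 4 = D := by
    have : y ^ 4 = (y ^ 2) ^ 2 := by ring
    rw [this, hy, Real.sq_sqrt (Real.sqrt_nonneg _), Real.sq_sqrt (by linarith)]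
  have hy0 : 0 ≤ y := Real.sqrt_nonneg _
  have hy1 : 1 ≤ y := by
    by_contra h
    push Not at h
    have : y ^ 4 < 1 := pow_lt_one₀ hy0 h (by norm_num)
    linarith
  have hlog : Real.log D ≤ 4 * y := by
    rw [← hy4, Real.log_pow]
    have := Real.log_le_sub_one_of_pos (x := y) (by linarith)
    push_cast
    linarith
  have hlog0 : 0 ≤ Real.log D := Real.log_nonneg hDr
  have hφ : (q.totient : ℝ) ≤ y := by
    have h1 : (q.totient : ℝ) ≤ q := by exact_mod_cast Nat.totient_le q
    have h2 : (q : ℝ) ≤ y := by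
      have h3 : (q : ℝ) ^ 4 ≤ y ^ 4 := by
        rw [hy4]; exact_mod_cast hD
      exact le_of_pow_le_pow_left₀ (by norm_num) hy0 h3
    linarith
  have hφ0 : 0 < (q.totient : ℝ) := by
    exact_mod_cast Nat.totient_pos.2 (by omega)
  rw [div_le_div_iff₀ (by linarith) (by positivity)]
  have h1 : (Real.log D) ^ 2 ≤ (4 * y) ^ 2 := pow_le_pow_left₀ hlog0 hlog 2
  have h2 : (q.totient : ℝ) * s ≤ y := by
    calc (q.totient : ℝ) * s ≤ q.totient * 1 := by gcongr
      _ ≤ y := by linarith
  calc (Real.log D) ^ 2 * ((q.totient : ℝ) * s) ≤ (4 * y) ^ 2 * y := by gcongr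
    _ = 16 * y ^ 3 := by ring
    _ ≤ 16 * y ^ 4 := by
        have : y ^ 3 ≤ y ^ 4 := pow_le_pow_right₀ hy1 (by norm_num)
        linarith
    _ = 16 * D := by rw [hy4]

theorem tPtb (h1 : SmzStmt) (h2 : AbtStmt) (h3 : PpwStmt) : PtbStmt := by
  clear h1
  obtain ⟨C1, D1, hC1, hD1, hA⟩ := h2
  obtain ⟨C2, D2, hC2, hD2, hP⟩ := h3
  refine ⟨C1 + 16 * C2, max D1 D2, by positivity, le_trans hD1 (le_max_left _ _), ?_⟩
  intro q _ D a s hD hqD hs hs1
  have hq : 1 ≤ q := Nat.one_le_iff_ne_zero.2 (NeZero.ne q)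
  obtain ⟨hsum, -, hnp, -⟩ := hP D s ((le_max_right _ _).trans hD) hs
  have hcop : (a : ZMod q).val.Coprime q := ZMod.val_coe_unit_coprime a
  have hw := Ptb_w0 D
  have hφ0 : 0 < (q.totient : ℝ) := by
    exact_mod_cast Nat.totient_pos.2 (by omega)
  have hcl : ∀ n : ℕ, ((n : ZMod q) = (a : ZMod q)) ↔ n ≡ (a : ZMod q).val [MOD q] := by
    intro n
    rw [← ZMod.natCast_eq_natCast_iff, ZMod.natCast_zmod_val]
  refine ⟨tsum_nonneg fun n => ?_, ?_⟩
  · split_ifs
    · exact hw n s
    · exact le_refl _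
  · set f1 : ℕ → ℝ := fun n => if n.Prime ∧ n ≡ (a : ZMod q).val [MOD q] then wt D s Lam n else 0
      with hf1
    set f2 : ℕ → ℝ := fun n => if n.Prime then 0 else wt D s Lam n with hf2
    have hf10 : ∀ n, 0 ≤ f1 n := by
      intro n
      simp only [hf1]
      split_ifs
      · exact hw n s
      · exact le_refl _
    have hs1' : Summable f1 := by
      refine Summable.of_nonneg_of_le hf10 (fun n => ?_) hsum
      simp only [hf1]
      split_ifs
      · exact le_refl _
      · exact hw n s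
    have hs2' : Summable f2 := by
      refine Summable.of_nonneg_of_le (fun n => ?_) (fun n => ?_) hsum
      · simp only [hf2]
        split_ifs
        · exact le_refl _
        · exact hw n s
      · simp only [hf2]
        split_ifs
        · exact hw n s
        · exact le_refl _
    have hle : ∀ n : ℕ, (if (n : ZMod q) = (a : ZMod q) then wt D s Lam n else 0) ≤ f1 n + f2 n := by
      intro n
      have h0 := hw n s
      simp only [hf1, hf2, hcl]
      by_cases hn : n.Prime <;> by_cases hm : n ≡ (a : ZMod q).val [MOD q] <;> simp [hn, hm, h0]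
    have hs0 : Summable fun n : ℕ => (if (n : ZMod q) = (a : ZMod q) then wt D s Lam n else 0) := by
      refine Summable.of_nonneg_of_le (fun n => ?_) hle (hs1'.add hs2')
      split_ifs
      · exact hw n s
      · exact le_refl _
    have e1 : ∑' n, f1 n ≤ C1 / ((q.totient : ℝ) * s ^ 1) := by
      refine Real.tsum_le_of_sum_range_le hf10 fun N => ?_
      refine le_trans ?_ ((hA q D (a : ZMod q).val N s hq ((le_max_left _ _).trans hD) hqD hcop hs
        hs1).1 1 le_rfl (by norm_num))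
      have e2 : ∑ i ∈ range N, f1 i = ∑ i ∈ (range N).filter
          (fun p => p.Prime ∧ p ≡ (a : ZMod q).val [MOD q]), wt D s Lam i := by
        rw [Finset.sum_filter]
      rw [e2]
      have e3 : ∑ i ∈ (range N).filter (fun p => p.Prime ∧ p ≡ (a : ZMod q).val [MOD q]),
          wt D s Lam i = ∑ i ∈ ((range N).filter
            (fun p => p.Prime ∧ p ≡ (a : ZMod q).val [MOD q])).filter (fun p => D < p),
              wt D s Lam i := by
        symm
        apply Finset.sum_filter_of_ne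
        intro p hp hne
        by_contra hpD
        rw [mem_filter] at hp
        exact hne (Ptb_prime s hp.2.1 hpD)
      rw [e3]
      calc _ ≤ ∑ i ∈ ((range N).filter (fun p => p.Prime ∧ p ≡ (a : ZMod q).val [MOD q])).filter
            (fun p => D < p), (Real.log i) ^ 1 * (i : ℝ) ^ (-(1 + s)) := by
            refine Finset.sum_le_sum fun p hp => ?_
            simp only [mem_filter] at hp
            exact Ptb_prime' s hp.1.2.1
        _ ≤ _ := by
            refine Finset.sum_le_sum_of_subset_of_nonneg ?_ ?_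
            · intro p hp
              simp only [mem_filter, mem_range, mem_Ioc] at hp ⊢
              exact ⟨⟨hp.2, hp.1.1.le⟩, hp.1.2⟩
            · intro p _ _
              exact mul_nonneg (pow_nonneg (Real.log_natCast_nonneg p) _)
                (Real.rpow_nonneg (Nat.cast_nonneg p) _)
    have e4 : ∑' n, f2 n ≤ C2 * (16 / ((q.totient : ℝ) * s)) :=
      hnp.trans (mul_le_mul_of_nonneg_left (Ptb_num hq hqD hs hs1) hC2.le)
    calc cU q (wt D s Lam) a ≤ ∑' n, (f1 n + f2 n) := by
          unfold cU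
          exact hs0.tsum_le_tsum hle (hs1'.add hs2')
      _ = ∑' n, f1 n + ∑' n, f2 n := hs1'.tsum_add hs2'
      _ ≤ C1 / ((q.totient : ℝ) * s ^ 1) + C2 * (16 / ((q.totient : ℝ) * s)) := by linarith
      _ = (C1 + 16 * C2) / ((q.totient : ℝ) * s) := by
          rw [pow_one]; field_simp; try ring

end Pool.Agent.Lib.SG
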