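import Pool.Agent.Lib.SG.SpecA

/-!
MP_9a4459_nt, directory Lib/SG, module Qlo: lower bound for the total of Λ log (helper82).
-/

namespace Pool.Agent.Lib.SG

open Finset Pool.Agent.Lib.BV

private lemma Qlo_rr_le (D n : ℕ) : 0 ≤ rr D n ∧ rr D n ≤ 1 := by
  classical
  unfold rr
  split_ifs <;> norm_num

private lemma Qlo_lam_nonneg (n : ℕ) : 0 ≤ Lam1 n := by
  unfold Lam1 Lam
  exact mul_nonneg ArithmeticFunction.vonMangoldt_nonneg (Real.log_natCast_nonneg n)

private lemma Qlo_nonneg (D : ℕ) (s : ℝ) (n : ℕ) : 0 ≤ wt D s Lam1 n := by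
  unfold wt
  exact mul_nonneg (mul_nonneg (Qlo_rr_le D n).1 (Qlo_lam_nonneg n))
    (Real.rpow_nonneg (Nat.cast_nonneg _) _)

private lemma Qlo_summ (h1 : SmzStmt) (D : ℕ) (s : ℝ) (hs : 0 < s) : Summable (wt D s Lam1) := by
  obtain ⟨C, _, h, _⟩ := h1 2
  refine Summable.of_norm_bounded (h s hs) (fun n => ?_)
  rw [Real.norm_of_nonneg (Qlo_nonneg D s n)]
  unfold wt
  have h2 : (0 : ℝ) ≤ (n : ℝ) ^ (-(1 + s)) := Real.rpow_nonneg (Nat.cast_nonneg _) _
  apply mul_le_mul_of_nonneg_right _ h2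
  have h3 : Lam1 n ≤ (1 + Real.log n) ^ 2 := by
    unfold Lam1 Lam
    have h4 : 0 ≤ Real.log n := Real.log_natCast_nonneg n
    have h5 : ArithmeticFunction.vonMangoldt n ≤ Real.log n :=
      ArithmeticFunction.vonMangoldt_le_log
    have h6 : ArithmeticFunction.vonMangoldt n * Real.log n ≤ Real.log n * Real.log n :=
      mul_le_mul_of_nonneg_right h5 h4
    nlinarith
  calc rr D n * Lam1 n ≤ 1 * Lam1 n :=
        mul_le_mul_of_nonneg_right (Qlo_rr_le D n).2 (Qlo_lam_nonneg n)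
    _ = Lam1 n := one_mul _
    _ ≤ _ := h3

/-- The sum over the units is at least every finite sum over integers coprime to q. -/
private lemma Qlo_total (q : ℕ) [NeZero q] (G : ℕ → ℝ) (hG : Summable G) (h0 : ∀ n, 0 ≤ G n)
    (A : Finset ℕ) (hA : ∀ n ∈ A, n.Coprime q) : ∑ n ∈ A, G n ≤ ∑ b : (ZMod q)ˣ, cU q G b := by
  classical
  have hs : ∀ b : (ZMod q)ˣ, Summable (fun n : ℕ => if (n : ZMod q) = (b : ZMod q) then G n else 0) := by
    intro b
    refine Summable.of_norm_bounded hG (fun n => ?_)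
    split_ifs
    · rw [Real.norm_of_nonneg (h0 n)]
    · rw [norm_zero]
      exact h0 n
  have h1 : ∑ b : (ZMod q)ˣ, cU q G b =
      ∑' n : ℕ, ∑ b : (ZMod q)ˣ, if (n : ZMod q) = (b : ZMod q) then G n else 0 := by
    unfold cU
    exact (Summable.tsum_finsetSum (fun b _ => hs b)).symm
  rw [h1]
  have h2 : ∀ n ∈ A, G n = ∑ b : (ZMod q)ˣ, if (n : ZMod q) = (b : ZMod q) then G n else 0 := by
    intro n hn
    rw [Finset.sum_eq_single (ZMod.unitOfCoprime n (hA n hn))]
    · rw [if_pos (ZMod.coe_unitOfCoprime n (hA n hn)).symm]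
    · intro c _ hc
      rw [if_neg]
      intro h
      apply hc
      apply Units.ext
      rw [← h, ZMod.coe_unitOfCoprime]
    · intro h
      exact absurd (mem_univ _) h
  rw [sum_congr rfl h2]
  refine Summable.sum_le_tsum A (fun n _ => ?_) (summable_sum (fun b _ => hs b))
  apply sum_nonneg
  intro b _
  split_ifs
  · exact h0 n
  · exact le_rfl

/-- The value at a prime between exp(1/(2s)) and exp(1/s). -/
private lemma Qlo_val (D p : ℕ) (s : ℝ) (hs : 0 < s) (hp : p.Prime) (hpD : D < p)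
    (h1 : 1 / (2 * s) ≤ Real.log p) (h2 : Real.log p ≤ 1 / s) :
    1 / (12 * s ^ 2) * (1 / (p : ℝ)) ≤ wt D s Lam1 p := by
  classical
  have hp0 : (0 : ℝ) < p := by exact_mod_cast hp.pos
  have hrr : rr D p = 1 := by
    unfold rr
    rw [if_pos]
    intro r hr hrp
    rcases (Nat.dvd_prime hp).1 hrp with h | h
    · exact absurd h hr.one_lt.ne'
    · rw [h]
      exact hpD
  have hlam : Lam1 p = Real.log p * Real.log p := by
    unfold Lam1 Lam
    rw [ArithmeticFunction.vonMangoldt_apply_prime hp]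
  unfold wt
  rw [hrr, hlam, one_mul]
  have h3 : (p : ℝ) ^ (-(1 + s)) = 1 / (p : ℝ) * Real.exp (-(s * Real.log p)) := by
    rw [Real.rpow_def_of_pos hp0, show Real.log p * -(1 + s) =
      -Real.log p + -(s * Real.log p) by ring, Real.exp_add, Real.exp_neg, Real.exp_log hp0,
      one_div]
  rw [h3]
  have h4 : s * Real.log p ≤ 1 := by
    have := mul_le_mul_of_nonneg_left h2 hs.le
    rwa [mul_one_div_cancel hs.ne'] at this
  have h5 : (1 : ℝ) / 3 ≤ Real.exp (-(s * Real.log p)) := by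
    have h6 : Real.exp (-1) ≤ Real.exp (-(s * Real.log p)) := Real.exp_le_exp.2 (by linarith)
    refine le_trans ?_ h6
    rw [Real.exp_neg, ← one_div]
    apply one_div_le_one_div_of_le (Real.exp_pos 1)
    have := Real.exp_one_lt_d9
    linarith
  have h7 : 1 / (4 * s ^ 2) ≤ Real.log p * Real.log p := by
    have h8 : 0 ≤ 1 / (2 * s) := by positivity
    have h9 := mul_le_mul h1 h1 h8 (h8.trans h1)
    refine le_trans (le_of_eq ?_) h9
    field_simp
    norm_num
  have h10 : 1 / (12 * s ^ 2) * (1 / (p : ℝ)) = 1 / (4 * s ^ 2) * (1 / (p : ℝ) * (1 / 3)) := by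
    field_simp
    norm_num
  rw [h10]
  have h11 : 1 / (p : ℝ) * (1 / 3) ≤ 1 / (p : ℝ) * Real.exp (-(s * Real.log p)) :=
    mul_le_mul_of_nonneg_left h5 (by positivity)
  exact mul_le_mul h7 h11 (by positivity) (le_trans (by positivity) h7)

/-- **Qlo.** -/
theorem tQlo (h1 : SmzStmt) (h2 : MrtStmt) : QloStmt := by
  classical
  obtain ⟨C, hC, hM⟩ := h2
  refine ⟨1 / 60, min (1 / 2) (1 / (6 * C)), 3, by norm_num, by positivity, le_rfl, ?_⟩
  intro q _ D s hD hqD hs hsc
  have hlog : 1 < Real.log D := by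
    rw [Real.lt_log_iff_exp_lt (by linarith)]
    have := Real.exp_one_lt_d9
    linarith
  have hD0 : (0 : ℝ) < D := by linarith
  have hs1 : s * Real.log D ≤ 1 / 2 := by
    have h3 : s * Real.log D ≤ min (1 / 2) (1 / (6 * C)) := (le_div_iff₀ (by linarith)).1 hsc
    exact h3.trans (min_le_left _ _)
  have hs2 : 2 * s * C ≤ 1 / 3 := by
    have h3 : s * Real.log D ≤ min (1 / 2) (1 / (6 * C)) := (le_div_iff₀ (by linarith)).1 hsc
    have h4 : s ≤ s * Real.log D := by nlinarith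
    have h5 : s ≤ 1 / (6 * C) := h4.trans (h3.trans (min_le_right _ _))
    have h6 : s * (6 * C) ≤ 1 := (le_div_iff₀ (by positivity)).1 h5
    linarith
  obtain ⟨x, hx⟩ : ∃ x : ℝ, x = Real.exp (1 / (2 * s)) := ⟨_, rfl⟩
  obtain ⟨y, hy⟩ : ∃ y : ℝ, y = Real.exp (1 / s) := ⟨_, rfl⟩
  have hDx : (D : ℝ) ≤ x := by
    rw [hx, ← Real.log_le_iff_le_exp hD0, le_div_iff₀ (by positivity)]
    linarith
  have hxy : x ≤ y := by
    rw [hx, hy]
    apply Real.exp_le_exp.2
    apply one_div_le_one_div_of_le hs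
    linarith
  have hx0 : 0 < x := by rw [hx]; exact Real.exp_pos _
  have hy0 : 0 < y := by rw [hy]; exact Real.exp_pos _
  have hlx : Real.log x = 1 / (2 * s) := by rw [hx, Real.log_exp]
  have hly : Real.log y = 1 / s := by rw [hy, Real.log_exp]
  have h3 := hM x y (by linarith) hxy
  have h4 : Real.log y / Real.log x = 2 := by
    rw [hlx, hly]
    field_simp
  have h5 : C / Real.log x = 2 * s * C := by
    rw [hlx]
    field_simp
  rw [h4, h5] at h3
  have h6 := (abs_le.1 h3).1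
  have hlog2 := Real.log_two_gt_d9
  have h7 : (1 : ℝ) / 5 ≤ ∑ p ∈ (Ioc ⌊x⌋₊ ⌊y⌋₊).filter Nat.Prime, 1 / (p : ℝ) := by linarith
  have h8 := Qlo_total q (wt D s Lam1) (Qlo_summ h1 D s hs) (Qlo_nonneg D s)
    ((Ioc ⌊x⌋₊ ⌊y⌋₊).filter Nat.Prime) (by
      intro p hp
      rw [mem_filter, mem_Ioc] at hp
      have h9 : x < p := (Nat.floor_lt hx0.le).1 hp.1.1
      have h10 : D < p := by
        have : (D : ℝ) < p := lt_of_le_of_lt hDx h9
        exact_mod_cast this
      rw [Nat.Prime.coprime_iff_not_dvd hp.2]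
      intro h11
      have h12 := Nat.le_of_dvd (Nat.pos_of_ne_zero (NeZero.ne q)) h11
      omega)
  refine le_trans ?_ h8
  have h13 : ∀ p ∈ (Ioc ⌊x⌋₊ ⌊y⌋₊).filter Nat.Prime,
      1 / (12 * s ^ 2) * (1 / (p : ℝ)) ≤ wt D s Lam1 p := by
    intro p hp
    rw [mem_filter, mem_Ioc] at hp
    have h9 : x < p := (Nat.floor_lt hx0.le).1 hp.1.1
    have h9' : (p : ℝ) ≤ y := (Nat.le_floor_iff hy0.le).1 hp.1.2
    have h10 : D < p := by
      have : (D : ℝ) < p := lt_of_le_of_lt hDx h9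
      exact_mod_cast this
    have hp0 : (0 : ℝ) < p := hx0.trans h9
    refine Qlo_val D p s hs hp.2 h10 ?_ ?_
    · rw [← hlx]
      exact Real.log_le_log hx0 h9.le
    · rw [← hly]
      exact Real.log_le_log hp0 h9'
  refine le_trans ?_ (sum_le_sum h13)
  rw [← mul_sum]
  have h14 : (1 : ℝ) / 60 / s ^ 2 = 1 / (12 * s ^ 2) * (1 / 5) := by
    field_simp
    norm_num
  rw [h14]
  exact mul_le_mul_of_nonneg_left h7 (by positivity)

end Pool.Agent.Lib.SG
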