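import Pool.Agent.Lib.SG.SpecC
import Pool.Agent.Lib.SG.Lg

/-!
MP_9a4459_nt, module Rho: facts about the function rho.
-/

namespace Pool.Agent.Lib.SG

open Finset Pool.Agent.Lib.BV

theorem tRho : RhoStmt := by
  intro ε hε
  obtain ⟨x0, hx0, hev⟩ := Lg_ev (max 1 (1 / ε))
  refine ⟨x0, hx0, fun x hx => ?_⟩
  obtain ⟨a1, a2, a3, a4, a5, a6, a7⟩ := hev x hx
  have hx16 : 16 ≤ x := hx0.trans hx
  have hxp : 0 < x := by linarith
  set M : ℝ := max 1 (1 / ε) with hM
  have hM1 : 1 ≤ M := le_max_left _ _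
  have hM2 : 1 / ε ≤ M := le_max_right _ _
  have hrho : rho x = (Real.log (Real.log x)) ^ 2 / (Real.log x * Real.log (Real.log (Real.log x))) := rfl
  rw [hrho]
  set l := Real.log x with hl
  set l2 := Real.log l with hl2
  set l3 := Real.log l2 with hl3
  have hl0 : 0 < l := by linarith
  have hl20 : 0 < l2 := by linarith
  have hl30 : 0 < l3 := by linarith
  have h32 : l3 ≤ l2 := by
    have := mul_le_mul_of_nonneg_right hM1 hl30.le
    linarith
  have h22 : l2 ≤ l2 ^ 2 := by
    rw [sq]
    exact le_mul_of_one_le_right hl20.le a2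
  refine ⟨by positivity, ?_, ?_, ?_⟩
  · rw [div_le_iff₀ (by positivity)]
    have h1 : 1 / ε * l2 ^ 2 ≤ l := (mul_le_mul_of_nonneg_right hM2 (sq_nonneg _)).trans a6
    have h2 : l2 ^ 2 ≤ ε * l := by
      have h3 := mul_le_mul_of_nonneg_left h1 hε.le
      have h4 : ε * (1 / ε * l2 ^ 2) = l2 ^ 2 := by field_simp
      linarith
    have h3 : ε * l * 1 ≤ ε * l * l3 := mul_le_mul_of_nonneg_left a3 (by positivity)
    have h4 : ε * (l * l3) = ε * l * l3 := by ring
    linarith
  · rw [div_le_div_iff₀ hl0 (by positivity)]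
    have h1 : l * l3 ≤ l * l2 ^ 2 := mul_le_mul_of_nonneg_left (h32.trans h22) hl0.le
    linarith
  · intro y hxy hyx
    have hyp : 0 < y := by linarith
    have hrhoy : rho y = (Real.log (Real.log y)) ^ 2 /
      (Real.log y * Real.log (Real.log (Real.log y))) := rfl
    rw [hrhoy]
    have b1 : l ≤ Real.log y := Real.log_le_log hxp hxy
    have b1' : Real.log y ≤ 2 * l := by
      calc Real.log y ≤ Real.log (x ^ 2) := Real.log_le_log hyp hyx
        _ = 2 * l := by rw [Real.log_pow]; norm_num; exact hl.symm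
    set m := Real.log y with hm
    have hlog2 := Real.log_two_lt_d9
    have b2 : l2 ≤ Real.log m := Real.log_le_log hl0 b1
    have b2' : Real.log m ≤ 2 * l2 := by
      calc Real.log m ≤ Real.log (2 * l) := Real.log_le_log (by linarith) b1'
        _ = Real.log 2 + l2 := by rw [Real.log_mul (by norm_num) hl0.ne']
        _ ≤ 2 * l2 := by linarith
    set m2 := Real.log m with hm2
    have b3 : l3 ≤ Real.log m2 := Real.log_le_log hl20 b2
    have b3' : Real.log m2 ≤ 2 * l3 := by
      calc Real.log m2 ≤ Real.log (2 * l2) := Real.log_le_log (by linarith) b2'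
        _ = Real.log 2 + l3 := by rw [Real.log_mul (by norm_num) hl20.ne']
        _ ≤ 2 * l3 := by linarith
    set m3 := Real.log m2 with hm3
    have hm0 : 0 < m := by linarith
    have hm20 : 0 < m2 := by linarith
    have hm30 : 0 < m3 := by linarith
    constructor
    · rw [← mul_div_assoc, div_le_div_iff₀ (by positivity) (by positivity)]
      have h1 : l2 ^ 2 ≤ m2 ^ 2 := pow_le_pow_left₀ hl20.le b2 2
      have h2 : m * m3 ≤ 2 * l * (2 * l3) := mul_le_mul b1' b3' hm30.le (by positivity)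
      calc l2 ^ 2 * (m * m3) ≤ m2 ^ 2 * (2 * l * (2 * l3)) :=
            mul_le_mul h1 h2 (by positivity) (by positivity)
        _ = 4 * m2 ^ 2 * (l * l3) := by ring
    · rw [← mul_div_assoc, div_le_div_iff₀ (by positivity) (by positivity)]
      have h1 : m2 ^ 2 ≤ (2 * l2) ^ 2 := pow_le_pow_left₀ hm20.le b2' 2
      have h2 : l * l3 ≤ m * m3 := mul_le_mul b1 b3 hl30.le hm0.le
      calc m2 ^ 2 * (l * l3) ≤ (2 * l2) ^ 2 * (m * m3) :=
            mul_le_mul h1 h2 (by positivity) (by positivity)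
        _ = 4 * l2 ^ 2 * (m * m3) := by ring

end Pool.Agent.Lib.SG
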