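import Pool.Agent.Lib.SG.SpecB

/-!
MP_9a4459_nt, module Rnk: Rankin's bound for the integers composed of small primes and one prime e.
-/

namespace Pool.Agent.Lib.SG

open Finset Pool.Agent.Lib.BV

private noncomputable def rkf (σ : ℝ) : ℕ →* ℝ where
  toFun n := (n : ℝ) ^ (-σ)
  map_one' := by simp
  map_mul' m n := by
    rw [Nat.cast_mul, Real.mul_rpow (Nat.cast_nonneg _) (Nat.cast_nonneg _)]

private lemma Rnk_smooth (F : Finset ℕ) (σ : ℝ) (hσ : 0 < σ) (L : ℕ) (T : Finset ℕ)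
    (hT : ∀ j ∈ T, 1 ≤ j ∧ j ≤ L ∧ ∀ p : ℕ, p.Prime → p ∣ j → p ∈ F) :
    (T.card : ℝ) ≤ (L : ℝ) ^ σ * ∏ p ∈ F.filter Nat.Prime, (1 - (p : ℝ) ^ (-σ))⁻¹ := by
  obtain ⟨_, h2⟩ := EulerProduct.summable_and_hasSum_factoredNumbers_prod_filter_prime_geometric
    (f := rkf σ) (fun {p} hp => by
      have h3 : ‖(rkf σ) p‖ = (p : ℝ) ^ (-σ) := by
        change ‖(p : ℝ) ^ (-σ)‖ = _
        exact Real.norm_of_nonneg (Real.rpow_nonneg (Nat.cast_nonneg _) _)
      rw [h3]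
      exact Real.rpow_lt_one_of_one_lt_of_neg (by exact_mod_cast hp.one_lt) (by linarith)) F
  have h4 : HasSum ((Nat.factoredNumbers F).indicator (fun n : ℕ => (n : ℝ) ^ (-σ)))
      (∏ p ∈ F.filter Nat.Prime, (1 - (p : ℝ) ^ (-σ))⁻¹) := hasSum_subtype_iff_indicator.1 h2
  have h5 := sum_le_hasSum T (fun n _ => Set.indicator_nonneg
    (fun m _ => Real.rpow_nonneg (Nat.cast_nonneg m) _) n) h4
  have h6 : (T.card : ℝ) ≤ ∑ j ∈ T, (L : ℝ) ^ σ *
      (Nat.factoredNumbers F).indicator (fun n : ℕ => (n : ℝ) ^ (-σ)) j := by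
    have e1 : (T.card : ℝ) = ∑ _ ∈ T, (1 : ℝ) := by simp
    rw [e1]
    refine Finset.sum_le_sum fun j hj => ?_
    obtain ⟨h7, h8, h9⟩ := hT j hj
    have h10 : j ∈ Nat.factoredNumbers F := by
      rw [Nat.mem_factoredNumbers]
      refine ⟨by omega, fun p hp => ?_⟩
      rw [Nat.mem_primeFactorsList (by omega)] at hp
      exact h9 p hp.1 hp.2
    rw [Set.indicator_of_mem h10, Real.rpow_neg (Nat.cast_nonneg _), ← div_eq_mul_inv]
    have hj0 : (0 : ℝ) < j := by exact_mod_cast h7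
    rw [one_le_div (Real.rpow_pos_of_pos hj0 _)]
    exact Real.rpow_le_rpow hj0.le (by exact_mod_cast h8) hσ.le
  refine h6.trans ?_
  rw [← Finset.mul_sum]
  exact mul_le_mul_of_nonneg_left h5 (Real.rpow_nonneg (Nat.cast_nonneg _) _)

private lemma Rnk_fac {x : ℝ} (h0 : 0 ≤ x) (h1 : x ≤ 3 / 4) :
    (1 - x)⁻¹ ≤ Real.exp (x + 2 * x ^ 2) := by
  rw [inv_le_iff_one_le_mul₀ (by linarith)]
  have hy : 0 ≤ x + 2 * x ^ 2 := by positivity
  have h2 := Real.quadratic_le_exp_of_nonneg hy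
  have h3 : x ^ 3 ≤ (3 / 4) ^ 3 := pow_le_pow_left₀ h0 h1 3
  have h4 : 0 ≤ x ^ 2 * (3 / 2 - x / 2 - 2 * x ^ 3) :=
    mul_nonneg (sq_nonneg _) (by norm_num at h3; linarith)
  calc (1 : ℝ) ≤ (1 - x) * (1 + (x + 2 * x ^ 2) + (x + 2 * x ^ 2) ^ 2 / 2) := by
        have h5 : (1 - x) * (1 + (x + 2 * x ^ 2) + (x + 2 * x ^ 2) ^ 2 / 2) =
          1 + x ^ 2 * (3 / 2 - x / 2 - 2 * x ^ 3) := by ring
        rw [h5]
        linarith
    _ ≤ (1 - x) * Real.exp (x + 2 * x ^ 2) := mul_le_mul_of_nonneg_left h2 (by linarith)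
    _ = Real.exp (x + 2 * x ^ 2) * (1 - x) := mul_comm _ _

private lemma Rnk_abel (a b : ℕ → ℝ) (c : ℝ) (hb : ∀ n, 1 ≤ n → b (n + 1) ≤ b n)
    (hA : ∀ n : ℕ, ∑ k ∈ Icc 1 n, a k ≤ c * n) (N : ℕ) (hN : 1 ≤ N) :
    ∑ k ∈ Icc 1 N, a k * b k ≤ c * ∑ k ∈ Icc 1 N, b k - (c * N - ∑ k ∈ Icc 1 N, a k) * b N := by
  induction N, hN using Nat.le_induction with
  | base =>
    simp only [Finset.Icc_self, Finset.sum_singleton, Nat.cast_one]
    linarith
  | succ n hn ih =>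
    rw [Finset.sum_Icc_succ_top (by omega), Finset.sum_Icc_succ_top (by omega),
      Finset.sum_Icc_succ_top (by omega)]
    have h1 : 0 ≤ (c * n - ∑ k ∈ Icc 1 n, a k) * (b n - b (n + 1)) :=
      mul_nonneg (by linarith [hA n]) (by linarith [hb n hn])
    push_cast
    linarith

private lemma Rnk_pow (η : ℝ) (h0 : 0 < η) (h1 : η ≤ 1) (N : ℕ) :
    ∑ n ∈ Icc 1 N, (n : ℝ) ^ (η - 1) ≤ (N : ℝ) ^ η / η := by
  induction N with
  | zero =>
    simp only [Nat.cast_zero]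
    rw [Real.zero_rpow h0.ne']
    simp
  | succ n ih =>
    rw [Finset.sum_Icc_succ_top (by omega)]
    have hn : (0 : ℝ) < ((n + 1 : ℕ) : ℝ) := by positivity
    have hn1 : (1 : ℝ) ≤ ((n + 1 : ℕ) : ℝ) := by exact_mod_cast (by omega : 1 ≤ n + 1)
    set m : ℝ := ((n + 1 : ℕ) : ℝ) with hm
    have hs : -1 ≤ -(1 / m) := by
      have : 1 / m ≤ 1 := by rw [div_le_one hn]; exact hn1
      linarith
    have h2 := rpow_one_add_le_one_add_mul_self hs h0.le h1
    have h3 : (n : ℝ) = m * (1 + -(1 / m)) := by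
      have : m = (n : ℝ) + 1 := by rw [hm]; push_cast; ring
      field_simp
      rw [this]
      ring
    have h4 : (n : ℝ) ^ η ≤ m ^ η - η * m ^ (η - 1) := by
      rw [h3, Real.mul_rpow hn.le (by linarith)]
      have h5 : m ^ (η - 1) = m ^ η * (1 / m) := by
        rw [Real.rpow_sub_one hn.ne']
        ring
      rw [h5]
      have h6 := mul_le_mul_of_nonneg_left h2 (Real.rpow_nonneg hn.le η)
      linarith
    have h7 : (n : ℝ) ^ η / η + m ^ (η - 1) ≤ m ^ η / η := by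
      rw [div_add' _ _ _ h0.ne', div_le_div_iff_of_pos_right h0]
      linarith
    linarith

private lemma Rnk_theta (η : ℝ) (h0 : 0 < η) (h1 : η ≤ 1) (Y : ℕ) :
    ∑ p ∈ (Icc 1 Y).filter Nat.Prime, Real.log p * (p : ℝ) ^ (η - 1) ≤
      Real.log 4 * ((Y : ℝ) ^ η / η) := by
  have hlog4 : 0 ≤ Real.log 4 := Real.log_nonneg (by norm_num)
  rcases Nat.eq_zero_or_pos Y with hY | hY
  · subst hY
    simp only [Nat.cast_zero]
    rw [Real.zero_rpow h0.ne']
    simp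
  have hA : ∀ n : ℕ, ∑ k ∈ Icc 1 n, (if k.Prime then Real.log k else 0) ≤ Real.log 4 * n := by
    intro n
    have h2 := Chebyshev.theta_le_log4_mul_x (x := (n : ℝ)) (Nat.cast_nonneg _)
    unfold Chebyshev.theta at h2
    rw [Nat.floor_natCast] at h2
    rw [← Finset.sum_filter]
    have h3 : (Ioc 0 n) = Icc 1 n := by
      ext k
      simp only [Finset.mem_Ioc, Finset.mem_Icc]
      omega
    rw [h3] at h2
    exact h2
  have hb : ∀ n : ℕ, 1 ≤ n → (((n + 1 : ℕ) : ℝ)) ^ (η - 1) ≤ (n : ℝ) ^ (η - 1) := by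
    intro n hn
    apply Real.rpow_le_rpow_of_nonpos (by exact_mod_cast hn) (by push_cast; linarith) (by linarith)
  have h2 := Rnk_abel (fun k => if k.Prime then Real.log k else 0) (fun n => (n : ℝ) ^ (η - 1))
    (Real.log 4) hb hA Y hY
  have h3 : 0 ≤ (Real.log 4 * Y - ∑ k ∈ Icc 1 Y, (if k.Prime then Real.log k else 0)) *
      (Y : ℝ) ^ (η - 1) :=
    mul_nonneg (by linarith [hA Y]) (Real.rpow_nonneg (Nat.cast_nonneg _) _)
  have h4 : ∑ p ∈ (Icc 1 Y).filter Nat.Prime, Real.log p * (p : ℝ) ^ (η - 1) =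
      ∑ k ∈ Icc 1 Y, (if k.Prime then Real.log k else 0) * (k : ℝ) ^ (η - 1) := by
    rw [Finset.sum_filter]
    refine Finset.sum_congr rfl fun k _ => ?_
    split_ifs
    · rfl
    · rw [zero_mul]
  rw [h4]
  have h5 := mul_le_mul_of_nonneg_left (Rnk_pow η h0 h1 Y) hlog4
  linarith

private lemma Rnk_main (η : ℝ) (h0 : 0 < η) (h1 : η ≤ 1) (Y : ℕ) :
    ∑ p ∈ (Icc 1 Y).filter Nat.Prime, (p : ℝ) ^ (-(1 - η)) ≤
      ∑ p ∈ (Icc 1 Y).filter Nat.Prime, 1 / (p : ℝ) + Real.log 4 * (Y : ℝ) ^ η := by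
  have h2 : ∀ p ∈ (Icc 1 Y).filter Nat.Prime, (p : ℝ) ^ (-(1 - η)) ≤
      1 / (p : ℝ) + η * (Real.log p * (p : ℝ) ^ (η - 1)) := by
    intro p hp
    have hp1 : p.Prime := (Finset.mem_filter.1 hp).2
    have hp0 : (0 : ℝ) < p := by exact_mod_cast hp1.pos
    have e1 : -(1 - η) = η - 1 := by ring
    rw [e1, Real.rpow_sub_one hp0.ne']
    have h3 : (p : ℝ) ^ η = Real.exp (η * Real.log p) := by
      rw [Real.rpow_def_of_pos hp0, mul_comm]
    have h4 : (p : ℝ) ^ η ≤ 1 + η * Real.log p * (p : ℝ) ^ η := by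
      rw [h3]
      set t := η * Real.log p with ht
      have h5 : 1 - t ≤ Real.exp (-t) := by
        have := Real.add_one_le_exp (-t)
        linarith
      have h6 : Real.exp (-t) * Real.exp t = 1 := by rw [← Real.exp_add]; simp
      have h7 := mul_le_mul_of_nonneg_right h5 (Real.exp_pos t).le
      rw [h6] at h7
      linarith
    have h8 := div_le_div_of_nonneg_right h4 hp0.le
    have h9 : (1 + η * Real.log p * (p : ℝ) ^ η) / p = 1 / (p : ℝ) + η * (Real.log p * ((p : ℝ) ^ η / p)) := by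
      ring
    rw [h9] at h8
    exact h8
  refine (Finset.sum_le_sum h2).trans ?_
  rw [Finset.sum_add_distrib, ← Finset.mul_sum]
  have h3 := mul_le_mul_of_nonneg_left (Rnk_theta η h0 h1 Y) h0.le
  have h4 : η * (Real.log 4 * ((Y : ℝ) ^ η / η)) = Real.log 4 * (Y : ℝ) ^ η := by
    field_simp
  linarith

private lemma Rnk_ev (M : ℝ) : ∃ L0 : ℝ, 16 ≤ L0 ∧ ∀ x : ℝ, L0 ≤ x →
    1 ≤ Real.log (Real.log x) ∧ 32 * Real.log (Real.log x) ≤ Real.log x ∧ M ≤ Real.log (Real.log x) := by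
  have a2 := (Real.isLittleO_log_id_atTop.comp_tendsto Real.tendsto_log_atTop).bound (c := 1 / 32)
    (by norm_num)
  have a3 : ∀ᶠ x : ℝ in Filter.atTop, max M 1 ≤ Real.log (Real.log x) :=
    (Real.tendsto_log_atTop.comp Real.tendsto_log_atTop).eventually_ge_atTop _
  have a4 : ∀ᶠ x : ℝ in Filter.atTop, 1 ≤ Real.log x := Real.tendsto_log_atTop.eventually_ge_atTop _
  obtain ⟨L0, hL0⟩ := Filter.eventually_atTop.1 (a2.and (a3.and a4))
  refine ⟨max L0 16, le_max_right _ _, fun x hx => ?_⟩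
  obtain ⟨b2, b3, b4⟩ := hL0 x ((le_max_left _ _).trans hx)
  simp only [Function.comp_apply, id_eq] at b2
  rw [Real.norm_of_nonneg (Real.log_nonneg b4), Real.norm_of_nonneg (by linarith)] at b2
  exact ⟨(le_max_right _ _).trans b3, by linarith, (le_max_left _ _).trans b3⟩

private lemma Rnk_half {p : ℕ} (hp : p.Prime) (σ : ℝ) (hσ : 3 / 4 ≤ σ) :
    (p : ℝ) ^ (-σ) ≤ 3 / 4 ∧ ((p : ℝ) ^ (-σ)) ^ 2 ≤ 1 / (p : ℝ) ^ ((3 : ℝ) / 2) := by
  have hp2 : (2 : ℝ) ≤ p := by exact_mod_cast hp.two_le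
  have hp0 : (0 : ℝ) < p := by linarith
  constructor
  · have h1 : (p : ℝ) ^ (-σ) ≤ (p : ℝ) ^ (-((1 : ℝ) / 2)) :=
      Real.rpow_le_rpow_of_exponent_le (by linarith) (by linarith)
    have h2 : (p : ℝ) ^ (-((1 : ℝ) / 2)) ≤ (2 : ℝ) ^ (-((1 : ℝ) / 2)) :=
      Real.rpow_le_rpow_of_nonpos (by norm_num) hp2 (by norm_num)
    have h3 : (2 : ℝ) ^ (-((1 : ℝ) / 2)) ≤ 3 / 4 := by
      rw [Real.rpow_neg (by norm_num), ← Real.sqrt_eq_rpow]
      have h4 : (4 : ℝ) / 3 ≤ Real.sqrt 2 := Real.le_sqrt_of_sq_le (by norm_num)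
      calc (Real.sqrt 2)⁻¹ ≤ ((4 : ℝ) / 3)⁻¹ := inv_anti₀ (by norm_num) h4
        _ = 3 / 4 := by norm_num
    linarith
  · rw [← Real.rpow_natCast, ← Real.rpow_mul hp0.le, one_div, ← Real.rpow_neg hp0.le]
    apply Real.rpow_le_rpow_of_exponent_le (by linarith)
    push_cast
    linarith

theorem tRnk (h : MrtStmt) : RnkStmt := by
  classical
  obtain ⟨C, hC, hM⟩ := h
  set S : ℝ := ∑' n : ℕ, 1 / (n : ℝ) ^ ((3 : ℝ) / 2) with hS
  have hSs : Summable (fun n : ℕ => 1 / (n : ℝ) ^ ((3 : ℝ) / 2)) :=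
    Real.summable_one_div_nat_rpow.2 (by norm_num)
  set K1 : ℝ := 1 / 2 + C / Real.log 2 - Real.log (Real.log 2) with hK1
  have hlog2 : 0 < Real.log 2 := Real.log_pos (by norm_num)
  have hloglog2 : Real.log (Real.log 2) ≤ 0 := by
    apply Real.log_nonpos hlog2.le
    have := Real.log_two_lt_d9
    linarith
  have hK1p : 0 ≤ K1 := by
    have : 0 ≤ C / Real.log 2 := by positivity
    rw [hK1]
    linarith
  obtain ⟨L0, hL0, hev⟩ := Rnk_ev (2 * (K1 + 2 * S + 2))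
  refine ⟨L0, hL0, ?_⟩
  intro L p1 e hL hp1
  obtain ⟨v1, v2, v3⟩ := hev L hL
  set l : ℝ := Real.log L with hl
  set m : ℝ := Real.log l with hm
  have hLR : (16 : ℝ) ≤ L := hL0.trans hL
  have hLp : (0 : ℝ) < L := by linarith
  have hl0 : 0 < l := by linarith
  set η : ℝ := 8 * m / l with hη
  have hη0 : 0 < η := by rw [hη]; exact div_pos (by linarith) hl0
  have hη1 : η ≤ 1 / 4 := by
    rw [hη, div_le_div_iff₀ hl0 (by norm_num)]
    linarith
  have hmm : 0 ≤ Real.log m := Real.log_nonneg v1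
  have hmm2 : Real.log m ≤ m := by
    have := Real.log_le_sub_one_of_pos (by linarith : 0 < m)
    linarith
  -- the primes ≤ p1
  have hlp1 : Real.log p1 ≤ l := by
    refine hp1.trans ?_
    rw [div_le_iff₀ (by linarith)]
    apply mul_le_mul_of_nonneg_left _ hl0.le
    linarith
  have hsum1 : ∑ p ∈ (Icc 1 p1).filter Nat.Prime, 1 / (p : ℝ) ≤ m + K1 := by
    by_cases h2 : 2 ≤ p1
    · have h3 := hM 2 p1 le_rfl (by exact_mod_cast h2)
      rw [Nat.floor_natCast, Nat.floor_ofNat, abs_le] at h3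
      have hp12 : (2 : ℝ) ≤ p1 := by exact_mod_cast h2
      have hlp : 0 < Real.log p1 := Real.log_pos (by linarith)
      rw [Real.log_div hlp.ne' hlog2.ne'] at h3
      have h4 : Real.log (Real.log p1) ≤ m := Real.log_le_log hlp hlp1
      have h5 : (Icc 1 p1).filter Nat.Prime = insert 2 ((Ioc 2 p1).filter Nat.Prime) := by
        ext k
        simp only [Finset.mem_filter, Finset.mem_Icc, Finset.mem_insert, Finset.mem_Ioc]
        constructor
        · rintro ⟨⟨_, a2⟩, a3⟩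
          have := a3.two_le
          by_cases h : k = 2
          · exact Or.inl h
          · exact Or.inr ⟨⟨by omega, a2⟩, a3⟩
        · rintro (a | ⟨⟨a1, a2⟩, a3⟩)
          · subst a
            exact ⟨⟨by norm_num, h2⟩, Nat.prime_two⟩
          · exact ⟨⟨by omega, a2⟩, a3⟩
      rw [h5, Finset.sum_insert (by simp)]
      push_cast
      rw [hK1]
      linarith [h3.2]
    · have h3 : (Icc 1 p1).filter Nat.Prime = ∅ := by
        rw [Finset.filter_eq_empty_iff]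
        intro k hk hkp
        rw [Finset.mem_Icc] at hk
        have := hkp.two_le
        omega
      rw [h3, Finset.sum_empty]
      linarith
  have hY : (p1 : ℝ) ^ η ≤ m := by
    rcases Nat.eq_zero_or_pos p1 with h2 | h2
    · rw [h2, Nat.cast_zero, Real.zero_rpow hη0.ne']
      linarith
    · have hp0 : (0 : ℝ) < p1 := by exact_mod_cast h2
      rw [Real.rpow_def_of_pos hp0]
      have h3 : Real.log p1 * η ≤ Real.log m := by
        have h4 := mul_le_mul_of_nonneg_right hp1 hη0.le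
        have h5 : l * Real.log m / (8 * m) * η = Real.log m := by
          rw [hη]
          field_simp
        rw [h5] at h4
        exact h4
      calc Real.exp (Real.log p1 * η) ≤ Real.exp (Real.log m) := Real.exp_le_exp.2 h3
        _ = m := Real.exp_log (by linarith)
  have hmain := Rnk_main η hη0 (by linarith) p1
  have hlog4 : Real.log 4 ≤ 1.4 := by
    have h2 : Real.log 4 = 2 * Real.log 2 := by
      rw [show (4 : ℝ) = 2 ^ 2 by norm_num, Real.log_pow]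
      norm_num
    have := Real.log_two_lt_d9
    rw [h2]
    linarith
  have h4Y : Real.log 4 * (p1 : ℝ) ^ η ≤ 1.4 * m :=
    mul_le_mul hlog4 hY (Real.rpow_nonneg (Nat.cast_nonneg _) _) (by norm_num)
  set σ : ℝ := 1 - η with hσ
  have hσ1 : 3 / 4 ≤ σ := by linarith
  have hsq : ∑ p ∈ (Icc 1 p1).filter Nat.Prime, ((p : ℝ) ^ (-σ)) ^ 2 ≤ S := by
    refine le_trans (Finset.sum_le_sum (g := fun p : ℕ => 1 / (p : ℝ) ^ ((3 : ℝ) / 2))
      fun p hp => (Rnk_half (Finset.mem_filter.1 hp).2 σ hσ1).2) ?_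
    exact hSs.sum_le_tsum _ (fun n _ => by positivity)
  have hnum := Rnk_smooth (insert e (Icc 1 p1)) σ (by linarith) L
    ((Icc 1 L).filter (fun j => ∀ p : ℕ, p.Prime → p ∣ j → p ≤ p1 ∨ p = e)) (by
      intro j hj
      rw [Finset.mem_filter, Finset.mem_Icc] at hj
      refine ⟨hj.1.1, hj.1.2, fun p hp hpj => ?_⟩
      rw [Finset.mem_insert, Finset.mem_Icc]
      rcases hj.2 p hp hpj with h2 | h2
      · exact Or.inr ⟨hp.one_lt.le, h2⟩
      · exact Or.inl h2)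
  have hprod : ∏ p ∈ (insert e (Icc 1 p1)).filter Nat.Prime, (1 - (p : ℝ) ^ (-σ))⁻¹ ≤
      Real.exp (3 * m) := by
    have h2 : ∏ p ∈ (insert e (Icc 1 p1)).filter Nat.Prime, (1 - (p : ℝ) ^ (-σ))⁻¹ ≤
        ∏ p ∈ (insert e (Icc 1 p1)).filter Nat.Prime,
          Real.exp ((p : ℝ) ^ (-σ) + 2 * ((p : ℝ) ^ (-σ)) ^ 2) := by
      apply Finset.prod_le_prod
      · intro p hp
        have h3 := (Rnk_half (Finset.mem_filter.1 hp).2 σ hσ1).1
        exact inv_nonneg.2 (by linarith)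
      · intro p hp
        exact Rnk_fac (Real.rpow_nonneg (Nat.cast_nonneg _) _) (Rnk_half (Finset.mem_filter.1 hp).2 σ hσ1).1
    refine h2.trans ?_
    rw [← Real.exp_sum]
    apply Real.exp_le_exp.2
    have h3 : ∑ p ∈ (insert e (Icc 1 p1)).filter Nat.Prime,
        ((p : ℝ) ^ (-σ) + 2 * ((p : ℝ) ^ (-σ)) ^ 2) ≤
        ∑ p ∈ (Icc 1 p1).filter Nat.Prime, ((p : ℝ) ^ (-σ) + 2 * ((p : ℝ) ^ (-σ)) ^ 2) + 2 := by
      rw [Finset.filter_insert]
      split_ifs with he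
      · have h4 := (Rnk_half he σ hσ1).1
        have h5 : 0 ≤ (e : ℝ) ^ (-σ) := Real.rpow_nonneg (Nat.cast_nonneg _) _
        have h6 : ((e : ℝ) ^ (-σ)) ^ 2 ≤ (3 / 4) ^ 2 := pow_le_pow_left₀ h5 h4 2
        by_cases hm' : e ∈ (Icc 1 p1).filter Nat.Prime
        · rw [Finset.insert_eq_of_mem hm']
          linarith
        · rw [Finset.sum_insert hm']
          norm_num at h6
          linarith
      · linarith
    refine h3.trans ?_
    rw [Finset.sum_add_distrib, ← Finset.mul_sum]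
    linarith
  refine hnum.trans ?_
  have hfin : (L : ℝ) ^ σ * Real.exp (3 * m) = L / l ^ 5 := by
    have h2 : (L : ℝ) ^ σ = L * Real.exp (-(8 * m)) := by
      have h3 : σ = 1 + -η := by rw [hσ]; ring
      rw [h3, Real.rpow_add hLp, Real.rpow_one, Real.rpow_def_of_pos hLp]
      congr 2
      rw [← hl, hη]
      field_simp
    rw [h2, mul_assoc, ← Real.exp_add]
    have h4 : -(8 * m) + 3 * m = -((5 : ℕ) * m) := by push_cast; ring
    rw [h4, Real.exp_neg, Real.exp_nat_mul, hm, Real.exp_log hl0, div_eq_mul_inv]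
  rw [← hfin]
  exact mul_le_mul_of_nonneg_left hprod (Real.rpow_nonneg hLp.le _)

end Pool.Agent.Lib.SG
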