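import Pool.Agent.Lib.SG.SpecB

/-!
MP_9a4459_nt, module Sgf: mean value of a multiplicative function.
-/

namespace Pool.Agent.Lib.SG

open Finset Pool.Agent.Lib.BV

private lemma Sgf_pow (K : ℕ) {x : ℝ} (h0 : 0 ≤ x) (h1 : x ≤ 1) : (1 + x) ^ K ≤ 1 + x * (2 ^ K - 1) := by
  induction K with
  | zero => simp
  | succ K ih =>
    have h2 : (1 : ℝ) ≤ 2 ^ K := one_le_pow₀ (by norm_num)
    have h3 : 0 ≤ x * (2 ^ K - 1) := mul_nonneg h0 (by linarith)
    calc (1 + x) ^ (K + 1) = (1 + x) ^ K * (1 + x) := pow_succ _ _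
      _ ≤ (1 + x * (2 ^ K - 1)) * (1 + x) := mul_le_mul_of_nonneg_right ih (by linarith)
      _ = 1 + x + x * (2 ^ K - 1) + x * (2 ^ K - 1) * x := by ring
      _ ≤ 1 + x + x * (2 ^ K - 1) + x * (2 ^ K - 1) * 1 := by
          have := mul_le_mul_of_nonneg_left h1 h3
          linarith
      _ = 1 + x * (2 ^ (K + 1) - 1) := by ring

theorem tSgf : SgfStmt := by
  classical
  intro K
  set A : ℝ := 2 ^ K with hA
  have hA1 : 1 ≤ A := one_le_pow₀ (by norm_num)
  set S2 : ℝ := ∑' n : ℕ, 1 / (n : ℝ) ^ 2 with hS2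
  have hSs : Summable (fun n : ℕ => 1 / (n : ℝ) ^ 2) := Real.summable_one_div_nat_pow.2 (by norm_num)
  refine ⟨Real.exp (A * S2), Real.exp_pos _, fun N => ?_⟩
  set PN : Finset ℕ := (Icc 1 N).filter Nat.Prime with hPN
  have hPm : ∀ p ∈ PN, p.Prime := fun p hp => (Finset.mem_filter.1 hp).2
  have h1 : ∀ n ∈ Icc 1 N, ∏ p ∈ n.primeFactors, (1 + 1 / (p : ℝ)) ^ K ≤
      ∑ S ∈ PN.powerset, (if ∀ p ∈ S, p ∣ n then ∏ p ∈ S, A / (p : ℝ) else 0) := by
    intro n hn
    rw [Finset.mem_Icc] at hn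
    have e1 : ∏ p ∈ n.primeFactors, (1 + 1 / (p : ℝ)) ^ K ≤ ∏ p ∈ n.primeFactors, (1 + A / (p : ℝ)) := by
      apply Finset.prod_le_prod
      · intro p _
        positivity
      · intro p hp
        have hpp := Nat.prime_of_mem_primeFactors hp
        have hp0 : (1 : ℝ) ≤ p := by exact_mod_cast hpp.one_lt.le
        have hx0 : 0 ≤ 1 / (p : ℝ) := by positivity
        have hx1 : 1 / (p : ℝ) ≤ 1 := by
          rw [div_le_one (by linarith)]
          exact hp0
        refine (Sgf_pow K hx0 hx1).trans ?_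
        have e2 : 1 + 1 / (p : ℝ) * (2 ^ K - 1) = 1 + A / p - 1 / p := by
          rw [hA]
          ring
        rw [e2]
        linarith
    refine e1.trans (le_of_eq ?_)
    rw [Finset.prod_one_add, ← Finset.sum_filter]
    refine Finset.sum_congr ?_ fun _ _ => rfl
    ext S
    rw [Finset.mem_powerset, Finset.mem_filter, Finset.mem_powerset]
    constructor
    · intro h
      constructor
      · intro p hp
        have h2 := h hp
        rw [Nat.mem_primeFactors] at h2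
        rw [hPN, Finset.mem_filter, Finset.mem_Icc]
        exact ⟨⟨h2.1.one_lt.le, (Nat.le_of_dvd (by omega) h2.2.1).trans hn.2⟩, h2.1⟩
      · intro p hp
        have h2 := h hp
        rw [Nat.mem_primeFactors] at h2
        exact h2.2.1
    · rintro ⟨h2, h3⟩ p hp
      rw [Nat.mem_primeFactors]
      exact ⟨hPm p (h2 hp), h3 p hp, by omega⟩
  refine (Finset.sum_le_sum h1).trans ?_
  rw [Finset.sum_comm]
  have h2 : ∀ S ∈ PN.powerset, ∑ n ∈ Icc 1 N, (if ∀ p ∈ S, p ∣ n then ∏ p ∈ S, A / (p : ℝ) else 0) ≤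
      N * ∏ p ∈ S, A / (p : ℝ) ^ 2 := by
    intro S hS
    rw [Finset.mem_powerset] at hS
    rw [← Finset.sum_filter, Finset.sum_const, nsmul_eq_mul]
    have hprod : ∀ p ∈ S, p.Prime := fun p hp => hPm p (hS hp)
    have e1 : (((Icc 1 N).filter (fun n => ∀ p ∈ S, p ∣ n)).card : ℝ) ≤ N / ((∏ p ∈ S, p : ℕ) : ℝ) := by
      have e2 : (Icc 1 N).filter (fun n => ∀ p ∈ S, p ∣ n) ⊆ (Ioc 0 N).filter (fun n => (∏ p ∈ S, p) ∣ n) := by
        intro n hn
        rw [Finset.mem_filter, Finset.mem_Icc] at hn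
        rw [Finset.mem_filter, Finset.mem_Ioc]
        exact ⟨⟨by omega, hn.1.2⟩, Finset.prod_primes_dvd _ (fun p hp => (hprod p hp).prime) hn.2⟩
      have e3 := Finset.card_le_card e2
      rw [Nat.Ioc_filter_dvd_card_eq_div] at e3
      calc (((Icc 1 N).filter (fun n => ∀ p ∈ S, p ∣ n)).card : ℝ) ≤ ((N / (∏ p ∈ S, p) : ℕ) : ℝ) := by
            exact_mod_cast e3
        _ ≤ N / ((∏ p ∈ S, p : ℕ) : ℝ) := Nat.cast_div_le
    have e4 : 0 ≤ ∏ p ∈ S, A / (p : ℝ) := Finset.prod_nonneg fun p _ => by positivity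
    refine (mul_le_mul_of_nonneg_right e1 e4).trans (le_of_eq ?_)
    rw [div_mul_eq_mul_div, mul_div_assoc]
    congr 1
    push_cast
    rw [← Finset.prod_div_distrib]
    refine Finset.prod_congr rfl fun p _ => ?_
    rw [div_div, sq]
  refine (Finset.sum_le_sum h2).trans ?_
  rw [← Finset.mul_sum, ← Finset.prod_one_add, mul_comm]
  apply mul_le_mul_of_nonneg_right _ (Nat.cast_nonneg _)
  calc ∏ p ∈ PN, (1 + A / (p : ℝ) ^ 2) ≤ ∏ p ∈ PN, Real.exp (A / (p : ℝ) ^ 2) := by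
        apply Finset.prod_le_prod
        · intro p _
          positivity
        · intro p _
          have := Real.add_one_le_exp (A / (p : ℝ) ^ 2)
          linarith
    _ = Real.exp (∑ p ∈ PN, A / (p : ℝ) ^ 2) := (Real.exp_sum _ _).symm
    _ ≤ Real.exp (A * S2) := by
        apply Real.exp_le_exp.2
        have e1 : ∑ p ∈ PN, A / (p : ℝ) ^ 2 = A * ∑ p ∈ PN, 1 / (p : ℝ) ^ 2 := by
          rw [Finset.mul_sum]
          refine Finset.sum_congr rfl fun p _ => ?_
          ring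
        rw [e1]
        apply mul_le_mul_of_nonneg_left _ (by linarith)
        exact hSs.sum_le_tsum _ (fun n _ => by positivity)

end Pool.Agent.Lib.SG
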