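import Pool.Agent.Lib.SG.SpecB

/-!
MP_9a4459_nt, module Sgm: square mean of the singular series.
-/

namespace Pool.Agent.Lib.SG

open Finset Pool.Agent.Lib.BV

private lemma Sgm_xyz {x y z : ℝ} (hx : 0 ≤ x) (hy : 0 ≤ y) (hz : 0 ≤ z) :
    x * y * z ≤ x ^ 3 + y ^ 3 + z ^ 3 := by
  set M := max x (max y z) with hM
  have h1 : x ≤ M := le_max_left _ _
  have h2 : y ≤ M := (le_max_left _ _).trans (le_max_right _ _)
  have h3 : z ≤ M := (le_max_right _ _).trans (le_max_right _ _)
  have hM0 : 0 ≤ M := hx.trans h1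
  have h4 : x * y * z ≤ M ^ 3 := by
    calc x * y * z ≤ M * M * M := mul_le_mul (mul_le_mul h1 h2 hy hM0) h3 hz (mul_nonneg hM0 hM0)
      _ = M ^ 3 := by ring
  have hx3 : 0 ≤ x ^ 3 := pow_nonneg hx 3
  have hy3 : 0 ≤ y ^ 3 := pow_nonneg hy 3
  have hz3 : 0 ≤ z ^ 3 := pow_nonneg hz 3
  refine h4.trans ?_
  rcases max_choice x (max y z) with h | h
  · rw [hM, h]
    linarith
  · rcases max_choice y z with h' | h'
    · rw [hM, h, h']
      linarith
    · rw [hM, h, h']
      linarith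

private noncomputable def tt (K n : ℕ) : ℝ := ∏ p ∈ n.primeFactors, (1 + 1 / (p : ℝ)) ^ K

private lemma tt_one (K n : ℕ) : 1 ≤ tt K n := by
  unfold tt
  calc (1 : ℝ) = ∏ _p ∈ n.primeFactors, (1 : ℝ) := by rw [Finset.prod_const_one]
    _ ≤ _ := Finset.prod_le_prod (fun _ _ => zero_le_one) (fun p _ => by
      have : 0 ≤ 1 / (p : ℝ) := by positivity
      exact one_le_pow₀ (by linarith))

private lemma tt_mul (K m n : ℕ) (hm : m ≠ 0) (hn : n ≠ 0) : tt K (m * n) ≤ tt K m * tt K n := by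
  have h1 := tt_one K m
  have h2 := tt_one K n
  unfold tt at *
  rw [Nat.primeFactors_mul hm hn]
  have h3 := Finset.prod_union_inter (s₁ := m.primeFactors) (s₂ := n.primeFactors)
    (f := fun p : ℕ => (1 + 1 / (p : ℝ)) ^ K)
  rw [← h3]
  have h4 : (1 : ℝ) ≤ ∏ p ∈ m.primeFactors ∩ n.primeFactors, (1 + 1 / (p : ℝ)) ^ K := by
    calc (1 : ℝ) = ∏ _p ∈ m.primeFactors ∩ n.primeFactors, (1 : ℝ) := by rw [Finset.prod_const_one]
      _ ≤ _ := Finset.prod_le_prod (fun _ _ => zero_le_one) (fun p _ => by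
        have : 0 ≤ 1 / (p : ℝ) := by positivity
        exact one_le_pow₀ (by linarith))
  have h5 : (0 : ℝ) ≤ ∏ p ∈ m.primeFactors ∪ n.primeFactors, (1 + 1 / (p : ℝ)) ^ K :=
    Finset.prod_nonneg fun p _ => by positivity
  exact le_mul_of_one_le_right h5 h4

theorem tSgm (h : SgfStmt) : SgmStmt := by
  obtain ⟨C, hC, hF⟩ := h 24
  refine ⟨5 * C, by positivity, fun L => ?_⟩
  rcases Nat.eq_zero_or_pos L with hL | hL
  · subst hL
    simp
  have hF' : ∀ N : ℕ, ∑ n ∈ Icc 1 N, tt 24 n ≤ C * N := hF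
  have ht0 : ∀ n, 0 ≤ tt 24 n := fun n => zero_le_one.trans (tt_one 24 n)
  have h1 : ∀ g ∈ Icc 3 L, (Sg g) ^ 2 ≤ tt 24 g + tt 24 (g - 2) + tt 24 (g + 2) := by
    intro g hg
    rw [Finset.mem_Icc] at hg
    have e1 : (Sg g) ^ 2 = tt 8 (g * (g - 2) * (g + 2)) := by
      unfold Sg tt
      rw [← Finset.prod_pow]
      refine Finset.prod_congr rfl fun p _ => ?_
      rw [← pow_mul]
    have e2 : tt 8 (g * (g - 2) * (g + 2)) ≤ tt 8 g * tt 8 (g - 2) * tt 8 (g + 2) := by
      have hg0 : g ≠ 0 := by omega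
      have hg1 : g - 2 ≠ 0 := by omega
      refine (tt_mul 8 (g * (g - 2)) (g + 2) (mul_ne_zero hg0 hg1) (by omega)).trans ?_
      exact mul_le_mul_of_nonneg_right (tt_mul 8 g (g - 2) hg0 hg1) (zero_le_one.trans (tt_one _ _))
    have e3 : ∀ n, (tt 8 n) ^ 3 = tt 24 n := by
      intro n
      unfold tt
      rw [← Finset.prod_pow]
      refine Finset.prod_congr rfl fun p _ => ?_
      rw [← pow_mul]
    have e4 := Sgm_xyz (zero_le_one.trans (tt_one 8 g)) (zero_le_one.trans (tt_one 8 (g - 2)))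
      (zero_le_one.trans (tt_one 8 (g + 2)))
    rw [e3, e3, e3] at e4
    rw [e1]
    exact e2.trans e4
  refine (Finset.sum_le_sum h1).trans ?_
  rw [Finset.sum_add_distrib, Finset.sum_add_distrib]
  have hLR : (1 : ℝ) ≤ L := by exact_mod_cast hL
  have s1 : ∑ g ∈ Icc 3 L, tt 24 g ≤ C * L := by
    refine le_trans ?_ (hF' L)
    apply Finset.sum_le_sum_of_subset_of_nonneg
    · intro g hg
      rw [Finset.mem_Icc] at hg ⊢
      omega
    · intro g _ _
      exact ht0 g
  have s2 : ∑ g ∈ Icc 3 L, tt 24 (g - 2) ≤ C * L := by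
    refine le_trans ?_ (hF' L)
    rw [← Finset.sum_image (s := Icc 3 L) (g := fun g => g - 2) (f := fun n => tt 24 n)]
    · apply Finset.sum_le_sum_of_subset_of_nonneg
      · intro g hg
        rw [Finset.mem_image] at hg
        obtain ⟨a, ha, rfl⟩ := hg
        rw [Finset.mem_Icc] at ha ⊢
        omega
      · intro g _ _
        exact ht0 g
    · intro a ha b hb hab
      simp only [Finset.coe_Icc, Set.mem_Icc] at ha hb
      simp only at hab
      omega
  have s3 : ∑ g ∈ Icc 3 L, tt 24 (g + 2) ≤ C * (3 * L) := by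
    have e1 : ∑ g ∈ Icc 3 L, tt 24 (g + 2) ≤ C * ((L + 2 : ℕ) : ℝ) := by
      refine le_trans ?_ (hF' (L + 2))
      rw [← Finset.sum_image (s := Icc 3 L) (g := fun g => g + 2) (f := fun n => tt 24 n)]
      · apply Finset.sum_le_sum_of_subset_of_nonneg
        · intro g hg
          rw [Finset.mem_image] at hg
          obtain ⟨a, ha, rfl⟩ := hg
          rw [Finset.mem_Icc] at ha ⊢
          omega
        · intro g _ _
          exact ht0 g
      · intro a ha b hb hab
        simp only at hab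
        omega
    refine e1.trans (mul_le_mul_of_nonneg_left ?_ hC.le)
    push_cast
    linarith
  linarith

end Pool.Agent.Lib.SG
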