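import Pool.Agent.Lib.SG.SpecA

namespace Pool.Agent.Lib.SG

open Finset Pool.Agent.Lib.BV

private theorem Sid_sum (n : ℕ) (hn : 0 < n) : ∑ d ∈ n.divisors, Lam2 d = (Real.log n) ^ 2 := by
  have e1 : ∑ d ∈ n.divisors, (∑ w ∈ d.divisorsAntidiagonal, Lam w.1 * Lam w.2) =
      ∑ x ∈ n.divisorsAntidiagonal, Lam x.1 * Real.log x.2 := by
    have h1 : ((ArithmeticFunction.vonMangoldt * ArithmeticFunction.vonMangoldt) *
        (ArithmeticFunction.zeta : ArithmeticFunction ℝ)) n =
        (ArithmeticFunction.vonMangoldt * ArithmeticFunction.log) n := by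
      rw [mul_assoc, ArithmeticFunction.vonMangoldt_mul_zeta]
    rw [ArithmeticFunction.coe_mul_zeta_apply, ArithmeticFunction.mul_apply] at h1
    simp only [ArithmeticFunction.mul_apply, ArithmeticFunction.log_apply] at h1
    exact h1
  have e2 : ∑ d ∈ n.divisors, Lam1 d = ∑ x ∈ n.divisorsAntidiagonal, Lam x.1 * Real.log x.1 := by
    rw [Nat.sum_divisorsAntidiagonal (f := fun a _ => Lam a * Real.log a)]
    rfl
  have e3 : ∑ d ∈ n.divisors, Lam d = Real.log n := ArithmeticFunction.vonMangoldt_sum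
  have e4 : ∑ x ∈ n.divisorsAntidiagonal, Lam x.1 = Real.log n := by
    rw [Nat.sum_divisorsAntidiagonal (f := fun a _ => Lam a), e3]
  calc ∑ d ∈ n.divisors, Lam2 d = ∑ d ∈ n.divisors, Lam1 d +
      ∑ d ∈ n.divisors, (∑ w ∈ d.divisorsAntidiagonal, Lam w.1 * Lam w.2) := by
        rw [← Finset.sum_add_distrib]
        rfl
    _ = ∑ x ∈ n.divisorsAntidiagonal, Lam x.1 * Real.log n := by
        rw [e1, e2, ← Finset.sum_add_distrib]
        refine Finset.sum_congr rfl fun x hx => ?_
        rw [Nat.mem_divisorsAntidiagonal] at hx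
        have h1 : x.1 ≠ 0 := by
          rintro h; rw [h, zero_mul] at hx; omega
        have h2 : x.2 ≠ 0 := by
          rintro h; rw [h, mul_zero] at hx; omega
        have h3 : Real.log n = Real.log x.1 + Real.log x.2 := by
          rw [← Real.log_mul (by exact_mod_cast h1) (by exact_mod_cast h2), ← hx.1]
          push_cast
          rfl
        rw [h3]; ring
    _ = (Real.log n) ^ 2 := by
        rw [← Finset.sum_mul, e4]; ring

theorem tSid : SidStmt := by
  intro n hn
  have h := (ArithmeticFunction.sum_eq_iff_sum_mul_moebius_eq (R := ℝ) (f := Lam2)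
    (g := fun n => (Real.log n) ^ 2)).1 (fun n hn => Sid_sum n hn) n hn
  rw [← h]

end Pool.Agent.Lib.SG
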