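import Pool.Agent.Lib.SG.SpecC

/-!
MP_9a4459_nt, module Smt: the abstract second moment argument.
-/

namespace Pool.Agent.Lib.SG

open Finset Pool.Agent.Lib.BV

private lemma Smt_one (S : Finset ℕ) (μ : ℕ → ℝ) (Nn : ℕ → ℕ) (h M c C2 : ℝ)
    (hM : 0 < M) (hc : 0 < c) (hC2 : 0 < C2) (hμ : ∀ n ∈ S, 0 ≤ μ n) (hh : 1 ≤ h)
    (h1 : c * (h * M) ≤ ∑ n ∈ S, μ n * (Nn n : ℝ))
    (h2 : ∑ n ∈ S, μ n * (Nn n : ℝ) ^ 2 ≤ C2 * ((h + h ^ 2) * M)) :
    c ^ 2 / (2 * C2) * M ≤ ∑ n ∈ S, (if 1 ≤ Nn n then μ n else 0) := by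
  set p : ℝ := ∑ n ∈ S, (if 1 ≤ Nn n then μ n else 0) with hp
  set t : ℝ := 2 * C2 * h / c with ht
  have ht0 : 0 < t := by rw [ht]; positivity
  have e1 : ∀ n ∈ S, μ n * (Nn n : ℝ) ≤
      t / 2 * (if 1 ≤ Nn n then μ n else 0) + μ n * (Nn n : ℝ) ^ 2 / (2 * t) := by
    intro n hn
    have hm := hμ n hn
    split_ifs with hN
    · have e2 : 0 ≤ μ n * ((t - (Nn n : ℝ)) ^ 2 / (2 * t)) := by positivity
      have e3 : μ n * ((t - (Nn n : ℝ)) ^ 2 / (2 * t)) =
          t / 2 * μ n + μ n * (Nn n : ℝ) ^ 2 / (2 * t) - μ n * (Nn n : ℝ) := by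
        field_simp
        ring
      linarith
    · have e2 : Nn n = 0 := by omega
      rw [e2]
      simp
  have e2 := Finset.sum_le_sum e1
  rw [Finset.sum_add_distrib, ← Finset.mul_sum, ← Finset.sum_div, ← hp] at e2
  have e3 : (∑ n ∈ S, μ n * (Nn n : ℝ) ^ 2) / (2 * t) ≤ C2 * ((h + h ^ 2) * M) / (2 * t) :=
    div_le_div_of_nonneg_right h2 (by positivity)
  have e4 : C2 * ((h + h ^ 2) * M) / (2 * t) ≤ c * (h * M) / 2 := by
    rw [div_le_iff₀ (by positivity)]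
    have e5 : c * (h * M) / 2 * (2 * t) = C2 * ((h ^ 2 + h ^ 2) * M) := by
      rw [ht]
      field_simp
      ring
    rw [e5]
    apply mul_le_mul_of_nonneg_left _ hC2.le
    apply mul_le_mul_of_nonneg_right _ hM.le
    have : h ≤ h ^ 2 := by
      rw [sq]
      exact le_mul_of_one_le_right (by linarith) hh
    linarith
  have e5 : c * (h * M) / 2 ≤ t / 2 * p := by linarith
  have e6 : t / 2 * (c ^ 2 / (2 * C2) * M) = c * (h * M) / 2 := by
    rw [ht]
    field_simp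
  have e7 : t / 2 * (c ^ 2 / (2 * C2) * M) ≤ t / 2 * p := by linarith
  exact le_of_mul_le_mul_left e7 (by positivity)

theorem tSmt : SmtStmt := by
  classical
  intro S μ k Nn h M c C2 C5 hM hc hC2 hC5 hμ hsum hi hk
  have hk0 : 0 < (k : ℝ) := by
    by_contra hcon
    have h0 : (k : ℝ) = 0 := le_antisymm (by linarith) (Nat.cast_nonneg _)
    rw [h0, zero_mul] at hk
    have : 0 < 4 * C2 * C5 := by positivity
    linarith
  set B : ℝ := ∑ n ∈ S.filter (fun n => ∃ i < k, ∃ i' < k, i < i' ∧ 1 ≤ Nn i n ∧ 1 ≤ Nn i' n), μ n with hB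
  have h1 : ∀ i ∈ range k, c ^ 2 / (2 * C2) * M ≤ ∑ n ∈ S, (if 1 ≤ Nn i n then μ n else 0) := by
    intro i hi'
    obtain ⟨a1, a2, a3⟩ := hi i (Finset.mem_range.1 hi')
    exact Smt_one S μ (Nn i) (h i) M c C2 hM hc hC2 hμ a1 a2 a3
  have h2 := Finset.sum_le_sum h1
  rw [Finset.sum_const, Finset.card_range, nsmul_eq_mul, Finset.sum_comm] at h2
  have h3 : ∀ n ∈ S, ∑ i ∈ range k, (if 1 ≤ Nn i n then μ n else 0) ≤
      μ n + k * (if ∃ i < k, ∃ i' < k, i < i' ∧ 1 ≤ Nn i n ∧ 1 ≤ Nn i' n then μ n else 0) := by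
    intro n hn
    have hm := hμ n hn
    rw [← Finset.sum_filter, Finset.sum_const, nsmul_eq_mul]
    split_ifs with hb
    · have e1 : (((range k).filter (fun i => 1 ≤ Nn i n)).card : ℝ) ≤ k := by
        have := Finset.card_filter_le (range k) (fun i => 1 ≤ Nn i n)
        rw [Finset.card_range] at this
        exact_mod_cast this
      have := mul_le_mul_of_nonneg_right e1 hm
      linarith
    · have e1 : ((range k).filter (fun i => 1 ≤ Nn i n)).card ≤ 1 := by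
        rw [Finset.card_le_one]
        intro i hi1 i' hi2
        rw [Finset.mem_filter, Finset.mem_range] at hi1 hi2
        by_contra hne
        apply hb
        rcases lt_or_gt_of_ne hne with hlt | hlt
        · exact ⟨i, hi1.1, i', hi2.1, hlt, hi1.2, hi2.2⟩
        · exact ⟨i', hi2.1, i, hi1.1, hlt, hi2.2, hi1.2⟩
      have e2 : (((range k).filter (fun i => 1 ≤ Nn i n)).card : ℝ) ≤ 1 := by exact_mod_cast e1
      have := mul_le_mul_of_nonneg_right e2 hm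
      linarith
  have h4 := Finset.sum_le_sum h3
  rw [Finset.sum_add_distrib, ← Finset.mul_sum, ← Finset.sum_filter, ← hB] at h4
  have h5 : (k : ℝ) * (c ^ 2 / (2 * C2) * M) ≤ C5 * M + k * B := by linarith
  have h6 : C5 ≤ k * (c ^ 2 / (4 * C2)) := by
    have e1 : (k : ℝ) * (c ^ 2 / (4 * C2)) = k * c ^ 2 / (4 * C2) := by ring
    rw [e1, le_div_iff₀ (by positivity)]
    linarith
  have h7 : C5 * M ≤ k * (c ^ 2 / (4 * C2)) * M := mul_le_mul_of_nonneg_right h6 hM.le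
  have h8 : (k : ℝ) * (c ^ 2 / (2 * C2) * M) = k * (c ^ 2 / (4 * C2)) * M + k * (c ^ 2 / (4 * C2) * M) := by
    field_simp
    ring
  have h9 : (k : ℝ) * (c ^ 2 / (4 * C2) * M) ≤ k * B := by linarith
  exact le_of_mul_le_mul_left h9 hk0

end Pool.Agent.Lib.SG
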