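import Pool.Agent.Lib.SG.SpecA

namespace Pool.Agent.Lib.SG

open Finset Pool.Agent.Lib.BV

private lemma Smz_step (t : ℝ) (ht : 0 < t) (N : ℕ) (hN : 1 ≤ N) :
    ((N + 1 : ℕ) : ℝ) ^ (-(1 + t)) ≤
      1 / t * ((N : ℝ) ^ (-t) - ((N + 1 : ℕ) : ℝ) ^ (-t)) := by
  have hN0 : (0 : ℝ) < N := by exact_mod_cast hN
  have hM0 : (0 : ℝ) < ((N + 1 : ℕ) : ℝ) := by positivity
  set M : ℝ := ((N + 1 : ℕ) : ℝ) with hM
  have hMN : M = N + 1 := by rw [hM]; push_cast; rfl
  -- N = M (1 - 1/M)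
  have h1 : Real.log N ≤ Real.log M - 1 / M := by
    have h2 := Real.log_le_sub_one_of_pos (div_pos hN0 hM0)
    rw [Real.log_div hN0.ne' hM0.ne'] at h2
    have h3 : (N : ℝ) / M - 1 = -(1 / M) := by
      rw [hMN]
      field_simp
      ring
    linarith
  have h2 : M ^ (-t) * (1 + t / M) ≤ (N : ℝ) ^ (-t) := by
    rw [Real.rpow_def_of_pos hM0, Real.rpow_def_of_pos hN0]
    have h3 : 1 + t / M ≤ Real.exp (t / M) := by
      have := Real.add_one_le_exp (t / M)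
      linarith
    calc Real.exp (Real.log M * -t) * (1 + t / M) ≤
        Real.exp (Real.log M * -t) * Real.exp (t / M) := by gcongr
      _ = Real.exp (Real.log M * -t + t / M) := by rw [← Real.exp_add]
      _ ≤ Real.exp (Real.log N * -t) := by
        apply Real.exp_le_exp.2
        have h4 : t * Real.log N ≤ t * (Real.log M - 1 / M) := mul_le_mul_of_nonneg_left h1 ht.le
        have h5 : t * (1 / M) = t / M := by ring
        nlinarith
  have h3 : M ^ (-(1 + t)) = M ^ (-t) / M := by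
    rw [show -(1 + t) = -t - 1 by ring, Real.rpow_sub_one hM0.ne']
  rw [h3, div_mul_eq_mul_div, one_mul, le_div_iff₀ ht]
  have h4 : M ^ (-t) / M * t = M ^ (-t) * (t / M) := by ring
  rw [h4]
  linarith

private lemma Smz_zeta (t : ℝ) (ht : 0 < t) (N : ℕ) :
    ∑ n ∈ range N, (n : ℝ) ^ (-(1 + t)) ≤ 1 + 1 / t := by
  have h : ∀ M : ℕ, ∑ n ∈ range (M + 2), (n : ℝ) ^ (-(1 + t)) ≤
      1 + 1 / t - 1 / t * ((M + 1 : ℕ) : ℝ) ^ (-t) := by
    intro M
    induction M with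
    | zero =>
      rw [sum_range_succ, sum_range_succ, sum_range_zero]
      have h0 : ((0 : ℕ) : ℝ) ^ (-(1 + t)) = 0 := by
        rw [Nat.cast_zero, Real.zero_rpow (by linarith)]
      rw [h0]
      simp
    | succ M ih =>
      rw [sum_range_succ]
      have h1 := Smz_step t ht (M + 1) (by omega)
      have h2 : 1 / t * (((M + 1 : ℕ) : ℝ) ^ (-t) - ((M + 1 + 1 : ℕ) : ℝ) ^ (-t)) =
        1 / t * ((M + 1 : ℕ) : ℝ) ^ (-t) - 1 / t * ((M + 1 + 1 : ℕ) : ℝ) ^ (-t) := by ring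
      have h3 : ((M + 2 : ℕ) : ℝ) ^ (-(1 + t)) = ((M + 1 + 1 : ℕ) : ℝ) ^ (-(1 + t)) := rfl
      rw [h3]
      linarith
  have h1 : ∑ n ∈ range N, (n : ℝ) ^ (-(1 + t)) ≤ ∑ n ∈ range (N + 2), (n : ℝ) ^ (-(1 + t)) :=
    sum_le_sum_of_subset_of_nonneg (range_subset_range.2 (by omega)) fun n _ _ => by positivity
  have h2 := h N
  have h3 : 0 ≤ 1 / t * ((N + 1 : ℕ) : ℝ) ^ (-t) := by positivity
  linarith

private lemma Smz_term (k : ℕ) (s : ℝ) (hs : 0 < s) (n : ℕ) :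
    (1 + Real.log n) ^ k * (n : ℝ) ^ (-(1 + s)) ≤
      ((k.factorial : ℝ) * (2 / s) ^ k * Real.exp (s / 2)) * (n : ℝ) ^ (-(1 + s / 2)) := by
  rcases Nat.eq_zero_or_pos n with rfl | hn
  · rw [Nat.cast_zero, Real.zero_rpow (by linarith), Real.zero_rpow (by linarith)]
    simp
  have hn0 : (0 : ℝ) < n := by exact_mod_cast hn
  have hl : 0 ≤ Real.log (n : ℝ) := Real.log_natCast_nonneg n
  have h1 := Real.pow_div_factorial_le_exp (s / 2 * (1 + Real.log n)) (by positivity) k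
  rw [div_le_iff₀ (by positivity)] at h1
  have h2 : Real.exp (s / 2 * (1 + Real.log n)) = Real.exp (s / 2) * (n : ℝ) ^ (s / 2) := by
    rw [Real.rpow_def_of_pos hn0, ← Real.exp_add]
    congr 1
    ring
  rw [h2] at h1
  have h3 : (1 + Real.log n) ^ k = (2 / s) ^ k * (s / 2 * (1 + Real.log n)) ^ k := by
    rw [← mul_pow]
    congr 1
    field_simp
  have h4 : (n : ℝ) ^ (-(1 + s / 2)) = (n : ℝ) ^ (s / 2) * (n : ℝ) ^ (-(1 + s)) := by
    rw [← Real.rpow_add hn0]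
    congr 1
    ring
  rw [h3, h4]
  calc (2 / s) ^ k * (s / 2 * (1 + Real.log n)) ^ k * (n : ℝ) ^ (-(1 + s)) ≤
      (2 / s) ^ k * (Real.exp (s / 2) * (n : ℝ) ^ (s / 2) * k.factorial) *
        (n : ℝ) ^ (-(1 + s)) := by gcongr
    _ = _ := by ring

theorem tSmz : SmzStmt := by
  intro k
  have hsum : ∀ s : ℝ, 0 < s →
      Summable (fun n : ℕ => (1 + Real.log n) ^ k * (n : ℝ) ^ (-(1 + s))) := by
    intro s hs
    refine Summable.of_nonneg_of_le (fun n => ?_) (fun n => Smz_term k s hs n) ?_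
    · have hl : 0 ≤ Real.log (n : ℝ) := Real.log_natCast_nonneg n
      positivity
    · exact (Real.summable_nat_rpow.2 (by linarith)).mul_left _
  refine ⟨6 * (k.factorial * 2 ^ k), by positivity, hsum, fun s hs hs1 => ?_⟩
  have hinv : 1 ≤ s⁻¹ := (one_le_inv₀ hs).2 hs1
  have h1 : ∑' n : ℕ, (1 + Real.log n) ^ k * (n : ℝ) ^ (-(1 + s)) ≤
      ∑' n : ℕ, ((k.factorial : ℝ) * (2 / s) ^ k * Real.exp (s / 2)) *
        (n : ℝ) ^ (-(1 + s / 2)) :=
    (hsum s hs).tsum_le_tsum (fun n => Smz_term k s hs n)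
      ((Real.summable_nat_rpow.2 (by linarith)).mul_left _)
  rw [tsum_mul_left] at h1
  have h2 : ∑' n : ℕ, (n : ℝ) ^ (-(1 + s / 2)) ≤ 1 + 1 / (s / 2) :=
    Real.tsum_le_of_sum_range_le (fun n => by positivity)
      fun N => Smz_zeta (s / 2) (by positivity) N
  have h3 : 1 + 1 / (s / 2) ≤ 3 * s⁻¹ := by
    have : 1 / (s / 2) = 2 * s⁻¹ := by field_simp
    linarith
  have h4 : Real.exp (s / 2) ≤ 2 := by
    have h5 : Real.exp (s / 2) ≤ Real.exp (1 / 2) := Real.exp_le_exp.2 (by linarith)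
    have h6 : Real.exp (1 / 2) ^ 2 = Real.exp 1 := by
      rw [← Real.exp_nat_mul]
      norm_num
    have h7 := Real.exp_one_lt_d9
    have h8 : Real.exp (1 / 2) ≤ 2 := by
      by_contra hcon
      push Not at hcon
      nlinarith
    linarith
  calc _ ≤ ((k.factorial : ℝ) * (2 / s) ^ k * Real.exp (s / 2)) *
        ∑' n : ℕ, (n : ℝ) ^ (-(1 + s / 2)) := h1
    _ ≤ ((k.factorial : ℝ) * (2 / s) ^ k * 2) * (3 * s⁻¹) := by
        gcongr
        exact h2.trans h3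
    _ = _ := by
        rw [div_pow, inv_eq_one_div, one_div_pow, pow_succ]
        field_simp
        ring

end Pool.Agent.Lib.SG
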