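import Pool.Agent.Lib.SG.SpecA

/-!
MP_9a4459_nt, directory Lib/SG, module Swl (helper71).
-/

namespace Pool.Agent.Lib.SG

open Finset Pool.Agent.Lib.BV

/-- sum of χ over the primes up to n -/
private noncomputable def Swl_T {r : ℕ} (χ : DirichletCharacter ℂ r) (n : ℕ) : ℂ :=
  ∑ p ∈ (Icc 1 n).filter Nat.Prime, χ (p : ZMod r)

private noncomputable def Swl_F (s : ℝ) (n : ℕ) : ℝ := (n : ℝ) ^ (-(1 + s))

private theorem Swl_Tsucc {r : ℕ} (χ : DirichletCharacter ℂ r) (n : ℕ) :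
    Swl_T χ (n + 1) = Swl_T χ n + if (n + 1).Prime then χ ((n + 1 : ℕ) : ZMod r) else 0 := by
  unfold Swl_T
  rw [sum_filter, sum_Icc_succ_top (by omega), sum_filter]

private theorem Swl_abel {r : ℕ} (χ : DirichletCharacter ℂ r) (s : ℝ) (D : ℕ) :
    ∀ N : ℕ, D ≤ N →
      ∑ n ∈ Ioc D N, (if n.Prime then χ (n : ZMod r) else 0) * (Swl_F s n : ℂ) =
        Swl_T χ N * (Swl_F s N : ℂ) - Swl_T χ D * (Swl_F s D : ℂ) +
          ∑ n ∈ Ico D N, Swl_T χ n * ((Swl_F s n - Swl_F s (n + 1) : ℝ) : ℂ) := by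
  intro N hN
  induction N, hN using Nat.le_induction with
  | base => simp
  | succ N hN ih =>
    rw [sum_Ioc_succ_top hN, sum_Ico_succ_top hN, ih, Swl_Tsucc]
    push_cast
    ring

private theorem Swl_F0 (s : ℝ) (n : ℕ) : 0 ≤ Swl_F s n :=
  Real.rpow_nonneg (Nat.cast_nonneg n) _

private theorem Swl_F1 {s : ℝ} (hs : 0 < s) {n : ℕ} (hn : 1 ≤ n) : Swl_F s n ≤ 1 / n := by
  unfold Swl_F
  have h1 : (1 : ℝ) ≤ n := by exact_mod_cast hn
  rw [one_div, ← Real.rpow_neg_one]
  exact Real.rpow_le_rpow_of_exponent_le h1 (by linarith)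

private theorem Swl_F2 {s : ℝ} (hs : 0 < s) (hs1 : s ≤ 1) {n : ℕ} (hn : 1 ≤ n) :
    0 ≤ Swl_F s n - Swl_F s (n + 1) ∧ Swl_F s n - Swl_F s (n + 1) ≤ 2 / (n : ℝ) ^ 2 := by
  have h1 : (1 : ℝ) ≤ n := by exact_mod_cast hn
  have h0 : (0 : ℝ) < n := by linarith
  have hF := Swl_F1 hs hn
  have hF0 := Swl_F0 s n
  obtain ⟨y, hyd⟩ : ∃ y : ℝ, y = (((n : ℝ) + 1) / n) ^ (-(1 + s)) := ⟨_, rfl⟩
  have e : Swl_F s (n + 1) = Swl_F s n * y := by
    rw [hyd]
    unfold Swl_F
    rw [← Real.mul_rpow (by positivity) (by positivity)]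
    congr 1
    push_cast
    field_simp
  have hy : (1 : ℝ) ≤ ((n : ℝ) + 1) / n := by
    rw [le_div_iff₀ h0]
    linarith
  have h2 : y ≤ 1 := by
    rw [hyd]
    exact Real.rpow_le_one_of_one_le_of_nonpos hy (by linarith)
  have h3 : (((n : ℝ) + 1) / n) ^ (-(2 : ℝ)) ≤ y := by
    rw [hyd]
    exact Real.rpow_le_rpow_of_exponent_le hy (by linarith)
  have h4 : (((n : ℝ) + 1) / n) ^ (-(2 : ℝ)) = (n : ℝ) ^ 2 / ((n : ℝ) + 1) ^ 2 := by
    rw [Real.rpow_neg (by positivity), Real.rpow_two, div_pow, inv_div]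
  have h5 : 1 - 2 / (n : ℝ) ≤ (n : ℝ) ^ 2 / ((n : ℝ) + 1) ^ 2 := by
    rw [le_div_iff₀ (by positivity), sub_mul, div_mul_eq_mul_div, sub_le_iff_le_add, one_mul,
      ← sub_le_iff_le_add', le_div_iff₀ h0]
    nlinarith
  rw [h4] at h3
  rw [e]
  constructor
  · nlinarith
  · have h6 : 1 - y ≤ 2 / n := by linarith
    calc Swl_F s n - Swl_F s n * y = Swl_F s n * (1 - y) := by ring
      _ ≤ (1 / n) * (2 / n) := mul_le_mul hF h6 (by linarith) (by positivity)
      _ = 2 / (n : ℝ) ^ 2 := by field_simp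

/-- telescoping -/
private theorem Swl_tel {D : ℕ} (hD : 3 ≤ D) : ∀ N : ℕ, D ≤ N →
    ∑ n ∈ Ico D N, 1 / ((n : ℝ) * (Real.log n) ^ 2) ≤ 4 * (1 / Real.log D - 1 / Real.log N) := by
  intro N hN
  induction N, hN using Nat.le_induction with
  | base => simp
  | succ N hN ih =>
    rw [sum_Ico_succ_top hN]
    have h3 : (3 : ℝ) ≤ N := by exact_mod_cast hD.trans hN
    have hp : (0 : ℝ) < N := by linarith
    have hlog : 0 < Real.log N := Real.log_pos (by linarith)
    have hlog1 : 0 < Real.log ((N : ℝ) + 1) := Real.log_pos (by linarith)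
    have e1 : 1 / ((N : ℝ) + 1) ≤ Real.log ((N : ℝ) + 1) - Real.log N := by
      have := Real.one_sub_inv_le_log_of_pos (x := ((N : ℝ) + 1) / N) (by positivity)
      rw [Real.log_div (by positivity) (by positivity), inv_div] at this
      have h4 : 1 - (N : ℝ) / ((N : ℝ) + 1) = 1 / ((N : ℝ) + 1) := by field_simp; ring
      rwa [h4] at this
    have e2 : Real.log ((N : ℝ) + 1) ≤ 2 * Real.log N := by
      have : Real.log ((N : ℝ) + 1) ≤ Real.log ((N : ℝ) ^ 2) :=
        Real.log_le_log (by positivity) (by nlinarith)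
      rwa [Real.log_pow, Nat.cast_ofNat] at this
    have e3 : 1 / ((N : ℝ) * (Real.log N) ^ 2) ≤
        4 * (1 / Real.log N - 1 / Real.log ((N : ℝ) + 1)) := by
      have e4 : 1 / Real.log N - 1 / Real.log ((N : ℝ) + 1) =
          (Real.log ((N : ℝ) + 1) - Real.log N) / (Real.log N * Real.log ((N : ℝ) + 1)) := by
        field_simp
      have e5 : 1 / (4 * ((N : ℝ) * (Real.log N) ^ 2)) ≤
          (Real.log ((N : ℝ) + 1) - Real.log N) / (Real.log N * Real.log ((N : ℝ) + 1)) := by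
        calc 1 / (4 * ((N : ℝ) * (Real.log N) ^ 2))
            ≤ 1 / (((N : ℝ) + 1) * (Real.log N * (2 * Real.log N))) := by
              apply one_div_le_one_div_of_le (by positivity)
              have : 0 < Real.log N * Real.log N := by positivity
              nlinarith
          _ = (1 / ((N : ℝ) + 1)) / (Real.log N * (2 * Real.log N)) := by
              rw [div_div]
          _ ≤ _ := by
              have e7 : 0 ≤ Real.log ((N : ℝ) + 1) - Real.log N := le_trans (by positivity) e1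
              gcongr
      rw [e4]
      have e6 : 1 / ((N : ℝ) * (Real.log N) ^ 2) = 4 * (1 / (4 * ((N : ℝ) * (Real.log N) ^ 2))) := by
        field_simp
      rw [e6]
      linarith
    push_cast
    linarith

/-- the estimate of one term -/
private theorem Swl_log {w : ℂ} (hw : ‖w‖ ≤ 1 / 2) : ‖-Complex.log (1 - w) - w‖ ≤ ‖w‖ ^ 2 := by
  have h1 := Complex.norm_log_one_add_sub_self_le (z := -w) (by rw [norm_neg]; linarith)
  rw [norm_neg] at h1
  have e : ‖-Complex.log (1 - w) - w‖ = ‖Complex.log (1 + -w) - -w‖ := by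
    rw [← norm_neg]
    congr 1
    rw [← sub_eq_add_neg]
    ring
  rw [e]
  refine h1.trans ?_
  have h2 : (1 - ‖w‖)⁻¹ ≤ 2 := by
    rw [inv_le_comm₀ (by linarith) (by norm_num)]
    linarith
  have h3 : 0 ≤ ‖w‖ ^ 2 := by positivity
  nlinarith

/-- the sum over the primes in (D, N] -/
private theorem Swl_prime {r : ℕ} (χ : DirichletCharacter ℂ r) {C : ℝ} {D : ℕ}
    {s : ℝ} (hs : 0 < s) (hs1 : s ≤ 1) (hD3 : 3 ≤ D) (hlog : 1 ≤ Real.log D) (hC : 0 < C)
    (hT : ∀ n : ℕ, D ≤ n → ‖Swl_T χ n‖ ≤ C * ((n : ℝ) / (Real.log n) ^ 2)) (N : ℕ) (hN : D ≤ N) :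
    ‖∑ n ∈ Ioc D N, (if n.Prime then χ (n : ZMod r) else 0) * (Swl_F s n : ℂ)‖ ≤
      10 * C / Real.log D := by
  have hmono : ∀ n : ℕ, D ≤ n → Real.log D ≤ Real.log n := by
    intro n hn
    apply Real.log_le_log (by exact_mod_cast (by omega : 0 < D))
    exact_mod_cast hn
  have hend : ∀ n : ℕ, D ≤ n → ‖Swl_T χ n * (Swl_F s n : ℂ)‖ ≤ C / Real.log D := by
    intro n hn
    have hn0 : (0 : ℝ) < n := by exact_mod_cast (by omega : 0 < n)
    have hl := hmono n hn
    rw [norm_mul, Complex.norm_real, Real.norm_of_nonneg (Swl_F0 s n)]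
    calc ‖Swl_T χ n‖ * Swl_F s n ≤ C * ((n : ℝ) / (Real.log n) ^ 2) * (1 / n) :=
          mul_le_mul (hT n hn) (Swl_F1 hs (by omega)) (Swl_F0 s n) (by positivity)
      _ = C / (Real.log n) ^ 2 := by field_simp
      _ ≤ C / Real.log D := by
          apply div_le_div_of_nonneg_left hC.le (by linarith)
          nlinarith
  rw [Swl_abel χ s D N hN]
  have h1 : ‖∑ n ∈ Ico D N, Swl_T χ n * ((Swl_F s n - Swl_F s (n + 1) : ℝ) : ℂ)‖ ≤
      8 * C / Real.log D := by
    refine (norm_sum_le _ _).trans ?_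
    calc ∑ n ∈ Ico D N, ‖Swl_T χ n * ((Swl_F s n - Swl_F s (n + 1) : ℝ) : ℂ)‖
        ≤ ∑ n ∈ Ico D N, 2 * C * (1 / ((n : ℝ) * (Real.log n) ^ 2)) := by
          refine sum_le_sum fun n hn => ?_
          rw [mem_Ico] at hn
          have hn0 : (0 : ℝ) < n := by exact_mod_cast (by omega : 0 < n)
          have hl := hmono n hn.1
          have hlp : 0 < Real.log n := by linarith
          obtain ⟨f1, f2⟩ := Swl_F2 hs hs1 (n := n) (by omega)
          rw [norm_mul, Complex.norm_real, Real.norm_of_nonneg f1]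
          calc ‖Swl_T χ n‖ * (Swl_F s n - Swl_F s (n + 1))
              ≤ C * ((n : ℝ) / (Real.log n) ^ 2) * (2 / (n : ℝ) ^ 2) :=
                mul_le_mul (hT n hn.1) f2 f1 (by positivity)
            _ = 2 * C * (1 / ((n : ℝ) * (Real.log n) ^ 2)) := by field_simp
      _ = 2 * C * ∑ n ∈ Ico D N, 1 / ((n : ℝ) * (Real.log n) ^ 2) := by rw [mul_sum]
      _ ≤ 2 * C * (4 * (1 / Real.log D - 1 / Real.log N)) := by
          exact mul_le_mul_of_nonneg_left (Swl_tel hD3 N hN) (by positivity)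
      _ ≤ 8 * C / Real.log D := by
          have : 0 ≤ 1 / Real.log N := by
            have := hmono N hN
            positivity
          have e : 8 * C / Real.log D = 2 * C * (4 * (1 / Real.log D)) := by ring
          rw [e]
          have : 0 < C := hC
          gcongr
          linarith
  have h2 := hend N hN
  have h3 := hend D le_rfl
  have h4 : 10 * C / Real.log D = C / Real.log D + C / Real.log D + 8 * C / Real.log D := by ring
  rw [h4]
  exact (norm_add_le _ _).trans (add_le_add ((norm_sub_le _ _).trans (add_le_add h2 h3)) h1)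

theorem tSwl (_hSmz : SmzStmt) (hSw : SwStmt) (hLch : LchStmt) : SwlStmt := by
  obtain ⟨C, hC, hsw⟩ := hSw 2 2 (by norm_num) (by norm_num)
  refine ⟨Real.exp (20 * C + 2), ?_, ?_⟩
  · have h1 : (20 * C + 2) + 1 ≤ Real.exp (20 * C + 2) := Real.add_one_le_exp _
    linarith
  intro r _ D χ s hD hr hrD hprim hs hs1
  have hDp : (0 : ℝ) < D := (Real.exp_pos _).trans_le hD
  have hlog : 20 * C + 2 ≤ Real.log D := by
    rw [Real.le_log_iff_exp_le hDp]
    exact hD
  have hlog1 : 1 ≤ Real.log D := by linarith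
  have hD3 : 3 ≤ D := by
    have h1 : (20 * C + 2) + 1 ≤ Real.exp (20 * C + 2) := Real.add_one_le_exp _
    have h2 : (3 : ℝ) ≤ D := by linarith
    exact_mod_cast h2
  have hT : ∀ n : ℕ, D ≤ n → ‖Swl_T χ n‖ ≤ C * ((n : ℝ) / (Real.log n) ^ 2) := by
    intro n hn
    have hn3 : (3 : ℝ) ≤ n := by exact_mod_cast hD3.trans hn
    have hl : Real.log D ≤ Real.log n := by
      apply Real.log_le_log hDp
      exact_mod_cast hn
    have h1 := hsw n r χ hn3 hr (by
      rw [Real.rpow_two]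
      exact hrD.trans (pow_le_pow_left₀ (by linarith) hl 2)) hprim
    rw [Real.rpow_two, Nat.floor_natCast] at h1
    exact h1
  obtain ⟨M, hM, Φ, h1, h2⟩ := hLch r D
  have hre : 1 < (1 + (s : ℂ)).re := by
    simp only [Complex.add_re, Complex.one_re, Complex.ofReal_re]
    linarith
  rw [h2 χ s hs]
  have h3 := DirichletCharacter.LSeries_eulerProduct_exp_log (Φ χ) hre
  have h4 := DirichletCharacter.summable_neg_log_one_sub_mul_prime_cpow (Φ χ) hre
  rw [← h3, Complex.norm_exp]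
  -- the series over the natural numbers
  obtain ⟨G, hG⟩ : ∃ G : ℕ → ℂ, G = fun n : ℕ =>
      -Complex.log (1 - Φ χ (n : ZMod M) * (n : ℂ) ^ (-(1 + (s : ℂ)))) := ⟨_, rfl⟩
  obtain ⟨Z, hZ⟩ : ∃ Z : ℂ, Z = ∑' p : Nat.Primes,
      -Complex.log (1 - Φ χ ((p : ℕ) : ZMod M) * ((p : ℕ) : ℂ) ^ (-(1 + (s : ℂ)))) := ⟨_, rfl⟩
  rw [← hZ]
  have h5 : HasSum (fun n : ℕ => if n.Prime then G n else 0) Z := by
    have h6 := h4.hasSum
    rw [← hZ] at h6
    have h7 : HasSum (G ∘ ((↑) : {p : ℕ | p.Prime} → ℕ)) Z := by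
      rw [hG]
      exact h6
    rw [hasSum_subtype_iff_indicator] at h7
    have h8 : {p : ℕ | p.Prime}.indicator G = fun n : ℕ => if n.Prime then G n else 0 := by
      ext n
      rw [Set.indicator_apply]
      rfl
    rwa [h8] at h7
  have hcp : ∀ n : ℕ, (n : ℂ) ^ (-(1 + (s : ℂ))) = (Swl_F s n : ℂ) := by
    intro n
    unfold Swl_F
    rw [Complex.ofReal_cpow (Nat.cast_nonneg n)]
    push_cast
    rfl
  have hsmall : ∀ n : ℕ, n.Prime → n ≤ D → G n = 0 := by
    intro n hn hnD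
    have hrr : rr D n = 0 := by
      unfold rr
      rw [if_neg]
      intro h
      have := h n hn dvd_rfl
      omega
    rw [hG]
    simp only
    rw [h1 χ n hn.one_lt.le, hrr, Complex.ofReal_zero, mul_zero, zero_mul, sub_zero,
      Complex.log_one, neg_zero]
  have hbig : ∀ n : ℕ, n.Prime → D < n →
      ‖G n - χ (n : ZMod r) * (Swl_F s n : ℂ)‖ ≤ ((n : ℝ) ^ 2)⁻¹ := by
    intro n hn hnD
    have hrr : rr D n = 1 := by
      unfold rr
      rw [if_pos]
      intro p hp hpn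
      rw [(Nat.prime_dvd_prime_iff_eq hp hn).1 hpn]
      exact hnD
    have e1 : G n = -Complex.log (1 - χ (n : ZMod r) * (Swl_F s n : ℂ)) := by
      rw [hG]
      simp only
      rw [h1 χ n hn.one_lt.le, hrr, Complex.ofReal_one, mul_one, hcp]
    have hn0 : (0 : ℝ) < n := by exact_mod_cast hn.pos
    have e2 : ‖χ (n : ZMod r) * (Swl_F s n : ℂ)‖ ≤ 1 / n := by
      rw [norm_mul, Complex.norm_real, Real.norm_of_nonneg (Swl_F0 s n)]
      calc ‖χ (n : ZMod r)‖ * Swl_F s n ≤ 1 * Swl_F s n :=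
            mul_le_mul_of_nonneg_right (DirichletCharacter.norm_le_one χ _) (Swl_F0 s n)
        _ ≤ 1 / n := by rw [one_mul]; exact Swl_F1 hs hn.one_lt.le
    have e3 : (1 : ℝ) / n ≤ 1 / 2 := by
      apply one_div_le_one_div_of_le (by norm_num)
      exact_mod_cast hn.two_le
    rw [e1]
    refine (Swl_log (e2.trans e3)).trans ?_
    calc ‖χ (n : ZMod r) * (Swl_F s n : ℂ)‖ ^ 2 ≤ (1 / (n : ℝ)) ^ 2 :=
          pow_le_pow_left₀ (norm_nonneg _) e2 2
      _ = ((n : ℝ) ^ 2)⁻¹ := by rw [one_div, inv_pow]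
  -- partial sums
  have hpart : ∀ N : ℕ, D ≤ N →
      ‖∑ n ∈ range (N + 1), (if n.Prime then G n else 0)‖ ≤ 1 / 2 := by
    intro N hN
    have e1 : ∑ n ∈ range (N + 1), (if n.Prime then G n else 0) =
        ∑ n ∈ Ioc D N, (if n.Prime then G n else 0) := by
      symm
      apply sum_subset
      · intro n hn
        rw [mem_Ioc] at hn
        rw [mem_range]
        omega
      · intro n hn hn'
        rw [mem_range] at hn
        rw [mem_Ioc] at hn'
        split_ifs with hp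
        · exact hsmall n hp (by omega)
        · rfl
    have e2 : ∑ n ∈ Ioc D N, (if n.Prime then G n else 0) =
        ∑ n ∈ Ioc D N, (if n.Prime then χ (n : ZMod r) else 0) * (Swl_F s n : ℂ) +
        ∑ n ∈ Ioc D N, (if n.Prime then G n - χ (n : ZMod r) * (Swl_F s n : ℂ) else 0) := by
      rw [← sum_add_distrib]
      refine sum_congr rfl fun n _ => ?_
      split_ifs <;> ring
    have e3 : ‖∑ n ∈ Ioc D N, (if n.Prime then G n - χ (n : ZMod r) * (Swl_F s n : ℂ) else 0)‖ ≤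
        1 / Real.log D := by
      refine (norm_sum_le _ _).trans ?_
      calc ∑ n ∈ Ioc D N, ‖if n.Prime then G n - χ (n : ZMod r) * (Swl_F s n : ℂ) else 0‖
          ≤ ∑ n ∈ Ioc D N, ((n : ℝ) ^ 2)⁻¹ := by
            refine sum_le_sum fun n hn => ?_
            rw [mem_Ioc] at hn
            split_ifs with hp
            · exact hbig n hp hn.1
            · rw [norm_zero]
              positivity
        _ ≤ (D : ℝ)⁻¹ - (N : ℝ)⁻¹ := sum_Ioc_inv_sq_le_sub (by omega) hN
        _ ≤ (D : ℝ)⁻¹ := by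
            have : (0 : ℝ) ≤ (N : ℝ)⁻¹ := by positivity
            linarith
        _ ≤ 1 / Real.log D := by
            rw [← one_div]
            apply one_div_le_one_div_of_le (by linarith)
            exact (Real.log_le_self hDp.le)
    have e4 := Swl_prime χ hs hs1 hD3 hlog1 hC hT N hN
    rw [e1, e2]
    refine (norm_add_le _ _).trans ((add_le_add e4 e3).trans ?_)
    rw [← add_div, div_le_iff₀ (by linarith)]
    linarith
  have hlim := h5.tendsto_sum_nat
  have hlim' := (Filter.tendsto_add_atTop_iff_nat 1).2 hlim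
  have hnorm : ‖Z‖ ≤ 1 / 2 :=
    le_of_tendsto hlim'.norm (Filter.eventually_atTop.2 ⟨D, fun N hN => hpart N hN⟩)
  have hre2 : -(1 / 2) ≤ Z.re := by
    have := (Complex.abs_re_le_norm Z).trans hnorm
    exact (abs_le.1 this).1
  have h9 := Real.add_one_le_exp Z.re
  linarith

end Pool.Agent.Lib.SG
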