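import Pool.Agent.Lib.SG.SpecA

/-!
MP_9a4459_nt, directory Lib/SG, module Tfo (helper71).
-/

namespace Pool.Agent.Lib.SG

open Finset Pool.Agent.Lib.BV

theorem tTfo (hLch : LchStmt) : TfoStmt := by
  intro q _ χ D s hs
  obtain ⟨M, hM, Φ, h1, h2⟩ := hLch q D
  have h3 := DirichletCharacter.norm_LSeries_product_ge_one (Φ χ) hs 0
  rw [h2 1 s hs, h2 χ s hs, h2 (χ ^ 2) s hs, map_one, map_pow]
  rw [norm_mul, norm_mul, norm_pow, norm_pow] at h3
  simpa using h3

end Pool.Agent.Lib.SG
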