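import Pool.Agent.Lib.SG.SpecB
import Pool.Agent.Lib.SG.Sv2

/-!
MP_9a4459_nt, module Vbd: the size of the Mertens product VV p0 p1.
-/

namespace Pool.Agent.Lib.SG

open Finset Pool.Agent.Lib.BV

private lemma Vbd_fac {t : ℝ} (h0 : 0 ≤ t) (h1 : t ≤ 1 / 2) : Real.exp (-(t + t ^ 2)) ≤ 1 - t := by
  rw [Real.exp_neg, inv_le_iff_one_le_mul₀ (Real.exp_pos _)]
  have hy : 0 ≤ t + t ^ 2 := by positivity
  have h2 := Real.quadratic_le_exp_of_nonneg hy
  have h3 : t ^ 3 ≤ (1 / 2) ^ 3 := pow_le_pow_left₀ h0 h1 3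
  have h3' : t ^ 2 ≤ (1 / 2) ^ 2 := pow_le_pow_left₀ h0 h1 2
  have h4 : 0 ≤ t ^ 2 * ((1 - t - t ^ 2 - t ^ 3) / 2) :=
    mul_nonneg (sq_nonneg _) (by norm_num at h3 h3'; linarith)
  calc (1 : ℝ) ≤ (1 - t) * (1 + (t + t ^ 2) + (t + t ^ 2) ^ 2 / 2) := by
        have h5 : (1 - t) * (1 + (t + t ^ 2) + (t + t ^ 2) ^ 2 / 2) =
          1 + t ^ 2 * ((1 - t - t ^ 2 - t ^ 3) / 2) := by ring
        rw [h5]
        linarith
    _ ≤ (1 - t) * Real.exp (t + t ^ 2) := mul_le_mul_of_nonneg_left h2 (by linarith)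

theorem tVbd (h : MrtStmt) : VbdStmt := by
  obtain ⟨C, hC, hM⟩ := h
  have hlog2 : 0 < Real.log 2 := Real.log_pos (by norm_num)
  set S2 : ℝ := ∑' n : ℕ, 1 / (n : ℝ) ^ 2 with hS2
  have hSs : Summable (fun n : ℕ => 1 / (n : ℝ) ^ 2) := Real.summable_one_div_nat_pow.2 (by norm_num)
  refine ⟨Real.exp (-(C / Real.log 2) - S2), Real.exp (C / Real.log 2), Real.exp_pos _, Real.exp_pos _, ?_⟩
  intro p0 p1 h0 h01
  have h0R : (2 : ℝ) ≤ p0 := by exact_mod_cast h0
  have h01R : (p0 : ℝ) ≤ p1 := by exact_mod_cast h01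
  have hl0 : 0 < Real.log p0 := Real.log_pos (by linarith)
  have hl1 : 0 < Real.log p1 := Real.log_pos (by linarith)
  have h1 := hM p0 p1 h0R h01R
  rw [Nat.floor_natCast, Nat.floor_natCast] at h1
  set S : ℝ := ∑ p ∈ (Ioc p0 p1).filter Nat.Prime, 1 / (p : ℝ) with hS
  have h2 : C / Real.log p0 ≤ C / Real.log 2 :=
    div_le_div_of_nonneg_left hC.le hlog2 (Real.log_le_log (by norm_num) h0R)
  rw [abs_le] at h1
  have hexp : Real.exp (Real.log (Real.log p0 / Real.log p1)) = Real.log p0 / Real.log p1 :=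
    Real.exp_log (by positivity)
  have hinv : Real.log (Real.log p0 / Real.log p1) = -Real.log (Real.log p1 / Real.log p0) := by
    rw [← Real.log_inv, inv_div]
  have hp : ∀ p ∈ (Ioc p0 p1).filter Nat.Prime, 0 ≤ 1 / (p : ℝ) ∧ 1 / (p : ℝ) ≤ 1 / 2 := by
    intro p hp
    rw [Finset.mem_filter, Finset.mem_Ioc] at hp
    have h1 : (2 : ℝ) ≤ p := by exact_mod_cast hp.2.two_le
    exact ⟨by positivity, one_div_le_one_div_of_le (by norm_num) h1⟩
  constructor
  · have h3 : Real.exp (-S - S2) ≤ VV p0 p1 := by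
      unfold VV
      calc Real.exp (-S - S2) ≤ Real.exp (∑ p ∈ (Ioc p0 p1).filter Nat.Prime,
            (-(1 / (p : ℝ) + (1 / (p : ℝ)) ^ 2))) := by
            apply Real.exp_le_exp.2
            rw [Finset.sum_neg_distrib, Finset.sum_add_distrib, ← hS]
            have h4 : ∑ p ∈ (Ioc p0 p1).filter Nat.Prime, (1 / (p : ℝ)) ^ 2 ≤ S2 := by
              have h5 : ∑ p ∈ (Ioc p0 p1).filter Nat.Prime, (1 / (p : ℝ)) ^ 2 =
                  ∑ p ∈ (Ioc p0 p1).filter Nat.Prime, 1 / (p : ℝ) ^ 2 :=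
                Finset.sum_congr rfl fun p _ => by rw [one_div_pow]
              rw [h5]
              exact hSs.sum_le_tsum _ (fun n _ => by positivity)
            linarith
        _ = ∏ p ∈ (Ioc p0 p1).filter Nat.Prime, Real.exp (-(1 / (p : ℝ) + (1 / (p : ℝ)) ^ 2)) :=
            Real.exp_sum _ _
        _ ≤ ∏ p ∈ (Ioc p0 p1).filter Nat.Prime, (1 - 1 / (p : ℝ)) :=
            Finset.prod_le_prod (fun p _ => (Real.exp_pos _).le)
              (fun p hp' => Vbd_fac (hp p hp').1 (hp p hp').2)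
    refine le_trans ?_ h3
    rw [← hexp, ← Real.exp_add, hinv]
    apply Real.exp_le_exp.2
    linarith [h1.2]
  · have h3 : VV p0 p1 ≤ Real.exp (-S) := by
      unfold VV
      calc ∏ p ∈ (Ioc p0 p1).filter Nat.Prime, (1 - 1 / (p : ℝ)) ≤
            ∏ p ∈ (Ioc p0 p1).filter Nat.Prime, Real.exp (-(1 / (p : ℝ))) := by
            apply Finset.prod_le_prod
            · intro p hp'
              linarith [(hp p hp').2]
            · intro p _
              have := Real.add_one_le_exp (-(1 / (p : ℝ)))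
              linarith
        _ = Real.exp (-S) := by
            rw [← Real.exp_sum, Finset.sum_neg_distrib]
    refine h3.trans ?_
    rw [← hexp, ← Real.exp_add, hinv]
    apply Real.exp_le_exp.2
    linarith [h1.1]

end Pool.Agent.Lib.SG
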