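import Pool.Agent.Lib.SG.SpecB

/-!
MP_9a4459_nt, module Win: lower bound for primes in an interval with conditions modulo the primes of smp.
-/

namespace Pool.Agent.Lib.SG

open Finset Pool.Agent.Lib.BV Pool.Agent.Lib.EH Pool.Agent.Results.MP_00e23e_nt

private lemma Win_li {x x' : ℝ} (hx : 2 ≤ x) (hxx : x ≤ x') :
    (x' - x) / Real.log x' ≤ li x' - li x := by
  have hint : ∀ a b : ℝ, 2 ≤ a → 2 ≤ b →
      IntervalIntegrable (fun t => (Real.log t)⁻¹) MeasureTheory.volume a b := by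
    intro a b ha hb
    apply ContinuousOn.intervalIntegrable
    intro t ht
    have ht2 : 2 ≤ t := (le_min ha hb).trans ht.1
    apply ContinuousAt.continuousWithinAt
    apply ContinuousAt.inv₀
    · exact Real.continuousAt_log (by linarith)
    · exact (Real.log_pos (by linarith)).ne'
  have h1 : li x' - li x = ∫ t in x..x', (Real.log t)⁻¹ := by
    unfold li
    rw [intervalIntegral.integral_interval_sub_left (hint 2 x' (by norm_num) (by linarith))
      (hint 2 x (by norm_num) (by linarith))]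
  rw [h1]
  have h2 : (x' - x) / Real.log x' = ∫ _ in x..x', (Real.log x')⁻¹ := by
    rw [intervalIntegral.integral_const, smul_eq_mul, div_eq_mul_inv]
  rw [h2]
  apply intervalIntegral.integral_mono_on hxx intervalIntegrable_const (hint x x' hx (hx.trans hxx))
  intro t ht
  have h3 : 0 < Real.log t := Real.log_pos (by linarith [ht.1])
  exact inv_anti₀ h3 (Real.log_le_log (by linarith [ht.1]) ht.2)

private lemma Win_tot (B : Finset ℕ) (hB : ∀ p ∈ B, p.Prime) :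
    ((∏ p ∈ B, p).totient : ℝ) = ∏ p ∈ B, ((p : ℝ) - 1) := by
  classical
  induction B using Finset.induction_on with
  | empty => simp
  | insert q B hq ih =>
    have ih' := ih (fun p hp => hB p (Finset.mem_insert_of_mem hp))
    have hqp : q.Prime := hB q (Finset.mem_insert_self q B)
    have hco : Nat.Coprime q (∏ p ∈ B, p) := by
      apply Nat.Coprime.prod_right
      intro p hp
      exact (Nat.coprime_primes hqp (hB p (Finset.mem_insert_of_mem hp))).2 (fun h => hq (h ▸ hp))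
    rw [Finset.prod_insert hq, Finset.prod_insert hq, Nat.totient_mul hco, Nat.totient_prime hqp,
      Nat.cast_mul, ih', Nat.cast_sub hqp.one_lt.le, Nat.cast_one]

private lemma Win_tele (a b : ℕ) (ha : 2 ≤ a) (hab : a ≤ b) :
    ∏ n ∈ Ioc a b, (1 - 1 / ((n : ℝ) - 1) ^ 2) = ((a : ℝ) - 1) / a * (b / ((b : ℝ) - 1)) := by
  induction b, hab using Nat.le_induction with
  | base =>
    have h1 : (a : ℝ) ≠ 0 := by positivity
    have h2 : (a : ℝ) - 1 ≠ 0 := by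
      have : (2 : ℝ) ≤ a := by exact_mod_cast ha
      linarith
    simp only [Finset.Ioc_self, Finset.prod_empty]
    field_simp
  | succ n hn ih =>
    have hI : Ioc a (n + 1) = insert (n + 1) (Ioc a n) := by
      ext k
      simp only [Finset.mem_Ioc, Finset.mem_insert]
      omega
    have hnot : n + 1 ∉ Ioc a n := by simp
    rw [hI, Finset.prod_insert hnot, ih]
    have hn2 : (2 : ℝ) ≤ n := by exact_mod_cast ha.trans hn
    have ha2 : (2 : ℝ) ≤ a := by exact_mod_cast ha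
    have h1 : (n : ℝ) ≠ 0 := by linarith
    have h2 : (n : ℝ) - 1 ≠ 0 := by linarith
    have h3 : (a : ℝ) ≠ 0 := by linarith
    push_cast
    have h4 : (n : ℝ) + 1 - 1 = n := by ring
    rw [h4]
    field_simp
    ring

private lemma Win_prod (p0 p1 e : ℕ) (h0 : 2 ≤ p0) (h01 : p0 ≤ p1) :
    1 / 2 * VV p0 p1 ≤ ∏ p ∈ smp p0 p1 e, (1 - 1 / ((p : ℝ) - 1)) := by
  have hAP : ∀ p ∈ (Ioc p0 p1).filter Nat.Prime, (3 : ℝ) ≤ p := by
    intro p hp
    rw [Finset.mem_filter, Finset.mem_Ioc] at hp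
    exact_mod_cast (by omega : 3 ≤ p)
  have hfac : ∀ p : ℝ, 3 ≤ p → 0 < 1 - 1 / (p - 1) ∧ 1 - 1 / (p - 1) ≤ 1 := by
    intro p hp
    have h1 : 1 / (p - 1) ≤ 1 / 2 := one_div_le_one_div_of_le (by norm_num) (by linarith)
    have h2 : 0 < 1 / (p - 1) := by
      have : 0 < p - 1 := by linarith
      positivity
    constructor <;> linarith
  have h1 : ∏ p ∈ (Ioc p0 p1).filter Nat.Prime, (1 - 1 / ((p : ℝ) - 1)) ≤
      ∏ p ∈ smp p0 p1 e, (1 - 1 / ((p : ℝ) - 1)) := by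
    have hsub : smp p0 p1 e ⊆ (Ioc p0 p1).filter Nat.Prime := by
      intro p hp
      unfold smp at hp
      rw [Finset.mem_filter] at hp ⊢
      exact ⟨hp.1, hp.2.1⟩
    rw [← Finset.prod_sdiff hsub]
    apply mul_le_of_le_one_left
    · exact Finset.prod_nonneg fun p hp => (hfac p (hAP p (hsub hp))).1.le
    · apply Finset.prod_le_one
      · intro p hp
        exact (hfac p (hAP p (Finset.mem_sdiff.1 hp).1)).1.le
      · intro p hp
        exact (hfac p (hAP p (Finset.mem_sdiff.1 hp).1)).2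
  have h2 : ∏ p ∈ (Ioc p0 p1).filter Nat.Prime, (1 - 1 / ((p : ℝ) - 1)) =
      VV p0 p1 * ∏ p ∈ (Ioc p0 p1).filter Nat.Prime, (1 - 1 / ((p : ℝ) - 1) ^ 2) := by
    unfold VV
    rw [← Finset.prod_mul_distrib]
    refine Finset.prod_congr rfl fun p hp => ?_
    have h3 := hAP p hp
    have h4 : (p : ℝ) ≠ 0 := by linarith
    have h5 : (p : ℝ) - 1 ≠ 0 := by linarith
    field_simp
    ring
  have hsq : ∀ p : ℝ, 3 ≤ p → 0 < 1 - 1 / (p - 1) ^ 2 ∧ 1 - 1 / (p - 1) ^ 2 ≤ 1 := by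
    intro p hp
    have h1 : (4 : ℝ) ≤ (p - 1) ^ 2 := by nlinarith
    have h2 : 1 / (p - 1) ^ 2 ≤ 1 / 4 := one_div_le_one_div_of_le (by norm_num) h1
    have h3 : 0 < 1 / (p - 1) ^ 2 := by positivity
    constructor <;> linarith
  have h3 : (1 : ℝ) / 2 ≤ ∏ p ∈ (Ioc p0 p1).filter Nat.Prime, (1 - 1 / ((p : ℝ) - 1) ^ 2) := by
    have h4 : ∏ n ∈ Ioc p0 p1, (1 - 1 / ((n : ℝ) - 1) ^ 2) ≤
        ∏ p ∈ (Ioc p0 p1).filter Nat.Prime, (1 - 1 / ((p : ℝ) - 1) ^ 2) := by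
      have hsub : (Ioc p0 p1).filter Nat.Prime ⊆ Ioc p0 p1 := Finset.filter_subset _ _
      have hI : ∀ n ∈ Ioc p0 p1, (3 : ℝ) ≤ n := by
        intro n hn
        rw [Finset.mem_Ioc] at hn
        exact_mod_cast (by omega : 3 ≤ n)
      rw [← Finset.prod_sdiff hsub]
      apply mul_le_of_le_one_left
      · exact Finset.prod_nonneg fun p hp => (hsq p (hI p (hsub hp))).1.le
      · apply Finset.prod_le_one
        · intro p hp
          exact (hsq p (hI p (Finset.mem_sdiff.1 hp).1)).1.le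
        · intro p hp
          exact (hsq p (hI p (Finset.mem_sdiff.1 hp).1)).2
    refine le_trans ?_ h4
    rw [Win_tele p0 p1 h0 h01]
    have ha : (2 : ℝ) ≤ p0 := by exact_mod_cast h0
    have hb : (2 : ℝ) ≤ p1 := by exact_mod_cast h0.trans h01
    have h5 : (1 : ℝ) / 2 ≤ ((p0 : ℝ) - 1) / p0 := by
      rw [div_le_div_iff₀ (by norm_num) (by linarith)]
      linarith
    have h6 : (1 : ℝ) ≤ (p1 : ℝ) / ((p1 : ℝ) - 1) := by
      rw [le_div_iff₀ (by linarith)]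
      linarith
    calc (1 : ℝ) / 2 = 1 / 2 * 1 := by ring
      _ ≤ ((p0 : ℝ) - 1) / p0 * ((p1 : ℝ) / ((p1 : ℝ) - 1)) :=
        mul_le_mul h5 h6 (by norm_num) (by linarith)
  have hV : 0 ≤ VV p0 p1 := by
    unfold VV
    apply Finset.prod_nonneg
    intro p hp
    have h4 := hAP p hp
    have h5 : 1 / (p : ℝ) ≤ 1 / 3 := one_div_le_one_div_of_le (by norm_num) h4
    linarith
  calc 1 / 2 * VV p0 p1 = VV p0 p1 * (1 / 2) := by ring
    _ ≤ VV p0 p1 * ∏ p ∈ (Ioc p0 p1).filter Nat.Prime, (1 - 1 / ((p : ℝ) - 1) ^ 2) :=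
        mul_le_mul_of_nonneg_left h3 hV
    _ = ∏ p ∈ (Ioc p0 p1).filter Nat.Prime, (1 - 1 / ((p : ℝ) - 1)) := h2.symm
    _ ≤ _ := h1

private lemma Win_dvd (B : Finset ℕ) (hB : ∀ p ∈ B, p.Prime) (j : ℕ) (hj : 2 ≤ j) :
    (∀ p ∈ B, p ∣ j - 2) ↔ j ≡ 2 [MOD ∏ p ∈ B, p] := by
  have h1 : (∀ p ∈ B, p ∣ j - 2) ↔ (∏ p ∈ B, p) ∣ j - 2 := by
    constructor
    · intro h
      exact Finset.prod_primes_dvd _ (fun p hp => (hB p hp).prime) h
    · intro h p hp
      exact (Finset.dvd_prod_of_mem _ hp).trans h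
  rw [h1]
  constructor
  · intro h
    exact ((Nat.modEq_iff_dvd' hj).2 h).symm
  · intro h
    exact (Nat.modEq_iff_dvd' hj).1 h.symm

private lemma Win_cnt (B : Finset ℕ) (hB : ∀ p ∈ B, p.Prime) (N N2 : ℕ) (hN : 2 ≤ N) (hN2 : N ≤ N2) :
    ((((Ioc N N2).filter Nat.Prime).filter (fun j => ∀ p ∈ B, p ∣ j - 2)).card : ℝ) -
      (li N2 - li N) / ((∏ p ∈ B, p).totient : ℝ) =
      err N2 (∏ p ∈ B, p) 2 - err N (∏ p ∈ B, p) 2 := by
  set q : ℕ := ∏ p ∈ B, p with hq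
  have h1 : primeCount (N2 : ℝ) q 2 = primeCount (N : ℝ) q 2 +
      (((Ioc N N2).filter Nat.Prime).filter (fun j => ∀ p ∈ B, p ∣ j - 2)).card := by
    unfold primeCount
    rw [Nat.floor_natCast, Nat.floor_natCast]
    rw [← Finset.card_union_of_disjoint]
    · congr 1
      ext j
      simp only [Finset.mem_filter, Finset.mem_Icc, Finset.mem_union, Finset.mem_Ioc]
      constructor
      · rintro ⟨⟨a1, a2⟩, a3, a4⟩
        by_cases h : j ≤ N
        · exact Or.inl ⟨⟨a1, h⟩, a3, a4⟩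
        · exact Or.inr ⟨⟨⟨by omega, a2⟩, a3⟩, (Win_dvd B hB j (by omega)).2 a4⟩
      · rintro (⟨⟨a1, a2⟩, a3, a4⟩ | ⟨⟨⟨a1, a2⟩, a3⟩, a4⟩)
        · exact ⟨⟨a1, a2.trans hN2⟩, a3, a4⟩
        · exact ⟨⟨by omega, a2⟩, a3, (Win_dvd B hB j (by omega)).1 a4⟩
    · rw [Finset.disjoint_left]
      intro j hj hj'
      simp only [Finset.mem_filter, Finset.mem_Icc, Finset.mem_Ioc] at hj hj'
      omega
  unfold err
  rw [h1]
  push_cast
  ring

private lemma Win_max (B : Finset ℕ) (hB : ∀ p ∈ B, p.Prime ∧ 3 ≤ p) (x : ℝ) :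
    |err x (∏ p ∈ B, p) 2| ≤ maxErr x (∏ p ∈ B, p) := by
  classical
  by_cases hne : B = ∅
  · subst hne
    rw [Finset.prod_empty]
    have h1 : err x 1 2 = err x 1 1 := by
      unfold err primeCount
      simp only [Nat.modEq_one]
    rw [h1]
    exact le_maxErr x 1 1 le_rfl le_rfl (Nat.coprime_one_left 1)
  · obtain ⟨p, hp⟩ := Finset.nonempty_of_ne_empty hne
    have h1 : p ∣ ∏ p ∈ B, p := Finset.dvd_prod_of_mem _ hp
    have h2 : 0 < ∏ p ∈ B, p := Finset.prod_pos fun p hp => (hB p hp).1.pos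
    have h3 : 3 ≤ ∏ p ∈ B, p := (hB p hp).2.trans (Nat.le_of_dvd h2 h1)
    refine le_maxErr x _ 2 (by norm_num) (by omega) ?_
    apply Nat.Coprime.prod_right
    intro p' hp'
    rw [Nat.coprime_primes Nat.prime_two (hB p' hp').1]
    have := (hB p' hp').2
    omega

private lemma Win_fact (i : ℕ) : 5040 * 2 ^ i ≤ (2 * (i + 3) + 1).factorial := by
  induction i with
  | zero => decide
  | succ i ih =>
    have h1 : 2 * (i + 1 + 3) + 1 = (2 * (i + 3) + 1) + 1 + 1 := by ring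
    rw [h1, Nat.factorial_succ, Nat.factorial_succ]
    have h2 : 2 * (5040 * 2 ^ i) ≤ (2 * (i + 3) + 1 + 1 + 1) *
        ((2 * (i + 3) + 1 + 1) * (2 * (i + 3) + 1).factorial) := by
      have h3 : (2 * (i + 3) + 1).factorial ≤ (2 * (i + 3) + 1 + 1) * (2 * (i + 3) + 1).factorial :=
        Nat.le_mul_of_pos_left _ (by omega)
      exact Nat.mul_le_mul (by omega) (ih.trans h3)
    calc 5040 * 2 ^ (i + 1) = 2 * (5040 * 2 ^ i) := by ring
      _ ≤ _ := h2

private lemma Win_eta (t : ℕ) :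
    (∑ i ∈ range t, Pool.Agent.MP0a1886.eta (fun i => i + 3) i) *
      Real.exp (∑ i ∈ range t, Pool.Agent.MP0a1886.eta (fun i => i + 3) i) ≤ 1 / 2 := by
  have h1 : ∀ i ∈ range t, Pool.Agent.MP0a1886.eta (fun i => i + 3) i ≤ (1 / 630) * (1 / 2 : ℝ) ^ i := by
    intro i _
    unfold Pool.Agent.MP0a1886.eta
    have h2 : ((5040 * 2 ^ i : ℕ) : ℝ) ≤ ((2 * (i + 3) + 1).factorial : ℝ) := by
      exact_mod_cast Win_fact i
    have h3 : (1 / 630) * (1 / 2 : ℝ) ^ i = 8 / ((5040 * 2 ^ i : ℕ) : ℝ) := by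
      push_cast
      rw [one_div_pow]
      field_simp
      norm_num
    rw [h3]
    apply div_le_div_of_nonneg_left (by norm_num) (by positivity) h2
  have h5 : ∑ i ∈ range t, Pool.Agent.MP0a1886.eta (fun i => i + 3) i ≤ 1 / 315 := by
    refine (Finset.sum_le_sum h1).trans ?_
    rw [← Finset.mul_sum]
    have h4 : ∑ i ∈ range t, (1 / 2 : ℝ) ^ i ≤ 2 := by
      rw [geom_sum_eq (by norm_num)]
      have : (0 : ℝ) < (1 / 2 : ℝ) ^ t := by positivity
      rw [div_le_iff_of_neg (by norm_num)]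
      linarith
    linarith
  have h6 : 0 ≤ ∑ i ∈ range t, Pool.Agent.MP0a1886.eta (fun i => i + 3) i :=
    Finset.sum_nonneg fun i _ => Pool.Agent.MP0a1886.eta_nonneg _ i
  have h7 : Real.exp (∑ i ∈ range t, Pool.Agent.MP0a1886.eta (fun i => i + 3) i) ≤ 3 := by
    have e1 : Real.exp (∑ i ∈ range t, Pool.Agent.MP0a1886.eta (fun i => i + 3) i) ≤ Real.exp 1 :=
      Real.exp_le_exp.2 (by linarith)
    have e2 := Real.exp_one_lt_d9
    linarith
  calc _ ≤ (1 / 315 : ℝ) * 3 := mul_le_mul h5 h7 (Real.exp_pos _).le (by norm_num)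
    _ ≤ 1 / 2 := by norm_num

/-- the sieve, with the error as a sum of maxErr -/
private lemma Win_sieve (ps E : ℕ) (hB : ∀ y : ℕ, ps < y → ∃ t : ℕ,
    (t : ℝ) ≤ 8 * Real.log (Real.log y) + 1 ∧
    (∀ p : ℕ, ps < p → p ≤ y → rb y p < t) ∧
    (∀ i : ℕ, ∑ p ∈ (Ioc ps y).filter (fun p => p.Prime ∧ rb y p = i), 4 / (p : ℝ) ≤ 1) ∧
    (∏ i ∈ range t, (1 + 4 * (((Ioc ps y).filter (fun p => rb y p = i)).card : ℝ)) ^ (2 * (i + 3) + 1) ≤
      (y : ℝ) ^ E) ∧
    ∀ B : Finset ℕ, (∀ p ∈ B, ps < p ∧ p ≤ y) → Pool.Agent.MP0a1886.Adm (rb y) t (fun i => i + 3) B →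
      ∏ p ∈ B, (p : ℝ) ≤ (y : ℝ) ^ E) (p0 p1 e N N2 D : ℕ) (hps : 2 ≤ ps) (h0 : ps < p0) (h01 : p0 ≤ p1)
    (hN : 2 ≤ N) (hN2 : N < N2) (hD : (p1 : ℝ) ^ E < D + 1) :
    (li N2 - li N) * (1 / 4 * VV p0 p1) - (8 * Real.log (Real.log p1) + 2) *
      (∑ d ∈ Icc 1 D, maxErr N2 d + ∑ d ∈ Icc 1 D, maxErr N d) ≤
    (((Ioc N N2).filter (fun j => j.Prime ∧ ∀ p ∈ smp p0 p1 e, ¬ p ∣ j - 2)).card : ℝ) := by
  classical
  obtain ⟨t, ht, hr, hκ, _, hadm⟩ := hB p1 (by omega)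
  have hNR : (2 : ℝ) ≤ N := by exact_mod_cast hN
  have hN2R : (N : ℝ) < N2 := by exact_mod_cast hN2
  have hX : 0 < li N2 - li N := by
    have h1 := Win_li hNR hN2R.le
    have h2 : 0 < ((N2 : ℝ) - N) / Real.log N2 := by
      apply div_pos (by linarith) (Real.log_pos (by linarith))
    linarith
  set X : ℝ := li N2 - li N with hXdef
  set PP := smp p0 p1 e with hPP
  have hPPm : ∀ p ∈ PP, p.Prime ∧ p0 < p ∧ p ≤ p1 := by
    intro p hp
    rw [hPP] at hp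
    unfold smp at hp
    rw [Finset.mem_filter, Finset.mem_Ioc] at hp
    exact ⟨hp.2.1, hp.1.1, hp.1.2⟩
  set x : ℕ → ℝ := fun p => 1 / ((p : ℝ) - 1) with hx
  have hxb : ∀ p ∈ PP, 0 ≤ x p ∧ x p ≤ 1 / 2 ∧ x p ≤ 4 / p := by
    intro p hp
    obtain ⟨hpp, q1, q2⟩ := hPPm p hp
    have hp3 : (3 : ℝ) ≤ p := by exact_mod_cast (by omega : 3 ≤ p)
    have hp1 : (0 : ℝ) < (p : ℝ) - 1 := by linarith
    refine ⟨by rw [hx]; positivity, ?_, ?_⟩
    · rw [hx]
      exact one_div_le_one_div_of_le (by norm_num) (by linarith)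
    · rw [hx]
      simp only
      rw [div_le_div_iff₀ hp1 (by linarith)]
      linarith
  have hr' : ∀ p ∈ PP, rb p1 p < t := fun p hp => hr p (by have := (hPPm p hp).2.1; omega) (hPPm p hp).2.2
  have hκ' : ∀ i < t, ∑ P ∈ PP.filter (fun P => rb p1 P = i), x P ≤ 1 := by
    intro i _
    refine le_trans ?_ (hκ i)
    refine (Finset.sum_le_sum (g := fun P : ℕ => 4 / (P : ℝ)) fun p hp => ?_).trans ?_
    · exact (hxb p (Finset.mem_filter.1 hp).1).2.2
    · apply Finset.sum_le_sum_of_subset_of_nonneg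
      · intro p hp
        rw [Finset.mem_filter] at hp
        obtain ⟨hpp, q1, q2⟩ := hPPm p hp.1
        rw [Finset.mem_filter, Finset.mem_Ioc]
        exact ⟨⟨by omega, q2⟩, hpp, hp.2⟩
      · intro p _ _
        positivity
  set Om : Finset ℕ := (Ioc N N2).filter Nat.Prime with hOm
  have hs := Pool.Agent.MP0a1886.sieve_lower (Ω := ↥Om) (fun _ => 1 / X)
    (fun ω => PP.filter (fun p => p ∣ ω.1 - 2)) (fun _ => by positivity) PP ∅
    (fun ω => Finset.filter_subset _ _) (rb p1) t (fun i => i + 3) x hr'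
  rw [Finset.sdiff_empty, Finset.prod_empty, one_mul] at hs
  have hval := Pool.Agent.MP0a1886.sieveVal_ge (rb p1) t (fun i => i + 3) x PP hr'
    (fun p hp => (hxb p hp).1) (fun p hp => (hxb p hp).2.1) hκ'
  have hright : (∑ ω : ↥Om, if PP.filter (fun p => p ∣ ω.1 - 2) = ∅ then 1 / X else 0) =
      (1 / X) * (((Ioc N N2).filter (fun j => j.Prime ∧ ∀ p ∈ PP, ¬ p ∣ j - 2)).card : ℝ) := by
    rw [Finset.sum_coe_sort Om (fun n => if PP.filter (fun p => p ∣ n - 2) = ∅ then 1 / X else 0)]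
    rw [← Finset.sum_filter, Finset.sum_const, nsmul_eq_mul, mul_comm]
    congr 3
    ext n
    rw [hOm]
    simp only [Finset.mem_filter, Finset.filter_eq_empty_iff]
    tauto
  have hhit : ∀ B ∈ PP.powerset, |Pool.Agent.MP0a1886.hit (fun _ : ↥Om => 1 / X)
      (fun ω => PP.filter (fun p => p ∣ ω.1 - 2)) (∅ ∪ B) - ∏ P ∈ ∅ ∪ B, x P| ≤
      (1 / X) * (maxErr N2 (∏ p ∈ B, p) + maxErr N (∏ p ∈ B, p)) := by
    intro B hBT
    rw [Finset.mem_powerset] at hBT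
    rw [Finset.empty_union]
    have hBp : ∀ p ∈ B, p.Prime := fun p hp => (hPPm p (hBT hp)).1
    have e1 : Pool.Agent.MP0a1886.hit (fun _ : ↥Om => 1 / X)
        (fun ω => PP.filter (fun p => p ∣ ω.1 - 2)) B =
        (1 / X) * ((Om.filter (fun j => ∀ p ∈ B, p ∣ j - 2)).card : ℝ) := by
      unfold Pool.Agent.MP0a1886.hit
      rw [Finset.sum_coe_sort Om (fun n => if B ⊆ PP.filter (fun p => p ∣ n - 2) then 1 / X else 0)]
      rw [← Finset.sum_filter, Finset.sum_const, nsmul_eq_mul, mul_comm]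
      congr 3
      ext n
      simp only [Finset.mem_filter, and_congr_right_iff]
      intro _
      constructor
      · intro h p hp
        exact (Finset.mem_filter.1 (h hp)).2
      · intro h p hp
        exact Finset.mem_filter.2 ⟨hBT hp, h p hp⟩
    have e2 : ((Om.filter (fun j => ∀ p ∈ B, p ∣ j - 2)).card : ℝ) - X / ((∏ p ∈ B, p).totient : ℝ) =
        err N2 (∏ p ∈ B, p) 2 - err N (∏ p ∈ B, p) 2 := by
      rw [← Win_cnt B hBp N N2 hN hN2.le, hOm, hXdef]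
      congr
    have e3 : ∏ P ∈ B, x P = 1 / ((∏ p ∈ B, p).totient : ℝ) := by
      rw [Win_tot B hBp, hx, Finset.prod_div_distrib, Finset.prod_const_one]
    have e4 : (1 / X) * ((Om.filter (fun j => ∀ p ∈ B, p ∣ j - 2)).card : ℝ) - ∏ P ∈ B, x P =
        (1 / X) * (err N2 (∏ p ∈ B, p) 2 - err N (∏ p ∈ B, p) 2) := by
      rw [← e2, e3]
      field_simp
    rw [e1, e4, abs_mul, abs_of_pos (by positivity : 0 < 1 / X)]
    apply mul_le_mul_of_nonneg_left _ (by positivity)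
    have hB3 : ∀ p ∈ B, p.Prime ∧ 3 ≤ p := fun p hp =>
      ⟨hBp p hp, by have := (hPPm p (hBT hp)).2.1; omega⟩
    exact (abs_sub _ _).trans (add_le_add (Win_max B hB3 _) (Win_max B hB3 _))
  have herr : ∑ B ∈ PP.powerset, (if Pool.Agent.MP0a1886.Adm (rb p1) t (fun i => i + 3) B then
      |Pool.Agent.MP0a1886.hit (fun _ : ↥Om => 1 / X)
      (fun ω => PP.filter (fun p => p ∣ ω.1 - 2)) (∅ ∪ B) - ∏ P ∈ ∅ ∪ B, x P| else 0) ≤
      (1 / X) * (∑ d ∈ Icc 1 D, maxErr N2 d + ∑ d ∈ Icc 1 D, maxErr N d) := by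
    rw [← Finset.sum_add_distrib, ← Finset.sum_filter]
    set S := PP.powerset.filter (fun B => Pool.Agent.MP0a1886.Adm (rb p1) t (fun i => i + 3) B) with hS
    have e1 : ∑ B ∈ S, |Pool.Agent.MP0a1886.hit (fun _ : ↥Om => 1 / X)
        (fun ω => PP.filter (fun p => p ∣ ω.1 - 2)) (∅ ∪ B) - ∏ P ∈ ∅ ∪ B, x P| ≤
        ∑ B ∈ S, (1 / X) * (maxErr N2 (∏ p ∈ B, p) + maxErr N (∏ p ∈ B, p)) := by
      refine Finset.sum_le_sum fun B hBS => ?_
      rw [hS, Finset.mem_filter] at hBS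
      exact hhit B hBS.1
    refine e1.trans ?_
    rw [← Finset.mul_sum]
    apply mul_le_mul_of_nonneg_left _ (by positivity)
    have hinj : Set.InjOn (fun B : Finset ℕ => ∏ p ∈ B, p) S := by
      intro B hB1 B' hB2 h
      rw [hS] at hB1 hB2
      simp only [Finset.coe_filter, Finset.mem_powerset, Set.mem_ofPred_eq] at hB1 hB2
      have q1 := Nat.primeFactors_prod (fun p hp => (hPPm p (hB1.1 hp)).1)
      have q2 := Nat.primeFactors_prod (fun p hp => (hPPm p (hB2.1 hp)).1)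
      simp only at h
      rw [← q1, ← q2, h]
    rw [← Finset.sum_image (f := fun d : ℕ => maxErr N2 d + maxErr N d) hinj]
    apply Finset.sum_le_sum_of_subset_of_nonneg
    · intro d hd
      rw [Finset.mem_image] at hd
      obtain ⟨B, hBS, rfl⟩ := hd
      rw [hS, Finset.mem_filter, Finset.mem_powerset] at hBS
      have q1 := hadm B (fun p hp => ⟨by have := (hPPm p (hBS.1 hp)).2.1; omega, (hPPm p (hBS.1 hp)).2.2⟩)
        hBS.2
      rw [Finset.mem_Icc]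
      constructor
      · exact Finset.prod_pos fun p hp => (hPPm p (hBS.1 hp)).1.pos
      · have q2 : ((∏ p ∈ B, p : ℕ) : ℝ) < ((D + 1 : ℕ) : ℝ) := by
          push_cast
          exact lt_of_le_of_lt q1 hD
        have q3 : (∏ p ∈ B, p : ℕ) < D + 1 := by exact_mod_cast q2
        omega
    · intro d _ _
      have q1 := maxErr_nonneg (N2 : ℝ) d
      have q2 := maxErr_nonneg (N : ℝ) d
      linarith
  rw [hright] at hs
  have hV := Win_prod p0 p1 e (by omega) h01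
  rw [← hPP] at hV
  have hVn : 0 ≤ ∏ P ∈ PP, (1 - x P) :=
    Finset.prod_nonneg fun p hp => by linarith [(hxb p hp).2.1]
  have hη := Win_eta t
  have k1 : 1 / 4 * VV p0 p1 ≤ Pool.Agent.MP0a1886.sieveVal (rb p1) t (fun i => i + 3) x PP := by
    refine le_trans ?_ hval
    have k2 : (∏ P ∈ PP, (1 - x P)) * (1 / 2) ≤ (∏ P ∈ PP, (1 - x P)) *
        (1 - (∑ i ∈ range t, Pool.Agent.MP0a1886.eta (fun i => i + 3) i) *
          Real.exp (∑ i ∈ range t, Pool.Agent.MP0a1886.eta (fun i => i + 3) i)) :=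
      mul_le_mul_of_nonneg_left (by linarith) hVn
    refine le_trans ?_ k2
    have k3 : 1 / 2 * VV p0 p1 ≤ ∏ P ∈ PP, (1 - x P) := hV
    linarith
  have hS0 : 0 ≤ ∑ d ∈ Icc 1 D, maxErr N2 d + ∑ d ∈ Icc 1 D, maxErr N d :=
    add_nonneg (Finset.sum_nonneg fun d _ => maxErr_nonneg _ d)
      (Finset.sum_nonneg fun d _ => maxErr_nonneg _ d)
  have k4 : ((t : ℝ) + 1) * ∑ B ∈ PP.powerset, (if Pool.Agent.MP0a1886.Adm (rb p1) t (fun i => i + 3) B
      then |Pool.Agent.MP0a1886.hit (fun _ : ↥Om => 1 / X)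
      (fun ω => PP.filter (fun p => p ∣ ω.1 - 2)) (∅ ∪ B) - ∏ P ∈ ∅ ∪ B, x P| else 0) ≤
      (8 * Real.log (Real.log p1) + 2) *
        ((1 / X) * (∑ d ∈ Icc 1 D, maxErr N2 d + ∑ d ∈ Icc 1 D, maxErr N d)) := by
    apply mul_le_mul (by linarith) herr
    · apply Finset.sum_nonneg
      intro B _
      split_ifs
      · exact abs_nonneg _
      · exact le_rfl
    · have : (0 : ℝ) ≤ t := Nat.cast_nonneg t
      linarith
  have k5 : 1 / 4 * VV p0 p1 - (8 * Real.log (Real.log p1) + 2) *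
      ((1 / X) * (∑ d ∈ Icc 1 D, maxErr N2 d + ∑ d ∈ Icc 1 D, maxErr N d)) ≤
      (1 / X) * (((Ioc N N2).filter (fun j => j.Prime ∧ ∀ p ∈ PP, ¬ p ∣ j - 2)).card : ℝ) := by
    linarith
  have k6 := mul_le_mul_of_nonneg_left k5 hX.le
  have k7 : X * ((1 / X) * (((Ioc N N2).filter (fun j => j.Prime ∧ ∀ p ∈ PP, ¬ p ∣ j - 2)).card : ℝ)) =
      (((Ioc N N2).filter (fun j => j.Prime ∧ ∀ p ∈ PP, ¬ p ∣ j - 2)).card : ℝ) := by
    field_simp
  have k8 : X * (1 / 4 * VV p0 p1 - (8 * Real.log (Real.log p1) + 2) *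
      ((1 / X) * (∑ d ∈ Icc 1 D, maxErr N2 d + ∑ d ∈ Icc 1 D, maxErr N d))) =
      X * (1 / 4 * VV p0 p1) - (8 * Real.log (Real.log p1) + 2) *
      (∑ d ∈ Icc 1 D, maxErr N2 d + ∑ d ∈ Icc 1 D, maxErr N d) := by
    field_simp
  rw [k7, k8] at k6
  exact k6

private lemma Win_ev (M : ℝ) : ∃ L0 : ℝ, 25 ≤ L0 ∧ ∀ x : ℝ, L0 ≤ x →
    x ^ ((1 : ℝ) / 3) * Real.log x ≤ Real.sqrt x ∧ x ^ ((1 : ℝ) / 3) * (Real.log x) ^ 2 * Real.sqrt x ≤
      x / (Real.log x) ^ 5 ∧ 8 * Real.log (Real.log x) + 2 ≤ Real.log x ∧ M ≤ (Real.log x) ^ 2 := by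
  have a1 := (isLittleO_log_rpow_atTop (r := 1 / 42) (by norm_num)).bound (c := 1) one_pos
  have a2 := (Real.isLittleO_log_id_atTop.comp_tendsto Real.tendsto_log_atTop).bound (c := 1 / 16)
    (by norm_num)
  have a3 : ∀ᶠ x : ℝ in Filter.atTop, max M 4 ≤ Real.log x := Real.tendsto_log_atTop.eventually_ge_atTop _
  have a4 : ∀ᶠ x : ℝ in Filter.atTop, 4 ≤ Real.log x := Real.tendsto_log_atTop.eventually_ge_atTop _
  obtain ⟨L0, hL0⟩ := Filter.eventually_atTop.1 ((a1.and a2).and (a3.and a4))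
  refine ⟨max L0 25, le_max_right _ _, fun x hx => ?_⟩
  obtain ⟨⟨b1, b2⟩, b3, b4⟩ := hL0 x ((le_max_left _ _).trans hx)
  have hx25 : 25 ≤ x := (le_max_right _ _).trans hx
  have hx0 : 0 < x := by linarith
  set l := Real.log x with hl
  have hl0 : 0 < l := by linarith
  rw [Real.norm_of_nonneg hl0.le, Real.norm_of_nonneg (Real.rpow_nonneg hx0.le _), one_mul] at b1
  simp only [Function.comp_apply, id_eq] at b2
  rw [← hl, Real.norm_of_nonneg hl0.le, Real.norm_of_nonneg (Real.log_nonneg (by linarith))] at b2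
  have hs : Real.sqrt x = x ^ ((1 : ℝ) / 2) := Real.sqrt_eq_rpow x
  have hx1 : 1 ≤ x := by linarith
  refine ⟨?_, ?_, ?_, ?_⟩
  · rw [hs]
    calc x ^ ((1 : ℝ) / 3) * l ≤ x ^ ((1 : ℝ) / 3) * x ^ ((1 : ℝ) / 42) :=
          mul_le_mul_of_nonneg_left b1 (Real.rpow_nonneg hx0.le _)
      _ = x ^ ((1 : ℝ) / 3 + 1 / 42) := (Real.rpow_add hx0 _ _).symm
      _ ≤ x ^ ((1 : ℝ) / 2) := Real.rpow_le_rpow_of_exponent_le hx1 (by norm_num)
  · rw [le_div_iff₀ (pow_pos hl0 5), hs]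
    have c1 : l ^ 7 ≤ x ^ ((1 : ℝ) / 6) := by
      calc l ^ 7 ≤ (x ^ ((1 : ℝ) / 42)) ^ 7 := pow_le_pow_left₀ hl0.le b1 7
        _ = x ^ ((1 : ℝ) / 42 * (7 : ℕ)) := by rw [Real.rpow_mul hx0.le, Real.rpow_natCast]
        _ = x ^ ((1 : ℝ) / 6) := by norm_num
    calc x ^ ((1 : ℝ) / 3) * l ^ 2 * x ^ ((1 : ℝ) / 2) * l ^ 5 =
          x ^ ((1 : ℝ) / 3) * x ^ ((1 : ℝ) / 2) * l ^ 7 := by ring
      _ ≤ x ^ ((1 : ℝ) / 3) * x ^ ((1 : ℝ) / 2) * x ^ ((1 : ℝ) / 6) :=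
          mul_le_mul_of_nonneg_left c1 (mul_nonneg (Real.rpow_nonneg hx0.le _) (Real.rpow_nonneg hx0.le _))
      _ = x := by
          rw [← Real.rpow_add hx0, ← Real.rpow_add hx0]
          norm_num
  · linarith
  · have c1 : M ≤ l := (le_max_left _ _).trans b3
    have c2 : l * 1 ≤ l * l := mul_le_mul_of_nonneg_left (by linarith) hl0.le
    rw [sq]
    linarith

private lemma Win_fin (C1 : ℝ) (hC1 : ∀ (x : ℝ) (D : ℕ) (y : ℕ → ℝ), 16 ≤ x → 1 ≤ D →
    (D : ℝ) * Real.log x ≤ Real.sqrt x → (∀ d, 2 ≤ y d ∧ y d ≤ x) →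
    ∑ d ∈ Icc 1 D, maxErr (y d) d ≤
      C1 * (x / (Real.log x) ^ (5 : ℝ) + Real.sqrt x * D *
        (Real.log (Kf x D) * Real.log (Real.log (Kf x D))))) (L D Y : ℕ) (hLR : (25 : ℝ) ≤ L)
    (hl1 : 2 ≤ Real.log L) (hD3 : 1 ≤ D) (hD1 : (D : ℝ) ≤ (L : ℝ) ^ ((1 : ℝ) / 3))
    (v1 : (L : ℝ) ^ ((1 : ℝ) / 3) * Real.log L ≤ Real.sqrt L)
    (v2 : (L : ℝ) ^ ((1 : ℝ) / 3) * (Real.log L) ^ 2 * Real.sqrt L ≤ L / (Real.log L) ^ 5)
    (hY2 : 2 ≤ Y) (hYL : Y ≤ L) :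
    ∑ d ∈ Icc 1 D, maxErr Y d ≤ 2 * max C1 1 * (L / (Real.log L) ^ 5) := by
  set l := Real.log L with hl
  set C := max C1 1 with hC
  have hl0 : 0 < l := by linarith
  have hLp : (0 : ℝ) < L := by linarith
  have hD3R : (1 : ℝ) ≤ D := by exact_mod_cast hD3
  have hCp : 1 ≤ C := le_max_right _ _
  have hLr0 : 0 ≤ (L : ℝ) ^ ((1 : ℝ) / 3) := Real.rpow_nonneg hLp.le _
  have q1 := hC1 L D (fun _ => (Y : ℝ)) (by linarith) hD3
    ((mul_le_mul_of_nonneg_right hD1 hl0.le).trans v1)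
    (fun _ => ⟨by exact_mod_cast hY2, by exact_mod_cast hYL⟩)
  have q2 : ((5 : ℝ)) = ((5 : ℕ) : ℝ) := by norm_num
  rw [q2, Real.rpow_natCast] at q1
  refine q1.trans ?_
  have hsq : 0 ≤ Real.sqrt L := Real.sqrt_nonneg _
  have hKf1 : Kf L D ≤ L := by
    unfold Kf
    have r1 : Real.sqrt L / ((D : ℝ) * Real.log L) ≤ Real.sqrt L := by
      apply div_le_self hsq
      calc (1 : ℝ) = 1 * 1 := by ring
        _ ≤ (D : ℝ) * Real.log L := mul_le_mul hD3R (by linarith) (by norm_num) (by linarith)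
    have r2 : Real.sqrt L ≤ L - 16 := by
      rw [Real.sqrt_le_left (by linarith)]
      nlinarith
    linarith
  have hKf2 : 16 ≤ Kf L D := by
    unfold Kf
    have r1 : 0 ≤ Real.sqrt L / ((D : ℝ) * Real.log L) :=
      div_nonneg hsq (mul_nonneg (by linarith) hl0.le)
    linarith
  have hlk1 : Real.log (Kf L D) ≤ l := Real.log_le_log (by linarith) hKf1
  have hlk0 : 1 ≤ Real.log (Kf L D) := by
    rw [Real.le_log_iff_exp_le (by linarith)]
    have := Real.exp_one_lt_d9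
    linarith
  have hlk2 : Real.log (Real.log (Kf L D)) ≤ l := by
    have r1 : Real.log (Real.log (Kf L D)) ≤ Real.log (Kf L D) - 1 :=
      Real.log_le_sub_one_of_pos (by linarith)
    linarith
  have hlk3 : 0 ≤ Real.log (Real.log (Kf L D)) := Real.log_nonneg hlk0
  have hprod : Real.log (Kf L D) * Real.log (Real.log (Kf L D)) ≤ l ^ 2 := by
    calc _ ≤ l * l := mul_le_mul hlk1 hlk2 hlk3 hl0.le
      _ = l ^ 2 := by ring
  have hmain : Real.sqrt L * D * (Real.log (Kf L D) * Real.log (Real.log (Kf L D))) ≤ L / l ^ 5 := by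
    calc _ ≤ Real.sqrt L * (L : ℝ) ^ ((1 : ℝ) / 3) * l ^ 2 := by
          apply mul_le_mul (mul_le_mul_of_nonneg_left hD1 hsq) hprod
            (mul_nonneg (by linarith) hlk3) (mul_nonneg hsq hLr0)
      _ = (L : ℝ) ^ ((1 : ℝ) / 3) * l ^ 2 * Real.sqrt L := by ring
      _ ≤ _ := v2
  have hr1 : 0 ≤ (L : ℝ) / l ^ 5 := div_nonneg hLp.le (pow_pos hl0 5).le
  have hr2 : 0 ≤ Real.sqrt L * D * (Real.log (Kf L D) * Real.log (Real.log (Kf L D))) :=
    mul_nonneg (mul_nonneg hsq (by linarith)) (mul_nonneg (by linarith) hlk3)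
  calc C1 * ((L : ℝ) / l ^ 5 + Real.sqrt L * D *
      (Real.log (Kf L D) * Real.log (Real.log (Kf L D)))) ≤
      C * ((L : ℝ) / l ^ 5 + Real.sqrt L * D *
      (Real.log (Kf L D) * Real.log (Real.log (Kf L D)))) :=
        mul_le_mul_of_nonneg_right (le_max_left _ _) (by linarith)
    _ ≤ C * ((L : ℝ) / l ^ 5 + L / l ^ 5) :=
        mul_le_mul_of_nonneg_left (by linarith) (by linarith)
    _ = 2 * C * (L / l ^ 5) := by ring

theorem tWin (h1 : VbdStmt) (_h2 : GadStmt) (h3 : GblStmt) (h4 : FinStmt) : WinStmt := by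
  obtain ⟨c0, C0, hc0, hC0, hV⟩ := h1
  obtain ⟨psG, E, hpsG, hE, hB⟩ := h3
  obtain ⟨C1, hC1⟩ := h4 5 (by norm_num)
  have hER : (1 : ℝ) ≤ E := by exact_mod_cast hE
  have hpsR : (16 : ℝ) ≤ psG := by exact_mod_cast hpsG
  refine ⟨1 / 8, 1 / (3 * E + 3), psG + 1, by norm_num, by positivity, by linarith, fun δ hδ => ?_⟩
  set C : ℝ := max C1 1 with hC
  have hCp : 1 ≤ C := le_max_right _ _
  obtain ⟨L0, hL0, hev⟩ := Win_ev (32 * C / (δ * c0))
  refine ⟨L0, by linarith, ?_⟩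
  intro L N N2 p0 p1 e hL hp0 h01 hp1 hN hN2L hNN
  obtain ⟨v1, v2, v3, v4⟩ := hev L hL
  have hLR : (25 : ℝ) ≤ L := hL0.trans hL
  have hLp : (0 : ℝ) < L := by linarith
  set l : ℝ := Real.log L with hl
  have hl1 : 2 ≤ l := by
    have q1 : 0 ≤ Real.log (Real.log L) := by
      apply Real.log_nonneg
      rw [Real.le_log_iff_exp_le hLp]
      have := Real.exp_one_lt_d9
      linarith
    linarith
  have hl0 : 0 < l := by linarith
  have hNR : (2 : ℝ) ≤ N := by exact_mod_cast hN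
  have hN2R : (N2 : ℝ) ≤ L := by exact_mod_cast hN2L
  have hNlt : (N : ℝ) < N2 := by
    have : 0 < δ * L := by positivity
    linarith
  have hNlt' : N < N2 := by exact_mod_cast hNlt
  have hp0N : psG < p0 := by
    have : (psG : ℝ) < p0 := by linarith
    exact_mod_cast this
  have h01R : (p0 : ℝ) ≤ p1 := by exact_mod_cast h01
  have hp0R : (17 : ℝ) ≤ p0 := by linarith
  set D : ℕ := ⌊(L : ℝ) ^ ((1 : ℝ) / 3)⌋₊ with hD
  have hLr0 : 0 ≤ (L : ℝ) ^ ((1 : ℝ) / 3) := Real.rpow_nonneg hLp.le _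
  have hD1 : (D : ℝ) ≤ (L : ℝ) ^ ((1 : ℝ) / 3) := Nat.floor_le hLr0
  have hD2 : (L : ℝ) ^ ((1 : ℝ) / 3) < D + 1 := Nat.lt_floor_add_one _
  have hD3 : 1 ≤ D := by
    rw [hD, Nat.one_le_floor_iff]
    exact Real.one_le_rpow (by linarith) (by norm_num)
  have hD3R : (1 : ℝ) ≤ D := by exact_mod_cast hD3
  have hp1E : (p1 : ℝ) ^ E < D + 1 := by
    refine lt_of_le_of_lt ?_ hD2
    calc (p1 : ℝ) ^ E ≤ ((L : ℝ) ^ (1 / (3 * (E : ℝ) + 3))) ^ E :=
          pow_le_pow_left₀ (Nat.cast_nonneg _) hp1 E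
      _ = (L : ℝ) ^ (1 / (3 * (E : ℝ) + 3) * (E : ℕ)) := by rw [Real.rpow_mul hLp.le, Real.rpow_natCast]
      _ ≤ (L : ℝ) ^ ((1 : ℝ) / 3) := by
          apply Real.rpow_le_rpow_of_exponent_le (by linarith)
          rw [one_div, inv_mul_le_iff₀ (by linarith)]
          linarith
  have hp1L : (p1 : ℝ) ≤ L := by
    refine hp1.trans ?_
    calc (L : ℝ) ^ (1 / (3 * (E : ℝ) + 3)) ≤ (L : ℝ) ^ (1 : ℝ) := by
          apply Real.rpow_le_rpow_of_exponent_le (by linarith)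
          rw [div_le_one (by linarith)]
          linarith
      _ = L := Real.rpow_one _
  have hsv := Win_sieve psG E hB p0 p1 e N N2 D (by omega) hp0N h01 hN hNlt' hp1E
  have hfin : ∀ Y : ℕ, 2 ≤ Y → Y ≤ L → ∑ d ∈ Icc 1 D, maxErr Y d ≤ 2 * C * (L / l ^ 5) := by
    intro Y hY2 hYL
    exact Win_fin C1 hC1 L D Y hLR hl1 hD3 hD1 v1 v2 hY2 hYL
  have hS := add_le_add (hfin N2 (by omega) hN2L) (hfin N hN (by omega))
  have hS0 : 0 ≤ ∑ d ∈ Icc 1 D, maxErr N2 d + ∑ d ∈ Icc 1 D, maxErr N d :=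
    add_nonneg (Finset.sum_nonneg fun d _ => maxErr_nonneg _ d)
      (Finset.sum_nonneg fun d _ => maxErr_nonneg _ d)
  have hlp1 : Real.log p1 ≤ l := Real.log_le_log (by linarith) hp1L
  have hlp1' : 1 ≤ Real.log p1 := by
    rw [Real.le_log_iff_exp_le (by linarith)]
    have := Real.exp_one_lt_d9
    linarith
  have hlp0 : 1 ≤ Real.log p0 := by
    rw [Real.le_log_iff_exp_le (by linarith)]
    have := Real.exp_one_lt_d9
    linarith
  have hll : 8 * Real.log (Real.log p1) + 2 ≤ l := by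
    have q1 : Real.log (Real.log p1) ≤ Real.log l := Real.log_le_log (by linarith) hlp1
    linarith
  have hE1 : (8 * Real.log (Real.log p1) + 2) *
      (∑ d ∈ Icc 1 D, maxErr N2 d + ∑ d ∈ Icc 1 D, maxErr N d) ≤ 4 * C * (L / l ^ 4) := by
    calc _ ≤ l * (2 * C * (L / l ^ 5) + 2 * C * (L / l ^ 5)) := mul_le_mul hll hS hS0 hl0.le
      _ = 4 * C * (L / l ^ 4) := by
        field_simp
        ring
  have hVlow : c0 / l ≤ VV p0 p1 := by
    refine le_trans ?_ (hV p0 p1 (by omega) h01).1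
    rw [div_eq_mul_one_div]
    apply mul_le_mul_of_nonneg_left _ hc0.le
    rw [div_le_div_iff₀ hl0 (by linarith)]
    exact mul_le_mul hlp0 hlp1 (by linarith) (by linarith)
  have hVV : 0 ≤ VV p0 p1 := le_trans (by positivity) hVlow
  have hli := Win_li hNR hNlt.le
  have hlN2 : Real.log N2 ≤ l := Real.log_le_log (by linarith) hN2R
  have hlN2' : 0 < Real.log N2 := Real.log_pos (by linarith)
  have hli2 : ((N2 : ℝ) - N) / l ≤ li N2 - li N :=
    le_trans (div_le_div_of_nonneg_left (by linarith) hlN2' hlN2) hli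
  have hm1 : ((N2 : ℝ) - N) / l * (1 / 4 * VV p0 p1) ≤ (li N2 - li N) * (1 / 4 * VV p0 p1) :=
    mul_le_mul_of_nonneg_right hli2 (by linarith)
  have hkey : 4 * C * (L / l ^ 4) ≤ 1 / 8 * (((N2 : ℝ) - N) * (VV p0 p1 / l)) := by
    have q1 : 32 * C ≤ l ^ 2 * (δ * c0) := by
      rwa [div_le_iff₀ (by positivity)] at v4
    have q2 : δ * L * (c0 / l / l) ≤ ((N2 : ℝ) - N) * (VV p0 p1 / l) := by
      apply mul_le_mul hNN
      · exact div_le_div_of_nonneg_right hVlow hl0.le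
      · positivity
      · linarith
    refine le_trans ?_ (mul_le_mul_of_nonneg_left q2 (by norm_num))
    have q3 : 1 / 8 * (δ * L * (c0 / l / l)) = (L / l ^ 4) * (1 / 8 * (l ^ 2 * (δ * c0))) := by
      field_simp
    rw [q3]
    have q4 : 0 ≤ L / l ^ 4 := div_nonneg hLp.le (pow_pos hl0 4).le
    calc 4 * C * (L / l ^ 4) = (L / l ^ 4) * (1 / 8 * (32 * C)) := by ring
      _ ≤ _ := mul_le_mul_of_nonneg_left (by linarith) q4
  have hfinal : 1 / 8 * (((N2 : ℝ) - N) * (VV p0 p1 / l)) ≤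
      (li N2 - li N) * (1 / 4 * VV p0 p1) - (8 * Real.log (Real.log p1) + 2) *
      (∑ d ∈ Icc 1 D, maxErr N2 d + ∑ d ∈ Icc 1 D, maxErr N d) := by
    have q1 : ((N2 : ℝ) - N) / l * (1 / 4 * VV p0 p1) = 2 * (1 / 8 * (((N2 : ℝ) - N) * (VV p0 p1 / l))) := by
      ring
    linarith
  exact hfinal.trans hsv

end Pool.Agent.Lib.SG
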