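import Pool.Agent.Lib.SG.SpecC

/-!
MP_9a4459_nt, module Wna: many primes in the windows.
-/

namespace Pool.Agent.Lib.SG

open Finset Pool.Agent.Lib.BV

theorem tWna (h1 : WinStmt) (h2 : PrsStmt) (h3 : PrvStmt) (h4 : PrlStmt) : WnaStmt := by
  classical
  obtain ⟨c, δ1, ps, hc, hδ1, hps, hW⟩ := h1
  obtain ⟨cv, Cv, zv, hcv, hCv, hzv, hv⟩ := h3
  obtain ⟨zs, hzs, hs⟩ := h2 ps δ1 hδ1
  intro k H hk hH
  have hkR : (1 : ℝ) ≤ k := by exact_mod_cast hk
  obtain ⟨L0, hL0, hW'⟩ := hW (1 / (4 * k)) (by positivity)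
  set A : ℝ := 1 + 3 * H / c with hA
  have hA1 : 1 ≤ A := by
    have : 0 ≤ 3 * H / c := by positivity
    linarith
  obtain ⟨zl, hzl, hl⟩ := h4 k A hk hA1
  refine ⟨A, max (max zv zs) (max zl L0), hA1, (hzv.trans (le_max_left _ _)).trans (le_max_left _ _), ?_⟩
  intro z e y i hz hy hi
  obtain ⟨v1, v2, v3, v4, v5⟩ := hv z (((le_max_left _ _).trans (le_max_left _ _)).trans hz)
  obtain ⟨s1, s2, s3, s4⟩ := hs z (((le_max_right _ _).trans (le_max_left _ _)).trans hz)
  set L : ℕ := z + k * (ww A z + y) with hL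
  obtain ⟨l1, l2, l3, l4, l5⟩ := hl z y L (((le_max_left _ _).trans (le_max_right _ _)).trans hz) hy hL
  have hzL0 : L0 ≤ z := ((le_max_right _ _).trans (le_max_right _ _)).trans hz
  have hz16 : (16 : ℝ) ≤ z := hL0.trans hzL0
  have hz0 : (0 : ℝ) < z := by linarith
  have hzL : z ≤ L := Nat.le_add_right _ _
  have hzLR : (z : ℝ) ≤ L := by exact_mod_cast hzL
  have hz16' : 16 ≤ z := by exact_mod_cast hz16
  have hwR : A * z / Vz z ≤ (ww A z : ℝ) := Nat.le_ceil _
  have hN2 : z + i * (ww A z + y) + ww A z ≤ L := by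
    have e1 : (i + 1) * (ww A z + y) ≤ k * (ww A z + y) := Nat.mul_le_mul_right _ hi
    have e2 : (i + 1) * (ww A z + y) = i * (ww A z + y) + (ww A z + y) := by ring
    omega
  have hwid : ((z + i * (ww A z + y) + ww A z : ℕ) : ℝ) - ((z + i * (ww A z + y) : ℕ) : ℝ) = ww A z := by
    push_cast
    ring
  have hwin := hW' L (z + i * (ww A z + y)) (z + i * (ww A z + y) + ww A z) (P0 z) (P1 z) e
    (hzL0.trans hzLR) s1 s2 (s4.trans (Real.rpow_le_rpow hz0.le hzLR hδ1.le))
    (by have : 0 ≤ i * (ww A z + y) := Nat.zero_le _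
        omega) hN2 (by
      rw [hwid, one_div, inv_mul_le_iff₀ (by positivity)]
      have := mul_le_mul_of_nonneg_left hwR (by positivity : (0 : ℝ) ≤ 4 * k)
      linarith)
  rw [hwid] at hwin
  have hlz : 0 < Real.log z := Real.log_pos (by linarith)
  have hlL : Real.log L ≤ 2 * Real.log z := by
    have e1 : (L : ℝ) ≤ z * z := by
      have e2 : Real.log z ≤ z := (Real.log_le_sub_one_of_pos hz0).trans (by linarith)
      exact l2.trans (mul_le_mul_of_nonneg_left e2 hz0.le)
    calc Real.log L ≤ Real.log (z * z) := Real.log_le_log (by linarith) e1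
      _ = 2 * Real.log z := by rw [Real.log_mul hz0.ne' hz0.ne']; ring
  have hlL0 : 0 < Real.log L := Real.log_pos (by linarith)
  have hVV : VV (P0 z) (P1 z) = Vz z := rfl
  rw [hVV] at hwin
  have hkey : c * (A * z / (2 * Real.log z)) ≤ c * ((ww A z : ℝ) * (Vz z / Real.log L)) := by
    apply mul_le_mul_of_nonneg_left _ hc.le
    have e1 : A * z ≤ (ww A z : ℝ) * Vz z := by
      rwa [div_le_iff₀ v4] at hwR
    calc A * z / (2 * Real.log z) ≤ A * z / Real.log L :=
          div_le_div_of_nonneg_left (by positivity) hlL0 hlL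
      _ ≤ (ww A z : ℝ) * Vz z / Real.log L := div_le_div_of_nonneg_right e1 hlL0.le
      _ = (ww A z : ℝ) * (Vz z / Real.log L) := by ring
  have hH : H * (z / Real.log z) ≤ 7 / 8 * (c * (A * z / (2 * Real.log z))) := by
    have e1 : 7 / 8 * (c * (A * z / (2 * Real.log z))) = (7 / 16 * (c * A)) * (z / Real.log z) := by
      field_simp
      ring
    rw [e1]
    apply mul_le_mul_of_nonneg_right _ (by positivity)
    have e2 : c * A = c + 3 * H := by
      rw [hA]
      field_simp
    rw [e2]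
    linarith
  unfold win
  linarith

end Pool.Agent.Lib.SG
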