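import Pool.Agent.Lib.SG.SpecC

/-!
MP_9a4459_nt, module Wnd: windows and zones.
-/

namespace Pool.Agent.Lib.SG

open Finset Pool.Agent.Lib.BV

theorem tWnd (h1 : CovStmt) (h2 : PrsStmt) (h3 : PrlStmt) (h4 : WnaStmt) (h5 : ZnbStmt) : WndStmt := by
  classical
  intro k H hk hH
  obtain ⟨A, za, hA, hza, ha⟩ := h4 k H hk hH
  obtain ⟨c3, zb, hc3, hc31, hzb, hb⟩ := h5 k A hk hA
  obtain ⟨zs, hzs, hs⟩ := h2 0 1 one_pos
  obtain ⟨zl, hzl, hl⟩ := h3 k A hk hA
  refine ⟨A, c3, max (max za zb) (max zs zl), hA, hc3, hc31,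
    hza.trans ((le_max_left _ _).trans (le_max_left _ _)), ?_⟩
  intro z e hz he
  have hz1 : za ≤ z := ((le_max_left _ _).trans (le_max_left _ _)).trans hz
  obtain ⟨s1, s2, s3, s4⟩ := hs z (((le_max_left _ _).trans (le_max_right _ _)).trans hz)
  have hb' := hb z e (((le_max_right _ _).trans (le_max_left _ _)).trans hz)
  set w : ℕ := ww A z with hw
  set y : ℕ := yy c3 z with hy
  have hz16 : (16 : ℝ) ≤ z := hza.trans hz1
  have hz16' : 16 ≤ z := by exact_mod_cast hz16
  have hV0 : 0 ≤ Vz z := by
    unfold Vz VV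
    apply Finset.prod_nonneg
    intro p hp
    rw [Finset.mem_filter] at hp
    have h1 : (2 : ℝ) ≤ p := by exact_mod_cast hp.2.two_le
    have h2 : 1 / (p : ℝ) ≤ 1 / 2 := one_div_le_one_div_of_le (by norm_num) h1
    linarith
  have hyA : (y : ℝ) ≤ A * z / Vz z := by
    rw [hy]
    unfold yy
    refine (Nat.floor_le (by positivity)).trans (div_le_div_of_nonneg_right ?_ hV0)
    exact mul_le_mul_of_nonneg_right (hc31.trans hA) (by linarith)
  set L : ℕ := z + k * (w + y) with hL
  obtain ⟨l1, l2, l3, l4, l5⟩ := hl z y L (((le_max_right _ _).trans (le_max_right _ _)).trans hz) hyA hL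
  set J : ℕ → Finset ℕ := fun i => (win z w y i).filter
    (fun j => j.Prime ∧ ∀ p ∈ smp (P0 z) (P1 z) e, ¬ p ∣ j - 2) with hJ
  have hmul : ∀ i, i < k → (i + 1) * (w + y) ≤ k * (w + y) := fun i hi => Nat.mul_le_mul_right _ hi
  have hmul' : ∀ i, (i + 1) * (w + y) = i * (w + y) + (w + y) := fun i => by ring
  obtain ⟨b, hb1, hb2, hb3⟩ := h1 z (P0 z) (P1 z) e k L J ((range k).biUnion (fun i => zon z w y i))
    (by omega) hk s2 s3 (by
      rcases he with he | ⟨he1, he2, _⟩
      · exact Or.inl he
      · exact Or.inr ⟨he1, he2⟩) l4 (by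
      intro i hi j hj
      rw [hJ] at hj
      simp only at hj
      rw [Finset.mem_filter] at hj
      obtain ⟨hj1, hj2, hj3⟩ := hj
      unfold win at hj1
      rw [Finset.mem_Ioc] at hj1
      have e1 := hmul i hi
      have e2 := hmul' i
      exact ⟨by omega, by omega, hj2, hj3⟩) (by
      intro r hr
      rw [Finset.mem_biUnion] at hr
      obtain ⟨i, hi, hri⟩ := hr
      rw [Finset.mem_range] at hi
      unfold zon at hri
      rw [Finset.mem_Ioc] at hri
      have e1 := hmul i hi
      have e2 := hmul' i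
      exact ⟨by omega, by omega⟩) (by
      intro i hi
      rw [Finset.disjoint_left]
      intro j hj hj'
      rw [hJ] at hj
      simp only at hj
      rw [Finset.mem_filter] at hj
      have hj1 := hj.1
      unfold win at hj1
      rw [Finset.mem_Ioc] at hj1
      rw [Finset.mem_biUnion] at hj'
      obtain ⟨i', hi', hri⟩ := hj'
      unfold zon at hri
      rw [Finset.mem_Ioc] at hri
      have e2 := hmul' i
      have e3 := hmul' i'
      rcases lt_trichotomy i i' with h | h | h
      · have e4 : (i + 1) * (w + y) ≤ i' * (w + y) := Nat.mul_le_mul_right _ h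
        omega
      · subst h
        omega
      · have e4 : (i' + 1) * (w + y) ≤ i * (w + y) := Nat.mul_le_mul_right _ h
        omega) (by convert hb')
  refine ⟨b, ?_, ?_, hb3⟩
  · intro i hi r hr
    apply hb1 r
    rw [Finset.mem_biUnion]
    exact ⟨i, Finset.mem_range.2 hi, hr⟩
  · intro i hi
    have e1 := ha z e y i hz1 hyA hi
    have e2 := hb2 i hi
    have e3 : ((J i).filter (fun j => (b + j).Coprime (WW z e))).card ≤
        ((win z w y i).filter (fun j => (b + j).Coprime (WW z e))).card := by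
      apply Finset.card_le_card
      intro j hj
      rw [Finset.mem_filter] at hj ⊢
      refine ⟨?_, hj.2⟩
      have := hj.1
      rw [hJ] at this
      simp only at this
      exact (Finset.mem_filter.1 this).1
    have e4 : (7 : ℝ) * ((J i).card : ℝ) ≤ 8 * (((J i).filter (fun j => (b + j).Coprime (WW z e))).card : ℝ) := by
      exact_mod_cast e2
    have e5 : ((((J i).filter (fun j => (b + j).Coprime (WW z e))).card : ℕ) : ℝ) ≤
        (((win z w y i).filter (fun j => (b + j).Coprime (WW z e))).card : ℝ) := by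
      exact_mod_cast e3
    have e6 : H * (z / Real.log z) ≤ 7 / 8 * ((J i).card : ℝ) := by
      convert e1
    have e7 : H * ((z : ℝ) / Real.log z) ≤
        (((win z w y i).filter (fun j => (b + j).Coprime (WW z e))).card : ℝ) := by linarith
    convert e7

end Pool.Agent.Lib.SG
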