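import Pool.Agent.Lib.SG.SpecB
import Pool.Agent.Lib.SG.Sv2

/-!
MP_9a4459_nt, module Wtu: weighted upper bounds for the integers, primes and pairs of primes in a class mod W.
-/

namespace Pool.Agent.Lib.SG

open Finset Pool.Agent.Lib.BV

theorem tWtu (h1 : PpaStmt) (h2 : DyaStmt) : WtuStmt := by
  obtain ⟨CP, z0, hCP, hz0, hP⟩ := h1
  obtain ⟨CD, hCD, hD⟩ := h2
  refine ⟨CD * (3 + CP), z0, by positivity, hz0, ?_⟩
  intro z W b N0 X s hz hW hWz hWN h4z hs hs1
  have hW0 : (0 : ℝ) < W := by exact_mod_cast hW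
  have hz3 : 3 ≤ z := by
    have : (3 : ℝ) ≤ z := hz0.trans hz
    exact_mod_cast this
  have hN3 : 3 ≤ N0 := by
    have : z < 4 ^ z := Nat.lt_pow_self (by norm_num)
    omega
  have hz1 : 0 < Real.log z := Real.log_pos (by
    have : (3 : ℝ) ≤ z := hz0.trans hz
    linarith)
  have hP' : ∀ N : ℕ, N0 ≤ N → _ := fun N hN => hP z W b N hz hW hWz (hWN.trans hN) (h4z.trans hN)
  have hNlog : ∀ N : ℕ, N0 ≤ N → 0 < Real.log N := by
    intro N hN
    apply Real.log_pos
    have : (3 : ℝ) ≤ N := by exact_mod_cast hN3.trans hN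
    linarith
  refine ⟨?_, ?_, ?_⟩
  · have e1 := hD 0 N0 (fun n => n ≡ b [MOD W]) (3 / W) s (by norm_num) hN3 (by positivity) hs hs1 (by
      intro N hN
      have hWN' : W ≤ N := (Nat.le_self_pow (by norm_num) W).trans (hWN.trans hN)
      have q1 := Ppa_map W b N hW hWN' (fun _ => True)
      obtain ⟨l1, l2⟩ := Ppa_len W N hW hWN'
      have q2 : (((Ioc N (2 * N)).filter (fun n => n ≡ b [MOD W])).card : ℝ) ≤
          (((Ioc N (2 * N)).filter (fun n => n ≡ b [MOD W] ∧ True)).card : ℝ) := by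
        have : (Ioc N (2 * N)).filter (fun n => n ≡ b [MOD W]) ⊆
            (Ioc N (2 * N)).filter (fun n => n ≡ b [MOD W] ∧ True) := by
          intro n hn
          rw [Finset.mem_filter] at hn ⊢
          exact ⟨hn.1, hn.2, trivial⟩
        exact_mod_cast Finset.card_le_card this
      have q3 : (((Ioc (N / W - 1) (2 * N / W)).filter (fun m => N < W * m + b % W ∧ True)).card : ℝ) ≤
          ((Ioc (N / W - 1) (2 * N / W)).card : ℝ) := by
        exact_mod_cast Finset.card_filter_le _ _
      rw [Nat.card_Ioc, Nat.cast_sub l1] at q3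
      rw [pow_zero, div_one]
      have q4 : 3 / (W : ℝ) * N = 3 * ((N : ℝ) / W) := by ring
      rw [q4]
      linarith) X
    refine e1.trans ?_
    have e2 : CD * (3 / W * s⁻¹ ^ (3 - 0)) = CD * 3 / (W * s ^ 3) := by
      rw [show (3 - 0 : ℕ) = 3 from rfl]
      field_simp
    rw [e2]
    apply div_le_div_of_nonneg_right _ (by positivity)
    have : 0 ≤ CD * CP := by positivity
    linarith
  · intro j
    have e1 := hD 1 N0 (fun n => n ≡ b [MOD W] ∧ (n + j).Prime) (CP * Real.log z / W) s (by norm_num) hN3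
      (by positivity) hs hs1 (by
      intro N hN
      refine ((hP' N hN).1 j).trans (le_of_eq ?_)
      have := (hNlog N hN).ne'
      rw [pow_one]
      field_simp) X
    refine e1.trans ?_
    have e2 : CD * (CP * Real.log z / W * s⁻¹ ^ (3 - 1)) = CD * CP * Real.log z / (W * s ^ 2) := by
      rw [show (3 - 1 : ℕ) = 2 from rfl]
      field_simp
    rw [e2]
    apply div_le_div_of_nonneg_right _ (by positivity)
    apply mul_le_mul_of_nonneg_right _ hz1.le
    linarith
  · intro j g hg1 hg
    have e1 := hD 2 N0 (fun n => n ≡ b [MOD W] ∧ (n + j).Prime ∧ (n + (j + g)).Prime)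
      (CP * (Real.log z) ^ 2 / W) s (by norm_num) hN3 (by positivity) hs hs1 (by
      intro N hN
      refine ((hP' N hN).2 j g hg1 hg).trans (le_of_eq ?_)
      have := (hNlog N hN).ne'
      field_simp) X
    refine e1.trans ?_
    have e2 : CD * (CP * (Real.log z) ^ 2 / W * s⁻¹ ^ (3 - 2)) = CD * CP * (Real.log z) ^ 2 / (W * s) := by
      rw [show (3 - 2 : ℕ) = 1 from rfl]
      field_simp
    rw [e2]
    apply div_le_div_of_nonneg_right _ (by positivity)
    apply mul_le_mul_of_nonneg_right _ (sq_nonneg _)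
    linarith

end Pool.Agent.Lib.SG
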