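import Pool.Agent.Lib.SG.SpecA

/-!
MP_9a4459_nt, directory Lib/SG, module Zbd (helper71).
-/

namespace Pool.Agent.Lib.SG

open Finset Pool.Agent.Lib.BV

theorem tZbd (hLbd : LbdStmt) (hZid : ZidStmt) (hLw1 : Lw1Stmt) : ZbdStmt := by
  intro κ hκ
  obtain ⟨C, D1, hC, hD1, h1⟩ := hLbd
  obtain ⟨c, D2, hc, hD2, h2⟩ := hLw1
  refine ⟨C / min κ c, max D1 D2, by positivity, hD1.trans (le_max_left _ _), ?_⟩
  intro q _ D χ s hD hq hg hχ hs hs1
  have hD1' : D1 ≤ D := (le_max_left _ _).trans hD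
  have hD2' : D2 ≤ D := (le_max_right _ _).trans hD
  have hD3 : (3 : ℝ) ≤ D := hD1.trans hD1'
  have hlog : 1 ≤ Real.log D := by
    rw [Real.le_log_iff_exp_le (by linarith)]
    exact (Real.exp_one_lt_three.le).trans hD3
  have hs2 : s ≤ 1 := hs1.trans (by rw [div_le_one (by linarith)]; exact hlog)
  have hlow : min κ c ≤ ‖cX χ (wt D s one)‖ := by
    by_cases h : χ ^ 2 = 1
    · exact (min_le_left _ _).trans (hg χ hχ h s hs hs1)
    · exact (min_le_right _ _).trans (h2 q D χ s hD2' hq h hs hs1)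
  have hm : 0 < min κ c := lt_min hκ hc
  have h3 := (h1 q D χ s hD1' hq hχ hs hs2).2.1
  have h4 := congrArg norm (hZid q χ D s hs)
  rw [norm_mul] at h4
  have h5 : ‖cX χ (wt D s Lam)‖ * min κ c ≤ C * Real.log D := by
    calc ‖cX χ (wt D s Lam)‖ * min κ c
        ≤ ‖cX χ (wt D s Lam)‖ * ‖cX χ (wt D s one)‖ :=
          mul_le_mul_of_nonneg_left hlow (norm_nonneg _)
      _ ≤ C * Real.log D := by rw [h4]; exact h3
  rw [div_mul_eq_mul_div, le_div_iff₀ hm]
  exact h5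

end Pool.Agent.Lib.SG
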