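import Pool.Agent.Lib.SG.Cxl

/-!
MP_9a4459_nt, directory Lib/SG, module Zid (helper71).
-/

namespace Pool.Agent.Lib.SG

open Finset Pool.Agent.Lib.BV


theorem tZid (_hSmz : SmzStmt) (hLch : LchStmt) : ZidStmt := by
  intro q _ χ D s hs
  obtain ⟨M, hM, Φ, h1, h2⟩ := hLch q D
  have hre : 1 < (1 + (s : ℂ)).re := by
    simp only [Complex.add_re, Complex.one_re, Complex.ofReal_re]
    linarith
  rw [Cxl_main χ D (fun n => Φ χ (n : ZMod M)) (h1 χ) Lam s hs, h2 χ s hs,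
    Cxl_main χ D (fun n => Φ χ (n : ZMod M)) (h1 χ) lgn s hs]
  have e1 := DirichletCharacter.LSeriesSummable_twist_vonMangoldt (Φ χ) hre
  have e2 := DirichletCharacter.LSeriesSummable_of_one_lt_re (Φ χ) hre
  have e3 := LSeries_convolution' e1 e2
  rw [DirichletCharacter.convolution_twist_vonMangoldt] at e3
  have e4 : (fun n : ℕ => Φ χ (n : ZMod M) * (Lam n : ℂ)) =
      (fun n : ℕ => Φ χ (n : ZMod M)) * (fun n : ℕ => ((ArithmeticFunction.vonMangoldt n : ℝ) : ℂ)) := by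
    ext n
    rfl
  have e5 : (fun n : ℕ => Φ χ (n : ZMod M) * (lgn n : ℂ)) =
      (fun n : ℕ => Φ χ (n : ZMod M)) * (fun n : ℕ => Complex.log (n : ℂ)) := by
    ext n
    rw [Pi.mul_apply, lgn, Complex.natCast_log]
  rw [e4, e5]
  exact e3.symm

end Pool.Agent.Lib.SG
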