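import Pool.Agent.Lib.SG.SpecC
import Pool.Agent.Lib.SG.Lg

/-!
MP_9a4459_nt, module Znb: few survivors in the zones.
-/

namespace Pool.Agent.Lib.SG

open Finset Pool.Agent.Lib.BV

theorem tZnb (h1 : ClsStmt) (h2 : ZonStmt) (h3 : RnkStmt) (h4 : QprStmt) (h5 : PrsStmt)
    (h6 : PrvStmt) (h7 : PrlStmt) : ZnbStmt := by
  classical
  obtain ⟨C, δ, ps, L0, hC, hδ, hps, hZ⟩ := h2
  obtain ⟨LR, hLR, hR⟩ := h3
  obtain ⟨zq, hzq, hQ⟩ := h4
  obtain ⟨zs, hzs, hs⟩ := h5 ps δ hδ
  obtain ⟨cv, Cv, zv, hcv, hCv, hzv, hv⟩ := h6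
  intro k A hk hA
  have hkR : (1 : ℝ) ≤ k := by exact_mod_cast hk
  obtain ⟨zl, hzl, hl⟩ := h7 k A hk hA
  obtain ⟨ze, hze, he⟩ := Lg_ev (max (128 * k) ((128 * k ^ 2) ^ 2))
  set c3 : ℝ := 1 / (64 * k ^ 2 * (C + 1)) with hc3
  have hc30 : 0 < c3 := by rw [hc3]; positivity
  have hc31 : c3 ≤ 1 := by
    rw [hc3, div_le_one (by positivity)]
    have e1 : (1 : ℝ) ≤ (k : ℝ) ^ 2 := one_le_pow₀ hkR
    have e2 : (1 : ℝ) * 1 ≤ 64 * k ^ 2 * (C + 1) := mul_le_mul (by linarith) (by linarith) (by norm_num) (by positivity)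
    linarith
  refine ⟨c3, max (max (max L0 LR) (max zq zs)) (max (max zv zl) ze), hc30, hc31,
    hze.trans ((le_max_right _ _).trans (le_max_right _ _)), ?_⟩
  intro z e hz
  have hzL0 : L0 ≤ z := ((le_max_left _ _).trans ((le_max_left _ _).trans (le_max_left _ _))).trans hz
  have hzLR : LR ≤ z := ((le_max_right _ _).trans ((le_max_left _ _).trans (le_max_left _ _))).trans hz
  have hq := hQ z e (((le_max_left _ _).trans ((le_max_right _ _).trans (le_max_left _ _))).trans hz)
  obtain ⟨s1, s2, s3, s4⟩ := hs z (((le_max_right _ _).trans ((le_max_right _ _).trans (le_max_left _ _))).trans hz)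
  obtain ⟨v1, v2, v3, v4, v5⟩ := hv z (((le_max_left _ _).trans ((le_max_left _ _).trans (le_max_right _ _))).trans hz)
  obtain ⟨a1, a2, a3, a4, a5, a6, a7⟩ := he z (((le_max_right _ _).trans (le_max_right _ _)).trans hz)
  have hz16 : (16 : ℝ) ≤ z := hLR.trans hzLR
  have hz0 : (0 : ℝ) < z := by linarith
  set w : ℕ := ww A z with hw
  set y : ℕ := yy c3 z with hy
  have hyR : (y : ℝ) ≤ c3 * z / Vz z := by
    rw [hy]
    unfold yy
    exact Nat.floor_le (by positivity)
  have hyA : (y : ℝ) ≤ A * z / Vz z := by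
    refine hyR.trans (div_le_div_of_nonneg_right ?_ v4.le)
    exact mul_le_mul_of_nonneg_right (hc31.trans hA) hz0.le
  set L : ℕ := z + k * (w + y) with hL
  obtain ⟨l1, l2, l3, l4, l5⟩ := hl z y L (((le_max_right _ _).trans ((le_max_left _ _).trans (le_max_right _ _))).trans hz) hyA hL
  have hzL : z ≤ L := Nat.le_add_right _ _
  have hzLR' : (z : ℝ) ≤ L := by exact_mod_cast hzL
  have hlz : 1 ≤ Real.log z := a1
  set l : ℝ := Real.log z with hldef
  have hlL : l ≤ Real.log L := Real.log_le_log hz0 hzLR'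
  have hlL0 : 0 < Real.log L := by linarith
  -- the two kinds of survivors
  set PR : ℕ → Finset ℕ := fun i => (zon z w y i).filter
    (fun j => j.Prime ∧ ∀ p ∈ smp (P0 z) (P1 z) e, ¬ p ∣ j - 2) with hPR
  set SM : Finset ℕ := (Icc 1 L).filter (fun j => ∀ p : ℕ, p.Prime → p ∣ j → p ≤ P1 z ∨ p = e) with hSM
  have hcov : ((range k).biUnion (fun i => zon z w y i)).filter (fun r => Srv z (P0 z) (P1 z) e r) ⊆
      (range k).biUnion PR ∪ SM := by
    intro r hr
    rw [Finset.mem_filter, Finset.mem_biUnion] at hr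
    obtain ⟨⟨i, hi, hri⟩, hS⟩ := hr
    rw [Finset.mem_range] at hi
    have hri' := hri
    unfold zon at hri'
    rw [Finset.mem_Ioc] at hri'
    have e1 : (i + 1) * (w + y) ≤ k * (w + y) := Nat.mul_le_mul_right _ hi
    have hrL : r ≤ L := by omega
    rcases h1 z (P0 z) (P1 z) e L r (by omega) hrL l3 hS with h | h
    · rw [Finset.mem_union]
      left
      rw [Finset.mem_biUnion]
      refine ⟨i, Finset.mem_range.2 hi, ?_⟩
      rw [hPR]
      simp only
      rw [Finset.mem_filter]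
      exact ⟨hri, h, hS.2.2⟩
    · rw [Finset.mem_union]
      right
      rw [hSM, Finset.mem_filter, Finset.mem_Icc]
      exact ⟨⟨by omega, hrL⟩, h⟩
  have hcard1 := (Finset.card_le_card hcov).trans (Finset.card_union_le _ _)
  have hcard2 : ((((range k).biUnion (fun i => zon z w y i)).filter
      (fun r => Srv z (P0 z) (P1 z) e r)).card : ℝ) ≤ ∑ i ∈ range k, ((PR i).card : ℝ) + (SM.card : ℝ) := by
    have e1 : (((range k).biUnion PR).card : ℝ) ≤ ∑ i ∈ range k, ((PR i).card : ℝ) := by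
      have := Finset.card_biUnion_le (s := range k) (t := PR)
      exact_mod_cast this
    have e2 : ((((range k).biUnion (fun i => zon z w y i)).filter
      (fun r => Srv z (P0 z) (P1 z) e r)).card : ℝ) ≤ (((range k).biUnion PR).card : ℝ) + (SM.card : ℝ) := by
      exact_mod_cast hcard1
    linarith
  -- primes
  have hsqrt : (L : ℝ) ^ ((1 : ℝ) / 2) ≤ z / (128 * k ^ 2 * l) := by
    have e1 : (L : ℝ) ^ ((1 : ℝ) / 2) = Real.sqrt L := (Real.sqrt_eq_rpow _).symm
    rw [e1]
    apply Real.sqrt_le_iff.2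
    refine ⟨by positivity, ?_⟩
    refine l2.trans ?_
    rw [div_pow, le_div_iff₀ (by positivity)]
    have e2 : (128 * (k : ℝ) ^ 2) ^ 2 * l ^ 8 ≤ z := by
      refine le_trans ?_ a7
      exact mul_le_mul_of_nonneg_right (le_max_right _ _) (by positivity)
    have e3 : l ^ 3 ≤ l ^ 8 := pow_le_pow_right₀ hlz (by norm_num)
    calc (z : ℝ) * l * (128 * k ^ 2 * l) ^ 2 = z * ((128 * (k : ℝ) ^ 2) ^ 2 * l ^ 3) := by ring
      _ ≤ z * ((128 * (k : ℝ) ^ 2) ^ 2 * l ^ 8) := by
          apply mul_le_mul_of_nonneg_left _ hz0.le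
          exact mul_le_mul_of_nonneg_left e3 (by positivity)
      _ ≤ z * z := mul_le_mul_of_nonneg_left e2 hz0.le
      _ = (z : ℝ) ^ 2 := (sq _).symm
  have hpr : ∀ i ∈ range k, ((PR i).card : ℝ) ≤ C * (c3 * z / l) + z / (128 * k ^ 2 * l) := by
    intro i _
    have e0 : z + i * (w + y) + w ≤ z + (i + 1) * (w + y) := by
      have : (i + 1) * (w + y) = i * (w + y) + (w + y) := by ring
      omega
    have e1 := hZ L (z + i * (w + y) + w) (z + (i + 1) * (w + y)) (P0 z) (P1 z) e (hzL0.trans hzLR') s1 s2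
      (s4.trans (Real.rpow_le_rpow hz0.le hzLR' hδ.le)) e0
    have e2 : ((z + (i + 1) * (w + y) : ℕ) : ℝ) - ((z + i * (w + y) + w : ℕ) : ℝ) = y := by
      push_cast
      ring
    rw [e2] at e1
    have hVV : VV (P0 z) (P1 z) = Vz z := rfl
    rw [hVV] at e1
    have e3 : (y : ℝ) * (Vz z / Real.log L) ≤ c3 * z / l := by
      have e4 : (y : ℝ) * Vz z ≤ c3 * z := by rwa [le_div_iff₀ v4] at hyR
      calc (y : ℝ) * (Vz z / Real.log L) = (y : ℝ) * Vz z / Real.log L := by ring
        _ ≤ c3 * z / Real.log L := div_le_div_of_nonneg_right e4 hlL0.le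
        _ ≤ c3 * z / l := div_le_div_of_nonneg_left (by positivity) (by linarith) hlL
    have e5 := mul_le_mul_of_nonneg_left e3 hC.le
    have e6 : ((PR i).card : ℝ) ≤ C * (y * (Vz z / Real.log L)) + (L : ℝ) ^ ((1 : ℝ) / 2) := by
      refine le_trans (le_of_eq ?_) e1
      rw [Nat.cast_inj]
      refine congrArg Finset.card ?_
      ext j
      rw [hPR, Finset.mem_filter, Finset.mem_filter]
      rfl
    linarith
  have hsum := Finset.sum_le_sum hpr
  rw [Finset.sum_const, Finset.card_range, nsmul_eq_mul] at hsum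
  -- smooth
  have hsm : (SM.card : ℝ) ≤ z / l ^ 4 := by
    have e1 := hR L (P1 z) e (hzLR.trans hzLR') l5
    have e2 : (SM.card : ℝ) ≤ L / (Real.log L) ^ 5 := by
      refine le_trans (le_of_eq ?_) e1
      rw [Nat.cast_inj]
    refine e2.trans ?_
    calc (L : ℝ) / (Real.log L) ^ 5 ≤ L / l ^ 5 :=
          div_le_div_of_nonneg_left (by linarith) (by positivity) (pow_le_pow_left₀ (by linarith) hlL 5)
      _ ≤ z * l / l ^ 5 := div_le_div_of_nonneg_right l2 (by positivity)
      _ = z / l ^ 4 := by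
          have : l ≠ 0 := by linarith
          field_simp
  have hsm2 : 8 * (k : ℝ) * (z / l ^ 4) ≤ z / (16 * l) := by
    rw [mul_div_assoc', div_le_div_iff₀ (by positivity) (by positivity)]
    have e1 : 128 * (k : ℝ) ≤ l := by
      have e2 : 128 * (k : ℝ) ≤ Real.log (Real.log l) := (le_max_left _ _).trans a4
      have e3 : Real.log (Real.log l) ≤ Real.log l := (Real.log_le_sub_one_of_pos (by linarith)).trans (by linarith)
      have e4 : Real.log l ≤ l := (Real.log_le_sub_one_of_pos (by linarith)).trans (by linarith)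
      linarith
    have e2 : l ≤ l ^ 3 := le_self_pow₀ hlz (by norm_num)
    calc 8 * (k : ℝ) * z * (16 * l) = z * l * (128 * k) := by ring
      _ ≤ z * l * l ^ 3 := mul_le_mul_of_nonneg_left (e1.trans e2) (by positivity)
      _ = z * l ^ 4 := by ring
  have hfin : 8 * (k : ℝ) * ((((range k).biUnion (fun i => zon z w y i)).filter
      (fun r => Srv z (P0 z) (P1 z) e r)).card : ℝ) ≤ ((topp z e).card : ℝ) := by
    refine le_trans ?_ hq
    have e1 := mul_le_mul_of_nonneg_left (hcard2.trans (add_le_add hsum hsm)) (by positivity : (0 : ℝ) ≤ 8 * k)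
    refine e1.trans ?_
    have e2 : 8 * (k : ℝ) * (k * (C * (c3 * z / l) + z / (128 * k ^ 2 * l)) + z / l ^ 4) =
        (C / (C + 1)) * (z / (8 * l)) + z / (16 * l) + 8 * k * (z / l ^ 4) := by
      rw [hc3]
      have hl0 : l ≠ 0 := by linarith
      have hk0 : (k : ℝ) ≠ 0 := by linarith
      have hC1 : C + 1 ≠ 0 := by linarith
      field_simp
      ring
    rw [e2]
    have e3 : C / (C + 1) ≤ 1 := by
      rw [div_le_one (by linarith)]
      linarith
    have e4 : 0 ≤ (z : ℝ) / (8 * l) := by positivity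
    have e5 := mul_le_mul_of_nonneg_right e3 e4
    have e6 : (z : ℝ) / (4 * l) = 1 * (z / (8 * l)) + z / (16 * l) + z / (16 * l) := by
      have hl0 : l ≠ 0 := by linarith
      field_simp
      ring
    rw [e6]
    linarith
  exact_mod_cast hfin

end Pool.Agent.Lib.SG
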