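import Pool.Agent.Lib.SG.SpecB
import Pool.Agent.Lib.SG.Sv2

/-!
MP_9a4459_nt, module Zon: upper bound for the primes with conditions modulo the primes of smp.
-/

namespace Pool.Agent.Lib.SG

open Finset Pool.Agent.Lib.BV

theorem tZon (h1 : VbdStmt) (h2 : GsvStmt) : ZonStmt := by
  classical
  obtain ⟨c0, C0, hc0, hC0, hV⟩ := h1
  obtain ⟨C1, ps, E, hC1, hps, hE, hS⟩ := h2
  have hER : (1 : ℝ) ≤ E := by exact_mod_cast hE
  have hpsR : (16 : ℝ) ≤ ps := by exact_mod_cast hps
  obtain ⟨L1, hL1, hy⟩ := Sv_par E (ps + 1)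
  have hlps : 0 < Real.log ps := Real.log_pos (by linarith)
  set K : ℝ := C1 * (C0 * (Real.log ps * (8 * E + 8)) * 2) with hK
  have hKp : 0 < K := by rw [hK]; positivity
  refine ⟨K, 1 / (8 * E + 8), ps, L1, hKp, by positivity, by linarith, ?_⟩
  intro L N N2 p0 p1 e hL hp0 h01 hp1 hN
  obtain ⟨y1, y2, y3, y4, y5⟩ := hy L hL
  have hLR : (16 : ℝ) ≤ L := hL1.trans hL
  have hLp : (0 : ℝ) < L := by linarith
  set y : ℕ := ⌊(L : ℝ) ^ (1 / (4 * (E : ℝ) + 4))⌋₊ with hydef
  have hp0' : ps ≤ p0 := by exact_mod_cast hp0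
  have hp1' : p1 ≤ y := by
    have : (p1 : ℝ) ≤ y := hp1.trans y2
    exact_mod_cast this
  have hpsy : ps ≤ y := by omega
  set T : Finset ℕ := (Ioc ps y).filter Nat.Prime with hT
  set R : ℕ → Finset ℕ := fun p => if p ∈ smp p0 p1 e then {0, 2} else {0} with hR
  have hTm : ∀ p ∈ T, p.Prime ∧ ps < p ∧ p ≤ y := by
    intro p hp
    rw [hT, Finset.mem_filter, Finset.mem_Ioc] at hp
    exact ⟨hp.2, hp.1.1, hp.1.2⟩
  have hmain := hS y T R N N2 hN (by
    intro p hp
    obtain ⟨a1, a2, a3⟩ := hTm p hp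
    refine ⟨a1, a2, a3, ?_, ?_⟩
    · intro c hc
      rw [hR] at hc
      simp only at hc
      rw [Finset.mem_range]
      split_ifs at hc
      · rw [Finset.mem_insert, Finset.mem_singleton] at hc
        omega
      · rw [Finset.mem_singleton] at hc
        omega
    · rw [hR]
      simp only
      split_ifs
      · exact (Finset.card_insert_le _ _).trans (by simp)
      · simp)
  have hprod : ∏ p ∈ T, (1 - ((R p).card : ℝ) / p) ≤ VV ps y * (2 * VV p0 p1) := by
    have e1 : ∏ p ∈ T, (1 - ((R p).card : ℝ) / p) ≤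
        ∏ p ∈ T, ((1 - 1 / (p : ℝ)) * (if p ∈ smp p0 p1 e then 1 - 1 / (p : ℝ) else 1)) := by
      apply Finset.prod_le_prod
      · intro p hp
        have a2 := (hTm p hp).2.1
        have a3 : (16 : ℝ) ≤ p := by exact_mod_cast (by omega : 16 ≤ p)
        have a4 : ((R p).card : ℝ) ≤ 2 := by
          rw [hR]
          simp only
          split_ifs
          · have : (({0, 2} : Finset ℕ).card) ≤ 2 := (Finset.card_insert_le _ _).trans (by simp)
            exact_mod_cast this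
          · simp
        have a5 : ((R p).card : ℝ) / p ≤ 1 := by
          rw [div_le_one (by linarith)]
          linarith
        linarith
      · intro p hp
        have a2 := (hTm p hp).2.1
        have a3 : (16 : ℝ) ≤ p := by exact_mod_cast (by omega : 16 ≤ p)
        rw [hR]
        simp only
        split_ifs
        · have a4 : ((({0, 2} : Finset ℕ).card : ℕ) : ℝ) = 2 := by
            rw [Finset.card_pair (by norm_num)]
            norm_num
          rw [a4]
          have a5 : (1 - 1 / (p : ℝ)) * (1 - 1 / (p : ℝ)) = 1 - 2 / p + (1 / (p : ℝ)) ^ 2 := by ring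
          rw [a5]
          have := sq_nonneg (1 / (p : ℝ))
          linarith
        · rw [Finset.card_singleton, mul_one]
          push_cast
          exact le_rfl
    refine e1.trans ?_
    rw [Finset.prod_mul_distrib]
    have e2 := Sv_split T (smp p0 p1 e) (Sv_sub ps y p0 p1 e hp0' hp1') (fun p => 1 - 1 / (p : ℝ))
    rw [e2]
    exact mul_le_mul_of_nonneg_left (Sv_smp p0 p1 e) (Sv_VV_nonneg ps y)
  have hcnt : (((Ioc N N2).filter (fun j => y < j ∧ (j.Prime ∧ ∀ p ∈ smp p0 p1 e, ¬ p ∣ j - 2))).card : ℝ) ≤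
      (((Ioc N N2).filter (fun n => ∀ p ∈ T, n % p ∉ R p)).card : ℝ) := by
    have e1 : (Ioc N N2).filter (fun j => y < j ∧ (j.Prime ∧ ∀ p ∈ smp p0 p1 e, ¬ p ∣ j - 2)) ⊆
        (Ioc N N2).filter (fun n => ∀ p ∈ T, n % p ∉ R p) := by
      intro j hj
      rw [Finset.mem_filter] at hj ⊢
      obtain ⟨b1, b2, b3, b4⟩ := hj
      refine ⟨b1, fun p hp hjp => ?_⟩
      obtain ⟨a1, a2, a3⟩ := hTm p hp
      have c1 : j % p ≠ 0 := by
        intro h
        have := (Nat.prime_dvd_prime_iff_eq a1 b3).1 (Nat.dvd_of_mod_eq_zero h)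
        omega
      rw [hR] at hjp
      simp only at hjp
      split_ifs at hjp with hm
      · rw [Finset.mem_insert, Finset.mem_singleton] at hjp
        rcases hjp with h | h
        · exact c1 h
        · apply b4 p hm
          have c2 := Nat.div_add_mod j p
          rw [h] at c2
          exact ⟨j / p, by omega⟩
      · rw [Finset.mem_singleton] at hjp
        exact c1 hjp
    exact_mod_cast Finset.card_le_card e1
  have hsm := Sv_small N N2 y (fun j => j.Prime ∧ ∀ p ∈ smp p0 p1 e, ¬ p ∣ j - 2)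
  have hsm' : (((Ioc N N2).filter (fun j => j.Prime ∧ ∀ p ∈ smp p0 p1 e, ¬ p ∣ j - 2)).card : ℝ) ≤
      (((Ioc N N2).filter (fun j => y < j ∧ (j.Prime ∧ ∀ p ∈ smp p0 p1 e, ¬ p ∣ j - 2))).card : ℝ) + y := by
    convert hsm
  have hlL : 0 < Real.log L := Real.log_pos (by linarith)
  have hly : 0 < Real.log y := lt_of_lt_of_le (by positivity) y5
  have hVy : VV ps y ≤ C0 * (Real.log ps * (8 * E + 8)) / Real.log L := by
    refine (hV ps y (by omega) hpsy).2.trans ?_
    rw [mul_div_assoc]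
    apply mul_le_mul_of_nonneg_left _ hC0.le
    rw [div_le_div_iff₀ hly hlL]
    have q1 := mul_le_mul_of_nonneg_left y5 (by positivity : 0 ≤ Real.log ps * (8 * E + 8))
    have q2 : Real.log ps * (8 * E + 8) * (Real.log L / (8 * (E : ℝ) + 8)) = Real.log ps * Real.log L := by
      field_simp
    rw [q2] at q1
    exact q1
  have hN2 : (0 : ℝ) ≤ (N2 : ℝ) - N := by
    have : (N : ℝ) ≤ N2 := by exact_mod_cast hN
    linarith
  have hbig : C1 * (((N2 : ℝ) - N) * ∏ p ∈ T, (1 - ((R p).card : ℝ) / p)) ≤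
      K * (((N2 : ℝ) - N) * (VV p0 p1 / Real.log L)) := by
    have q1 : ∏ p ∈ T, (1 - ((R p).card : ℝ) / p) ≤
        C0 * (Real.log ps * (8 * E + 8)) / Real.log L * (2 * VV p0 p1) :=
      hprod.trans (mul_le_mul_of_nonneg_right hVy (by linarith [Sv_VV_nonneg p0 p1]))
    calc C1 * (((N2 : ℝ) - N) * ∏ p ∈ T, (1 - ((R p).card : ℝ) / p)) ≤
        C1 * (((N2 : ℝ) - N) * (C0 * (Real.log ps * (8 * E + 8)) / Real.log L * (2 * VV p0 p1))) :=
          mul_le_mul_of_nonneg_left (mul_le_mul_of_nonneg_left q1 hN2) (by linarith)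
      _ = _ := by rw [hK]; ring
  have hL4 : 2 ≤ (L : ℝ) ^ ((1 : ℝ) / 4) := by
    have := y4
    have : (ps : ℝ) + 1 ≤ (L : ℝ) ^ ((1 : ℝ) / 4) := y1.trans y4
    linarith
  have hL2 : (L : ℝ) ^ ((1 : ℝ) / 2) = (L : ℝ) ^ ((1 : ℝ) / 4) * (L : ℝ) ^ ((1 : ℝ) / 4) := by
    rw [← Real.rpow_add hLp]
    norm_num
  have hL3 : 2 * (L : ℝ) ^ ((1 : ℝ) / 4) ≤ (L : ℝ) ^ ((1 : ℝ) / 2) := by
    rw [hL2]
    exact mul_le_mul_of_nonneg_right hL4 (by linarith)
  linarith

end Pool.Agent.Lib.SG
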