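import Pool.Agent.Lib.BV.All
import Pool.Agent.Lib.SG.Smz
import Pool.Agent.Lib.SG.Abl
import Pool.Agent.Lib.SG.Cdf
import Pool.Agent.Lib.SG.Dif
import Pool.Agent.Lib.SG.Cxu
import Pool.Agent.Lib.SG.Lbd
import Pool.Agent.Lib.SG.L0
import Pool.Agent.Lib.SG.Lch
import Pool.Agent.Lib.SG.Zid
import Pool.Agent.Lib.SG.Tfo
import Pool.Agent.Lib.SG.Fou
import Pool.Agent.Lib.SG.Lw1
import Pool.Agent.Lib.SG.Exc
import Pool.Agent.Lib.SG.Zbd
import Pool.Agent.Lib.SG.Btp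
import Pool.Agent.Lib.SG.Abt
import Pool.Agent.Lib.SG.Ppw
import Pool.Agent.Lib.SG.Ptb
import Pool.Agent.Lib.SG.Cnv
import Pool.Agent.Lib.SG.Sid
import Pool.Agent.Lib.SG.Gid
import Pool.Agent.Lib.SG.Gdf
import Pool.Agent.Lib.SG.Dpq
import Pool.Agent.Lib.SG.Or3
import Pool.Agent.Lib.SG.Ode
import Pool.Agent.Lib.SG.Mrt
import Pool.Agent.Lib.SG.Qlo
import Pool.Agent.Lib.SG.Pna
import Pool.Agent.Lib.SG.Pnf
import Pool.Agent.Lib.SG.Swl
import Pool.Agent.Lib.SG.Gdw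
import Pool.Agent.Lib.SG.Vbd
import Pool.Agent.Lib.SG.Phw
import Pool.Agent.Lib.SG.Gcr
import Pool.Agent.Lib.SG.Gad
import Pool.Agent.Lib.SG.Gbl
import Pool.Agent.Lib.SG.Gsv
import Pool.Agent.Lib.SG.Ppa
import Pool.Agent.Lib.SG.Dya
import Pool.Agent.Lib.SG.Wtu
import Pool.Agent.Lib.SG.Apr
import Pool.Agent.Lib.SG.Sgf
import Pool.Agent.Lib.SG.Sgm
import Pool.Agent.Lib.SG.Zon
import Pool.Agent.Lib.SG.Win
import Pool.Agent.Lib.SG.Rnk
import Pool.Agent.Lib.SG.Qpr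
import Pool.Agent.Lib.SG.Cls
import Pool.Agent.Lib.SG.Mat
import Pool.Agent.Lib.SG.Cov
import Pool.Agent.Lib.SG.Prs
import Pool.Agent.Lib.SG.Prv
import Pool.Agent.Lib.SG.Prl
import Pool.Agent.Lib.SG.Wna
import Pool.Agent.Lib.SG.Znb
import Pool.Agent.Lib.SG.Wnd
import Pool.Agent.Lib.SG.Smt
import Pool.Agent.Lib.SG.Gap
import Pool.Agent.Lib.SG.Fe
import Pool.Agent.Lib.SG.Fsq
import Pool.Agent.Lib.SG.Occ
import Pool.Agent.Lib.SG.Agb
import Pool.Agent.Lib.SG.Csa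
import Pool.Agent.Lib.SG.Prp
import Pool.Agent.Lib.SG.Rho
import Pool.Agent.Lib.SG.Fnl

/-!
Composition of the modules of Lib/SG (MP_9a4459_nt): the final theorem FnlStmt.
-/

namespace Pool.Agent.Lib.SG

theorem uSmz : SmzStmt := tSmz
theorem uAbl : AblStmt := tAbl uSmz
theorem uCdf : CdfStmt := tCdf Pool.Agent.Lib.BV.aFl Pool.Agent.Lib.BV.aUb
theorem uDif : DifStmt := tDif uSmz uAbl uCdf
theorem uCxu : CxuStmt := tCxu
theorem uLbd : LbdStmt := tLbd uSmz uDif uCxu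
theorem uL0 : L0Stmt := tL0 uSmz Pool.Agent.Lib.BV.aRou
theorem uLch : LchStmt := tLch
theorem uZid : ZidStmt := tZid uSmz uLch
theorem uTfo : TfoStmt := tTfo uLch
theorem uFou : FouStmt := tFou uLch
theorem uLw1 : Lw1Stmt := tLw1 uSmz uLbd uL0 uTfo
theorem uExc : ExcStmt := tExc uSmz uLbd uL0 uFou
theorem uZbd : ZbdStmt := tZbd uLbd uZid uLw1
theorem uBtp : BtpStmt := tBtp Pool.Agent.Lib.BV.aUb
theorem uAbt : AbtStmt := tAbt uSmz uBtp
theorem uPpw : PpwStmt := tPpw uSmz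
theorem uPtb : PtbStmt := tPtb uSmz uAbt uPpw
theorem uCnv : CnvStmt := tCnv
theorem uSid : SidStmt := tSid
theorem uGid : GidStmt := tGid uSmz uCnv
theorem uGdf : GdfStmt := tGdf uSmz uDif uL0 uCnv uSid
theorem uDpq : DpqStmt := tDpq uSmz
theorem uOr3 : Or3Stmt := tOr3
theorem uOde : OdeStmt := tOde uOr3
theorem uMrt : MrtStmt := tMrt
theorem uQlo : QloStmt := tQlo uSmz uMrt
theorem uPna : PnaStmt := tPna uSmz uCxu uZbd uPtb uGid uGdf uDpq uOde uQlo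
theorem uPnf : PnfStmt := tPnf uSmz uAbt uPpw uPna
theorem uSwl : SwlStmt := tSwl uSmz Pool.Agent.Lib.BV.aSw uLch
theorem uGdw : GdwStmt := tGdw uExc uSwl
theorem uVbd : VbdStmt := tVbd uMrt
theorem uPhw : PhwStmt := tPhw Pool.Agent.Lib.BV.aMpr
theorem uGcr : GcrStmt := tGcr
theorem uGad : GadStmt := tGad
theorem uGbl : GblStmt := tGbl uMrt
theorem uGsv : GsvStmt := tGsv uGcr uGad uGbl
theorem uPpa : PpaStmt := tPpa uVbd uGsv
theorem uDya : DyaStmt := tDya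
theorem uWtu : WtuStmt := tWtu uPpa uDya
theorem uApr : AprStmt := tApr uVbd uGsv
theorem uSgf : SgfStmt := tSgf
theorem uSgm : SgmStmt := tSgm uSgf
theorem uZon : ZonStmt := tZon uVbd uGsv
theorem uWin : WinStmt := tWin uVbd uGad uGbl Pool.Agent.Lib.BV.aFin
theorem uRnk : RnkStmt := tRnk uMrt
theorem uQpr : QprStmt := tQpr Pool.Agent.Lib.BV.aPnt
theorem uCls : ClsStmt := tCls
theorem uMat : MatStmt := tMat
theorem uCov : CovStmt := tCov uMat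
theorem uPrs : PrsStmt := tPrs
theorem uPrv : PrvStmt := tPrv uVbd uPrs
theorem uPrl : PrlStmt := tPrl uPrv
theorem uWna : WnaStmt := tWna uWin uPrs uPrv uPrl
theorem uZnb : ZnbStmt := tZnb uCls uZon uRnk uQpr uPrs uPrv uPrl
theorem uWnd : WndStmt := tWnd uCov uPrs uPrl uWna uZnb
theorem uSmt : SmtStmt := tSmt
theorem uGap : GapStmt := tGap
theorem uFe : FeStmt := tFe uPhw uPnf
theorem uFsq : FsqStmt := tFsq uWtu
theorem uOcc : OccStmt := tOcc uGdw uWtu uPrl uWnd uSmt uFe uFsq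
theorem uAgb : AgbStmt := tAgb uWtu uGap
theorem uCsa : CsaStmt := tCsa uCls uApr uSgm uRnk uPrs uPrv uPrl
theorem uPrp : PrpStmt := tPrp uPrv uPrl uOcc uAgb uCsa
theorem uRho : RhoStmt := tRho
theorem uFnl : FnlStmt := tFnl uPrp uRho

end Pool.Agent.Lib.SG
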