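import Pool.Agent.Lib.SG.SpecA

namespace Pool.Agent.Lib.SG

open Finset Pool.Agent.Lib.BV

private theorem Btp_rr0 (D n : ℕ) : 0 ≤ rr D n := by
  unfold rr
  split_ifs <;> norm_num

private theorem Btp_prime {z p : ℕ} (hp : p.Prime) (h : z < p) : rr z p = 1 := by
  unfold rr
  rw [if_pos]
  intro r hr hrp
  rw [(Nat.prime_dvd_prime_iff_eq hr hp).1 hrp]
  exact h

private theorem Btp_card (q a N z : ℕ) :
    (((Icc 1 N).filter (fun p => p.Prime ∧ p ≡ a [MOD q])).card : ℝ) ≤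
      z + ∑ n ∈ (Ioc 0 N).filter (fun n => n ≡ a [MOD q]), rr z n := by
  have h1 : (((Icc 1 N).filter (fun p => p.Prime ∧ p ≡ a [MOD q])).card : ℝ) ≤
      ∑ n ∈ (Icc 1 N).filter (fun p => p.Prime ∧ p ≡ a [MOD q]),
        ((if n ≤ z then (1 : ℝ) else 0) + rr z n) := by
    rw [Finset.card_eq_sum_ones]
    push_cast
    refine Finset.sum_le_sum fun p hp => ?_
    rw [mem_filter] at hp
    by_cases hz : p ≤ z
    · rw [if_pos hz]
      have := Btp_rr0 z p
      linarith
    · rw [if_neg hz, Btp_prime hp.2.1 (not_le.1 hz)]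
      norm_num
  refine h1.trans ?_
  rw [Finset.sum_add_distrib]
  apply add_le_add
  · rw [← Finset.sum_filter, Finset.sum_const, nsmul_eq_mul, mul_one]
    have h2 : (((Icc 1 N).filter (fun p => p.Prime ∧ p ≡ a [MOD q])).filter (fun n => n ≤ z)) ⊆
        Icc 1 z := by
      intro p hp
      simp only [mem_filter, mem_Icc] at hp ⊢
      exact ⟨hp.1.1.1, hp.2⟩
    have h3 := Finset.card_le_card h2
    rw [Nat.card_Icc] at h3
    exact_mod_cast h3
  · refine Finset.sum_le_sum_of_subset_of_nonneg ?_ fun p _ _ => Btp_rr0 z p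
    intro p hp
    simp only [mem_filter, mem_Icc, mem_Ioc] at hp ⊢
    exact ⟨⟨by omega, hp.1.2⟩, hp.2.2⟩

theorem tBtp (h1 : UbStmt) : BtpStmt := by
  obtain ⟨C, hC, hU⟩ := h1
  refine ⟨128 * C + 8, 2 ^ 128, by positivity, by norm_num, ?_⟩
  intro q a N hq hN hqN hcop
  have hNr : (0 : ℝ) < N := lt_of_lt_of_le (by positivity) hN
  obtain ⟨y, hy0, hy64⟩ : ∃ y : ℝ, 0 ≤ y ∧ y ^ 64 = N := by
    refine ⟨(N : ℝ) ^ ((1 : ℝ) / 64), Real.rpow_nonneg hNr.le _, ?_⟩
    rw [← Real.rpow_natCast, ← Real.rpow_mul hNr.le]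
    norm_num
  have hy4 : 4 ≤ y := by
    have h4 : (4 : ℝ) ^ 64 ≤ y ^ 64 := by
      rw [hy64]
      have h5 : (4 : ℝ) ^ 64 = 2 ^ 128 := by norm_num
      rw [h5]
      exact hN
    exact le_of_pow_le_pow_left₀ (by norm_num) hy0 h4
  set z : ℕ := ⌊y⌋₊ with hz
  have hzy : (z : ℝ) ≤ y := Nat.floor_le hy0
  have hzy' : y - 1 ≤ z := (Nat.sub_one_lt_floor y).le
  have hz3 : (3 : ℝ) ≤ z := by linarith
  have hz2 : 2 ≤ z := by
    have : (2 : ℝ) ≤ z := by linarith
    exact_mod_cast this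
  have hlogN : Real.log N = 64 * Real.log y := by
    rw [← hy64, Real.log_pow]; norm_num
  have hlogy : 0 < Real.log y := Real.log_pos (by linarith)
  have hlogNp : 0 < Real.log N := by rw [hlogN]; positivity
  have hlogz : Real.log N / 128 ≤ Real.log z := by
    have h2 : y ≤ (z : ℝ) ^ 2 := by nlinarith
    have h3 : Real.log y ≤ 2 * Real.log z := by
      have h4 := Real.log_le_log (by linarith) h2
      rw [Real.log_pow] at h4
      exact_mod_cast h4
    rw [hlogN]
    linarith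
  have hφ0 : 0 < (q.totient : ℝ) := by
    exact_mod_cast Nat.totient_pos.2 (by omega)
  have hy16 : (0 : ℝ) ≤ y ^ 16 := by positivity
  have hφ : (q.totient : ℝ) ≤ y ^ 16 := by
    have h2 : (q.totient : ℝ) ≤ q := by exact_mod_cast Nat.totient_le q
    have h3 : (q : ℝ) ^ 4 ≤ (y ^ 16) ^ 4 := by
      rw [← pow_mul, hy64]
      exact_mod_cast hqN
    exact h2.trans (le_of_pow_le_pow_left₀ (by norm_num) hy16 h3)
  have hlog16 : Real.log N ≤ 4 * y ^ 16 := by
    have h2 : Real.log N = 4 * Real.log (y ^ 16) := by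
      rw [hlogN, Real.log_pow]; push_cast; ring
    rw [h2]
    have h3 := Real.log_le_sub_one_of_pos (x := y ^ 16) (by positivity)
    linarith
  have hub := hU z q a 0 N hz2 hq hcop (Nat.zero_le N)
  have hcard := Btp_card q a N z
  have e1 : C * (((N : ℝ) - (0 : ℕ)) / ((q.totient : ℝ) * Real.log z)) ≤
      128 * C * ((N : ℝ) / ((q.totient : ℝ) * Real.log N)) := by
    have h5 : (N : ℝ) / ((q.totient : ℝ) * Real.log z) ≤
        N / ((q.totient : ℝ) * (Real.log N / 128)) := by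
      apply div_le_div_of_nonneg_left hNr.le (by positivity)
      exact mul_le_mul_of_nonneg_left hlogz hφ0.le
    calc C * (((N : ℝ) - (0 : ℕ)) / ((q.totient : ℝ) * Real.log z)) =
        C * ((N : ℝ) / ((q.totient : ℝ) * Real.log z)) := by
          rw [Nat.cast_zero, sub_zero]
      _ ≤ C * (N / ((q.totient : ℝ) * (Real.log N / 128))) :=
          mul_le_mul_of_nonneg_left h5 hC.le
      _ = _ := by field_simp
  have e2 : (z : ℝ) + (z : ℝ) ^ 16 ≤ 8 * ((N : ℝ) / ((q.totient : ℝ) * Real.log N)) := by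
    have h6 : (z : ℝ) ^ 16 ≤ y ^ 16 := pow_le_pow_left₀ (by positivity) hzy 16
    have h7 : (z : ℝ) ≤ y ^ 16 := hzy.trans (le_self_pow₀ (by linarith) (by norm_num))
    have h8 : (q.totient : ℝ) * Real.log N ≤ y ^ 16 * (4 * y ^ 16) := by gcongr
    have h9 : 2 * y ^ 16 ≤ 8 * ((N : ℝ) / ((q.totient : ℝ) * Real.log N)) := by
      rw [← mul_div_assoc, le_div_iff₀ (by positivity)]
      calc 2 * y ^ 16 * ((q.totient : ℝ) * Real.log N) ≤ 2 * y ^ 16 * (y ^ 16 * (4 * y ^ 16)) := by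
            gcongr
        _ = 8 * y ^ 48 := by ring
        _ ≤ 8 * y ^ 64 := by
            have : y ^ 48 ≤ y ^ 64 := pow_le_pow_right₀ (by linarith) (by norm_num)
            linarith
        _ = 8 * N := by rw [hy64]
    linarith
  calc _ ≤ (z : ℝ) + ∑ n ∈ (Ioc 0 N).filter (fun n => n ≡ a [MOD q]), rr z n := hcard
    _ ≤ z + (128 * C * ((N : ℝ) / ((q.totient : ℝ) * Real.log N)) + (z : ℝ) ^ 16) := by
        linarith
    _ ≤ (128 * C + 8) * ((N : ℝ) / ((q.totient : ℝ) * Real.log N)) := by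
        rw [add_mul]; linarith

end Pool.Agent.Lib.SG
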