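import Pool.Agent.Lib.SG.SpecC
import Pool.Agent.Lib.SG.Occ

/-!
MP_9a4459_nt, module Csa: the Cauchy-Schwarz step.
-/

namespace Pool.Agent.Lib.SG

open Finset Pool.Agent.Lib.BV

private lemma Csa_sqrt (C' B V L z Gc : ℝ) (hC' : 0 ≤ C') (hB : 0 ≤ B) (hV : 0 ≤ V)
    (hz : 0 < z) (hG : 0 ≤ Gc) (hLV : L * V ≤ B * z) :
    L * V ^ 2 * Real.sqrt (Gc * (C' * L)) ≤ (B * Real.sqrt (C' * B)) * (z ^ 2 * Real.sqrt (Gc * V / z)) := by
  have e1 : V * Real.sqrt (Gc * (C' * L)) = Real.sqrt (C' * (L * V) * (Gc * V)) := by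
    have h1 : C' * (L * V) * (Gc * V) = V ^ 2 * (Gc * (C' * L)) := by ring
    rw [h1, Real.sqrt_mul (sq_nonneg V), Real.sqrt_sq hV]
  have e2 : Real.sqrt (C' * (L * V) * (Gc * V)) ≤ Real.sqrt (C' * (B * z) * (Gc * V)) := by
    apply Real.sqrt_le_sqrt
    exact mul_le_mul_of_nonneg_right (mul_le_mul_of_nonneg_left hLV hC') (mul_nonneg hG hV)
  have e3 : Real.sqrt (C' * (B * z) * (Gc * V)) = Real.sqrt (C' * B) * (z * Real.sqrt (Gc * V / z)) := by
    have h1 : C' * (B * z) * (Gc * V) = (C' * B) * (z ^ 2 * (Gc * V / z)) := by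
      field_simp
    rw [h1, Real.sqrt_mul (mul_nonneg hC' hB), Real.sqrt_mul (sq_nonneg z), Real.sqrt_sq hz.le]
  calc L * V ^ 2 * Real.sqrt (Gc * (C' * L)) = (L * V) * (V * Real.sqrt (Gc * (C' * L))) := by ring
    _ ≤ (B * z) * (Real.sqrt (C' * B) * (z * Real.sqrt (Gc * V / z))) := by
        rw [e1, ← e3]
        exact mul_le_mul hLV e2 (Real.sqrt_nonneg _) (mul_nonneg hB hz.le)
    _ = _ := by ring

theorem tCsa (h1 : ClsStmt) (h2 : AprStmt) (h3 : SgmStmt) (h4 : RnkStmt) (h5 : PrsStmt)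
    (h6 : PrvStmt) (h7 : PrlStmt) : CsaStmt := by
  classical
  obtain ⟨C1, δ, ps, LA, hC1, hδ, hps, hAp⟩ := h2
  obtain ⟨C', hC', hSg⟩ := h3
  obtain ⟨LR, hLR, hR⟩ := h4
  obtain ⟨zs, hzs, hs⟩ := h5 ps δ hδ
  obtain ⟨cv, Cv, zv, hcv, hCv, hzv, hv⟩ := h6
  intro k A hk hA
  have hkR : (1 : ℝ) ≤ k := by exact_mod_cast hk
  obtain ⟨zl, hzl, hl⟩ := h7 k A hk hA
  set B : ℝ := 4 * k * A with hB
  have hBp : 0 < B := by rw [hB]; positivity
  refine ⟨C1 * (B * Real.sqrt (C' * B)) + 1, max (max LA LR) (max (max zs zv) zl), by positivity,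
    (hLR.trans (le_max_right _ _)).trans (le_max_left _ _), ?_⟩
  intro z e y L Sv G hz hy hL hSv hG
  have hz1 : LA ≤ z := ((le_max_left _ _).trans (le_max_left _ _)).trans hz
  have hz2 : LR ≤ z := ((le_max_right _ _).trans (le_max_left _ _)).trans hz
  obtain ⟨s1, s2, s3, s4⟩ := hs z (((le_max_left _ _).trans ((le_max_left _ _).trans (le_max_right _ _))).trans hz)
  obtain ⟨v1, v2, v3, v4, v5⟩ := hv z (((le_max_right _ _).trans ((le_max_left _ _).trans (le_max_right _ _))).trans hz)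
  obtain ⟨l1, l2, l3, l4, l5⟩ := hl z y L (((le_max_right _ _).trans (le_max_right _ _)).trans hz) hy hL
  have hz16 : (16 : ℝ) ≤ z := hLR.trans hz2
  have hz0 : (0 : ℝ) < z := by linarith
  have hzL : z ≤ L := by rw [hL]; exact Nat.le_add_right _ _
  have hzLR : (z : ℝ) ≤ L := by exact_mod_cast hzL
  have hL0 : (0 : ℝ) < L := by linarith
  set l : ℝ := Real.log z with hldef
  have hl1 : 1 ≤ l := by
    rw [hldef, Real.le_log_iff_exp_le hz0]
    have := Real.exp_one_lt_d9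
    linarith
  have hlL : l ≤ Real.log L := Real.log_le_log hz0 hzLR
  have hlL0 : 0 < Real.log L := by linarith
  set V : ℝ := Vz z with hV
  set JK : Finset ℕ := (Icc 1 L).filter (fun j => ∀ p : ℕ, p.Prime → p ∣ j → p ≤ P1 z ∨ p = e) with hJK
  have hJKc : (JK.card : ℝ) ≤ L / l ^ 5 := by
    have e1 := hR L (P1 z) e (hz2.trans hzLR) l5
    have e2 : (JK.card : ℝ) ≤ L / (Real.log L) ^ 5 := by
      convert e1
    exact e2.trans (div_le_div_of_nonneg_left hL0.le (by positivity) (pow_le_pow_left₀ (by linarith) hlL 5))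
  have hone : ∀ g ∈ G, ((Sv.filter (fun j => j + g ∈ Sv)).card : ℝ) ≤
      C1 * (L * (V / l) ^ 2 * Sg g) + 2 * (L / l ^ 5) := by
    intro g hg
    have hg' := hG hg
    rw [Finset.mem_Icc] at hg'
    have e1 := hAp L (P0 z) (P1 z) e g (hz1.trans hzLR) s1 s2
      (s4.trans (Real.rpow_le_rpow hz0.le hzLR hδ.le)) hg'.1 hg'.2
    have hVV : VV (P0 z) (P1 z) = V := rfl
    rw [hVV] at e1
    set PR : Finset ℕ := (Icc 1 L).filter (fun j => j.Prime ∧ (j + g).Prime ∧
      ∀ p ∈ smp (P0 z) (P1 z) e, ¬ p ∣ j - 2 ∧ ¬ p ∣ j + g - 2) with hPR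
    have e2 : Sv.filter (fun j => j + g ∈ Sv) ⊆ PR ∪ (JK ∪ JK.image (fun m => m - g)) := by
      intro j hj
      rw [Finset.mem_filter] at hj
      obtain ⟨j1, j2, j3⟩ := hSv j hj.1
      obtain ⟨g1, g2, g3⟩ := hSv (j + g) hj.2
      rw [Finset.mem_union, Finset.mem_union]
      rcases h1 z (P0 z) (P1 z) e L j (by omega) j2 l3 j3 with c1 | c1
      · rcases h1 z (P0 z) (P1 z) e L (j + g) (by omega) g2 l3 g3 with c2 | c2
        · left
          rw [hPR, Finset.mem_filter, Finset.mem_Icc]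
          exact ⟨⟨by omega, j2⟩, c1, c2, fun p hp => ⟨j3.2.2 p hp, g3.2.2 p hp⟩⟩
        · right
          right
          rw [Finset.mem_image]
          refine ⟨j + g, ?_, by omega⟩
          rw [hJK, Finset.mem_filter, Finset.mem_Icc]
          exact ⟨⟨by omega, g2⟩, c2⟩
      · right
        left
        rw [hJK, Finset.mem_filter, Finset.mem_Icc]
        exact ⟨⟨by omega, j2⟩, c1⟩
    have e3 := (Finset.card_le_card e2).trans ((Finset.card_union_le _ _).trans
      (Nat.add_le_add_left ((Finset.card_union_le _ _).trans (Nat.add_le_add_left Finset.card_image_le _)) _))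
    have e4 : ((Sv.filter (fun j => j + g ∈ Sv)).card : ℝ) ≤ (PR.card : ℝ) + ((JK.card : ℝ) + (JK.card : ℝ)) := by
      exact_mod_cast e3
    have e5 : (PR.card : ℝ) ≤ C1 * (L * (V / Real.log L) ^ 2 * Sg g) := by
      convert e1
    have hSg0 : 0 ≤ Sg g := Finset.prod_nonneg fun p _ => by positivity
    have e6 : C1 * (L * (V / Real.log L) ^ 2 * Sg g) ≤ C1 * (L * (V / l) ^ 2 * Sg g) := by
      apply mul_le_mul_of_nonneg_left _ hC1.le
      apply mul_le_mul_of_nonneg_right _ hSg0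
      apply mul_le_mul_of_nonneg_left _ hL0.le
      apply pow_le_pow_left₀ (by positivity)
      exact div_le_div_of_nonneg_left v4.le (by linarith) hlL
    linarith
  have hsum := Finset.sum_le_sum hone
  refine hsum.trans ?_
  rw [Finset.sum_add_distrib, ← Finset.mul_sum, Finset.sum_const, nsmul_eq_mul]
  have hGc : (G.card : ℝ) ≤ L := by
    have e1 := Finset.card_le_card hG
    rw [Nat.card_Icc] at e1
    have : G.card ≤ L := by omega
    exact_mod_cast this
  have hpart2 : (G.card : ℝ) * (2 * (L / l ^ 5)) ≤ 2 * ((z : ℝ) ^ 2 / l ^ 3) := by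
    calc (G.card : ℝ) * (2 * (L / l ^ 5)) ≤ L * (2 * (L / l ^ 5)) :=
          mul_le_mul_of_nonneg_right hGc (by positivity)
      _ = 2 * (L * L / l ^ 5) := by ring
      _ ≤ 2 * ((z * l) * (z * l) / l ^ 5) := by
          apply mul_le_mul_of_nonneg_left _ (by norm_num)
          apply div_le_div_of_nonneg_right _ (by positivity)
          exact mul_le_mul l2 l2 hL0.le (by positivity)
      _ = 2 * ((z : ℝ) ^ 2 / l ^ 3) := by
          have : l ≠ 0 := by linarith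
          field_simp
  have hCS : ∑ g ∈ G, Sg g ≤ Real.sqrt (G.card * (C' * L)) := by
    apply Real.le_sqrt_of_sq_le
    have e1 : (∑ g ∈ G, Sg g) ^ 2 ≤ (G.card : ℝ) * ∑ g ∈ G, (Sg g) ^ 2 := sq_sum_le_card_mul_sum_sq
    refine e1.trans (mul_le_mul_of_nonneg_left ?_ (Nat.cast_nonneg _))
    refine le_trans ?_ (hSg L)
    exact Finset.sum_le_sum_of_subset_of_nonneg hG fun _ _ _ => sq_nonneg _
  have hLV : (L : ℝ) * V ≤ B * z := by
    have e1 : (L : ℝ) ≤ B * z / V := by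
      have e2 : 4 * (k : ℝ) * (A * z / Vz z) = B * z / V := by
        rw [hB, hV]
        ring
      rw [← e2]
      exact l1
    rwa [le_div_iff₀ v4] at e1
  have hpart1 : C1 * ∑ g ∈ G, L * (V / l) ^ 2 * Sg g ≤
      C1 * (B * Real.sqrt (C' * B)) * ((z : ℝ) ^ 2 / l ^ 2 * Real.sqrt (G.card * V / z)) := by
    rw [← Finset.mul_sum]
    have e1 : (L : ℝ) * (V / l) ^ 2 * ∑ g ∈ G, Sg g ≤
        (L * V ^ 2 * Real.sqrt (G.card * (C' * L))) / l ^ 2 := by
      have e2 : (L : ℝ) * (V / l) ^ 2 * ∑ g ∈ G, Sg g = (L * V ^ 2 * ∑ g ∈ G, Sg g) / l ^ 2 := by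
        rw [div_pow]
        ring
      rw [e2]
      apply div_le_div_of_nonneg_right _ (by positivity)
      exact mul_le_mul_of_nonneg_left hCS (by positivity)
    have e3 := Csa_sqrt C' B V L z G.card hC'.le hBp.le v4.le hz0 (Nat.cast_nonneg _) hLV
    have e4 := e1.trans (div_le_div_of_nonneg_right e3 (by positivity : (0 : ℝ) ≤ l ^ 2))
    have e5 := mul_le_mul_of_nonneg_left e4 hC1.le
    refine e5.trans (le_of_eq ?_)
    ring
  have hlast : 0 ≤ (z : ℝ) ^ 2 / l ^ 2 * Real.sqrt (G.card * V / z) := by positivity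
  have hring : (C1 * (B * Real.sqrt (C' * B)) + 1) * ((z : ℝ) ^ 2 / l ^ 2 * Real.sqrt (G.card * V / z)) =
      C1 * (B * Real.sqrt (C' * B)) * ((z : ℝ) ^ 2 / l ^ 2 * Real.sqrt (G.card * V / z)) +
      (z : ℝ) ^ 2 / l ^ 2 * Real.sqrt (G.card * V / z) := by ring
  rw [hring]
  linarith

end Pool.Agent.Lib.SG
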