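import Pool.Agent.Lib.SG.SpecA

/-!
MP_9a4459_nt, directory Lib/SG: the sums cX as values of L-series (helper71).
-/

namespace Pool.Agent.Lib.SG

open Finset Pool.Agent.Lib.BV

/-- If c n = χ(n) rr D n for n ≥ 1 then cX χ (wt D s g) is the value of the L-series of c g at 1 + s. -/
theorem Cxl_main {q : ℕ} (χ : DirichletCharacter ℂ q) (D : ℕ) (c : ℕ → ℂ)
    (hc : ∀ n : ℕ, 1 ≤ n → c n = χ (n : ZMod q) * ((rr D n : ℝ) : ℂ)) (g : ℕ → ℝ) (s : ℝ)
    (hs : 0 < s) :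
    cX χ (wt D s g) = LSeries (fun n => c n * (g n : ℂ)) (1 + (s : ℂ)) := by
  unfold cX LSeries
  refine tsum_congr fun n => ?_
  rcases Nat.eq_zero_or_pos n with rfl | hn
  · rw [LSeries.term_zero, wt]
    have : ((0 : ℕ) : ℝ) ^ (-(1 + s)) = 0 := by
      rw [Nat.cast_zero]
      exact Real.zero_rpow (by linarith)
    rw [this, mul_zero, Complex.ofReal_zero, mul_zero]
  · rw [LSeries.term_of_ne_zero (by omega), hc n hn, wt]
    have h1 : (((n : ℝ) ^ (-(1 + s)) : ℝ) : ℂ) = ((n : ℂ) ^ (1 + (s : ℂ)))⁻¹ := by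
      rw [Complex.ofReal_cpow (Nat.cast_nonneg n), ← Complex.cpow_neg]
      push_cast
      rfl
    rw [Complex.ofReal_mul, Complex.ofReal_mul, h1, div_eq_mul_inv]
    ring

end Pool.Agent.Lib.SG
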