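import Pool.Agent.Lib.BV.SpecD

/-!
MP_9a4459_nt (Shanks, first occurrences of prime gaps), directory Lib/SG (architect helper96):
definitions. Theorem: for all large G at least c G of the integers g ≤ G are prime gaps whose first
occurrence p(g) satisfies log p(g) ≤ C g (loglog g)^2/(log g logloglog g).
-/

namespace Pool.Agent.Lib.SG

open Finset Pool.Agent.Lib.BV

/-! ### Part A: sums over the integers without prime factor ≤ D in the classes mod q -/

/-- the weight: rr D n = indicator of the n all of whose prime factors are > D (rough numbers) -/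
noncomputable def wt (D : ℕ) (s : ℝ) (g : ℕ → ℝ) (n : ℕ) : ℝ :=
  rr D n * g n * (n : ℝ) ^ (-(1 + s))

/-- the sum of f over the class a mod q -/
noncomputable def cU (q : ℕ) (f : ℕ → ℝ) (a : (ZMod q)ˣ) : ℝ :=
  ∑' n : ℕ, if (n : ZMod q) = (a : ZMod q) then f n else 0

/-- the character sum of f -/
noncomputable def cX {q : ℕ} (χ : DirichletCharacter ℂ q) (f : ℕ → ℝ) : ℂ :=
  ∑' n : ℕ, χ (n : ZMod q) * (f n : ℂ)

/-- the functions 1, log, Λ, Λ log, Λ log + Λ * Λ -/
def one (_ : ℕ) : ℝ := 1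

noncomputable def lgn (n : ℕ) : ℝ := Real.log n

noncomputable def Lam (n : ℕ) : ℝ := ArithmeticFunction.vonMangoldt n

noncomputable def Lam1 (n : ℕ) : ℝ := Lam n * Real.log n

noncomputable def Lam2 (n : ℕ) : ℝ := Lam1 n + ∑ w ∈ n.divisorsAntidiagonal, Lam w.1 * Lam w.2

/-- (log n)^m without the term n = 1 -/
noncomputable def gm (m n : ℕ) : ℝ := if n = 1 then 0 else (Real.log n) ^ m

/-- the real characters mod q other than 1 have no small value at 1 + s -/
def Good (κ : ℝ) (q D : ℕ) : Prop :=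
  ∀ χ : DirichletCharacter ℂ q, χ ≠ 1 → χ ^ 2 = 1 → ∀ s : ℝ, 0 < s → s ≤ 1 / Real.log D →
    κ ≤ ‖cX χ (wt D s one)‖

/-! ### Parts B, C, D -/

/-- product of the primes p ≤ z, p ≠ e -/
def WW (z e : ℕ) : ℕ := ∏ p ∈ (Icc 1 z).filter (fun p => p.Prime ∧ p ≠ e), p

/-- the primes p with p0 < p ≤ p1, p ≠ e -/
def smp (p0 p1 e : ℕ) : Finset ℕ := (Ioc p0 p1).filter (fun p => p.Prime ∧ p ≠ e)

/-- V = product over p0 < p ≤ p1 of (1 - 1/p) -/
noncomputable def VV (p0 p1 : ℕ) : ℝ := ∏ p ∈ (Ioc p0 p1).filter Nat.Prime, (1 - 1 / (p : ℝ))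

/-- q is a prime and q - g is the preceding prime -/
def GapAt (g q : ℕ) : Prop :=
  q.Prime ∧ g < q ∧ (q - g).Prime ∧ 1 ≤ g ∧ ∀ r : ℕ, q - g < r → r < q → ¬ r.Prime

end Pool.Agent.Lib.SG
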