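import Pool.Agent.Lib.SG.SpecA

/-!
MP_9a4459_nt, directory Lib/SG, module Gdw (helper71).
-/

namespace Pool.Agent.Lib.SG

open Finset Pool.Agent.Lib.BV

private theorem Gdw_cX {m q : ℕ} (h : m ∣ q) (ψ : DirichletCharacter ℂ m) (D : ℕ)
    (hp : ∀ p : ℕ, p.Prime → p ∣ q → p ≤ D) (s : ℝ) (g : ℕ → ℝ) :
    cX (DirichletCharacter.changeLevel h ψ) (wt D s g) = cX ψ (wt D s g) := by
  unfold cX
  refine tsum_congr fun n => ?_
  by_cases hr : Rough D n
  · have hc : n.Coprime q := by
      by_contra hc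
      obtain ⟨p, hpp, h1, h2⟩ := Nat.Prime.not_coprime_iff_dvd.1 hc
      have h3 := hr p hpp h1
      have h4 := hp p hpp h2
      omega
    have h1 := DirichletCharacter.changeLevel_eq_cast_of_dvd ψ h (ZMod.unitOfCoprime n hc)
    rw [ZMod.coe_unitOfCoprime] at h1
    rw [h1, ZMod.cast_natCast h]
  · have : wt D s g n = 0 := by
      unfold wt rr
      rw [if_neg hr, zero_mul, zero_mul]
    rw [this, Complex.ofReal_zero, mul_zero, mul_zero]

private theorem Gdw_prime {z e p : ℕ} (hp : p.Prime) (h : p ∣ WW z e) : p ≤ z ∧ p ≠ e := by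
  unfold WW at h
  obtain ⟨l, hl, hpl⟩ := (Prime.dvd_finsetProd_iff hp.prime _).1 h
  rw [mem_filter, mem_Icc] at hl
  have : p = l := (Nat.prime_dvd_prime_iff_eq hp hl.2.1).1 hpl
  subst this
  exact ⟨hl.1.2, hl.2.2⟩

private theorem Gdw_dvd (z e : ℕ) : WW z e ∣ WW z 1 := by
  unfold WW
  refine prod_dvd_prod_of_subset _ _ _ ?_
  intro p hp
  rw [mem_filter] at hp ⊢
  exact ⟨hp.1, hp.2.1, hp.2.1.one_lt.ne'⟩

private theorem Gdw_one (z : ℕ) : WW z 1 = primorial z := by
  unfold WW primorial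
  refine prod_congr ?_ fun _ _ => rfl
  ext p
  rw [mem_filter, mem_filter, mem_Icc, mem_range]
  constructor
  · rintro ⟨h1, h2, h3⟩
    exact ⟨by omega, h2⟩
  · rintro ⟨h1, h2⟩
    exact ⟨⟨h2.one_lt.le, by omega⟩, h2, h2.one_lt.ne'⟩

private theorem Gdw_pos (z e : ℕ) : 0 < WW z e := by
  unfold WW
  refine prod_pos fun p hp => ?_
  rw [mem_filter] at hp
  exact hp.2.1.pos

private theorem Gdw_rad {r z p0 : ℕ} (hr : r ∣ primorial z)
    (h : ∀ p : ℕ, p.Prime → p ∣ r → p ≤ p0) : r ≤ 4 ^ p0 := by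
  have hsq : Squarefree (primorial z) := squarefree_primorial z
  have hsr : Squarefree r := hsq.squarefree_of_dvd hr
  have h1 : r ∣ primorial p0 := by
    rw [← Nat.prod_primeFactors_of_squarefree hsr]
    unfold primorial
    refine prod_dvd_prod_of_subset _ _ _ ?_
    intro p hp
    rw [Nat.mem_primeFactors] at hp
    rw [mem_filter, mem_range]
    exact ⟨Nat.lt_succ_of_le (h p hp.1 hp.2.1), hp.1⟩
  exact (Nat.le_of_dvd (primorial_pos p0) h1).trans (primorial_le_four_pow p0)

theorem tGdw (hExc : ExcStmt) (hSwl : SwlStmt) : GdwStmt := by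
  obtain ⟨κ1, D1, hκ1, hD1, h1⟩ := hExc
  obtain ⟨D2, hD2, h2⟩ := hSwl
  refine ⟨min κ1 (1 / 2), max D1 D2, by positivity, hD1.trans (le_max_left _ _), ?_⟩
  intro z D p0 hz hD hp0
  have hz3 : (3 : ℝ) ≤ z := (hD1.trans (le_max_left _ _)).trans hz
  have hz3' : 3 ≤ z := by exact_mod_cast hz3
  have hzD : z ≤ D := by
    have e1 : z < 4 ^ z := Nat.lt_pow_self (by norm_num)
    have e2 : 4 ^ z ≤ 4 ^ (4 * z) := Nat.pow_le_pow_right (by norm_num) (by omega)
    omega
  have hzD' : (z : ℝ) ≤ D := by exact_mod_cast hzD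
  have hD1' : D1 ≤ D := ((le_max_left _ _).trans hz).trans hzD'
  have hD2' : D2 ≤ D := ((le_max_right _ _).trans hz).trans hzD'
  have hDp : (0 : ℝ) < D := by linarith
  have hzlog : (z : ℝ) ≤ Real.log D := by
    have e1 : Real.log (4 ^ (4 * z)) ≤ Real.log D := by
      apply Real.log_le_log (by positivity)
      exact_mod_cast hD
    have e2 : (1 : ℝ) ≤ Real.log 4 := by
      rw [Real.le_log_iff_exp_le (by norm_num)]
      exact Real.exp_one_lt_three.le.trans (by norm_num)
    rw [Real.log_pow] at e1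
    push_cast at e1
    nlinarith
  have hlog1 : 1 ≤ Real.log D := by linarith
  have hq0 : (WW z 1) ^ 4 ≤ D := by
    rw [Gdw_one]
    calc (primorial z) ^ 4 ≤ (4 ^ z) ^ 4 := Nat.pow_le_pow_left (primorial_le_four_pow z) 4
      _ = 4 ^ (4 * z) := by rw [← pow_mul, mul_comm]
      _ ≤ D := hD
  have hprD : ∀ p : ℕ, p.Prime → p ∣ WW z 1 → p ≤ D := fun p hp h =>
    (Gdw_prime hp h).1.trans hzD
  have hne : NeZero (WW z 1) := ⟨(Gdw_pos z 1).ne'⟩
  by_cases hgood : Good (min κ1 (1 / 2)) (WW z 1) D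
  · exact ⟨1, Or.inl rfl, hgood⟩
  unfold Good at hgood
  push Not at hgood
  obtain ⟨χ, hχ1, hχ2, s, hs, hs1, hbad⟩ := hgood
  have hs1' : s ≤ 1 := hs1.trans (by rw [div_le_one (by linarith)]; exact hlog1)
  have hr := χ.conductor_dvd_level
  have hrne : NeZero χ.conductor := ⟨χ.conductor_ne_zero⟩
  have hr2 : 2 ≤ χ.conductor := by
    have e1 : χ.conductor ≠ 0 := χ.conductor_ne_zero
    have e2 : χ.conductor ≠ 1 := fun h => hχ1 (DirichletCharacter.eq_one_iff_conductor_eq_one.2 h)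
    omega
  have hcX : cX χ (wt D s one) = cX χ.primitiveCharacter (wt D s one) := by
    have := Gdw_cX hr χ.primitiveCharacter D hprD s one
    rwa [DirichletCharacter.changeLevel_primitiveCharacter] at this
  -- a large prime factor of the conductor
  obtain ⟨e, hep, her, hep0⟩ : ∃ e : ℕ, e.Prime ∧ e ∣ χ.conductor ∧ p0 < e := by
    by_contra hcon
    push Not at hcon
    have e1 : χ.conductor ≤ 4 ^ p0 := Gdw_rad (by rw [← Gdw_one]; exact hr) hcon
    have e2 : (χ.conductor : ℝ) ≤ (Real.log D) ^ 2 := by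
      calc (χ.conductor : ℝ) ≤ ((4 ^ p0 : ℕ) : ℝ) := by exact_mod_cast e1
        _ = Real.exp (p0 * Real.log 4) := by
            push_cast
            rw [mul_comm, Real.exp_mul, Real.exp_log (by norm_num), Real.rpow_natCast]
        _ ≤ Real.exp (2 * Real.log z) := by
            apply Real.exp_le_exp.2
            have e3 : Real.log 4 ≤ 2 := by
              have : Real.log 4 = 2 * Real.log 2 := by
                rw [show (4 : ℝ) = 2 ^ 2 by norm_num, Real.log_pow]
                norm_num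
              have h5 := Real.log_two_lt_d9
              linarith
            have e4 : (0 : ℝ) ≤ p0 := Nat.cast_nonneg p0
            have e5 : 0 < Real.log 4 := Real.log_pos (by norm_num)
            nlinarith
        _ = (z : ℝ) ^ 2 := by
            rw [mul_comm, Real.exp_mul, Real.exp_log (by linarith), Real.rpow_two]
        _ ≤ (Real.log D) ^ 2 := pow_le_pow_left₀ (by linarith) hzlog 2
    have e3 := h2 χ.conductor D χ.primitiveCharacter s hD2' hr2 e2
      χ.primitiveCharacter_isPrimitive hs hs1'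
    rw [← hcX] at e3
    have e4 := min_le_right κ1 (1 / 2)
    linarith
  have he : e ∣ WW z 1 := her.trans hr
  refine ⟨e, Or.inr ⟨hep, hep0, (Gdw_prime hep he).1⟩, ?_⟩
  intro ψ hψ1 hψ2 t ht ht1
  by_contra hlt
  push Not at hlt
  have hdvd := Gdw_dvd z e
  obtain ⟨ψ', hψ'⟩ : ∃ ψ' : DirichletCharacter ℂ (WW z 1),
      ψ' = DirichletCharacter.changeLevel hdvd ψ := ⟨_, rfl⟩
  have hψ'1 : ψ' ≠ 1 := by
    rw [hψ']
    exact fun h => hψ1 ((DirichletCharacter.changeLevel_eq_one_iff hdvd).1 h)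
  have hψ'2 : ψ' ^ 2 = 1 := by
    rw [hψ', ← map_pow, hψ2, map_one]
  have hcX' : cX ψ' (wt D t one) = cX ψ (wt D t one) := by
    rw [hψ']
    exact Gdw_cX hdvd ψ D hprD t one
  have hne' : ψ' = χ := by
    by_contra hne'
    have hm := min_le_left κ1 (1 / 2)
    rcases h1 (WW z 1) D ψ' χ hD1' hq0 hψ'1 hχ1 hne' hψ'2 hχ2 with h3 | h3
    · have h4 := h3 t ht ht1
      rw [hcX'] at h4
      linarith
    · have h4 := h3 s hs hs1
      linarith
  have hcond : χ.conductor ∣ WW z e := by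
    rw [← hne', hψ', DirichletCharacter.conductor_changeLevel]
    exact ψ.conductor_dvd_level
  exact (Gdw_prime hep (her.trans hcond)).2 rfl

end Pool.Agent.Lib.SG
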