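import Pool.Agent.Lib.SG.SpecB

/-!
MP_9a4459_nt, module Qpr: the primes in (z/2, z].
-/

namespace Pool.Agent.Lib.SG

open Finset Pool.Agent.Lib.BV Pool.Agent.Lib.EH Pool.Agent.Results.MP_00e23e_nt

private lemma Qpr_li {x x' : ℝ} (hx : 2 ≤ x) (hxx : x ≤ x') :
    (x' - x) / Real.log x' ≤ li x' - li x := by
  have hint : ∀ a b : ℝ, 2 ≤ a → 2 ≤ b →
      IntervalIntegrable (fun t => (Real.log t)⁻¹) MeasureTheory.volume a b := by
    intro a b ha hb
    apply ContinuousOn.intervalIntegrable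
    intro t ht
    have ht2 : 2 ≤ t := (le_min ha hb).trans ht.1
    apply ContinuousAt.continuousWithinAt
    apply ContinuousAt.inv₀
    · exact Real.continuousAt_log (by linarith)
    · exact (Real.log_pos (by linarith)).ne'
  have h1 : li x' - li x = ∫ t in x..x', (Real.log t)⁻¹ := by
    unfold li
    rw [intervalIntegral.integral_interval_sub_left (hint 2 x' (by norm_num) (by linarith))
      (hint 2 x (by norm_num) (by linarith))]
  rw [h1]
  have h2 : (x' - x) / Real.log x' = ∫ _ in x..x', (Real.log x')⁻¹ := by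
    rw [intervalIntegral.integral_const, smul_eq_mul, div_eq_mul_inv]
  rw [h2]
  apply intervalIntegral.integral_mono_on hxx intervalIntegrable_const (hint x x' hx (hx.trans hxx))
  intro t ht
  have h3 : 0 < Real.log t := Real.log_pos (by linarith [ht.1])
  exact inv_anti₀ h3 (Real.log_le_log (by linarith [ht.1]) ht.2)

private lemma Qpr_ev (C : ℝ) : ∃ z0 : ℝ, 16 ≤ z0 ∧ ∀ x : ℝ, z0 ≤ x →
    C ≤ Real.log x ∧ 8 * Real.log x ≤ x := by
  have a1 := (Real.isLittleO_log_id_atTop).bound (c := 1 / 8) (by norm_num)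
  have a2 : ∀ᶠ x : ℝ in Filter.atTop, C ≤ Real.log x := Real.tendsto_log_atTop.eventually_ge_atTop _
  obtain ⟨L0, hL0⟩ := Filter.eventually_atTop.1 (a1.and a2)
  refine ⟨max L0 16, le_max_right _ _, fun x hx => ?_⟩
  obtain ⟨b1, b2⟩ := hL0 x ((le_max_left _ _).trans hx)
  have hx16 : 16 ≤ x := (le_max_right _ _).trans hx
  simp only [id_eq] at b1
  rw [Real.norm_of_nonneg (Real.log_nonneg (by linarith)), Real.norm_of_nonneg (by linarith)] at b1
  exact ⟨b2, by linarith⟩

theorem tQpr (h : PntStmt) : QprStmt := by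
  obtain ⟨C, hC, hP⟩ := h 2 (by norm_num)
  obtain ⟨z0, hz0, hev⟩ := Qpr_ev (24 * C)
  refine ⟨z0, by linarith, fun z e hz => ?_⟩
  obtain ⟨v1, v2⟩ := hev z hz
  have hz16 : (16 : ℝ) ≤ z := hz0.trans hz
  set l := Real.log z with hl
  have hl0 : 0 < l := Real.log_pos (by linarith)
  have hlog2 : Real.log 2 ≤ 0.7 := by
    have := Real.log_two_lt_d9
    linarith
  have hl2 : l / 2 ≤ Real.log ((z : ℝ) / 2) := by
    rw [Real.log_div (by linarith) (by norm_num), ← hl]
    have : 2 ≤ l := by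
      rw [hl, Real.le_log_iff_exp_le (by linarith)]
      have h1 := Real.exp_one_lt_d9
      have h2 : Real.exp 2 = Real.exp 1 * Real.exp 1 := by rw [← Real.exp_add]; norm_num
      rw [h2]
      have h3 := Real.exp_pos 1
      calc Real.exp 1 * Real.exp 1 ≤ 3 * 3 := mul_le_mul (by linarith) (by linarith) h3.le (by norm_num)
        _ ≤ z := by linarith
    linarith
  have h1 := hP z (by linarith)
  have h2 := hP ((z : ℝ) / 2) (by linarith)
  have h22 : ((2 : ℝ)) = ((2 : ℕ) : ℝ) := by norm_num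
  have hp1 : (Real.log (z : ℝ)) ^ (2 : ℝ) = l ^ 2 := by
    conv_lhs => rw [h22]
    rw [Real.rpow_natCast]
  have hp2 : (Real.log ((z : ℝ) / 2)) ^ (2 : ℝ) = (Real.log ((z : ℝ) / 2)) ^ 2 := by
    rw [show (Real.log ((z : ℝ) / 2)) ^ (2 : ℝ) = (Real.log ((z : ℝ) / 2)) ^ ((2 : ℕ) : ℝ) by norm_num,
      Real.rpow_natCast]
  rw [hp1, abs_le] at h1
  rw [hp2, abs_le] at h2
  have h3 := Qpr_li (x := (z : ℝ) / 2) (x' := z) (by linarith) (by linarith)
  have h4 : ((z : ℝ) - z / 2) / Real.log z = z / (2 * l) := by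
    rw [← hl]
    field_simp
    ring
  rw [h4] at h3
  have h5 : C * ((z : ℝ) / 2 / (Real.log ((z : ℝ) / 2)) ^ 2) ≤ 2 * C * (z / l ^ 2) := by
    have e1 : (l / 2) ^ 2 ≤ (Real.log ((z : ℝ) / 2)) ^ 2 := pow_le_pow_left₀ (by linarith) hl2 2
    have e2 : (z : ℝ) / 2 / (Real.log ((z : ℝ) / 2)) ^ 2 ≤ (z : ℝ) / 2 / (l / 2) ^ 2 :=
      div_le_div_of_nonneg_left (by linarith) (by positivity) e1
    have e3 : (z : ℝ) / 2 / (l / 2) ^ 2 = 2 * (z / l ^ 2) := by
      field_simp
    rw [e3] at e2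
    have := mul_le_mul_of_nonneg_left e2 hC.le
    linarith
  have h6 : 3 * C * (z / l ^ 2) ≤ z / (8 * l) := by
    rw [le_div_iff₀ (by positivity)]
    have e1 : 3 * C * (z / l ^ 2) * (8 * l) = z * (24 * C / l) := by
      field_simp
      ring
    rw [e1]
    have e2 : 24 * C / l ≤ 1 := by
      rw [div_le_one hl0]
      exact v1
    have := mul_le_mul_of_nonneg_left e2 (by linarith : (0 : ℝ) ≤ z)
    linarith
  have h7 : 1 ≤ (z : ℝ) / (8 * l) := by
    rw [one_le_div (by positivity)]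
    exact v2
  have h8 : npr z - npr ((z : ℝ) / 2) - 1 ≤ ((topp z e).card : ℝ) := by
    unfold npr
    rw [Nat.floor_natCast]
    have e0 : ⌊(z : ℝ) / 2⌋₊ = z / 2 := by
      have := Nat.floor_div_eq_div (K := ℝ) z 2
      push_cast at this
      exact this
    rw [e0]
    have e1 : (Icc 1 z).filter Nat.Prime ⊆ (Icc 1 (z / 2)).filter Nat.Prime ∪ insert e (topp z e) := by
      intro p hp
      unfold topp
      rw [Finset.mem_filter, Finset.mem_Icc] at hp
      rw [Finset.mem_union, Finset.mem_filter, Finset.mem_Icc, Finset.mem_insert, Finset.mem_filter,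
        Finset.mem_Icc]
      by_cases h : p ≤ z / 2
      · exact Or.inl ⟨⟨hp.1.1, h⟩, hp.2⟩
      · by_cases he : p = e
        · exact Or.inr (Or.inl he)
        · exact Or.inr (Or.inr ⟨hp.1, hp.2, by omega, he⟩)
    have e2 := (Finset.card_le_card e1).trans (Finset.card_union_le _ _)
    have e3 := Finset.card_insert_le e (topp z e)
    have e4 : ((Icc 1 z).filter Nat.Prime).card ≤
        ((Icc 1 (z / 2)).filter Nat.Prime).card + ((topp z e).card + 1) := by omega
    have e5 : (((Icc 1 z).filter Nat.Prime).card : ℝ) ≤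
        (((Icc 1 (z / 2)).filter Nat.Prime).card : ℝ) + (((topp z e).card : ℝ) + 1) := by
      exact_mod_cast e4
    linarith
  have h9 : (z : ℝ) / (4 * l) = z / (2 * l) - z / (8 * l) - z / (8 * l) := by
    field_simp
    ring
  rw [h9]
  have h10 : C * ((z : ℝ) / l ^ 2) + 2 * C * (z / l ^ 2) = 3 * C * (z / l ^ 2) := by ring
  linarith [h1.1, h2.2]

end Pool.Agent.Lib.SG
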