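import Pool.Agent.Lib.SG.SpecB

/-!
MP_9a4459_nt, directory Lib/SG (architect helper96), part C: the covering (choice of the class b mod W), and part D: the second
moment argument and the theorem. The rules are those of SpecA.lean (module Xyz: file Pool/Agent/Lib/SG/Xyz.lean, first line
`import Pool.Agent.Lib.SG.SpecC`). Every statement is elementary; sets given by a condition are filtered classically
(`open Classical in` stands before the statements).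
-/

namespace Pool.Agent.Lib.SG

open Finset Pool.Agent.Lib.BV

/-! ### Part C -/

/-- j survives: no prime ≤ p0 divides j, no prime in (p1, z/2] other than e divides j, no prime of smp divides j - 2 -/
def Srv (z p0 p1 e j : ℕ) : Prop :=
  (∀ p : ℕ, p.Prime → p ≤ p0 → ¬ p ∣ j) ∧
  (∀ p : ℕ, p.Prime → p1 < p → 2 * p ≤ z → p ≠ e → ¬ p ∣ j) ∧
  ∀ p ∈ smp p0 p1 e, ¬ p ∣ j - 2

/-- Module Cls (theorem tCls). Uses: nothing.
Proof. Suppose a prime q divides j, q > p1, q ≠ e. By Srv (second part) z < 2 q. j = q m, m ≥ 1, and 2 q m ≤ 2 L ≤ p0 z < p0 (2 q) (p0 > 0 because L ≥ 1), so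
m < p0. If m = 1 then j is prime. Otherwise a prime factor p of m satisfies p ≤ m < p0 and divides j: contradiction to Srv (first part). -/
def ClsStmt : Prop :=
  ∀ z p0 p1 e L j : ℕ, 1 ≤ j → j ≤ L → 2 * L ≤ p0 * z → Srv z p0 p1 e j →
    j.Prime ∨ ∀ p : ℕ, p.Prime → p ∣ j → p ≤ p1 ∨ p = e

open Classical in
/-- Module Mat (theorem tMat; cyclic shifts). Uses: nothing.
Proof. If Z is empty any σ works. Let n = |T| ≥ 1, t : Fin n ≃ T, ι : Z → Fin |Z| a bijection, |Z| ≤ n. For c < n let σ_c r = t ((ι r + c) mod n) ∈ T for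
r ∈ Z (injective on Z because ι r < |Z| ≤ n). Let B_i(c) be the number of the j ∈ J i with rel (σ_c r) j r for some r ∈ Z. For fixed i < k, j ∈ J i, r ∈ Z the
map c ↦ σ_c r is a bijection from range n onto T, so at most one c has rel (σ_c r) j r; hence ∑_c B_i(c) ≤ |J i| |Z|. Suppose that for every c < n there is i < k
with 8 B_i(c) > |J i| (then |J i| > 0 because B_i(c) > 0). Then the sum over the i < k with |J i| > 0 of 8 B_i(c)/|J i| is > 1 for every c, and summing over c: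
n < 8 ∑_i |Z| ≤ 8 k |Z| ≤ n, a contradiction. -/
def MatStmt : Prop :=
  ∀ (k : ℕ) (T Z : Finset ℕ) (J : ℕ → Finset ℕ) (rel : ℕ → ℕ → ℕ → Prop), 1 ≤ k →
    8 * k * Z.card ≤ T.card →
    (∀ i < k, ∀ j ∈ J i, ∀ r ∈ Z, ∀ q ∈ T, ∀ q' ∈ T, rel q j r → rel q' j r → q = q') →
    ∃ σ : ℕ → ℕ, (∀ r ∈ Z, σ r ∈ T) ∧ (∀ r ∈ Z, ∀ r' ∈ Z, σ r = σ r' → r = r') ∧
      ∀ i < k, 8 * ((J i).filter (fun j => ∃ r ∈ Z, rel (σ r) j r)).card ≤ (J i).card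

open Classical in
/-- Module Cov (theorem tCov; the choice of b). Uses: Mat.
Proof. Z = the r ∈ Zn with Srv. Mat with T = topp z e and rel q j r := (q : ℤ) ∣ (j : ℤ) - r. Its hypothesis: j ∈ J i, r ∈ Z are different (disjoint), so
0 < |j - r| ≤ L; two different primes q, q' > z/2 dividing j - r would give q q' ≤ L, but 4 q q' > z^2 > 4 L. Let σ be the map of Mat. By the Chinese
remainder theorem (Nat.chineseRemainderOfFinset, or induction on a finite set of primes) there is b such that for all primes p ≤ z, p ≠ e: b ≡ 0 mod p if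
p ≤ p0; b ≡ 0 mod p if p1 < p and 2p ≤ z; p ∣ b + 2 if p ∈ smp p0 p1 e; p ∣ b + r if p = σ r with r ∈ Z (unique r); b ≡ 0 mod p for the other p ∈ topp z e. These cases
are exclusive and exhaust the prime factors of WW z e (p0 ≤ p1, 2 p1 ≤ z).
(1) r ∈ Zn. If r ∈ Z, σ r divides b + r and WW z e. Otherwise Srv fails for r: a prime p ≤ p0 divides r (p ≠ e since e = 1 or p0 < e; p ≤ z) and b ≡ 0 mod p; or a prime
p1 < p ≤ z/2, p ≠ e, divides r; or p ∈ smp divides r - 2 and p divides b + 2, so p divides b + r (r > z ≥ 2). In each case p divides b + r and WW z e.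
(2) j ∈ J i without r ∈ Z such that σ r | j - r: b + j is coprime to WW z e. For a prime p ≤ z, p ≠ e: if b ≡ 0 mod p then p divides b + j only if p | j, but j is a prime > z ≥ p.
If p ∈ smp: b + j = (b + 2) + (j - 2) and p does not divide j - 2. If p = σ r: b + j = (b + r) + (j - r) in ℤ. By Mat at least 7/8 of the elements of J i are of this kind.
(3) j ≥ 2, b + j coprime to WW z e: every prime p ≤ z, p ≠ e does not divide b + j. This gives the three parts of Srv (b ≡ 0, b ≡ 0, b ≡ -2). -/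
def CovStmt : Prop :=
  ∀ (z p0 p1 e k L : ℕ) (J : ℕ → Finset ℕ) (Zn : Finset ℕ),
    2 ≤ z → 1 ≤ k → p0 ≤ p1 → 2 * p1 ≤ z → (e = 1 ∨ (e.Prime ∧ p0 < e)) → 4 * L < z ^ 2 →
    (∀ i < k, ∀ j ∈ J i, z < j ∧ j ≤ L ∧ j.Prime ∧ ∀ p ∈ smp p0 p1 e, ¬ p ∣ j - 2) →
    (∀ r ∈ Zn, z < r ∧ r ≤ L) → (∀ i < k, Disjoint (J i) Zn) →
    8 * k * (Zn.filter (fun r => Srv z p0 p1 e r)).card ≤ (topp z e).card →
    ∃ b : ℕ, (∀ r ∈ Zn, ¬ (b + r).Coprime (WW z e)) ∧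
      (∀ i < k, 7 * (J i).card ≤ 8 * ((J i).filter (fun j => (b + j).Coprime (WW z e))).card) ∧
      ∀ j : ℕ, 2 ≤ j → (b + j).Coprime (WW z e) → Srv z p0 p1 e j

/-! ### Part D: parameters -/

noncomputable def P0 (z : ℕ) : ℕ := ⌊Real.log z⌋₊

noncomputable def P1 (z : ℕ) : ℕ :=
  ⌊Real.exp (Real.log z * Real.log (Real.log (Real.log z)) / (16 * Real.log (Real.log z)))⌋₊

noncomputable def Vz (z : ℕ) : ℝ := VV (P0 z) (P1 z)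

/-- (loglog x)^2/(log x logloglog x) -/
noncomputable def rho (x : ℝ) : ℝ :=
  (Real.log (Real.log x)) ^ 2 / (Real.log x * Real.log (Real.log (Real.log x)))

noncomputable def ww (A : ℝ) (z : ℕ) : ℕ := ⌈A * z / Vz z⌉₊

noncomputable def yy (A : ℝ) (z : ℕ) : ℕ := ⌊A * z / Vz z⌋₊

/-- the i-th window and the i-th zone -/
def win (z w y i : ℕ) : Finset ℕ := Ioc (z + i * (w + y)) (z + i * (w + y) + w)

def zon (z w y i : ℕ) : Finset ℕ := Ioc (z + i * (w + y) + w) (z + (i + 1) * (w + y))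

/-- Module Prs (theorem tPrs). Uses: nothing.
Proof. l = log z, l2 = log l, l3 = log l2. log (P1 z) ≤ l l3/(16 l2) and l3/l2 tends to 0, which gives the upper bounds; l2 ≤ l l3/(16 l2) - 1 for large z gives P0 z ≤ l ≤
exp (l l3/(16 l2)) - 1 ≤ P1 z. P0 z ≥ l - 1. -/
def PrsStmt : Prop :=
  ∀ ps δ : ℝ, 0 < δ → ∃ z0 : ℝ, 16 ≤ z0 ∧ ∀ z : ℕ, z0 ≤ z →
    ps ≤ P0 z ∧ P0 z ≤ P1 z ∧ 2 * P1 z ≤ z ∧ (P1 z : ℝ) ≤ (z : ℝ) ^ δ

/-- Module Prv (theorem tPrv). Uses: Vbd, Prs.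
Proof. Vbd: Vz z is between c log P0/log P1 and C log P0/log P1. l2/2 ≤ log P0 ≤ l2 and l l3/(32 l2) ≤ log P1 ≤ l l3/(16 l2) for large z (floors: exp u - 1 ≥ exp (u/2)). So
log P0/log P1 is between 8 l2^2/(l l3) = 8 rho z and 32 rho z. Vz z ≤ 1: all factors are in [0, 1]; Vz z > 0 (p ≥ 2). -/
def PrvStmt : Prop :=
  ∃ c C z0 : ℝ, 0 < c ∧ 0 < C ∧ 16 ≤ z0 ∧ ∀ z : ℕ, z0 ≤ z →
    0 < rho z ∧ c * rho z ≤ Vz z ∧ Vz z ≤ C * rho z ∧ 0 < Vz z ∧ Vz z ≤ 1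

/-- Module Prl (theorem tPrl). Uses: Prv.
Proof. First: L = z + k ww + k y ≤ z + k (A z/V + 1) + k A z/V and z ≤ A z/V, 1 ≤ A z/V, so L ≤ (1 + 3k) A z/V ≤ 4 k A z/V. With 1/V ≤ 1/(c rho z) = l l3/(c l2^2):
L ≤ (4 k A/c) (l3/l2^2) z l ≤ z l/4 for z ≥ z0. P0 z ≥ l - 1 ≥ l/2 gives 2 L ≤ P0 z z. 4 L ≤ z l < z^2. Last: log L ≥ l, logloglog L ≥ l3, and L ≤ z l ≤ z^2 gives
log log L ≤ l2 + log 2 ≤ 2 l2, so the right side is ≥ l l3/(16 l2) ≥ log (P1 z). -/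
def PrlStmt : Prop :=
  ∀ (k : ℕ) (A : ℝ), 1 ≤ k → 1 ≤ A → ∃ z0 : ℝ, 16 ≤ z0 ∧ ∀ z y L : ℕ, z0 ≤ z →
    (y : ℝ) ≤ A * z / Vz z → L = z + k * (ww A z + y) →
    (L : ℝ) ≤ 4 * k * (A * z / Vz z) ∧ (L : ℝ) ≤ z * Real.log z ∧ 2 * L ≤ P0 z * z ∧ 4 * L < z ^ 2 ∧
    Real.log (P1 z) ≤ Real.log L * Real.log (Real.log (Real.log L)) / (8 * Real.log (Real.log L))

/-! ### Windows and zones -/

/-- Module Wna (theorem tWna; windows). Uses: Win, Prs, Prv, Prl.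
Proof. c, δ1, ps from Win, A = 1 + 3 H/c, δ = 1/(4k), L = z + k (ww A z + y). Prl: L ≤ 4k A z/V ≤ 4k ww A z, i.e. δ L ≤ ww A z; P1 z ≤ z^δ1 ≤ L^δ1 (Prs). Win with
N = z + i (ww + y) ≥ 2, N2 = N + ww ≤ L: the number is ≥ c ww V/log L ≥ c A z/log L ≥ c A z/(2 log z) (log L ≤ 2 log z because L ≤ z log z ≤ z^2), and (7/8) c A/2 ≥ H. -/
def WnaStmt : Prop :=
  ∀ (k : ℕ) (H : ℝ), 1 ≤ k → 0 < H → ∃ A z0 : ℝ, 1 ≤ A ∧ 16 ≤ z0 ∧ ∀ z e y i : ℕ, z0 ≤ z →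
    (y : ℝ) ≤ A * z / Vz z → i < k →
    H * (z / Real.log z) ≤ 7 / 8 * (((win z (ww A z) y i).filter
      (fun j => j.Prime ∧ ∀ p ∈ smp (P0 z) (P1 z) e, ¬ p ∣ j - 2)).card : ℝ)

open Classical in
/-- Module Znb (theorem tZnb; zones). Uses: Cls, Zon, Rnk, Qpr, Prs, Prv, Prl.
Proof. C from Zon, c3 = 1/(64 k^2 (C+1)), y = yy c3 z ≤ c3 z/V ≤ A z/V, L = z + k (ww A z + y). A survivor r of the zones (r ≤ L, r ≥ 1) is by Cls (2 L ≤ P0 z z: Prl) a prime with p ∤ r - 2 for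
p ∈ smp, or all its prime factors are ≤ P1 z or = e. Zon (P1 z ≤ z^δ ≤ L^δ by Prs) for each zone: the primes number at most k (C y V/log L + L^(1/2)) ≤ k C c3 z/log z + k L^(1/2) (log L ≥ log z).
Rnk (last part of Prl): the others number at most L/(log L)^5 ≤ z/(log z)^4 (L ≤ z log z, log L ≥ log z). 8 k times the total is ≤ z/(8 log z) + 8 k (k (z log z)^(1/2) + z/(log z)^4)
≤ z/(4 log z) ≤ |topp z e| (Qpr) for z ≥ z0. -/
def ZnbStmt : Prop :=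
  ∀ (k : ℕ) (A : ℝ), 1 ≤ k → 1 ≤ A → ∃ c3 z0 : ℝ, 0 < c3 ∧ c3 ≤ 1 ∧ 16 ≤ z0 ∧ ∀ z e : ℕ, z0 ≤ z →
    8 * k * (((range k).biUnion (fun i => zon z (ww A z) (yy c3 z) i)).filter
      (fun r => Srv z (P0 z) (P1 z) e r)).card ≤ (topp z e).card

/-- Module Wnd (theorem tWnd; windows and zones). Uses: Cov, Prs, Prl, Wna, Znb.
Proof. A from Wna (k, H), c3 from Znb (k, A), w = ww A z, y = yy c3 z (≤ c3 z/V ≤ A z/V). Cov with J i = the primes j ∈ win z w y i with p ∤ j - 2 for all p ∈ smp, Zn = the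
union of the zones, L = z + k (w + y) (all windows and zones are in (z, L], windows and zones are disjoint; 4 L < z^2 by Prl; p0 ≤ p1, 2 p1 ≤ z by Prs). The number of the j ∈ win with b + j coprime to
WW z e is at least 7/8 |J i| ≥ H z/log z. -/
def WndStmt : Prop :=
  ∀ (k : ℕ) (H : ℝ), 1 ≤ k → 0 < H → ∃ A c3 z0 : ℝ, 1 ≤ A ∧ 0 < c3 ∧ c3 ≤ 1 ∧ 16 ≤ z0 ∧
    ∀ z e : ℕ, z0 ≤ z → (e = 1 ∨ (e.Prime ∧ P0 z < e ∧ e ≤ z)) → ∃ b : ℕ,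
      (∀ i < k, ∀ r ∈ zon z (ww A z) (yy c3 z) i, ¬ (b + r).Coprime (WW z e)) ∧
      (∀ i < k, H * (z / Real.log z) ≤
        (((win z (ww A z) (yy c3 z) i).filter (fun j => (b + j).Coprime (WW z e))).card : ℝ)) ∧
      ∀ j : ℕ, 2 ≤ j → (b + j).Coprime (WW z e) → Srv z (P0 z) (P1 z) e j

/-! ### Second moment -/

/-- the weight -/
noncomputable def mu (s : ℝ) (n : ℕ) : ℝ := (Real.log n) ^ 2 * (n : ℝ) ^ (-(1 + s))

open Classical in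
/-- Module Smt (theorem tSmt; abstract second moment). Uses: nothing.
Proof. c5 = c^2/(2 C2). For i < k let p_i = the sum of μ n over the n ∈ S with Nn i n ≥ 1. Cauchy-Schwarz: (∑ μ Nn)^2 ≤ p_i ∑ μ Nn^2, so
p_i ≥ c^2 h^2 M^2/(C2 (h + h^2) M) = (c^2/C2) (h/(1+h)) M ≥ c5 M. Let Y n = the number of the i < k with Nn i n ≥ 1; ∑ μ Y = ∑_i p_i ≥ k c5 M. For every n: Y n - 1 ≤ k [Y n ≥ 2],
so k times the sum over Y n ≥ 2 is ≥ k c5 M - C5 M. The hypothesis says C5 ≤ k c^2/(4 C2) = k c5/2, and k > 0. So the sum over Y n ≥ 2 is ≥ (c5/2) M. -/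
def SmtStmt : Prop :=
  ∀ (S : Finset ℕ) (μ : ℕ → ℝ) (k : ℕ) (Nn : ℕ → ℕ → ℕ) (h : ℕ → ℝ) (M c C2 C5 : ℝ),
    0 < M → 0 < c → 0 < C2 → 0 < C5 → (∀ n ∈ S, 0 ≤ μ n) → ∑ n ∈ S, μ n ≤ C5 * M →
    (∀ i < k, 1 ≤ h i ∧ c * (h i * M) ≤ ∑ n ∈ S, μ n * (Nn i n : ℝ) ∧
      ∑ n ∈ S, μ n * (Nn i n : ℝ) ^ 2 ≤ C2 * ((h i + h i ^ 2) * M)) →
    4 * C2 * C5 ≤ k * c ^ 2 →
    c ^ 2 / (4 * C2) * M ≤
      ∑ n ∈ S.filter (fun n => ∃ i < k, ∃ i' < k, i < i' ∧ 1 ≤ Nn i n ∧ 1 ≤ Nn i' n), μ n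

/-- Module Gap (theorem tGap; consecutive primes). Uses: nothing.
Proof. For r in a zone a prime p divides b + r and WW z e, so p ≤ z and p | n + r (n ≡ b mod p), n + r > z ≥ p: n + r is not prime. Call i < k occupied if n + j is prime for
some j ∈ win z w y i. Take occupied i1 < i2 < k with i2 - i1 minimal: no window strictly between is occupied. j = the largest element of win i1 with n + j prime, j' = the smallest element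
of win i2 with n + j' prime, g = j' - j. An integer r with j < r < j' lies in win i1 above j, in a zone i, i1 ≤ i < i2, in a window strictly between, or in win i2 below j': n + r is not
prime. So n + j and n + j' are consecutive primes and GapAt g (n + j') holds. The zone i1 lies between j and j', so g > y; both are in (z, z + k (w+y)]. -/
def GapStmt : Prop :=
  ∀ z e b k w y n : ℕ, n ≡ b [MOD WW z e] → z ≤ n →
    (∀ i < k, ∀ r ∈ zon z w y i, ¬ (b + r).Coprime (WW z e)) →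
    (∃ i < k, ∃ i' < k, i < i' ∧ (∃ j ∈ win z w y i, (n + j).Prime) ∧
      ∃ j ∈ win z w y i', (n + j).Prime) →
    ∃ j g : ℕ, (∃ i < k, j ∈ win z w y i) ∧ (∃ i < k, j + g ∈ win z w y i) ∧ y ≤ g ∧ 1 ≤ g ∧
      g ≤ k * (w + y) ∧ GapAt g (n + (j + g))

/-- Module Fe (theorem tFe; first moment). Uses: Phw, Pnf.
Proof. W = WW z e ≤ 4^z (primorial_le_4_pow), so W^4 ≤ D. Pnf with q = W, a = b + j: c/(φ(W) s^2) ≤ the sum of (log p)^2 p^(-(1+s)) over D < p ≤ X, p ≡ b + j, and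
1/φ(W) ≥ log z/(2 W) (Phw). The map p ↦ n = p - j (p > D ≥ j): n + j = p is prime, n ≡ b mod W, D/2 < n ≤ X because j ≤ z^2 and 2 z^2 ≤ 4^(5z)/2 for z ≥ z0; injective. n ≤ p gives
n^(-(1+s)) ≥ p^(-(1+s)), and n ≥ p/2 ≥ √p gives log n ≥ (log p)/2, so mu s n ≥ (1/4) (log p)^2 p^(-(1+s)). Result with c/8. -/
def FeStmt : Prop :=
  ∀ κ : ℝ, 0 < κ → ∃ c c1 K z0 : ℝ, 0 < c ∧ 0 < c1 ∧ 0 < K ∧ 16 ≤ z0 ∧
    ∀ (z e b D X j : ℕ) (s : ℝ), z0 ≤ z → 4 ^ (5 * z) ≤ D → Good κ (WW z e) D →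
    (b + j).Coprime (WW z e) → j ≤ z ^ 2 → 0 < s → s ≤ c1 / Real.log D → Real.exp (K / s) ≤ X →
    c * (Real.log z / ((WW z e : ℝ) * s ^ 2)) ≤
      ∑ n ∈ (Ioc (D / 2) X).filter (fun n => n ≡ b [MOD WW z e] ∧ (n + j).Prime), mu s n

/-- Module Fsq (theorem tFsq; second moment). Uses: Wtu.
Proof. The square of the number of the j ∈ J with n + j prime is ∑_{j, j' ∈ J} [n + j and n + j' prime]. Exchange the sums. j = j': Wtu (2), ≤ C log z/(W s^2). j ≠ j': Wtu (3) with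
the smaller one and g = |j - j'| < z^2: ≤ C (log z)^2/(W s). Total ≤ |J| C log z/(W s^2) + |J|^2 C (log z)^2/(W s), which is the right side. -/
def FsqStmt : Prop :=
  ∃ C z0 : ℝ, 0 < C ∧ 16 ≤ z0 ∧ ∀ (z W b N0 X : ℕ) (s : ℝ) (J : Finset ℕ), z0 ≤ z → 1 ≤ W →
    (∀ p : ℕ, p.Prime → p ∣ W → p ≤ z) → W ^ 4 ≤ N0 → 4 ^ z ≤ N0 → 0 < s → s ≤ 1 →
    (∀ j ∈ J, ∀ j' ∈ J, j' < j + z ^ 2) →
    ∑ n ∈ (Ioc N0 X).filter (fun n => n ≡ b [MOD W]),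
      mu s n * (((J.filter (fun j => (n + j).Prime)).card : ℝ)) ^ 2 ≤
      C * (((J.card : ℝ) * s * Real.log z + ((J.card : ℝ) * s * Real.log z) ^ 2) / (W * s ^ 3))

open Classical in
/-- Module Occ (theorem tOcc; two occupied windows). Uses: Gdw, Wtu, Prl, Wnd, Smt, Fe, Fsq.
Proof. κ from Gdw, c_F, c_1, K from Fe, C2 from Fsq, C5 from Wtu (1). k ≥ 1 with 4 C2 C5 ≤ k c_F^2. c1 = c_1/(5 log 4), H = 1/c1, A, c3 from Wnd (k, H). For z ≥ z0: D = 4^(5z), e from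
Gdw (p0 = P0 z ≤ log z), b from Wnd, s = c1/z = c_1/log D (≤ 1). N0 = D/2: W = WW z e ≤ 4^z (primorial_le_4_pow), so W^4 ≤ 4^(4z) ≤ N0, 4^z ≤ N0. J_i = the j ∈ win z w y i with b + j
coprime to W, S = the n ∈ Ioc N0 X with n ≡ b mod W, Nn i n = the number of the j ∈ J_i with n + j prime, M = 1/(W s^3), h i = |J_i| s log z ≥ H (z/log z) (c1/z) log z = 1. Smt: the sum of μ is
≤ C5 M (Wtu); ∑ μ Nn i = ∑_{j ∈ J_i} (sum over n ∈ S with n + j prime) ≥ |J_i| c_F log z/(W s^2) = c_F h_i M (Fe; j ≤ L < z^2 by Prl); Fsq for the squares (J_i ⊆ (z, L], L < z^2). Nn i n ≥ 1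
gives j ∈ win with n + j prime. c = c_F^2/(4 C2). -/
def OccStmt : Prop :=
  ∃ (k : ℕ) (A c3 c c1 K z0 : ℝ), 1 ≤ k ∧ 1 ≤ A ∧ 0 < c3 ∧ c3 ≤ 1 ∧ 0 < c ∧ 0 < c1 ∧ 0 < K ∧
    16 ≤ z0 ∧ ∀ z : ℕ, z0 ≤ z → ∃ e b : ℕ, (e = 1 ∨ (e.Prime ∧ P0 z < e ∧ e ≤ z)) ∧
      (∀ i < k, ∀ r ∈ zon z (ww A z) (yy c3 z) i, ¬ (b + r).Coprime (WW z e)) ∧
      (∀ j : ℕ, 2 ≤ j → (b + j).Coprime (WW z e) → Srv z (P0 z) (P1 z) e j) ∧
      ∀ (s : ℝ) (X : ℕ), s = c1 / z → Real.exp (K / s) ≤ X →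
        c / ((WW z e : ℝ) * s ^ 3) ≤
          ∑ n ∈ (Ioc (4 ^ (5 * z) / 2) X).filter (fun n => n ≡ b [MOD WW z e] ∧
            ∃ i < k, ∃ i' < k, i < i' ∧ (∃ j ∈ win z (ww A z) (yy c3 z) i, (n + j).Prime) ∧
              ∃ j ∈ win z (ww A z) (yy c3 z) i', (n + j).Prime), mu s n

/-- the survivors in the windows -/
def svs (z w y k b e : ℕ) : Finset ℕ :=
  ((range k).biUnion (fun i => win z w y i)).filter (fun j => (b + j).Coprime (WW z e))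

open Classical in
/-- the g with y ≤ g ≤ k (w+y) which are prime gaps below X + z^2 -/
noncomputable def gps (z w y k X : ℕ) : Finset ℕ :=
  (Icc 1 (k * (w + y))).filter (fun g => y ≤ g ∧ ∃ q : ℕ, q ≤ X + z ^ 2 ∧ GapAt g q)

open Classical in
/-- Module Agb (theorem tAgb). Uses: Wtu, Gap.
Proof. W = WW z e, N0 = 4^(5z)/2 (as in Occ: W ≥ 1, W^4 ≤ N0, 4^z ≤ N0). Let n be in the sum on the left. n ≥ N0 ≥ z. Gap: j, g with j, j + g in the windows, y ≤ g, 1 ≤ g ≤ k (w+y), and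
GapAt g (n + (j+g)). q = n + (j+g) ≤ X + z + k (w+y) < X + z^2, so g ∈ gps. n + j and n + (j+g) are primes > z, hence coprime to W, and n ≡ b mod W, so b + j and b + (j+g) are coprime to W:
j, j + g ∈ svs. So mu s n ≤ ∑_{g ∈ gps} ∑_{j ∈ svs, j+g ∈ svs} mu s n [n + j and n + (j+g) prime]. Sum over n and use Wtu (3) (1 ≤ g < z^2). -/
def AgbStmt : Prop :=
  ∃ C z0 : ℝ, 0 < C ∧ 16 ≤ z0 ∧ ∀ (z e b k w y X : ℕ) (s : ℝ), z0 ≤ z → z + k * (w + y) < z ^ 2 →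
    (∀ i < k, ∀ r ∈ zon z w y i, ¬ (b + r).Coprime (WW z e)) → 0 < s → s ≤ 1 →
    ∑ n ∈ (Ioc (4 ^ (5 * z) / 2) X).filter (fun n => n ≡ b [MOD WW z e] ∧
        ∃ i < k, ∃ i' < k, i < i' ∧ (∃ j ∈ win z w y i, (n + j).Prime) ∧
          ∃ j ∈ win z w y i', (n + j).Prime), mu s n ≤
      C * (Real.log z) ^ 2 / ((WW z e : ℝ) * s) *
        ∑ g ∈ gps z w y k X, (((svs z w y k b e).filter (fun j => j + g ∈ svs z w y k b e)).card : ℝ)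

open Classical in
/-- Module Csa (theorem tCsa; Cauchy-Schwarz). Uses: Cls, Apr, Sgm, Rnk, Prs, Prv, Prl.
Proof. B = 4 k A, V = Vz z, L ≤ B z/V. Let g ∈ G. By Cls (2 L ≤ P0 z z: Prl) every element of Sv is a prime or in Jk = the j ∈ Icc 1 L all of whose prime factors are ≤ P1 z or = e. The number of the j ∈ Sv with
j + g ∈ Sv is at most the number of Apr (j, j + g primes; the third part of Srv) plus 2 |Jk|. |Jk| ≤ L/(log L)^5 (Rnk, last part of Prl). Apr (P1 z ≤ z^δ ≤ L^δ by Prs): ≤ C (L (V/log L)^2 Sg g).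
∑_{g ∈ G} Sg g ≤ (|G| ∑ Sg^2)^(1/2) ≤ (|G| C' L)^(1/2) (Sgm, G ⊆ Icc 3 L). So the first part of the sum is ≤ C'' L^(3/2) V^2 |G|^(1/2)/(log z)^2 ≤ C'' B^(3/2) z^(3/2) V^(1/2) |G|^(1/2)/(log z)^2
(log L ≥ log z, L ≤ B z/V) = C'' B^(3/2) (z^2/(log z)^2) (|G| V/z)^(1/2). Second part: |G| ≤ L, 2 L^2/(log L)^5 ≤ 2 z^2/(log z)^3 (L ≤ z log z). -/
def CsaStmt : Prop :=
  ∀ (k : ℕ) (A : ℝ), 1 ≤ k → 1 ≤ A → ∃ C z0 : ℝ, 0 < C ∧ 16 ≤ z0 ∧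
    ∀ (z e y L : ℕ) (Sv G : Finset ℕ), z0 ≤ z → (y : ℝ) ≤ A * z / Vz z → L = z + k * (ww A z + y) →
    (∀ j ∈ Sv, 2 ≤ j ∧ j ≤ L ∧ Srv z (P0 z) (P1 z) e j) → G ⊆ Icc 3 L →
    ∑ g ∈ G, ((Sv.filter (fun j => j + g ∈ Sv)).card : ℝ) ≤
      C * ((z : ℝ) ^ 2 / (Real.log z) ^ 2 * Real.sqrt (G.card * Vz z / z)) +
        2 * ((z : ℝ) ^ 2 / (Real.log z) ^ 3)

open Classical in
/-- Module Prp (theorem tPrp; main proposition). Uses: Prv, Prl, Occ, Agb, Csa.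
Proof. k, A, c3, c, c1, K from Occ, C from Agb, C2 from Csa (k, A). z ≥ z0, s = c1/z ≤ 1, X = ⌈exp (K/s)⌉, w = ww A z, y = yy c3 z (≤ c3 z/V ≤ A z/V; y ≥ 3), L = z + k (w+y) (4 L < z^2 by Prl), e, b from Occ,
G = gps z w y k X ⊆ Icc 3 L, Sv = svs z w y k b e (its elements are ≥ 2, ≤ L and satisfy Srv by Occ). Occ and Agb: c/(W s^3) ≤ C (log z)^2/(W s) Σ, Σ = the sum over g ∈ G, so
Σ ≥ (c/(C c1^2)) z^2/(log z)^2. Csa: Σ ≤ C2 (z^2/(log z)^2) (|G| V/z)^(1/2) + 2 z^2/(log z)^3. For z ≥ z0 the last term is at most half of the lower bound, so (|G| V/z)^(1/2) ≥ c/(2 C C2 c1^2) and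
|G| ≥ c' z/V ≥ c'' L (L ≤ 4 k A z/V). For g ∈ G: y ≤ g ≤ L and q ≤ X + z^2 ≤ exp (K z/c1) + 1 + z^2 ≤ exp ((K/c1 + 2) z). y ≥ c3 z/V - 1 ≥ (c3/2) z/V ≥ c''' z/rho z, L ≤ 4 k A z/V ≤ C''' z/rho z (Prv).
y ≤ L clear. -/
def PrpStmt : Prop :=
  ∃ c C z0 : ℝ, 0 < c ∧ 0 < C ∧ 16 ≤ z0 ∧ ∀ z : ℕ, z0 ≤ z → ∃ y L : ℕ,
    c * (z / rho z) ≤ y ∧ y ≤ L ∧ (L : ℝ) ≤ C * (z / rho z) ∧
    c * L ≤ (((Icc y L).filter (fun g => ∃ q : ℕ, GapAt g q ∧ Real.log q ≤ C * z)).card : ℝ)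

/-! ### The theorem -/

/-- Module Rho (theorem tRho). Uses: nothing.
Proof. l = log x, l2 = log l, l3 = log l2 > 0, and l', l2', l3' for y. x ≤ y ≤ x^2: l ≤ l' ≤ 2 l, l2 ≤ l2' ≤ l2 + log 2 ≤ 2 l2, l3 ≤ l3' ≤ l3 + log 2 ≤ 2 l3 (x ≥ x0). Hence
rho x = l2^2/(l l3) ≤ l2'^2/((l'/2)(l3'/2)) = 4 rho y and rho y ≤ (2 l2)^2/(l l3) = 4 rho x. 1/log x ≤ rho x iff l3 ≤ l2^2. rho x ≤ ε: l2^2/l tends to 0 and l3 ≥ 1. -/
def RhoStmt : Prop :=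
  ∀ ε : ℝ, 0 < ε → ∃ x0 : ℝ, 16 ≤ x0 ∧ ∀ x : ℝ, x0 ≤ x → 0 < rho x ∧ rho x ≤ ε ∧ 1 / Real.log x ≤ rho x ∧
    ∀ y : ℝ, x ≤ y → y ≤ x ^ 2 → rho x ≤ 4 * rho y ∧ rho y ≤ 4 * rho x

open Classical in
/-- THE THEOREM. Module Fnl (theorem tFnl). Uses: Prp, Rho.
Proof. c, C from Prp (take C ≥ 1, c ≤ 1), ε = 1/(4C). Given G, z = ⌊ε G rho G⌋. By Rho (with ε' = 1): rho G ≤ 1, so z ≤ G, and z ≥ (ε/2) G/log G, so G ≤ z^2 and z → ∞. Let y, L be as in Prp.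
L ≤ C z/rho z ≤ 4 C z/rho G ≤ 4 C ε G = G (rho G ≤ 4 rho z). L ≥ y ≥ c z/rho z ≥ c z/(4 rho G) ≥ c ε G/8 (rho z ≤ 4 rho G, z ≥ ε G rho G/2). So the number in Prp is ≥ c (c ε/8) G. Let g be counted in Prp:
y ≤ g ≤ L ≤ G, GapAt g q', log q' ≤ C z. The least q with GapAt g q (Nat.find, IsLeast) satisfies log q ≤ log q' ≤ C z ≤ (C/c) y rho z ≤ (C/c) g rho z. z ≤ y ≤ g (rho z ≤ c) and g ≤ L ≤ C z/rho z ≤ C z log z ≤ z^2,
so rho z ≤ 4 rho g (Rho), log q ≤ (4C/c) g rho g. g ≥ 1. -/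
def FnlStmt : Prop :=
  ∃ c C : ℝ, 0 < c ∧ 0 < C ∧ ∃ G0 : ℕ, ∀ G : ℕ, G0 ≤ G →
    c * G ≤ (((Icc 1 G).filter (fun g => ∃ q : ℕ, IsLeast {q' : ℕ | GapAt g q'} q ∧
      Real.log q ≤ C * (g * rho g))).card : ℝ)

end Pool.Agent.Lib.SG
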